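import Mathlib

/-!
Poisson summation in several variables (helper16).
-/

set_option autoImplicit false

open MeasureTheory Set Filter Topology UnitAddTorus

namespace Pool.CMH.Poi

variable {ι : Type*} [Fintype ι]

/-- integer vectors as real vectors -/
def iv (n : ι → ℤ) : ι → ℝ := fun i => (n i : ℝ)

theorem iv_add (m n : ι → ℤ) : iv (m + n) = iv m + iv n := by
  funext i
  simp [iv]

/-- the coordinates modulo one -/
def tor (x : ι → ℝ) : UnitAddTorus ι := fun i => (x i : AddCircle (1 : ℝ))

theorem tor_add_iv (x : ι → ℝ) (n : ι → ℤ) : tor (x + iv n) = tor x := by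
  funext i
  change ((x i + (n i : ℝ) : ℝ) : AddCircle (1 : ℝ)) = _
  rw [AddCircle.coe_add]
  have : ((n i : ℝ) : AddCircle (1 : ℝ)) = 0 := (AddCircle.coe_eq_zero_iff 1).2 ⟨n i, by simp⟩
  rw [this, add_zero]
  rfl

theorem tor_quot : IsOpenQuotientMap (tor : (ι → ℝ) → UnitAddTorus ι) :=
  IsOpenQuotientMap.piMap fun _ => QuotientAddGroup.isOpenQuotientMap_mk

theorem exists_of_tor_eq {x y : ι → ℝ} (h : tor x = tor y) : ∃ n : ι → ℤ, x = y + iv n := by
  have h1 : ∀ i, ∃ n : ℤ, x i = y i + n := by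
    intro i
    have h2 : ((x i : ℝ) : AddCircle (1 : ℝ)) = (y i : ℝ) := congrFun h i
    have h3 : ((x i - y i : ℝ) : AddCircle (1 : ℝ)) = 0 := by
      rw [AddCircle.coe_sub, h2, sub_self]
    obtain ⟨n, hn⟩ := (AddCircle.coe_eq_zero_iff 1).1 h3
    refine ⟨n, ?_⟩
    have : (n : ℝ) = x i - y i := by simpa using hn
    rw [this]
    ring
  choose n hn using h1
  exact ⟨n, funext hn⟩

/-- the translates of `f` are summable, locally uniformly -/
def LUS (f : (ι → ℝ) → ℂ) : Prop :=
  ∀ R : ℝ, ∃ b : (ι → ℤ) → ℝ, Summable b ∧ ∀ n x, ‖x‖ ≤ R → ‖f (x + iv n)‖ ≤ b n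

/-- the periodisation -/
noncomputable def per (f : (ι → ℝ) → ℂ) (x : ι → ℝ) : ℂ := ∑' n : ι → ℤ, f (x + iv n)

/-- the character `e(m . x)` -/
noncomputable def ch (m : ι → ℤ) (x : ι → ℝ) : ℂ := mFourier m (tor x)

theorem ch_eq (m : ι → ℤ) (x : ι → ℝ) :
    ch m x = Complex.exp (2 * Real.pi * Complex.I * ∑ i, (m i : ℂ) * (x i : ℂ)) := by
  unfold ch mFourier tor
  rw [Finset.mul_sum, Complex.exp_sum]
  refine Finset.prod_congr rfl fun i _ => ?_
  rw [fourier_coe_apply]
  congr 1
  push_cast
  ring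

theorem ch_norm (m : ι → ℤ) (x : ι → ℝ) : ‖ch m x‖ = 1 := by
  rw [ch_eq, Complex.norm_exp]
  rw [Real.exp_eq_one_iff]
  have : (2 * Real.pi * Complex.I * ∑ i, (m i : ℂ) * (x i : ℂ)) =
      (((2 * Real.pi * ∑ i, (m i : ℝ) * x i : ℝ)) : ℂ) * Complex.I := by
    push_cast
    ring
  rw [this, Complex.mul_I_re, Complex.ofReal_im, neg_zero]

theorem ch_add_iv (m : ι → ℤ) (x : ι → ℝ) (n : ι → ℤ) : ch m (x + iv n) = ch m x := by
  unfold ch
  rw [tor_add_iv]

theorem ch_continuous (m : ι → ℤ) : Continuous (ch m) :=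
  (mFourier m).continuous.comp tor_quot.continuous

/-- the Fourier transform at the integer vector `m` -/
noncomputable def ft (f : (ι → ℝ) → ℂ) (m : ι → ℤ) : ℂ := ∫ t : ι → ℝ, ch (-m) t * f t

variable {f : (ι → ℝ) → ℂ}

theorem per_summable (h : LUS f) (x : ι → ℝ) : Summable fun n : ι → ℤ => f (x + iv n) := by
  obtain ⟨b, hb, hf⟩ := h ‖x‖
  exact Summable.of_norm_bounded hb fun n => hf n x le_rfl

theorem per_add_iv (f : (ι → ℝ) → ℂ) (x : ι → ℝ) (m : ι → ℤ) : per f (x + iv m) = per f x := by
  unfold per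
  rw [← (Equiv.addLeft m).tsum_eq (fun n => f (x + iv n))]
  refine tsum_congr fun n => ?_
  rw [Equiv.coe_addLeft, iv_add, add_assoc]

theorem per_continuous (hc : Continuous f) (h : LUS f) : Continuous (per f) := by
  rw [continuous_iff_continuousAt]
  intro x0
  obtain ⟨b, hb, hf⟩ := h (‖x0‖ + 1)
  have h1 : ContinuousOn (per f) {x | ‖x‖ ≤ ‖x0‖ + 1} := by
    refine continuousOn_tsum (fun n => ?_) hb (fun n x hx => hf n x hx)
    exact (hc.comp (continuous_id.add continuous_const)).continuousOn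
  refine h1.continuousAt ?_
  refine Filter.mem_of_superset (Metric.ball_mem_nhds x0 one_pos) fun x hx => ?_
  have h2 : ‖x - x0‖ < 1 := by rwa [← dist_eq_norm]
  have h3 := norm_add_le x0 (x - x0)
  rw [add_sub_cancel] at h3
  exact h3.trans (by linarith)

/-- the periodisation on the torus -/
noncomputable def perT (hc : Continuous f) (h : LUS f) : C(UnitAddTorus ι, ℂ) where
  toFun t := per f (tor_quot.surjective t).choose
  continuous_toFun := by
    rw [tor_quot.isQuotientMap.continuous_iff]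
    have : (fun t => per f (tor_quot.surjective t).choose) ∘ tor = per f := by
      funext x
      obtain ⟨n, hn⟩ := exists_of_tor_eq (tor_quot.surjective (tor x)).choose_spec
      change per f (tor_quot.surjective (tor x)).choose = _
      rw [hn, per_add_iv]
    rw [this]
    exact per_continuous hc h

theorem perT_tor (hc : Continuous f) (h : LUS f) (x : ι → ℝ) : perT hc h (tor x) = per f x := by
  obtain ⟨n, hn⟩ := exists_of_tor_eq (tor_quot.surjective (tor x)).choose_spec
  change per f (tor_quot.surjective (tor x)).choose = _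
  rw [hn, per_add_iv]

/-- the unit cube at `n` -/
def cube (n : ι → ℤ) : Set (ι → ℝ) := {x | ∀ i, x i ∈ Ioc (n i : ℝ) (n i + 1)}

theorem cube_eq_pi (n : ι → ℤ) : cube n = Set.pi univ fun i => Ioc (n i : ℝ) (n i + 1) := by
  ext x
  simp [cube]

theorem cube_meas (n : ι → ℤ) : MeasurableSet (cube n) := by
  rw [cube_eq_pi]
  exact MeasurableSet.univ_pi fun i => measurableSet_Ioc

theorem cube_vol (n : ι → ℤ) : volume (cube n) = 1 := by
  rw [cube_eq_pi, volume_pi_pi]
  simp

theorem cube_norm {x : ι → ℝ} (hx : x ∈ cube (0 : ι → ℤ)) : ‖x‖ ≤ 1 := by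
  rw [pi_norm_le_iff_of_nonneg zero_le_one]
  intro i
  have h1 := hx i
  simp only [Pi.zero_apply, Int.cast_zero, zero_add, mem_Ioc] at h1
  rw [Real.norm_eq_abs, abs_le]
  exact ⟨by linarith, h1.2⟩

theorem cube_union : (⋃ n : ι → ℤ, cube n) = univ := by
  rw [eq_univ_iff_forall]
  intro x
  rw [mem_iUnion]
  refine ⟨fun i => ⌈x i⌉ - 1, fun i => ?_⟩
  push_cast
  constructor
  · have := Int.ceil_lt_add_one (x i)
    linarith
  · have := Int.le_ceil (x i)
    linarith

theorem cube_disjoint : Pairwise (Function.onFun Disjoint (cube : (ι → ℤ) → Set (ι → ℝ))) := by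
  intro m n hmn
  rw [Function.onFun, Set.disjoint_left]
  intro x hm hn
  apply hmn
  funext i
  have h1 := hm i
  have h2 := hn i
  have h3 : (m i : ℝ) < n i + 1 := h1.1.trans_le h2.2
  have h4 : (n i : ℝ) < m i + 1 := h2.1.trans_le h1.2
  have h5 : m i < n i + 1 := by exact_mod_cast h3
  have h6 : n i < m i + 1 := by exact_mod_cast h4
  omega

theorem cube_shift (g : (ι → ℝ) → ℂ) (n : ι → ℤ) :
    ∫ x in cube (0 : ι → ℤ), g (x + iv n) = ∫ x in cube n, g x := by
  have h := (measurePreserving_add_right (volume : Measure (ι → ℝ)) (iv n)).setIntegral_preimage_emb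
    (MeasurableEquiv.addRight (iv n)).measurableEmbedding g (cube n)
  rw [← h]
  congr 2
  ext x
  simp only [cube, mem_ofPred_eq, mem_preimage, Pi.add_apply, iv, mem_Ioc, Pi.zero_apply,
    Int.cast_zero, zero_add]
  refine forall_congr' fun i => ?_
  constructor
  · rintro ⟨h1, h2⟩; constructor <;> linarith
  · rintro ⟨h1, h2⟩; constructor <;> linarith

theorem lus_integrable (hc : Continuous f) (h : LUS f) : Integrable f := by
  obtain ⟨b, hb, hf⟩ := h 1
  rw [← integrableOn_univ, ← cube_union]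
  have hbd : ∀ n : ι → ℤ, ∀ x ∈ cube n, ‖f x‖ ≤ b n := by
    intro n x hx
    have h1 := hf n (x - iv n) (cube_norm (by
      intro i
      have := hx i
      simp only [Pi.sub_apply, iv, mem_Ioc, Pi.zero_apply, Int.cast_zero, zero_add] at this ⊢
      constructor <;> linarith [this.1, this.2]))
    rwa [sub_add_cancel] at h1
  have hi : ∀ n : ι → ℤ, IntegrableOn f (cube n) := fun n =>
    Measure.integrableOn_of_bounded (by rw [cube_vol]; exact ENNReal.one_ne_top)
      hc.aestronglyMeasurable ((ae_restrict_iff' (cube_meas n)).2 (.of_forall (hbd n)))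
  refine integrableOn_iUnion_of_summable_integral_norm hi ?_
  refine Summable.of_nonneg_of_le (fun n => integral_nonneg fun x => norm_nonneg _) (fun n => ?_) hb
  have h2 := norm_setIntegral_le_of_norm_le_const (μ := volume) (s := cube n)
    (f := fun x => (‖f x‖ : ℝ)) (C := b n) (by rw [cube_vol]; exact ENNReal.one_lt_top)
    (fun x hx => by rw [norm_norm]; exact hbd n x hx)
  rw [measureReal_def, cube_vol, ENNReal.toReal_one, mul_one] at h2
  exact (le_abs_self _).trans h2

theorem lus_mul_ch (h : LUS f) (m : ι → ℤ) : LUS (fun x => ch m x * f x) := by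
  intro R
  obtain ⟨b, hb, hf⟩ := h R
  refine ⟨b, hb, fun n x hx => ?_⟩
  rw [norm_mul, ch_norm, one_mul]
  exact hf n x hx

theorem integral_eq_tsum_cube (hc : Continuous f) (h : LUS f) :
    HasSum (fun n : ι → ℤ => ∫ x in cube n, f x) (∫ x, f x) := by
  have h1 := hasSum_integral_iUnion (μ := (volume : Measure (ι → ℝ))) (f := f)
    (s := fun n : ι → ℤ => cube n) cube_meas cube_disjoint
    (by rw [cube_union]; exact (lus_integrable hc h).integrableOn)
  rwa [cube_union, setIntegral_univ] at h1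

theorem integral_cube_per (hc : Continuous f) (h : LUS f) :
    ∫ x in cube (0 : ι → ℤ), per f x = ∫ x, f x := by
  obtain ⟨b, hb, hf⟩ := h 1
  have hi : ∀ n : ι → ℤ, IntegrableOn (fun x => f (x + iv n)) (cube 0) := fun n =>
    Measure.integrableOn_of_bounded (by rw [cube_vol]; exact ENNReal.one_ne_top)
      (hc.comp (continuous_id.add continuous_const)).aestronglyMeasurable
      ((ae_restrict_iff' (cube_meas 0)).2 (.of_forall fun x hx => hf n x (cube_norm hx)))
  have h2 := hasSum_integral_of_summable_integral_norm (μ := volume.restrict (cube (0 : ι → ℤ)))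
    (F := fun (n : ι → ℤ) x => f (x + iv n)) hi (by
      refine Summable.of_nonneg_of_le (fun n => integral_nonneg fun x => norm_nonneg _)
        (fun n => ?_) hb
      have h2 := norm_setIntegral_le_of_norm_le_const (μ := volume) (s := cube (0 : ι → ℤ))
        (f := fun x => (‖f (x + iv n)‖ : ℝ)) (C := b n) (by rw [cube_vol]; exact ENNReal.one_lt_top)
        (fun x hx => by rw [norm_norm]; exact hf n x (cube_norm hx))
      rw [measureReal_def, cube_vol, ENNReal.toReal_one, mul_one] at h2
      exact (le_abs_self _).trans h2)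
  have h3 := integral_eq_tsum_cube hc h
  simp_rw [cube_shift f] at h2
  exact h2.unique h3 ▸ rfl

theorem coeff_perT (hc : Continuous f) (h : LUS f) (m : ι → ℤ) :
    mFourierCoeff (perT hc h) m = ft f m := by
  rw [mFourierCoeff_eq_integral _ m (0 : ι → ℝ)]
  have h1 : ∀ x : ι → ℝ, mFourier (-m) (fun i => (x i : AddCircle (1 : ℝ))) •
      perT hc h (fun i => (x i : AddCircle (1 : ℝ))) = per (fun x => ch (-m) x * f x) x := by
    intro x
    change ch (-m) x • perT hc h (tor x) = _
    rw [perT_tor, smul_eq_mul, per, per, ← tsum_mul_left]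
    refine tsum_congr fun n => ?_
    rw [ch_add_iv]
  have h2 : {x : ι → ℝ | ∀ i, x i ∈ Ioc ((0 : ι → ℝ) i) ((0 : ι → ℝ) i + 1)} =
      cube (0 : ι → ℤ) := by
    ext x
    simp [cube]
  rw [h2]
  simp_rw [h1]
  exact integral_cube_per ((ch_continuous _).mul hc) (lus_mul_ch h _)

/-- **Poisson summation in several variables** -/
theorem poisson (hc : Continuous f) (h : LUS f) (hs : Summable (ft f)) (x : ι → ℝ) :
    HasSum (fun m : ι → ℤ => ft f m * ch m x) (∑' n : ι → ℤ, f (x + iv n)) := by
  have h0 : mFourierCoeff (perT hc h) = ft f := funext (coeff_perT hc h)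
  have h1 := hasSum_mFourier_series_apply_of_summable (f := perT hc h)
    (by rw [h0]; exact hs) (tor x)
  rw [perT_tor, h0] at h1
  exact h1

end Pool.CMH.Poi
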