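import Mathlib
import Pool.Agent.Lib.CMH.Poisson

/-!
Poisson summation for Gaussians in several variables (helper16):
`∑ m, exp (- π |A m|² + 2 π i c·m) = |det A|⁻¹ ∑ n, exp (- π |A⁻ᵀ (n - c)|²)`, `c` complex.
-/

set_option autoImplicit false

open MeasureTheory Set Filter Topology

namespace Pool.CMH.Poi

variable {ι : Type*} [Fintype ι] [DecidableEq ι]

/-- product bounds are summable over the integer vectors -/
theorem summable_prod (g : ℤ → ℝ) (h0 : ∀ k, 0 ≤ g k) (hg : Summable g) :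
    Summable fun n : ι → ℤ => ∏ i, g (n i) := by
  refine summable_of_sum_le (fun n => Finset.prod_nonneg fun i _ => h0 _)
    (c := ∏ _i : ι, ∑' k, g k) fun s => ?_
  let t : Finset ℤ := s.biUnion fun n => Finset.univ.image n
  have h1 : s ⊆ Fintype.piFinset fun _ : ι => t := by
    intro n hn
    rw [Fintype.mem_piFinset]
    intro i
    exact Finset.mem_biUnion.2 ⟨n, hn, Finset.mem_image.2 ⟨i, Finset.mem_univ i, rfl⟩⟩
  calc ∑ n ∈ s, ∏ i, g (n i) ≤ ∑ n ∈ Fintype.piFinset fun _ : ι => t, ∏ i, g (n i) :=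
        Finset.sum_le_sum_of_subset_of_nonneg h1 fun n _ _ => Finset.prod_nonneg fun i _ => h0 _
    _ = ∏ _i : ι, ∑ k ∈ t, g k := (Finset.prod_univ_sum (fun _ : ι => t) (fun _ k => g k)).symm
    _ ≤ ∏ _i : ι, ∑' k, g k := Finset.prod_le_prod
        (fun i _ => Finset.sum_nonneg fun k _ => h0 k)
        (fun i _ => hg.sum_le_tsum t fun k _ => h0 k)

theorem summable_gauss1 {a : ℝ} (ha : 0 < a) : Summable fun k : ℤ => Real.exp (-a * (k : ℝ) ^ 2) := by
  have him : (Complex.I * ((a / Real.pi : ℝ) : ℂ)).im = a / Real.pi := by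
    simp
  have h1 := ((summable_jacobiTheta₂_term_iff 0 (Complex.I * ((a / Real.pi : ℝ) : ℂ))).2 (by
    rw [him]
    have := Real.pi_pos
    positivity)).norm
  refine h1.congr fun k => ?_
  rw [norm_jacobiTheta₂_term, him, Complex.zero_im]
  congr 1
  have := Real.pi_ne_zero
  field_simp
  ring

/-- Gaussians are summable over the integer vectors -/
theorem summable_gauss {a : ℝ} (ha : 0 < a) :
    Summable fun n : ι → ℤ => Real.exp (-a * ∑ i, ((n i : ℝ)) ^ 2) := by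
  refine (summable_prod (ι := ι) _ (fun k => (Real.exp_pos _).le) (summable_gauss1 ha)).congr
    fun n => ?_
  rw [Finset.mul_sum, Real.exp_sum]

/-- squared length -/
def sq (x : ι → ℝ) : ℝ := ∑ i, x i ^ 2

omit [DecidableEq ι] in
theorem sq_nonneg (x : ι → ℝ) : 0 ≤ sq x := Finset.sum_nonneg fun _ _ => _root_.sq_nonneg _

/-- an invertible matrix is bounded below -/
theorem exists_lower (A : Matrix ι ι ℝ) (hA : A.det ≠ 0) :
    ∃ δ > 0, ∀ x : ι → ℝ, δ * sq x ≤ sq (A.mulVec x) := by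
  have hu : IsUnit A.det := isUnit_iff_ne_zero.2 hA
  refine ⟨(1 + ∑ i, ∑ j, (A⁻¹ i j) ^ 2)⁻¹, ?_, fun x => ?_⟩
  · have : 0 ≤ ∑ i, ∑ j, (A⁻¹ i j) ^ 2 :=
      Finset.sum_nonneg fun i _ => Finset.sum_nonneg fun j _ => _root_.sq_nonneg _
    positivity
  · have h0 : 0 ≤ ∑ i, ∑ j, (A⁻¹ i j) ^ 2 :=
      Finset.sum_nonneg fun i _ => Finset.sum_nonneg fun j _ => _root_.sq_nonneg _
    have h1 : x = A⁻¹.mulVec (A.mulVec x) := by
      rw [Matrix.mulVec_mulVec, Matrix.nonsing_inv_mul A hu, Matrix.one_mulVec]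
    have h2 : ∀ i, x i ^ 2 ≤ (∑ j, (A⁻¹ i j) ^ 2) * sq (A.mulVec x) := by
      intro i
      have h3 : x i = ∑ j, A⁻¹ i j * (A.mulVec x) j := congrFun h1 i
      conv_lhs => rw [h3]
      exact Finset.sum_mul_sq_le_sq_mul_sq _ _ _
    have h4 : sq x ≤ (∑ i, ∑ j, (A⁻¹ i j) ^ 2) * sq (A.mulVec x) := by
      unfold sq at h2 ⊢
      rw [Finset.sum_mul]
      exact Finset.sum_le_sum fun i _ => h2 i
    rw [inv_mul_le_iff₀ (by positivity)]
    nlinarith [sq_nonneg (A.mulVec x)]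

/-- the Gaussian `exp (- π |A x|² + 2 π i c·x)` -/
noncomputable def gau (A : Matrix ι ι ℝ) (c : ι → ℂ) (x : ι → ℝ) : ℂ :=
  Complex.exp (-Real.pi * ((sq (A.mulVec x) : ℝ) : ℂ) +
    2 * Real.pi * Complex.I * ∑ i, c i * (x i : ℂ))

omit [DecidableEq ι] in
theorem sq_continuous : Continuous (sq : (ι → ℝ) → ℝ) := by
  unfold sq
  fun_prop

omit [DecidableEq ι] in
theorem gau_continuous (A : Matrix ι ι ℝ) (c : ι → ℂ) : Continuous (gau A c) := by
  unfold gau
  have h1 : Continuous fun x : ι → ℝ => sq (A.mulVec x) :=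
    sq_continuous.comp (Continuous.matrix_mulVec continuous_const continuous_id)
  have h2 := Complex.continuous_ofReal.comp h1
  refine Complex.continuous_exp.comp ((continuous_const.mul h2).add (continuous_const.mul ?_))
  refine continuous_finsetSum _ fun i _ => ?_
  exact continuous_const.mul (Complex.continuous_ofReal.comp (continuous_apply i))

omit [DecidableEq ι] in
theorem gau_norm (A : Matrix ι ι ℝ) (c : ι → ℂ) (x : ι → ℝ) :
    ‖gau A c x‖ = Real.exp (-Real.pi * sq (A.mulVec x) - 2 * Real.pi * ∑ i, (c i).im * x i) := by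
  unfold gau
  rw [Complex.norm_exp]
  congr 1
  have h1 : (2 * Real.pi * Complex.I * ∑ i, c i * (x i : ℂ)).re =
      -(2 * Real.pi * ∑ i, (c i).im * x i) := by
    rw [show (2 * (Real.pi : ℂ) * Complex.I * ∑ i, c i * (x i : ℂ)) =
      ((2 * Real.pi : ℝ) : ℂ) * (Complex.I * ∑ i, c i * (x i : ℂ)) by push_cast; ring,
      Complex.re_ofReal_mul, Complex.I_mul_re, Complex.im_sum]
    simp
  rw [Complex.add_re, h1, show (-(Real.pi : ℂ) * ((sq (A.mulVec x) : ℝ) : ℂ)) =
    ((-Real.pi * sq (A.mulVec x) : ℝ) : ℂ) by push_cast; ring, Complex.ofReal_re]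
  ring

/-- Gaussian upper bound for `gau` -/
theorem gau_bound (A : Matrix ι ι ℝ) (hA : A.det ≠ 0) (c : ι → ℂ) :
    ∃ δ > 0, ∃ C > 0, ∀ x : ι → ℝ, ‖gau A c x‖ ≤ C * Real.exp (-δ * sq x) := by
  obtain ⟨δ, hδ, h⟩ := exists_lower A hA
  refine ⟨Real.pi * δ / 2, by positivity,
    Real.exp (2 * Real.pi * (sq fun i => (c i).im) / δ), Real.exp_pos _, fun x => ?_⟩
  rw [gau_norm, ← Real.exp_add]
  apply Real.exp_le_exp.2
  have h1 := h x
  -- 2 |c.x| ≤ 2/δ |c|² + δ/2 |x|²
  have h2 : -(∑ i, (c i).im * x i) ≤ (sq fun i => (c i).im) / δ + δ / 4 * sq x := by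
    unfold sq
    rw [Finset.sum_div, Finset.mul_sum, ← Finset.sum_add_distrib, ← Finset.sum_neg_distrib]
    refine Finset.sum_le_sum fun i _ => ?_
    have h3 : 0 ≤ ((c i).im / δ + x i / 2) ^ 2 * δ := by positivity
    have h4 : ((c i).im / δ + x i / 2) ^ 2 * δ =
        (c i).im ^ 2 / δ + (c i).im * x i + δ / 4 * x i ^ 2 := by
      field_simp
      ring
    linarith
  have hpi := Real.pi_pos
  have h5 := mul_le_mul_of_nonneg_left h1 hpi.le
  have h6 := mul_le_mul_of_nonneg_left h2 (by positivity : (0:ℝ) ≤ 2 * Real.pi)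
  have h7 : 2 * Real.pi * ((sq fun i => (c i).im) / δ + δ / 4 * sq x) =
      2 * Real.pi * (sq fun i => (c i).im) / δ + Real.pi * δ / 2 * sq x := by ring
  rw [h7] at h6
  linarith

omit [DecidableEq ι] in
theorem sq_le_of_norm {R : ℝ} {x : ι → ℝ} (hx : ‖x‖ ≤ R) : sq x ≤ Fintype.card ι * R ^ 2 := by
  unfold sq
  rw [← nsmul_eq_mul, ← Finset.card_univ, ← Finset.sum_const]
  refine Finset.sum_le_sum fun i _ => ?_
  have h1 := (norm_le_pi_norm x i).trans hx
  rw [Real.norm_eq_abs] at h1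
  nlinarith [abs_nonneg (x i), sq_abs (x i)]

omit [DecidableEq ι] in
theorem sq_iv_le (x : ι → ℝ) (n : ι → ℤ) : sq (iv n) ≤ 2 * sq (x + iv n) + 2 * sq x := by
  unfold sq
  rw [Finset.mul_sum, Finset.mul_sum, ← Finset.sum_add_distrib]
  refine Finset.sum_le_sum fun i _ => ?_
  rw [Pi.add_apply]
  nlinarith [_root_.sq_nonneg (iv n i + 2 * x i)]

/-- functions with a Gaussian bound have locally uniformly summable translates -/
theorem lus_of_bound {f : (ι → ℝ) → ℂ} {C δ : ℝ} (hC : 0 < C) (hδ : 0 < δ)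
    (h : ∀ x, ‖f x‖ ≤ C * Real.exp (-δ * sq x)) : LUS f := by
  intro R
  refine ⟨fun n => C * Real.exp (δ * (Fintype.card ι * R ^ 2)) *
    Real.exp (-(δ / 2) * ∑ i, ((n i : ℝ)) ^ 2), ?_, fun n x hx => ?_⟩
  · exact (summable_gauss (by positivity)).mul_left _
  · refine (h _).trans ?_
    change C * Real.exp (-δ * sq (x + iv n)) ≤ C * Real.exp (δ * (Fintype.card ι * R ^ 2)) *
      Real.exp (-(δ / 2) * ∑ i, ((n i : ℝ)) ^ 2)
    rw [mul_assoc C, ← Real.exp_add]
    refine mul_le_mul_of_nonneg_left (Real.exp_le_exp.2 ?_) hC.le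
    have h1 := sq_iv_le x n
    have h2 := sq_le_of_norm hx
    have h3 : sq (iv n) = ∑ i, ((n i : ℝ)) ^ 2 := rfl
    rw [h3] at h1
    nlinarith [mul_le_mul_of_nonneg_left h1 hδ.le, mul_le_mul_of_nonneg_left h2 hδ.le]

theorem gau_lus (A : Matrix ι ι ℝ) (hA : A.det ≠ 0) (c : ι → ℂ) : LUS (gau A c) := by
  obtain ⟨δ, hδ, C, hC, h⟩ := gau_bound A hA c
  exact lus_of_bound hC hδ h

/-- change of variables by an invertible matrix -/
theorem integral_mulVec (A : Matrix ι ι ℝ) (hA : A.det ≠ 0) (g : (ι → ℝ) → ℂ) :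
    ∫ x : ι → ℝ, g (A.mulVec x) = ((|A.det|⁻¹ : ℝ) : ℂ) * ∫ x : ι → ℝ, g x := by
  have h1 := Real.map_matrix_volume_pi_eq_smul_volume_pi hA
  have he : MeasurableEmbedding (Matrix.toLin' A) := by
    have hinj : Function.Injective (Matrix.toLin' A) := by
      intro x y hxy
      have hu : IsUnit A.det := isUnit_iff_ne_zero.2 hA
      have h2 : A⁻¹.mulVec (A.mulVec x) = A⁻¹.mulVec (A.mulVec y) := congrArg _ hxy
      rwa [Matrix.mulVec_mulVec, Matrix.mulVec_mulVec, Matrix.nonsing_inv_mul A hu,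
        Matrix.one_mulVec, Matrix.one_mulVec] at h2
    exact ((Matrix.toLin' A).continuous_of_finiteDimensional).measurableEmbedding hinj
  have h3 := he.integral_map (μ := volume) g
  rw [h1, integral_smul_measure, ENNReal.toReal_ofReal (abs_nonneg _), abs_inv] at h3
  rw [← Complex.real_smul]
  exact h3.symm

/-- the transform of the Gaussian -/
theorem integral_gau (A : Matrix ι ι ℝ) (hA : A.det ≠ 0) (c : ι → ℂ) :
    ∫ x : ι → ℝ, gau A c x = ((|A.det|⁻¹ : ℝ) : ℂ) *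
      Complex.exp (-Real.pi * ∑ i, ((A⁻¹.transpose.map (fun r : ℝ => (r : ℂ))).mulVec c i) ^ 2) := by
  have hu : IsUnit A.det := isUnit_iff_ne_zero.2 hA
  set d : ι → ℂ := (A⁻¹.transpose.map (fun r : ℝ => (r : ℂ))).mulVec c with hd
  have h1 : ∀ x : ι → ℝ, gau A c x = (fun v : ι → ℝ => Complex.exp (-(Real.pi : ℂ) *
      ∑ i, (v i : ℂ) ^ 2 + ∑ i, (2 * Real.pi * Complex.I * d i) * (v i : ℂ))) (A.mulVec x) := by
    intro x
    unfold gau
    simp only
    congr 2
    · unfold sq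
      push_cast
      rfl
    · have h2 : ∑ i, d i * ((A.mulVec x i : ℝ) : ℂ) = ∑ i, c i * (x i : ℂ) := by
        have h3 : ∀ i, (x i : ℂ) = ∑ j, ((A⁻¹ i j : ℝ) : ℂ) * ((A.mulVec x j : ℝ) : ℂ) := by
          intro i
          have h4 : x = A⁻¹.mulVec (A.mulVec x) := by
            rw [Matrix.mulVec_mulVec, Matrix.nonsing_inv_mul A hu, Matrix.one_mulVec]
          have h5 : x i = ∑ j, A⁻¹ i j * (A.mulVec x) j := congrFun h4 i
          rw [h5]
          push_cast
          rfl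
        have h6 : ∀ j, d j = ∑ i, ((A⁻¹ i j : ℝ) : ℂ) * c i := fun j => rfl
        calc ∑ j, d j * ((A.mulVec x j : ℝ) : ℂ)
            = ∑ j, ∑ i, c i * (((A⁻¹ i j : ℝ) : ℂ) * ((A.mulVec x j : ℝ) : ℂ)) := by
              refine Finset.sum_congr rfl fun j _ => ?_
              rw [h6, Finset.sum_mul]
              exact Finset.sum_congr rfl fun i _ => by ring
          _ = ∑ i, c i * (x i : ℂ) := by
              rw [Finset.sum_comm]
              refine Finset.sum_congr rfl fun i _ => ?_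
              rw [← Finset.mul_sum, ← h3]
      rw [← h2, Finset.mul_sum]
      exact Finset.sum_congr rfl fun i _ => by ring
  have h8 : ∫ x : ι → ℝ, gau A c x = ∫ x : ι → ℝ, (fun v : ι → ℝ =>
      Complex.exp (-(Real.pi : ℂ) * ∑ i, (v i : ℂ) ^ 2 +
        ∑ i, (2 * Real.pi * Complex.I * d i) * (v i : ℂ))) (A.mulVec x) :=
    integral_congr_ae (.of_forall h1)
  have h9 := integral_mulVec A hA (fun v : ι → ℝ =>
      Complex.exp (-(Real.pi : ℂ) * ∑ i, (v i : ℂ) ^ 2 +
        ∑ i, (2 * Real.pi * Complex.I * d i) * (v i : ℂ)))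
  refine (h8.trans h9).trans ?_
  congr 1
  have h7 := GaussianFourier.integral_cexp_neg_mul_sum_add (ι := ι) (b := (Real.pi : ℂ))
    (by rw [Complex.ofReal_re]; exact Real.pi_pos) (fun i => 2 * Real.pi * Complex.I * d i)
  rw [h7]
  have hpi : (Real.pi : ℂ) ≠ 0 := Complex.ofReal_ne_zero.2 Real.pi_ne_zero
  rw [div_self hpi, Complex.one_cpow, one_mul]
  congr 1
  rw [Finset.sum_div, Finset.mul_sum]
  refine Finset.sum_congr rfl fun i _ => ?_
  field_simp
  linear_combination (4 * d i ^ 2) * Complex.I_sq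

/-- the dual Gaussian at `n` -/
noncomputable def gauD (A : Matrix ι ι ℝ) (c : ι → ℂ) (n : ι → ℤ) : ℂ :=
  ((|A.det|⁻¹ : ℝ) : ℂ) * Complex.exp (-Real.pi *
    ∑ i, ((A⁻¹.transpose.map (fun r : ℝ => (r : ℂ))).mulVec (fun j => c j - (n j : ℂ)) i) ^ 2)

theorem ft_gau (A : Matrix ι ι ℝ) (hA : A.det ≠ 0) (c : ι → ℂ) (n : ι → ℤ) :
    ft (gau A c) n = gauD A c n := by
  unfold ft gauD
  rw [← integral_gau A hA]
  refine integral_congr_ae (.of_forall fun x => ?_)
  change ch (-n) x * gau A c x = gau A (fun j => c j - (n j : ℂ)) x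
  rw [ch_eq]
  unfold gau
  rw [← Complex.exp_add]
  congr 1
  have : ∑ i, ((c i - (n i : ℂ)) * (x i : ℂ)) = ∑ i, c i * (x i : ℂ) +
      ∑ i, (((-n) i : ℤ) : ℂ) * (x i : ℂ) := by
    rw [← Finset.sum_add_distrib]
    refine Finset.sum_congr rfl fun i _ => ?_
    rw [Pi.neg_apply]
    push_cast
    ring
  rw [this]
  ring

theorem gauD_summable (A : Matrix ι ι ℝ) (hA : A.det ≠ 0) (c : ι → ℂ) : Summable (gauD A c) := by
  have hu : IsUnit A.det := isUnit_iff_ne_zero.2 hA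
  -- the dual Gaussian is a Gaussian of the same kind
  have hB : (A⁻¹.transpose).det ≠ 0 := by
    rw [Matrix.det_transpose]
    exact (Matrix.isUnit_nonsing_inv_det A hu).ne_zero
  set B := A⁻¹.transpose with hBdef
  -- `c' = i Bᵀ B c`
  set e : ι → ℂ := (B.map (fun r : ℝ => (r : ℂ))).mulVec c with he
  set c' : ι → ℂ := fun j => -Complex.I * ∑ i, ((B i j : ℝ) : ℂ) * e i with hc'
  have h1 := (per_summable (gau_lus B hB c') 0)
  have h2 : ∀ n : ι → ℤ, gauD A c n = (((|A.det|⁻¹ : ℝ) : ℂ) *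
      Complex.exp (-Real.pi * ∑ i, (e i) ^ 2)) * gau B c' (0 + iv n) := by
    intro n
    unfold gauD gau
    rw [← hBdef, mul_assoc, ← Complex.exp_add, zero_add]
    congr 2
    have h3 : ∀ i, (B.map (fun r : ℝ => (r : ℂ))).mulVec (fun j => c j - (n j : ℂ)) i =
        e i - ((B.mulVec (iv n) i : ℝ) : ℂ) := by
      intro i
      rw [he]
      simp only [Matrix.mulVec, dotProduct, Matrix.map_apply, iv]
      push_cast
      rw [← Finset.sum_sub_distrib]
      exact Finset.sum_congr rfl fun j _ => by ring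
    simp_rw [h3]
    have h4 : ∑ i, c' i * ((iv n i : ℝ) : ℂ) = -Complex.I * ∑ i, e i * ((B.mulVec (iv n) i : ℝ) : ℂ) := by
      have h5 : ∀ i, ((B.mulVec (iv n) i : ℝ) : ℂ) = ∑ j, ((B i j : ℝ) : ℂ) * ((iv n j : ℝ) : ℂ) := by
        intro i
        simp only [Matrix.mulVec, dotProduct]
        push_cast
        rfl
      simp_rw [h5, hc', Finset.mul_sum, Finset.sum_mul]
      rw [Finset.sum_comm]
      refine Finset.sum_congr rfl fun i _ => Finset.sum_congr rfl fun j _ => ?_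
      ring
    rw [h4]
    unfold sq
    push_cast
    have h6 : ∑ i, (e i - ((B.mulVec (iv n) i : ℝ) : ℂ)) ^ 2 = ∑ i, e i ^ 2 -
        2 * ∑ i, e i * ((B.mulVec (iv n) i : ℝ) : ℂ) + ∑ i, ((B.mulVec (iv n) i : ℝ) : ℂ) ^ 2 := by
      rw [Finset.mul_sum, ← Finset.sum_sub_distrib, ← Finset.sum_add_distrib]
      exact Finset.sum_congr rfl fun i _ => by ring
    rw [h6]
    linear_combination (2 * Real.pi * ∑ i, e i * ((B.mulVec (iv n) i : ℝ) : ℂ)) * Complex.I_sq
  refine (h1.mul_left (((|A.det|⁻¹ : ℝ) : ℂ) * Complex.exp (-Real.pi * ∑ i, (e i) ^ 2))).congr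
    fun n => ?_
  exact (h2 n).symm

/-- **Poisson summation for Gaussians in several variables, complex shift** -/
theorem poisson_gau (A : Matrix ι ι ℝ) (hA : A.det ≠ 0) (c : ι → ℂ) :
    HasSum (gauD A c) (∑' m : ι → ℤ, gau A c (iv m)) := by
  have h0 : ft (gau A c) = gauD A c := funext (ft_gau A hA c)
  have h1 := poisson (gau_continuous A c) (gau_lus A hA c) (by rw [h0]; exact gauD_summable A hA c)
    (0 : ι → ℝ)
  have h2 : (fun m : ι → ℤ => ft (gau A c) m * ch m 0) = gauD A c := by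
    funext m
    rw [h0, ch_eq]
    simp
  have h3 : (∑' n : ι → ℤ, gau A c (0 + iv n)) = ∑' m : ι → ℤ, gau A c (iv m) :=
    tsum_congr fun n => by rw [zero_add]
  rw [h2, h3] at h1
  exact h1

end Pool.CMH.Poi
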