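import Pool.Agent.Lib.CMH.Defs

/-!
# The final statement: compact ball quotients, invariant theta one-forms, algebraic classes
-/

open scoped ComplexConjugate Matrix
open Complex

namespace Pool.Agent.CMH

noncomputable section

/-! ## Arithmetic subgroups of `SU(h)` -/

/-- Complex `3 × 3` matrices of determinant one. -/
abbrev SL3 : Type := Matrix.SpecialLinearGroup (Fin 3) ℂ

section general

variable (k : Fin 3 → ℝ)

/-- The action on the ball by fractional linear maps. -/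
def actC (g : SL3) (y : Fin 2 → ℂ) : Fin 2 → ℂ :=
  fun j => (g.1 *ᵥ hat y) j.castSucc / (g.1 *ᵥ hat y) 2

/-- `Γ\ball` is compact. -/
def Cocompact (Γ : Subgroup SL3) : Prop :=
  ∃ C : Set (Fin 2 → ℂ), IsCompact C ∧ C ⊆ ball k ∧ ∀ y ∈ ball k, ∃ g ∈ Γ, actC g y ∈ C

/-- The one-form `∑ ω_i dy_i` on the ball is invariant under `Γ`. -/
def InvOne (Γ : Subgroup SL3) (ω : Fin 2 → (Fin 2 → ℂ) → ℂ) : Prop :=
  ∀ g ∈ Γ, ∀ y ∈ ball k, ∀ j,
    ∑ i, ω i (actC g y) * fderiv ℂ (fun z => actC g z i) y (Pi.single j 1) = ω j y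

/-- The one-form `∑ ω_i dy_i` on the ball is holomorphic and closed. -/
def ClosedHol (ω : Fin 2 → (Fin 2 → ℂ) → ℂ) : Prop :=
  (∀ i, DifferentiableOn ℂ (ω i) (ball k)) ∧
    ∀ y ∈ ball k, fderiv ℂ (ω 0) y (Pi.single 1 1) = fderiv ℂ (ω 1) y (Pi.single 0 1)

/-- A weight: continuous, compactly supported in the ball, nonnegative, with
`∑_{g ∈ Γ} χ(g y) = 1`. The integral over `Γ\ball` of an invariant `(2,2)`-form is its integral
over the ball against `χ`. -/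
structure IsWt (Γ : Subgroup SL3) (χ : (Fin 2 → ℂ) → ℝ) : Prop where
  cont : Continuous χ
  comp : HasCompactSupport χ
  supp : tsupport χ ⊆ ball k
  nonneg : ∀ y, 0 ≤ χ y
  sum : ∀ y ∈ ball k, HasSum (fun g : Γ => χ (actC g.1 y)) 1

end general

variable {F : Type} [Field F] [NumberField F]

/-- `z` lies in the order `𝓞 + 𝓞 √-D`, embedded in `ℂ` by the place `v` and `√-D ↦ i √(v D)`. -/
def IsInt (v : F →+* ℝ) (D : F) (z : ℂ) : Prop :=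
  ∃ x y : F, IsIntegral ℤ x ∧ IsIntegral ℤ y ∧ z = (v x : ℂ) + I * (√(v D) : ℂ) * (v y : ℂ)

/-- `g ∈ SU(h)(𝓞 + 𝓞 √-D)`. -/
def InSU (v : F →+* ℝ) (D : F) (h : Fin 3 → F) (g : SL3) : Prop :=
  (∀ i j, IsInt v D (g.1 i j)) ∧
    g.1ᴴ * Matrix.diagonal (fun j => (v (h j) : ℂ)) * g.1 =
      Matrix.diagonal (fun j => (v (h j) : ℂ))

/-- `Γ` is a subgroup of finite index of `SU(h)(𝓞 + 𝓞 √-D)`. -/
structure IsArith (v : F →+* ℝ) (D : F) (h : Fin 3 → F) (Γ : Subgroup SL3) : Prop where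
  le : ∀ g ∈ Γ, InSU v D h g
  fin : ∃ S : Set SL3, S.Finite ∧ ∀ g, InSU v D h g → ∃ γ ∈ Γ, ∃ t ∈ S, g = γ * t

/-- There are: a hermitian form `h = diag(h 0, h 1, h 2)` over `E = F(√-D)` of signature `(2,1)`
at `v₁` and definite at all other places, an arithmetic subgroup `Γ` of `SU(h)` with `Γ\ball`
compact, and four closed holomorphic `Γ`-invariant theta one-forms on the ball, with sign vectors
`Φ₁, Φ₂` (the forms `v_{a i}(φ i)`) and `-Φ₃, -Φ₄` (the forms `v_{b i}(ψ i)`; the sign vectors of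
their complex conjugates are `Φ₃, Φ₄`), such that the integral over `Γ\ball` of
`v_{a 0}(φ 0) ∧ v_{a 1}(φ 1) ∧ conj (v_{b 0}(ψ 0) ∧ v_{b 1}(ψ 1))` is not zero. -/
def Surface (v₁ : F →+* ℝ) (D : F) (Φ₁ Φ₂ Φ₃ Φ₄ : CMType F) : Prop :=
  ∃ (h : Fin 3 → F) (Γ : Subgroup SL3) (a b : Fin 2 → F) (φ ψ : Fin 2 → (Fin 3 → F) → ℂ),
    (∀ v : F →+* ℝ, 0 < v (h 0) ∧ 0 < v (h 1)) ∧ v₁ (h 2) < 0 ∧ (∀ v, v ≠ v₁ → 0 < v (h 2)) ∧
    (∀ i, 0 < v₁ (a i) ∧ 0 < v₁ (b i)) ∧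
    sgn (a 0) = Φ₁ ∧ sgn (a 1) = Φ₂ ∧ sgn (b 0) = bar Φ₃ ∧ sgn (b 1) = bar Φ₄ ∧
    (∀ i, IsSB (φ i) ∧ IsSB (ψ i)) ∧
    IsArith v₁ D h Γ ∧ Cocompact (ev v₁ h) Γ ∧
    (∀ i, ClosedHol (ev v₁ h) (theta v₁ D h (a i) (φ i)) ∧
      ClosedHol (ev v₁ h) (theta v₁ D h (b i) (ψ i)) ∧
      InvOne (ev v₁ h) Γ (theta v₁ D h (a i) (φ i)) ∧
      InvOne (ev v₁ h) Γ (theta v₁ D h (b i) (ψ i))) ∧
    (∃ χ, IsWt (ev v₁ h) Γ χ) ∧
    ∀ χ, IsWt (ev v₁ h) Γ χ →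
      ∫ y : Fin 2 → ℂ, (χ y : ℂ) *
        (wedge (theta v₁ D h (a 0) (φ 0)) (theta v₁ D h (a 1) (φ 1)) y *
          conj (wedge (theta v₁ D h (b 0) (ψ 0)) (theta v₁ D h (b 1) (ψ 1)) y)) ≠ 0

/-- The multisets of CM types obtained from divisor classes and from compact ball quotient surfaces
by products and by contraction with divisor classes. -/
inductive AlgClass (v₁ : F →+* ℝ) (D : F) : Multiset (CMType F) → Prop
  /-- the fundamental class -/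
  | zero : AlgClass v₁ D 0
  /-- divisor classes -/
  | pair (Φ : CMType F) : AlgClass v₁ D {Φ, bar Φ}
  /-- products -/
  | add (s t : Multiset (CMType F)) : AlgClass v₁ D s → AlgClass v₁ D t → AlgClass v₁ D (s + t)
  /-- contraction with a divisor class -/
  | cancel (s : Multiset (CMType F)) (Φ : CMType F) :
      AlgClass v₁ D (s + {Φ, bar Φ}) → AlgClass v₁ D s
  /-- compact ball quotient surfaces -/
  | surface (Φ₁ Φ₂ Φ₃ Φ₄ : CMType F) : Surface v₁ D Φ₁ Φ₂ Φ₃ Φ₄ →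
      AlgClass v₁ D {Φ₁, Φ₂, Φ₃, Φ₄}

/-- The surface row: every balanced quadruple with two `true` and two `false` at `v₁`. -/
def SURF : Prop :=
  ∀ (F : Type) [Field F] [NumberField F] [NumberField.IsTotallyReal F] (v₁ : F →+* ℝ) (D : F)
    (Φ₁ Φ₂ Φ₃ Φ₄ : CMType F), IsIntegral ℤ D → (∀ v : F →+* ℝ, 0 < v D) →
    (∃ v : F →+* ℝ, v ≠ v₁) →
    Φ₁ v₁ = true → Φ₂ v₁ = true → Φ₃ v₁ = false → Φ₄ v₁ = false →
    Balanced ({Φ₁, Φ₂, Φ₃, Φ₄} : Multiset (CMType F)) → Surface v₁ D Φ₁ Φ₂ Φ₃ Φ₄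

/-- The final sentence. -/
def FINAL : Prop :=
  ∀ (F : Type) [Field F] [NumberField F] [NumberField.IsTotallyReal F] (v₁ : F →+* ℝ) (D : F),
    IsIntegral ℤ D → (∀ v : F →+* ℝ, 0 < v D) →
    ∀ m : Multiset (CMType F), Balanced m → AlgClass v₁ D m

end

end Pool.Agent.CMH
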