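import Pool.Agent.Lib.CMH.Defs

/-!
# Rows of the tank CMH: exact statements
-/

open scoped ComplexConjugate Matrix
open Complex

namespace Pool.Agent.CMH

noncomputable section

variable {F : Type} [Field F] [NumberField F]

/-- The standing hypotheses on `D`, `h`. -/
structure Good (v₁ : F →+* ℝ) (D : F) (h : Fin 3 → F) : Prop where
  Di : IsIntegral ℤ D
  D0 : ∀ v : F →+* ℝ, 0 < v D
  h0 : ∀ v : F →+* ℝ, 0 < v (h 0)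
  h1 : ∀ v : F →+* ℝ, 0 < v (h 1)
  h2 : ∀ v : F →+* ℝ, v ≠ v₁ → 0 < v (h 2)
  h3 : v₁ (h 2) < 0

/-- Schwartz-Bruhat functions of level `N` on `F^(2×3)` (rows `ξ 0`, `ξ 1` in `F³`). -/
def SB2 (N : ℕ) (φ : (Fin 2 → Fin 3 → F) → ℂ) : Prop :=
  0 < N ∧ (∀ ξ, φ ξ ≠ 0 → ∀ i j, IsIntegral ℤ ((N : F) * ξ i j)) ∧
    ∀ ξ η : Fin 2 → Fin 3 → F, (∀ i j, IsIntegral ℤ (η i j)) →
      φ (fun i j => ξ i j + (N : F) * η i j) = φ ξ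

/-- One real binary form for every place. -/
abbrev Maj (F : Type) [Field F] := (F →+* ℝ) → Matrix (Fin 2) (Fin 2) ℝ

/-- `R` is a majorant of `diag(a)` at `v`. -/
def IsMaj (a : Fin 2 → F) (v : F →+* ℝ) (R : Matrix (Fin 2) (Fin 2) ℝ) : Prop :=
  R.PosDef ∧
    R * Matrix.diagonal (fun i => (v (a i))⁻¹) * R = Matrix.diagonal (fun i => v (a i))

/-- The majorant `|diag(a)|`. -/
def R0 (a : Fin 2 → F) : Maj F := fun v => Matrix.diagonal (fun i => |v (a i)|)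

open Classical in
/-- The Gaussian on `F^(2×3)` with majorants `R v`. -/
def gauss2 (v₁ : F →+* ℝ) (D : F) (h : Fin 3 → F) (a : Fin 2 → F) (R : Maj F)
    (ξ : Fin 2 → Fin 3 → F) (y : Fin 2 → ℂ) : ℂ :=
  exp (-(Real.pi : ℂ) * ∑ v : F →+* ℝ, ((1 / √(v D) : ℝ) : ℂ) *
    (((∑ i, ∑ j, R v i j * form h v (ξ i) (ξ j) : ℝ) : ℂ) +
      if v = v₁ then 2 * ∑ i, (v (a i) : ℂ) * s (ev v h) (ev v (ξ i)) y ^ 2 else 0))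

/-- `det (∂ s_{ξ i} / ∂ y_j)`. -/
def Del (k : Fin 3 → ℝ) (x : Fin 2 → Fin 3 → ℝ) (y : Fin 2 → ℂ) : ℂ :=
  ds k (x 0) 0 y * ds k (x 1) 1 y - ds k (x 0) 1 y * ds k (x 1) 0 y

/-- The coefficient of `dy₀ ∧ dy₁` in `C_R(φ)`. -/
def CR (v₁ : F →+* ℝ) (D : F) (h : Fin 3 → F) (a : Fin 2 → F) (R : Maj F)
    (φ : (Fin 2 → Fin 3 → F) → ℂ) (y : Fin 2 → ℂ) : ℂ :=
  ∑' ξ : Fin 2 → Fin 3 → F, φ ξ * gauss2 v₁ D h a R ξ y *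
    Del (ev v₁ h) (fun i => ev v₁ (ξ i)) y

/-- `φ₀ ⊗ φ₁`. -/
def tens (φ : Fin 2 → (Fin 3 → F) → ℂ) : (Fin 2 → Fin 3 → F) → ℂ := fun ξ => φ 0 (ξ 0) * φ 1 (ξ 1)

/-- `b = (a₀ + a₁ t², a₀ a₁ (a₀ + a₁ t²))`. -/
def bt (a : Fin 2 → F) (t : F) : Fin 2 → F :=
  ![a 0 + a 1 * t ^ 2, a 0 * a 1 * (a 0 + a 1 * t ^ 2)]

/-- The majorant of `diag(a)` which is diagonal in the orthogonal basis `(1, t)`, `(-a₁ t, a₀)`. -/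
def Rt (a : Fin 2 → F) (t : F) : Maj F := fun v =>
  (1 / |v (a 0) + v (a 1) * v t ^ 2|) •
    !![v (a 0) ^ 2 + |v (a 0) * v (a 1)| * v t ^ 2, (v (a 0) * v (a 1) - |v (a 0) * v (a 1)|) * v t;
       (v (a 0) * v (a 1) - |v (a 0) * v (a 1)|) * v t, v (a 1) ^ 2 * v t ^ 2 + |v (a 0) * v (a 1)|]

/-- `t` is near `0` or near `∞` at all places where `a₀ a₁ < 0`. -/
def Near (a : Fin 2 → F) (δ : ℝ) (t : F) : Prop :=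
  ∀ v : F →+* ℝ, v (a 0) * v (a 1) < 0 → v t ^ 2 < δ ∨ 1 / δ < v t ^ 2

/-! ## The rows -/

/-- EST (94). -/
def EST : Prop :=
  ∀ k : Fin 3 → ℝ, 0 < k 0 → 0 < k 1 → k 2 < 0 →
    (∀ y ∈ ball k, 0 < (-∑ j, (k j : ℂ) * hat y j ^ 2).re) ∧
    (∀ y ∈ ball k, w k y ≠ 0 ∧ w k y ^ 2 = -∑ j, (k j : ℂ) * hat y j ^ 2) ∧
    ContinuousOn (w k) (ball k) ∧
    (∀ x, ContinuousOn (s k x) (ball k) ∧ ∀ j, ContinuousOn (ds k x j) (ball k)) ∧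
    ∀ C : Set (Fin 2 → ℂ), IsCompact C → C ⊆ ball k → ∃ c : ℝ, 0 < c ∧ ∃ c' : ℝ, 0 < c' ∧
      (∀ y ∈ C, ∀ x : Fin 3 → ℝ,
        c * ∑ j, x j ^ 2 ≤ (((∑ j, k j * x j * x j : ℝ) : ℂ) + 2 * s k x y ^ 2).re) ∧
      ∀ y ∈ C, ∀ (x : Fin 3 → ℝ) (j : Fin 2), ‖ds k x j y‖ ≤ c' * √(∑ j, x j ^ 2)

/-- The Jacobian formula `Del = - k₀ k₁ k₂ det(x₀, x₁, yh) / w⁴` (EST, 94). -/
def DEL : Prop :=
  ∀ k : Fin 3 → ℝ, 0 < k 0 → 0 < k 1 → k 2 < 0 → ∀ (x : Fin 2 → Fin 3 → ℝ), ∀ y ∈ ball k,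
    Del k x y = -((k 0 * k 1 * k 2 : ℝ) : ℂ) *
      Matrix.det !![(x 0 0 : ℂ), x 0 1, x 0 2; (x 1 0 : ℂ), x 1 1, x 1 2; y 0, y 1, 1] / w k y ^ 4

/-- SUM (63), part 1: lattice sums over the totally real field `F`. -/
def SUM1 : Prop :=
  ∀ (F : Type) [Field F] [NumberField F] [NumberField.IsTotallyReal F] (ι : Type) [Fintype ι]
    (N : ℕ) (c : ℝ) (p : ℕ), 0 < N → 0 < c →
    Summable (fun ξ : {ξ : ι → F // ∀ i, IsIntegral ℤ ((N : F) * ξ i)} =>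
      (1 + ∑ v : F →+* ℝ, ∑ i, v (ξ.1 i) ^ 2) ^ p *
        Real.exp (-c * ∑ v : F →+* ℝ, ∑ i, v (ξ.1 i) ^ 2))

/-- SUM (63), part 2: absolute convergence and continuity of `C_R(φ)`, `R` positive definite. -/
def SUM2 : Prop :=
  ∀ (F : Type) [Field F] [NumberField F] [NumberField.IsTotallyReal F] (v₁ : F →+* ℝ) (D : F)
    (h : Fin 3 → F) (a : Fin 2 → F) (R : Maj F) (N : ℕ) (φ : (Fin 2 → Fin 3 → F) → ℂ),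
    Good v₁ D h → (∀ i, 0 < v₁ (a i)) → (∀ v, (R v).PosDef) → R v₁ = R0 a v₁ → SB2 N φ →
    (∀ y ∈ ball (ev v₁ h), Summable (fun ξ : Fin 2 → Fin 3 → F =>
      φ ξ * gauss2 v₁ D h a R ξ y * Del (ev v₁ h) (fun i => ev v₁ (ξ i)) y)) ∧
    ContinuousOn (CR v₁ D h a R φ) (ball (ev v₁ h))

/-- SUM (63), part 3: `C_{|a|}(φ₀ ⊗ φ₁) = v_{a₀}(φ₀) ∧ v_{a₁}(φ₁)`. -/
def SUM3 : Prop :=
  ∀ (F : Type) [Field F] [NumberField F] [NumberField.IsTotallyReal F] (v₁ : F →+* ℝ) (D : F)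
    (h : Fin 3 → F) (a : Fin 2 → F) (φ : Fin 2 → (Fin 3 → F) → ℂ),
    Good v₁ D h → (∀ i, 0 < v₁ (a i)) → (∀ i, IsSB (φ i)) → ∀ y ∈ ball (ev v₁ h),
    (∀ i j, Summable (fun ξ : Fin 3 → F =>
      φ i ξ * gauss v₁ D h (a i) ξ y * ds (ev v₁ h) (ev v₁ ξ) j y)) ∧
    CR v₁ D h a (R0 a) (tens φ) y =
      wedge (theta v₁ D h (a 0) (φ 0)) (theta v₁ D h (a 1) (φ 1)) y

/-- LIM (5): continuity of `R ↦ C_R(φ)` at `|diag(a)|`, uniformly on compact sets. -/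
def LIM : Prop :=
  ∀ (F : Type) [Field F] [NumberField F] [NumberField.IsTotallyReal F] (v₁ : F →+* ℝ) (D : F)
    (h : Fin 3 → F) (a : Fin 2 → F) (N : ℕ) (φ : (Fin 2 → Fin 3 → F) → ℂ)
    (C : Set (Fin 2 → ℂ)) (ε : ℝ),
    Good v₁ D h → (∀ i, 0 < v₁ (a i)) → SB2 N φ → IsCompact C → C ⊆ ball (ev v₁ h) → 0 < ε →
    ∃ δ : ℝ, 0 < δ ∧ ∀ R : Maj F, (∀ v, (R v).PosDef) → R v₁ = R0 a v₁ →
      (∀ v i j, |R v i j - R0 a v i j| ≤ δ) →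
      ∀ y ∈ C, ‖CR v₁ D h a R φ y - CR v₁ D h a (R0 a) φ y‖ ≤ ε

/-- NV (18): non-vanishing. -/
def NV : Prop :=
  ∀ (F : Type) [Field F] [NumberField F] [NumberField.IsTotallyReal F] (v₁ : F →+* ℝ) (D : F)
    (h : Fin 3 → F) (a : Fin 2 → F),
    Good v₁ D h → (∀ i, 0 < v₁ (a i)) → (∀ i, a i ≠ 0) →
    ∃ φ : Fin 2 → (Fin 3 → F) → ℂ, (∀ i, IsSB (φ i)) ∧
      ∃ y ∈ ball (ev v₁ h), CR v₁ D h a (R0 a) (tens φ) y ≠ 0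

/-- RT (20): the majorant `Rt`. -/
def RT : Prop :=
  ∀ (F : Type) [Field F] [NumberField F] (a : Fin 2 → F), (∀ i, a i ≠ 0) →
    (∀ t : F, a 0 + a 1 * t ^ 2 ≠ 0 → ∀ v : F →+* ℝ, IsMaj a v (Rt a t v)) ∧
    (∀ v : F →+* ℝ, IsMaj a v (R0 a v)) ∧
    (∀ (t : F) (v : F →+* ℝ), a 0 + a 1 * t ^ 2 ≠ 0 → 0 < v (a 0) → 0 < v (a 1) →
      Rt a t v = R0 a v) ∧
    ∀ ε : ℝ, 0 < ε → ∃ δ : ℝ, 0 < δ ∧ ∀ t : F, a 0 + a 1 * t ^ 2 ≠ 0 → Near a δ t →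
      ∀ v i j, |Rt a t v i j - R0 a v i j| ≤ ε

/-- SIGN (20): weak approximation. -/
def SIGN : Prop :=
  ∀ (F : Type) [Field F] [NumberField F] (v₁ : F →+* ℝ) (Φ₁ Φ₂ Φ₃ Φ₄ : CMType F),
    Φ₁ v₁ = true → Φ₂ v₁ = true → Φ₃ v₁ = false → Φ₄ v₁ = false →
    Balanced ({Φ₁, Φ₂, Φ₃, Φ₄} : Multiset (CMType F)) →
    (∃ h : Fin 3 → F, (∀ v : F →+* ℝ, 0 < v (h 0)) ∧ (∀ v : F →+* ℝ, 0 < v (h 1)) ∧
      (∀ v : F →+* ℝ, v ≠ v₁ → 0 < v (h 2)) ∧ v₁ (h 2) < 0) ∧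
    ∃ a : Fin 2 → F, (∀ i, a i ≠ 0) ∧ (∀ i, 0 < v₁ (a i)) ∧ sgn (a 0) = Φ₁ ∧ sgn (a 1) = Φ₂ ∧
      ∀ δ : ℝ, 0 < δ → ∃ t : F, Near a δ t ∧ a 0 + a 1 * t ^ 2 ≠ 0 ∧
        (∀ i, 0 < v₁ (bt a t i)) ∧ sgn (bt a t 0) = bar Φ₃ ∧ sgn (bt a t 1) = bar Φ₄

/-- TENS (13): `C_{R_t}(φ) = b₀ ∑_k v_{b₀}(ψ_k0) ∧ v_{b₁}(ψ_k1)`. -/
def TENS : Prop :=
  ∀ (F : Type) [Field F] [NumberField F] [NumberField.IsTotallyReal F] (v₁ : F →+* ℝ) (D : F)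
    (h : Fin 3 → F) (a : Fin 2 → F) (N : ℕ) (φ : (Fin 2 → Fin 3 → F) → ℂ) (t : F),
    Good v₁ D h → (∀ i, a i ≠ 0) → (∀ i, 0 < v₁ (a i)) → (∀ i, 0 < v₁ (bt a t i)) → SB2 N φ →
    ∃ (K : ℕ) (ψ : Fin K → Fin 2 → (Fin 3 → F) → ℂ), (∀ k i, IsSB (ψ k i)) ∧
      ∀ y ∈ ball (ev v₁ h), CR v₁ D h a (Rt a t) φ y =
        ∑ k, wedge (theta v₁ D h (bt a t 0) (ψ k 0)) (theta v₁ D h (bt a t 1) (ψ k 1)) y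

/-- GRP (44): `Γ_N` is a group acting on the ball. -/
def GRP : Prop :=
  ∀ (F : Type) [Field F] [NumberField F] (v₁ : F →+* ℝ) (D : F) (h : Fin 3 → F) (N : ℕ),
    Good v₁ D h → 0 < N →
    (∀ g ∈ Gam D h N, ∀ y ∈ ball (ev v₁ h), gy v₁ D g y 2 ≠ 0 ∧ act v₁ D g y ∈ ball (ev v₁ h) ∧
      ‖(cmat v₁ D g).det‖ = 1) ∧
    ((1, 0) : Mat F) ∈ Gam D h N ∧
    (∀ g₁ ∈ Gam D h N, ∀ g₂ ∈ Gam D h N, ∃ g₃ ∈ Gam D h N,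
      g₃ = (g₁.1 * g₂.1 - D • (g₁.2 * g₂.2), g₁.1 * g₂.2 + g₁.2 * g₂.1) ∧
      cmat v₁ D g₃ = cmat v₁ D g₁ * cmat v₁ D g₂ ∧
      ∀ y ∈ ball (ev v₁ h), act v₁ D g₃ y = act v₁ D g₁ (act v₁ D g₂ y) ∧
        gy v₁ D g₃ y 2 = gy v₁ D g₁ (act v₁ D g₂ y) 2 * gy v₁ D g₂ y 2) ∧
    ∀ g ∈ Gam D h N, ∃ g' ∈ Gam D h N,
      (g.1 * g'.1 - D • (g.2 * g'.2), g.1 * g'.2 + g.2 * g'.1) = ((1, 0) : Mat F) ∧
      (g'.1 * g.1 - D • (g'.2 * g.2), g'.1 * g.2 + g'.2 * g.1) = ((1, 0) : Mat F)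

/-- CHI (44): a partition of unity for `Γ_N`. -/
def CHI : Prop :=
  ∀ (F : Type) [Field F] [NumberField F] [NumberField.IsTotallyReal F] (v₁ : F →+* ℝ) (D : F)
    (h : Fin 3 → F) (N : ℕ), Good v₁ D h → 0 < N →
    (∃ C : Set (Fin 2 → ℂ), IsCompact C ∧ C ⊆ ball (ev v₁ h) ∧
      ∀ y ∈ ball (ev v₁ h), ∃ g ∈ Gam D h N, act v₁ D g y ∈ C) →
    ∃ χ : (Fin 2 → ℂ) → ℝ, Continuous χ ∧ HasCompactSupport χ ∧ tsupport χ ⊆ ball (ev v₁ h) ∧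
      (∀ y, 0 ≤ χ y) ∧ ∀ y ∈ ball (ev v₁ h), HasSum (fun g : Gam D h N => χ (act v₁ D g.1 y)) 1

/-- COC (76): `Γ_N\B` is compact. -/
def COC : Prop :=
  ∀ (F : Type) [Field F] [NumberField F] [NumberField.IsTotallyReal F] (v₁ : F →+* ℝ) (D : F)
    (h : Fin 3 → F) (N : ℕ), Good v₁ D h → (∃ v : F →+* ℝ, v ≠ v₁) → 0 < N →
    ∃ C : Set (Fin 2 → ℂ), IsCompact C ∧ C ⊆ ball (ev v₁ h) ∧
      ∀ y ∈ ball (ev v₁ h), ∃ g ∈ Gam D h N, act v₁ D g y ∈ C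

/-- WIG (45, 16, 86): invariance of `C_R(φ) conj C_{R'}(φ)` under `Γ_M`, `M` independent of the
majorants. -/
def WIG : Prop :=
  ∀ (F : Type) [Field F] [NumberField F] [NumberField.IsTotallyReal F] (v₁ : F →+* ℝ) (D : F)
    (h : Fin 3 → F) (a : Fin 2 → F) (N : ℕ) (φ : (Fin 2 → Fin 3 → F) → ℂ),
    Good v₁ D h → (∀ i, a i ≠ 0) → (∀ i, 0 < v₁ (a i)) → SB2 N φ →
    ∃ M : ℕ, 0 < M ∧ ∀ R R' : Maj F, (∀ v, IsMaj a v (R v)) → (∀ v, IsMaj a v (R' v)) →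
      R v₁ = R0 a v₁ → R' v₁ = R0 a v₁ →
      ∀ g ∈ Gam D h M, ∀ y ∈ ball (ev v₁ h),
        CR v₁ D h a R φ (act v₁ D g y) * conj (CR v₁ D h a R' φ (act v₁ D g y)) =
          (‖gy v₁ D g y 2‖ ^ 6 : ℝ) *
            (CR v₁ D h a R φ y * conj (CR v₁ D h a R' φ y))

/-- CLOSE (29): all balanced multisets from pairs and balanced quadruples. -/
def CLOSE : Prop :=
  ∀ (F : Type) [Field F] [NumberField F] (v₁ : F →+* ℝ) (P : Multiset (CMType F) → Prop),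
    P 0 → (∀ Φ, P {Φ, bar Φ}) → (∀ s t, P s → P t → P (s + t)) →
    (∀ s Φ, P (s + {Φ, bar Φ}) → P s) →
    (∀ Φ₁ Φ₂ Φ₃ Φ₄ : CMType F, Φ₁ v₁ = true → Φ₂ v₁ = true → Φ₃ v₁ = false → Φ₄ v₁ = false →
      Balanced ({Φ₁, Φ₂, Φ₃, Φ₄} : Multiset (CMType F)) → P {Φ₁, Φ₂, Φ₃, Φ₄}) →
    ∀ m, Balanced m → P m

/-- FIN1 (37): the ball quotient with nonzero integral. -/
def FIN1 : Prop :=
  ∀ (F : Type) [Field F] [NumberField F] [NumberField.IsTotallyReal F] (v₁ : F →+* ℝ) (D : F)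
    (Φ₁ Φ₂ Φ₃ Φ₄ : CMType F), IsIntegral ℤ D → (∀ v : F →+* ℝ, 0 < v D) →
    (∃ v : F →+* ℝ, v ≠ v₁) →
    Φ₁ v₁ = true → Φ₂ v₁ = true → Φ₃ v₁ = false → Φ₄ v₁ = false →
    Balanced ({Φ₁, Φ₂, Φ₃, Φ₄} : Multiset (CMType F)) → BallClass v₁ D Φ₁ Φ₂ Φ₃ Φ₄

/-- FIN2 (37): the final sentence. -/
def FIN2 : Prop :=
  ∀ (F : Type) [Field F] [NumberField F] [NumberField.IsTotallyReal F] (v₁ : F →+* ℝ) (D : F),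
    IsIntegral ℤ D → (∀ v : F →+* ℝ, 0 < v D) →
    ∀ m : Multiset (CMType F), Balanced m → IsAlg v₁ D m

end

end Pool.Agent.CMH
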