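import Mathlib
import Pool.Agent.Lib.CMH.Rows
import Pool.Agent.Lib.CMH.Final

/-!
# Row ADP (helper6): from pairs of matrices to subgroups of `SL₃(ℂ)`
-/

set_option autoImplicit false

set_option linter.unusedSectionVars false

open scoped ComplexConjugate Matrix
open Complex

namespace Pool.Agent.CMH

noncomputable section

variable {F : Type} [Field F] [NumberField F]

/-- the product of pairs -/
def pmul (D : F) (g g' : Mat F) : Mat F :=
  (g.1 * g'.1 - D • (g.2 * g'.2), g.1 * g'.2 + g.2 * g'.1)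

/-- the embedding of `F` in `ℂ` -/
def fC (v : F →+* ℝ) : F →+* ℂ := Complex.ofRealHom.comp v

/-- the image of `√-D` -/
def cD (v : F →+* ℝ) (D : F) : ℂ := I * (√(v D) : ℂ)

theorem cmat_eq (v : F →+* ℝ) (D : F) (g : Mat F) :
    cmat v D g = g.1.map (fC v) + cD v D • g.2.map (fC v) := by
  ext i j
  simp [cmat, fC, cD]

theorem cD_sq {v : F →+* ℝ} {D : F} (hD : 0 ≤ v D) : cD v D * cD v D = -fC v D := by
  have h1 : ((√(v D) : ℝ) : ℂ) * ((√(v D) : ℝ) : ℂ) = ((v D : ℝ) : ℂ) := by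
    rw [← Complex.ofReal_mul, Real.mul_self_sqrt hD]
  calc cD v D * cD v D = (I * I) * (((√(v D) : ℝ) : ℂ) * ((√(v D) : ℝ) : ℂ)) := by
        unfold cD; ring
    _ = -fC v D := by rw [h1, Complex.I_mul_I]; simp [fC]

theorem cmat_pmul {v : F →+* ℝ} {D : F} (hD : 0 ≤ v D) (g g' : Mat F) :
    cmat v D (pmul D g g') = cmat v D g * cmat v D g' := by
  rw [cmat_eq, cmat_eq, cmat_eq]
  simp only [pmul]
  have h1 : (D • (g.2 * g'.2)).map (fC v) = fC v D • (g.2.map (fC v) * g'.2.map (fC v)) := by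
    rw [← Matrix.map_mul]
    ext i j
    rw [Matrix.map_apply, Matrix.smul_apply, smul_eq_mul, map_mul, Matrix.smul_apply,
      Matrix.map_apply, smul_eq_mul]
  rw [Matrix.map_sub _ (fun a b => map_sub (fC v) a b), Matrix.map_add _ (fun a b => map_add (fC v) a b),
    h1, Matrix.map_mul, Matrix.map_mul, Matrix.map_mul, Matrix.add_mul, Matrix.mul_add,
    Matrix.mul_add, Matrix.smul_mul, Matrix.smul_mul, Matrix.mul_smul, Matrix.mul_smul, smul_smul,
    cD_sq hD, smul_add, neg_smul]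
  abel

theorem cmat_re (v : F →+* ℝ) (D : F) (g : Mat F) (i j : Fin 3) :
    (cmat v D g i j).re = v (g.1 i j) := by
  simp [cmat]

theorem cmat_im (v : F →+* ℝ) (D : F) (g : Mat F) (i j : Fin 3) :
    (cmat v D g i j).im = √(v D) * v (g.2 i j) := by
  simp [cmat]

theorem cmat_inj {v : F →+* ℝ} {D : F} (hD : 0 < v D) : Function.Injective (cmat v D) := by
  intro g g' h
  have hs : √(v D) ≠ 0 := (Real.sqrt_pos.2 hD).ne'
  refine Prod.ext ?_ ?_
  · ext i j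
    have h1 := congrArg Complex.re (congrFun (congrFun h i) j)
    rw [cmat_re, cmat_re] at h1
    exact v.injective h1
  · ext i j
    have h1 := congrArg Complex.im (congrFun (congrFun h i) j)
    rw [cmat_im, cmat_im] at h1
    exact v.injective (mul_left_cancel₀ hs h1)

theorem cmat_one (v : F →+* ℝ) (D : F) : cmat v D ((1, 0) : Mat F) = 1 := by
  rw [cmat_eq]
  ext i j
  by_cases h : i = j
  · subst h; simp
  · simp [h]

theorem cmat_diag (v : F →+* ℝ) (D : F) (h : Fin 3 → F) :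
    cmat v D ((Matrix.diagonal h, 0) : Mat F) = Matrix.diagonal (fun j => (v (h j) : ℂ)) := by
  rw [cmat_eq]
  ext i j
  by_cases hij : i = j
  · subst hij; simp [fC]
  · simp [hij]

theorem cmat_star (v : F →+* ℝ) (D : F) (g : Mat F) :
    cmat v D ((g.1ᵀ, -g.2ᵀ) : Mat F) = (cmat v D g)ᴴ := by
  ext i j
  rw [Matrix.conjTranspose_apply]
  apply Complex.ext
  · simp [cmat]
  · simp [cmat]

/-- the hermitian relation -/
theorem herm_iff {v : F →+* ℝ} {D : F} (hD : 0 < v D) (h : Fin 3 → F) (g : Mat F) :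
    (cmat v D g)ᴴ * Matrix.diagonal (fun j => (v (h j) : ℂ)) * cmat v D g =
        Matrix.diagonal (fun j => (v (h j) : ℂ)) ↔
      g.1ᵀ * Matrix.diagonal h * g.1 + D • (g.2ᵀ * Matrix.diagonal h * g.2) =
          Matrix.diagonal h ∧
        g.1ᵀ * Matrix.diagonal h * g.2 = g.2ᵀ * Matrix.diagonal h * g.1 := by
  have h1 : (cmat v D g)ᴴ * Matrix.diagonal (fun j => (v (h j) : ℂ)) * cmat v D g =
      cmat v D (pmul D (pmul D ((g.1ᵀ, -g.2ᵀ) : Mat F) ((Matrix.diagonal h, 0) : Mat F)) g) := by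
    rw [cmat_pmul hD.le, cmat_pmul hD.le, cmat_star, cmat_diag]
  rw [h1, ← cmat_diag v D h, (cmat_inj hD).eq_iff, Prod.ext_iff]
  simp only [pmul, Matrix.mul_zero, smul_zero, sub_zero, zero_add, Matrix.neg_mul]
  constructor
  · rintro ⟨h2, h3⟩
    refine ⟨?_, ?_⟩
    · rw [smul_neg, sub_neg_eq_add] at h2
      exact h2
    · exact add_neg_eq_zero.1 h3
  · rintro ⟨h2, h3⟩
    refine ⟨?_, ?_⟩
    · rw [smul_neg, sub_neg_eq_add]
      exact h2
    · rw [h3]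
      exact add_neg_cancel _

/-- the congruence conditions -/
def Cong (N : ℕ) (g : Mat F) : Prop :=
  (∀ i j, IsIntegral ℤ ((g.1 i j - (1 : Matrix (Fin 3) (Fin 3) F) i j) / (N : F))) ∧
    ∀ i j, IsIntegral ℤ (g.2 i j / (N : F))

theorem mem_gam_iff {v : F →+* ℝ} {D : F} (hD : 0 < v D) {h : Fin 3 → F} {N : ℕ} {g : Mat F} :
    g ∈ Gam D h N ↔ (cmat v D g)ᴴ * Matrix.diagonal (fun j => (v (h j) : ℂ)) * cmat v D g =
        Matrix.diagonal (fun j => (v (h j) : ℂ)) ∧ Cong N g := by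
  rw [herm_iff hD]
  unfold Gam Cong
  simp only [Set.mem_ofPred_eq]
  tauto

theorem cong_one_iff {g : Mat F} : Cong 1 g ↔ (∀ i j, IsIntegral ℤ (g.1 i j)) ∧
    ∀ i j, IsIntegral ℤ (g.2 i j) := by
  unfold Cong
  simp only [Nat.cast_one, div_one]
  have h1 : ∀ i j, IsIntegral ℤ ((1 : Matrix (Fin 3) (Fin 3) F) i j) := by
    intro i j
    rw [Matrix.one_apply]
    split_ifs
    · exact isIntegral_one
    · exact isIntegral_zero
  constructor
  · rintro ⟨h2, h3⟩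
    refine ⟨fun i j => ?_, h3⟩
    have := (h2 i j).add (h1 i j)
    rwa [sub_add_cancel] at this
  · rintro ⟨h2, h3⟩
    exact ⟨fun i j => (h2 i j).sub (h1 i j), h3⟩

theorem cong_mono {N : ℕ} (hN : 0 < N) {g : Mat F} (hg : Cong N g) : Cong 1 g := by
  have hN' : (N : F) ≠ 0 := by exact_mod_cast hN.ne'
  have hNi : IsIntegral ℤ (N : F) := by
    have := isIntegral_algebraMap (R := ℤ) (A := F) (x := (N : ℤ))
    simpa using this
  refine ⟨fun i j => ?_, fun i j => ?_⟩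
  · have := hNi.mul (hg.1 i j)
    rw [mul_div_cancel₀ _ hN'] at this
    simpa using this
  · have := hNi.mul (hg.2 i j)
    rw [mul_div_cancel₀ _ hN'] at this
    simpa using this

theorem gam_mono {v : F →+* ℝ} {D : F} (hD : 0 < v D) {h : Fin 3 → F} {N : ℕ} (hN : 0 < N)
    {g : Mat F} (hg : g ∈ Gam D h N) : g ∈ Gam D h 1 := by
  rw [mem_gam_iff hD] at hg ⊢
  exact ⟨hg.1, cong_mono hN hg.2⟩

/-- elements of `SU(h)` are pairs -/
theorem inSU_iff {v : F →+* ℝ} {D : F} (hD : 0 < v D) {h : Fin 3 → F} {g : SL3} :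
    InSU v D h g ↔ ∃ p ∈ Gam D h 1, cmat v D p = g.1 := by
  constructor
  · rintro ⟨h1, h2⟩
    choose x y hx hy hz using h1
    refine ⟨(x, y), ?_, ?_⟩
    · rw [mem_gam_iff hD]
      have e : cmat v D ((x, y) : Mat F) = g.1 := by
        ext i j
        rw [hz i j]
        rfl
      rw [e]
      exact ⟨h2, cong_one_iff.2 ⟨hx, hy⟩⟩
    · ext i j
      rw [hz i j]
      rfl
  · rintro ⟨p, hp, hg⟩
    rw [mem_gam_iff hD, cong_one_iff] at hp
    refine ⟨fun i j => ⟨p.1 i j, p.2 i j, hp.2.1 i j, hp.2.2 i j, ?_⟩, ?_⟩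
    · rw [← hg]
      rfl
    · rw [← hg]
      exact hp.1

/-- `Γ_N` in `SL₃(ℂ)` -/
def GamS (v : F →+* ℝ) (D : F) (h : Fin 3 → F) (N : ℕ) : Subgroup SL3 :=
  Subgroup.closure {g : SL3 | ∃ p ∈ Gam D h N, cmat v D p = g.1}

theorem mem_GamS (hG : GRP) {v₁ : F →+* ℝ} {D : F} {h : Fin 3 → F} (H : Good v₁ D h) {N : ℕ}
    (hN : 0 < N) {g : SL3} : g ∈ GamS v₁ D h N ↔ ∃ p ∈ Gam D h N, cmat v₁ D p = g.1 := by
  have hD : 0 < v₁ D := H.D0 v₁
  obtain ⟨-, hone, hmul, hinv⟩ := hG F v₁ D h N H hN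
  let T : Subgroup SL3 :=
    { carrier := {g : SL3 | ∃ p ∈ Gam D h N, cmat v₁ D p = g.1}
      one_mem' := ⟨(1, 0), hone, cmat_one v₁ D⟩
      mul_mem' := by
        rintro a b ⟨p, hp, hpa⟩ ⟨q, hq, hqb⟩
        obtain ⟨r, hr, -, hrm, -⟩ := hmul p hp q hq
        exact ⟨r, hr, by rw [hrm, hpa, hqb]; rfl⟩
      inv_mem' := by
        rintro a ⟨p, hp, hpa⟩
        obtain ⟨q, hq, h1, -⟩ := hinv p hp
        refine ⟨q, hq, ?_⟩
        have h2 : cmat v₁ D p * cmat v₁ D q = 1 := by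
          rw [← cmat_pmul hD.le, ← cmat_one v₁ D]
          exact congrArg _ h1
        have h3 : a.1 * cmat v₁ D q = 1 := by rw [← hpa]; exact h2
        have h4 : (a⁻¹).1 * a.1 = 1 := by
          have := congrArg Subtype.val (inv_mul_cancel a)
          exact this
        calc cmat v₁ D q = ((a⁻¹).1 * a.1) * cmat v₁ D q := by rw [h4, Matrix.one_mul]
          _ = (a⁻¹).1 := by rw [Matrix.mul_assoc, h3, Matrix.mul_one] }
  have hT : GamS v₁ D h N = T := by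
    apply le_antisymm
    · exact (Subgroup.closure_le T).2 fun g hg => hg
    · intro g hg
      exact Subgroup.subset_closure hg
  rw [hT]
  rfl

theorem actC_eq {v : F →+* ℝ} {D : F} {p : Mat F} {g : SL3} (h : cmat v D p = g.1)
    (y : Fin 2 → ℂ) : actC g y = act v D p y := by
  unfold actC act gy
  rw [h]

/-! ### Finite index -/

theorem exists_reps {α β : Type*} [Finite β] (f : α → β) :
    ∃ S : Set α, S.Finite ∧ ∀ a, ∃ t ∈ S, f t = f a := by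
  refine ⟨Set.range (fun b : Set.range f => b.2.choose), Set.finite_range _, fun a => ?_⟩
  refine ⟨_, ⟨⟨f a, a, rfl⟩, rfl⟩, ?_⟩
  exact (⟨a, rfl⟩ : ∃ y, f y = f a).choose_spec

theorem pmul_one (D : F) (g : Mat F) : pmul D g ((1, 0) : Mat F) = g := by
  simp [pmul]

/-- if `p ≡ q` modulo `N` and `q q' = 1` then `p q' ≡ 1` modulo `N` -/
theorem cong_of_sub {D : F} (hDi : IsIntegral ℤ D) {N : ℕ} {p q q' : Mat F}
    (h1 : ∀ i j, IsIntegral ℤ ((p.1 i j - q.1 i j) / (N : F)))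
    (h2 : ∀ i j, IsIntegral ℤ ((p.2 i j - q.2 i j) / (N : F)))
    (h3 : ∀ i j, IsIntegral ℤ (q'.1 i j)) (h4 : ∀ i j, IsIntegral ℤ (q'.2 i j))
    (h : pmul D q q' = ((1, 0) : Mat F)) : Cong N (pmul D p q') := by
  have e1 : q.1 * q'.1 - D • (q.2 * q'.2) = 1 := congrArg Prod.fst h
  have e2 : q.1 * q'.2 + q.2 * q'.1 = 0 := congrArg Prod.snd h
  constructor
  · intro i j
    have e : ((pmul D p q').1 i j - (1 : Matrix (Fin 3) (Fin 3) F) i j) / (N : F) =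
        ∑ k, ((p.1 i k - q.1 i k) / (N : F)) * q'.1 k j -
          D * ∑ k, ((p.2 i k - q.2 i k) / (N : F)) * q'.2 k j := by
      rw [← e1]
      simp only [pmul, Matrix.sub_apply, Matrix.smul_apply, Matrix.mul_apply, smul_eq_mul,
        Fin.sum_univ_three]
      ring
    rw [e]
    exact (IsIntegral.sum _ fun k _ => (h1 i k).mul (h3 k j)).sub
      (hDi.mul (IsIntegral.sum _ fun k _ => (h2 i k).mul (h4 k j)))
  · intro i j
    have e : (pmul D p q').2 i j / (N : F) =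
        ∑ k, ((p.1 i k - q.1 i k) / (N : F)) * q'.2 k j +
          ∑ k, ((p.2 i k - q.2 i k) / (N : F)) * q'.1 k j := by
      have e3 : (pmul D p q').2 i j = (pmul D p q').2 i j - (q.1 * q'.2 + q.2 * q'.1) i j := by
        rw [e2]; simp
      rw [e3]
      simp only [pmul, Matrix.add_apply, Matrix.mul_apply, Fin.sum_univ_three]
      ring
    rw [e]
    exact (IsIntegral.sum _ fun k _ => (h1 i k).mul (h4 k j)).add
      (IsIntegral.sum _ fun k _ => (h2 i k).mul (h3 k j))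

open NumberField in
/-- `Γ_N` has finite index -/
theorem isArith_GamS (hG : GRP) {v₁ : F →+* ℝ} {D : F} {h : Fin 3 → F} (H : Good v₁ D h) {N : ℕ}
    (hN : 0 < N) : IsArith v₁ D h (GamS v₁ D h N) := by
  have hD : 0 < v₁ D := H.D0 v₁
  obtain ⟨-, hone, hmul, hinv⟩ := hG F v₁ D h 1 H one_pos
  refine ⟨?_, ?_⟩
  · intro g hg
    obtain ⟨p, hp, hpg⟩ := (mem_GamS hG H hN).1 hg
    exact (inSU_iff hD).2 ⟨p, gam_mono hD hN hp, hpg⟩
  · let P : Type := {p : Mat F // p ∈ Gam D h 1 ∧ ∃ g : SL3, cmat v₁ D p = g.1}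
    have hi : ∀ p : P, (∀ i j, IsIntegral ℤ (p.1.1 i j)) ∧ ∀ i j, IsIntegral ℤ (p.1.2 i j) :=
      fun p => cong_one_iff.1 ((mem_gam_iff hD).1 p.2.1).2
    let J : Ideal (𝓞 F) := Ideal.span {(N : 𝓞 F)}
    have hNO : (N : 𝓞 F) ≠ 0 := by exact_mod_cast hN.ne'
    have hJ : J ≠ ⊥ := by
      intro h0
      rw [Ideal.span_singleton_eq_bot] at h0
      exact hNO h0
    have : Finite (𝓞 F ⧸ J) := Ideal.finiteQuotientOfFreeOfNeBot J hJ
    let c : P → (Fin 3 → Fin 3 → 𝓞 F ⧸ J) × (Fin 3 → Fin 3 → 𝓞 F ⧸ J) := fun p =>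
      (fun i j => Ideal.Quotient.mk J ⟨p.1.1 i j, (hi p).1 i j⟩,
        fun i j => Ideal.Quotient.mk J ⟨p.1.2 i j, (hi p).2 i j⟩)
    obtain ⟨S, hS, hSc⟩ := exists_reps c
    let f : P → SL3 := fun p => p.2.2.choose
    have hf : ∀ p : P, cmat v₁ D p.1 = (f p).1 := fun p => p.2.2.choose_spec
    refine ⟨f '' S, hS.image f, ?_⟩
    intro g hg
    obtain ⟨p, hp, hpg⟩ := (inSU_iff hD).1 hg
    obtain ⟨t, htS, htc⟩ := hSc ⟨p, hp, g, hpg⟩
    obtain ⟨t', ht', hm1, hm2⟩ := hinv t.1 t.2.1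
    have hm1' : pmul D t.1 t' = ((1, 0) : Mat F) := hm1
    have ht'i := cong_one_iff.1 ((mem_gam_iff hD).1 ht').2
    -- congruence
    have key : ∀ (x y : F) (hx : IsIntegral ℤ x) (hy : IsIntegral ℤ y),
        Ideal.Quotient.mk J ⟨x, hx⟩ = Ideal.Quotient.mk J ⟨y, hy⟩ →
        IsIntegral ℤ ((y - x) / (N : F)) := by
      intro x y hx hy hxy
      rw [Ideal.Quotient.eq, Ideal.mem_span_singleton] at hxy
      obtain ⟨z, hz⟩ := hxy
      have hz' : x - y = (N : F) * (z : F) := by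
        have := congrArg (fun a : 𝓞 F => (a : F)) hz
        simpa using this
      have hN' : (N : F) ≠ 0 := by exact_mod_cast hN.ne'
      have e : (y - x) / (N : F) = -(z : F) := by
        rw [← neg_sub, hz', neg_div, mul_div_cancel_left₀ _ hN']
      rw [e]
      exact z.2.neg
    have hc1 : ∀ i j, IsIntegral ℤ ((p.1 i j - t.1.1 i j) / (N : F)) := fun i j =>
      key _ _ _ _ (congrFun (congrFun (congrArg Prod.fst htc) i) j)
    have hc2 : ∀ i j, IsIntegral ℤ ((p.2 i j - t.1.2 i j) / (N : F)) := fun i j =>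
      key _ _ _ _ (congrFun (congrFun (congrArg Prod.snd htc) i) j)
    have hcong : Cong N (pmul D p t') := cong_of_sub H.Di hc1 hc2 ht'i.1 ht'i.2 hm1'
    -- the pair of `g t⁻¹`
    have hinvt : cmat v₁ D t' = ((f t)⁻¹).1 := by
      have h3 : (f t).1 * cmat v₁ D t' = 1 := by
        rw [← hf t, ← cmat_pmul hD.le, hm1', cmat_one]
      have h4 : ((f t)⁻¹).1 * (f t).1 = 1 := by
        have := congrArg Subtype.val (inv_mul_cancel (f t))
        exact this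
      calc cmat v₁ D t' = (((f t)⁻¹).1 * (f t).1) * cmat v₁ D t' := by rw [h4, Matrix.one_mul]
        _ = ((f t)⁻¹).1 := by rw [Matrix.mul_assoc, h3, Matrix.mul_one]
    have hprod : cmat v₁ D (pmul D p t') = (g * (f t)⁻¹).1 := by
      rw [cmat_pmul hD.le, hpg, hinvt]
      rfl
    have hmem : pmul D p t' ∈ Gam D h 1 := by
      obtain ⟨r, hr, hr1, -⟩ := hmul p hp t' ht'
      have : r = pmul D p t' := hr1
      rw [← this]
      exact hr
    refine ⟨g * (f t)⁻¹, (mem_GamS hG H hN).2 ⟨pmul D p t', ?_, hprod⟩, f t,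
      Set.mem_image_of_mem f htS, by group⟩
    rw [mem_gam_iff hD] at hmem ⊢
    exact ⟨hmem.1, hcong⟩

/-- subgroups of finite index -/
theorem IsArith.of_fin {v : F →+* ℝ} {D : F} {h : Fin 3 → F} {Γ Γ' : Subgroup SL3}
    (hΓ : IsArith v D h Γ) (hle : Γ' ≤ Γ)
    (hfin : ∃ S : Set SL3, S.Finite ∧ ∀ g ∈ Γ, ∃ γ ∈ Γ', ∃ t ∈ S, g = γ * t) :
    IsArith v D h Γ' := by
  refine ⟨fun g hg => hΓ.le g (hle hg), ?_⟩
  obtain ⟨S, hS, h1⟩ := hΓ.fin
  obtain ⟨S', hS', h2⟩ := hfin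
  refine ⟨Set.image2 (fun t s => t * s) S' S, hS'.image2 _ hS, fun g hg => ?_⟩
  obtain ⟨γ, hγ, t, ht, rfl⟩ := h1 g hg
  obtain ⟨γ', hγ', t', ht', rfl⟩ := h2 γ hγ
  exact ⟨γ', hγ', t' * t, ⟨t', ht', t, ht, rfl⟩, by group⟩

/-- finite index in the sense of Mathlib gives finitely many cosets -/
theorem fin_of_finiteIndex {Γ Γ' : Subgroup SL3} (hi : (Γ'.subgroupOf Γ).FiniteIndex) :
    ∃ S : Set SL3, S.Finite ∧ ∀ g ∈ Γ, ∃ γ ∈ Γ', ∃ t ∈ S, g = γ * t := by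
  have : Finite (Γ ⧸ Γ'.subgroupOf Γ) := inferInstance
  obtain ⟨S, hS, h1⟩ := exists_reps (fun g : Γ => (QuotientGroup.mk g⁻¹ : Γ ⧸ Γ'.subgroupOf Γ))
  refine ⟨Subtype.val '' S, hS.image _, fun g hg => ?_⟩
  obtain ⟨t, ht, h2⟩ := h1 ⟨g, hg⟩
  have h3 : (QuotientGroup.mk (⟨g, hg⟩ : Γ)⁻¹ : Γ ⧸ Γ'.subgroupOf Γ) = QuotientGroup.mk t⁻¹ :=
    h2.symm
  rw [QuotientGroup.eq, Subgroup.mem_subgroupOf] at h3
  refine ⟨g * (t : SL3)⁻¹, ?_, t, Set.mem_image_of_mem _ ht, by group⟩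
  simpa using h3

/-- `Γ_N` as a set of pairs and as a subgroup of `SL₃(ℂ)`; the hypothesis `hdet` holds for
`N ≥ 3` -/
def gamEquiv (hG : GRP) {v₁ : F →+* ℝ} {D : F} {h : Fin 3 → F} (H : Good v₁ D h) {N : ℕ}
    (hN : 0 < N) (hdet : ∀ p ∈ Gam D h N, (cmat v₁ D p).det = 1) :
    Gam D h N ≃ GamS v₁ D h N :=
  Equiv.ofBijective
    (fun p => ⟨⟨cmat v₁ D p.1, hdet p.1 p.2⟩, (mem_GamS hG H hN).2 ⟨p.1, p.2, rfl⟩⟩) (by
      constructor
      · intro p q hpq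
        have h1 : cmat v₁ D p.1 = cmat v₁ D q.1 := congrArg (fun g => g.1.1) hpq
        exact Subtype.ext (cmat_inj (H.D0 v₁) h1)
      · rintro ⟨g, hg⟩
        obtain ⟨p, hp, hpg⟩ := (mem_GamS hG H hN).1 hg
        exact ⟨⟨p, hp⟩, Subtype.ext (Subtype.ext hpg)⟩)

theorem gamEquiv_val (hG : GRP) {v₁ : F →+* ℝ} {D : F} {h : Fin 3 → F} (H : Good v₁ D h) {N : ℕ}
    (hN : 0 < N) (hdet : ∀ p ∈ Gam D h N, (cmat v₁ D p).det = 1) (p : Gam D h N) :
    cmat v₁ D p.1 = (gamEquiv hG H hN hdet p).1.1 := rfl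

/-- COC in the form for subgroups of `SL₃(ℂ)` -/
theorem cocompact_GamS (hG : GRP) {v₁ : F →+* ℝ} {D : F} {h : Fin 3 → F} (H : Good v₁ D h) {N : ℕ}
    (hN : 0 < N) (hdet : ∀ p ∈ Gam D h N, (cmat v₁ D p).det = 1)
    (hc : ∃ C : Set (Fin 2 → ℂ), IsCompact C ∧ C ⊆ ball (ev v₁ h) ∧
      ∀ y ∈ ball (ev v₁ h), ∃ g ∈ Gam D h N, act v₁ D g y ∈ C) :
    Cocompact (ev v₁ h) (GamS v₁ D h N) := by
  obtain ⟨C, h1, h2, h3⟩ := hc
  refine ⟨C, h1, h2, fun y hy => ?_⟩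
  obtain ⟨p, hp, hpy⟩ := h3 y hy
  refine ⟨⟨cmat v₁ D p, hdet p hp⟩, (mem_GamS hG H hN).2 ⟨p, hp, rfl⟩, ?_⟩
  rw [actC_eq (p := p) (v := v₁) (D := D) rfl]
  exact hpy

/-- CHI in the form for subgroups of `SL₃(ℂ)` -/
theorem isWt_GamS (hG : GRP) {v₁ : F →+* ℝ} {D : F} {h : Fin 3 → F} (H : Good v₁ D h) {N : ℕ}
    (hN : 0 < N) (hdet : ∀ p ∈ Gam D h N, (cmat v₁ D p).det = 1) {χ : (Fin 2 → ℂ) → ℝ}
    (h1 : Continuous χ) (h2 : HasCompactSupport χ) (h3 : tsupport χ ⊆ ball (ev v₁ h))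
    (h4 : ∀ y, 0 ≤ χ y)
    (h5 : ∀ y ∈ ball (ev v₁ h), HasSum (fun g : Gam D h N => χ (act v₁ D g.1 y)) 1) :
    IsWt (ev v₁ h) (GamS v₁ D h N) χ := by
  refine ⟨h1, h2, h3, h4, fun y hy => ?_⟩
  rw [← (gamEquiv hG H hN hdet).hasSum_iff]
  refine (h5 y hy).congr_fun ?_
  intro p
  show χ (actC (gamEquiv hG H hN hdet p).1 y) = _
  rw [actC_eq (gamEquiv_val hG H hN hdet p)]

end

end Pool.Agent.CMH
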