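import Pool.Agent.Lib.CMH.Grp

/-!
# TANK CMH, row ADP, part DET: elements of `Γ_N`, `N ≥ 3`, have determinant one.  helper11.
-/

set_option autoImplicit false

open scoped ComplexConjugate Matrix
open Complex

namespace Pool.Agent.CMH.AdpDet

noncomputable section

open Pool.Agent.CMH.Grp

variable {F : Type} [Field F]

/-- `E = F(√-D)` as a ring of pairs. -/
abbrev EE (D : F) : Type := QuadraticAlgebra F (-D) 0

/-- the embedding of `E` in `ℂ` at the place `v`. -/
def hom (v : F →+* ℝ) (D : F) (hD : 0 < v D) : EE D →+* ℂ where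
  toFun z := emb v D z.re z.im
  map_one' := emb_one v D
  map_zero' := emb_zero v D
  map_add' z z' := by
    change emb v D (z.re + z'.re) (z.im + z'.im) = _
    rw [emb_add]
  map_mul' z z' := by
    rw [emb_mul hD]
    congr 1
    · rw [QuadraticAlgebra.re_mul]; ring
    · rw [QuadraticAlgebra.im_mul]; ring

/-- the order `𝓞 + 𝓞 √-D`. -/
def OE (D : F) (hi : IsIntegral ℤ D) : Subring (EE D) where
  carrier := {z | IsIntegral ℤ z.re ∧ IsIntegral ℤ z.im}
  mul_mem' := by
    rintro z z' ⟨h1, h2⟩ ⟨h3, h4⟩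
    refine ⟨?_, ?_⟩
    · rw [QuadraticAlgebra.re_mul]
      exact (h1.mul h3).add ((hi.neg.mul h2).mul h4)
    · rw [QuadraticAlgebra.im_mul]
      exact ((h1.mul h4).add (h2.mul h3)).add ((isIntegral_zero.mul h2).mul h4)
  one_mem' := ⟨isIntegral_one, isIntegral_zero⟩
  add_mem' := by
    rintro z z' ⟨h1, h2⟩ ⟨h3, h4⟩
    exact ⟨h1.add h3, h2.add h4⟩
  zero_mem' := ⟨isIntegral_zero, isIntegral_zero⟩
  neg_mem' := by
    rintro z ⟨h1, h2⟩
    exact ⟨h1.neg, h2.neg⟩

/-- the determinant is one modulo `N`. -/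
theorem det_cong {D : F} (hi : IsIntegral ℤ D) (N : ℕ) (Z : Matrix (Fin 3) (Fin 3) (EE D))
    (hZ : ∀ i j, Z i j ∈ OE D hi) :
    ∃ T ∈ OE D hi, (1 + (N : EE D) • Z).det = 1 + (N : EE D) * T := by
  have hN : (N : EE D) ∈ OE D hi := natCast_mem _ N
  refine ⟨Z 0 0 + Z 1 1 + Z 2 2 + N * (Z 0 0 * Z 1 1 + Z 0 0 * Z 2 2 + Z 1 1 * Z 2 2
    - Z 0 1 * Z 1 0 - Z 0 2 * Z 2 0 - Z 1 2 * Z 2 1) + N * N * Z.det, ?_, ?_⟩
  · have hdet : Z.det ∈ OE D hi := by
      rw [Matrix.det_fin_three]
      have h := hZ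
      exact sub_mem (add_mem (add_mem (sub_mem (sub_mem
        (mul_mem (mul_mem (h _ _) (h _ _)) (h _ _)) (mul_mem (mul_mem (h _ _) (h _ _)) (h _ _)))
        (mul_mem (mul_mem (h _ _) (h _ _)) (h _ _))) (mul_mem (mul_mem (h _ _) (h _ _)) (h _ _)))
        (mul_mem (mul_mem (h _ _) (h _ _)) (h _ _))) (mul_mem (mul_mem (h _ _) (h _ _)) (h _ _))
    have h := hZ
    refine add_mem (add_mem (add_mem (add_mem (h _ _) (h _ _)) (h _ _)) (mul_mem hN ?_))
      (mul_mem (mul_mem hN hN) hdet)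
    exact sub_mem (sub_mem (sub_mem (add_mem (add_mem (mul_mem (h _ _) (h _ _))
      (mul_mem (h _ _) (h _ _))) (mul_mem (h _ _) (h _ _))) (mul_mem (h _ _) (h _ _)))
      (mul_mem (h _ _) (h _ _))) (mul_mem (h _ _) (h _ _))
  · rw [Matrix.det_fin_three, Matrix.det_fin_three]
    simp only [Matrix.add_apply, Matrix.smul_apply, smul_eq_mul, Matrix.one_apply_eq,
      Matrix.one_apply_ne (show (0 : Fin 3) ≠ 1 by decide),
      Matrix.one_apply_ne (show (0 : Fin 3) ≠ 2 by decide),
      Matrix.one_apply_ne (show (1 : Fin 3) ≠ 0 by decide),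
      Matrix.one_apply_ne (show (1 : Fin 3) ≠ 2 by decide),
      Matrix.one_apply_ne (show (2 : Fin 3) ≠ 0 by decide),
      Matrix.one_apply_ne (show (2 : Fin 3) ≠ 1 by decide)]
    ring

variable [NumberField F]

/-- an algebraic integer of a totally real field which is small at all places is zero. -/
theorem eq_zero_of_small [NumberField.IsTotallyReal F] {t : F} (ht : IsIntegral ℤ t)
    (h : ∀ v : F →+* ℝ, |v t| < 1) : t = 0 := by
  have h1 : IsIntegral ℤ (Algebra.norm ℚ t) := Algebra.isIntegral_norm ℚ ht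
  obtain ⟨n, hn⟩ := IsIntegrallyClosed.isIntegral_iff.mp h1
  have h2 : (algebraMap ℚ ℂ) (Algebra.norm ℚ t) = ∏ φ : F →ₐ[ℚ] ℂ, φ t :=
    Algebra.norm_eq_prod_embeddings ℚ ℂ t
  have h3 : ∀ φ : F →ₐ[ℚ] ℂ, ‖φ t‖ < 1 := by
    intro φ
    have hr : NumberField.ComplexEmbedding.IsReal (φ : F →+* ℂ) :=
      NumberField.IsTotallyReal.complexEmbedding_isReal (φ : F →+* ℂ)
    have e : ((hr.embedding t : ℝ) : ℂ) = φ t := by
      rw [NumberField.ComplexEmbedding.IsReal.coe_embedding_apply]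
      rfl
    rw [← e, Complex.norm_real, Real.norm_eq_abs]
    exact h _
  have h4 : ‖∏ φ : F →ₐ[ℚ] ℂ, φ t‖ < 1 := by
    rw [norm_prod]
    have hne : (Finset.univ : Finset (F →ₐ[ℚ] ℂ)).Nonempty := by
      rw [Finset.univ_nonempty_iff]
      have : 0 < Fintype.card (F →ₐ[ℚ] ℂ) := by
        rw [AlgHom.card]
        exact Module.finrank_pos
      exact Fintype.card_pos_iff.mp this
    calc ∏ φ : F →ₐ[ℚ] ℂ, ‖φ t‖ < ∏ φ : F →ₐ[ℚ] ℂ, (1 : ℝ) := by
          by_cases h0 : t = 0
          · subst h0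
            obtain ⟨φ, hφ⟩ := hne
            simp only [map_zero, norm_zero, Finset.prod_const_one]
            rw [Finset.prod_const, zero_pow (Finset.card_pos.mpr ⟨φ, hφ⟩).ne']
            exact one_pos
          · apply Finset.prod_lt_prod_of_nonempty
            · intro φ _
              rw [norm_pos_iff]
              exact fun hh => h0 ((map_eq_zero φ).mp hh)
            · intro φ _
              exact h3 φ
            · exact hne
      _ = 1 := by simp
  rw [← h2, ← hn] at h4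
  have h5 : ‖((n : ℤ) : ℂ)‖ < 1 := by simpa using h4
  have h6 : n = 0 := by
    rw [Complex.norm_intCast] at h5
    have : |n| < 1 := by exact_mod_cast h5
    exact Int.abs_lt_one_iff.mp this
  have h7 : Algebra.norm ℚ t = 0 := by rw [← hn, h6]; simp
  exact Algebra.norm_eq_zero_iff.mp h7

/-- elements of `Γ_N`, `N ≥ 3`, have determinant one. -/
theorem det_one [NumberField.IsTotallyReal F] {v₁ : F →+* ℝ} {D : F} {h : Fin 3 → F}
    (H : Good v₁ D h) {N : ℕ} (hN : 3 ≤ N) {p : Mat F} (hp : p ∈ Gam D h N) :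
    (cmat v₁ D p).det = 1 := by
  have hN0 : 0 < N := by omega
  have hNF : (N : F) ≠ 0 := Nat.cast_ne_zero.mpr hN0.ne'
  -- the matrix over the order
  set Z : Matrix (Fin 3) (Fin 3) (EE D) := fun i j =>
    ⟨(p.1 i j - (1 : Matrix (Fin 3) (Fin 3) F) i j) / N, p.2 i j / N⟩ with hZdef
  have hZ : ∀ i j, Z i j ∈ OE D H.Di := fun i j => ⟨hp.2.2.1 i j, hp.2.2.2 i j⟩
  obtain ⟨T, hT, e⟩ := det_cong H.Di N Z hZ
  have hmap : ∀ v : F →+* ℝ, cmat v D p = (1 + (N : EE D) • Z).map (hom v D (H.D0 v)) := by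
    intro v
    ext i j
    rw [Matrix.map_apply, cmat_apply]
    change _ = emb v D _ _
    congr 1
    · rw [Matrix.add_apply, Matrix.smul_apply, smul_eq_mul, QuadraticAlgebra.re_add,
        QuadraticAlgebra.re_mul, QuadraticAlgebra.re_natCast, QuadraticAlgebra.im_natCast]
      have e1 : ((1 : Matrix (Fin 3) (Fin 3) (EE D)) i j).re
          = (1 : Matrix (Fin 3) (Fin 3) F) i j := by
        by_cases hij : i = j
        · subst hij; rw [Matrix.one_apply_eq, Matrix.one_apply_eq]; rfl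
        · rw [Matrix.one_apply_ne hij, Matrix.one_apply_ne hij]; rfl
      rw [e1, hZdef]
      field_simp
      ring
    · rw [Matrix.add_apply, Matrix.smul_apply, smul_eq_mul, QuadraticAlgebra.im_add,
        QuadraticAlgebra.im_mul, QuadraticAlgebra.re_natCast, QuadraticAlgebra.im_natCast]
      have e1 : ((1 : Matrix (Fin 3) (Fin 3) (EE D)) i j).im = 0 := by
        by_cases hij : i = j
        · subst hij; rw [Matrix.one_apply_eq]; rfl
        · rw [Matrix.one_apply_ne hij]; rfl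
      rw [e1, hZdef]
      field_simp
      ring
  have hdet : ∀ v : F →+* ℝ, (cmat v D p).det = emb v D (1 + N * T.re) (N * T.im) := by
    intro v
    have h1 : (cmat v D p).det = hom v D (H.D0 v) (1 + (N : EE D) • Z).det := by
      rw [hmap v, RingHom.map_det]
      rfl
    rw [h1, e]
    change emb v D _ _ = _
    congr 1
    · rw [QuadraticAlgebra.re_add, QuadraticAlgebra.re_mul, QuadraticAlgebra.re_natCast,
        QuadraticAlgebra.im_natCast]
      change (1 : F) + _ = _
      ring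
    · rw [QuadraticAlgebra.im_add, QuadraticAlgebra.im_mul, QuadraticAlgebra.re_natCast,
        QuadraticAlgebra.im_natCast]
      change (0 : F) + _ = _
      ring
  -- norm one
  have hk : ∀ v : F →+* ℝ, ∀ j, ev v h j ≠ 0 := by
    intro v j
    unfold ev
    fin_cases j
    · exact (H.h0 v).ne'
    · exact (H.h1 v).ne'
    · by_cases hv : v = v₁
      · subst hv; exact H.h3.ne
      · exact (H.h2 v hv).ne'
  have hnorm : ∀ v : F →+* ℝ, (1 + N * v T.re) ^ 2 + v D * (N * v T.im) ^ 2 = 1 := by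
    intro v
    have hu := ((mem_Gam_iff (H.D0 v) hN0).mp hp).1
    have h1 := Uni.det (hk v) hu
    rw [hdet v, emb_conj, emb_mul (H.D0 v)] at h1
    have h2 := congrArg Complex.re h1
    rw [emb_re] at h2
    simp only [map_sub, map_mul, map_add, map_neg, map_one, map_natCast, Complex.one_re] at h2
    linarith [h2]
  have hNR : (3 : ℝ) ≤ N := by exact_mod_cast hN
  have hsmall : ∀ v : F →+* ℝ, |v T.re| < 1 := by
    intro v
    have h1 := hnorm v
    have h2 : 0 ≤ v D * (N * v T.im) ^ 2 := mul_nonneg (H.D0 v).le (sq_nonneg _)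
    have h3 : (1 + N * v T.re) ^ 2 ≤ 1 := by linarith
    have h4 := abs_le_of_sq_le_sq' (by linarith : (1 + N * v T.re) ^ 2 ≤ 1 ^ 2) zero_le_one
    rw [abs_lt]
    constructor <;> nlinarith [h4.1, h4.2]
  have hT0 : T.re = 0 := eq_zero_of_small hT.1 hsmall
  have him : T.im = 0 := by
    have h1 := hnorm v₁
    rw [hT0, map_zero, mul_zero, add_zero, one_pow] at h1
    have h2 : v₁ D * (N * v₁ T.im) ^ 2 = 0 := by linarith
    rcases mul_eq_zero.mp h2 with h3 | h3
    · exact absurd h3 (H.D0 v₁).ne'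
    · have h4 : (N : ℝ) * v₁ T.im = 0 := by
        exact pow_eq_zero_iff (two_ne_zero) |>.mp h3
      rcases mul_eq_zero.mp h4 with h5 | h5
      · exfalso; linarith
      · exact (map_eq_zero v₁).mp h5
  rw [hdet v₁, hT0, him, mul_zero, add_zero, emb_one]

end

end Pool.Agent.CMH.AdpDet
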