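import Pool.Agent.Lib.CMH.FxCalc
import Pool.Agent.Lib.CMH.Adp

/-! # Row ADP (helper6): congruence subgroups are arithmetic -/

set_option autoImplicit false

namespace Pool.Agent.CMH

theorem gamfin : FX.GAMFIN := fun _ _ _ _ v₁ D h N hG hN =>
  ⟨GamS v₁ D h N, isArith_GamS grp hG hN, fun _ hg => (mem_GamS grp hG hN).1 hg⟩

end Pool.Agent.CMH
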