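import Mathlib

/-! # TANK CMH, row APX: weak approximation for binary forms over a number field.  helper26.

`places` are the ring homomorphisms `v : F →+* ℝ` (all archimedean places if `F` is totally real).
-/

set_option autoImplicit false

namespace Pool.Agent.CMH

open Filter Topology

namespace Apx

variable {F : Type*} [Field F]

/-- the absolute value of a real embedding. -/
noncomputable def av (v : F →+* ℝ) : AbsoluteValue F ℝ where
  toFun x := |v x|
  map_mul' x y := by rw [map_mul, abs_mul]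
  nonneg' x := abs_nonneg _
  eq_zero' x := by simp
  add_le' x y := by rw [map_add]; exact abs_add_le _ _

@[simp] theorem av_apply (v : F →+* ℝ) (x : F) : av v x = |v x| := rfl

theorem av_inj {v w : F →+* ℝ} (h : ∀ x, |v x| = |w x|) : v = w := by
  ext x
  obtain ⟨n, hn⟩ := exists_nat_gt (max (-(v x)) (-(w x)))
  have h1 := h (x + n)
  have hv : 0 < v x + n := by linarith [le_max_left (-(v x)) (-(w x))]
  have hw : 0 < w x + n := by linarith [le_max_right (-(v x)) (-(w x))]
  rw [map_add, map_add, map_natCast, map_natCast, abs_of_pos hv, abs_of_pos hw] at h1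
  linarith

/-- **Weak approximation** at the real places. -/
theorem approx [Finite (F →+* ℝ)] (r : (F →+* ℝ) → ℝ) {ε : ℝ} (hε : 0 < ε) :
    ∃ x : F, ∀ v : F →+* ℝ, |v x - r v| < ε := by
  classical
  rcases isEmpty_or_nonempty (F →+* ℝ) with he | ⟨⟨v0⟩⟩
  · exact ⟨0, fun v => (he.false v).elim⟩
  have hchar : CharZero F := v0.charZero
  have hd := AbsoluteValue.denseRange_algebraMap_pi (F := F) (v := fun v : F →+* ℝ => av v)
    (fun v => ⟨2, by simp, by rw [av_apply, map_ofNat]; norm_num⟩) (by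
      intro v w hvw hE
      apply hvw
      obtain ⟨c, hc, h⟩ := AbsoluteValue.isEquiv_iff_exists_rpow_eq.1 hE
      have h2 := congrFun h 2
      simp only [av_apply, map_ofNat] at h2
      have hc1 : c = 1 := by
        have h3 : |(2 : ℝ)| = 2 := by norm_num
        rw [h3] at h2
        have h4 : (2 : ℝ) ^ c = 2 ^ (1 : ℝ) := by rw [h2, Real.rpow_one]
        exact (Real.rpow_right_inj (by norm_num) (by norm_num)).1 h4
      subst hc1
      apply av_inj
      intro x
      have := congrFun h x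
      simpa using this)
  choose q hq using fun v : F →+* ℝ => exists_rat_btwn (show r v < r v + ε / 2 by linarith)
  have := Fintype.ofFinite (F →+* ℝ)
  rw [Metric.denseRange_iff] at hd
  obtain ⟨x, hx⟩ := hd (fun v => (WithAbs.equiv (av v)).symm (q v : F)) (ε / 2) (by linarith)
  refine ⟨x, fun v => ?_⟩
  have h1 := lt_of_le_of_lt (dist_le_pi_dist _ _ v) hx
  rw [dist_eq_norm, WithAbs.norm_eq_apply_ofAbs] at h1
  have h2 : |(q v : ℝ) - v x| < ε / 2 := by
    have e : v ((q v : F) - x) = (q v : ℝ) - v x := by rw [map_sub, map_ratCast]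
    rw [← e]
    exact h1
  have h3 := hq v
  rw [abs_lt] at h2 ⊢
  constructor <;> linarith [h3.1, h3.2, h2.1, h2.2]

/-- rotation of the binary form `diag(b1, b2)` with parameters `(u, w)`. -/
def rot {K : Type*} [Field K] (b1 b2 u w : K) : Matrix (Fin 2) (Fin 2) K :=
  !![(u ^ 2 - b1 * b2 * w ^ 2) / (u ^ 2 + b1 * b2 * w ^ 2),
      -(b2 * (2 * u * w / (u ^ 2 + b1 * b2 * w ^ 2)));
    b1 * (2 * u * w / (u ^ 2 + b1 * b2 * w ^ 2)),
      (u ^ 2 - b1 * b2 * w ^ 2) / (u ^ 2 + b1 * b2 * w ^ 2)]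

theorem rot_mem {K : Type*} [Field K] {b1 b2 u w : K} (h : u ^ 2 + b1 * b2 * w ^ 2 ≠ 0) :
    (rot b1 b2 u w).transpose * Matrix.diagonal ![b1, b2] * rot b1 b2 u w =
      Matrix.diagonal ![b1, b2] := by
  have h1 : ((u ^ 2 - b1 * b2 * w ^ 2) / (u ^ 2 + b1 * b2 * w ^ 2)) ^ 2 +
      b1 * b2 * (2 * u * w / (u ^ 2 + b1 * b2 * w ^ 2)) ^ 2 = 1 := by
    field_simp
    ring
  unfold rot
  generalize (u ^ 2 - b1 * b2 * w ^ 2) / (u ^ 2 + b1 * b2 * w ^ 2) = x at h1 ⊢
  generalize 2 * u * w / (u ^ 2 + b1 * b2 * w ^ 2) = y at h1 ⊢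
  ext i j
  fin_cases i <;> fin_cases j <;>
    simp [Matrix.mul_apply, Fin.sum_univ_two, Matrix.diagonal_apply]
  · linear_combination b1 * h1
  · ring
  · ring
  · linear_combination b2 * h1

theorem det_rot {K : Type*} [Field K] {b1 b2 u w : K} (h : u ^ 2 + b1 * b2 * w ^ 2 ≠ 0) :
    (rot b1 b2 u w).det = 1 := by
  rw [Matrix.det_fin_two]
  simp only [rot, Matrix.of_apply, Matrix.cons_val', Matrix.cons_val_zero, Matrix.cons_val_one,
    Matrix.cons_val_fin_one, Matrix.empty_val']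
  field_simp
  ring

theorem rot_map {K L : Type*} [Field K] [Field L] (f : K →+* L) (b1 b2 u w : K) :
    (rot b1 b2 u w).map f = rot (f b1) (f b2) (f u) (f w) := by
  ext i j
  fin_cases i <;> fin_cases j <;> simp [rot, map_ofNat]

/-- parameters of a rotation with given entries. -/
theorem rot_param {b1 b2 x y : ℝ} (h : x ^ 2 + b1 * b2 * y ^ 2 = 1) (hx : 0 < x) :
    (1 + x) ^ 2 + b1 * b2 * y ^ 2 ≠ 0 ∧
      rot b1 b2 (1 + x) y = !![x, -(b2 * y); b1 * y, x] := by
  have e1 : (1 + x) ^ 2 + b1 * b2 * y ^ 2 = 2 * (1 + x) := by linarith [h]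
  have e2 : (1 + x) ^ 2 - b1 * b2 * y ^ 2 = 2 * (1 + x) * x := by nlinarith [h]
  have h1 : (1 + x) ≠ 0 := by linarith
  refine ⟨by rw [e1]; positivity, ?_⟩
  have e3 : ((1 + x) ^ 2 - b1 * b2 * y ^ 2) / ((1 + x) ^ 2 + b1 * b2 * y ^ 2) = x := by
    rw [e1, e2]
    field_simp
  have e4 : 2 * (1 + x) * y / ((1 + x) ^ 2 + b1 * b2 * y ^ 2) = y := by
    rw [e1]
    field_simp
  unfold rot
  rw [e3, e4]

/-- the majorant `|diag b|` transported by `N`. -/
noncomputable def maj (b1 b2 : ℝ) (N : Matrix (Fin 2) (Fin 2) ℝ) : Matrix (Fin 2) (Fin 2) ℝ :=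
  N.transpose * Matrix.diagonal ![|b1|, |b2|] * N

/-- at a real place: a rotation which makes `N0` carry `|diag b|` to `|diag a|`. -/
theorem real_rot {a1 a2 b1 b2 : ℝ} (ha1 : a1 ≠ 0) (hb1 : b1 ≠ 0) (hb2 : b2 ≠ 0)
    (N0 : Matrix (Fin 2) (Fin 2) ℝ)
    (h0 : N0.transpose * Matrix.diagonal ![b1, b2] * N0 = Matrix.diagonal ![a1, a2]) :
    ∃ u w : ℝ, u ^ 2 + b1 * b2 * w ^ 2 ≠ 0 ∧
      maj b1 b2 (rot b1 b2 u w * N0) = Matrix.diagonal ![|a1|, |a2|] := by
  obtain ⟨p, hp⟩ : ∃ p, p = N0 0 0 := ⟨_, rfl⟩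
  obtain ⟨q, hq⟩ : ∃ q, q = N0 0 1 := ⟨_, rfl⟩
  obtain ⟨r, hr⟩ : ∃ r, r = N0 1 0 := ⟨_, rfl⟩
  obtain ⟨s, hs⟩ : ∃ s, s = N0 1 1 := ⟨_, rfl⟩
  have hN : N0 = !![p, q; r, s] := by
    ext i j
    fin_cases i <;> fin_cases j <;> simp [hp, hq, hr, hs]
  subst hN
  have h11 : b1 * p ^ 2 + b2 * r ^ 2 = a1 := by
    have := congrFun (congrFun h0 0) 0
    simp [Matrix.mul_apply, Fin.sum_univ_two, Matrix.diagonal_apply] at this
    linarith
  have h22 : b1 * q ^ 2 + b2 * s ^ 2 = a2 := by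
    have := congrFun (congrFun h0 1) 1
    simp [Matrix.mul_apply, Fin.sum_univ_two, Matrix.diagonal_apply] at this
    linarith
  have h12 : b1 * p * q + b2 * r * s = 0 := by
    have := congrFun (congrFun h0 0) 1
    simp [Matrix.mul_apply, Fin.sum_univ_two, Matrix.diagonal_apply] at this
    linarith
  -- the determinant
  have hdet : a1 * a2 = b1 * b2 * (p * s - q * r) ^ 2 := by
    rw [← h11, ← h22]
    linear_combination (b1 * p * q + b2 * r * s) * h12
  rcases lt_or_gt_of_ne (mul_ne_zero hb1 hb2) with hneg | hpos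
  · -- indefinite
    rcases lt_or_gt_of_ne (mul_ne_zero ha1 hb1) with hab | hab
    · -- the first column goes to the second axis
      have hab2 : 0 < a1 / b2 := by
        have h1 : 0 < a1 * b2 := by
          have h2 : 0 < (a1 * b1) * (b1 * b2) := mul_pos_of_neg_of_neg hab hneg
          have h3 : (a1 * b1) * (b1 * b2) = b1 ^ 2 * (a1 * b2) := by ring
          rw [h3] at h2
          exact (mul_pos_iff_of_pos_left (by positivity)).1 h2
        rcases mul_pos_iff.1 h1 with ⟨h4, h5⟩ | ⟨h4, h5⟩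
        · exact div_pos h4 h5
        · exact div_pos_of_neg_of_neg h4 h5
      obtain ⟨c, hc, hc2⟩ : ∃ c : ℝ, 0 < c ∧ b2 * c ^ 2 = a1 := by
        refine ⟨√(a1 / b2), Real.sqrt_pos.2 hab2, ?_⟩
        rw [Real.sq_sqrt hab2.le]
        field_simp
      have hr0 : r ≠ 0 := by
        rintro rfl
        have h2 : a1 * b1 = (b1 * p) ^ 2 := by
          rw [← h11]
          ring
        have := sq_nonneg (b1 * p)
        linarith
      obtain ⟨σ, hσ, hσr⟩ : ∃ σ : ℝ, σ ^ 2 = 1 ∧ 0 < σ * r := by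
        rcases lt_or_gt_of_ne hr0 with h | h
        · exact ⟨-1, by norm_num, by linarith⟩
        · exact ⟨1, by norm_num, by linarith⟩
      have key := rot_param (b1 := b1) (b2 := b2) (x := σ * r / c) (y := σ * p / (b2 * c)) (by
        field_simp
        linear_combination (b1 * p ^ 2 + b2 * r ^ 2) * hσ + h11 - hc2) (by positivity)
      refine ⟨_, _, key.1, ?_⟩
      rw [key.2]
      have eN : !![σ * r / c, -(b2 * (σ * p / (b2 * c))); b1 * (σ * p / (b2 * c)), σ * r / c] *
          !![p, q; r, s] = !![0, -(σ * (p * s - q * r) / c); σ * c, 0] := by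
        ext i j
        fin_cases i <;> fin_cases j <;>
          simp [Matrix.mul_apply, Fin.sum_univ_two]
        · field_simp
          ring
        · field_simp
          ring
        · field_simp
          linear_combination σ * h11 - σ * hc2
        · field_simp
          linear_combination σ * h12
      rw [eN]
      have e1 : |b2| * (σ * c) ^ 2 = |a1| := by
        rw [← hc2, abs_mul, abs_of_nonneg (sq_nonneg c), mul_pow, hσ, one_mul]
      have e2 : |b1| * (σ * (p * s - q * r) / c) ^ 2 = |a2| := by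
        have h5 : a2 = b1 * (σ * (p * s - q * r) / c) ^ 2 := by
          have h6 : a1 * a2 = a1 * (b1 * (σ * (p * s - q * r) / c) ^ 2) := by
            rw [hdet, ← hc2]
            field_simp
            rw [hσ, mul_one]
          exact mul_left_cancel₀ ha1 h6
        rw [h5, abs_mul, abs_sq]
      unfold maj
      ext i j
      fin_cases i <;> fin_cases j <;>
        simp [Matrix.mul_apply, Fin.sum_univ_two, Matrix.diagonal_apply]
      · rw [← e1]
        ring
      · rw [← e2]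
        ring
    · -- the first column goes to the first axis
      have hab2 : 0 < a1 / b1 := by
        rcases mul_pos_iff.1 hab with ⟨h4, h5⟩ | ⟨h4, h5⟩
        · exact div_pos h4 h5
        · exact div_pos_of_neg_of_neg h4 h5
      obtain ⟨c, hc, hc2⟩ : ∃ c : ℝ, 0 < c ∧ b1 * c ^ 2 = a1 := by
        refine ⟨√(a1 / b1), Real.sqrt_pos.2 hab2, ?_⟩
        rw [Real.sq_sqrt hab2.le]
        field_simp
      have hp0 : p ≠ 0 := by
        rintro rfl
        have h2 : a1 * b1 = b1 * b2 * r ^ 2 := by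
          rw [← h11]
          ring
        have := mul_nonneg (neg_nonneg.2 hneg.le) (sq_nonneg r)
        linarith
      obtain ⟨σ, hσ, hσr⟩ : ∃ σ : ℝ, σ ^ 2 = 1 ∧ 0 < σ * p := by
        rcases lt_or_gt_of_ne hp0 with h | h
        · exact ⟨-1, by norm_num, by linarith⟩
        · exact ⟨1, by norm_num, by linarith⟩
      have key := rot_param (b1 := b1) (b2 := b2) (x := σ * p / c) (y := -(σ * r / (b1 * c))) (by
        field_simp
        linear_combination (b1 * p ^ 2 + b2 * r ^ 2) * hσ + h11 - hc2) (by positivity)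
      refine ⟨_, _, key.1, ?_⟩
      rw [key.2]
      have eN : !![σ * p / c, -(b2 * -(σ * r / (b1 * c))); b1 * -(σ * r / (b1 * c)), σ * p / c] *
          !![p, q; r, s] = !![σ * c, 0; 0, σ * (p * s - q * r) / c] := by
        ext i j
        fin_cases i <;> fin_cases j <;>
          simp [Matrix.mul_apply, Fin.sum_univ_two]
        · field_simp
          linear_combination σ * h11 - σ * hc2
        · field_simp
          linear_combination σ * h12
        · field_simp
          ring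
        · field_simp
          ring
      rw [eN]
      have e1 : |b1| * (σ * c) ^ 2 = |a1| := by
        rw [← hc2, abs_mul, abs_of_nonneg (sq_nonneg c), mul_pow, hσ, one_mul]
      have e2 : |b2| * (σ * (p * s - q * r) / c) ^ 2 = |a2| := by
        have h5 : a2 = b2 * (σ * (p * s - q * r) / c) ^ 2 := by
          have h6 : a1 * a2 = a1 * (b2 * (σ * (p * s - q * r) / c) ^ 2) := by
            rw [hdet, ← hc2]
            field_simp
            rw [hσ, mul_one]
          exact mul_left_cancel₀ ha1 h6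
        rw [h5, abs_mul, abs_sq]
      unfold maj
      ext i j
      fin_cases i <;> fin_cases j <;>
        simp [Matrix.mul_apply, Fin.sum_univ_two, Matrix.diagonal_apply]
      · rw [← e1]
        ring
      · rw [← e2]
        ring
  · -- definite
    refine ⟨1, 0, by norm_num, ?_⟩
    have e0 : rot b1 b2 1 0 = 1 := by
      ext i j
      fin_cases i <;> fin_cases j <;> simp [rot]
    rw [e0, one_mul]
    obtain ⟨σ, hσ1, hσ2, hσ3, hσ4⟩ : ∃ σ : ℝ, |b1| = σ * b1 ∧ |b2| = σ * b2 ∧ |a1| = σ * a1 ∧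
        |a2| = σ * a2 := by
      rcases mul_pos_iff.1 hpos with ⟨h4, h5⟩ | ⟨h4, h5⟩
      · refine ⟨1, ?_, ?_, ?_, ?_⟩
        · rw [one_mul, abs_of_pos h4]
        · rw [one_mul, abs_of_pos h5]
        · rw [one_mul, ← h11]
          exact abs_of_nonneg (by positivity)
        · rw [one_mul, ← h22]
          exact abs_of_nonneg (by positivity)
      · have h6 : 0 ≤ -b1 := by linarith
        have h7 : 0 ≤ -b2 := by linarith
        refine ⟨-1, ?_, ?_, ?_, ?_⟩
        · rw [abs_of_neg h4]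
          ring
        · rw [abs_of_neg h5]
          ring
        · rw [← h11, abs_of_nonpos]
          · ring
          · have := mul_nonneg h6 (sq_nonneg p)
            have := mul_nonneg h7 (sq_nonneg r)
            linarith
        · rw [← h22, abs_of_nonpos]
          · ring
          · have := mul_nonneg h6 (sq_nonneg q)
            have := mul_nonneg h7 (sq_nonneg s)
            linarith
    unfold maj
    rw [hσ1, hσ2, hσ3, hσ4]
    ext i j
    fin_cases i <;> fin_cases j <;>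
      simp [Matrix.mul_apply, Fin.sum_univ_two, Matrix.diagonal_apply]
    · linear_combination σ * h11
    · linear_combination σ * h12
    · linear_combination σ * h12
    · linear_combination σ * h22

theorem continuousAt_rot {b1 b2 u w : ℝ} (h : u ^ 2 + b1 * b2 * w ^ 2 ≠ 0) :
    ContinuousAt (fun z : ℝ × ℝ => rot b1 b2 z.1 z.2) (u, w) := by
  have hd : ContinuousAt (fun z : ℝ × ℝ => z.1 ^ 2 + b1 * b2 * z.2 ^ 2) (u, w) := by fun_prop
  have h1 : ContinuousAt (fun z : ℝ × ℝ => (z.1 ^ 2 - b1 * b2 * z.2 ^ 2) /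
      (z.1 ^ 2 + b1 * b2 * z.2 ^ 2)) (u, w) :=
    ContinuousAt.div (by fun_prop) hd h
  have h2 : ContinuousAt (fun z : ℝ × ℝ => 2 * z.1 * z.2 /
      (z.1 ^ 2 + b1 * b2 * z.2 ^ 2)) (u, w) :=
    ContinuousAt.div (by fun_prop) hd h
  unfold rot
  refine continuousAt_pi.2 fun i => continuousAt_pi.2 fun j => ?_
  fin_cases i <;> fin_cases j
  · exact h1
  · exact (h2.const_mul b2).neg
  · exact h2.const_mul b1
  · exact h1

/-- **Approximation of majorants by rational isometries** (ε-form). -/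
theorem exists_near [Finite (F →+* ℝ)] {a1 a2 b1 b2 : F} (ha1 : a1 ≠ 0)
    (hb1 : b1 ≠ 0) (hb2 : b2 ≠ 0) (N0 : Matrix (Fin 2) (Fin 2) F)
    (h0 : N0.transpose * Matrix.diagonal ![b1, b2] * N0 = Matrix.diagonal ![a1, a2])
    {ε : ℝ} (hε : 0 < ε) : ∃ N : Matrix (Fin 2) (Fin 2) F,
      N.transpose * Matrix.diagonal ![b1, b2] * N = Matrix.diagonal ![a1, a2] ∧
      N.det = N0.det ∧
      ∀ (v : F →+* ℝ) (i j : Fin 2), |maj (v b1) (v b2) (N.map v) i j -
        (Matrix.diagonal ![|v a1|, |v a2|] : Matrix (Fin 2) (Fin 2) ℝ) i j| < ε := by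
  classical
  rcases isEmpty_or_nonempty (F →+* ℝ) with he | ⟨⟨v0⟩⟩
  · exact ⟨N0, h0, rfl, fun v => (he.false v).elim⟩
  have hv : ∀ v : F →+* ℝ, ∃ z : ℝ × ℝ, z.1 ^ 2 + v b1 * v b2 * z.2 ^ 2 ≠ 0 ∧
      maj (v b1) (v b2) (rot (v b1) (v b2) z.1 z.2 * N0.map v) =
        Matrix.diagonal ![|v a1|, |v a2|] := by
    intro v
    have hn : ∀ x : F, x ≠ 0 → v x ≠ 0 := fun x hx => (map_ne_zero v).2 hx
    obtain ⟨u, w, h1, h2⟩ := real_rot (hn _ ha1) (hn _ hb1) (hn _ hb2) (N0.map v) (by
      have := congrArg (fun M : Matrix (Fin 2) (Fin 2) F => M.map v) h0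
      simp only [Matrix.map_mul, Matrix.transpose_map] at this
      rw [Matrix.diagonal_map (map_zero v), Matrix.diagonal_map (map_zero v)] at this
      have hd : ∀ x y : F, (fun m => v ((![x, y] : Fin 2 → F) m)) = ![v x, v y] := by
        intro x y
        ext i
        fin_cases i <;> rfl
      rw [hd, hd] at this
      exact this)
    exact ⟨(u, w), h1, h2⟩
  choose z hz1 hz2 using hv
  choose u hu using fun k : ℕ => approx (fun v : F →+* ℝ => (z v).1)
    (ε := 1 / ((k : ℝ) + 1)) (by positivity)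
  choose w hw using fun k : ℕ => approx (fun v : F →+* ℝ => (z v).2)
    (ε := 1 / ((k : ℝ) + 1)) (by positivity)
  have hlim : Tendsto (fun k : ℕ => 1 / ((k : ℝ) + 1)) atTop (𝓝 0) :=
    tendsto_one_div_add_atTop_nhds_zero_nat
  have hut : ∀ v : F →+* ℝ, Tendsto (fun k => v (u k)) atTop (𝓝 (z v).1) := by
    intro v
    rw [tendsto_iff_dist_tendsto_zero]
    refine squeeze_zero (fun _ => dist_nonneg) (fun k => ?_) hlim
    rw [Real.dist_eq]
    exact (hu k v).le
  have hwt : ∀ v : F →+* ℝ, Tendsto (fun k => v (w k)) atTop (𝓝 (z v).2) := by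
    intro v
    rw [tendsto_iff_dist_tendsto_zero]
    refine squeeze_zero (fun _ => dist_nonneg) (fun k => ?_) hlim
    rw [Real.dist_eq]
    exact (hw k v).le
  have hev : ∀ v : F →+* ℝ, ∀ᶠ k in atTop,
      (v (u k) ^ 2 + v b1 * v b2 * v (w k) ^ 2 ≠ 0) ∧
      ∀ i j : Fin 2, |maj (v b1) (v b2) (rot (v b1) (v b2) (v (u k)) (v (w k)) * N0.map v) i j -
        (Matrix.diagonal ![|v a1|, |v a2|] : Matrix (Fin 2) (Fin 2) ℝ) i j| < ε := by
    intro v
    have ht : Tendsto (fun k => (v (u k), v (w k))) atTop (𝓝 ((z v).1, (z v).2)) :=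
      (hut v).prodMk_nhds (hwt v)
    have h1 : ContinuousAt (fun y : ℝ × ℝ => y.1 ^ 2 + v b1 * v b2 * y.2 ^ 2)
        ((z v).1, (z v).2) := by fun_prop
    have e1 := (h1.tendsto.comp ht).eventually_ne (hz1 v)
    have h2 : ContinuousAt (fun y : ℝ × ℝ => maj (v b1) (v b2)
        (rot (v b1) (v b2) y.1 y.2 * N0.map v)) ((z v).1, (z v).2) := by
      have h3 := continuousAt_rot (hz1 v)
      have h4 : Continuous fun A : Matrix (Fin 2) (Fin 2) ℝ => maj (v b1) (v b2) (A * N0.map v) := by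
        unfold maj
        fun_prop
      exact h4.continuousAt.comp h3
    have h5 := h2.tendsto.comp ht
    rw [hz2 v] at h5
    have e2 : ∀ i j : Fin 2, ∀ᶠ k in atTop,
        |maj (v b1) (v b2) (rot (v b1) (v b2) (v (u k)) (v (w k)) * N0.map v) i j -
        (Matrix.diagonal ![|v a1|, |v a2|] : Matrix (Fin 2) (Fin 2) ℝ) i j| < ε := by
      intro i j
      have h6 := (tendsto_pi_nhds.1 (tendsto_pi_nhds.1 h5 i) j)
      have h7 := Metric.tendsto_nhds.1 h6 ε hε
      filter_upwards [h7] with k hk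
      rw [Real.dist_eq] at hk
      exact hk
    filter_upwards [e1, eventually_all.2 fun i => eventually_all.2 fun j => e2 i j] with k k1 k2
    exact ⟨k1, k2⟩
  obtain ⟨k, hk⟩ := (eventually_all.2 hev).exists
  have hne : u k ^ 2 + b1 * b2 * w k ^ 2 ≠ 0 := by
    intro h
    apply (hk v0).1
    have := congrArg v0 h
    simpa using this
  refine ⟨rot b1 b2 (u k) (w k) * N0, ?_, ?_, ?_⟩
  · rw [Matrix.transpose_mul]
    calc N0.transpose * (rot b1 b2 (u k) (w k)).transpose * Matrix.diagonal ![b1, b2] *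
          (rot b1 b2 (u k) (w k) * N0)
        = N0.transpose * ((rot b1 b2 (u k) (w k)).transpose * Matrix.diagonal ![b1, b2] *
          rot b1 b2 (u k) (w k)) * N0 := by simp only [Matrix.mul_assoc]
      _ = _ := by rw [rot_mem hne, h0]
  · rw [Matrix.det_mul, det_rot hne, one_mul]
  · intro v i j
    rw [Matrix.map_mul, rot_map]
    exact (hk v).2 i j

/-- **Approximation of majorants by rational isometries** (sequence form). -/
theorem exists_seq [Finite (F →+* ℝ)] {a1 a2 b1 b2 : F} (ha1 : a1 ≠ 0)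
    (hb1 : b1 ≠ 0) (hb2 : b2 ≠ 0) (N0 : Matrix (Fin 2) (Fin 2) F)
    (h0 : N0.transpose * Matrix.diagonal ![b1, b2] * N0 = Matrix.diagonal ![a1, a2]) :
    ∃ N : ℕ → Matrix (Fin 2) (Fin 2) F,
      (∀ k, (N k).transpose * Matrix.diagonal ![b1, b2] * N k = Matrix.diagonal ![a1, a2]) ∧
      (∀ k, (N k).det = N0.det) ∧
      ∀ v : F →+* ℝ, Tendsto (fun k => maj (v b1) (v b2) ((N k).map v)) atTop
        (𝓝 (Matrix.diagonal ![|v a1|, |v a2|])) := by
  choose N h1 h2 h3 using fun k : ℕ => exists_near ha1 hb1 hb2 N0 h0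
    (ε := 1 / ((k : ℝ) + 1)) (by positivity)
  refine ⟨N, h1, h2, fun v => ?_⟩
  refine tendsto_pi_nhds.2 fun i => tendsto_pi_nhds.2 fun j => ?_
  rw [tendsto_iff_dist_tendsto_zero]
  refine squeeze_zero (fun _ => dist_nonneg) (fun k => ?_) tendsto_one_div_add_atTop_nhds_zero_nat
  rw [Real.dist_eq]
  exact (h3 k v i j).le

/-- sign vectors: the set of real places where `a` is positive. -/
def pos (a : F) : Set (F →+* ℝ) := {v | 0 < v a}

theorem exists_pos [Finite (F →+* ℝ)] [Nonempty (F →+* ℝ)] (Φ : Set (F →+* ℝ)) :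
    ∃ a : F, a ≠ 0 ∧ pos a = Φ := by
  classical
  obtain ⟨a, ha⟩ := approx (fun v : F →+* ℝ => if v ∈ Φ then 1 else -1) (ε := 1 / 2)
    (by norm_num)
  have h : ∀ v : F →+* ℝ, (v ∈ Φ → 0 < v a) ∧ (v ∉ Φ → v a < 0) := by
    intro v
    have := ha v
    rw [abs_lt] at this
    constructor
    · intro hv
      rw [if_pos hv] at this
      linarith [this.1]
    · intro hv
      rw [if_neg hv] at this
      linarith [this.2]
  obtain ⟨v0⟩ := (inferInstance : Nonempty (F →+* ℝ))
  refine ⟨a, ?_, ?_⟩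
  · rintro rfl
    have := h v0
    rw [map_zero] at this
    by_cases hv : v0 ∈ Φ
    · exact absurd (this.1 hv) (lt_irrefl _)
    · exact absurd (this.2 hv) (lt_irrefl _)
  · ext v
    constructor
    · intro hv
      by_contra hn
      exact absurd hv (not_lt.2 ((h v).2 hn).le)
    · intro hv
      exact (h v).1 hv

/-- **(3.6)**: binary forms with prescribed signs, equivalent over `F`. -/
theorem exists_forms [Finite (F →+* ℝ)] [Nonempty (F →+* ℝ)] (Φ₁ Φ₂ Ψ₁ Ψ₂ : Set (F →+* ℝ))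
    (hI : Φ₁ ∩ Φ₂ = Ψ₁ ∩ Ψ₂) (hU : Φ₁ ∪ Φ₂ = Ψ₁ ∪ Ψ₂) : ∃ a1 a2 b1 b2 : F,
      a1 ≠ 0 ∧ a2 ≠ 0 ∧ b1 ≠ 0 ∧ b2 ≠ 0 ∧ pos a1 = Φ₁ ∧ pos a2 = Φ₂ ∧ pos b1 = Ψ₁ ∧
      pos b2 = Ψ₂ ∧ ∃ N0 : Matrix (Fin 2) (Fin 2) F, N0.det ≠ 0 ∧
        N0.transpose * Matrix.diagonal ![b1, b2] * N0 = Matrix.diagonal ![a1, a2] := by
  classical
  obtain ⟨b1, hb1, rfl⟩ := exists_pos Ψ₁
  obtain ⟨b2, hb2, rfl⟩ := exists_pos Ψ₂
  -- a vector `(p, r)` with `Q(p, r)` of signs `Φ₁`
  have hv : ∀ v : F →+* ℝ, ∃ z : ℝ × ℝ, (v ∈ Φ₁ → 0 < v b1 * z.1 ^ 2 + v b2 * z.2 ^ 2) ∧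
      (v ∉ Φ₁ → v b1 * z.1 ^ 2 + v b2 * z.2 ^ 2 < 0) := by
    intro v
    have n1 : v b1 ≠ 0 := (map_ne_zero v).2 hb1
    have n2 : v b2 ≠ 0 := (map_ne_zero v).2 hb2
    have hI' : (v ∈ Φ₁ ∧ v ∈ Φ₂) ↔ (0 < v b1 ∧ 0 < v b2) := by
      have := Set.ext_iff.1 hI v
      simpa [pos] using this
    have hU' : (v ∈ Φ₁ ∨ v ∈ Φ₂) ↔ (0 < v b1 ∨ 0 < v b2) := by
      have := Set.ext_iff.1 hU v
      simpa [pos] using this
    by_cases h1 : v ∈ Φ₁
    · rcases hU'.1 (Or.inl h1) with h | h
      · exact ⟨(1, 0), fun _ => by simpa using h, fun h' => absurd h1 h'⟩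
      · exact ⟨(0, 1), fun _ => by simpa using h, fun h' => absurd h1 h'⟩
    · have h2 : ¬ (0 < v b1 ∧ 0 < v b2) := fun h => h1 (hI'.2 h).1
      rcases not_and_or.1 h2 with h | h
      · refine ⟨(1, 0), fun h' => absurd h' h1, fun _ => ?_⟩
        have := lt_of_le_of_ne (not_lt.1 h) n1
        simpa using this
      · refine ⟨(0, 1), fun h' => absurd h' h1, fun _ => ?_⟩
        have := lt_of_le_of_ne (not_lt.1 h) n2
        simpa using this
  choose z hz1 hz2 using hv
  choose p hp using fun k : ℕ => approx (fun v : F →+* ℝ => (z v).1)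
    (ε := 1 / ((k : ℝ) + 1)) (by positivity)
  choose r hr using fun k : ℕ => approx (fun v : F →+* ℝ => (z v).2)
    (ε := 1 / ((k : ℝ) + 1)) (by positivity)
  have hlim : Tendsto (fun k : ℕ => 1 / ((k : ℝ) + 1)) atTop (𝓝 0) :=
    tendsto_one_div_add_atTop_nhds_zero_nat
  have hpt : ∀ v : F →+* ℝ, Tendsto (fun k => v (p k)) atTop (𝓝 (z v).1) := by
    intro v
    rw [tendsto_iff_dist_tendsto_zero]
    refine squeeze_zero (fun _ => dist_nonneg) (fun k => ?_) hlim
    rw [Real.dist_eq]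
    exact (hp k v).le
  have hrt : ∀ v : F →+* ℝ, Tendsto (fun k => v (r k)) atTop (𝓝 (z v).2) := by
    intro v
    rw [tendsto_iff_dist_tendsto_zero]
    refine squeeze_zero (fun _ => dist_nonneg) (fun k => ?_) hlim
    rw [Real.dist_eq]
    exact (hr k v).le
  have hev : ∀ v : F →+* ℝ, ∀ᶠ k in atTop,
      (v ∈ Φ₁ → 0 < v b1 * v (p k) ^ 2 + v b2 * v (r k) ^ 2) ∧
      (v ∉ Φ₁ → v b1 * v (p k) ^ 2 + v b2 * v (r k) ^ 2 < 0) := by
    intro v
    have ht : Tendsto (fun k => v b1 * v (p k) ^ 2 + v b2 * v (r k) ^ 2) atTop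
        (𝓝 (v b1 * (z v).1 ^ 2 + v b2 * (z v).2 ^ 2)) :=
      (((hpt v).pow 2).const_mul _).add (((hrt v).pow 2).const_mul _)
    by_cases h1 : v ∈ Φ₁
    · filter_upwards [ht.eventually_const_lt (hz1 v h1)] with k hk
      exact ⟨fun _ => hk, fun h => absurd h1 h⟩
    · filter_upwards [ht.eventually_lt_const (hz2 v h1)] with k hk
      exact ⟨fun h => absurd h h1, fun _ => hk⟩
  obtain ⟨k, hk⟩ := (eventually_all.2 hev).exists
  obtain ⟨a, ha⟩ : ∃ a : F, a = b1 * p k ^ 2 + b2 * r k ^ 2 := ⟨_, rfl⟩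
  have hva : ∀ v : F →+* ℝ, v a = v b1 * v (p k) ^ 2 + v b2 * v (r k) ^ 2 := by
    intro v
    rw [ha]
    simp
  obtain ⟨v0⟩ := (inferInstance : Nonempty (F →+* ℝ))
  have ha0 : a ≠ 0 := by
    rintro rfl
    have h1 := hk v0
    rw [← hva, map_zero] at h1
    by_cases hv : v0 ∈ Φ₁
    · exact absurd (h1.1 hv) (lt_irrefl _)
    · exact absurd (h1.2 hv) (lt_irrefl _)
  have hpa : pos a = Φ₁ := by
    ext v
    have h1 := hk v
    rw [← hva] at h1
    constructor
    · intro hv
      by_contra hn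
      exact absurd hv (not_lt.2 (h1.2 hn).le)
    · intro hv
      exact h1.1 hv
  have ha2 : b1 * b2 * a ≠ 0 := mul_ne_zero (mul_ne_zero hb1 hb2) ha0
  refine ⟨a, b1 * b2 * a, b1, b2, ha0, ha2, hb1, hb2, hpa, ?_, rfl, rfl,
    !![p k, -(b2 * r k); r k, b1 * p k], ?_, ?_⟩
  · ext v
    have n1 : v b1 ≠ 0 := (map_ne_zero v).2 hb1
    have n2 : v b2 ≠ 0 := (map_ne_zero v).2 hb2
    have n3 : v a ≠ 0 := (map_ne_zero v).2 ha0
    have hI' : (0 < v a ∧ v ∈ Φ₂) ↔ (0 < v b1 ∧ 0 < v b2) := by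
      have := Set.ext_iff.1 hI v
      rw [← hpa] at this
      simpa [pos] using this
    have hU' : (0 < v a ∨ v ∈ Φ₂) ↔ (0 < v b1 ∨ 0 < v b2) := by
      have := Set.ext_iff.1 hU v
      rw [← hpa] at this
      simpa [pos] using this
    have e : v (b1 * b2 * a) = v b1 * v b2 * v a := by simp
    change 0 < v (b1 * b2 * a) ↔ v ∈ Φ₂
    rw [e]
    rcases lt_or_gt_of_ne n1 with h1 | h1 <;> rcases lt_or_gt_of_ne n2 with h2 | h2 <;>
      rcases lt_or_gt_of_ne n3 with h3 | h3
    · have : v b1 * v b2 * v a < 0 := mul_neg_of_pos_of_neg (mul_pos_of_neg_of_neg h1 h2) h3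
      constructor
      · intro h; linarith
      · intro h
        rcases hU'.1 (Or.inr h) with h | h <;> linarith
    · exfalso
      rcases hU'.1 (Or.inl h3) with h | h <;> linarith
    · have : 0 < v b1 * v b2 * v a := mul_pos_of_neg_of_neg (mul_neg_of_neg_of_pos h1 h2) h3
      constructor
      · intro _
        rcases hU'.2 (Or.inr h2) with h | h
        · linarith
        · exact h
      · intro _; exact this
    · have : v b1 * v b2 * v a < 0 := mul_neg_of_neg_of_pos (mul_neg_of_neg_of_pos h1 h2) h3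
      constructor
      · intro h; linarith
      · intro h
        have := (hI'.1 ⟨h3, h⟩).1
        linarith
    · have : 0 < v b1 * v b2 * v a := mul_pos_of_neg_of_neg (mul_neg_of_pos_of_neg h1 h2) h3
      constructor
      · intro _
        rcases hU'.2 (Or.inl h1) with h | h
        · linarith
        · exact h
      · intro _; exact this
    · have : v b1 * v b2 * v a < 0 := mul_neg_of_neg_of_pos (mul_neg_of_pos_of_neg h1 h2) h3
      constructor
      · intro h; linarith
      · intro h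
        have := (hI'.1 ⟨h3, h⟩).2
        linarith
    · exfalso
      have := (hI'.2 ⟨h1, h2⟩).1
      linarith
    · have : 0 < v b1 * v b2 * v a := mul_pos (mul_pos h1 h2) h3
      constructor
      · intro _
        exact (hI'.2 ⟨h1, h2⟩).2
      · intro _; exact this
  · rw [Matrix.det_fin_two_of]
    have e : p k * (b1 * p k) - -(b2 * r k) * r k = a := by
      rw [ha]
      ring
    rw [e]
    exact ha0
  · ext i j
    fin_cases i <;> fin_cases j <;>
      simp [Matrix.mul_apply, Fin.sum_univ_two, Matrix.diagonal_apply]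
    · rw [ha]
      ring
    · ring
    · ring
    · rw [ha]
      ring

end Apx

end Pool.Agent.CMH
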