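import Pool.Agent.Lib.CMH.TH8b
import Mathlib.LinearAlgebra.Matrix.Transvection
import Mathlib.Data.Matrix.Basic

/-! # TANK CMH, row TH8: the blocks at one place, `V ⊗ W` with `W` of any rank.  helper20. -/

set_option autoImplicit false
set_option linter.unusedSectionVars false

open Matrix
open scoped Kronecker

namespace Pool.Agent.CMH.TH8

noncomputable section

variable {n m : Type} [Fintype n] [DecidableEq n] [Fintype m] [DecidableEq m]

theorem kron_sub (A : Matrix m m ℂ) (B C : Matrix n n ℂ) : A ⊗ₖ (B - C) = A ⊗ₖ B - A ⊗ₖ C := by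
  ext ⟨i, j⟩ ⟨k, l⟩
  simp [kroneckerMap_apply, mul_sub]

/-- the blocks of `γ = X + √(-D) Y` on `V ⊗ W` (momentum; position). -/
def lA (m : Type) [Fintype m] [DecidableEq m] (H X : Matrix n n ℂ) : Matrix (m × n) (m × n) ℂ :=
  (1 : Matrix m m ℂ) ⊗ₖ (H * X * H⁻¹)
def lB (Q : Matrix m m ℂ) (H Y : Matrix n n ℂ) : Matrix (m × n) (m × n) ℂ := Q ⊗ₖ (H * Y)
def lC (D : ℂ) (Q : Matrix m m ℂ) (H Y : Matrix n n ℂ) : Matrix (m × n) (m × n) ℂ :=
  -(D • (Q⁻¹ ⊗ₖ (Y * H⁻¹)))
def lD (m : Type) [Fintype m] [DecidableEq m] (X : Matrix n n ℂ) : Matrix (m × n) (m × n) ℂ :=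
  (1 : Matrix m m ℂ) ⊗ₖ X

/-- the point of the Siegel space at the hyperbolic place. -/
def Zh (δ : ℂ) (Q : Matrix m m ℂ) (H : Matrix n n ℂ) (p : n → ℂ) : Matrix (m × n) (m × n) ℂ :=
  (Complex.I / δ) • (Q ⊗ₖ (H * S H p))

/-- the point of the Siegel space at a definite place. -/
def Zd (δ : ℂ) (R : Matrix m m ℂ) (H : Matrix n n ℂ) : Matrix (m × n) (m × n) ℂ :=
  (Complex.I / δ) • (R ⊗ₖ H)

variable {H X Y : Matrix n n ℂ} {Q R : Matrix m m ℂ} {δ : ℂ} {p : n → ℂ}

/-- `c Z + d` at the hyperbolic place. -/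
theorem hyp_cz (hδ : δ ≠ 0) (hH : IsUnit H.det) (hQ : IsUnit Q.det) (Y X : Matrix n n ℂ)
    (p : n → ℂ) : lC (δ ^ 2) Q H Y * Zh δ Q H p + lD m X =
      (1 : Matrix m m ℂ) ⊗ₖ AA H (X + (Complex.I * δ) • Y) (X - (Complex.I * δ) • Y) p := by
  unfold lC Zh lD
  rw [← AA_eq, Matrix.neg_mul, Matrix.smul_mul, Matrix.mul_smul, ← mul_kronecker_mul,
    nonsing_inv_mul _ hQ, ← mul_assoc, mul_assoc Y, nonsing_inv_mul _ hH, Matrix.mul_one,
    kron_sub, kronecker_smul, smul_smul]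
  have : δ ^ 2 * (Complex.I / δ) = Complex.I * δ := by
    field_simp
  rw [this]
  abel

/-- `a Z + b = Z' (c Z + d)` at the hyperbolic place. -/
theorem hyp_act (hδ : δ ≠ 0) (hHt : Hᵀ = H) (hH : IsUnit H.det)
    (hg : (X + (Complex.I * δ) • Y)ᵀ * H * (X - (Complex.I * δ) • Y) = H)
    (hb : bf H p p ≠ 0)
    (hb' : bf H ((X + (Complex.I * δ) • Y) *ᵥ p) ((X + (Complex.I * δ) • Y) *ᵥ p) ≠ 0)
    (Q : Matrix m m ℂ) :
    lA m H X * Zh δ Q H p + lB Q H Y = Zh δ Q H ((X + (Complex.I * δ) • Y) *ᵥ p) *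
      ((1 : Matrix m m ℂ) ⊗ₖ AA H (X + (Complex.I * δ) • Y) (X - (Complex.I * δ) • Y) p) := by
  unfold lA lB Zh
  rw [Matrix.mul_smul, ← mul_kronecker_mul, Matrix.one_mul, Matrix.smul_mul, ← mul_kronecker_mul,
    Matrix.mul_one, mul_assoc H (S H _), ← AA_mul_S hHt hg hb hb', ← mul_assoc (H * X * H⁻¹) H,
    mul_assoc (H * X) H⁻¹ H, nonsing_inv_mul _ hH, Matrix.mul_one, ← AA_eq, sub_mul,
    Matrix.smul_mul, mul_assoc Y, S_mul_S hHt hb, Matrix.mul_one, mul_sub, Matrix.mul_smul,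
    kron_sub, kronecker_smul, smul_sub, smul_smul, mul_assoc H X]
  have : Complex.I / δ * (Complex.I * δ) = -1 := by
    field_simp
    exact Complex.I_sq
  rw [this]
  module

/-- the determinant at the hyperbolic place. -/
theorem hyp_det {g g' : Matrix n n ℂ} (hHt : Hᵀ = H) (hH : IsUnit H.det)
    (hg : gᵀ * H * g' = H) (hg' : g'.det = 1) (hb : bf H p p ≠ 0) :
    ((1 : Matrix m m ℂ) ⊗ₖ AA H g g' p).det =
      (bf H (g *ᵥ p) (g *ᵥ p) / bf H p p) ^ Fintype.card m := by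
  rw [det_kronecker, det_one, one_pow, one_mul, det_AA hHt hH hg hb, hg', one_mul]

/-- `c Z + d` at a definite place. -/
theorem def_cz (hδ : δ ≠ 0) (hH : IsUnit H.det) (X Y : Matrix n n ℂ) (Q R : Matrix m m ℂ) :
    lC (δ ^ 2) Q H Y * Zd δ R H + lD m X =
      (1 : Matrix m m ℂ) ⊗ₖ X - (Complex.I * δ) • ((Q⁻¹ * R) ⊗ₖ Y) := by
  unfold lC Zd lD
  rw [Matrix.neg_mul, Matrix.smul_mul, Matrix.mul_smul, ← mul_kronecker_mul, mul_assoc Y,
    nonsing_inv_mul _ hH, Matrix.mul_one, smul_smul]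
  have : δ ^ 2 * (Complex.I / δ) = Complex.I * δ := by
    field_simp
  rw [this]
  abel

/-- `a Z + b = Z (c Z + d)` at a definite place, `R Q⁻¹ R = Q`. -/
theorem def_act (hδ : δ ≠ 0) (hH : IsUnit H.det) (hR : R * Q⁻¹ * R = Q) (X Y : Matrix n n ℂ) :
    lA m H X * Zd δ R H + lB Q H Y = Zd δ R H *
      ((1 : Matrix m m ℂ) ⊗ₖ X - (Complex.I * δ) • ((Q⁻¹ * R) ⊗ₖ Y)) := by
  unfold lA lB Zd
  rw [Matrix.mul_smul, ← mul_kronecker_mul, Matrix.one_mul, mul_assoc (H * X),
    nonsing_inv_mul _ hH, Matrix.mul_one, Matrix.smul_mul, mul_sub, ← mul_kronecker_mul,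
    Matrix.mul_one, Matrix.mul_smul, ← mul_kronecker_mul, ← mul_assoc R, hR, smul_sub, smul_smul]
  have : Complex.I / δ * (Complex.I * δ) = -1 := by
    field_simp
    exact Complex.I_sq
  rw [this]
  module

/-! ### the determinant at a definite place -/

/-- `P ⊗ g + (1 - P) ⊗ 1`. -/
def PG (P : Matrix m m ℂ) (g : Matrix n n ℂ) : Matrix (m × n) (m × n) ℂ :=
  P ⊗ₖ g + (1 - P) ⊗ₖ (1 : Matrix n n ℂ)

theorem PG_mul {P : Matrix m m ℂ} (hP : P * P = P) (g g' : Matrix n n ℂ) :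
    PG P g * PG P g' = PG P (g * g') := by
  unfold PG
  have h1 : P * (1 - P) = 0 := by rw [mul_sub, hP, Matrix.mul_one, sub_self]
  have h2 : (1 - P) * P = 0 := by rw [sub_mul, hP, Matrix.one_mul, sub_self]
  have h3 : (1 - P) * (1 - P) = 1 - P := by rw [mul_sub, h2, Matrix.mul_one, sub_zero]
  rw [mul_add, add_mul, add_mul, ← mul_kronecker_mul, ← mul_kronecker_mul, ← mul_kronecker_mul,
    ← mul_kronecker_mul, hP, h1, h2, h3, zero_kronecker, zero_kronecker, Matrix.one_mul]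
  abel

theorem PG_one (P : Matrix m m ℂ) : PG P (1 : Matrix n n ℂ) = 1 := by
  unfold PG
  rw [← add_kronecker, add_sub_cancel, one_kronecker_one]

/-- the multiplicative map `g ↦ det (P ⊗ g + (1 - P) ⊗ 1)`. -/
def fP {P : Matrix m m ℂ} (hP : P * P = P) : Matrix n n ℂ →* ℂ where
  toFun g := (PG P g).det
  map_one' := by rw [PG_one, det_one]
  map_mul' g g' := by rw [← PG_mul hP, det_mul]

/-- `c ↦ det (c P + (1 - P))`. -/
def phP {P : Matrix m m ℂ} (hP : P * P = P) : ℂ →* ℂ where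
  toFun c := (c • P + (1 - P)).det
  map_one' := by rw [one_smul, add_sub_cancel, det_one]
  map_mul' c c' := by
    rw [← det_mul]
    congr 1
    have h1 : P * (1 - P) = 0 := by rw [mul_sub, hP, Matrix.mul_one, sub_self]
    have h2 : (1 - P) * P = 0 := by rw [sub_mul, hP, Matrix.one_mul, sub_self]
    have h3 : (1 - P) * (1 - P) = 1 - P := by rw [mul_sub, h2, Matrix.mul_one, sub_zero]
    rw [mul_add, add_mul, add_mul, h3, Matrix.smul_mul, Matrix.smul_mul, Matrix.mul_smul,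
      Matrix.mul_smul, hP, h1, h2, smul_smul, smul_zero, smul_zero]
    abel

theorem fP_diagonal {P : Matrix m m ℂ} (hP : P * P = P) (d : n → ℂ) :
    fP hP (diagonal d) = phP hP (∏ i, d i) := by
  rw [map_prod]
  have h1 : PG P (diagonal d) = blockDiagonal (fun i => d i • P + (1 - P)) := by
    ext ⟨i, k⟩ ⟨j, l⟩
    unfold PG
    rw [blockDiagonal_apply, Matrix.add_apply, kroneckerMap_apply, kroneckerMap_apply]
    by_cases h : k = l
    · subst h
      simp [mul_comm]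
    · simp [h]
  change (PG P (diagonal d)).det = _
  rw [h1, det_blockDiagonal]
  rfl

theorem fP_transvection {P : Matrix m m ℂ} (hP : P * P = P) {i j : n} (hij : i ≠ j) (c : ℂ) :
    fP hP (transvection i j c) = 1 := by
  change (PG P (transvection i j c)).det = 1
  have h1 : PG P (transvection i j c) = 1 + (P ⊗ₖ single i i (1 : ℂ)) *
      ((1 : Matrix m m ℂ) ⊗ₖ single i j c) := by
    unfold PG transvection
    rw [← mul_kronecker_mul, Matrix.mul_one, single_mul_single_same, one_mul, kronecker_add,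
      add_right_comm, ← add_kronecker, add_sub_cancel, one_kronecker_one]
  rw [h1, det_one_add_mul_comm, ← mul_kronecker_mul, single_mul_single_of_ne _ _ _ _ hij.symm,
    kronecker_zero, add_zero, det_one]

theorem fP_eq {P : Matrix m m ℂ} (hP : P * P = P) (g : Matrix n n ℂ) :
    fP hP g = phP hP g.det := by
  refine diagonal_transvection_induction (fun g => fP hP g = phP hP g.det) g ?_ ?_ ?_
  · intro d _
    rw [det_diagonal]
    exact fP_diagonal hP d
  · intro t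
    rw [TransvectionStruct.toMatrix, det_transvection_of_ne _ _ t.hij, map_one]
    exact fP_transvection hP t.hij t.c
  · intro A B hA hB
    rw [map_mul, det_mul, map_mul, hA, hB]

/-- the determinant of `c Z + d` at a definite place is `1`. -/
theorem def_det {T : Matrix m m ℂ} (hT : T * T = 1)
    (h1 : (X + (Complex.I * δ) • Y).det = 1) (h2 : (X - (Complex.I * δ) • Y).det = 1) :
    ((1 : Matrix m m ℂ) ⊗ₖ X - (Complex.I * δ) • (T ⊗ₖ Y)).det = 1 := by
  set P : Matrix m m ℂ := (1 / 2 : ℂ) • (1 + T) with hPdef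
  have hP : P * P = P := by
    have h0 : (1 + T) * (1 + T) = (2 : ℂ) • (1 + T) := by
      have : (1 + T) * (1 + T) = 1 + T + T + T * T := by noncomm_ring
      rw [this, hT]
      module
    rw [hPdef, Matrix.smul_mul, Matrix.mul_smul, h0, smul_smul]
    module
  have hP' : (1 - P) * (1 - P) = 1 - P := by
    have : (1 - P) * (1 - P) = 1 - P - P + P * P := by noncomm_ring
    rw [this, hP]
    abel
  have h3 : (1 : Matrix m m ℂ) ⊗ₖ X - (Complex.I * δ) • (T ⊗ₖ Y) =
      PG P (X - (Complex.I * δ) • Y) * PG (1 - P) (X + (Complex.I * δ) • Y) := by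
    unfold PG
    have e1 : P * (1 - P) = 0 := by rw [mul_sub, hP, Matrix.mul_one, sub_self]
    have e2 : (1 - P) * P = 0 := by rw [sub_mul, hP, Matrix.one_mul, sub_self]
    rw [sub_sub_cancel, mul_add, add_mul, add_mul, ← mul_kronecker_mul, ← mul_kronecker_mul,
      ← mul_kronecker_mul, ← mul_kronecker_mul, e1, e2, hP, hP', zero_kronecker, zero_kronecker,
      Matrix.one_mul, Matrix.mul_one, zero_add, add_zero]
    rw [hPdef]
    ext ⟨i, j⟩ ⟨k, l⟩
    simp only [kroneckerMap_apply, Matrix.add_apply, Matrix.sub_apply, Matrix.smul_apply,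
      smul_eq_mul]
    ring
  rw [h3, det_mul]
  have h4 : (PG P (X - (Complex.I * δ) • Y)).det = 1 := by
    have := fP_eq hP (X - (Complex.I * δ) • Y)
    rw [h2, map_one] at this
    exact this
  have h5 : (PG (1 - P) (X + (Complex.I * δ) • Y)).det = 1 := by
    have := fP_eq hP' (X + (Complex.I * δ) • Y)
    rw [h1, map_one] at this
    exact this
  rw [h4, h5, one_mul]

/-- the `η`-transformation at the hyperbolic place: if `AAᵀ H z = E⁻¹ H t` then
`(c Z + d)ᵀ (c ⊗ H z) = E⁻¹ (c ⊗ H t)`. -/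
theorem hyp_eta {A : Matrix n n ℂ} {x y : n → ℂ} {E : ℂ} (h : Aᵀ *ᵥ x = E⁻¹ • y) (c : m → ℂ) :
    ((1 : Matrix m m ℂ) ⊗ₖ A)ᵀ *ᵥ (fun q : m × n => c q.1 * x q.2) =
      E⁻¹ • (fun q : m × n => c q.1 * y q.2) := by
  funext q
  obtain ⟨i, k⟩ := q
  have h1 : ((1 : Matrix m m ℂ) ⊗ₖ A)ᵀ *ᵥ (fun q : m × n => c q.1 * x q.2) =
      fun q : m × n => c q.1 * (Aᵀ *ᵥ x) q.2 := by
    funext q
    obtain ⟨i, k⟩ := q
    simp only [mulVec, dotProduct, transpose_apply, kroneckerMap_apply, Fintype.sum_prod_type]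
    rw [Finset.sum_eq_single i]
    · simp only [one_apply_eq, one_mul, Finset.mul_sum]
      refine Finset.sum_congr rfl fun j _ => ?_
      ring
    · intro j _ hj
      simp [one_apply_ne hj]
    · intro hi
      exact absurd (Finset.mem_univ _) hi
  rw [h1, h]
  simp only [Pi.smul_apply, smul_eq_mul]
  ring

end

end Pool.Agent.CMH.TH8
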