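import Pool.Agent.Lib.CMH.B8c

/-! # TANK CMH, row TH8: the action of a unitary matrix on the ball, the cocycle `E`, its
derivative formulas.  helper20. -/

set_option autoImplicit false
set_option linter.unusedSectionVars false

open Matrix Filter Topology
open scoped Kronecker ComplexConjugate

namespace Pool.Agent.CMH.TH8

noncomputable section

variable {k : Fin 3 → ℝ} {G : Matrix (Fin 3) (Fin 3) ℂ}

/-- `(G yh)_2`. -/
def jj (G : Matrix (Fin 3) (Fin 3) ℂ) (y : Fin 2 → ℂ) : ℂ := (G *ᵥ hat y) 2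

/-- the fractional linear action. -/
def actM (G : Matrix (Fin 3) (Fin 3) ℂ) (y : Fin 2 → ℂ) : Fin 2 → ℂ :=
  fun j => (G *ᵥ hat y) j.castSucc / jj G y

/-- the hermitian norm. -/
def hn (k : Fin 3 → ℝ) (p : Fin 3 → ℂ) : ℝ := ∑ j, k j * ‖p j‖ ^ 2

theorem mem_ball_iff (k : Fin 3 → ℝ) (y : Fin 2 → ℂ) : y ∈ ball k ↔ hn k (hat y) < 0 := by
  unfold ball hn
  rw [Set.mem_ofPred_eq, Fin.sum_univ_three]
  have e0 : hat y 0 = y 0 := rfl
  have e1 : hat y 1 = y 1 := rfl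
  have e2 : hat y 2 = 1 := rfl
  rw [e0, e1, e2, norm_one, one_pow, mul_one]

theorem hn_eq (k : Fin 3 → ℝ) (p : Fin 3 → ℂ) : (hn k p : ℂ) = star p ⬝ᵥ HH k *ᵥ p := by
  unfold hn HH
  rw [dotProduct]
  push_cast
  refine Finset.sum_congr rfl fun j _ => ?_
  rw [mulVec_diagonal, ← Complex.ofReal_pow, ← Complex.normSq_eq_norm_sq, Pi.star_apply,
    Complex.normSq_eq_conj_mul_self]
  change _ = conj (p j) * _
  ring

theorem hn_mulVec (hG : Gᴴ * HH k * G = HH k) (p : Fin 3 → ℂ) : hn k (G *ᵥ p) = hn k p := by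
  have h : (hn k (G *ᵥ p) : ℂ) = (hn k p : ℂ) := by
    rw [hn_eq, hn_eq, star_mulVec, dotProduct_mulVec, vecMul_vecMul, dotProduct_mulVec,
      vecMul_vecMul, hG, ← dotProduct_mulVec]
  exact_mod_cast h

/-- a negative vector has nonzero last coordinate. -/
theorem last_ne (h0 : 0 < k 0) (h1 : 0 < k 1) {p : Fin 3 → ℂ} (hp : hn k p < 0) : p 2 ≠ 0 := by
  intro h
  unfold hn at hp
  rw [Fin.sum_univ_three, h, norm_zero] at hp
  have a0 : 0 ≤ k 0 * ‖p 0‖ ^ 2 := by positivity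
  have a1 : 0 ≤ k 1 * ‖p 1‖ ^ 2 := by positivity
  simp at hp
  linarith

theorem jj_ne (h0 : 0 < k 0) (h1 : 0 < k 1) (hG : Gᴴ * HH k * G = HH k) {y : Fin 2 → ℂ}
    (hy : y ∈ ball k) : jj G y ≠ 0 := by
  apply last_ne h0 h1
  rw [hn_mulVec hG]
  exact (mem_ball_iff k y).mp hy

/-- `hat (G y) = (G yh)_2⁻¹ G yh`. -/
theorem hat_actM {y : Fin 2 → ℂ} (h : jj G y ≠ 0) : hat (actM G y) = (jj G y)⁻¹ • (G *ᵥ hat y) := by
  funext i
  fin_cases i
  · change (G *ᵥ hat y) 0 / jj G y = _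
    simp only [Pi.smul_apply, smul_eq_mul, Fin.zero_eta]
    rw [div_eq_inv_mul]
  · change (G *ᵥ hat y) 1 / jj G y = _
    simp only [Pi.smul_apply, smul_eq_mul]
    rw [div_eq_inv_mul]
    rfl
  · change (1 : ℂ) = (jj G y)⁻¹ * jj G y
    rw [inv_mul_cancel₀ h]

theorem hn_smul (k : Fin 3 → ℝ) (c : ℂ) (p : Fin 3 → ℂ) : hn k (c • p) = ‖c‖ ^ 2 * hn k p := by
  unfold hn
  rw [Finset.mul_sum]
  refine Finset.sum_congr rfl fun j _ => ?_
  rw [Pi.smul_apply, smul_eq_mul, norm_mul, mul_pow]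
  ring

theorem actM_mem (h0 : 0 < k 0) (h1 : 0 < k 1) (hG : Gᴴ * HH k * G = HH k) {y : Fin 2 → ℂ}
    (hy : y ∈ ball k) : actM G y ∈ ball k := by
  have hj := jj_ne h0 h1 hG hy
  rw [mem_ball_iff, hat_actM hj, hn_smul, hn_mulVec hG]
  have : 0 < ‖(jj G y)⁻¹‖ ^ 2 := by
    have : (jj G y)⁻¹ ≠ 0 := inv_ne_zero hj
    positivity
  exact mul_neg_of_pos_of_neg this ((mem_ball_iff k y).mp hy)

/-- the cocycle. -/
def EE (k : Fin 3 → ℝ) (G : Matrix (Fin 3) (Fin 3) ℂ) (y : Fin 2 → ℂ) : ℂ :=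
  jj G y * w k (actM G y) / w k y

theorem EE_ne (h0 : 0 < k 0) (h1 : 0 < k 1) (hG : Gᴴ * HH k * G = HH k) {y : Fin 2 → ℂ}
    (hy : y ∈ ball k) : EE k G y ≠ 0 := by
  unfold EE
  exact div_ne_zero (mul_ne_zero (jj_ne h0 h1 hG hy) (w_ne h0 h1 (actM_mem h0 h1 hG hy)))
    (w_ne h0 h1 hy)

/-- `G e(y) = E e(G y)`. -/
theorem G_e (h0 : 0 < k 0) (h1 : 0 < k 1) (hG : Gᴴ * HH k * G = HH k) {y : Fin 2 → ℂ}
    (hy : y ∈ ball k) : G *ᵥ e k y = EE k G y • e k (actM G y) := by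
  have hj := jj_ne h0 h1 hG hy
  have hw := w_ne h0 h1 hy
  have hw' := w_ne h0 h1 (actM_mem h0 h1 hG hy)
  unfold e EE
  rw [mulVec_smul, hat_actM hj, smul_smul, smul_smul]
  congr 1
  field_simp

/-- `E² = ⟨G p, G p⟩ / ⟨p, p⟩`. -/
theorem EE_sq (h0 : 0 < k 0) (h1 : 0 < k 1) (hG : Gᴴ * HH k * G = HH k) {y : Fin 2 → ℂ}
    (hy : y ∈ ball k) :
    EE k G y ^ 2 = bf (HH k) (G *ᵥ hat y) (G *ᵥ hat y) / bf (HH k) (hat y) (hat y) := by
  have hj := jj_ne h0 h1 hG hy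
  have h2 : w k (actM G y) ^ 2 = -((jj G y)⁻¹ * ((jj G y)⁻¹ *
      bf (HH k) (G *ᵥ hat y) (G *ᵥ hat y))) := by
    rw [w_sq, hat_actM hj, bf_smul_left, bf_smul_right]
  unfold EE
  rw [div_pow, mul_pow, h2, w_sq]
  have hb := bf_hat_ne h0 h1 hy
  field_simp

/-- the composition law of the action. -/
theorem actM_mul (h0 : 0 < k 0) (h1 : 0 < k 1) (G' : Matrix (Fin 3) (Fin 3) ℂ)
    (hG : Gᴴ * HH k * G = HH k) {y : Fin 2 → ℂ} (hy : y ∈ ball k) :
    actM (G' * G) y = actM G' (actM G y) ∧ jj (G' * G) y = jj G' (actM G y) * jj G y := by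
  have hj := jj_ne h0 h1 hG hy
  have h2 : (G' * G) *ᵥ hat y = jj G y • (G' *ᵥ hat (actM G y)) := by
    rw [hat_actM hj, mulVec_smul, smul_smul, mul_inv_cancel₀ hj, one_smul, mulVec_mulVec]
  have h3 : jj (G' * G) y = jj G' (actM G y) * jj G y := by
    unfold jj
    rw [h2]
    simp only [Pi.smul_apply, smul_eq_mul, jj]
    ring
  refine ⟨?_, h3⟩
  funext j
  unfold actM
  rw [h3, h2]
  simp only [Pi.smul_apply, smul_eq_mul]
  rw [mul_comm (jj G' _), mul_div_mul_left _ _ hj]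
  rfl

theorem EE_mul (h0 : 0 < k 0) (h1 : 0 < k 1) (G' : Matrix (Fin 3) (Fin 3) ℂ)
    (hG : Gᴴ * HH k * G = HH k) {y : Fin 2 → ℂ} (hy : y ∈ ball k) :
    EE k (G' * G) y = EE k G' (actM G y) * EE k G y := by
  obtain ⟨e1, e2⟩ := actM_mul h0 h1 G' hG hy
  have hw := w_ne h0 h1 hy
  have hw' := w_ne h0 h1 (actM_mem h0 h1 hG hy)
  unfold EE
  rw [e1, e2]
  field_simp

/-! ### derivatives -/

/-- the derivative of the action at `y` in the direction `d`. -/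
def Jac (G : Matrix (Fin 3) (Fin 3) ℂ) (y d : Fin 2 → ℂ) : Fin 2 → ℂ := fun j =>
  ((G *ᵥ ![d 0, d 1, 0]) j.castSucc * jj G y - (G *ᵥ hat y) j.castSucc * (G *ᵥ ![d 0, d 1, 0]) 2) /
    jj G y ^ 2

theorem hasDerivAt_G_hat (G : Matrix (Fin 3) (Fin 3) ℂ) (y d : Fin 2 → ℂ) (i : Fin 3) :
    HasDerivAt (fun t : ℂ => (G *ᵥ hat (y + t • d)) i) ((G *ᵥ ![d 0, d 1, 0]) i) 0 := by
  have h : (fun t : ℂ => (G *ᵥ hat (y + t • d)) i) =
      fun t : ℂ => (G *ᵥ hat y) i + t * (G *ᵥ ![d 0, d 1, 0]) i := by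
    funext t
    rw [hat_line, mulVec_add, mulVec_smul]
    rfl
  rw [h]
  simpa using ((hasDerivAt_id (0 : ℂ)).mul_const ((G *ᵥ ![d 0, d 1, 0]) i)).const_add
    ((G *ᵥ hat y) i)

theorem hasDerivAt_actM (y d : Fin 2 → ℂ) (h : jj G y ≠ 0) :
    HasDerivAt (fun t : ℂ => actM G (y + t • d)) (Jac G y d) 0 := by
  rw [hasDerivAt_pi]
  intro j
  have h0 : y + (0 : ℂ) • d = y := by simp
  have h1 := (hasDerivAt_G_hat G y d j.castSucc).div (hasDerivAt_G_hat G y d 2) (by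
    rw [h0]; exact h)
  refine h1.congr_deriv ?_
  rw [h0]
  rfl

theorem differentiableAt_actM {y : Fin 2 → ℂ} (h : jj G y ≠ 0) :
    DifferentiableAt ℂ (actM G) y := by
  have hhat : ∀ i, Differentiable ℂ (fun y : Fin 2 → ℂ => hat y i) := by
    intro i
    fin_cases i
    · exact differentiable_apply (0 : Fin 2)
    · exact differentiable_apply (1 : Fin 2)
    · exact differentiable_const _
  have hG : ∀ i, Differentiable ℂ (fun y : Fin 2 → ℂ => (G *ᵥ hat y) i) := by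
    intro i
    change Differentiable ℂ (fun y : Fin 2 → ℂ => ∑ j, G i j * hat y j)
    exact Differentiable.fun_sum fun j _ => (hhat j).const_mul (G i j)
  rw [differentiableAt_pi]
  intro j
  have h1 : DifferentiableAt ℂ (jj G) y := (hG 2) y
  have h2 : DifferentiableAt ℂ (fun y : Fin 2 → ℂ => (G *ᵥ hat y) j.castSucc) y := (hG j.castSucc) y
  have h3 : DifferentiableAt ℂ (fun y : Fin 2 → ℂ => (G *ᵥ hat y) j.castSucc * (jj G y)⁻¹) y :=
    h2.mul (h1.inv h)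
  simpa [actM, div_eq_mul_inv] using h3

theorem fderiv_actM {y : Fin 2 → ℂ} (h : jj G y ≠ 0) (d : Fin 2 → ℂ) :
    fderiv ℂ (actM G) y d = Jac G y d := by
  have h1 : HasFDerivAt (actM G) (fderiv ℂ (actM G) y) (y + (0 : ℂ) • d) := by
    rw [zero_smul, add_zero]
    exact (differentiableAt_actM h).hasFDerivAt
  have h2 : HasDerivAt (fun t : ℂ => y + t • d) d 0 := by
    simpa using ((hasDerivAt_id (0 : ℂ)).smul_const d).const_add y
  have h3 := h1.comp_hasDerivAt (0 : ℂ) h2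
  exact h3.unique (hasDerivAt_actM y d h)

theorem isOpen_ball (k : Fin 3 → ℝ) : IsOpen (ball k) := by
  unfold ball
  exact isOpen_lt (by fun_prop) continuous_const

/-- `e` along the line and along its image. -/
theorem hasDerivAt_e_line (h0 : 0 < k 0) (h1 : 0 < k 1) {y : Fin 2 → ℂ} (hy : y ∈ ball k)
    (d : Fin 2 → ℂ) : HasDerivAt (fun t : ℂ => e k (y + t • d)) (∑ j, d j • de k j y) 0 := by
  have h2 : HasDerivAt (fun t : ℂ => y + t • d) d 0 := by
    simpa using ((hasDerivAt_id (0 : ℂ)).smul_const d).const_add y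
  have h3 : y + (0 : ℂ) • d = y := by simp
  have h4 := hasDerivAt_e h0 h1 h2 (by rw [h3]; exact hy)
  rwa [h3] at h4

/-- **the transformation of the tangent vectors** `∂_j e`. -/
theorem tangent_ball (h0 : 0 < k 0) (h1 : 0 < k 1) (hk : ∀ j, k j ≠ 0)
    (hG : Gᴴ * HH k * G = HH k) {G' : Matrix (Fin 3) (Fin 3) ℂ}
    (hg : Gᵀ * HH k * G' = HH k) (hg2 : G'ᵀ * HH k * G = HH k) {y : Fin 2 → ℂ}
    (hy : y ∈ ball k) (d : Fin 2 → ℂ) :
    (AA (HH k) G G' (hat y))ᵀ *ᵥ (HH k *ᵥ ∑ j, Jac G y d j • de k j (actM G y)) =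
      (EE k G y)⁻¹ • (HH k *ᵥ ∑ j, d j • de k j y) := by
  have hj := jj_ne h0 h1 hG hy
  have hy' := actM_mem h0 h1 hG hy
  have h3 : y + (0 : ℂ) • d = y := by simp
  have hcont : ContinuousAt (fun t : ℂ => y + t • d) 0 := by fun_prop
  have hev : ∀ᶠ t in 𝓝 (0 : ℂ), y + t • d ∈ ball k :=
    hcont.eventually_mem (by rw [h3]; exact (isOpen_ball k).mem_nhds hy)
  have he := hasDerivAt_e_line h0 h1 hy d
  have he₂ : HasDerivAt (fun t : ℂ => e k (actM G (y + t • d)))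
      (∑ j, Jac G y d j • de k j (actM G y)) 0 := by
    have := hasDerivAt_e h0 h1 (hasDerivAt_actM y d hj) (by
      change actM G (y + (0 : ℂ) • d) ∈ ball k
      rw [h3]; exact hy')
    rwa [h3] at this
  -- the derivative of `E` along the line
  have hE : ∃ E', HasDerivAt (fun t : ℂ => EE k G (y + t • d)) E' 0 := by
    -- `E = - ⟨G e, e₂⟩`
    have h4 : ∀ᶠ t in 𝓝 (0 : ℂ), EE k G (y + t • d) =
        -bf (HH k) (G *ᵥ e k (y + t • d)) (e k (actM G (y + t • d))) := by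
      filter_upwards [hev] with t ht
      rw [G_e h0 h1 hG ht, bf_smul_left, bf_e h0 h1 (actM_mem h0 h1 hG ht)]
      ring
    have h5 : ∀ i, HasDerivAt (fun t : ℂ => e k (y + t • d) i) _ 0 := hasDerivAt_pi.mp he
    have h6 : ∀ i, HasDerivAt (fun t : ℂ => e k (actM G (y + t • d)) i) _ 0 :=
      hasDerivAt_pi.mp he₂
    have h7 : ∀ i, HasDerivAt (fun t : ℂ => (G *ᵥ e k (y + t • d)) i)
        (∑ j, G i j * (∑ l, d l • de k l y) j) 0 := by
      intro i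
      change HasDerivAt (fun t : ℂ => ∑ j, G i j * e k (y + t • d) j) _ 0
      exact HasDerivAt.fun_sum fun j _ => (h5 j).const_mul (G i j)
    have h8 : DifferentiableAt ℂ (fun t : ℂ => -∑ i, (k i : ℂ) * (G *ᵥ e k (y + t • d)) i *
        e k (actM G (y + t • d)) i) 0 := by
      apply DifferentiableAt.fun_neg
      exact DifferentiableAt.fun_sum fun i _ =>
        ((h7 i).differentiableAt.const_mul (k i : ℂ)).mul (h6 i).differentiableAt
    refine ⟨_, h8.hasDerivAt.congr_of_eventuallyEq ?_⟩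
    filter_upwards [h4] with t ht
    rw [ht, bf_HH]
  obtain ⟨E', hE⟩ := hE
  have hmain := tangent (HH_symm k) (HH_det k hk) hg hg2 he he₂ hE
    (by filter_upwards [hev] with t ht using bf_e h0 h1 ht)
    (by filter_upwards [hev] with t ht using bf_e h0 h1 (actM_mem h0 h1 hG ht))
    (by filter_upwards [hev] with t ht using G_e h0 h1 hG ht)
    (by
      change EE k G (y + (0 : ℂ) • d) ≠ 0
      rw [h3]; exact EE_ne h0 h1 hG hy)
  rw [h3] at hmain
  have h9 : AA (HH k) G G' (e k y) = AA (HH k) G G' (hat y) := by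
    unfold e
    exact AA_smul _ _ _ (inv_ne_zero (w_ne h0 h1 hy)) _
  rwa [h9] at hmain

end

end Pool.Agent.CMH.TH8
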