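import Mathlib

/-!
# TANK CMH, P1 (captain helper97): Siegel theta functions of even integral level. Definitions
-/

set_option autoImplicit false

namespace Pool.CMH

open Matrix Complex Real

noncomputable section

/-- the Siegel upper half space -/
def Sieg (ι : Type) [Fintype ι] : Set (Matrix ι ι ℂ) :=
  {Z | Zᵀ = Z ∧ ∀ x : ι → ℝ, x ≠ 0 → 0 < ∑ i, ∑ j, x i * x j * (Z i j).im}

variable {ι : Type} [Fintype ι]

/-- the quadratic form `x ↦ xᵀ Z x` on integral vectors -/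
def qf (Z : Matrix ι ι ℂ) (x : ι → ℤ) : ℂ := ∑ i, ∑ j, (x i : ℂ) * (x j : ℂ) * Z i j

/-- the linear form `x ↦ xᵀ u` on integral vectors -/
def lf (u : ι → ℂ) (x : ι → ℤ) : ℂ := ∑ i, (x i : ℂ) * u i

/-- one term of the theta series, without the coefficient -/
def tm (N : ℕ) (Z : Matrix ι ι ℂ) (u : ι → ℂ) (x : ι → ℤ) : ℂ :=
  cexp (π * I * qf Z x / N + 2 * π * I * lf u x)

/-- reduction modulo `N` -/
def red (N : ℕ) (x : ι → ℤ) : ι → ZMod N := fun i => (x i : ZMod N)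

/-- the theta series of level `N` -/
def theta (N : ℕ) (φ : (ι → ZMod N) → ℂ) (Z : Matrix ι ι ℂ) (u : ι → ℂ) : ℂ :=
  ∑' x : ι → ℤ, φ (red N x) * tm N Z u x

/-- theta series with one linear factor, `u = 0` -/
def theta1 (N : ℕ) (φ : (ι → ZMod N) → ℂ) (Z : Matrix ι ι ℂ) (η : ι → ℂ) : ℂ :=
  ∑' x : ι → ℤ, φ (red N x) * (lf η x * tm N Z 0 x)

/-- theta series with two linear factors, `u = 0` -/
def theta2 (N : ℕ) (φ : (ι → ZMod N) → ℂ) (Z : Matrix ι ι ℂ) (η ζ : ι → ℂ) : ℂ :=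
  ∑' x : ι → ℤ, φ (red N x) * (lf η x * lf ζ x * tm N Z 0 x)

/-! ### the symplectic group -/

/-- the blocks of an integral matrix, over the complex numbers -/
def bA (M : Matrix (ι ⊕ ι) (ι ⊕ ι) ℤ) : Matrix ι ι ℂ := M.toBlocks₁₁.map (fun z : ℤ => (z : ℂ))
def bB (M : Matrix (ι ⊕ ι) (ι ⊕ ι) ℤ) : Matrix ι ι ℂ := M.toBlocks₁₂.map (fun z : ℤ => (z : ℂ))
def bC (M : Matrix (ι ⊕ ι) (ι ⊕ ι) ℤ) : Matrix ι ι ℂ := M.toBlocks₂₁.map (fun z : ℤ => (z : ℂ))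
def bD (M : Matrix (ι ⊕ ι) (ι ⊕ ι) ℤ) : Matrix ι ι ℂ := M.toBlocks₂₂.map (fun z : ℤ => (z : ℂ))

variable [DecidableEq ι]

/-- `C Z + D` -/
def au (M : Matrix (ι ⊕ ι) (ι ⊕ ι) ℤ) (Z : Matrix ι ι ℂ) : Matrix ι ι ℂ := bC M * Z + bD M

/-- `(A Z + B) (C Z + D)⁻¹` -/
def mv (M : Matrix (ι ⊕ ι) (ι ⊕ ι) ℤ) (Z : Matrix ι ι ℂ) : Matrix ι ι ℂ :=
  (bA M * Z + bB M) * (au M Z)⁻¹

/-- `(C Z + D)⁻ᵀ u` -/
def uu (M : Matrix (ι ⊕ ι) (ι ⊕ ι) ℤ) (Z : Matrix ι ι ℂ) (u : ι → ℂ) : ι → ℂ :=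
  ((au M Z)⁻¹)ᵀ *ᵥ u

/-- `uᵀ (C Z + D)⁻¹ C u` -/
def qq (M : Matrix (ι ⊕ ι) (ι ⊕ ι) ℤ) (Z : Matrix ι ι ℂ) (u : ι → ℂ) : ℂ :=
  u ⬝ᵥ (((au M Z)⁻¹ * bC M) *ᵥ u)

/-- the exponential factor -/
def ee (N : ℕ) (M : Matrix (ι ⊕ ι) (ι ⊕ ι) ℤ) (Z : Matrix ι ι ℂ) (u : ι → ℂ) : ℂ :=
  cexp (π * I * N * qq M Z u)

/-- operators on the functions of level `N` -/
abbrev Op (N : ℕ) (ι : Type) : Type := ((ι → ZMod N) → ℂ) →ₗ[ℂ] ((ι → ZMod N) → ℂ)

/-- the transformation law of the theta series of level `N` under `M` -/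
structure Law (N : ℕ) (M : Matrix (ι ⊕ ι) (ι ⊕ ι) ℤ) (P : Op N ι) (κ : ℂ)
    (m : Matrix ι ι ℂ → ℂ) : Prop where
  κ4 : κ ^ 4 = 1
  cont : ContinuousOn m (Sieg ι)
  sq : ∀ Z ∈ Sieg ι, m Z ^ 2 = κ * (au M Z).det
  law : ∀ Z ∈ Sieg ι, ∀ (φ : (ι → ZMod N) → ℂ) (u : ι → ℂ),
    theta N φ (mv M Z) (uu M Z u) = m Z * ee N M Z u * theta N (P φ) Z u

/-! ### generators -/

/-- translations -/
def nB (B : Matrix ι ι ℤ) : Matrix (ι ⊕ ι) (ι ⊕ ι) ℤ := fromBlocks 1 B 0 1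

/-- change of basis -/
def mA (A : Matrix ι ι ℤ) : Matrix (ι ⊕ ι) (ι ⊕ ι) ℤ := fromBlocks A 0 0 (A⁻¹)ᵀ

/-- partial inversion in the coordinate `i` -/
def jI (i : ι) : Matrix (ι ⊕ ι) (ι ⊕ ι) ℤ :=
  fromBlocks (1 - Matrix.single i i 1) (-Matrix.single i i 1) (Matrix.single i i 1)
    (1 - Matrix.single i i 1)

/-- phases -/
def pB (N : ℕ) (B : Matrix ι ι ℤ) : Op N ι where
  toFun φ x := cexp (π * I * qf (B.map (fun z : ℤ => (z : ℂ))) (fun i => ((x i).val : ℤ)) / N) * φ x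
  map_add' φ ψ := by funext x; simp [mul_add]
  map_smul' c φ := by funext x; simp only [Pi.smul_apply, smul_eq_mul, RingHom.id_apply]; ring

/-- change of basis -/
def pA (N : ℕ) (A : Matrix ι ι ℤ) : Op N ι where
  toFun φ x := φ ((((A⁻¹)ᵀ).map (fun z : ℤ => (z : ZMod N))) *ᵥ x)
  map_add' φ ψ := by funext x; simp
  map_smul' c φ := by funext x; simp

/-- partial inverse Fourier transform in the coordinate `i` -/
def pJ (N : ℕ) [NeZero N] (i : ι) : Op N ι where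
  toFun φ x := ((Real.sqrt N : ℝ) : ℂ)⁻¹ *
    ∑ y : ZMod N, ZMod.stdAddChar (-(x i * y)) * φ (Function.update x i y)
  map_add' φ ψ := by
    funext x
    simp only [Pi.add_apply, mul_add, Finset.sum_add_distrib]
  map_smul' c φ := by
    funext x
    simp only [Pi.smul_apply, smul_eq_mul, RingHom.id_apply, Finset.mul_sum]
    refine Finset.sum_congr rfl fun y _ => ?_
    ring

/-! ### the finite group -/

/-- translation -/
def hX (N : ℕ) (a : ι → ZMod N) : Op N ι where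
  toFun φ x := φ (x + a)
  map_add' φ ψ := by funext x; simp
  map_smul' c φ := by funext x; simp

/-- multiplication by a character -/
def hZ (N : ℕ) [NeZero N] (b : ι → ZMod N) : Op N ι where
  toFun φ x := ZMod.stdAddChar (∑ i, b i * x i) * φ x
  map_add' φ ψ := by funext x; simp [mul_add]
  map_smul' c φ := by funext x; simp only [Pi.smul_apply, smul_eq_mul, RingHom.id_apply]; ring

/-- operators which normalise the finite Heisenberg group, with a root of unity as determinant -/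
def NN (N : ℕ) [NeZero N] (ι : Type) [Fintype ι] [DecidableEq ι] : Set (Op N ι) :=
  {P | (LinearMap.det P) ^ (4 * N) = 1 ∧ ∀ a b : ι → ZMod N, ∃ (a' b' : ι → ZMod N) (c : ℂ),
    c ^ (2 * N) = 1 ∧ P ∘ₗ (hX N a ∘ₗ hZ N b) = c • ((hX N a' ∘ₗ hZ N b') ∘ₗ P)}

end

end Pool.CMH
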