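import Mathlib
import Pool.Agent.Lib.CMH.P1Defs

/-! # TANK CMH, row TH8c: assembly over the real places (helper45).
`m` indexes the real matrices at a place, `V` the places, `B` a basis of the integers;
`E v b` is the value of the basis element `b` at the place `v`. -/

set_option autoImplicit false
set_option linter.unusedSectionVars false
set_option linter.unusedSimpArgs false
set_option linter.unusedDecidableInType false

open Matrix Complex

namespace Pool.CMH

noncomputable section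

variable {m V B : Type}

/-- the Siegel point assembled from the places. -/
def tot [Fintype V] (E : Matrix V B ℝ) (Z : V → Matrix m m ℂ) : Matrix (m × B) (m × B) ℂ :=
  fun p q => ∑ v, (E v p.2 : ℂ) * Z v p.1 q.1 * (E v q.2 : ℂ)

/-- the linear form `x ↦ ∑ i, η i * (x at the place v₁) i`. -/
def lift (E : Matrix V B ℝ) (v₁ : V) (η : m → ℂ) : m × B → ℂ := fun p => (E v₁ p.2 : ℂ) * η p.1

/-- the value of an integral vector at the place `v`. -/
def at' [Fintype B] (E : Matrix V B ℝ) (v : V) (x : m × B → ℤ) : m → ℝ :=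
  fun i => ∑ b, (x (i, b) : ℝ) * E v b

/-- the integral matrix `M` is assembled from the real matrices `A v, Bm v, C v, Dm v`. -/
structure IsAsm [Fintype V] [DecidableEq V] [Fintype B] (E : Matrix V B ℝ)
    (M : Matrix ((m × B) ⊕ (m × B)) ((m × B) ⊕ (m × B)) ℤ)
    (A Bm C Dm : V → Matrix m m ℝ) : Prop where
  hA : ∀ (i j : m) (b : B) (v : V),
    ∑ c, (M (Sum.inl (i, b)) (Sum.inl (j, c)) : ℝ) * E v c = E v b * A v i j
  hB : ∀ (i j : m) (b c : B),
    (M (Sum.inl (i, b)) (Sum.inr (j, c)) : ℝ) = ∑ v, E v b * Bm v i j * E v c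
  hC : ∀ (i j : m) (v w : V),
    ∑ b, ∑ c, E v b * (M (Sum.inr (i, b)) (Sum.inl (j, c)) : ℝ) * E w c =
      if v = w then C v i j else 0
  hD : ∀ (i j : m) (v : V) (c : B),
    ∑ b, E v b * (M (Sum.inr (i, b)) (Sum.inr (j, c)) : ℝ) = Dm v i j * E v c

/-- a real matrix as a complex matrix. -/
abbrev cx {a b : Type} (X : Matrix a b ℝ) : Matrix a b ℂ := X.map (fun x : ℝ => (x : ℂ))

/-- `C Z + D` at a place. -/
def loc [Fintype m] (C Dm : Matrix m m ℝ) (Z : Matrix m m ℂ) : Matrix m m ℂ := cx C * Z + cx Dm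

/-- `1 ⊗ E`. -/
def Eh [DecidableEq m] (E : Matrix V B ℝ) : Matrix (m × V) (m × B) ℂ :=
  fun p q => if p.1 = q.1 then (E p.2 q.2 : ℂ) else 0

variable [Fintype m] [Fintype V] [Fintype B] [DecidableEq m] [DecidableEq V] [DecidableEq B]

lemma Eh_mul {E : Matrix V B ℝ} {E' : Matrix B V ℝ} (h : E * E' = 1) :
    Eh (m := m) E * Eh (m := m) E' = 1 := by
  ext ⟨i, v⟩ ⟨j, w⟩
  have h1 := congrFun (congrFun h v) w
  rw [Matrix.mul_apply] at h1
  have h2 : (∑ b, (E v b : ℂ) * (E' b w : ℂ)) = (((1 : Matrix V V ℝ) v w : ℝ) : ℂ) := by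
    rw [← h1]; push_cast; rfl
  rw [Matrix.mul_apply, Fintype.sum_prod_type]
  simp only [Eh, ite_mul, mul_ite, zero_mul, mul_zero, Finset.sum_ite_eq,
    Finset.sum_ite_irrel, Finset.sum_const_zero, Finset.mem_univ, if_true]
  rw [h2]
  by_cases hij : i = j
  · subst hij
    by_cases hvw : v = w
    · subst hvw; simp
    · simp [Matrix.one_apply, hvw]
  · simp [Matrix.one_apply, hij]

lemma tot_eq (E : Matrix V B ℝ) (Z : V → Matrix m m ℂ) :
    tot E Z = (Eh (m := m) E)ᵀ * blockDiagonal Z * Eh (m := m) E := by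
  ext ⟨i, b⟩ ⟨j, c⟩
  rw [Matrix.mul_apply, Fintype.sum_prod_type]
  simp only [Matrix.mul_apply, Fintype.sum_prod_type, transpose_apply, Eh, blockDiagonal_apply,
    ite_mul, mul_ite, zero_mul, mul_zero, Finset.sum_ite_eq, Finset.sum_ite_eq',
    Finset.sum_ite_irrel, Finset.sum_const_zero, Finset.mem_univ, if_true, tot]

lemma lift_eq (E : Matrix V B ℝ) (v₁ : V) (η : m → ℂ) :
    lift E v₁ η = (Eh (m := m) E)ᵀ *ᵥ (fun p => if p.2 = v₁ then η p.1 else 0) := by
  ext ⟨i, b⟩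
  simp only [mulVec, dotProduct, Fintype.sum_prod_type, transpose_apply, Eh,
    ite_mul, mul_ite, zero_mul, mul_zero, Finset.sum_ite_eq', Finset.sum_ite_eq,
    Finset.sum_ite_irrel, Finset.sum_const_zero, Finset.mem_univ, if_true, lift]

section asm
variable {E : Matrix V B ℝ} {M : Matrix ((m × B) ⊕ (m × B)) ((m × B) ⊕ (m × B)) ℤ}
  {A Bm C Dm : V → Matrix m m ℝ}

lemma IsAsm.mA (h : IsAsm E M A Bm C Dm) :
    bA M * (Eh (m := m) E)ᵀ = (Eh (m := m) E)ᵀ * blockDiagonal (fun v => cx (A v)) := by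
  ext ⟨i, b⟩ ⟨j, v⟩
  have h1 := congrArg (fun x : ℝ => (x : ℂ)) (h.hA i j b v)
  push_cast at h1
  simp only [Matrix.mul_apply, Fintype.sum_prod_type, transpose_apply, Eh, blockDiagonal_apply,
    ite_mul, mul_ite, zero_mul, mul_zero, Finset.sum_ite_eq, Finset.sum_ite_eq',
    Finset.sum_ite_irrel, Finset.sum_const_zero, Finset.mem_univ, if_true, bA, map_apply,
    toBlocks₁₁, of_apply]
  exact h1

lemma IsAsm.mB (h : IsAsm E M A Bm C Dm) :
    bB M = (Eh (m := m) E)ᵀ * blockDiagonal (fun v => cx (Bm v)) * Eh (m := m) E := by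
  rw [← tot_eq]
  ext ⟨i, b⟩ ⟨j, c⟩
  have h1 := congrArg (fun x : ℝ => (x : ℂ)) (h.hB i j b c)
  push_cast at h1
  simp only [tot, bB, map_apply, toBlocks₁₂, of_apply]
  exact h1

lemma IsAsm.mC (h : IsAsm E M A Bm C Dm) :
    Eh (m := m) E * bC M * (Eh (m := m) E)ᵀ = blockDiagonal (fun v => cx (C v)) := by
  ext ⟨i, v⟩ ⟨j, w⟩
  simp only [Matrix.mul_apply, Fintype.sum_prod_type, transpose_apply, Eh, blockDiagonal_apply,
    ite_mul, mul_ite, zero_mul, mul_zero, Finset.sum_ite_eq, Finset.sum_ite_eq',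
    Finset.sum_ite_irrel, Finset.sum_const_zero, Finset.mem_univ, if_true, bC, map_apply,
    toBlocks₂₁, of_apply]
  have h2 : (((if v = w then C v i j else 0 : ℝ)) : ℂ) = if v = w then (C v i j : ℂ) else 0 := by
    split_ifs <;> simp
  rw [← h2, ← h.hC i j v w]
  push_cast
  simp_rw [Finset.sum_mul]
  exact Finset.sum_comm

lemma IsAsm.mD (h : IsAsm E M A Bm C Dm) :
    Eh (m := m) E * bD M = blockDiagonal (fun v => cx (Dm v)) * Eh (m := m) E := by
  ext ⟨i, v⟩ ⟨j, c⟩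
  have h1 := congrArg (fun x : ℝ => (x : ℂ)) (h.hD i j v c)
  push_cast at h1
  simp only [Matrix.mul_apply, Fintype.sum_prod_type, Eh, blockDiagonal_apply,
    ite_mul, mul_ite, zero_mul, mul_zero, Finset.sum_ite_eq, Finset.sum_ite_eq',
    Finset.sum_ite_irrel, Finset.sum_const_zero, Finset.mem_univ, if_true, bD, map_apply,
    toBlocks₂₂, of_apply]
  exact h1

/-- `E (C Z + D) = diag (C_v Z_v + D_v) E`. -/
lemma IsAsm.au_eq (h : IsAsm E M A Bm C Dm) (Z : V → Matrix m m ℂ) :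
    Eh (m := m) E * au M (tot E Z) =
      blockDiagonal (fun v => loc (C v) (Dm v) (Z v)) * Eh (m := m) E := by
  unfold au
  rw [Matrix.mul_add, h.mD, tot_eq]
  have h1 : Eh (m := m) E * (bC M * ((Eh (m := m) E)ᵀ * blockDiagonal Z * Eh (m := m) E)) =
      (Eh (m := m) E * bC M * (Eh (m := m) E)ᵀ) * blockDiagonal Z * Eh (m := m) E := by
    simp only [Matrix.mul_assoc]
  rw [h1, h.mC, ← Matrix.blockDiagonal_mul, ← Matrix.add_mul, ← Matrix.blockDiagonal_add]
  rfl

/-- (ii) the determinant. -/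
theorem IsAsm.det_au (h : IsAsm E M A Bm C Dm) {E' : Matrix B V ℝ} (h1 : E * E' = 1)
    (h2 : E' * E = 1) (Z : V → Matrix m m ℂ) :
    (au M (tot E Z)).det = ∏ v, (loc (C v) (Dm v) (Z v)).det := by
  have e1 := Eh_mul (m := m) h1
  have e2 := Eh_mul (m := m) h2
  have e3 : au M (tot E Z) =
      Eh (m := m) E' * blockDiagonal (fun v => loc (C v) (Dm v) (Z v)) * Eh (m := m) E := by
    rw [Matrix.mul_assoc, ← h.au_eq, ← Matrix.mul_assoc, e2, Matrix.one_mul]
  rw [e3, Matrix.det_conj_of_mul_eq_one e2 e1, Matrix.det_blockDiagonal]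

/-- (iii) the action. -/
theorem IsAsm.mv_eq (h : IsAsm E M A Bm C Dm) {E' : Matrix B V ℝ} (h1 : E * E' = 1)
    (h2 : E' * E = 1) {Z Z' : V → Matrix m m ℂ}
    (hloc : ∀ v, cx (A v) * Z v + cx (Bm v) = Z' v * loc (C v) (Dm v) (Z v))
    (hdet : ∀ v, (loc (C v) (Dm v) (Z v)).det ≠ 0) : mv M (tot E Z) = tot E Z' := by
  have hu : IsUnit (au M (tot E Z)).det := by
    rw [h.det_au h1 h2]
    exact isUnit_iff_ne_zero.mpr (Finset.prod_ne_zero_iff.mpr fun v _ => hdet v)
  have e1 : bA M * tot E Z + bB M = tot E Z' * au M (tot E Z) := by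
    rw [tot_eq E Z', Matrix.mul_assoc _ (Eh (m := m) E), h.au_eq, h.mB]
    nth_rw 1 [tot_eq E Z]
    have h3 : bA M * ((Eh (m := m) E)ᵀ * blockDiagonal Z * Eh (m := m) E) =
        (bA M * (Eh (m := m) E)ᵀ) * blockDiagonal Z * Eh (m := m) E := by
      simp only [Matrix.mul_assoc]
    rw [h3, h.mA]
    rw [Matrix.mul_assoc (Eh (m := m) E)ᵀ, ← Matrix.blockDiagonal_mul, ← Matrix.add_mul,
      ← Matrix.mul_add, ← Matrix.blockDiagonal_add, ← Matrix.mul_assoc,
      Matrix.mul_assoc (Eh (m := m) E)ᵀ (blockDiagonal Z'), ← Matrix.blockDiagonal_mul]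
    congr 3
    funext v
    exact hloc v
  unfold mv
  rw [e1, Matrix.mul_nonsing_inv_cancel_right _ _ hu]

lemma IsAsm.au_lift (h : IsAsm E M A Bm C Dm) (Z : V → Matrix m m ℂ) (v₁ : V) (η : m → ℂ) :
    (au M (tot E Z))ᵀ *ᵥ lift E v₁ η = lift E v₁ ((loc (C v₁) (Dm v₁) (Z v₁))ᵀ *ᵥ η) := by
  rw [lift_eq, mulVec_mulVec, ← transpose_mul, h.au_eq, transpose_mul, ← mulVec_mulVec, lift_eq,
    blockDiagonal_transpose]
  congr 1
  ext ⟨i, v⟩
  simp only [mulVec, dotProduct, Fintype.sum_prod_type, blockDiagonal_apply, ite_mul, mul_ite,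
    zero_mul, mul_zero, Finset.sum_ite_eq, Finset.sum_ite_eq', Finset.mem_univ, if_true,
    Finset.sum_ite_irrel, Finset.sum_const_zero]
  by_cases hv : v = v₁
  · subst hv; simp
  · simp [hv]

/-- (iv) the linear forms. -/
theorem IsAsm.uu_lift (h : IsAsm E M A Bm C Dm) {Z : V → Matrix m m ℂ}
    (hu : IsUnit (au M (tot E Z)).det) {v₁ : V} {η η' : m → ℂ}
    (hη : (loc (C v₁) (Dm v₁) (Z v₁))ᵀ *ᵥ η' = η) :
    uu M (tot E Z) (lift E v₁ η) = lift E v₁ η' := by
  unfold uu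
  have h1 := h.au_lift Z v₁ η'
  rw [hη] at h1
  rw [← h1, mulVec_mulVec, ← transpose_mul, Matrix.mul_nonsing_inv _ hu, transpose_one,
    one_mulVec]

/-- the bilinear form of the quadratic exponent. -/
lemma IsAsm.qq_bil (h : IsAsm E M A Bm C Dm) {Z : V → Matrix m m ℂ}
    (hu : IsUnit (au M (tot E Z)).det) {v₁ : V} {η η' ζ : m → ℂ}
    (hη : (loc (C v₁) (Dm v₁) (Z v₁))ᵀ *ᵥ η' = η) :
    lift E v₁ η ⬝ᵥ (((au M (tot E Z))⁻¹ * bC M) *ᵥ lift E v₁ ζ) = η' ⬝ᵥ (cx (C v₁) *ᵥ ζ) := by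
  have h1 := h.au_lift Z v₁ η'
  rw [hη] at h1
  have h2 : lift E v₁ η ᵥ* (au M (tot E Z))⁻¹ = lift E v₁ η' := by
    rw [← h1, mulVec_transpose, vecMul_vecMul, Matrix.mul_nonsing_inv _ hu, vecMul_one]
  rw [← mulVec_mulVec, dotProduct_mulVec, h2, lift_eq, lift_eq]
  rw [mulVec_mulVec, mulVec_transpose, ← dotProduct_mulVec, mulVec_mulVec, ← Matrix.mul_assoc,
    h.mC]
  simp only [mulVec, dotProduct, Fintype.sum_prod_type, blockDiagonal_apply, ite_mul, mul_ite,
    zero_mul, mul_zero, Finset.sum_ite_eq, Finset.sum_ite_eq', Finset.mem_univ, if_true,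
    Finset.sum_ite_irrel, Finset.sum_const_zero, Finset.mul_sum]

/-- (v) the quadratic exponent. -/
theorem IsAsm.qq_lift (h : IsAsm E M A Bm C Dm) {Z : V → Matrix m m ℂ}
    (hu : IsUnit (au M (tot E Z)).det) {v₁ : V} {η η' ζ ζ' : m → ℂ}
    (hη : (loc (C v₁) (Dm v₁) (Z v₁))ᵀ *ᵥ η' = η)
    (hζ : (loc (C v₁) (Dm v₁) (Z v₁))ᵀ *ᵥ ζ' = ζ) (t s : ℂ) :
    qq M (tot E Z) (t • lift E v₁ η + s • lift E v₁ ζ) =
      t ^ 2 * (η' ⬝ᵥ (cx (C v₁) *ᵥ η)) +
        t * s * (η' ⬝ᵥ (cx (C v₁) *ᵥ ζ) + ζ' ⬝ᵥ (cx (C v₁) *ᵥ η)) +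
        s ^ 2 * (ζ' ⬝ᵥ (cx (C v₁) *ᵥ ζ)) := by
  unfold qq
  rw [mulVec_add, mulVec_smul, mulVec_smul, add_dotProduct, smul_dotProduct, smul_dotProduct,
    dotProduct_add, dotProduct_add, dotProduct_smul, dotProduct_smul, dotProduct_smul,
    dotProduct_smul, h.qq_bil hu hη, h.qq_bil hu hη, h.qq_bil hu hζ, h.qq_bil hu hζ]
  simp only [smul_eq_mul]
  ring

end asm

/-- (vi) the quadratic form. -/
theorem qf_tot (E : Matrix V B ℝ) (Z : V → Matrix m m ℂ) (x : m × B → ℤ) :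
    qf (tot E Z) x = ∑ v, ∑ i, ∑ j, (at' E v x i : ℂ) * (at' E v x j : ℂ) * Z v i j := by
  unfold qf tot at'
  simp only [Fintype.sum_prod_type, Complex.ofReal_sum, Complex.ofReal_mul, Complex.ofReal_intCast,
    Finset.sum_mul, Finset.mul_sum]
  have e1 : ∀ (i : m) (b : B) (j : m) (c : B) (v : V),
      (x (i, b) : ℂ) * (x (j, c) : ℂ) * ((E v b : ℂ) * Z v i j * (E v c : ℂ)) =
        (x (i, b) : ℂ) * (E v b : ℂ) * ((x (j, c) : ℂ) * (E v c : ℂ)) * Z v i j := by
    intro i b j c v; ring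
  simp_rw [e1]
  calc ∑ i, ∑ b, ∑ j, ∑ c, ∑ v,
      (x (i, b) : ℂ) * (E v b : ℂ) * ((x (j, c) : ℂ) * (E v c : ℂ)) * Z v i j
      = ∑ i, ∑ b, ∑ j, ∑ v, ∑ c,
      (x (i, b) : ℂ) * (E v b : ℂ) * ((x (j, c) : ℂ) * (E v c : ℂ)) * Z v i j := by
        refine Finset.sum_congr rfl fun i _ => Finset.sum_congr rfl fun b _ =>
          Finset.sum_congr rfl fun j _ => Finset.sum_comm
    _ = ∑ i, ∑ b, ∑ v, ∑ j, ∑ c,
      (x (i, b) : ℂ) * (E v b : ℂ) * ((x (j, c) : ℂ) * (E v c : ℂ)) * Z v i j := by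
        refine Finset.sum_congr rfl fun i _ => Finset.sum_congr rfl fun b _ => Finset.sum_comm
    _ = ∑ i, ∑ v, ∑ b, ∑ j, ∑ c,
      (x (i, b) : ℂ) * (E v b : ℂ) * ((x (j, c) : ℂ) * (E v c : ℂ)) * Z v i j := by
        refine Finset.sum_congr rfl fun i _ => Finset.sum_comm
    _ = ∑ v, ∑ i, ∑ b, ∑ j, ∑ c,
      (x (i, b) : ℂ) * (E v b : ℂ) * ((x (j, c) : ℂ) * (E v c : ℂ)) * Z v i j :=
        Finset.sum_comm
    _ = ∑ v, ∑ i, ∑ j, ∑ c, ∑ b,
      (x (i, b) : ℂ) * (E v b : ℂ) * ((x (j, c) : ℂ) * (E v c : ℂ)) * Z v i j := by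
        refine Finset.sum_congr rfl fun v _ => Finset.sum_congr rfl fun i _ => ?_
        rw [Finset.sum_comm]
        refine Finset.sum_congr rfl fun j _ => Finset.sum_comm

/-- (vi) the linear forms. -/
theorem lf_lift (E : Matrix V B ℝ) (v₁ : V) (η : m → ℂ) (x : m × B → ℤ) :
    lf (lift E v₁ η) x = ∑ i, (at' E v₁ x i : ℂ) * η i := by
  unfold lf lift at'
  rw [Fintype.sum_prod_type]
  refine Finset.sum_congr rfl fun i _ => ?_
  push_cast
  rw [Finset.sum_mul]
  exact Finset.sum_congr rfl fun b _ => by ring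

/-- (i) the assembled point is in the Siegel space. -/
theorem tot_mem {E : Matrix V B ℝ} {E' : Matrix B V ℝ} (h2 : E' * E = 1)
    {Z : V → Matrix m m ℂ} (hZ : ∀ v, Z v ∈ Sieg m) : tot E Z ∈ Sieg (m × B) := by
  refine ⟨?_, ?_⟩
  · ext ⟨i, b⟩ ⟨j, c⟩
    simp only [transpose_apply, tot]
    refine Finset.sum_congr rfl fun v _ => ?_
    have := congrFun (congrFun (hZ v).1 i) j
    rw [transpose_apply] at this
    rw [this]; ring
  · intro x hx
    have key : ∑ p, ∑ q, x p * x q * (tot E Z p q).im =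
        ∑ v, ∑ i, ∑ j, (∑ b, x (i, b) * E v b) * (∑ c, x (j, c) * E v c) * (Z v i j).im := by
      have e0 : ∀ p q, (tot E Z p q).im = ∑ v, E v p.2 * E v q.2 * (Z v p.1 q.1).im := by
        intro p q
        unfold tot
        rw [Complex.im_sum]
        refine Finset.sum_congr rfl fun v _ => ?_
        rw [mul_comm ((E v p.2 : ℂ) * Z v p.1 q.1), ← mul_assoc, ← Complex.ofReal_mul,
          Complex.im_ofReal_mul]
        ring
      simp_rw [e0, Fintype.sum_prod_type, Finset.sum_mul, Finset.mul_sum, Finset.sum_mul]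
      have e1 : ∀ (i : m) (b : B) (j : m) (c : B) (v : V),
          x (i, b) * x (j, c) * (E v b * E v c * (Z v i j).im) =
            x (i, b) * E v b * (x (j, c) * E v c) * (Z v i j).im := by
        intro i b j c v; ring
      simp_rw [e1]
      calc ∑ i, ∑ b, ∑ j, ∑ c, ∑ v, x (i, b) * E v b * (x (j, c) * E v c) * (Z v i j).im
          = ∑ i, ∑ b, ∑ j, ∑ v, ∑ c, x (i, b) * E v b * (x (j, c) * E v c) * (Z v i j).im := by
            refine Finset.sum_congr rfl fun i _ => Finset.sum_congr rfl fun b _ =>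
              Finset.sum_congr rfl fun j _ => Finset.sum_comm
        _ = ∑ i, ∑ b, ∑ v, ∑ j, ∑ c, x (i, b) * E v b * (x (j, c) * E v c) * (Z v i j).im := by
            refine Finset.sum_congr rfl fun i _ => Finset.sum_congr rfl fun b _ => Finset.sum_comm
        _ = ∑ i, ∑ v, ∑ b, ∑ j, ∑ c, x (i, b) * E v b * (x (j, c) * E v c) * (Z v i j).im := by
            refine Finset.sum_congr rfl fun i _ => Finset.sum_comm
        _ = ∑ v, ∑ i, ∑ b, ∑ j, ∑ c, x (i, b) * E v b * (x (j, c) * E v c) * (Z v i j).im :=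
            Finset.sum_comm
        _ = ∑ v, ∑ i, ∑ j, ∑ b, ∑ c, x (i, b) * E v b * (x (j, c) * E v c) * (Z v i j).im := by
            refine Finset.sum_congr rfl fun v _ => Finset.sum_congr rfl fun i _ => ?_
            exact Finset.sum_comm
    rw [key]
    have hnn : ∀ v, 0 ≤ ∑ i, ∑ j, (∑ b, x (i, b) * E v b) * (∑ c, x (j, c) * E v c) *
        (Z v i j).im := by
      intro v
      by_cases h0 : (fun i => ∑ b, x (i, b) * E v b) = 0
      · have : ∀ i, (∑ b, x (i, b) * E v b) = 0 := fun i => congrFun h0 i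
        simp [this]
      · exact ((hZ v).2 _ h0).le
    have hex : ∃ v, (fun i => ∑ b, x (i, b) * E v b) ≠ 0 := by
      by_contra hcon
      push Not at hcon
      apply hx
      ext ⟨i, b⟩
      have h3 : ∀ v, ∑ c, E v c * x (i, c) = 0 := by
        intro v
        have := congrFun (hcon v) i
        simp only [Pi.zero_apply] at this
        rw [← this]
        exact Finset.sum_congr rfl fun c _ => mul_comm _ _
      have h4 : (E' * E) *ᵥ (fun c => x (i, c)) = fun c => x (i, c) := by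
        rw [h2, one_mulVec]
      have h5 := congrFun h4 b
      rw [← mulVec_mulVec] at h5
      rw [← h5]
      have h6 : E *ᵥ (fun c => x (i, c)) = 0 := by
        ext v
        exact h3 v
      rw [h6, mulVec_zero]
      rfl
    obtain ⟨v, hv⟩ := hex
    exact Finset.sum_pos' (fun v _ => hnn v) ⟨v, Finset.mem_univ v, (hZ v).2 _ hv⟩

/-- `IsAsm` from the entries in terms of a basis and its trace dual basis (helper71's place form). -/
theorem IsAsm.of_entries {E Es : Matrix V B ℝ}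
    {M : Matrix ((m × B) ⊕ (m × B)) ((m × B) ⊕ (m × B)) ℤ} {A Bm C Dm : V → Matrix m m ℝ}
    (h1 : ∀ v w, ∑ b, E v b * Es w b = if v = w then 1 else 0)
    (hA : ∀ i j b c, (M (Sum.inl (i, b)) (Sum.inl (j, c)) : ℝ) = ∑ v, E v b * A v i j * Es v c)
    (hB : ∀ i j b c, (M (Sum.inl (i, b)) (Sum.inr (j, c)) : ℝ) = ∑ v, E v b * Bm v i j * E v c)
    (hC : ∀ i j b c, (M (Sum.inr (i, b)) (Sum.inl (j, c)) : ℝ) = ∑ v, Es v b * C v i j * Es v c)
    (hD : ∀ i j b c, (M (Sum.inr (i, b)) (Sum.inr (j, c)) : ℝ) = ∑ v, Es v b * Dm v i j * E v c) :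
    IsAsm E M A Bm C Dm where
  hA i j b v := by
    simp_rw [hA, Finset.sum_mul]
    rw [Finset.sum_comm]
    have e1 : ∀ u, ∑ c, E u b * A u i j * Es u c * E v c = E u b * A u i j * ∑ c, E v c * Es u c := by
      intro u; rw [Finset.mul_sum]; exact Finset.sum_congr rfl fun c _ => by ring
    simp_rw [e1, h1]
    simp
  hB := hB
  hC i j v w := by
    simp_rw [hC, Finset.mul_sum, Finset.sum_mul]
    have e1 : ∑ b, ∑ c, ∑ u, E v b * (Es u b * C u i j * Es u c) * E w c =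
        ∑ u, (∑ b, E v b * Es u b) * (∑ c, E w c * Es u c) * C u i j := by
      simp_rw [Finset.sum_mul, Finset.mul_sum, Finset.sum_mul]
      calc ∑ b, ∑ c, ∑ u, E v b * (Es u b * C u i j * Es u c) * E w c
          = ∑ b, ∑ u, ∑ c, E v b * (Es u b * C u i j * Es u c) * E w c :=
            Finset.sum_congr rfl fun b _ => Finset.sum_comm
        _ = ∑ u, ∑ b, ∑ c, E v b * (Es u b * C u i j * Es u c) * E w c := Finset.sum_comm
        _ = _ := by
          refine Finset.sum_congr rfl fun u _ => ?_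
          refine Finset.sum_congr rfl fun b _ => Finset.sum_congr rfl fun c _ => ?_
          ring
    rw [e1]
    simp_rw [h1]
    by_cases hvw : v = w
    · subst hvw; simp
    · simp only [if_neg hvw]
      refine Finset.sum_eq_zero fun u _ => ?_
      by_cases hv : v = u
      · subst hv
        have hwv : ¬ w = v := fun h => hvw h.symm
        simp [hwv]
      · rw [if_neg hv]; ring
  hD i j v c := by
    simp_rw [hD, Finset.mul_sum]
    rw [Finset.sum_comm]
    have e1 : ∀ u, ∑ b, E v b * (Es u b * Dm u i j * E u c) = (∑ b, E v b * Es u b) * (Dm u i j * E u c) := by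
      intro u; rw [Finset.sum_mul]; exact Finset.sum_congr rfl fun c _ => by ring
    simp_rw [e1, h1]
    simp

end

end Pool.CMH
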