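import Pool.Agent.Lib.CMH.P1Geo
import Pool.Agent.Lib.CMH.TH8asm

/-!
# TANK CMH, P1, row TH8c (first part): products and symplecticity of the assembled matrices
-/

set_option autoImplicit false
set_option linter.unusedSectionVars false
set_option linter.unusedSimpArgs false

namespace Pool.CMH

open Matrix Complex Real

noncomputable section

section transport

variable {m V κ : Type} [Fintype m] [Fintype V] [Fintype κ] [DecidableEq m] [DecidableEq V]
  [DecidableEq κ] {W : Matrix V κ ℝ} {W' : Matrix κ V ℝ}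

theorem tU_eq (W : Matrix V κ ℝ) (B : V → Matrix m m ℂ) :
    tU W B = (Eh (m := m) W)ᵀ * blockDiagonal B * Eh (m := m) W := by
  ext ⟨i, b⟩ ⟨j, c⟩
  rw [Matrix.mul_apply, Fintype.sum_prod_type]
  simp only [Matrix.mul_apply, Fintype.sum_prod_type, transpose_apply, Eh, blockDiagonal_apply,
    ite_mul, mul_ite, zero_mul, mul_zero, Finset.sum_ite_eq, Finset.sum_ite_eq',
    Finset.sum_ite_irrel, Finset.sum_const_zero, Finset.mem_univ, if_true, tU]

theorem tD_eq (W : Matrix V κ ℝ) (W' : Matrix κ V ℝ) (B : V → Matrix m m ℂ) :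
    tD W W' B = Eh (m := m) W' * blockDiagonal B * Eh (m := m) W := by
  ext ⟨i, b⟩ ⟨j, c⟩
  rw [Matrix.mul_apply, Fintype.sum_prod_type]
  simp only [Matrix.mul_apply, Fintype.sum_prod_type, Eh, blockDiagonal_apply,
    ite_mul, mul_ite, zero_mul, mul_zero, Finset.sum_ite_eq, Finset.sum_ite_eq',
    Finset.sum_ite_irrel, Finset.sum_const_zero, Finset.mem_univ, if_true, tD]

theorem tA_eq (W : Matrix V κ ℝ) (W' : Matrix κ V ℝ) (B : V → Matrix m m ℂ) :
    tA W W' B = (Eh (m := m) W)ᵀ * blockDiagonal B * (Eh (m := m) W')ᵀ := by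
  ext ⟨i, b⟩ ⟨j, c⟩
  rw [Matrix.mul_apply, Fintype.sum_prod_type]
  simp only [Matrix.mul_apply, Fintype.sum_prod_type, transpose_apply, Eh, blockDiagonal_apply,
    ite_mul, mul_ite, zero_mul, mul_zero, Finset.sum_ite_eq, Finset.sum_ite_eq',
    Finset.sum_ite_irrel, Finset.sum_const_zero, Finset.mem_univ, if_true, tA]

theorem tC_eq (W' : Matrix κ V ℝ) (B : V → Matrix m m ℂ) :
    tC W' B = Eh (m := m) W' * blockDiagonal B * (Eh (m := m) W')ᵀ := by
  ext ⟨i, b⟩ ⟨j, c⟩
  rw [Matrix.mul_apply, Fintype.sum_prod_type]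
  simp only [Matrix.mul_apply, Fintype.sum_prod_type, transpose_apply, Eh, blockDiagonal_apply,
    ite_mul, mul_ite, zero_mul, mul_zero, Finset.sum_ite_eq, Finset.sum_ite_eq',
    Finset.sum_ite_irrel, Finset.sum_const_zero, Finset.mem_univ, if_true, tC]

/-- the left factor -/
def BlL (m : Type) [DecidableEq m] (W : Matrix V κ ℝ) (W' : Matrix κ V ℝ) :
    Matrix ((m × κ) ⊕ (m × κ)) ((m × V) ⊕ (m × V)) ℂ :=
  fromBlocks (Eh (m := m) W)ᵀ 0 0 ((2 : ℂ)⁻¹ • Eh (m := m) W')

/-- the right factor -/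
def BlR (m : Type) [DecidableEq m] (W : Matrix V κ ℝ) (W' : Matrix κ V ℝ) :
    Matrix ((m × V) ⊕ (m × V)) ((m × κ) ⊕ (m × κ)) ℂ :=
  fromBlocks (Eh (m := m) W')ᵀ 0 0 ((2 : ℂ) • Eh (m := m) W)

/-- the direct sum over the places -/
def BlS (A B C D : V → Matrix m m ℂ) : Matrix ((m × V) ⊕ (m × V)) ((m × V) ⊕ (m × V)) ℂ :=
  fromBlocks (blockDiagonal A) (blockDiagonal B) (blockDiagonal C) (blockDiagonal D)

theorem BlR_mul_BlL (h2 : W * W' = 1) : BlR m W W' * BlL m W W' = 1 := by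
  unfold BlR BlL
  rw [fromBlocks_multiply]
  simp only [Matrix.mul_zero, Matrix.zero_mul, add_zero, zero_add]
  rw [← Matrix.transpose_mul, Matrix.smul_mul, Matrix.mul_smul, smul_smul, Eh_mul h2,
    Matrix.transpose_one, mul_inv_cancel₀ two_ne_zero, one_smul, fromBlocks_one]

theorem Bl_map_eq (M : Matrix ((m × κ) ⊕ (m × κ)) ((m × κ) ⊕ (m × κ)) ℤ) :
    M.map (fun z : ℤ => (z : ℂ)) = fromBlocks (bA M) (bB M) (bC M) (bD M) := by
  conv_lhs => rw [← fromBlocks_toBlocks M, fromBlocks_map]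
  rfl

theorem Bl.map {M : Matrix ((m × κ) ⊕ (m × κ)) ((m × κ) ⊕ (m × κ)) ℤ}
    {A B C D : V → Matrix m m ℂ} (h : Bl W W' M A B C D) :
    M.map (fun z : ℤ => (z : ℂ)) = BlL m W W' * BlS A B C D * BlR m W W' := by
  rw [Bl_map_eq, h.hA, h.hB, h.hC, h.hD, tU_eq, tD_eq, tA_eq, tC_eq]
  unfold BlL BlR BlS
  rw [fromBlocks_multiply, fromBlocks_multiply]
  simp only [Matrix.mul_zero, Matrix.zero_mul, add_zero, zero_add, Matrix.smul_mul,
    Matrix.mul_smul, smul_smul]
  rw [mul_inv_cancel₀ (two_ne_zero : (2 : ℂ) ≠ 0), one_smul]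

theorem Bl_map_inj {a : Type} {M M' : Matrix a a ℤ}
    (h : M.map (fun z : ℤ => (z : ℂ)) = M'.map (fun z : ℤ => (z : ℂ))) : M = M' := by
  ext i j
  have := congrFun (congrFun h i) j
  rw [Matrix.map_apply, Matrix.map_apply] at this
  exact_mod_cast this

/-- products (used to see that `γ ↦ M` is multiplicative) -/
theorem Bl_mul (h1 : W' * W = 1) (h2 : W * W' = 1)
    {M M' M'' : Matrix ((m × κ) ⊕ (m × κ)) ((m × κ) ⊕ (m × κ)) ℤ}
    {A B C D A' B' C' D' A'' B'' C'' D'' : V → Matrix m m ℂ}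
    (h : Bl W W' M A B C D) (h' : Bl W W' M' A' B' C' D') (h'' : Bl W W' M'' A'' B'' C'' D'')
    (e : ∀ v, fromBlocks (A v) (B v) (C v) (D v) * fromBlocks (A' v) (B' v) (C' v) (D' v) =
      fromBlocks (A'' v) (B'' v) (C'' v) (D'' v)) : M'' = M * M' := by
  have _ := h1
  have e1 : BlS A B C D * BlS A' B' C' D' = BlS A'' B'' C'' D'' := by
    unfold BlS
    rw [fromBlocks_multiply]
    simp only [← blockDiagonal_mul, ← blockDiagonal_add]
    have e2 := fun v => by simpa only [fromBlocks_multiply, fromBlocks_inj] using e v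
    rw [fromBlocks_inj]
    refine ⟨congrArg _ (funext fun v => ?_), congrArg _ (funext fun v => ?_),
      congrArg _ (funext fun v => ?_), congrArg _ (funext fun v => ?_)⟩
    · exact (e2 v).1
    · exact (e2 v).2.1
    · exact (e2 v).2.2.1
    · exact (e2 v).2.2.2
  apply Bl_map_inj
  have e3 : (M * M').map (fun z : ℤ => (z : ℂ)) =
      M.map (fun z : ℤ => (z : ℂ)) * M'.map (fun z : ℤ => (z : ℂ)) :=
    Matrix.map_mul (f := Int.castRingHom ℂ)
  rw [e3, h.map, h'.map, h''.map, ← e1]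
  have e4 : ∀ X : Matrix ((m × V) ⊕ (m × V)) ((m × κ) ⊕ (m × κ)) ℂ,
      BlR m W W' * (BlL m W W' * X) = X := by
    intro X
    rw [← Matrix.mul_assoc, BlR_mul_BlL h2, Matrix.one_mul]
  simp only [Matrix.mul_assoc, e4]

theorem Bl_mem (h1 : W' * W = 1) (h2 : W * W' = 1)
    {M : Matrix ((m × κ) ⊕ (m × κ)) ((m × κ) ⊕ (m × κ)) ℤ} {A B C D : V → Matrix m m ℂ}
    (h : Bl W W' M A B C D)
    (e : ∀ v, fromBlocks (A v) (B v) (C v) (D v) ∈ symplecticGroup m ℂ) :
    M ∈ symplecticGroup (m × κ) ℤ := by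
  -- the direct sum is symplectic
  have e1 : BlS A B C D * J (m × V) ℂ * (BlS A B C D)ᵀ = J (m × V) ℂ := by
    have e2 : ∀ v, B v * (A v)ᵀ + -(A v) * (B v)ᵀ = 0 ∧ B v * (C v)ᵀ + -(A v) * (D v)ᵀ = -1 ∧
        D v * (A v)ᵀ + -(C v) * (B v)ᵀ = 1 ∧ D v * (C v)ᵀ + -(C v) * (D v)ᵀ = 0 := by
      intro v
      have e3 := SymplecticGroup.mem_iff.1 (e v)
      unfold J at e3
      rw [fromBlocks_transpose, fromBlocks_multiply, fromBlocks_multiply] at e3
      simp only [Matrix.mul_zero, Matrix.mul_one, zero_add, add_zero, Matrix.mul_neg] at e3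
      rw [fromBlocks_inj] at e3
      exact e3
    unfold BlS J
    rw [fromBlocks_transpose, fromBlocks_multiply, fromBlocks_multiply]
    simp only [Matrix.mul_zero, Matrix.mul_one, zero_add, add_zero, Matrix.mul_neg]
    simp only [blockDiagonal_transpose, ← blockDiagonal_neg, ← blockDiagonal_mul,
      ← blockDiagonal_add]
    rw [fromBlocks_inj]
    refine ⟨?_, ?_, ?_, ?_⟩
    · rw [← blockDiagonal_zero]
      exact congrArg _ (funext fun v => (e2 v).1)
    · rw [← blockDiagonal_one, ← blockDiagonal_neg]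
      exact congrArg _ (funext fun v => (e2 v).2.1)
    · rw [← blockDiagonal_one]
      exact congrArg _ (funext fun v => (e2 v).2.2.1)
    · rw [← blockDiagonal_zero]
      exact congrArg _ (funext fun v => (e2 v).2.2.2)
  have e5 : BlR m W W' * J (m × κ) ℂ * (BlR m W W')ᵀ = (2 : ℂ) • J (m × V) ℂ := by
    unfold BlR J
    rw [fromBlocks_transpose, fromBlocks_multiply, fromBlocks_multiply, fromBlocks_smul]
    simp only [Matrix.mul_zero, Matrix.mul_one, zero_add, add_zero, Matrix.mul_neg,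
      Matrix.zero_mul, Matrix.transpose_zero, Matrix.transpose_smul, Matrix.transpose_transpose,
      Matrix.smul_mul, Matrix.mul_smul, Matrix.neg_mul, smul_zero, neg_zero]
    rw [← Matrix.transpose_mul, Eh_mul h2, Matrix.transpose_one, smul_neg]
  have e6 : BlL m W W' * J (m × V) ℂ * (BlL m W W')ᵀ = (2 : ℂ)⁻¹ • J (m × κ) ℂ := by
    unfold BlL J
    rw [fromBlocks_transpose, fromBlocks_multiply, fromBlocks_multiply, fromBlocks_smul]
    simp only [Matrix.mul_zero, Matrix.mul_one, zero_add, add_zero, Matrix.mul_neg,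
      Matrix.zero_mul, Matrix.transpose_zero, Matrix.transpose_smul, Matrix.transpose_transpose,
      Matrix.smul_mul, Matrix.mul_smul, Matrix.neg_mul, smul_zero, neg_zero]
    rw [← Matrix.transpose_mul, Eh_mul h1, Matrix.transpose_one, smul_neg]
  rw [SymplecticGroup.mem_iff]
  apply Bl_map_inj
  have e7 : (M * J (m × κ) ℤ * Mᵀ).map (fun z : ℤ => (z : ℂ)) =
      M.map (fun z : ℤ => (z : ℂ)) * J (m × κ) ℂ * (M.map (fun z : ℤ => (z : ℂ)))ᵀ := by
    have e8 : (J (m × κ) ℤ).map (fun z : ℤ => (z : ℂ)) = J (m × κ) ℂ := by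
      unfold J
      rw [fromBlocks_map]
      congr 1
      · ext i j; simp
      · ext i j
        rw [Matrix.map_apply, Matrix.neg_apply, Matrix.neg_apply, Matrix.one_apply,
          Matrix.one_apply]
        split_ifs <;> simp
      · ext i j
        rw [Matrix.map_apply, Matrix.one_apply, Matrix.one_apply]
        split_ifs <;> simp
      · ext i j; simp
    rw [← e8]
    have e9 : ∀ (X Y : Matrix ((m × κ) ⊕ (m × κ)) ((m × κ) ⊕ (m × κ)) ℤ),
        (X * Y).map (fun z : ℤ => (z : ℂ)) =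
          X.map (fun z : ℤ => (z : ℂ)) * Y.map (fun z : ℤ => (z : ℂ)) := fun X Y =>
      Matrix.map_mul (f := Int.castRingHom ℂ)
    rw [e9, e9, Matrix.transpose_map]
  have e8 : (J (m × κ) ℤ).map (fun z : ℤ => (z : ℂ)) = J (m × κ) ℂ := by
    unfold J
    rw [fromBlocks_map]
    congr 1
    · ext i j; simp
    · ext i j
      rw [Matrix.map_apply, Matrix.neg_apply, Matrix.neg_apply, Matrix.one_apply,
        Matrix.one_apply]
      split_ifs <;> simp
    · ext i j
      rw [Matrix.map_apply, Matrix.one_apply, Matrix.one_apply]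
      split_ifs <;> simp
    · ext i j; simp
  rw [e7, e8, h.map, Matrix.transpose_mul, Matrix.transpose_mul]
  calc BlL m W W' * BlS A B C D * BlR m W W' * J (m × κ) ℂ *
        ((BlR m W W')ᵀ * ((BlS A B C D)ᵀ * (BlL m W W')ᵀ))
      = BlL m W W' * (BlS A B C D * (BlR m W W' * J (m × κ) ℂ * (BlR m W W')ᵀ) *
          (BlS A B C D)ᵀ) * (BlL m W W')ᵀ := by simp only [Matrix.mul_assoc]
    _ = J (m × κ) ℂ := by
        rw [e5, Matrix.mul_smul, Matrix.smul_mul, e1, Matrix.mul_smul, Matrix.smul_mul, e6,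
          smul_smul, mul_inv_cancel₀ (two_ne_zero : (2 : ℂ) ≠ 0), one_smul]

end transport

end

end Pool.CMH
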