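import Pool.Agent.Lib.CMH.Jac

/-!
# CMH, row C2 (BOOST) (helper37): for every point `y` of the ball an explicit unitary matrix
`bst h y` with `bst e₂ = λ (y,1)`, `λ > 0`; and: a unitary matrix with entries bounded by `C`
moves the origin into a fixed compact subset of the ball.
-/

set_option autoImplicit false

namespace Pool.CMH.Jac

open Matrix

/-! ### reflections -/

/-- the covector `h(·,u)` -/
noncomputable def cov (h : Fin 3 → ℝ) (u : Fin 3 → ℂ) : Fin 3 → ℂ := fun j => star (u j) * (h j : ℂ)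

theorem cov_dot (h : Fin 3 → ℝ) (u : Fin 3 → ℂ) : cov h u ⬝ᵥ u = (Hn h u : ℂ) := by
  simp only [cov, dotProduct, Hn, RCLike.star_def]
  push_cast
  refine Finset.sum_congr rfl fun i _ => ?_
  rw [mul_right_comm, Complex.conj_mul', mul_comm]

/-- `2 P - 1`, `P` the orthogonal projection to `ℂ u` -/
noncomputable def nref (h : Fin 3 → ℝ) (u : Fin 3 → ℂ) : Matrix (Fin 3) (Fin 3) ℂ :=
  (2 * (Hn h u : ℂ)⁻¹) • vecMulVec u (cov h u) - 1

theorem isU_nref {h : Fin 3 → ℝ} {u : Fin 3 → ℂ} (hN : Hn h u ≠ 0) : IsU h (nref h u) := by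
  have hN' : (Hn h u : ℂ) ≠ 0 := by exact_mod_cast hN
  set D : Matrix (Fin 3) (Fin 3) ℂ := Matrix.diagonal (fun i => (h i : ℂ)) with hD
  set V : Matrix (Fin 3) (Fin 3) ℂ := vecMulVec u (cov h u) with hV
  set c : ℂ := 2 * (Hn h u : ℂ)⁻¹ with hc
  have hVV : V * V = (Hn h u : ℂ) • V := by
    rw [hV, Matrix.vecMulVec_mul_vecMulVec, cov_dot, Matrix.vecMulVec_smul]
  have hsc : star c = c := by
    rw [hc]; simp
  have hDV : Vᴴ * D = D * V := by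
    ext i j
    simp only [hV, hD, Matrix.mul_diagonal, Matrix.diagonal_mul, Matrix.conjTranspose_apply,
      vecMulVec_apply, cov]
    simp
    ring
  unfold IsU nref
  change (c • V - 1)ᴴ * D * (c • V - 1) = D
  rw [Matrix.conjTranspose_sub, Matrix.conjTranspose_smul, hsc, Matrix.conjTranspose_one,
    Matrix.sub_mul, Matrix.smul_mul, hDV, Matrix.one_mul, Matrix.sub_mul, Matrix.mul_sub,
    Matrix.mul_sub, Matrix.mul_one, Matrix.mul_one, Matrix.mul_smul, Matrix.smul_mul,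
    Matrix.mul_assoc, hVV, Matrix.mul_smul, Matrix.mul_smul, smul_smul, smul_smul]
  have : c * c * (Hn h u : ℂ) = c + c := by
    rw [hc]; field_simp; ring
  rw [this, add_smul]
  abel

theorem nref_mulVec (h : Fin 3 → ℝ) (u x : Fin 3 → ℂ) :
    nref h u *ᵥ x = (2 * (Hn h u : ℂ)⁻¹ * (cov h u ⬝ᵥ x)) • u - x := by
  rw [nref, Matrix.sub_mulVec, Matrix.one_mulVec, Matrix.smul_mulVec, Matrix.vecMulVec_mulVec]
  simp only [op_smul_eq_smul, smul_smul]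

/-! ### the boost -/

/-- `λ(y) = sqrt(|h₂| / H(y))` -/
noncomputable def lam (h : Fin 3 → ℝ) (y : Fin 2 → ℂ) : ℝ := Real.sqrt (-h 2 / Hf h y)

/-- `e₂ + λ Y` -/
noncomputable def uu (h : Fin 3 → ℝ) (y : Fin 2 → ℂ) : Fin 3 → ℂ :=
  Yv 0 + (lam h y : ℂ) • Yv y

/-- the boost -/
noncomputable def bst (h : Fin 3 → ℝ) (y : Fin 2 → ℂ) : Matrix (Fin 3) (Fin 3) ℂ :=
  nref h (uu h y)

theorem lam_pos {h : Fin 3 → ℝ} (hs : Sg h) {y : Fin 2 → ℂ} (hy : y ∈ Bl h) : 0 < lam h y := by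
  have h1 := (mem_Bl_iff_Hf h y).1 hy
  have h2 := hs.n2
  exact Real.sqrt_pos.2 (div_pos (by linarith) h1)

theorem lam_sq {h : Fin 3 → ℝ} (hs : Sg h) {y : Fin 2 → ℂ} (hy : y ∈ Bl h) :
    lam h y ^ 2 * Hf h y = - h 2 := by
  have h1 := (mem_Bl_iff_Hf h y).1 hy
  have h2 := hs.n2
  rw [lam, Real.sq_sqrt (div_nonneg (by linarith) h1.le)]
  field_simp

theorem Hn_uu {h : Fin 3 → ℝ} (hs : Sg h) {y : Fin 2 → ℂ} (hy : y ∈ Bl h) :
    Hn h (uu h y) = 2 * h 2 * (1 + lam h y) := by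
  have hl := lam_pos hs hy
  have h3 : ‖(1 : ℂ) + (lam h y : ℂ)‖ = 1 + lam h y := by
    rw [← Complex.ofReal_one, ← Complex.ofReal_add, Complex.norm_real, Real.norm_eq_abs,
      abs_of_pos (by linarith)]
  have h4 : Hn h (uu h y) = h 0 * (lam h y ^ 2 * ‖y 0‖ ^ 2) + h 1 * (lam h y ^ 2 * ‖y 1‖ ^ 2)
      + h 2 * (1 + lam h y) ^ 2 := by
    simp only [Hn, Fin.sum_univ_three, uu, Yv, Pi.add_apply, Pi.smul_apply, smul_eq_mul]
    simp only [Matrix.cons_val_zero, Matrix.cons_val_one, Matrix.cons_val, Pi.zero_apply, zero_add,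
      mul_one, norm_mul, Complex.norm_real, mul_pow, h3, Real.norm_eq_abs, sq_abs]
  have h5 := lam_sq hs hy
  rw [Hf, Hn_Yv] at h5
  rw [h4]
  linear_combination (-1 : ℝ) * h5

theorem cov_uu {h : Fin 3 → ℝ} (y : Fin 2 → ℂ) :
    cov h (uu h y) ⬝ᵥ Yv 0 = ((h 2 * (1 + lam h y) : ℝ) : ℂ) := by
  simp [cov, dotProduct, Fin.sum_univ_three, uu, Yv]
  ring

theorem isU_bst {h : Fin 3 → ℝ} (hs : Sg h) {y : Fin 2 → ℂ} (hy : y ∈ Bl h) :
    IsU h (bst h y) := by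
  refine isU_nref ?_
  rw [Hn_uu hs hy]
  have := lam_pos hs hy
  have := hs.n2
  have h1 : 2 * h 2 * (1 + lam h y) < 0 := by nlinarith
  exact h1.ne

theorem bst_mulVec {h : Fin 3 → ℝ} (hs : Sg h) {y : Fin 2 → ℂ} (hy : y ∈ Bl h) :
    bst h y *ᵥ Yv 0 = (lam h y : ℂ) • Yv y := by
  have hl := lam_pos hs hy
  have h2 := hs.n2
  rw [bst, nref_mulVec, cov_uu, Hn_uu hs hy]
  have h1 : (2 * (((2 * h 2 * (1 + lam h y) : ℝ) : ℂ))⁻¹ * ((h 2 * (1 + lam h y) : ℝ) : ℂ)) = 1 := by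
    rw [← Complex.ofReal_inv, ← Complex.ofReal_ofNat, ← Complex.ofReal_mul, ← Complex.ofReal_mul]
    norm_cast
    have h3 : h 2 ≠ 0 := h2.ne
    have h4 : 1 + lam h y ≠ 0 := by positivity
    field_simp
  rw [h1, one_smul, uu]
  abel

theorem jf_bst {h : Fin 3 → ℝ} (hs : Sg h) {y : Fin 2 → ℂ} (hy : y ∈ Bl h) :
    jf (bst h y) 0 = (lam h y : ℂ) := by
  rw [jf, bst_mulVec hs hy]
  simp [Yv]

theorem act_bst {h : Fin 3 → ℝ} (hs : Sg h) {y : Fin 2 → ℂ} (hy : y ∈ Bl h) :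
    act (bst h y) 0 = y := by
  have hl : (lam h y : ℂ) ≠ 0 := by exact_mod_cast (lam_pos hs hy).ne'
  have h1 := Yv_act (g := bst h y) (y := 0) (by rw [jf_bst hs hy]; exact hl)
  rw [jf_bst hs hy, bst_mulVec hs hy] at h1
  have h2 : (1 : ℂ) • Yv y = Yv (act (bst h y) 0) := by
    rw [one_smul]
    exact smul_right_injective _ hl h1
  exact (Yv_inj h2).2.symm

theorem norm_det_bst {h : Fin 3 → ℝ} (hs : Sg h) {y : Fin 2 → ℂ} (hy : y ∈ Bl h) :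
    ‖(bst h y).det‖ = 1 := (isU_bst hs hy).norm_det hs.ne

theorem zero_mem_Bl {h : Fin 3 → ℝ} (hs : Sg h) : (0 : Fin 2 → ℂ) ∈ Bl h := by
  simpa [Bl] using hs.n2

/-! ### bounded unitary matrices -/

theorem inv_apply_two {h : Fin 3 → ℝ} (hs : Sg h) {k : Matrix (Fin 3) (Fin 3) ℂ} (hk : IsU h k)
    (i : Fin 3) : (h i : ℂ) * k⁻¹ i 2 = star (k 2 i) * (h 2 : ℂ) := by
  have hu := hk.isUnit_det hs.ne
  have h1 : kᴴ * Matrix.diagonal (fun i => (h i : ℂ))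
      = Matrix.diagonal (fun i => (h i : ℂ)) * k⁻¹ := by
    have h2 : kᴴ * Matrix.diagonal (fun i => (h i : ℂ)) * k * k⁻¹
        = Matrix.diagonal (fun i => (h i : ℂ)) * k⁻¹ := by rw [hk]
    rwa [Matrix.mul_assoc, Matrix.mul_nonsing_inv k hu, Matrix.mul_one] at h2
  have h3 := congrFun (congrFun h1 i) 2
  rw [Matrix.mul_diagonal, Matrix.diagonal_mul, Matrix.conjTranspose_apply] at h3
  exact h3.symm

theorem jf_inv_zero {h : Fin 3 → ℝ} (hs : Sg h) {k : Matrix (Fin 3) (Fin 3) ℂ} (hk : IsU h k) :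
    jf k⁻¹ 0 = star (k 2 2) := by
  have h1 := inv_apply_two hs hk 2
  have h2 : (h 2 : ℂ) ≠ 0 := by exact_mod_cast hs.n2.ne
  rw [jf, mulVec_Yv]
  simp only [Pi.zero_apply, mul_zero, zero_add]
  have : (h 2 : ℂ) * (k⁻¹ 2 2 - star (k 2 2)) = 0 := by linear_combination h1
  rcases mul_eq_zero.1 this with h3 | h3
  · exact absurd h3 h2
  · exact sub_eq_zero.1 h3

/-- a unitary matrix moves the origin by an amount controlled by one entry -/
theorem Hf_act_inv_zero {h : Fin 3 → ℝ} (hs : Sg h) {k : Matrix (Fin 3) (Fin 3) ℂ}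
    (hk : IsU h k) : Hf h (act k⁻¹ 0) = - h 2 / ‖k 2 2‖ ^ 2 := by
  rw [Hf_act (hk.inv hs.ne) (jf_ne hs (hk.inv hs.ne) (zero_mem_Bl hs)), jf_inv_zero hs hk,
    norm_star]
  congr 1
  simp [Hf, Hn_Yv]

theorem le_Hf_act_inv_zero {h : Fin 3 → ℝ} (hs : Sg h) {k : Matrix (Fin 3) (Fin 3) ℂ}
    (hk : IsU h k) {C : ℝ} (hC : ‖k 2 2‖ ≤ C) : - h 2 / C ^ 2 ≤ Hf h (act k⁻¹ 0) := by
  rw [Hf_act_inv_zero hs hk]
  have h1 := jf_ne hs (hk.inv hs.ne) (zero_mem_Bl hs)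
  rw [jf_inv_zero hs hk] at h1
  have h2 : 0 < ‖k 2 2‖ := by
    rw [norm_pos_iff]
    intro h3
    rw [h3] at h1
    simp at h1
  have h3 : 0 < - h 2 := by have := hs.n2; linarith
  have h4 : ‖k 2 2‖ ^ 2 ≤ C ^ 2 := by
    have : 0 ≤ ‖k 2 2‖ := h2.le
    gcongr
  exact div_le_div_of_nonneg_left h3.le (by positivity) h4

/-- the compact sets `{H ≥ ε}` -/
theorem isCompact_Hf {h : Fin 3 → ℝ} (hs : Sg h) {ε : ℝ} (hε : 0 < ε) :
    IsCompact {y : Fin 2 → ℂ | ε ≤ Hf h y} := by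
  refine Metric.isCompact_of_isClosed_isBounded (isClosed_le continuous_const (continuous_Hf h)) ?_
  refine (Metric.isBounded_iff_subset_closedBall 0).2
    ⟨Real.sqrt (- h 2 / h 0) + Real.sqrt (- h 2 / h 1), fun y hy => ?_⟩
  rw [mem_closedBall_zero_iff]
  have h0 := hs.p0
  have h1 := hs.p1
  have h2 := hs.n2
  have hy' : ε ≤ -(h 0 * ‖y 0‖ ^ 2 + h 1 * ‖y 1‖ ^ 2 + h 2) := by
    have : ε ≤ Hf h y := hy
    rwa [Hf, Hn_Yv] at this
  have e0 : 0 ≤ h 0 * ‖y 0‖ ^ 2 := by positivity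
  have e1 : 0 ≤ h 1 * ‖y 1‖ ^ 2 := by positivity
  have n0 : ‖y 0‖ ≤ Real.sqrt (- h 2 / h 0) := by
    apply Real.le_sqrt_of_sq_le
    rw [le_div_iff₀ h0]
    linarith
  have n1 : ‖y 1‖ ≤ Real.sqrt (- h 2 / h 1) := by
    apply Real.le_sqrt_of_sq_le
    rw [le_div_iff₀ h1]
    linarith
  rw [pi_norm_le_iff_of_nonneg (by positivity)]
  intro i
  have s0 := Real.sqrt_nonneg (- h 2 / h 0)
  have s1 := Real.sqrt_nonneg (- h 2 / h 1)
  fin_cases i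
  · exact n0.trans (by linarith)
  · exact n1.trans (by linarith)

theorem Hf_subset_Bl {h : Fin 3 → ℝ} {ε : ℝ} (hε : 0 < ε) :
    {y : Fin 2 → ℂ | ε ≤ Hf h y} ⊆ Bl h := by
  intro y hy
  exact (mem_Bl_iff_Hf h y).2 (hε.trans_le hy)

/-- in terms of a point `y` and `γ`: if `k = γ-part` of `γ ∘ bst y` has bounded entries then
`act γ⁻¹`-moves; ready form: `k = (bst h y)⁻¹ * δ` unitary bounded ⟹ `act δ⁻¹ y` is in the compact set -/
theorem act_inv_mem_compact {h : Fin 3 → ℝ} (hs : Sg h) {y : Fin 2 → ℂ} (hy : y ∈ Bl h)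
    {δ : Matrix (Fin 3) (Fin 3) ℂ} (hδ : IsU h δ) {C : ℝ}
    (hC : ‖((bst h y)⁻¹ * δ) 2 2‖ ≤ C) : - h 2 / C ^ 2 ≤ Hf h (act δ⁻¹ y) := by
  have hb := isU_bst hs hy
  have hbi := hb.inv hs.ne
  have hk : IsU h ((bst h y)⁻¹ * δ) := hbi.mul hδ
  have h1 := le_Hf_act_inv_zero hs hk hC
  have h2 : ((bst h y)⁻¹ * δ)⁻¹ = δ⁻¹ * bst h y := by
    rw [Matrix.mul_inv_rev, Matrix.nonsing_inv_nonsing_inv _ (hb.isUnit_det hs.ne)]
  rwa [h2, act_mul_Bl hs hb (zero_mem_Bl hs), act_bst hs hy] at h1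

end Pool.CMH.Jac
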