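import Pool.Agent.Lib.CMH.Final
import Pool.Agent.Lib.CMH.Rows

/-!
# CMH, row FINX: the interfaces

`fx1_of : P1CR → PDX → COCX → FX1` (89, `FX1.lean`), `surf_of : P1ONE → PDX → COCX → FX1 → SURF`
(37, `FX2.lean`).
-/

set_option autoImplicit false

open scoped ComplexConjugate Matrix
open Complex

namespace Pool.Agent.CMH

noncomputable section

/-- input P1 (two-forms): one arithmetic group for all majorants. -/
def P1CR : Prop :=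
  ∀ (F : Type) [Field F] [NumberField F] [NumberField.IsTotallyReal F] (v₁ : F →+* ℝ) (D : F)
    (h : Fin 3 → F) (a : Fin 2 → F) (N : ℕ) (φ : (Fin 2 → Fin 3 → F) → ℂ),
    Good v₁ D h → (∀ i, a i ≠ 0) → (∀ i, 0 < v₁ (a i)) → SB2 N φ →
    ∃ Γ : Subgroup SL3, IsArith v₁ D h Γ ∧
      ∀ R : Maj F, (∀ v, IsMaj a v (R v)) → R v₁ = R0 a v₁ →
      ∀ g ∈ Γ, ∀ y ∈ ball (ev v₁ h),
        CR v₁ D h a R φ (actC g y) = (g.1 *ᵥ hat y) 2 ^ 3 * CR v₁ D h a R φ y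

/-- input P1 (one-forms). -/
def P1ONE : Prop :=
  ∀ (F : Type) [Field F] [NumberField F] [NumberField.IsTotallyReal F] (v₁ : F →+* ℝ) (D : F)
    (h : Fin 3 → F) (a : F) (φ : (Fin 3 → F) → ℂ),
    Good v₁ D h → 0 < v₁ a → IsSB φ →
    ∃ Γ : Subgroup SL3, IsArith v₁ D h Γ ∧ InvOne (ev v₁ h) Γ (theta v₁ D h a φ)

/-- input PD: proper discontinuity of arithmetic groups. -/
def PDX : Prop :=
  ∀ (F : Type) [Field F] [NumberField F] [NumberField.IsTotallyReal F] (v₁ : F →+* ℝ) (D : F)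
    (h : Fin 3 → F) (Γ : Subgroup SL3), Good v₁ D h → IsArith v₁ D h Γ →
    ∀ C : Set (Fin 2 → ℂ), IsCompact C → C ⊆ ball (ev v₁ h) →
      {g : Γ | ∃ y ∈ C, actC g.1 y ∈ C}.Finite

/-- input COC: compactness. -/
def COCX : Prop :=
  ∀ (F : Type) [Field F] [NumberField F] [NumberField.IsTotallyReal F] (v₁ : F →+* ℝ) (D : F)
    (h : Fin 3 → F) (Γ : Subgroup SL3), Good v₁ D h → (∃ v : F →+* ℝ, v ≠ v₁) →
    IsArith v₁ D h Γ → Cocompact (ev v₁ h) Γ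

/-- The interface between 89 and 37: one group `Γ`, one `b`, finitely many pairs `ψ k`, and for
every smaller arithmetic group and every weight of it some `k` has a nonzero integral. -/
def FX1 : Prop :=
  ∀ (F : Type) [Field F] [NumberField F] [NumberField.IsTotallyReal F] (v₁ : F →+* ℝ) (D : F)
    (Φ₁ Φ₂ Φ₃ Φ₄ : CMType F), IsIntegral ℤ D → (∀ v : F →+* ℝ, 0 < v D) →
    (∃ v : F →+* ℝ, v ≠ v₁) →
    Φ₁ v₁ = true → Φ₂ v₁ = true → Φ₃ v₁ = false → Φ₄ v₁ = false →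
    Balanced ({Φ₁, Φ₂, Φ₃, Φ₄} : Multiset (CMType F)) →
    ∃ (h : Fin 3 → F) (Γ : Subgroup SL3) (a b : Fin 2 → F) (φ : Fin 2 → (Fin 3 → F) → ℂ)
      (K : ℕ) (ψ : Fin K → Fin 2 → (Fin 3 → F) → ℂ),
      Good v₁ D h ∧ (∀ i, 0 < v₁ (a i) ∧ 0 < v₁ (b i)) ∧
      sgn (a 0) = Φ₁ ∧ sgn (a 1) = Φ₂ ∧ sgn (b 0) = bar Φ₃ ∧ sgn (b 1) = bar Φ₄ ∧
      (∀ i, IsSB (φ i)) ∧ (∀ k i, IsSB (ψ k i)) ∧ IsArith v₁ D h Γ ∧
      ∀ Γ' : Subgroup SL3, Γ' ≤ Γ → IsArith v₁ D h Γ' →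
      ∀ χ : (Fin 2 → ℂ) → ℝ, IsWt (ev v₁ h) Γ' χ →
      ∃ k, ∫ y : Fin 2 → ℂ, (χ y : ℂ) *
        (wedge (theta v₁ D h (a 0) (φ 0)) (theta v₁ D h (a 1) (φ 1)) y *
          conj (wedge (theta v₁ D h (b 0) (ψ k 0)) (theta v₁ D h (b 1) (ψ k 1)) y)) ≠ 0

end

end Pool.Agent.CMH
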