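import Pool.Agent.Lib.CMH.Defs

/-! TANK CMH: the invariant measure `H^(-3) dλ` on the ball (as a type).  helper89. -/

set_option autoImplicit false

namespace Pool.Agent.CMH

open MeasureTheory Filter Topology ComplexConjugate

noncomputable section

/-- `H(y) = -(k₀|y₀|² + k₁|y₁|² + k₂)`, positive on the ball. -/
def Hn (k : Fin 3 → ℝ) (y : Fin 2 → ℂ) : ℝ := -(k 0 * ‖y 0‖ ^ 2 + k 1 * ‖y 1‖ ^ 2 + k 2)

theorem Hn_pos {k : Fin 3 → ℝ} {y : Fin 2 → ℂ} (hy : y ∈ ball k) : 0 < Hn k y := by
  unfold Hn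
  have : k 0 * ‖y 0‖ ^ 2 + k 1 * ‖y 1‖ ^ 2 + k 2 < 0 := hy
  linarith

theorem Hn_continuous (k : Fin 3 → ℝ) : Continuous (Hn k) := by
  unfold Hn
  fun_prop

theorem ball_isOpen (k : Fin 3 → ℝ) : IsOpen (ball k) := by
  have h : ball k = {y | 0 < Hn k y} := by
    ext y
    unfold ball Hn
    simp only [Set.mem_ofPred_eq]
    constructor <;> intro h <;> linarith
  rw [h]
  exact isOpen_lt continuous_const (Hn_continuous k)

/-- the density. -/
def dens (k : Fin 3 → ℝ) (y : ball k) : NNReal := Real.toNNReal ((Hn k y.1 ^ 3)⁻¹)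

theorem dens_continuous (k : Fin 3 → ℝ) : Continuous (dens k) := by
  unfold dens
  refine continuous_real_toNNReal.comp (Continuous.inv₀ ?_ fun y => ?_)
  · exact ((Hn_continuous k).comp continuous_subtype_val).pow 3
  · exact pow_ne_zero 3 (Hn_pos y.2).ne'

/-- the measure `H^(-3) dλ` on the ball. -/
def muB (k : Fin 3 → ℝ) : Measure (ball k) :=
  (Measure.comap Subtype.val (volume : Measure (Fin 2 → ℂ))).withDensity
    (fun y => (dens k y : ENNReal))

instance (k : Fin 3 → ℝ) : LocallyCompactSpace (ball k) := (ball_isOpen k).locallyCompactSpace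

theorem comap_finite (k : Fin 3 → ℝ) : IsFiniteMeasureOnCompacts
    (Measure.comap (Subtype.val : ball k → _) (volume : Measure (Fin 2 → ℂ))) := by
  constructor
  intro K hK
  rw [(MeasurableEmbedding.subtype_coe (ball_isOpen k).measurableSet).comap_apply]
  exact (hK.image continuous_subtype_val).measure_lt_top

instance muB_finite (k : Fin 3 → ℝ) : IsFiniteMeasureOnCompacts (muB k) := by
  have := comap_finite k
  constructor
  intro K hK
  unfold muB
  rw [withDensity_apply _ hK.measurableSet]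
  obtain ⟨M, hM⟩ := hK.exists_bound_of_continuousOn (f := fun y => (dens k y : ℝ))
    (NNReal.continuous_coe.comp (dens_continuous k)).continuousOn
  have h1 : ∀ y ∈ K, (dens k y : ENNReal) ≤ ENNReal.ofReal M := by
    intro y hy
    have h2 := hM y hy
    rw [Real.norm_of_nonneg (NNReal.coe_nonneg _)] at h2
    rw [← ENNReal.ofReal_coe_nnreal]
    exact ENNReal.ofReal_le_ofReal h2
  calc ∫⁻ y in K, (dens k y : ENNReal) ∂(Measure.comap Subtype.val volume)
      ≤ ∫⁻ _ in K, ENNReal.ofReal M ∂(Measure.comap Subtype.val volume) :=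
        setLIntegral_mono' hK.measurableSet h1
    _ = ENNReal.ofReal M * (Measure.comap Subtype.val volume) K := by
        rw [setLIntegral_const]
    _ < ⊤ := ENNReal.mul_lt_top ENNReal.ofReal_lt_top hK.measure_lt_top

theorem comap_open (k : Fin 3 → ℝ) : (Measure.comap (Subtype.val : ball k → _)
    (volume : Measure (Fin 2 → ℂ))).IsOpenPosMeasure := by
  constructor
  intro U hU hne
  rw [(MeasurableEmbedding.subtype_coe (ball_isOpen k).measurableSet).comap_apply]
  have h1 : IsOpen (Subtype.val '' U) := (ball_isOpen k).isOpenMap_subtype_val U hU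
  exact (h1.measure_pos volume (hne.image _)).ne'

instance muB_open (k : Fin 3 → ℝ) : (muB k).IsOpenPosMeasure := by
  have := comap_open k
  constructor
  intro U hU hne h0
  unfold muB at h0
  rw [withDensity_apply _ hU.measurableSet, lintegral_eq_zero_iff] at h0
  · have h1 : ∀ᵐ y ∂(Measure.comap (Subtype.val : ball k → _)
        (volume : Measure (Fin 2 → ℂ))).restrict U, False := by
      filter_upwards [h0] with y hy
      simp only [Pi.zero_apply, ENNReal.coe_eq_zero] at hy
      have h2 : 0 < (Hn k y.1 ^ 3)⁻¹ := inv_pos.2 (pow_pos (Hn_pos y.2) 3)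
      unfold dens at hy
      rw [Real.toNNReal_eq_zero] at hy
      linarith
    rw [eventually_false_iff_eq_bot, ae_eq_bot, Measure.restrict_eq_zero] at h1
    exact (hU.measure_pos _ hne).ne' h1
  · exact (dens_continuous k).measurable.coe_nnreal_ennreal

/-- integration against `muB`, back to Lebesgue measure. -/
theorem int_muB (k : Fin 3 → ℝ) (χ : (Fin 2 → ℂ) → ℝ) (hχ : tsupport χ ⊆ ball k)
    (f : (Fin 2 → ℂ) → ℂ) :
    ∫ y : ball k, (χ y.1 : ℂ) * (f y.1 * ((Hn k y.1 ^ 3 : ℝ) : ℂ)) ∂(muB k) =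
      ∫ y : Fin 2 → ℂ, (χ y : ℂ) * f y := by
  unfold muB
  rw [integral_withDensity_eq_integral_smul (dens_continuous k).measurable]
  have h1 : ∫ y : ball k, dens k y • ((χ y.1 : ℂ) * (f y.1 * ((Hn k y.1 ^ 3 : ℝ) : ℂ)))
      ∂(Measure.comap Subtype.val (volume : Measure (Fin 2 → ℂ))) =
      ∫ y : ball k, (χ y.1 : ℂ) * f y.1
        ∂(Measure.comap Subtype.val (volume : Measure (Fin 2 → ℂ))) := by
    refine integral_congr_ae (Eventually.of_forall fun y => ?_)
    have h2 : 0 < Hn k y.1 ^ 3 := pow_pos (Hn_pos y.2) 3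
    have h3 : ((dens k y : ℝ) : ℂ) * ((Hn k y.1 ^ 3 : ℝ) : ℂ) = 1 := by
      rw [← Complex.ofReal_mul]
      unfold dens
      rw [Real.coe_toNNReal _ (inv_pos.2 h2).le, inv_mul_cancel₀ h2.ne', Complex.ofReal_one]
    simp only [NNReal.smul_def, Complex.real_smul]
    calc ((dens k y : ℝ) : ℂ) * ((χ y.1 : ℂ) * (f y.1 * ((Hn k y.1 ^ 3 : ℝ) : ℂ)))
        = (((dens k y : ℝ) : ℂ) * ((Hn k y.1 ^ 3 : ℝ) : ℂ)) * ((χ y.1 : ℂ) * f y.1) := by ring
      _ = _ := by rw [h3, one_mul]
  rw [h1]
  have h4 := integral_subtype_comap (μ := (volume : Measure (Fin 2 → ℂ)))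
    (ball_isOpen k).measurableSet (fun y => (χ y : ℂ) * f y)
  rw [h4]
  refine setIntegral_eq_integral_of_forall_compl_eq_zero fun y hy => ?_
  have h5 : χ y = 0 := by
    by_contra h6
    exact hy (hχ (subset_tsupport χ h6))
  simp [h5]

end

end Pool.Agent.CMH
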