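import Pool.Agent.Lib.CMH.Jac
import Pool.Agent.Lib.CMH.Meas
import Pool.Agent.Lib.CMH.Final

/-!
# CMH: bridges from `Pool.CMH.Jac` to the final definitions (helper37)
-/

set_option autoImplicit false

namespace Pool.Agent.CMH.JB

open MeasureTheory Matrix ComplexConjugate Pool.CMH

noncomputable section

theorem hat_eq (y : Fin 2 → ℂ) : hat y = Jac.Yv y := rfl

theorem ball_eq (k : Fin 3 → ℝ) : ball k = Jac.Bl k := rfl

theorem actC_eq_act (g : SL3) : actC g = Jac.act g.1 := rfl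

theorem Hn_eq_Hf (k : Fin 3 → ℝ) (y : Fin 2 → ℂ) : Hn k y = Jac.Hf k y := by
  rw [Jac.Hf, Jac.Hn_Yv, Hn]

/-- `ev v₁ h` for a hermitian form of the right signature. -/
theorem sg_ev {F : Type} [Field F] {v₁ : F →+* ℝ} {h : Fin 3 → F} (h0 : 0 < v₁ (h 0))
    (h1 : 0 < v₁ (h 1)) (h2 : v₁ (h 2) < 0) : Jac.Sg (ev v₁ h) := ⟨h0, h1, h2⟩

section unitary

variable {F : Type} [Field F]

theorem isU_of_inSU {v : F →+* ℝ} {D : F} {h : Fin 3 → F} {g : SL3} (hg : InSU v D h g) :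
    Jac.IsU (ev v h) g.1 := hg.2

theorem isU_of_mem {v : F →+* ℝ} {D : F} {h : Fin 3 → F} {Γ : Subgroup SL3}
    (hΓ : IsArith v D h Γ) {g : SL3} (hg : g ∈ Γ) : Jac.IsU (ev v h) g.1 :=
  isU_of_inSU (hΓ.le g hg)

theorem le_SUh {v : F →+* ℝ} {D : F} {h : Fin 3 → F} {Γ : Subgroup SL3}
    (hΓ : IsArith v D h Γ) (hs : Jac.Sg (ev v h)) : Γ ≤ Jac.SUh (ev v h) hs.ne := fun _ hg =>
  isU_of_mem hΓ hg

end unitary

variable {k : Fin 3 → ℝ} (hs : Jac.Sg k)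

include hs

theorem jf_ne' {g : SL3} (hg : Jac.IsU k g.1) {y : Fin 2 → ℂ} (hy : y ∈ ball k) :
    (g.1 *ᵥ hat y) 2 ≠ 0 := Jac.jf_ne hs hg hy

theorem actC_mem {g : SL3} (hg : Jac.IsU k g.1) {y : Fin 2 → ℂ} (hy : y ∈ ball k) :
    actC g y ∈ ball k := Jac.act_mem_Bl hs hg hy

theorem actC_mul {g g' : SL3} (hg' : Jac.IsU k g'.1) {y : Fin 2 → ℂ} (hy : y ∈ ball k) :
    actC (g * g') y = actC g (actC g' y) := by
  change Jac.act (g * g').1 y = Jac.act g.1 (Jac.act g'.1 y)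
  rw [Matrix.SpecialLinearGroup.coe_mul]
  exact Jac.act_mul_Bl hs hg' hy

omit hs in
theorem actC_one (y : Fin 2 → ℂ) : actC 1 y = y := by
  change Jac.act (1 : SL3).1 y = y
  rw [Matrix.SpecialLinearGroup.coe_one, Jac.act_one]

/-- the entries of the derivative of `actC g` at `y`. -/
theorem fderiv_actC {g : SL3} (hg : Jac.IsU k g.1) {y : Fin 2 → ℂ} (hy : y ∈ ball k)
    (i j : Fin 2) :
    fderiv ℂ (fun z => actC g z i) y (Pi.single j 1) = Jac.dmat g.1 y i j := by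
  have h1 := Jac.hasFDerivAt_act g.1 (Jac.jf_ne hs hg hy)
  rw [hasFDerivAt_pi'] at h1
  have h2 := (h1 i).fderiv
  have h3 : fderiv ℂ (fun z => actC g z i) y = ContinuousLinearMap.proj i ∘L Jac.dact g.1 y := h2
  rw [h3]
  simp [Jac.dact, Matrix.col_apply]

/-- `fderiv` of `actC g` entries, explicit. -/
theorem fderiv_actC' {g : SL3} (hg : Jac.IsU k g.1) {y : Fin 2 → ℂ} (hy : y ∈ ball k)
    (i j : Fin 2) :
    fderiv ℂ (fun z => actC g z i) y (Pi.single j 1) =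
      (g.1 i.castSucc j.castSucc * (g.1 *ᵥ hat y) 2 -
        (g.1 *ᵥ hat y) i.castSucc * g.1 2 j.castSucc) / (g.1 *ᵥ hat y) 2 ^ 2 :=
  fderiv_actC hs hg hy i j

/-- The wedge product of two invariant one-forms transforms with the factor `j³`. -/
theorem wedge_actC {Γ : Subgroup SL3} {α β : Fin 2 → (Fin 2 → ℂ) → ℂ}
    (hα : InvOne k Γ α) (hβ : InvOne k Γ β) {g : SL3} (hΓ : g ∈ Γ) (hg : Jac.IsU k g.1)
    {y : Fin 2 → ℂ} (hy : y ∈ ball k) :
    wedge α β (actC g y) = (g.1 *ᵥ hat y) 2 ^ 3 * wedge α β y := by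
  have hj : Jac.jf g.1 y ≠ 0 := Jac.jf_ne hs hg hy
  have a0 := hα g hΓ y hy 0
  have a1 := hα g hΓ y hy 1
  have b0 := hβ g hΓ y hy 0
  have b1 := hβ g hΓ y hy 1
  simp only [Fin.sum_univ_two, fderiv_actC hs hg hy] at a0 a1 b0 b1
  have hd := Jac.det_dmat g.1 hj
  rw [g.2, Matrix.det_fin_two] at hd
  have e : wedge α β y = wedge α β (actC g y) * (1 / Jac.jf g.1 y ^ 3) := by
    rw [← hd]
    simp only [wedge]
    rw [← a0, ← a1, ← b0, ← b1]
    ring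
  rw [e]
  change _ = Jac.jf g.1 y ^ 3 * _
  field_simp

/-- The invariant `(2,2)`-form: `A conj B` times `H³` is invariant. -/
theorem wedge2_inv {A B : (Fin 2 → ℂ) → ℂ} {g : SL3} (hg : Jac.IsU k g.1)
    {y : Fin 2 → ℂ} (hy : y ∈ ball k)
    (hA : A (actC g y) = (g.1 *ᵥ hat y) 2 ^ 3 * A y)
    (hB : B (actC g y) = (g.1 *ᵥ hat y) 2 ^ 3 * B y) :
    A (actC g y) * conj (B (actC g y)) * ((Hn k (actC g y) ^ 3 : ℝ) : ℂ) =
      A y * conj (B y) * ((Hn k y ^ 3 : ℝ) : ℂ) := by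
  have hj : Jac.jf g.1 y ≠ 0 := Jac.jf_ne hs hg hy
  have hH : Hn k (actC g y) = Hn k y / ‖(g.1 *ᵥ hat y) 2‖ ^ 2 := by
    rw [Hn_eq_Hf, Hn_eq_Hf]
    exact Jac.Hf_act hg hj
  rw [hA, hB, hH]
  have hj' : (g.1 *ᵥ hat y) 2 ≠ 0 := hj
  have hn : ((‖(g.1 *ᵥ hat y) 2‖ : ℝ) : ℂ) ≠ 0 := by
    simpa using hj'
  have h1 : (g.1 *ᵥ hat y) 2 * conj ((g.1 *ᵥ hat y) 2) = ((‖(g.1 *ᵥ hat y) 2‖ ^ 2 : ℝ) : ℂ) := by
    rw [Complex.mul_conj, Complex.normSq_eq_norm_sq]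
  rw [map_mul, map_pow]
  push_cast at h1 ⊢
  rw [div_pow]
  field_simp
  generalize (g.1 *ᵥ hat y) 2 = J at h1 hn ⊢
  generalize conj J = J' at h1 ⊢
  generalize ((‖J‖ : ℝ) : ℂ) = n at h1 hn ⊢
  linear_combination (A y * conj (B y) * (Hn k y : ℂ) ^ 3) *
    ((J * J') ^ 2 + (J * J') * n ^ 2 + n ^ 4) * h1

/-- 89's measure is the measure of `Jac`. -/
theorem muB_eq : muB k = Jac.muB k := by
  have _ := hs
  have hme := MeasurableEmbedding.subtype_coe (ball_isOpen k).measurableSet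
  ext s hms
  have hms' : MeasurableSet ((↑) '' s : Set (Fin 2 → ℂ)) := hme.measurableSet_image.2 hms
  have hsub : ((↑) '' s : Set (Fin 2 → ℂ)) ⊆ ball k := by
    rintro _ ⟨y, _, rfl⟩; exact y.2
  have e1 : Jac.muB k s = Jac.mu k ((↑) '' s) := Jac.muB_apply k
  refine Eq.trans ?_ e1.symm
  rw [Jac.mu, withDensity_apply _ hms', muB, withDensity_apply _ hms]
  have h1 : (volume.restrict (Jac.Bl k)).restrict ((↑) '' s : Set (Fin 2 → ℂ)) =
      volume.restrict ((↑) '' s : Set (Fin 2 → ℂ)) := by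
    rw [Measure.restrict_restrict hms']
    congr 1
    exact Set.inter_eq_left.2 hsub
  rw [h1]
  have h2 : Measure.map (Subtype.val : ball k → _)
      ((Measure.comap Subtype.val (volume : Measure (Fin 2 → ℂ))).restrict s) =
      volume.restrict ((↑) '' s : Set (Fin 2 → ℂ)) := by
    have h3 := hme.map_comap (volume : Measure (Fin 2 → ℂ))
    ext t ht
    rw [Measure.map_apply hme.measurable ht, Measure.restrict_apply (hme.measurable ht),
      Measure.restrict_apply ht, hme.comap_apply]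
    congr 1
    ext y
    constructor
    · rintro ⟨z, ⟨hz1, hz2⟩, rfl⟩
      exact ⟨hz1, ⟨z, hz2, rfl⟩⟩
    · rintro ⟨hy1, ⟨z, hz2, rfl⟩⟩
      exact ⟨z, ⟨hy1, hz2⟩, rfl⟩
  rw [← h2, hme.lintegral_map]
  refine lintegral_congr fun y => ?_
  rw [dens, ← Hn_eq_Hf]
  rfl

/-- A subgroup of `U(h)` acts on the ball. -/
@[reducible] def mulActionBall (Γ : Subgroup SL3) (hΓ : ∀ g ∈ Γ, Jac.IsU k g.1) :
    MulAction Γ (ball k) where
  smul g y := ⟨actC g.1 y, actC_mem hs (hΓ g.1 g.2) y.2⟩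
  one_smul y := Subtype.ext (actC_one y.1)
  mul_smul g g' y := Subtype.ext (actC_mul hs (hΓ g'.1 g'.2) y.2)

theorem smul_ball_coe (Γ : Subgroup SL3) (hΓ : ∀ g ∈ Γ, Jac.IsU k g.1) (g : Γ) (y : ball k) :
    letI := mulActionBall hs Γ hΓ
    ((g • y : ball k) : Fin 2 → ℂ) = actC g.1 y.1 := rfl

theorem continuousConstSMul_ball (Γ : Subgroup SL3) (hΓ : ∀ g ∈ Γ, Jac.IsU k g.1) :
    letI := mulActionBall hs Γ hΓ
    ContinuousConstSMul Γ (ball k) := by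
  let _ := mulActionBall hs Γ hΓ
  exact ⟨fun g => Jac.continuous_actB hs (hΓ g.1 g.2)⟩

theorem smulInvariant_muB (Γ : Subgroup SL3) (hΓ : ∀ g ∈ Γ, Jac.IsU k g.1) :
    letI := mulActionBall hs Γ hΓ
    SMulInvariantMeasure Γ (ball k) (muB k) := by
  let _ := mulActionBall hs Γ hΓ
  refine ⟨fun g s hms => ?_⟩
  rw [muB_eq hs]
  exact (Jac.measurePreserving_actB hs (hΓ g.1 g.2)).measure_preimage hms.nullMeasurableSet

end

end Pool.Agent.CMH.JB
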