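import Pool.Agent.Lib.CMH.Rows
import Pool.Agent.Lib.CMH.P1Defs

/-!
# TANK CMH, P1: from the number field and the ball to the Siegel space. Definitions
-/

set_option autoImplicit false

namespace Pool.CMH

open Matrix Complex Real
open Pool.Agent.CMH (hat pr w s ds ball ev form Mat Gam cmat gy act Good SB2 Maj IsMaj R0 gauss
  gauss2 Del CR IsSB GRP)

noncomputable section

/-! ### transport of blocks over the places to one big matrix -/

section transport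

variable {m V κ : Type} [Fintype m] [Fintype V] [Fintype κ]

/-- `𝔼ᵀ B 𝔼` -/
def tU (W : Matrix V κ ℝ) (B : V → Matrix m m ℂ) : Matrix (m × κ) (m × κ) ℂ :=
  fun p q => ∑ v, (W v p.2 : ℂ) * B v p.1 q.1 * (W v q.2 : ℂ)
/-- `𝔼⁻¹ B 𝔼` -/
def tD (W : Matrix V κ ℝ) (W' : Matrix κ V ℝ) (B : V → Matrix m m ℂ) :
    Matrix (m × κ) (m × κ) ℂ :=
  fun p q => ∑ v, (W' p.2 v : ℂ) * B v p.1 q.1 * (W v q.2 : ℂ)
/-- `𝔼ᵀ B 𝔼⁻ᵀ` -/
def tA (W : Matrix V κ ℝ) (W' : Matrix κ V ℝ) (B : V → Matrix m m ℂ) :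
    Matrix (m × κ) (m × κ) ℂ :=
  fun p q => ∑ v, (W v p.2 : ℂ) * B v p.1 q.1 * (W' q.2 v : ℂ)
/-- `𝔼⁻¹ B 𝔼⁻ᵀ` -/
def tC (W' : Matrix κ V ℝ) (B : V → Matrix m m ℂ) : Matrix (m × κ) (m × κ) ℂ :=
  fun p q => ∑ v, (W' p.2 v : ℂ) * B v p.1 q.1 * (W' q.2 v : ℂ)
/-- `𝔼ᵀ` of the vector `e` placed at `v` -/
def vv (W : Matrix V κ ℝ) (v : V) (e : m → ℂ) : m × κ → ℂ := fun p => (W v p.2 : ℂ) * e p.1

/-- the four block identities -/
structure Bl (W : Matrix V κ ℝ) (W' : Matrix κ V ℝ)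
    (M : Matrix ((m × κ) ⊕ (m × κ)) ((m × κ) ⊕ (m × κ)) ℤ) (A B C D : V → Matrix m m ℂ) :
    Prop where
  hA : bA M = tA W W' A
  hB : bB M = (2 : ℂ) • tU W B
  hC : bC M = (2 : ℂ)⁻¹ • tC W' C
  hD : bD M = tD W W' D

end transport

variable {F : Type} [Field F] [NumberField F]

/-- index set of a `ℤ`-basis of the ring of integers -/
abbrev KF (F : Type) [Field F] [NumberField F] : Type :=
  Module.Free.ChooseBasisIndex ℤ (NumberField.RingOfIntegers F)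

/-- the `ℤ`-basis of the ring of integers -/
def om (p : KF F) : F := NumberField.integralBasis F p

/-- `W v p = v (ω_p)` -/
def Wm (F : Type) [Field F] [NumberField F] : Matrix (F →+* ℝ) (KF F) ℝ := fun v p => v (om p)

/-- the inverse of `W` -/
def Wi (F : Type) [Field F] [NumberField F] : Matrix (KF F) (F →+* ℝ) ℝ :=
  letI := Classical.decEq (KF F)
  ((Wm F)ᵀ * Wm F)⁻¹ * (Wm F)ᵀ

variable {J : Type} [Fintype J] [DecidableEq J]

/-- a vector of `ℂ³` placed in the row `i` -/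
def row (i : J) (e : Fin 3 → ℂ) : J × Fin 3 → ℂ := fun p => if p.1 = i then e p.2 else 0

open Classical in
/-- the point of the Siegel space of genus `3 |J|` at the place `v` -/
def Zp (v₁ : F →+* ℝ) (D : F) (h : Fin 3 → F) (a : J → F) (R : (F →+* ℝ) → Matrix J J ℝ)
    (y : Fin 2 → ℂ) (v : F →+* ℝ) : Matrix (J × Fin 3) (J × Fin 3) ℂ :=
  fun p q => (I / (√(v D) : ℂ)) *
    (if v = v₁ then
      (if p.1 = q.1 then (v (a p.1) : ℂ) else 0) *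
        ((if p.2 = q.2 then (v (h p.2) : ℂ) else 0) +
          2 * (v (h p.2) : ℂ) * (v (h q.2) : ℂ) * hat y p.2 * hat y q.2 / w (ev v₁ h) y ^ 2)
    else (R v p.1 q.1 : ℂ) * (if p.2 = q.2 then (v (h p.2) : ℂ) else 0))

/-- the point of the big Siegel space -/
def ZZ (v₁ : F →+* ℝ) (D : F) (h : Fin 3 → F) (a : J → F) (R : (F →+* ℝ) → Matrix J J ℝ)
    (y : Fin 2 → ℂ) : Matrix ((J × Fin 3) × KF F) ((J × Fin 3) × KF F) ℂ :=
  (2 : ℂ) • tU (Wm F) (Zp v₁ D h a R y)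

/-! ### the symplectic matrix of `X + √(-D) Y` over `F` -/

/-- the product of pairs -/
def mulM (D : F) (g g' : Mat F) : Mat F :=
  (g.1 * g'.1 - D • (g.2 * g'.2), g.1 * g'.2 + g.2 * g'.1)

def sA (J : Type) [DecidableEq J] (h : Fin 3 → F) (g : Mat F) :
    Matrix (J × Fin 3) (J × Fin 3) F :=
  fun p q => if p.1 = q.1 then h p.2 * g.1 p.2 q.2 * (h q.2)⁻¹ else 0
def sB (h : Fin 3 → F) (a : J → F) (g : Mat F) : Matrix (J × Fin 3) (J × Fin 3) F :=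
  fun p q => if p.1 = q.1 then a p.1 * h p.2 * g.2 p.2 q.2 else 0
def sC (D : F) (h : Fin 3 → F) (a : J → F) (g : Mat F) : Matrix (J × Fin 3) (J × Fin 3) F :=
  fun p q => if p.1 = q.1 then -(D * g.2 p.2 q.2 * (a q.1 * h q.2)⁻¹) else 0
def sD (J : Type) [DecidableEq J] (g : Mat F) : Matrix (J × Fin 3) (J × Fin 3) F :=
  fun p q => if p.1 = q.1 then g.1 p.2 q.2 else 0

/-- the image of a matrix over `F` at the place `v` -/
def atv (B : Matrix (J × Fin 3) (J × Fin 3) F) (v : F →+* ℝ) :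
    Matrix (J × Fin 3) (J × Fin 3) ℂ := B.map (fun x => (v x : ℂ))

/-- the integral matrix `M` belongs to `g` -/
def Rep (D : F) (h : Fin 3 → F) (a : J → F) (g : Mat F)
    (M : Matrix (((J × Fin 3) × KF F) ⊕ ((J × Fin 3) × KF F))
      (((J × Fin 3) × KF F) ⊕ ((J × Fin 3) × KF F)) ℤ) : Prop :=
  Bl (Wm F) (Wi F) M (atv (sA J h g)) (atv (sB h a g)) (atv (sC D h a g)) (atv (sD J g))

/-! ### the ball -/

/-- the coefficients of `x ↦ ds k x j y` -/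
def ed (k : Fin 3 → ℝ) (j : Fin 2) (y : Fin 2 → ℂ) : Fin 3 → ℂ := fun l =>
  (if l = j.castSucc then (k j.castSucc : ℂ) else 0) / w k y
    + (k l : ℂ) * hat y l * ((k j.castSucc : ℂ) * y j) / w k y ^ 3

/-- `∂ (g y)_l / ∂ y_j` -/
def dact (v : F →+* ℝ) (D : F) (g : Mat F) (y : Fin 2 → ℂ) (l j : Fin 2) : ℂ :=
  (cmat v D g l.castSucc j.castSucc * gy v D g y 2 -
    gy v D g y l.castSucc * cmat v D g 2 j.castSucc) / gy v D g y 2 ^ 2

/-- `j(g,y) w(g y) / w(y)` -/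
def cE (v₁ : F →+* ℝ) (D : F) (h : Fin 3 → F) (g : Mat F) (y : Fin 2 → ℂ) : ℂ :=
  gy v₁ D g y 2 * w (ev v₁ h) (act v₁ D g y) / w (ev v₁ h) y

/-! ### functions of level `N` -/

/-- Schwartz-Bruhat functions of level `N` on `F^(J × 3)` -/
def SBJ (N : ℕ) (φ : (J → Fin 3 → F) → ℂ) : Prop :=
  0 < N ∧ (∀ ξ, φ ξ ≠ 0 → ∀ i j, IsIntegral ℤ ((N : F) * ξ i j)) ∧
    ∀ ξ η : J → Fin 3 → F, (∀ i j, IsIntegral ℤ (η i j)) →
      φ (fun i j => ξ i j + (N : F) * η i j) = φ ξ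

/-- the lattice point with coordinates `x` -/
def lat (N : ℕ) (x : (J × Fin 3) × KF F → ℤ) : J → Fin 3 → F :=
  fun i k => (N : F)⁻¹ * ∑ p, (x ((i, k), p) : F) * om p

/-- `φ'` is `φ` in integral coordinates -/
def Lev (N : ℕ) (φ : (J → Fin 3 → F) → ℂ)
    (φ' : ((J × Fin 3) × KF F → ZMod (2 * N ^ 2)) → ℂ) : Prop :=
  ∀ x, φ' (red (2 * N ^ 2) x) = φ (lat N x)

/-- one-parameter families of majorants of `diag(q₀, q₁)` -/
def Rmaj (q₀ q₁ t : ℝ) : Matrix (Fin 2) (Fin 2) ℝ :=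
  if 0 < q₀ * q₁ then !![|q₀|, 0; 0, |q₁|]
  else !![|q₀| * Real.cosh t, √|q₀ * q₁| * Real.sinh t; √|q₀ * q₁| * Real.sinh t,
    |q₁| * Real.cosh t]

end

end Pool.CMH
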