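import Pool.Agent.Lib.CMH.Adp
import Pool.Agent.Lib.CMH.JacBr
import Pool.Agent.Lib.CMH.FX0
import Pool.Agent.Lib.CMH.P1Geo

/-!
# CMH: the bridges `P1CR` and `P1ONE` (helper94) from 97's `P1_two` and `P1_one`
-/

set_option autoImplicit false

open scoped ComplexConjugate Matrix
open Complex

namespace Pool.Agent.CMH

open Pool.CMH (mulM dact SBJ)

noncomputable section

/-- 97's `P1_one`. -/
def P1one' : Prop :=
  ∀ (F : Type) [Field F] [NumberField F] [NumberField.IsTotallyReal F] (v₁ : F →+* ℝ) (D : F)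
    (h : Fin 3 → F) (_ : Good v₁ D h) (a : F) (_ : 0 < v₁ a) (N : ℕ) (_ : 0 < N),
    ∃ c : ℕ, 0 < c ∧ ∀ {G : Type} [Group G] (e : G → Mat F), (∀ γ, e γ ∈ Gam D h c) →
      e 1 = (1, 0) → (∀ γ γ', e (γ * γ') = mulM D (e γ) (e γ')) →
      ∃ Γ : Subgroup G, Γ.FiniteIndex ∧ ∀ γ ∈ Γ, ∀ φ : (Fin 3 → F) → ℂ,
        SBJ N (fun ξ : Unit → Fin 3 → F => φ (ξ ())) → ∀ y ∈ ball (ev v₁ h), ∀ j,
        ∑ l, theta v₁ D h a φ l (act v₁ D (e γ) y) * dact v₁ D (e γ) y l j =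
          theta v₁ D h a φ j y

/-- 97's `P1_two`. -/
def P1two' : Prop :=
  ∀ (F : Type) [Field F] [NumberField F] [NumberField.IsTotallyReal F] (v₁ : F →+* ℝ) (D : F)
    (h : Fin 3 → F) (_ : Good v₁ D h) (a : Fin 2 → F) (_ : ∀ i, 0 < v₁ (a i)) (N : ℕ) (_ : 0 < N),
    ∃ c : ℕ, 0 < c ∧ ∀ {G : Type} [Group G] (e : G → Mat F), (∀ γ, e γ ∈ Gam D h c) →
      e 1 = (1, 0) → (∀ γ γ', e (γ * γ') = mulM D (e γ) (e γ')) →
      ∃ Γ : Subgroup G, Γ.FiniteIndex ∧ ∀ γ ∈ Γ, ∀ φ : (Fin 2 → Fin 3 → F) → ℂ, SBJ N φ →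
        ∀ R : Maj F, (∀ v, IsMaj a v (R v)) → R v₁ = R0 a v₁ → ∀ y ∈ ball (ev v₁ h),
        CR v₁ D h a R φ (act v₁ D (e γ) y) / gy v₁ D (e γ) y 2 ^ 3 = CR v₁ D h a R φ y

/-- the pairs of the elements of `Γ_c ⊆ SL₃(ℂ)` -/
theorem exists_pairs {F : Type} [Field F] [NumberField F] (grp : GRP) {v₁ : F →+* ℝ} {D : F}
    {h : Fin 3 → F} (H : Good v₁ D h) {c : ℕ} (hc : 0 < c) :
    ∃ e : GamS v₁ D h c → Mat F, (∀ γ, e γ ∈ Gam D h c) ∧ (∀ γ, cmat v₁ D (e γ) = γ.1.1) ∧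
      e 1 = (1, 0) ∧ ∀ γ γ', e (γ * γ') = mulM D (e γ) (e γ') := by
  have hD : 0 < v₁ D := H.D0 v₁
  have h1 : ∀ γ : GamS v₁ D h c, ∃ p ∈ Gam D h c, cmat v₁ D p = γ.1.1 := fun γ =>
    (mem_GamS grp H hc).1 γ.2
  choose e he1 he2 using h1
  refine ⟨e, he1, he2, ?_, ?_⟩
  · apply cmat_inj hD
    rw [he2, cmat_one]
    rfl
  · intro γ γ'
    apply cmat_inj hD
    have h3 : mulM D (e γ) (e γ') = pmul D (e γ) (e γ') := rfl
    rw [he2, h3, cmat_pmul hD.le, he2, he2]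
    rfl

/-- the subgroup of `SL₃(ℂ)` -/
theorem exists_arith {F : Type} [Field F] [NumberField F] (grp : GRP) {v₁ : F →+* ℝ} {D : F}
    {h : Fin 3 → F} (H : Good v₁ D h) {c : ℕ} (hc : 0 < c) (Γ : Subgroup (GamS v₁ D h c))
    (hΓ : Γ.FiniteIndex) :
    IsArith v₁ D h (Γ.map (GamS v₁ D h c).subtype) := by
  have hle : Γ.map (GamS v₁ D h c).subtype ≤ GamS v₁ D h c := by
    rintro _ ⟨γ, -, rfl⟩
    exact γ.2
  refine IsArith.of_fin (isArith_GamS grp H hc) hle (fin_of_finiteIndex ?_)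
  have h1 : (Γ.map (GamS v₁ D h c).subtype).subgroupOf (GamS v₁ D h c) = Γ := by
    unfold Subgroup.subgroupOf
    exact Subgroup.comap_map_eq_self_of_injective (GamS v₁ D h c).subtype_injective Γ
  rw [h1]
  exact hΓ

theorem p1cr_of (grp : GRP) (p2 : P1two') : P1CR := by
  intro F _ _ _ v₁ D h a N φ hG ha0 ha hφ
  have hN : 0 < N := hφ.1
  obtain ⟨c, hc, h1⟩ := p2 F v₁ D h hG a ha N hN
  obtain ⟨e, he1, he2, he3, he4⟩ := exists_pairs grp hG hc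
  obtain ⟨Γ, hfi, h2⟩ := h1 e he1 he3 he4
  refine ⟨Γ.map (GamS v₁ D h c).subtype, exists_arith grp hG hc Γ hfi, ?_⟩
  rintro R hR hR1 g ⟨γ, hγ, hg⟩ y hy
  have hg' : γ.1 = g := hg
  have hge : cmat v₁ D (e γ) = g.1 := by rw [he2, hg']
  have h3 := h2 γ hγ φ hφ R hR hR1 y hy
  have h4 : gy v₁ D (e γ) y 2 ≠ 0 := ((grp F v₁ D h c hG hc).1 (e γ) (he1 γ) y hy).1
  have h5 : g.1 *ᵥ hat y = gy v₁ D (e γ) y := by
    unfold gy
    rw [hge]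
  rw [actC_eq hge, h5, ← h3]
  field_simp

theorem p1one_of (grp : GRP) (p1 : P1one') : P1ONE := by
  intro F _ _ _ v₁ D h a φ hG ha hφ
  obtain ⟨N, hN, hφ1, hφ2⟩ := hφ
  obtain ⟨c, hc, h1⟩ := p1 F v₁ D h hG a ha N hN
  obtain ⟨e, he1, he2, he3, he4⟩ := exists_pairs grp hG hc
  obtain ⟨Γ, hfi, h2⟩ := h1 e he1 he3 he4
  have har := exists_arith grp hG hc Γ hfi
  refine ⟨Γ.map (GamS v₁ D h c).subtype, har, ?_⟩
  rintro g ⟨γ, hγ, hg⟩ y hy j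
  have hg' : γ.1 = g := hg
  have hge : cmat v₁ D (e γ) = g.1 := by rw [he2, hg']
  have hSB : SBJ N (fun ξ : Unit → Fin 3 → F => φ (ξ ())) := by
    refine ⟨hN, fun ξ hξ i j => ?_, fun ξ η hη => ?_⟩
    · exact hφ1 (ξ ()) hξ j
    · exact hφ2 (ξ ()) (η ()) (hη ())
  have h3 := h2 γ hγ φ hSB y hy j
  have hs : Pool.CMH.Jac.Sg (ev v₁ h) := JB.sg_ev (hG.h0 v₁) (hG.h1 v₁) hG.h3
  have hU : Pool.CMH.Jac.IsU (ev v₁ h) g.1 := JB.isU_of_mem har ⟨γ, hγ, hg⟩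
  have h5 : g.1 *ᵥ hat y = gy v₁ D (e γ) y := by
    unfold gy
    rw [hge]
  rw [← h3]
  refine Finset.sum_congr rfl fun l _ => ?_
  rw [JB.fderiv_actC' hs hU hy, h5, ← hge, actC_eq hge]
  rfl

end

end Pool.Agent.CMH
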