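import Pool.Agent.Lib.CMH.Rows
import Pool.Agent.Lib.MP_938ce2_ag_h60.NumField
import Pool.Agent.Lib.MP_938ce2_ag_h60.GSet

/-!
# Tate classes of abelian varieties of CM type and multisets of CM types of a Galois CM field
-/

set_option autoImplicit false

open NumberField

namespace Pool.Agent.CMH

open Pool.Agent.Lib.MP_938ce2_ag_h60 (Emb conj TateClass TateG)
open Pool.Agent.Lib.MP_938ce2_ag_h85 (Coh mB mult mB_card)

section

variable {L : Type} [Field L] [NumberField L] [IsCMField L]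

/-- `γ` carries `φ₀` to the embedding over the place `v` of the maximal real subfield which sends `δ`
to the upper half plane. -/
def Over (φ₀ : L →+* ℂ) (δ : L) (v : maximalRealSubfield L →+* ℝ) (γ : L ≃ₐ[ℚ] L) : Prop :=
  (∀ y : maximalRealSubfield L, φ₀ (γ y) = (v y : ℂ)) ∧ 0 < (φ₀ (γ δ)).im

open Classical in
/-- The CM type of `L` attached to the line `x` in the cohomology of the abelian variety of CM type
`Φ`, as a sign vector: `true` at `v` if `x ∈ γ Φ` for the `γ` over `v`. -/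
noncomputable def ty {ι : Type} {E : ι → Type} [∀ i, Field (E i)] [∀ i, CharZero (E i)]
    (φ₀ : L →+* ℂ) (δ : L) (Φ : Finset (Emb L E)) (x : Emb L E) :
    CMType (maximalRealSubfield L) :=
  fun v => decide (∃ γ : L ≃ₐ[ℚ] L, Over φ₀ δ v γ ∧ γ⁻¹ • x ∈ Φ)

theorem re_zero {δ : L} (hc : IsCMField.complexConj L δ = -δ) (φ : L →+* ℂ) : (φ δ).re = 0 := by
  have h := IsCMField.complexEmbedding_complexConj L φ δ
  rw [hc, map_neg] at h
  have h2 := congrArg Complex.re h
  rw [Complex.neg_re, Complex.conj_re] at h2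
  linarith

theorem im_ne {δ : L} (hδ : δ ≠ 0) (hc : IsCMField.complexConj L δ = -δ) (φ : L →+* ℂ) :
    (φ δ).im ≠ 0 := by
  intro h
  apply hδ
  apply φ.injective
  rw [map_zero]
  exact Complex.ext (re_zero hc φ) h

theorem over_exists [IsGalois ℚ L] (φ₀ : L →+* ℂ) {δ : L} (hδ : δ ≠ 0)
    (hc : IsCMField.complexConj L δ = -δ) (v : maximalRealSubfield L →+* ℝ) :
    ∃ γ : L ≃ₐ[ℚ] L, Over φ₀ δ v γ := by
  let _ : Algebra (maximalRealSubfield L) ℂ := (Complex.ofRealHom.comp v).toAlgebra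
  let ψ : L →ₐ[maximalRealSubfield L] ℂ := IsAlgClosed.lift
  obtain ⟨σ, hσ⟩ := ComplexEmbedding.exists_comp_symm_eq_of_comp_eq (k := ℚ) φ₀ ψ.toRingHom
    (Subsingleton.elim _ _)
  have h1 : ∀ x, φ₀ (σ.symm x) = ψ x := fun x => RingHom.congr_fun hσ x
  have h2 : ∀ y : maximalRealSubfield L, φ₀ (σ.symm y) = (v y : ℂ) := by
    intro y
    rw [h1]
    exact ψ.commutes y
  rcases lt_or_gt_of_ne (im_ne hδ hc (φ₀.comp (σ.symm : L →+* L))) with h3 | h3
  · refine ⟨σ.symm * conj L, fun y => ?_, ?_⟩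
    · have h4 : (conj L) (y : L) = y := IsCMField.complexConj_apply_eq_self L y
      rw [AlgEquiv.mul_apply, h4]
      exact h2 y
    · have h4 : (conj L) δ = -δ := hc
      rw [AlgEquiv.mul_apply, h4, map_neg, map_neg, Complex.neg_im]
      have h5 : ((φ₀.comp (σ.symm : L →+* L)) δ).im = (φ₀ (σ.symm δ)).im := rfl
      rw [h5] at h3
      linarith
  · exact ⟨σ.symm, h2, h3⟩

theorem over_unique (φ₀ : L →+* ℂ) {δ : L} (hδ : δ ≠ 0)
    (hc : IsCMField.complexConj L δ = -δ) (v : maximalRealSubfield L →+* ℝ) {γ γ' : L ≃ₐ[ℚ] L}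
    (h : Over φ₀ δ v γ) (h' : Over φ₀ δ v γ') : γ = γ' := by
  have hK : ∀ y : maximalRealSubfield L, γ (y : L) = γ' (y : L) := by
    intro y
    apply φ₀.injective
    rw [h.1 y, h'.1 y]
  have hmem : ∀ x : L, IsCMField.complexConj L x = x → γ x = γ' x := by
    intro x hx
    exact hK ⟨x, (IsCMField.complexConj_eq_self_iff L x).1 hx⟩
  have hd : γ δ = γ' δ := by
    have h1 : γ (δ ^ 2) = γ' (δ ^ 2) := by
      apply hmem
      rw [map_pow, hc, neg_sq]
    rw [map_pow, map_pow] at h1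
    rcases sq_eq_sq_iff_eq_or_eq_neg.1 h1 with h2 | h2
    · exact h2
    · exfalso
      have h3 := h.2
      rw [h2, map_neg, Complex.neg_im] at h3
      have h4 := h'.2
      linarith
  ext x
  have hx : x = (x + IsCMField.complexConj L x) / 2 +
      ((x - IsCMField.complexConj L x) / (2 * δ)) * δ := by
    field_simp
    ring
  have hcc : ∀ z : L, IsCMField.complexConj L (IsCMField.complexConj L z) = z :=
    fun z => IsCMField.complexConj_apply_apply L z
  have h1 : γ ((x + IsCMField.complexConj L x) / 2) = γ' ((x + IsCMField.complexConj L x) / 2) := by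
    apply hmem
    rw [map_div₀, map_add, hcc, map_ofNat, add_comm]
  have h2 : γ ((x - IsCMField.complexConj L x) / (2 * δ)) =
      γ' ((x - IsCMField.complexConj L x) / (2 * δ)) := by
    apply hmem
    rw [map_div₀, map_sub, hcc, map_mul, map_ofNat, hc]
    field_simp
    ring
  rw [hx, map_add, map_add, map_mul, map_mul, h1, h2, hd]

variable [IsGalois ℚ L]

theorem ty_iff {ι : Type} {E : ι → Type} [∀ i, Field (E i)] [∀ i, CharZero (E i)]
    (φ₀ : L →+* ℂ) {δ : L} (hδ : δ ≠ 0) (hc : IsCMField.complexConj L δ = -δ)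
    (Φ : Finset (Emb L E)) (v : maximalRealSubfield L →+* ℝ) {γ : L ≃ₐ[ℚ] L} (h : Over φ₀ δ v γ)
    (x : Emb L E) : ty φ₀ δ Φ x v = true ↔ γ⁻¹ • x ∈ Φ := by
  simp only [ty, decide_eq_true_iff]
  constructor
  · rintro ⟨γ', h1, h2⟩
    rwa [over_unique φ₀ hδ hc v h h1]
  · intro h2
    exact ⟨γ, h, h2⟩

theorem D_pos (φ₀ : L →+* ℂ) {δ : L} (hδ : δ ≠ 0) (hc : IsCMField.complexConj L δ = -δ)
    {D : maximalRealSubfield L} (hD : (D : L) = -δ ^ 2) (v : maximalRealSubfield L →+* ℝ) :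
    0 < v D := by
  obtain ⟨γ, h1, h2⟩ := over_exists φ₀ hδ hc v
  have h3 := h1 D
  have h4 : (φ₀ (γ δ)).re = 0 := re_zero hc (φ₀.comp (γ : L →+* L))
  have h5 : φ₀ (γ δ) = ((φ₀ (γ δ)).im : ℂ) * Complex.I := by
    apply Complex.ext
    · simp [h4]
    · simp
  rw [hD, map_neg, map_neg, map_pow, map_pow, h5, mul_pow, Complex.I_sq] at h3
  have h6 : (v D : ℂ) = (((φ₀ (γ δ)).im ^ 2 : ℝ) : ℂ) := by
    rw [← h3]; push_cast; ring
  have h7 : v D = (φ₀ (γ δ)).im ^ 2 := by exact_mod_cast h6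
  rw [h7]
  positivity

theorem D_integral {δ : L} (hi : IsIntegral ℤ δ) {D : maximalRealSubfield L}
    (hD : (D : L) = -δ ^ 2) : IsIntegral ℤ D := by
  have h1 : IsIntegral ℤ (algebraMap (maximalRealSubfield L) L D) := by
    have h2 : algebraMap (maximalRealSubfield L) L D = -δ ^ 2 := hD
    rw [h2]
    exact (hi.pow 2).neg
  exact (isIntegral_algebraMap_iff
    (FaithfulSMul.algebraMap_injective (maximalRealSubfield L) L)).mp h1

theorem balanced_of_count {F : Type} [Field F] {m : Multiset (CMType F)} {j : ℕ}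
    (hm : m.card = 2 * j) (h : ∀ v : F →+* ℝ, m.countP (fun Φ => Φ v = true) = j) :
    Balanced m := by
  intro v
  have h1 := Multiset.card_eq_countP_add_countP (fun Φ : CMType F => Φ v = true) m
  have h2 : m.countP (fun Φ => ¬ (Φ v = true)) = m.countP (fun Φ => Φ v = false) := by
    apply Multiset.countP_congr rfl
    intro Φ _
    simp
  rw [h2, hm, h v] at h1
  rw [h v]
  omega

variable {ι : Type} [Finite ι] {E : ι → Type} [∀ i, Field (E i)] [∀ i, NumberField (E i)]

/-- The tank in terms of Tate classes. -/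
theorem tate_of_fin2 (hfin : FIN2) (φ₀ : L →+* ℂ) (δ : L) (D : maximalRealSubfield L)
    (hi : IsIntegral ℤ δ) (hδ : δ ≠ 0) (hc : IsCMField.complexConj L δ = -δ)
    (hD : (D : L) = -δ ^ 2) (v₁ : maximalRealSubfield L →+* ℝ)
    (Φ : Finset (Emb L E)) (hΦ : Pool.Agent.Lib.MP_938ce2_ag_h60.CMType (conj L) Φ)
    (k : Type) [Field k] [CharZero k] (n j : ℕ)
    (x : Coh k (Emb L E) n) (hx : TateClass k (L ≃ₐ[ℚ] L) Φ n j x) :
    x ∈ Submodule.span k {y : Coh k (Emb L E) n | ∃ f : Fin (2 * j) → Fin n × Emb L E,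
      Function.Injective f ∧ IsAlg v₁ D (Multiset.map (fun t => ty φ₀ δ Φ (f t).2) Finset.univ.val) ∧
      y = ExteriorAlgebra.ιMulti k (2 * j)
        (fun t => (Pi.basisFun k (Fin n × Emb L E) (f t) : Fin n × Emb L E → k))} := by
  classical
  have _ := Fintype.ofFinite ι
  let _ : LinearOrder (Fin n × Emb L E) :=
    LinearOrder.lift' (Fintype.equivFin (Fin n × Emb L E)) (Equiv.injective _)
  have hx' : TateG (L ≃ₐ[ℚ] L) k (Prod.snd : Fin n × Emb L E → Emb L E) Φ j x := hx
  have hcount : ∀ s : Finset (Fin n × Emb L E), (mB k).repr x s ≠ 0 → ∀ γ : L ≃ₐ[ℚ] L,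
      (s.filter fun p => γ⁻¹ • p.2 ∈ Φ).card = j := by
    intro s hs γ
    rw [← Pool.Agent.Lib.MP_938ce2_ag_h60.sum_mult]
    exact hx'.coord hs γ
  have hcard : ∀ s : Finset (Fin n × Emb L E), (mB k).repr x s ≠ 0 → s.card = 2 * j := by
    intro s hs
    have h1 := hcount s hs 1
    have h2 := hcount s hs (conj L)
    have h3 := Finset.card_filter_add_card_filter_not (s := s)
      (fun p : Fin n × Emb L E => (1 : L ≃ₐ[ℚ] L)⁻¹ • p.2 ∈ Φ)
    have h4 : (s.filter fun p => ¬ (1 : L ≃ₐ[ℚ] L)⁻¹ • p.2 ∈ Φ) =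
        (s.filter fun p => (conj L)⁻¹ • p.2 ∈ Φ) := by
      apply Finset.filter_congr
      intro p _
      have h5 : (conj L)⁻¹ = conj L :=
        inv_eq_of_mul_eq_one_left Pool.Agent.Lib.MP_938ce2_ag_h60.conj_mul_self
      rw [inv_one, one_smul, h5, hΦ p.2, not_not]
    rw [h4, h1, h2] at h3
    omega
  have hsum := (mB k).sum_repr x
  have hxs : x = ∑ s, (mB k).repr x s • mB k s := hsum.symm
  rw [hxs]
  refine Submodule.sum_mem _ fun s _ => ?_
  by_cases hs : (mB k).repr x s = 0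
  · rw [hs, zero_smul]
    exact Submodule.zero_mem _
  refine Submodule.smul_mem _ _ (Submodule.subset_span ?_)
  have hsc := hcard s hs
  refine ⟨s.orderEmbOfFin hsc, (s.orderEmbOfFin hsc).injective, ?_, ?_⟩
  · refine hfin _ v₁ D (D_integral hi hD) (D_pos φ₀ hδ hc hD) _ (balanced_of_count (j := j) ?_ ?_)
    · simp
    · intro v
      obtain ⟨γ, hγ⟩ := over_exists φ₀ hδ hc v
      rw [Multiset.countP_map]
      have h1 : (Multiset.filter (fun t => ty φ₀ δ Φ ((s.orderEmbOfFin hsc) t).2 v = true)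
          (Finset.univ : Finset (Fin (2 * j))).val) =
          ((Finset.univ : Finset (Fin (2 * j))).filter
            (fun t => γ⁻¹ • ((s.orderEmbOfFin hsc) t).2 ∈ Φ)).val := by
        rw [Finset.filter_val]
        apply Multiset.filter_congr
        intro t _
        exact ty_iff φ₀ hδ hc Φ v hγ _
      rw [h1, Finset.card_val]
      have h2 := hcount s hs γ
      refine Eq.trans ?_ h2
      conv_rhs => rw [← Finset.map_orderEmbOfFin_univ s hsc, Finset.filter_map, Finset.card_map]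
      rfl
  · exact mB_card k s hsc

end

end Pool.Agent.CMH
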