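import Pool.Agent.Lib.CMH.Rows
import Pool.Agent.Lib.MP_938ce2_cm.Quad

/-!
Tank CMH (MP_938ce2_ag), row CLOSE (helper29): every class of multisets of CM types which contains
the pairs and the balanced quadruples with signs `+ + - -` at `v₁`, and is closed under sums and
under cutting a pair, contains all balanced multisets.
-/

set_option autoImplicit false

namespace Pool.Agent.CMH

namespace Close

variable {V : Type} [Fintype V] [DecidableEq V]

def ofF (S : Finset V) : V → Bool := fun v => decide (v ∈ S)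

def toF (Φ : V → Bool) : Finset V := Finset.univ.filter (fun v => Φ v = true)

theorem ofF_toF (Φ : V → Bool) : ofF (toF Φ) = Φ := by
  funext v
  simp [ofF, toF]

theorem ofF_compl (S : Finset V) : ofF Sᶜ = fun v => !(ofF S v) := by
  funext v
  simp [ofF]

/-- balanced families of Boolean vectors -/
def Bal (m : Multiset (V → Bool)) : Prop :=
  ∀ v : V, m.countP (fun Φ => Φ v = true) = m.countP (fun Φ => Φ v = false)

theorem bal_toF {m : Multiset (V → Bool)} (h : Bal m) : Pool.CMH.Balanced (m.map toF) := by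
  intro v
  have h1 := h v
  have h2 : m.countP (fun Φ => Φ v = true) + m.countP (fun Φ => Φ v = false) = m.card := by
    have h3 := Multiset.card_eq_countP_add_countP (fun Φ : V → Bool => Φ v = true) m
    rw [h3]
    congr 1
    apply Multiset.countP_congr rfl
    intro Φ _
    simp
  rw [Multiset.card_map, ← Multiset.countP_eq_card_filter, Multiset.countP_map,
    ← Multiset.countP_eq_card_filter]
  have h4 : m.countP (fun Φ => v ∈ toF Φ) = m.countP (fun Φ => Φ v = true) := by
    apply Multiset.countP_congr rfl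
    intro Φ _
    simp [toF]
  rw [h4]
  omega

theorem bal_quad (A B C D : Finset V)
    (h : ∀ v, (if v ∈ A then 1 else 0) + (if v ∈ B then 1 else 0) + (if v ∈ C then 1 else 0) +
      (if v ∈ D then 1 else 0) = 2) :
    Bal ({ofF A, ofF B, ofF C, ofF D} : Multiset (V → Bool)) := by
  intro v
  have h1 := h v
  by_cases a : v ∈ A <;> by_cases b : v ∈ B <;> by_cases c : v ∈ C <;> by_cases d : v ∈ D <;>
    simp [a, b, c, d] at h1 <;>
    simp [ofF, a, b, c, d, Multiset.countP_cons, ← Multiset.cons_zero]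

theorem close_gen (v₁ : V) (P : Multiset (V → Bool) → Prop) (h0 : P 0)
    (hp : ∀ Φ : V → Bool, P {Φ, fun v => !(Φ v)})
    (hadd : ∀ s t, P s → P t → P (s + t))
    (hcut : ∀ s (Φ : V → Bool), P (s + {Φ, fun v => !(Φ v)}) → P s)
    (hq : ∀ Φ₁ Φ₂ Φ₃ Φ₄ : V → Bool, Φ₁ v₁ = true → Φ₂ v₁ = true → Φ₃ v₁ = false → Φ₄ v₁ = false →
      Bal ({Φ₁, Φ₂, Φ₃, Φ₄} : Multiset (V → Bool)) → P {Φ₁, Φ₂, Φ₃, Φ₄}) :
    ∀ m, Bal m → P m := by
  classical
  haveI : Nonempty V := ⟨v₁⟩
  intro m hm
  have key := Pool.CMH.all_balanced (fun s : Multiset (Finset V) => P (s.map ofF)) (by simpa using h0)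
    (fun Φ => by simpa [ofF_compl] using hp (ofF Φ))
    (fun s t hs ht => by simpa using hadd _ _ hs ht)
    (fun s Φ hs => by
      apply hcut _ (ofF Φ)
      simpa [ofF_compl] using hs)
    (fun Φ Ψ => ?_) (m.map toF) (bal_toF hm)
  · rw [Multiset.map_map] at key
    have : (ofF ∘ toF : (V → Bool) → V → Bool) = id := by
      funext Φ
      exact ofF_toF Φ
    rwa [this, Multiset.map_id] at key
  · simp only [Multiset.insert_eq_cons, Multiset.map_cons, Multiset.map_singleton]
    by_cases a : v₁ ∈ Φ <;> by_cases b : v₁ ∈ Ψ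
    · refine hq _ _ _ _ ?_ ?_ ?_ ?_ (bal_quad _ _ _ _ ?_)
      · simp [ofF, a]
      · simp [ofF, b]
      · simp [ofF, a, b]
      · simp [ofF, a, b]
      · intro v
        by_cases x : v ∈ Φ <;> by_cases y : v ∈ Ψ <;> simp [x, y]
    · have := hq (ofF Φ) (ofF (Φ ∩ Ψ)ᶜ) (ofF Ψ) (ofF (Φ ∪ Ψ)ᶜ) (by simp [ofF, a]) (by simp [ofF, b])
        (by simp [ofF, b]) (by simp [ofF, a]) (bal_quad _ _ _ _ (by
          intro v
          by_cases x : v ∈ Φ <;> by_cases y : v ∈ Ψ <;> simp [x, y]))
      convert this using 1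
      simp only [Multiset.insert_eq_cons]
      rw [Multiset.cons_swap (ofF Ψ)]
    · have := hq (ofF Ψ) (ofF (Φ ∩ Ψ)ᶜ) (ofF Φ) (ofF (Φ ∪ Ψ)ᶜ) (by simp [ofF, b]) (by simp [ofF, a])
        (by simp [ofF, a]) (by simp [ofF, b]) (bal_quad _ _ _ _ (by
          intro v
          by_cases x : v ∈ Φ <;> by_cases y : v ∈ Ψ <;> simp [x, y]))
      convert this using 1
      simp only [Multiset.insert_eq_cons]
      rw [Multiset.cons_swap (ofF Φ), Multiset.cons_swap (ofF Φ) (ofF (Φ ∩ Ψ)ᶜ)]
    · have := hq (ofF (Φ ∩ Ψ)ᶜ) (ofF (Φ ∪ Ψ)ᶜ) (ofF Φ) (ofF Ψ) (by simp [ofF, a]) (by simp [ofF, a, b])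
        (by simp [ofF, a]) (by simp [ofF, b]) (bal_quad _ _ _ _ (by
          intro v
          by_cases x : v ∈ Φ <;> by_cases y : v ∈ Ψ <;> simp [x, y]))
      convert this using 1
      simp only [Multiset.insert_eq_cons, ← Multiset.singleton_add]
      abel

end Close

theorem close : CLOSE := by
  classical
  intro F _ _ v₁ P h0 hp hadd hcut hq m hm
  exact Close.close_gen v₁ P h0 hp hadd hcut hq m hm

end Pool.Agent.CMH
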