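import Pool.Agent.Lib.CMH.CocReal

/-!
# TANK CMH, cocompactness: the integral matrices of the form are nondegenerate
-/

set_option autoImplicit false

open Matrix NumberField Module

namespace Pool.Agent.CMH

variable {F : Type} [Field F] [NumberField F]

/-- every nonzero integer divides a nonzero rational integer -/
theorem coc_exists_mul_int (a : 𝓞 F) (ha : a ≠ 0) : ∃ (r : 𝓞 F) (m : ℤ), m ≠ 0 ∧ a * r = m := by
  have h1 := Ideal.absNorm_mem (Ideal.span {a} : Ideal (𝓞 F))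
  obtain ⟨r, hr⟩ := Ideal.mem_span_singleton'.1 h1
  refine ⟨r, (Ideal.absNorm (Ideal.span {a} : Ideal (𝓞 F)) : ℤ), ?_, ?_⟩
  · rw [Nat.cast_ne_zero, Ne, Ideal.absNorm_eq_zero_iff, Ideal.span_singleton_eq_bot]
    exact ha
  · rw [mul_comm, hr]
    simp

theorem cB_det (D : 𝓞 F) (hD : D ≠ 0) (k : Fin 3 → 𝓞 F)
    (hk : ∀ j, k j ≠ 0) (i : cocI F) : (cB D k i).det ≠ 0 := by
  intro h0
  obtain ⟨Y, hY, hY0⟩ := Matrix.exists_mulVec_eq_zero_iff.2 h0
  obtain ⟨z', rfl⟩ : ∃ z', eL z' = Y := ⟨eL.symm Y, eL.apply_symm_apply Y⟩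
  have hz : z' ≠ 0 := fun h => hY (by rw [h, map_zero])
  have h1 : ∀ z, (RingOfIntegers.basis F).equivFun (be D k z z') i = 0 := by
    intro z
    rw [← cB_int, hY0, dotProduct_zero]
  -- values of the form
  have h2 : ∀ (a : 𝓞 F), a ≠ 0 → (∀ r : 𝓞 F, ∃ z, be D k z z' = a * r) → False := by
    intro a ha hr
    obtain ⟨r, m, hm, hrm⟩ := coc_exists_mul_int a ha
    obtain ⟨z, hz⟩ := hr (r * RingOfIntegers.basis F i)
    have h3 := h1 z
    rw [hz, ← mul_assoc, hrm, ← zsmul_eq_mul, map_smul, Pi.smul_apply,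
      Basis.equivFun_self, if_pos rfl, smul_eq_mul, mul_one] at h3
    exact hm h3
  obtain ⟨e, j, hej⟩ : ∃ e j, z' e j ≠ 0 := by
    by_contra h
    push Not at h
    exact hz (by funext e j; exact h e j)
  have h4 : ∀ z : cL F, (∀ l, l ≠ j → z 0 l = 0 ∧ z 1 l = 0) →
      be D k z z' = k j * (z 0 j * z' 0 j + D * (z 1 j * z' 1 j)) := by
    intro z hz
    unfold be
    refine Finset.sum_eq_single j (fun l _ hl => ?_) (fun h => absurd (Finset.mem_univ _) h)
    rw [(hz l hl).1, (hz l hl).2]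
    ring
  fin_cases e
  · refine h2 (k j * z' 0 j) (mul_ne_zero (hk j) hej) fun r => ⟨![Pi.single j r, 0], ?_⟩
    rw [h4]
    · change k j * ((Pi.single j r : Fin 3 → 𝓞 F) j * z' 0 j + D * (0 * z' 1 j)) = _
      rw [Pi.single_eq_same]
      ring
    · intro l hl
      exact ⟨Pi.single_eq_of_ne hl _, rfl⟩
  · refine h2 (k j * (D * z' 1 j)) (mul_ne_zero (hk j) (mul_ne_zero hD hej)) fun r =>
      ⟨![0, Pi.single j r], ?_⟩
    rw [h4]
    · change k j * (0 * z' 0 j + D * ((Pi.single j r : Fin 3 → 𝓞 F) j * z' 1 j)) = _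
      rw [Pi.single_eq_same]
      ring
    · intro l hl
      exact ⟨rfl, Pi.single_eq_of_ne hl _⟩

end Pool.Agent.CMH
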