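import Pool.Agent.Lib.CMH.CocFin
import Pool.Agent.Lib.CMH.CocMin
import Pool.Agent.Lib.CMH.CocDet

/-!
# TANK CMH, row COC: `Γ_N\B` is compact
-/

set_option autoImplicit false

open Matrix NumberField Module

namespace Pool.Agent.CMH

theorem coc_DET : RowDET := by
  intro F _ _ _ D k hD hk i
  have w : InfinitePlace F := Classical.arbitrary _
  have hw : w.IsReal := IsTotallyReal.isReal w
  have hD0 : D ≠ 0 := by
    intro h0
    have h1 := hD (InfinitePlace.embedding_of_isReal hw)
    rw [h0] at h1
    change 0 < (InfinitePlace.embedding_of_isReal hw) (algebraMap (𝓞 F) F 0) at h1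
    rw [map_zero, map_zero] at h1
    exact lt_irrefl _ h1
  exact cB_det D hD0 k hk i

/-- **the quotient of the ball by `Γ_N` is compact** -/
theorem coc : COC := coc_of coc_MIN coc_DET

end Pool.Agent.CMH
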