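import Mathlib

/-!
# TANK CMH, cocompactness: the integers of a totally real field as a lattice
-/

set_option autoImplicit false

open Matrix NumberField Module

namespace Pool.Agent.CMH

variable (F : Type) [Field F] [NumberField F]

/-- the index of the integral basis -/
abbrev cocI : Type := Free.ChooseBasisIndex ℤ (𝓞 F)

variable {F}

section
variable [IsTotallyReal F]

omit [NumberField F] in
/-- every complex embedding of a totally real field comes from a real one -/
theorem coc_real (φ : F →+* ℂ) : ∃ σ : F →+* ℝ, ∀ x, φ x = ((σ x : ℝ) : ℂ) := by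
  have h : ComplexEmbedding.IsReal φ :=
    InfinitePlace.isReal_of_mk_isReal (IsTotallyReal.isReal (InfinitePlace.mk φ))
  exact ⟨h.embedding, fun x => (h.coe_embedding_apply x).symm⟩

theorem coc_card : Fintype.card (F →+* ℝ) = Fintype.card (F →+* ℂ) := by
  refine Fintype.card_of_bijective (f := fun σ : F →+* ℝ => (algebraMap ℝ ℂ).comp σ) ⟨?_, ?_⟩
  · intro σ τ h
    ext x
    have h1 := DFunLike.congr_fun h x
    exact Complex.ofReal_injective h1
  · intro φ
    obtain ⟨σ, hσ⟩ := coc_real φ
    exact ⟨σ, RingHom.ext fun x => (hσ x).symm⟩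

theorem coc_card' : Fintype.card (F →+* ℝ) = Fintype.card (cocI F) := by
  rw [coc_card, Embeddings.card, finrank_eq_card_basis (integralBasis F)]

/-- linear independence of the integral basis at the real places -/
theorem coc_inj (x : cocI F → ℝ) (h : ∀ σ : F →+* ℝ, ∑ i, x i * σ (integralBasis F i) = 0) :
    x = 0 := by
  have h1 : ∑ i, (x i : ℂ) • canonicalEmbedding.latticeBasis F i = 0 := by
    funext φ
    obtain ⟨σ, hσ⟩ := coc_real φ
    rw [Finset.sum_apply]
    have h2 := h σ
    have h3 : ∑ i, (x i : ℂ) * φ (integralBasis F i) = 0 := by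
      have h4 : ((∑ i, x i * σ (integralBasis F i) : ℝ) : ℂ) = 0 := by rw [h2]; simp
      rw [← h4]
      push_cast
      exact Finset.sum_congr rfl fun i _ => by rw [hσ]
    change _ = (0 : ℂ)
    rw [← h3]
    refine Finset.sum_congr rfl fun i _ => ?_
    rw [canonicalEmbedding.latticeBasis_apply]
    rfl
  have h2 := Fintype.linearIndependent_iff.1 (canonicalEmbedding.latticeBasis F).linearIndependent
    (fun i => (x i : ℂ)) h1
  funext i
  exact_mod_cast h2 i

variable (F) in
/-- `R^ι ≃ R^(places)`, the coordinates of the integral basis at the real places -/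
noncomputable def cocP : (cocI F → ℝ) ≃ₗ[ℝ] ((F →+* ℝ) → ℝ) :=
  LinearEquiv.ofInjectiveOfFinrankEq
    (LinearMap.pi fun σ : F →+* ℝ => ∑ i, (σ (integralBasis F i)) • (LinearMap.proj i :
      (cocI F → ℝ) →ₗ[ℝ] ℝ))
    (by
      rw [← LinearMap.ker_eq_bot, LinearMap.ker_eq_bot']
      intro x hx
      apply coc_inj
      intro σ
      have h1 := congrFun hx σ
      rw [LinearMap.pi_apply, LinearMap.sum_apply] at h1
      rw [Pi.zero_apply] at h1
      rw [← h1]
      exact Finset.sum_congr rfl fun i _ => mul_comm _ _)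
    (by rw [finrank_pi, finrank_pi, coc_card'])

theorem cocP_apply (x : cocI F → ℝ) (σ : F →+* ℝ) :
    cocP F x σ = ∑ i, x i * σ (integralBasis F i) := by
  change (LinearMap.pi fun σ : F →+* ℝ => ∑ i, (σ (integralBasis F i)) • (LinearMap.proj i :
      (cocI F → ℝ) →ₗ[ℝ] ℝ)) x σ = _
  rw [LinearMap.pi_apply, LinearMap.sum_apply]
  exact Finset.sum_congr rfl fun i _ => mul_comm _ _

/-- the coordinates of an integer -/
theorem cocP_int (z : 𝓞 F) (σ : F →+* ℝ) :
    cocP F (fun i => ((RingOfIntegers.basis F).repr z i : ℝ)) σ = σ (z : F) := by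
  rw [cocP_apply]
  have h1 := congrArg (algebraMap (𝓞 F) F) ((RingOfIntegers.basis F).sum_repr z)
  rw [map_sum] at h1
  have h2 : σ (z : F) = σ (∑ i, algebraMap (𝓞 F) F ((RingOfIntegers.basis F).repr z i •
      (RingOfIntegers.basis F) i)) := by rw [h1]
  rw [h2, map_sum]
  refine Finset.sum_congr rfl fun i _ => ?_
  rw [integralBasis_apply, zsmul_eq_mul, map_mul, map_intCast, map_mul, map_intCast]

end

end Pool.Agent.CMH
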