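import Mathlib

/-!
# Theta one-forms on quotients of the ball, and CM types

`F` is a totally real number field, `v₁` one of its real places, `D` a totally positive element,
`E = F(√-D)`.  `h = diag(h 0, h 1, h 2)` is a hermitian form on `E³`, of signature `(2,1)` at `v₁`
and positive definite at all other places.  Everything below is explicit.
-/

open scoped ComplexConjugate Matrix
open Complex

namespace Pool.Agent.CMH

noncomputable section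

/-! ## The ball -/

/-- Homogeneous coordinates `yh = (y₀, y₁, 1)`. -/
def hat (y : Fin 2 → ℂ) : Fin 3 → ℂ := ![y 0, y 1, 1]

/-- The BILINEAR pairing `⟨x, yh⟩ = ∑ k_j x_j yh_j`. -/
def pr (k x : Fin 3 → ℝ) (y : Fin 2 → ℂ) : ℂ := ∑ j, (k j : ℂ) * (x j : ℂ) * hat y j

/-- `w(y)`, with `w(y)² = -⟨yh, yh⟩` (principal branch; the real part of `-⟨yh, yh⟩` is positive on
the ball). -/
def w (k : Fin 3 → ℝ) (y : Fin 2 → ℂ) : ℂ := (-∑ j, (k j : ℂ) * hat y j ^ 2) ^ (1 / 2 : ℂ)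

/-- The holomorphic function `s_x(y) = ⟨x, yh⟩ / w(y)`. -/
def s (k x : Fin 3 → ℝ) (y : Fin 2 → ℂ) : ℂ := pr k x y / w k y

/-- The coefficient of `dy_j` in `d s_x`, that is `∂ s_x / ∂ y_j`. -/
def ds (k x : Fin 3 → ℝ) (j : Fin 2) (y : Fin 2 → ℂ) : ℂ :=
  (k j.castSucc : ℂ) * (x j.castSucc : ℂ) / w k y
    + pr k x y * ((k j.castSucc : ℂ) * y j) / w k y ^ 3

/-- The ball `k₀ |y₀|² + k₁ |y₁|² + k₂ < 0` (`k₀, k₁ > 0 > k₂`). -/
def ball (k : Fin 3 → ℝ) : Set (Fin 2 → ℂ) :=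
  {y | k 0 * ‖y 0‖ ^ 2 + k 1 * ‖y 1‖ ^ 2 + k 2 < 0}

/-! ## Theta one-forms -/

variable {F : Type} [Field F] [NumberField F]

/-- The coordinates of a vector at the place `v`. -/
def ev (v : F →+* ℝ) (x : Fin 3 → F) : Fin 3 → ℝ := fun j => v (x j)

/-- The bilinear form `⟨x, z⟩` at the place `v`. -/
def form (h : Fin 3 → F) (v : F →+* ℝ) (x z : Fin 3 → F) : ℝ :=
  ∑ j, v (h j) * v (x j) * v (z j)

open Classical in
/-- The Gaussian
`exp(-π ∑_v (|v(a)|/√v(D)) (⟨ξ,ξ⟩_v + [v = v₁] 2 s_ξ(y)²))`. -/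
def gauss (v₁ : F →+* ℝ) (D : F) (h : Fin 3 → F) (a : F) (ξ : Fin 3 → F) (y : Fin 2 → ℂ) : ℂ :=
  exp (-(Real.pi : ℂ) * ∑ v : F →+* ℝ, ((|v a| / √(v D) : ℝ) : ℂ) *
    ((form h v ξ ξ : ℂ) + if v = v₁ then 2 * s (ev v h) (ev v ξ) y ^ 2 else 0))

/-- The coefficient of `dy_j` in the holomorphic theta one-form
`v_a(φ) = ∑_{ξ ∈ F³} φ(ξ) gauss(ξ) d s_ξ` on the ball. -/
def theta (v₁ : F →+* ℝ) (D : F) (h : Fin 3 → F) (a : F) (φ : (Fin 3 → F) → ℂ)
    (j : Fin 2) (y : Fin 2 → ℂ) : ℂ :=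
  ∑' ξ : Fin 3 → F, φ ξ * gauss v₁ D h a ξ y * ds (ev v₁ h) (ev v₁ ξ) j y

/-- The coefficient of `dy₀ ∧ dy₁` in the wedge product of two one-forms. -/
def wedge (α β : Fin 2 → (Fin 2 → ℂ) → ℂ) (y : Fin 2 → ℂ) : ℂ :=
  α 0 y * β 1 y - α 1 y * β 0 y

/-- Schwartz-Bruhat functions on `F³`: support in `N⁻¹ O_F³`, periodic modulo `N O_F³`, for some
positive integer `N`. -/
def IsSB (φ : (Fin 3 → F) → ℂ) : Prop :=
  ∃ N : ℕ, 0 < N ∧ (∀ ξ, φ ξ ≠ 0 → ∀ j, IsIntegral ℤ ((N : F) * ξ j)) ∧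
    ∀ ξ η : Fin 3 → F, (∀ j, IsIntegral ℤ (η j)) → φ (fun j => ξ j + (N : F) * η j) = φ ξ

/-! ## The unitary group -/

/-- Pairs `(X, Y)` of matrices over `F`, standing for `X + √(-D) Y`. -/
abbrev Mat (F : Type) := Matrix (Fin 3) (Fin 3) F × Matrix (Fin 3) (Fin 3) F

/-- `Γ_N`: the matrices `g = X + √(-D) Y` over `O_F + √(-D) O_F` with `g* h g = h` and `g = 1`
modulo `N`. -/
def Gam (D : F) (h : Fin 3 → F) (N : ℕ) : Set (Mat F) :=
  {g | g.1ᵀ * Matrix.diagonal h * g.1 + D • (g.2ᵀ * Matrix.diagonal h * g.2) = Matrix.diagonal h ∧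
    g.1ᵀ * Matrix.diagonal h * g.2 = g.2ᵀ * Matrix.diagonal h * g.1 ∧
    (∀ i j, IsIntegral ℤ ((g.1 i j - (1 : Matrix (Fin 3) (Fin 3) F) i j) / (N : F))) ∧
    ∀ i j, IsIntegral ℤ (g.2 i j / (N : F))}

/-- The complex matrix of `X + √(-D) Y` at the place `v`. -/
def cmat (v : F →+* ℝ) (D : F) (g : Mat F) : Matrix (Fin 3) (Fin 3) ℂ :=
  fun i j => (v (g.1 i j) : ℂ) + I * (√(v D) : ℂ) * (v (g.2 i j) : ℂ)

/-- `g yh`, a vector of `ℂ³`. -/
def gy (v : F →+* ℝ) (D : F) (g : Mat F) (y : Fin 2 → ℂ) : Fin 3 → ℂ :=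
  cmat v D g *ᵥ hat y

/-- The action of `g` on the ball by fractional linear maps. -/
def act (v : F →+* ℝ) (D : F) (g : Mat F) (y : Fin 2 → ℂ) : Fin 2 → ℂ :=
  fun j => gy v D g y j.castSucc / gy v D g y 2

/-! ## CM types and the ball quotient constructor -/

/-- A CM type of `E = F(√-D)`, written as a sign vector: at the place `v` the CM type contains the
embedding which sends `√-D` to the upper half plane (`true`) or its conjugate (`false`). -/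
abbrev CMType (F : Type) [Field F] := (F →+* ℝ) → Bool

/-- The complex conjugate CM type. -/
def bar (Φ : CMType F) : CMType F := fun v => !(Φ v)

open Classical in
/-- The sign vector of an element of `F`. -/
def sgn (a : F) : CMType F := fun v => decide (0 < v a)

/-- A multiset of CM types is balanced if at every place it contains as many `true` as `false`. -/
def Balanced (m : Multiset (CMType F)) : Prop :=
  ∀ v : F →+* ℝ, m.countP (fun Φ => Φ v = true) = m.countP (fun Φ => Φ v = false)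

/-- There is a compact quotient `Γ\B` of the ball by a congruence subgroup of the unitary group of
a hermitian form over `E`, and there are holomorphic theta one-forms with sign vectors `Φ₁`, `Φ₂`
(the `v_{a i}(φ i)`) and conjugates of holomorphic theta one-forms with sign vectors `Φ₃`, `Φ₄` (the
conjugates of the `v_{b i}(ψ k i)`) such that the integral over `Γ\B` of the invariant `(2,2)`-form
`v_{a 0}(φ 0) ∧ v_{a 1}(φ 1) ∧ conj (∑ k, v_{b 0}(ψ k 0) ∧ v_{b 1}(ψ k 1))` is nonzero.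
The integral over `Γ\B` is the integral over the ball against a function `χ` with
`∑_{g ∈ Γ} χ(g y) = 1`. -/
def BallClass (v₁ : F →+* ℝ) (D : F) (Φ₁ Φ₂ Φ₃ Φ₄ : CMType F) : Prop :=
  ∃ (h : Fin 3 → F) (a b : Fin 2 → F) (φ : Fin 2 → (Fin 3 → F) → ℂ)
    (K : ℕ) (ψ : Fin K → Fin 2 → (Fin 3 → F) → ℂ) (N : ℕ) (C : Set (Fin 2 → ℂ))
    (χ : (Fin 2 → ℂ) → ℝ),
    -- signature `(2,1)` at `v₁`, definite elsewhere
    (∀ v : F →+* ℝ, 0 < v (h 0) ∧ 0 < v (h 1)) ∧ v₁ (h 2) < 0 ∧ (∀ v, v ≠ v₁ → 0 < v (h 2)) ∧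
    -- the sign vectors of `a` and `b`
    (∀ i, 0 < v₁ (a i) ∧ 0 < v₁ (b i)) ∧
    sgn (a 0) = Φ₁ ∧ sgn (a 1) = Φ₂ ∧ sgn (b 0) = bar Φ₃ ∧ sgn (b 1) = bar Φ₄ ∧
    (∀ i, IsSB (φ i)) ∧ (∀ k i, IsSB (ψ k i)) ∧
    -- `Γ\B` is compact
    0 < N ∧ IsCompact C ∧ C ⊆ ball (ev v₁ h) ∧
    (∀ y ∈ ball (ev v₁ h), ∃ g ∈ Gam D h N, act v₁ D g y ∈ C) ∧
    -- the form `f dy₀ dy₁ conj(dy₀ dy₁)` is invariant under `Γ`
    (∀ g ∈ Gam D h N, ∀ y ∈ ball (ev v₁ h),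
      wedge (theta v₁ D h (a 0) (φ 0)) (theta v₁ D h (a 1) (φ 1)) (act v₁ D g y) *
        conj (∑ k, wedge (theta v₁ D h (b 0) (ψ k 0)) (theta v₁ D h (b 1) (ψ k 1))
          (act v₁ D g y)) =
      (‖gy v₁ D g y 2‖ ^ 6 : ℝ) *
        (wedge (theta v₁ D h (a 0) (φ 0)) (theta v₁ D h (a 1) (φ 1)) y *
        conj (∑ k, wedge (theta v₁ D h (b 0) (ψ k 0)) (theta v₁ D h (b 1) (ψ k 1)) y))) ∧
    -- its integral over `Γ\B` is nonzero
    Continuous χ ∧ HasCompactSupport χ ∧ tsupport χ ⊆ ball (ev v₁ h) ∧ (∀ y, 0 ≤ χ y) ∧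
    (∀ y ∈ ball (ev v₁ h), HasSum (fun g : Gam D h N => χ (act v₁ D g.1 y)) 1) ∧
    ∫ y : Fin 2 → ℂ, (χ y : ℂ) *
      (wedge (theta v₁ D h (a 0) (φ 0)) (theta v₁ D h (a 1) (φ 1)) y *
        conj (∑ k, wedge (theta v₁ D h (b 0) (ψ k 0)) (theta v₁ D h (b 1) (ψ k 1)) y)) ≠ 0

/-- The multisets of CM types obtained from divisor classes and from compact ball quotients by
products and by contraction with divisor classes. -/
inductive IsAlg (v₁ : F →+* ℝ) (D : F) : Multiset (CMType F) → Prop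
  /-- the fundamental class -/
  | zero : IsAlg v₁ D 0
  /-- divisor classes -/
  | pair (Φ : CMType F) : IsAlg v₁ D {Φ, bar Φ}
  /-- products -/
  | add (s t : Multiset (CMType F)) : IsAlg v₁ D s → IsAlg v₁ D t → IsAlg v₁ D (s + t)
  /-- contraction with a divisor class -/
  | cancel (s : Multiset (CMType F)) (Φ : CMType F) :
      IsAlg v₁ D (s + {Φ, bar Φ}) → IsAlg v₁ D s
  /-- compact ball quotients -/
  | ball (Φ₁ Φ₂ Φ₃ Φ₄ : CMType F) : BallClass v₁ D Φ₁ Φ₂ Φ₃ Φ₄ →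
      IsAlg v₁ D {Φ₁, Φ₂, Φ₃, Φ₄}

end

end Pool.Agent.CMH
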