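import Mathlib
import Pool.Agent.Lib.CMH.Defs
import Pool.Agent.Lib.CMH.CocLat

/-!
# TANK CMH, cocompactness: the lattice `L = (𝓞 + 𝓞 √-D)³`, its coordinates and its real points
-/

set_option autoImplicit false

open Matrix NumberField Module

namespace Pool.Agent.CMH

variable {F : Type} [Field F] [NumberField F]

/-- the index set of the coordinates of `L` -/
abbrev cT (F : Type) [Field F] [NumberField F] : Type := Fin 2 × Fin 3 × cocI F

/-- `L`: pairs of vectors `(z 0, z 1)` standing for `z 0 + √-D z 1` -/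
abbrev cL (F : Type) [Field F] : Type := Fin 2 → Fin 3 → 𝓞 F

/-- the real points of `L` -/
abbrev cV (F : Type) [Field F] : Type := Fin 2 → Fin 3 → (F →+* ℝ) → ℝ

/-- the coordinates of `L` -/
noncomputable def eL : cL F ≃ₗ[ℤ] (cT F → ℤ) where
  toFun z t := (RingOfIntegers.basis F).equivFun (z t.1 t.2.1) t.2.2
  invFun X e j := (RingOfIntegers.basis F).equivFun.symm (fun i => X (e, j, i))
  left_inv z := by
    funext e j
    exact (RingOfIntegers.basis F).equivFun.symm_apply_apply (z e j)
  right_inv X := by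
    funext t
    exact congrFun ((RingOfIntegers.basis F).equivFun.apply_symm_apply
      (fun i => X (t.1, t.2.1, i))) t.2.2
  map_add' z z' := by
    funext t
    exact congrFun (map_add (RingOfIntegers.basis F).equivFun (z t.1 t.2.1) (z' t.1 t.2.1)) t.2.2
  map_smul' r z := by
    funext t
    exact congrFun (map_smul (RingOfIntegers.basis F).equivFun r (z t.1 t.2.1)) t.2.2

/-- multiplication by an integer of `F` -/
noncomputable def mulO (r : 𝓞 F) : cL F →ₗ[ℤ] cL F where
  toFun z e j := r * z e j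
  map_add' z z' := by funext e j; exact mul_add _ _ _
  map_smul' c z := by
    funext e j
    exact mul_smul_comm c r (z e j)

/-- multiplication by `√-D` -/
noncomputable def mulJ (D : 𝓞 F) : cL F →ₗ[ℤ] cL F where
  toFun z := ![fun j => -(D * z 1 j), fun j => z 0 j]
  map_add' z z' := by
    funext e j
    fin_cases e
    · change -(D * (z 1 j + z' 1 j)) = -(D * z 1 j) + -(D * z' 1 j)
      ring
    · rfl
  map_smul' c z := by
    funext e j
    fin_cases e
    · change -(D * (c • z 1 j)) = c • -(D * z 1 j)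
      rw [mul_smul_comm, smul_neg]
    · rfl

/-- the `𝓞`-valued form `Re h`, `h' = diag(k)` with `k` integral -/
noncomputable def be (D : 𝓞 F) (k : Fin 3 → 𝓞 F) (z z' : cL F) : 𝓞 F :=
  ∑ j, k j * (z 0 j * z' 0 j + D * (z 1 j * z' 1 j))

/-- the matrices of the multiplications by the integral basis and by `√-D` -/
noncomputable def cM (D : 𝓞 F) : Option (cocI F) → Matrix (cT F) (cT F) ℤ
  | none => LinearMap.toMatrix' (eL.toLinearMap ∘ₗ mulJ D ∘ₗ eL.symm.toLinearMap)
  | some i => LinearMap.toMatrix'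
      (eL.toLinearMap ∘ₗ mulO (RingOfIntegers.basis F i) ∘ₗ eL.symm.toLinearMap)

/-- the matrices of the coordinates of `Re h` -/
noncomputable def cB (D : 𝓞 F) (k : Fin 3 → 𝓞 F) (i : cocI F) : Matrix (cT F) (cT F) ℤ :=
  fun s t => (RingOfIntegers.basis F).equivFun
    (be D k (eL.symm (Pi.single s 1)) (eL.symm (Pi.single t 1))) i

/-- the action of a pair of integral matrices on `L` -/
def actL (D : 𝓞 F) (X Y : Matrix (Fin 3) (Fin 3) (𝓞 F)) (z : cL F) : cL F :=
  ![X *ᵥ z 0 - D • (Y *ᵥ z 1), Y *ᵥ z 0 + X *ᵥ z 1]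

/-- the pair of matrices over `F` -/
def toMat (X Y : Matrix (Fin 3) (Fin 3) (𝓞 F)) : Mat F :=
  (X.map (algebraMap (𝓞 F) F), Y.map (algebraMap (𝓞 F) F))

/-- ROW S1 : an integral matrix which commutes with the multiplications and preserves the form
comes from the unitary group -/
def RowS1 : Prop := ∀ (F : Type) [Field F] [NumberField F] [IsTotallyReal F] (D : 𝓞 F)
  (h : Fin 3 → F) (k : Fin 3 → 𝓞 F) (c N : ℕ) (_ : 0 < c) (_ : ∀ j, (k j : F) = (c : F) * h j)
  (_ : 0 < N) (δ : Matrix (cT F) (cT F) ℤ),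
  (∀ i, δᵀ * cB D k i * δ = cB D k i) → (∀ o, δ * cM D o = cM D o * δ) →
  (∀ s t, (N : ℤ) ∣ (δ - 1) s t) → IsUnit δ.det →
  ∃ X Y X' Y' : Matrix (Fin 3) (Fin 3) (𝓞 F),
    toMat X Y ∈ Gam (D : F) h N ∧ (∀ z, δ *ᵥ eL z = eL (actL D X Y z)) ∧
    toMat X' Y' ∈ Gam (D : F) h N ∧ (∀ z, actL D X' Y' (actL D X Y z) = z) ∧
    (∀ z, actL D X Y (actL D X' Y' z) = z)

variable [IsTotallyReal F]

/-- the real coordinates -/
noncomputable def eP : (cT F → ℝ) ≃ₗ[ℝ] cV F where
  toFun X e j := cocP F (fun i => X (e, j, i))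
  invFun z t := (cocP F).symm (z t.1 t.2.1) t.2.2
  left_inv X := by
    funext t
    exact congrFun ((cocP F).symm_apply_apply (fun i => X (t.1, t.2.1, i))) t.2.2
  right_inv z := by
    funext e j
    exact (cocP F).apply_symm_apply (z e j)
  map_add' z z' := by
    funext e j
    exact map_add (cocP F) _ _
  map_smul' r z := by
    funext e j
    exact map_smul (cocP F) _ _

omit [NumberField F] [IsTotallyReal F] in
/-- the real point of an element of `L` -/
def rl (z : cL F) : cV F := fun e j σ => σ (z e j : F)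

theorem eP_int (z : cL F) : eP (fun t => (eL z t : ℝ)) = rl z := by
  funext e j σ
  exact cocP_int (z e j) σ

/-- real linear maps are determined by the integral vectors -/
theorem coc_ext {W : Type} [AddCommGroup W] [Module ℝ W] (f g : (cT F → ℝ) →ₗ[ℝ] W)
    (h : ∀ z : cL F, f (fun t => (eL z t : ℝ)) = g (fun t => (eL z t : ℝ))) : f = g := by
  refine (Pi.basisFun ℝ (cT F)).ext fun t => ?_
  have h1 := h (eL.symm (Pi.single t 1))
  have h2 : (fun t' => ((eL (eL.symm (Pi.single t 1 : cT F → ℤ)) t' : ℤ) : ℝ)) =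
      (Pi.basisFun ℝ (cT F)) t := by
    rw [eL.apply_symm_apply, Pi.basisFun_apply]
    funext t'
    by_cases h3 : t' = t
    · subst h3; simp
    · simp [h3]
  rwa [h2] at h1

end Pool.Agent.CMH
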