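import Mathlib

/-! # Reduction of lattices: bounded bases modulo a congruence subgroup -/

set_option autoImplicit false

open Matrix MeasureTheory

namespace Pool.CMH.Rd

variable {n : Type} [Fintype n] [DecidableEq n]

/-- Minkowski's theorem for the standard lattice and the image of the cube -/
theorem minkowski (g A : Matrix n n ℝ) (hg : g.det ≠ 0) (h : |g.det| < |A.det|) :
    ∃ (x : n → ℤ) (b : n → ℝ), x ≠ 0 ∧ ‖b‖ ≤ 1 ∧ g *ᵥ (fun i => (x i : ℝ)) = A *ᵥ b := by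
  let f : (n → ℝ) →ₗ[ℝ] (n → ℝ) := Matrix.toLin' (g⁻¹ * A)
  let s : Set (n → ℝ) := f '' Metric.closedBall 0 1
  have hs : volume s = ENNReal.ofReal (|g.det|⁻¹ * |A.det|) * 2 ^ Fintype.card n := by
    rw [Measure.addHaar_image_linearMap, LinearMap.det_toLin', Real.volume_pi_closedBall _ zero_le_one,
      Matrix.det_mul, Matrix.det_nonsing_inv, Ring.inverse_eq_inv', abs_mul, abs_inv, mul_one,
      ENNReal.ofReal_pow (by norm_num), ENNReal.ofReal_ofNat]
  have hF := ZSpan.isAddFundamentalDomain' (Pi.basisFun ℝ n) volume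
  have hcount : Countable (Submodule.span ℤ (Set.range (Pi.basisFun ℝ n))).toAddSubgroup :=
    inferInstanceAs (Countable (Submodule.span ℤ (Set.range (Pi.basisFun ℝ n))))
  obtain ⟨x, hx0, hxs⟩ := exists_ne_zero_mem_lattice_of_measure_mul_two_pow_lt_measure (s := s) hF
    (by
      rintro _ ⟨b, hb, rfl⟩
      exact ⟨-b, by simpa using hb, map_neg f b⟩)
    ((convex_closedBall _ _).linear_image f) (by
      rw [hs, Module.finrank_pi, ZSpan.volume_fundamentalDomain]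
      have h1 : (Matrix.of ⇑(Pi.basisFun ℝ n)) = (1 : Matrix n n ℝ) := by
        ext i j
        simp [Matrix.one_apply, Pi.single_apply, eq_comm]
      rw [h1, Matrix.det_one, abs_one, ENNReal.ofReal_one, one_mul]
      have h2 : (1 : ENNReal) < ENNReal.ofReal (|g.det|⁻¹ * |A.det|) := by
        rw [← ENNReal.ofReal_one]
        apply (ENNReal.ofReal_lt_ofReal_iff_of_nonneg zero_le_one).2
        rw [inv_mul_eq_div, one_lt_div (abs_pos.2 hg)]
        exact h
      calc (2 : ENNReal) ^ Fintype.card n = 1 * 2 ^ Fintype.card n := (one_mul _).symm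
        _ < _ := by
          apply (ENNReal.mul_lt_mul_iff_left (by positivity) (by finiteness)).2 h2)
  obtain ⟨b, hb, hbx⟩ := hxs
  have hmem : (x : n → ℝ) ∈ Submodule.span ℤ (Set.range (Pi.basisFun ℝ n)) := x.2
  rw [Module.Basis.mem_span_iff_repr_mem] at hmem
  choose y hy using hmem
  refine ⟨y, b, ?_, by simpa using hb, ?_⟩
  · rintro rfl
    apply hx0
    apply Subtype.ext
    funext i
    have := hy i
    simpa using this.symm
  · have h3 : (fun i => ((y i : ℤ) : ℝ)) = (x : n → ℝ) := by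
      funext i
      have := hy i
      simpa using this
    rw [h3, ← hbx]
    change g *ᵥ (Matrix.toLin' (g⁻¹ * A) b) = _
    rw [Matrix.toLin'_apply, Matrix.mulVec_mulVec, ← mul_assoc,
      Matrix.mul_nonsing_inv _ (isUnit_iff_ne_zero.2 hg), one_mul]

/-- bound for the lattice vectors found outside a hyperplane -/
noncomputable def offC (n : Type) [Fintype n] (c D : ℝ) : ℝ :=
  c / 2 * (1 + D / (c / 2) ^ Fintype.card n * Fintype.card n)

/-- a bounded lattice vector outside any hyperplane -/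
theorem exists_off (g : Matrix n n ℝ) (hg : g.det ≠ 0) {c D : ℝ} (hc : 0 < c) (hD : |g.det| ≤ D)
    (hmin : ∀ x : n → ℤ, x ≠ 0 → c ≤ ‖g *ᵥ (fun i => (x i : ℝ))‖)
    (f : (n → ℝ) →ₗ[ℝ] ℝ) (hf : f ≠ 0) :
    ∃ x : n → ℤ, f (fun i => (x i : ℝ)) ≠ 0 ∧ ‖g *ᵥ (fun i => (x i : ℝ))‖ ≤ offC n c D := by
  classical
  have hgu : IsUnit g.det := isUnit_iff_ne_zero.2 hg
  let ℓ : (n → ℝ) →ₗ[ℝ] ℝ := f ∘ₗ Matrix.toLin' g⁻¹
  have hℓ : ∀ x, ℓ (g *ᵥ x) = f x := by
    intro x
    change f (Matrix.toLin' g⁻¹ (g *ᵥ x)) = f x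
    rw [Matrix.toLin'_apply, Matrix.mulVec_mulVec, Matrix.nonsing_inv_mul _ hgu, Matrix.one_mulVec]
  have hℓs : ∀ b : n → ℝ, ℓ b = ∑ j, b j * ℓ (Pi.single j 1) := by
    intro b
    conv_lhs => rw [← Finset.univ_sum_single b]
    rw [map_sum]
    refine Finset.sum_congr rfl fun j _ => ?_
    rw [show (Pi.single j (b j) : n → ℝ) = b j • Pi.single j 1 by
      rw [← Pi.single_smul]; simp, map_smul, smul_eq_mul]
  have hne : Nonempty n := by
    by_contra hn
    rw [not_nonempty_iff] at hn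
    apply hf
    ext i
    exact hn.elim i
  obtain ⟨i₀, -, hi₀⟩ := Finset.exists_max_image Finset.univ (fun j => |ℓ (Pi.single j 1)|)
    Finset.univ_nonempty
  set t := ℓ (Pi.single i₀ 1) with ht
  have ht0 : t ≠ 0 := by
    intro h0
    apply hf
    refine LinearMap.ext fun x => ?_
    rw [← hℓ, hℓs, LinearMap.zero_apply]
    refine Finset.sum_eq_zero fun j _ => ?_
    have := hi₀ j (Finset.mem_univ j)
    rw [h0, abs_zero] at this
    rw [abs_eq_zero.1 (le_antisymm this (abs_nonneg _)), mul_zero]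
  set r := c / 2 with hr
  have hr0 : 0 < r := by positivity
  have hD0 : 0 ≤ D := (abs_nonneg _).trans hD
  set ρ := D / r ^ Fintype.card n with hρ
  have hρ0 : 0 ≤ ρ := by positivity
  let v : n → ℝ := fun j => ℓ (Pi.single j 1) / t
  have hv1 : ∀ j, |v j| ≤ 1 := by
    intro j
    change |ℓ (Pi.single j 1) / t| ≤ 1
    rw [abs_div, div_le_one (abs_pos.2 ht0)]
    exact hi₀ j (Finset.mem_univ j)
  have hvi : v i₀ = 1 := div_self ht0
  let u : n → ℝ := Pi.single i₀ ρ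
  let A : Matrix n n ℝ := r • (1 + Matrix.replicateCol Unit u * Matrix.replicateRow Unit v)
  have hAdet : A.det = r ^ Fintype.card n + D := by
    have h1 : A.det = r ^ Fintype.card n * (1 + v ⬝ᵥ u) := by
      change (r • (1 + Matrix.replicateCol Unit u * Matrix.replicateRow Unit v)).det = _
      rw [Matrix.det_smul, Matrix.det_one_add_replicateCol_mul_replicateRow]
    rw [h1, show v ⬝ᵥ u = ρ by
      change v ⬝ᵥ Pi.single i₀ ρ = ρ
      rw [dotProduct_single, hvi, one_mul], hρ]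
    field_simp
  have hAb : ∀ b : n → ℝ, A *ᵥ b = r • (b + (v ⬝ᵥ b) • u) := by
    intro b
    change (r • (1 + Matrix.replicateCol Unit u * Matrix.replicateRow Unit v)) *ᵥ b = _
    rw [Matrix.smul_mulVec, Matrix.add_mulVec, Matrix.one_mulVec, ← Matrix.mulVec_mulVec]
    congr 2
    funext i
    simp [Matrix.mulVec, dotProduct, mul_comm]
  obtain ⟨x, b, hx0, hb1, hxb⟩ := minkowski g A hg (by
    have h0 : 0 < r ^ Fintype.card n := by positivity
    have h1 : 0 < r ^ Fintype.card n + D := by linarith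
    rw [hAdet, abs_of_pos h1]
    linarith)
  have hvb : |v ⬝ᵥ b| ≤ Fintype.card n := by
    unfold dotProduct
    refine (Finset.abs_sum_le_sum_abs _ _).trans ?_
    have : ∀ j ∈ Finset.univ, |v j * b j| ≤ 1 := by
      intro j _
      rw [abs_mul]
      have h2 : |b j| ≤ 1 := (norm_le_pi_norm b j).trans hb1
      exact mul_le_one₀ (hv1 j) (abs_nonneg _) h2
    refine (Finset.sum_le_sum this).trans ?_
    simp
  have hun : ‖u‖ ≤ ρ := by
    rw [pi_norm_le_iff_of_nonneg hρ0]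
    intro j
    change ‖(Pi.single i₀ ρ : n → ℝ) j‖ ≤ ρ
    rw [Pi.single_apply]
    split_ifs
    · rw [Real.norm_eq_abs, abs_of_nonneg hρ0]
    · simpa using hρ0
  refine ⟨x, fun h0 => ?_, ?_⟩
  · -- on the hyperplane the vector would be short
    have h1 : ℓ b = t * (v ⬝ᵥ b) := by
      rw [hℓs, dotProduct, Finset.mul_sum]
      refine Finset.sum_congr rfl fun j _ => ?_
      change _ = t * (ℓ (Pi.single j 1) / t * b j)
      field_simp
    have h2 : ℓ u = ρ * t := by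
      rw [hℓs]
      change ∑ j, (Pi.single i₀ ρ : n → ℝ) j * _ = _
      rw [Finset.sum_eq_single i₀]
      · rw [Pi.single_eq_same]
      · intro j _ hj
        rw [Pi.single_eq_of_ne hj, zero_mul]
      · intro h
        exact absurd (Finset.mem_univ _) h
    rw [← hℓ, hxb, hAb, map_smul, map_add, map_smul, h1, h2, smul_eq_mul, smul_eq_mul] at h0
    have h3 : r * t * (1 + ρ) * (v ⬝ᵥ b) = 0 := by
      linear_combination h0
    have h4 : v ⬝ᵥ b = 0 := by
      rcases mul_eq_zero.1 h3 with h | h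
      · exact absurd h (by positivity)
      · exact h
    have h5 := hmin x hx0
    rw [hxb, hAb, h4, zero_smul, add_zero, norm_smul, Real.norm_eq_abs, abs_of_pos hr0] at h5
    have : r * ‖b‖ ≤ r := by nlinarith [norm_nonneg b]
    linarith
  · rw [hxb, hAb, norm_smul, Real.norm_eq_abs, abs_of_pos hr0]
    unfold offC
    rw [← hr, ← hρ]
    apply mul_le_mul_of_nonneg_left _ hr0.le
    refine (norm_add_le _ _).trans ?_
    rw [norm_smul, Real.norm_eq_abs]
    have : |v ⬝ᵥ b| * ‖u‖ ≤ Fintype.card n * ρ :=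
      mul_le_mul hvb hun (norm_nonneg _) (Nat.cast_nonneg _)
    linarith

/-- a bounded integral matrix with nonzero determinant -/
theorem exists_V (g : Matrix n n ℝ) (hg : g.det ≠ 0) {c D : ℝ} (hc : 0 < c) (hD : |g.det| ≤ D)
    (hmin : ∀ x : n → ℤ, x ≠ 0 → c ≤ ‖g *ᵥ (fun i => (x i : ℝ))‖) :
    ∃ V : Matrix n n ℤ, V.det ≠ 0 ∧ ∀ i j, |(g * V.map (Int.cast : ℤ → ℝ)) i j| ≤ offC n c D := by
  let S : Set (n → ℝ) := {y | ∃ x : n → ℤ, y = (fun i => (x i : ℝ)) ∧ ‖g *ᵥ y‖ ≤ offC n c D}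
  have hS : Submodule.span ℝ S = ⊤ := by
    by_contra hne
    obtain ⟨f, hf0, hf⟩ := Submodule.exists_le_ker_of_lt_top _ (lt_top_iff_ne_top.2 hne)
    obtain ⟨x, hx1, hx2⟩ := exists_off g hg hc hD hmin f hf0
    exact hx1 (hf (Submodule.subset_span ⟨x, rfl, hx2⟩))
  obtain ⟨b, hbS, hbspan, hbli⟩ := exists_linearIndependent ℝ S
  rw [hS] at hbspan
  let bb : Module.Basis b ℝ (n → ℝ) := Module.Basis.mk hbli (by
    rw [Subtype.range_coe, hbspan])
  have hfin : Finite b := Module.Finite.finite_basis bb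
  have := Fintype.ofFinite b
  let e : n ≃ b := Fintype.equivOfCardEq (by
    rw [← Module.finrank_eq_card_basis bb, Module.finrank_pi])
  choose V0 hV0 hV1 using fun y : b => hbS y.2
  let V : Matrix n n ℤ := Matrix.of fun i j => V0 (e j) i
  have hcol : ∀ j, (fun i => ((V i j : ℤ) : ℝ)) = (e j : n → ℝ) := fun j => (hV0 (e j)).symm
  refine ⟨V, ?_, ?_⟩
  · intro h0
    have h1 : (V.map (Int.cast : ℤ → ℝ)).det = 0 := by
      have := Int.cast_det (R := ℝ) V
      rw [h0] at this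
      simpa using this.symm
    have h2 : LinearIndependent ℝ (fun j => (e j : n → ℝ)) := hbli.comp e e.injective
    have h3 : IsUnit (V.map (Int.cast : ℤ → ℝ))ᵀ := by
      apply Matrix.linearIndependent_rows_iff_isUnit.1
      have h4 : (V.map (Int.cast : ℤ → ℝ))ᵀ.row = fun j => (e j : n → ℝ) :=
        funext fun j => hcol j
      rw [h4]
      exact h2
    rw [Matrix.isUnit_iff_isUnit_det, Matrix.det_transpose, h1] at h3
    exact not_isUnit_zero h3
  · intro i j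
    have h1 : (g * V.map (Int.cast : ℤ → ℝ)) i j = (g *ᵥ (e j : n → ℝ)) i := by
      rw [← hcol j]
      rfl
    rw [h1]
    exact (norm_le_pi_norm (g *ᵥ (e j : n → ℝ)) i).trans (hV1 (e j))

/-! ## Entrywise bounds -/

omit [DecidableEq n] in
theorem bdd_mul {A B : Matrix n n ℝ} {a b : ℝ} (hA : ∀ i j, |A i j| ≤ a) (hB : ∀ i j, |B i j| ≤ b)
    (i j : n) : |(A * B) i j| ≤ Fintype.card n * (a * b) := by
  rw [Matrix.mul_apply]
  refine (Finset.abs_sum_le_sum_abs _ _).trans ?_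
  have : ∀ k ∈ Finset.univ, |A i k * B k j| ≤ a * b := by
    intro k _
    rw [abs_mul]
    exact mul_le_mul (hA i k) (hB k j) (abs_nonneg _) ((abs_nonneg _).trans (hA i k))
  refine (Finset.sum_le_sum this).trans ?_
  simp

theorem bdd_det {A : Matrix n n ℝ} {a : ℝ} (hA : ∀ i j, |A i j| ≤ a) :
    |A.det| ≤ (Fintype.card n).factorial * a ^ Fintype.card n := by
  have := Matrix.det_le (abv := AbsoluteValue.abs) (A := A) (x := a) hA
  simpa using this

theorem bdd_adj {A : Matrix n n ℝ} {a : ℝ} (ha : 1 ≤ a) (hA : ∀ i j, |A i j| ≤ a) (i j : n) :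
    |A.adjugate i j| ≤ (Fintype.card n).factorial * a ^ Fintype.card n := by
  rw [Matrix.adjugate_apply]
  apply bdd_det
  intro k l
  rw [Matrix.updateRow_apply]
  split_ifs
  · rw [Pi.single_apply]
    split_ifs
    · simpa using ha
    · rw [abs_zero]
      linarith
  · exact hA k l

omit [DecidableEq n] in
theorem finite_bdd' (X : ℝ) : {A : Matrix n n ℤ | ∀ i j, |((A i j : ℤ) : ℝ)| ≤ X}.Finite := by
  have h : {A : n → n → ℤ | ∀ i, A i ∈ {f : n → ℤ | ∀ j, f j ∈ Set.Icc (-⌊X⌋) ⌊X⌋}}.Finite :=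
    Set.Finite.pi' fun _ => Set.Finite.pi' fun _ => Set.finite_Icc _ _
  refine h.subset ?_
  intro A hA i j
  have h1 : |A i j| ≤ ⌊X⌋ := Int.le_floor.2 (by
    push_cast
    exact hA i j)
  exact abs_le.1 h1

/-! ## The reduction theorem -/

/-- the conditions on the real matrices -/
structure RedH {κ κ' : Type} (M : κ → Matrix n n ℤ) (B : κ' → Matrix n n ℤ) (c C₀ D₁ D₂ : ℝ)
    (g : Matrix n n ℝ) : Prop where
  det1 : D₁ ≤ |g.det|
  det2 : |g.det| ≤ D₂
  min : ∀ x : n → ℤ, x ≠ 0 → c ≤ ‖g *ᵥ (fun i => (x i : ℝ))‖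
  bdB : ∀ k i j, |(g⁻¹ᵀ * (B k).map (Int.cast : ℤ → ℝ) * g⁻¹) i j| ≤ C₀
  bdM : ∀ k i j, |(g * (M k).map (Int.cast : ℤ → ℝ) * g⁻¹) i j| ≤ C₀

/-- the data of an integral matrix -/
def tup {κ κ' : Type} (M : κ → Matrix n n ℤ) (B : κ' → Matrix n n ℤ) (K : ℕ) (V : Matrix n n ℤ) :
    ((n → n → ZMod K) × ℤ) × ((κ' → Matrix n n ℤ) × (κ → Matrix n n ℤ)) :=
  ((fun i j => (V i j : ZMod K), V.det),
    (fun k => Vᵀ * B k * V, fun k => V.adjugate * M k * V))

omit [DecidableEq n] in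
theorem cast_mul (A B : Matrix n n ℤ) :
    (A * B).map (Int.cast : ℤ → ℝ) = A.map (Int.cast : ℤ → ℝ) * B.map (Int.cast : ℤ → ℝ) := by
  ext i j
  simp [Matrix.mul_apply]

theorem conjB (g : Matrix n n ℝ) (hg : g.det ≠ 0) (V B : Matrix n n ℤ) :
    (g * V.map (Int.cast : ℤ → ℝ))ᵀ * (g⁻¹ᵀ * B.map (Int.cast : ℤ → ℝ) * g⁻¹) *
      (g * V.map (Int.cast : ℤ → ℝ)) = (Vᵀ * B * V).map (Int.cast : ℤ → ℝ) := by
  have h2 : g⁻¹ * g = 1 := Matrix.nonsing_inv_mul _ (isUnit_iff_ne_zero.2 hg)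
  have h3 : gᵀ * g⁻¹ᵀ = 1 := by rw [← Matrix.transpose_mul, h2, Matrix.transpose_one]
  rw [cast_mul, cast_mul, Matrix.transpose_mul]
  have h4 : Vᵀ.map (Int.cast : ℤ → ℝ) = (V.map (Int.cast : ℤ → ℝ))ᵀ := rfl
  rw [h4]
  set v := V.map (Int.cast : ℤ → ℝ)
  set b := B.map (Int.cast : ℤ → ℝ)
  calc vᵀ * gᵀ * (g⁻¹ᵀ * b * g⁻¹) * (g * v) = vᵀ * (gᵀ * g⁻¹ᵀ) * b * (g⁻¹ * g) * v := by
        simp only [Matrix.mul_assoc]
    _ = vᵀ * b * v := by rw [h2, h3, Matrix.mul_one, Matrix.mul_one]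

theorem conjM (g : Matrix n n ℝ) (hg : g.det ≠ 0) (V M : Matrix n n ℤ) :
    (g * V.map (Int.cast : ℤ → ℝ)).adjugate * (g * M.map (Int.cast : ℤ → ℝ) * g⁻¹) *
      (g * V.map (Int.cast : ℤ → ℝ)) =
      g.det • (V.adjugate * M * V).map (Int.cast : ℤ → ℝ) := by
  have h2 : g⁻¹ * g = 1 := Matrix.nonsing_inv_mul _ (isUnit_iff_ne_zero.2 hg)
  have h4 : V.adjugate.map (Int.cast : ℤ → ℝ) = (V.map (Int.cast : ℤ → ℝ)).adjugate :=
    (Int.castRingHom ℝ).map_adjugate V
  rw [cast_mul, cast_mul, h4, Matrix.adjugate_mul_distrib]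
  set v := V.map (Int.cast : ℤ → ℝ)
  set b := M.map (Int.cast : ℤ → ℝ)
  calc v.adjugate * g.adjugate * (g * b * g⁻¹) * (g * v)
      = v.adjugate * (g.adjugate * g) * b * (g⁻¹ * g) * v := by
        simp only [Matrix.mul_assoc]
    _ = g.det • (v.adjugate * b * v) := by
      rw [h2, Matrix.adjugate_mul, Matrix.mul_one, Matrix.mul_smul, Matrix.mul_one,
        Matrix.smul_mul, Matrix.smul_mul]

/-- equal data: the quotient is an automorphism -/
theorem exists_delta {κ κ' : Type} (M : κ → Matrix n n ℤ) (B : κ' → Matrix n n ℤ) (m K : ℕ)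
    (V W : Matrix n n ℤ) (hV : V.det ≠ 0) (hK : (m : ℤ) * V.det ∣ K)
    (h : tup M B K V = tup M B K W) :
    ∃ δ : Matrix n n ℤ, IsUnit δ.det ∧ (∀ k, δᵀ * B k * δ = B k) ∧ (∀ k, δ * M k = M k * δ) ∧
      (∀ i j, (m : ℤ) ∣ (δ - 1) i j) ∧ δ * W = V := by
  have h1 : ∀ i j, (V i j : ZMod K) = W i j := fun i j => congrFun (congrFun
    (congrArg (fun t => t.1.1) h) i) j
  have h2 : V.det = W.det := congrArg (fun t => t.1.2) h
  have h3 : ∀ k, Vᵀ * B k * V = Wᵀ * B k * W := fun k => congrFun (congrArg (fun t => t.2.1) h) k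
  have h4 : ∀ k, V.adjugate * M k * V = W.adjugate * M k * W := fun k =>
    congrFun (congrArg (fun t => t.2.2) h) k
  set d := V.det with hd
  have hW : W.det = d := h2.symm
  -- the difference is divisible
  have h5 : ∀ i j, (m : ℤ) * d ∣ V i j - W i j := by
    intro i j
    have := (ZMod.intCast_eq_intCast_iff_dvd_sub (W i j) (V i j) K).1 (h1 i j).symm
    exact hK.trans this
  choose Q hQ using h5
  let Q' : Matrix n n ℤ := Matrix.of Q
  have hQ' : V - W = (m * d : ℤ) • Q' := by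
    ext i j
    exact hQ i j
  have hdel : (1 + (m : ℤ) • (Q' * W.adjugate)) * W = V := by
    rw [add_mul, one_mul, Matrix.smul_mul, Matrix.mul_assoc, Matrix.adjugate_mul, hW,
      Matrix.mul_smul, Matrix.mul_one, smul_smul, ← hQ']
    abel
  set δ : Matrix n n ℤ := 1 + (m : ℤ) • (Q' * W.adjugate) with hδ
  have hdet : δ.det = 1 := by
    have h6 : δ.det * W.det = V.det := by
      rw [← Matrix.det_mul, hdel]
    rw [hW, ← hd] at h6
    exact mul_right_cancel₀ hV (h6.trans (one_mul d).symm)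
  -- cancellation of `W`
  have hcanr : ∀ A A' : Matrix n n ℤ, A * W = A' * W → A = A' := by
    intro A A' hA
    have h7 := congrArg (· * W.adjugate) hA
    simp only [Matrix.mul_assoc, Matrix.mul_adjugate, hW, Matrix.mul_smul, Matrix.mul_one] at h7
    ext i j
    have h8 := congrFun (congrFun h7 i) j
    simp only [Matrix.smul_apply, smul_eq_mul] at h8
    exact mul_left_cancel₀ hV h8
  have hcanl : ∀ A A' : Matrix n n ℤ, Wᵀ * A = Wᵀ * A' → A = A' := by
    intro A A' hA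
    have h7 := congrArg Matrix.transpose hA
    rw [Matrix.transpose_mul, Matrix.transpose_mul, Matrix.transpose_transpose] at h7
    have h8 := hcanr _ _ h7
    rw [← Matrix.transpose_transpose A, h8, Matrix.transpose_transpose]
  refine ⟨δ, by rw [hdet]; exact isUnit_one, fun k => ?_, fun k => ?_, fun i j => ?_, hdel⟩
  · apply hcanl
    apply hcanr
    have h9 := h3 k
    rw [← hdel, Matrix.transpose_mul] at h9
    simpa only [Matrix.mul_assoc] using h9
  · apply hcanr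
    -- `V adj(W) = d δ`
    have h10 : V * W.adjugate = d • δ := by
      rw [← hdel, Matrix.mul_assoc, Matrix.mul_adjugate, hW, Matrix.mul_smul, Matrix.mul_one]
    have h9 : V * (V.adjugate * M k * V) = V * (W.adjugate * M k * W) :=
      congrArg (V * ·) (h4 k)
    rw [← Matrix.mul_assoc, ← Matrix.mul_assoc, Matrix.mul_adjugate, ← hd, Matrix.smul_mul,
      Matrix.one_mul, Matrix.smul_mul, ← Matrix.mul_assoc, ← Matrix.mul_assoc, h10,
      Matrix.smul_mul, Matrix.smul_mul] at h9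
    ext i j
    have h11 := congrFun (congrFun h9 i) j
    simp only [Matrix.smul_apply, smul_eq_mul] at h11
    have h12 := mul_left_cancel₀ hV h11
    rw [← h12, ← hdel, Matrix.mul_assoc]
  · rw [hδ, add_sub_cancel_left, Matrix.smul_apply, smul_eq_mul]
    exact dvd_mul_right _ _

/-- **reduction**: every `g` can be moved by the congruence subgroup of the automorphism group of
the forms `B k` and of the endomorphisms `M k` into a bounded set. -/
theorem red {κ κ' : Type} [Finite κ] [Finite κ'] (M : κ → Matrix n n ℤ) (B : κ' → Matrix n n ℤ)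
    (m : ℕ) (hm : m ≠ 0) (c C₀ D₁ D₂ : ℝ) (hc : 0 < c) (hD : 0 < D₁) :
    ∃ C : ℝ, ∀ g : Matrix n n ℝ, RedH M B c C₀ D₁ D₂ g →
      ∃ δ : Matrix n n ℤ, IsUnit δ.det ∧ (∀ k, δᵀ * B k * δ = B k) ∧
        (∀ k, δ * M k = M k * δ) ∧ (∀ i j, (m : ℤ) ∣ (δ - 1) i j) ∧
        ∀ i j, |(g * δ.map (Int.cast : ℤ → ℝ)) i j| ≤ C := by
  classical
  set C1 := max 1 (offC n c D₂) with hC1
  have hC1' : 1 ≤ C1 := le_max_left _ _
  set X := (Fintype.card n).factorial * C1 ^ Fintype.card n with hX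
  have hX0 : 0 ≤ X := by positivity
  set N := ⌊X / D₁⌋₊ with hN
  set K := m * N.factorial with hK
  have hK0 : K ≠ 0 := mul_ne_zero hm (Nat.factorial_ne_zero _)
  have : NeZero K := ⟨hK0⟩
  -- the integral matrices
  have hV : ∀ g, RedH M B c C₀ D₁ D₂ g → ∃ V : Matrix n n ℤ, V.det ≠ 0 ∧
      ∀ i j, |(g * V.map (Int.cast : ℤ → ℝ)) i j| ≤ C1 := by
    intro g hg
    have hg0 : g.det ≠ 0 := by
      intro h0
      have := hg.det1
      rw [h0, abs_zero] at this
      linarith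
    obtain ⟨V, h1, h2⟩ := exists_V g hg0 hc hg.det2 hg.min
    exact ⟨V, h1, fun i j => (h2 i j).trans (le_max_right _ _)⟩
  choose! V hV1 hV2 using hV
  let 𝒢 : Set (Matrix n n ℝ) := {g | RedH M B c C₀ D₁ D₂ g}
  -- sizes
  have hdet : ∀ g ∈ 𝒢, |((V g).det : ℝ)| ≤ X / D₁ := by
    intro g hg
    have h1 := bdd_det (hV2 g hg)
    rw [Matrix.det_mul, abs_mul] at h1
    have h2 : ((V g).map (Int.cast : ℤ → ℝ)).det = ((V g).det : ℝ) := (Int.cast_det (V g)).symm
    rw [h2] at h1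
    rw [le_div_iff₀ hD, mul_comm]
    exact (mul_le_mul_of_nonneg_right hg.det1 (abs_nonneg _)).trans h1
  have hdvd : ∀ g ∈ 𝒢, (m : ℤ) * (V g).det ∣ K := by
    intro g hg
    have h1 : (V g).det.natAbs ≤ N := by
      apply Nat.le_floor
      rw [Nat.cast_natAbs, Int.cast_abs]
      exact hdet g hg
    have h2 : (V g).det.natAbs ∣ N.factorial :=
      Nat.dvd_factorial (Int.natAbs_pos.2 (hV1 g hg)) h1
    rw [hK, Nat.cast_mul]
    exact mul_dvd_mul_left _ (Int.natAbs_dvd.1 (Int.natCast_dvd_natCast.2 h2))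
  -- finiteness of the data
  have hg0 : ∀ g ∈ 𝒢, g.det ≠ 0 := by
    intro g hg h0
    have := hg.det1
    rw [h0, abs_zero] at this
    linarith
  have hfin : ((fun g => tup M B K (V g)) '' 𝒢).Finite := by
    obtain ⟨Y, hY⟩ : ∃ Y : ℝ, ∀ g ∈ 𝒢, ∀ k i j,
        |(((V g)ᵀ * B k * V g) i j : ℝ)| ≤ Y := by
      refine ⟨Fintype.card n * (Fintype.card n * (C1 * C₀) * C1), fun g hg k i j => ?_⟩
      have h6 := bdd_mul (bdd_mul (A := (g * (V g).map (Int.cast : ℤ → ℝ))ᵀ)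
        (fun i j => hV2 g hg j i) (hg.bdB k)) (hV2 g hg) i j
      rw [conjB g (hg0 g hg)] at h6
      exact h6
    obtain ⟨Y', hY'⟩ : ∃ Y : ℝ, ∀ g ∈ 𝒢, ∀ k i j,
        |(((V g).adjugate * M k * V g) i j : ℝ)| ≤ Y := by
      refine ⟨D₁⁻¹ * (Fintype.card n * (Fintype.card n * (X * C₀) * C1)), fun g hg k i j => ?_⟩
      have h6 := bdd_mul (bdd_mul (bdd_adj hC1' (hV2 g hg)) (hg.bdM k)) (hV2 g hg) i j
      rw [conjM g (hg0 g hg), Matrix.smul_apply, smul_eq_mul, abs_mul] at h6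
      have h7 := mul_le_mul_of_nonneg_right hg.det1
        (abs_nonneg ((((V g).adjugate * M k * V g).map (Int.cast : ℤ → ℝ)) i j))
      rw [inv_mul_eq_div, le_div_iff₀ hD, mul_comm]
      exact h7.trans h6
    have hf1 : (Set.univ : Set (n → n → ZMod K)).Finite := Set.finite_univ
    have hf2 : {d : ℤ | |(d : ℝ)| ≤ X / D₁}.Finite := by
      refine (Set.finite_Icc (-⌊X / D₁⌋) ⌊X / D₁⌋).subset ?_
      intro d hd
      have h1 : |d| ≤ ⌊X / D₁⌋ := Int.le_floor.2 (by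
        rw [Int.cast_abs]
        exact hd)
      exact abs_le.1 h1
    have hf3 : {f : κ' → Matrix n n ℤ | ∀ k, f k ∈ {A : Matrix n n ℤ |
        ∀ i j, |((A i j : ℤ) : ℝ)| ≤ Y}}.Finite := Set.Finite.pi' fun _ => finite_bdd' Y
    have hf4 : {f : κ → Matrix n n ℤ | ∀ k, f k ∈ {A : Matrix n n ℤ |
        ∀ i j, |((A i j : ℤ) : ℝ)| ≤ Y'}}.Finite := Set.Finite.pi' fun _ => finite_bdd' Y'
    refine ((hf1.prod hf2).prod (hf3.prod hf4)).subset ?_
    rintro _ ⟨g, hg, rfl⟩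
    exact ⟨⟨Set.mem_univ _, hdet g hg⟩, fun k => hY g hg k, fun k => hY' g hg k⟩
  -- representatives
  have hrep : ∀ t ∈ ((fun g => tup M B K (V g)) '' 𝒢), ∃ (W : Matrix n n ℤ) (c' : ℝ),
      W.det ≠ 0 ∧ tup M B K W = t ∧ ∀ i j, |(W.map (Int.cast : ℤ → ℝ))⁻¹ i j| ≤ c' := by
    rintro _ ⟨g, hg, rfl⟩
    refine ⟨V g, ∑ i, ∑ j, |((V g).map (Int.cast : ℤ → ℝ))⁻¹ i j|, hV1 g hg, rfl, fun i j => ?_⟩
    exact (Finset.single_le_sum (f := fun j => |((V g).map (Int.cast : ℤ → ℝ))⁻¹ i j|)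
      (fun _ _ => abs_nonneg _) (Finset.mem_univ j)).trans
      (Finset.single_le_sum (f := fun i => ∑ j, |((V g).map (Int.cast : ℤ → ℝ))⁻¹ i j|)
        (fun _ _ => Finset.sum_nonneg fun _ _ => abs_nonneg _) (Finset.mem_univ i))
  choose! W c' hW1 hW2 hW3 using hrep
  obtain ⟨C2, hC2⟩ := (hfin.image c').bddAbove
  refine ⟨Fintype.card n * (C1 * C2), fun g hg => ?_⟩
  set t := tup M B K (V g) with ht
  have htm : t ∈ ((fun g => tup M B K (V g)) '' 𝒢) := ⟨g, hg, rfl⟩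
  obtain ⟨δ, h1, h2, h3, h4, h5⟩ := exists_delta M B m K (V g) (W t) (hV1 g hg) (hdvd g hg)
    (hW2 t htm).symm
  refine ⟨δ, h1, h2, h3, h4, ?_⟩
  have hWu : IsUnit ((W t).map (Int.cast : ℤ → ℝ)).det := by
    rw [isUnit_iff_ne_zero, show ((W t).map (Int.cast : ℤ → ℝ)).det = ((W t).det : ℝ) from
      (Int.cast_det (W t)).symm]
    exact Int.cast_ne_zero.2 (hW1 t htm)
  have h6 : g * δ.map (Int.cast : ℤ → ℝ) =
      (g * (V g).map (Int.cast : ℤ → ℝ)) * ((W t).map (Int.cast : ℤ → ℝ))⁻¹ := by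
    rw [← h5, cast_mul, Matrix.mul_assoc, Matrix.mul_assoc, Matrix.mul_nonsing_inv _ hWu,
      Matrix.mul_one]
  rw [h6]
  exact bdd_mul (hV2 g hg) (fun i j => (hW3 t htm i j).trans (hC2 ⟨t, htm, rfl⟩))

end Pool.CMH.Rd
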