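import Mathlib
import Pool.Agent.Lib.CMH.CocDefs
import Pool.Agent.Lib.CMH.Red

/-!
# TANK CMH, cocompactness: the real side
-/

set_option autoImplicit false

open Matrix NumberField Module

namespace Pool.Agent.CMH

variable {F : Type} [Field F] [NumberField F]

/-- the operators of `cM` on the real points -/
noncomputable def opR (D : 𝓞 F) : Option (cocI F) → (cV F →ₗ[ℝ] cV F)
  | none =>
    { toFun := fun z => ![fun j σ => -(σ (D : F) * z 1 j σ), fun j σ => z 0 j σ]
      map_add' := fun z z' => by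
        funext e j σ
        fin_cases e
        · change -(σ (D : F) * (z 1 j σ + z' 1 j σ)) = -(σ (D : F) * z 1 j σ) + -(σ (D : F) * z' 1 j σ)
          ring
        · rfl
      map_smul' := fun c z => by
        funext e j σ
        fin_cases e
        · change -(σ (D : F) * (c * z 1 j σ)) = c * -(σ (D : F) * z 1 j σ)
          ring
        · rfl }
  | some i =>
    { toFun := fun z e j σ => σ (RingOfIntegers.basis F i : F) * z e j σ
      map_add' := fun z z' => by
        funext e j σ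
        exact mul_add _ _ _
      map_smul' := fun c z => by
        funext e j σ
        change σ (RingOfIntegers.basis F i : F) * (c * z e j σ) =
          c * (σ (RingOfIntegers.basis F i : F) * z e j σ)
        ring }

/-- the complex vector at the place `σ` -/
noncomputable def cx (D : 𝓞 F) (σ : F →+* ℝ) (z : cV F) : Fin 3 → ℂ :=
  fun j => (z 0 j σ : ℂ) + Complex.I * (Real.sqrt (σ (D : F)) : ℂ) * (z 1 j σ : ℂ)

/-- the real form -/
noncomputable def br (D : 𝓞 F) (k : Fin 3 → 𝓞 F) (z z' : cV F) (σ : F →+* ℝ) : ℝ :=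
  ∑ j, σ (k j : F) * (z 0 j σ * z' 0 j σ + σ (D : F) * (z 1 j σ * z' 1 j σ))

theorem br_int (D : 𝓞 F) (k : Fin 3 → 𝓞 F) (z z' : cL F) (σ : F →+* ℝ) :
    br D k (rl z) (rl z') σ = σ (be D k z z' : F) := by
  unfold br be rl
  simp only [map_sum, map_mul, map_add]

theorem br_cx (D : 𝓞 F) (k : Fin 3 → 𝓞 F) (z z' : cV F) (σ : F →+* ℝ) (hD : 0 ≤ σ (D : F)) :
    br D k z z' σ =
      (star (cx D σ z) ⬝ᵥ (diagonal (fun j => ((σ (k j : F) : ℝ) : ℂ)) *ᵥ cx D σ z')).re := by
  unfold br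
  rw [dotProduct, Complex.re_sum]
  refine Finset.sum_congr rfl fun j _ => ?_
  rw [mulVec_diagonal, Pi.star_apply]
  unfold cx
  have h1 := Real.mul_self_sqrt hD
  simp only [Complex.mul_re, Complex.mul_im, Complex.add_re, Complex.add_im, Complex.ofReal_re,
    Complex.ofReal_im, Complex.I_re, Complex.I_im, Complex.star_def, Complex.conj_re,
    Complex.conj_im]
  ring_nf
  rw [Real.sq_sqrt hD]
  ring

theorem cx_opR_none (D : 𝓞 F) (σ : F →+* ℝ) (hD : 0 ≤ σ (D : F)) (z : cV F) :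
    cx D σ (opR D none z) = (Complex.I * (Real.sqrt (σ (D : F)) : ℂ)) • cx D σ z := by
  funext j
  have h1 : ((Real.sqrt (σ (D : F)) : ℝ) : ℂ) * ((Real.sqrt (σ (D : F)) : ℝ) : ℂ) =
      ((σ (D : F) : ℝ) : ℂ) := by
    rw [← Complex.ofReal_mul, Real.mul_self_sqrt hD]
  change ((-(σ (D : F) * z 1 j σ) : ℝ) : ℂ) + Complex.I * (Real.sqrt (σ (D : F)) : ℂ) *
    (z 0 j σ : ℂ) = (Complex.I * (Real.sqrt (σ (D : F)) : ℂ)) *
    ((z 0 j σ : ℂ) + Complex.I * (Real.sqrt (σ (D : F)) : ℂ) * (z 1 j σ : ℂ))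
  push_cast
  linear_combination (-(z 1 j σ : ℂ) * ((Real.sqrt (σ (D : F)) : ℝ) : ℂ) *
    ((Real.sqrt (σ (D : F)) : ℝ) : ℂ)) * Complex.I_mul_I - (z 1 j σ : ℂ) * h1 * (-1)

theorem cx_opR_some (D : 𝓞 F) (σ : F →+* ℝ) (i : cocI F) (z : cV F) :
    cx D σ (opR D (some i) z) = ((σ (RingOfIntegers.basis F i : F) : ℝ) : ℂ) • cx D σ z := by
  funext j
  change ((σ (RingOfIntegers.basis F i : F) * z 0 j σ : ℝ) : ℂ) +
    Complex.I * (Real.sqrt (σ (D : F)) : ℂ) * ((σ (RingOfIntegers.basis F i : F) * z 1 j σ : ℝ) : ℂ)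
    = ((σ (RingOfIntegers.basis F i : F) : ℝ) : ℂ) * ((z 0 j σ : ℂ) +
      Complex.I * (Real.sqrt (σ (D : F)) : ℂ) * (z 1 j σ : ℂ))
  push_cast
  ring

/-- a vector is determined by its complex vectors -/
theorem cx_inj (D : 𝓞 F) (hD : ∀ σ : F →+* ℝ, 0 < σ (D : F)) {z z' : cV F}
    (h : ∀ σ, cx D σ z = cx D σ z') : z = z' := by
  funext e j σ
  have h1 := congrFun (h σ) j
  unfold cx at h1
  have h2 := congrArg Complex.re h1
  have h3 := congrArg Complex.im h1
  have h4 : Real.sqrt (σ (D : F)) ≠ 0 := (Real.sqrt_pos.2 (hD σ)).ne'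
  simp only [Complex.mul_re, Complex.mul_im, Complex.add_re, Complex.add_im, Complex.ofReal_re,
    Complex.ofReal_im, Complex.I_re, Complex.I_im] at h2 h3
  fin_cases e
  · change z 0 j σ = z' 0 j σ
    linarith
  · change z 1 j σ = z' 1 j σ
    have h5 : Real.sqrt (σ (D : F)) * z 1 j σ = Real.sqrt (σ (D : F)) * z' 1 j σ := by linarith
    exact mul_left_cancel₀ h4 h5

theorem br_add_left (D : 𝓞 F) (k : Fin 3 → 𝓞 F) (z₁ z₂ z' : cV F) :
    br D k (z₁ + z₂) z' = br D k z₁ z' + br D k z₂ z' := by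
  funext σ
  change br D k (z₁ + z₂) z' σ = br D k z₁ z' σ + br D k z₂ z' σ
  unfold br
  rw [← Finset.sum_add_distrib]
  refine Finset.sum_congr rfl fun j _ => ?_
  change σ (k j : F) * ((z₁ 0 j σ + z₂ 0 j σ) * z' 0 j σ +
    σ (D : F) * ((z₁ 1 j σ + z₂ 1 j σ) * z' 1 j σ)) = _
  ring

theorem br_smul_left (D : 𝓞 F) (k : Fin 3 → 𝓞 F) (c : ℝ) (z z' : cV F) :
    br D k (c • z) z' = c • br D k z z' := by
  funext σ
  change br D k (c • z) z' σ = c * br D k z z' σ
  unfold br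
  rw [Finset.mul_sum]
  refine Finset.sum_congr rfl fun j _ => ?_
  change σ (k j : F) * ((c * z 0 j σ) * z' 0 j σ + σ (D : F) * ((c * z 1 j σ) * z' 1 j σ)) = _
  ring

theorem br_symm (D : 𝓞 F) (k : Fin 3 → 𝓞 F) (z z' : cV F) : br D k z z' = br D k z' z := by
  funext σ
  unfold br
  exact Finset.sum_congr rfl fun j _ => by ring

theorem be_add_left (D : 𝓞 F) (k : Fin 3 → 𝓞 F) (z₁ z₂ z' : cL F) :
    be D k (z₁ + z₂) z' = be D k z₁ z' + be D k z₂ z' := by
  unfold be
  rw [← Finset.sum_add_distrib]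
  refine Finset.sum_congr rfl fun j _ => ?_
  change k j * ((z₁ 0 j + z₂ 0 j) * z' 0 j + D * ((z₁ 1 j + z₂ 1 j) * z' 1 j)) = _
  ring

theorem be_smul_left (D : 𝓞 F) (k : Fin 3 → 𝓞 F) (c : ℤ) (z z' : cL F) :
    be D k (c • z) z' = c • be D k z z' := by
  unfold be
  rw [Finset.smul_sum]
  refine Finset.sum_congr rfl fun j _ => ?_
  change k j * ((c • z 0 j) * z' 0 j + D * ((c • z 1 j) * z' 1 j)) = _
  simp only [zsmul_eq_mul]
  ring

theorem be_symm (D : 𝓞 F) (k : Fin 3 → 𝓞 F) (z z' : cL F) : be D k z z' = be D k z' z := by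
  unfold be
  exact Finset.sum_congr rfl fun j _ => by ring

/-- the action of the integral matrices on the lattice -/
theorem cM_none (D : 𝓞 F) (z : cL F) : cM D none *ᵥ eL z = eL (mulJ D z) := by
  have h1 : cM D none = LinearMap.toMatrix' (eL.toLinearMap ∘ₗ mulJ D ∘ₗ eL.symm.toLinearMap) := rfl
  rw [h1, LinearMap.toMatrix'_mulVec]
  change eL (mulJ D (eL.symm (eL z))) = _
  rw [eL.symm_apply_apply]

theorem cM_some (D : 𝓞 F) (i : cocI F) (z : cL F) :
    cM D (some i) *ᵥ eL z = eL (mulO (RingOfIntegers.basis F i) z) := by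
  have h1 : cM D (some i) = LinearMap.toMatrix'
    (eL.toLinearMap ∘ₗ mulO (RingOfIntegers.basis F i) ∘ₗ eL.symm.toLinearMap) := rfl
  rw [h1, LinearMap.toMatrix'_mulVec]
  change eL (mulO (RingOfIntegers.basis F i) (eL.symm (eL z))) = _
  rw [eL.symm_apply_apply]

/-- the integral matrices of the form -/
theorem cB_int (D : 𝓞 F) (k : Fin 3 → 𝓞 F) (i : cocI F) (z z' : cL F) :
    eL z ⬝ᵥ (cB D k i *ᵥ eL z') = (RingOfIntegers.basis F).equivFun (be D k z z') i := by
  let β : (cT F → ℤ) →ₗ[ℤ] (cT F → ℤ) →ₗ[ℤ] ℤ := LinearMap.mk₂ ℤ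
    (fun X Y => (RingOfIntegers.basis F).equivFun (be D k (eL.symm X) (eL.symm Y)) i)
    (by
      intro X X' Y
      rw [map_add, be_add_left, map_add]
      rfl)
    (by
      intro c X Y
      rw [map_smul, be_smul_left, map_smul]
      rfl)
    (by
      intro X Y Y'
      rw [map_add, be_symm, be_add_left, map_add, be_symm D k _ (eL.symm X), be_symm D k _ (eL.symm X)]
      rfl)
    (by
      intro c X Y
      rw [map_smul, be_symm, be_smul_left, map_smul, be_symm D k _ (eL.symm X)]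
      rfl)
  have h1 : cB D k i = LinearMap.toMatrix₂' ℤ β := by
    ext s t
    rw [LinearMap.toMatrix₂'_apply]
    rfl
  rw [← Matrix.toLinearMap₂'_apply', h1, Matrix.toLinearMap₂'_toMatrix']
  change (RingOfIntegers.basis F).equivFun (be D k (eL.symm (eL z)) (eL.symm (eL z'))) i = _
  rw [eL.symm_apply_apply, eL.symm_apply_apply]

theorem cast_mulVec {n : Type} [Fintype n] (M : Matrix n n ℤ) (x : n → ℤ) :
    M.map (Int.cast : ℤ → ℝ) *ᵥ (fun i => (x i : ℝ)) = fun i => ((M *ᵥ x) i : ℝ) := by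
  funext i
  simp only [mulVec, dotProduct, Matrix.map_apply]
  push_cast
  rfl

variable [IsTotallyReal F]

theorem eP_cM (D : 𝓞 F) (o : Option (cocI F)) (X : cT F → ℝ) :
    eP ((cM D o).map (Int.cast : ℤ → ℝ) *ᵥ X) = opR D o (eP X) := by
  have key : eP.toLinearMap ∘ₗ Matrix.toLin' ((cM D o).map (Int.cast : ℤ → ℝ)) =
      opR D o ∘ₗ eP.toLinearMap := by
    apply coc_ext
    intro z
    change eP ((cM D o).map (Int.cast : ℤ → ℝ) *ᵥ (fun t => (eL z t : ℝ))) =
      opR D o (eP (fun t => (eL z t : ℝ)))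
    rw [cast_mulVec, eP_int]
    cases o with
    | none =>
      rw [cM_none, eP_int]
      funext e j σ
      fin_cases e
      · change σ (algebraMap (𝓞 F) F (-(D * z 1 j))) =
          -(σ (algebraMap (𝓞 F) F D) * σ (algebraMap (𝓞 F) F (z 1 j)))
        rw [map_neg, map_neg, map_mul, map_mul]
      · rfl
    | some i =>
      rw [cM_some, eP_int]
      funext e j σ
      change σ (algebraMap (𝓞 F) F (RingOfIntegers.basis F i * z e j)) =
        σ (algebraMap (𝓞 F) F (RingOfIntegers.basis F i)) * σ (algebraMap (𝓞 F) F (z e j))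
      rw [map_mul, map_mul]
  exact LinearMap.congr_fun key X

theorem eP_cB (D : 𝓞 F) (k : Fin 3 → 𝓞 F) (i : cocI F) (X Y : cT F → ℝ) :
    X ⬝ᵥ ((cB D k i).map (Int.cast : ℤ → ℝ) *ᵥ Y) = (cocP F).symm (br D k (eP X) (eP Y)) i := by
  let β : (cT F → ℝ) →ₗ[ℝ] (cT F → ℝ) →ₗ[ℝ] ℝ := LinearMap.mk₂ ℝ
    (fun X Y => (cocP F).symm (br D k (eP X) (eP Y)) i)
    (by
      intro X X' Y
      rw [map_add, br_add_left, map_add]
      rfl)
    (by
      intro c X Y
      rw [map_smul, br_smul_left, map_smul]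
      rfl)
    (by
      intro X Y Y'
      rw [map_add, br_symm, br_add_left, map_add, br_symm D k _ (eP X), br_symm D k _ (eP X)]
      rfl)
    (by
      intro c X Y
      rw [map_smul, br_symm, br_smul_left, map_smul, br_symm D k _ (eP X)]
      rfl)
  have key : Matrix.toLinearMap₂' ℝ ((cB D k i).map (Int.cast : ℤ → ℝ)) = β := by
    apply coc_ext
    intro z
    apply coc_ext
    intro z'
    rw [Matrix.toLinearMap₂'_apply', cast_mulVec]
    change (fun t => (eL z t : ℝ)) ⬝ᵥ (fun t => ((cB D k i *ᵥ eL z') t : ℝ)) =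
      (cocP F).symm (br D k (eP (fun t => (eL z t : ℝ))) (eP (fun t => (eL z' t : ℝ)))) i
    have h1 : (fun t => (eL z t : ℝ)) ⬝ᵥ (fun t => ((cB D k i *ᵥ eL z') t : ℝ)) =
        ((eL z ⬝ᵥ (cB D k i *ᵥ eL z') : ℤ) : ℝ) := by
      simp only [dotProduct]
      push_cast
      rfl
    rw [h1, cB_int, eP_int, eP_int]
    have h2 : br D k (rl z) (rl z') = cocP F (fun i =>
        ((RingOfIntegers.basis F).repr (be D k z z') i : ℝ)) := by
      funext σ
      rw [br_int, cocP_int]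
    rw [h2, LinearEquiv.symm_apply_apply]
    rfl
  rw [← Matrix.toLinearMap₂'_apply', key]
  rfl

end Pool.Agent.CMH
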