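import Mathlib
import Pool.Agent.Lib.CMH.CocG
import Pool.Agent.Lib.CMH.Red

/-!
# TANK CMH, cocompactness: the hypotheses of the reduction theorem
-/

set_option autoImplicit false

open Matrix NumberField Module

namespace Pool.Agent.CMH

/-- ROW MIN (9) -/
def RowMIN : Prop := ∀ (F : Type) [Field F] [NumberField F] [IsTotallyReal F] (v₁ : F →+* ℝ)
  (D : 𝓞 F) (k : Fin 3 → 𝓞 F), (∀ v : F →+* ℝ, 0 < v (D : F)) → (∀ v : F →+* ℝ, 0 < v (k 0 : F)) →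
  (∀ v : F →+* ℝ, 0 < v (k 1 : F)) → (∀ v : F →+* ℝ, v ≠ v₁ → 0 < v (k 2 : F)) →
  v₁ (k 2 : F) < 0 → (∃ v : F →+* ℝ, v ≠ v₁) → ∀ z : cL F, z ≠ 0 →
    1 ≤ ∏ v : F →+* ℝ, |∑ j, v (k j : F) * (v (z 0 j : F) ^ 2 + v (D : F) * v (z 1 j : F) ^ 2)|

variable {F : Type} [Field F] [NumberField F]

theorem abs_le_norm (w : cV F) (e : Fin 2) (j : Fin 3) (σ : F →+* ℝ) : |w e j σ| ≤ ‖w‖ :=
  ((norm_le_pi_norm (w e j) σ).trans (norm_le_pi_norm (w e) j)).trans (norm_le_pi_norm w e)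

/-- a constant -/
noncomputable def cstA (D : 𝓞 F) (k : Fin 3 → 𝓞 F) : ℝ :=
  ∑ σ : F →+* ℝ, ∑ j, |σ (k j : F)| * (1 + |σ (D : F)|)

theorem cstA_nonneg (D : 𝓞 F) (k : Fin 3 → 𝓞 F) : 0 ≤ cstA D k :=
  Finset.sum_nonneg fun _ _ => Finset.sum_nonneg fun _ _ => by positivity

theorem br_le (D : 𝓞 F) (k : Fin 3 → 𝓞 F) (w : cV F) (σ : F →+* ℝ) :
    |br D k w w σ| ≤ cstA D k * ‖w‖ ^ 2 := by
  have h1 : |br D k w w σ| ≤ ∑ j, |σ (k j : F)| * (1 + |σ (D : F)|) * ‖w‖ ^ 2 := by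
    unfold br
    refine (Finset.abs_sum_le_sum_abs _ _).trans (Finset.sum_le_sum fun j _ => ?_)
    rw [abs_mul, mul_assoc]
    refine mul_le_mul_of_nonneg_left ?_ (abs_nonneg _)
    have h2 : |w 0 j σ * w 0 j σ| ≤ ‖w‖ ^ 2 := by
      rw [abs_mul, sq]
      exact mul_le_mul (abs_le_norm w 0 j σ) (abs_le_norm w 0 j σ) (abs_nonneg _) (norm_nonneg _)
    have h3 : |w 1 j σ * w 1 j σ| ≤ ‖w‖ ^ 2 := by
      rw [abs_mul, sq]
      exact mul_le_mul (abs_le_norm w 1 j σ) (abs_le_norm w 1 j σ) (abs_nonneg _) (norm_nonneg _)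
    calc |w 0 j σ * w 0 j σ + σ (D : F) * (w 1 j σ * w 1 j σ)|
        ≤ |w 0 j σ * w 0 j σ| + |σ (D : F)| * |w 1 j σ * w 1 j σ| := by
          rw [← abs_mul]; exact abs_add_le _ _
      _ ≤ ‖w‖ ^ 2 + |σ (D : F)| * ‖w‖ ^ 2 :=
          add_le_add h2 (mul_le_mul_of_nonneg_left h3 (abs_nonneg _))
      _ = (1 + |σ (D : F)|) * ‖w‖ ^ 2 := by ring
  refine h1.trans ?_
  rw [← Finset.sum_mul]
  refine mul_le_mul_of_nonneg_right ?_ (by positivity)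
  exact Finset.single_le_sum (f := fun σ : F →+* ℝ => ∑ j, |σ (k j : F)| * (1 + |σ (D : F)|))
    (fun _ _ => Finset.sum_nonneg fun _ _ => by positivity) (Finset.mem_univ σ)

variable [IsTotallyReal F]

theorem eP_bound (F : Type) [Field F] [NumberField F] [IsTotallyReal F] :
    ∃ A : ℝ, 0 < A ∧ ∀ X : cT F → ℝ, ‖eP X‖ ≤ A * ‖X‖ := by
  refine ⟨‖LinearMap.toContinuousLinearMap (eP (F := F)).toLinearMap‖ + 1, by positivity,
    fun X => ?_⟩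
  have h1 := (LinearMap.toContinuousLinearMap (eP (F := F)).toLinearMap).le_opNorm X
  refine h1.trans ?_
  exact mul_le_mul_of_nonneg_right (by linarith) (norm_nonneg _)

/-- the minimum -/
theorem coc_min (hMIN : RowMIN) (v₁ : F →+* ℝ) (D : 𝓞 F) (k : Fin 3 → 𝓞 F)
    (hD : ∀ v : F →+* ℝ, 0 < v (D : F)) (hk0 : ∀ v : F →+* ℝ, 0 < v (k 0 : F))
    (hk1 : ∀ v : F →+* ℝ, 0 < v (k 1 : F)) (hk2 : ∀ v : F →+* ℝ, v ≠ v₁ → 0 < v (k 2 : F))
    (hk3 : v₁ (k 2 : F) < 0) (hv : ∃ v : F →+* ℝ, v ≠ v₁) :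
    ∃ c : ℝ, 0 < c ∧ ∀ κ : Matrix (Fin 3) (Fin 3) ℂ,
      κᴴ * diagonal (fun j => ((v₁ (k j : F) : ℝ) : ℂ)) * κ =
        diagonal (fun j => ((v₁ (k j : F) : ℝ) : ℂ)) →
      ∀ x : cT F → ℤ, x ≠ 0 → c ≤ ‖gm D v₁ κ *ᵥ (fun i => (x i : ℝ))‖ := by
  obtain ⟨A, hA, hAP⟩ := eP_bound F
  set K : ℝ := cstA D k * A ^ 2 with hK
  have hK0 : 0 ≤ K := mul_nonneg (cstA_nonneg D k) (by positivity)
  refine ⟨1 / (K + 1), by positivity, fun κ hκ x hx => ?_⟩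
  by_contra hcon
  push Not at hcon
  set Y := gm D v₁ κ *ᵥ (fun i => (x i : ℝ)) with hY
  set z : cL F := eL.symm x with hz
  have hz0 : z ≠ 0 := by
    intro h
    apply hx
    rw [← eL.apply_symm_apply x, ← hz, h, map_zero]
  have hx' : (fun i => (x i : ℝ)) = fun t => (eL z t : ℝ) := by
    rw [hz, eL.apply_symm_apply]
  have hYe : eP Y = Gv D v₁ κ (rl z) := by rw [hY, eP_gm, hx', eP_int]
  have h1 := hMIN F v₁ D k hD hk0 hk1 hk2 hk3 hv z hz0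
  have h2 : ∀ v : F →+* ℝ, |∑ j, v (k j : F) * (v (z 0 j : F) ^ 2 + v (D : F) * v (z 1 j : F) ^ 2)|
      ≤ K * ‖Y‖ ^ 2 := by
    intro v
    have h3 : ∑ j, v (k j : F) * (v (z 0 j : F) ^ 2 + v (D : F) * v (z 1 j : F) ^ 2) =
        br D k (eP Y) (eP Y) v := by
      rw [hYe, br_Gv D hD k v₁ κ hκ]
      unfold br rl
      exact Finset.sum_congr rfl fun j _ => by ring
    rw [h3]
    refine (br_le D k (eP Y) v).trans ?_
    rw [hK, mul_assoc]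
    refine mul_le_mul_of_nonneg_left ?_ (cstA_nonneg D k)
    rw [← mul_pow]
    exact pow_le_pow_left₀ (norm_nonneg _) (hAP Y) 2
  have h4 : K * ‖Y‖ ^ 2 < 1 := by
    have h5 : ‖Y‖ ^ 2 ≤ (1 / (K + 1)) ^ 2 := pow_le_pow_left₀ (norm_nonneg _) hcon.le 2
    have h6 : K * (1 / (K + 1)) ^ 2 < 1 := by
      rw [div_pow, one_pow, mul_one_div, div_lt_one (by positivity)]
      nlinarith
    exact (mul_le_mul_of_nonneg_left h5 hK0).trans_lt h6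
  have h7 : ∏ v : F →+* ℝ, |∑ j, v (k j : F) * (v (z 0 j : F) ^ 2 + v (D : F) *
      v (z 1 j : F) ^ 2)| ≤ ∏ _v : F →+* ℝ, K * ‖Y‖ ^ 2 :=
    Finset.prod_le_prod (fun _ _ => abs_nonneg _) fun v _ => h2 v
  rw [Finset.prod_const] at h7
  have h8 : (K * ‖Y‖ ^ 2) ^ (Finset.univ : Finset (F →+* ℝ)).card < 1 :=
    pow_lt_one₀ (by positivity) h4 (Finset.card_ne_zero.2 ⟨v₁, Finset.mem_univ v₁⟩)
  linarith

/-- ROW DET -/
def RowDET : Prop := ∀ (F : Type) [Field F] [NumberField F] [IsTotallyReal F]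
  (D : 𝓞 F) (k : Fin 3 → 𝓞 F), (∀ v : F →+* ℝ, 0 < v (D : F)) → (∀ j, k j ≠ 0) →
    ∀ i, (cB D k i).det ≠ 0

theorem coc_redH (hMIN : RowMIN) (hDET : RowDET) (v₁ : F →+* ℝ) (D : 𝓞 F) (k : Fin 3 → 𝓞 F)
    (hD : ∀ v : F →+* ℝ, 0 < v (D : F)) (hk0 : ∀ v : F →+* ℝ, 0 < v (k 0 : F))
    (hk1 : ∀ v : F →+* ℝ, 0 < v (k 1 : F)) (hk2 : ∀ v : F →+* ℝ, v ≠ v₁ → 0 < v (k 2 : F))
    (hk3 : v₁ (k 2 : F) < 0) (hv : ∃ v : F →+* ℝ, v ≠ v₁) :
    ∃ c C₀ : ℝ, 0 < c ∧ ∀ κ : Matrix (Fin 3) (Fin 3) ℂ,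
      κᴴ * diagonal (fun j => ((v₁ (k j : F) : ℝ) : ℂ)) * κ =
        diagonal (fun j => ((v₁ (k j : F) : ℝ) : ℂ)) →
      Pool.CMH.Rd.RedH (cM D) (cB D k) c C₀ 1 1 (gm D v₁ κ) := by
  obtain ⟨c, hc, hmin⟩ := coc_min hMIN v₁ D k hD hk0 hk1 hk2 hk3 hv
  have hk : ∀ j, k j ≠ 0 := by
    intro j hj
    have h0 : ∀ v : F →+* ℝ, v (k j : F) = 0 := fun v => by
      rw [hj]
      change v (algebraMap (𝓞 F) F 0) = 0
      rw [map_zero, map_zero]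
    fin_cases j
    · exact (hk0 v₁).ne' (h0 v₁)
    · exact (hk1 v₁).ne' (h0 v₁)
    · exact hk3.ne (h0 v₁)
  refine ⟨c, (∑ i, ∑ s, ∑ t, |((cB D k i s t : ℤ) : ℝ)|) + ∑ o, ∑ s, ∑ t, |((cM D o s t : ℤ) : ℝ)|,
    hc, fun κ hκ => ?_⟩
  set g := gm D v₁ κ with hg
  have hB := gm_B D hD k v₁ κ hκ
  have hM := gm_M D hD v₁ κ
  have hdet : |g.det| = 1 := by
    have i0 : cocI F := Classical.arbitrary _
    have h1 := congrArg Matrix.det (hB i0)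
    rw [det_mul, det_mul, det_transpose] at h1
    have h2 : ((cB D k i0).map (Int.cast : ℤ → ℝ)).det ≠ 0 := by
      have h3 : ((cB D k i0).map (Int.cast : ℤ → ℝ)).det = (((cB D k i0).det : ℤ) : ℝ) :=
        ((Int.castRingHom ℝ).map_det (cB D k i0)).symm
      rw [h3]
      exact_mod_cast hDET F D k hD hk i0
    have h4 : g.det * g.det = 1 := by
      have h5 : (g.det * g.det) * ((cB D k i0).map (Int.cast : ℤ → ℝ)).det =
          1 * ((cB D k i0).map (Int.cast : ℤ → ℝ)).det := by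
        rw [one_mul]
        linarith [h1]
      exact mul_right_cancel₀ h2 h5
    have h6 : |g.det| * |g.det| = 1 := by rw [← abs_mul, h4, abs_one]
    nlinarith [abs_nonneg g.det]
  have hunit : IsUnit g.det := by
    rw [isUnit_iff_ne_zero]
    intro h
    rw [h, abs_zero] at hdet
    exact zero_ne_one hdet
  have e1 : g * g⁻¹ = 1 := Matrix.mul_nonsing_inv _ hunit
  have e2 : g⁻¹ * g = 1 := Matrix.nonsing_inv_mul _ hunit
  refine ⟨hdet.ge, hdet.le, fun x hx => hmin κ hκ x hx, fun i s t => ?_, fun o s t => ?_⟩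
  · have h1 : g⁻¹ᵀ * (cB D k i).map (Int.cast : ℤ → ℝ) * g⁻¹ =
        (cB D k i).map (Int.cast : ℤ → ℝ) := by
      conv_lhs => rw [← hB i]
      have e3 : g⁻¹ᵀ * gᵀ = 1 := by rw [← Matrix.transpose_mul, e1, Matrix.transpose_one]
      calc g⁻¹ᵀ * (gᵀ * (cB D k i).map (Int.cast : ℤ → ℝ) * g) * g⁻¹ =
          (g⁻¹ᵀ * gᵀ) * (cB D k i).map (Int.cast : ℤ → ℝ) * (g * g⁻¹) := by
            simp only [Matrix.mul_assoc]
        _ = _ := by rw [e3, e1, Matrix.one_mul, Matrix.mul_one]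
    rw [h1, Matrix.map_apply]
    have h2 : |((cB D k i s t : ℤ) : ℝ)| ≤ ∑ i, ∑ s, ∑ t, |((cB D k i s t : ℤ) : ℝ)| :=
      (Finset.single_le_sum (f := fun t => |((cB D k i s t : ℤ) : ℝ)|)
        (fun _ _ => abs_nonneg _) (Finset.mem_univ t)).trans
      ((Finset.single_le_sum (f := fun s => ∑ t, |((cB D k i s t : ℤ) : ℝ)|)
        (fun _ _ => Finset.sum_nonneg fun _ _ => abs_nonneg _) (Finset.mem_univ s)).trans
      (Finset.single_le_sum (f := fun i => ∑ s, ∑ t, |((cB D k i s t : ℤ) : ℝ)|)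
        (fun _ _ => Finset.sum_nonneg fun _ _ => Finset.sum_nonneg fun _ _ => abs_nonneg _)
        (Finset.mem_univ i)))
    refine h2.trans (le_add_of_nonneg_right ?_)
    exact Finset.sum_nonneg fun _ _ => Finset.sum_nonneg fun _ _ => Finset.sum_nonneg fun _ _ =>
      abs_nonneg _
  · have h1 : g * (cM D o).map (Int.cast : ℤ → ℝ) * g⁻¹ = (cM D o).map (Int.cast : ℤ → ℝ) := by
      rw [hM o, Matrix.mul_assoc, e1, Matrix.mul_one]
    rw [h1, Matrix.map_apply]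
    have h2 : |((cM D o s t : ℤ) : ℝ)| ≤ ∑ o, ∑ s, ∑ t, |((cM D o s t : ℤ) : ℝ)| :=
      (Finset.single_le_sum (f := fun t => |((cM D o s t : ℤ) : ℝ)|)
        (fun _ _ => abs_nonneg _) (Finset.mem_univ t)).trans
      ((Finset.single_le_sum (f := fun s => ∑ t, |((cM D o s t : ℤ) : ℝ)|)
        (fun _ _ => Finset.sum_nonneg fun _ _ => abs_nonneg _) (Finset.mem_univ s)).trans
      (Finset.single_le_sum (f := fun o => ∑ s, ∑ t, |((cM D o s t : ℤ) : ℝ)|)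
        (fun _ _ => Finset.sum_nonneg fun _ _ => Finset.sum_nonneg fun _ _ => abs_nonneg _)
        (Finset.mem_univ o)))
    refine h2.trans (le_add_of_nonneg_left ?_)
    exact Finset.sum_nonneg fun _ _ => Finset.sum_nonneg fun _ _ => Finset.sum_nonneg fun _ _ =>
      abs_nonneg _

end Pool.Agent.CMH
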