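import Mathlib
import Pool.Agent.Lib.CMH.Rows
import Pool.Agent.Lib.CMH.CocH
import Pool.Agent.Lib.CMH.CocS1
import Pool.Agent.Lib.CMH.Boost
import Pool.Agent.Lib.CMH.Grp

/-!
# TANK CMH: the quotient of the ball by `Γ_N` is compact
-/

set_option autoImplicit false

open Matrix NumberField Module

namespace Pool.Agent.CMH

variable {F : Type} [Field F] [NumberField F]

/-- the real point of `actL` -/
theorem cx_actL (D : 𝓞 F) (σ : F →+* ℝ) (hD : 0 ≤ σ (D : F)) (X Y : Matrix (Fin 3) (Fin 3) (𝓞 F))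
    (z : cL F) : cx D σ (rl (actL D X Y z)) = cmat σ (D : F) (toMat X Y) *ᵥ cx D σ (rl z) := by
  funext j
  have h1 : ((Real.sqrt (σ (D : F)) : ℝ) : ℂ) * ((Real.sqrt (σ (D : F)) : ℝ) : ℂ) =
      ((σ (D : F) : ℝ) : ℂ) := by
    rw [← Complex.ofReal_mul, Real.mul_self_sqrt hD]
  have h2 : cx D σ (rl (actL D X Y z)) j =
      ((σ (algebraMap (𝓞 F) F ((X *ᵥ z 0) j - D * (Y *ᵥ z 1) j)) : ℝ) : ℂ) +
      Complex.I * (Real.sqrt (σ (D : F)) : ℂ) *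
      ((σ (algebraMap (𝓞 F) F ((Y *ᵥ z 0) j + (X *ᵥ z 1) j)) : ℝ) : ℂ) := rfl
  rw [h2]
  simp only [mulVec, dotProduct, map_sub, map_add, map_mul, map_sum, Complex.ofReal_sub,
    Complex.ofReal_add, Complex.ofReal_mul, Complex.ofReal_sum]
  rw [mul_add, Finset.mul_sum, Finset.mul_sum, Finset.mul_sum, ← Finset.sum_sub_distrib,
    ← Finset.sum_add_distrib, ← Finset.sum_add_distrib]
  refine Finset.sum_congr rfl fun l _ => ?_
  have h3 : cmat σ (D : F) (toMat X Y) j l = ((σ (algebraMap (𝓞 F) F (X j l)) : ℝ) : ℂ) +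
      Complex.I * (Real.sqrt (σ (D : F)) : ℂ) * ((σ (algebraMap (𝓞 F) F (Y j l)) : ℝ) : ℂ) := rfl
  have h4 : cx D σ (rl z) l = ((σ (algebraMap (𝓞 F) F (z 0 l)) : ℝ) : ℂ) +
      Complex.I * (Real.sqrt (σ (D : F)) : ℂ) * ((σ (algebraMap (𝓞 F) F (z 1 l)) : ℝ) : ℂ) := rfl
  rw [h3, h4]
  have h5 := Complex.I_mul_I
  have h6 : σ (D : F) = σ (algebraMap (𝓞 F) F D) := rfl
  rw [h6] at h1 ⊢
  linear_combination (-((σ (algebraMap (𝓞 F) F (Y j l)) : ℝ) : ℂ) *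
    ((σ (algebraMap (𝓞 F) F (z 1 l)) : ℝ) : ℂ) *
    ((Real.sqrt (σ (algebraMap (𝓞 F) F D)) : ℝ) : ℂ) *
    ((Real.sqrt (σ (algebraMap (𝓞 F) F D)) : ℝ) : ℂ)) * h5 +
    (((σ (algebraMap (𝓞 F) F (Y j l)) : ℝ) : ℂ) *
    ((σ (algebraMap (𝓞 F) F (z 1 l)) : ℝ) : ℂ)) * h1

/-- the standard vectors -/
def stdL (j : Fin 3) : cL F := ![Pi.single j 1, 0]

theorem cx_std (D : 𝓞 F) (σ : F →+* ℝ) (j : Fin 3) :
    cx D σ (rl (stdL j)) = Pi.single j 1 := by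
  funext l
  have h2 : cx D σ (rl (stdL (F := F) j)) l =
      ((σ (algebraMap (𝓞 F) F ((Pi.single j 1 : Fin 3 → 𝓞 F) l)) : ℝ) : ℂ) +
      Complex.I * (Real.sqrt (σ (D : F)) : ℂ) * ((σ (algebraMap (𝓞 F) F 0) : ℝ) : ℂ) := rfl
  rw [h2]
  by_cases h : l = j
  · subst h; simp
  · simp [h]

theorem cmat_inv (D : 𝓞 F) (σ : F →+* ℝ) (hD : 0 ≤ σ (D : F))
    (X Y X' Y' : Matrix (Fin 3) (Fin 3) (𝓞 F))
    (h : ∀ z, actL D X' Y' (actL D X Y z) = z) :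
    cmat σ (D : F) (toMat X' Y') * cmat σ (D : F) (toMat X Y) = 1 := by
  ext l j
  have h1 : cx D σ (rl (actL D X' Y' (actL D X Y (stdL j)))) l = cx D σ (rl (stdL j)) l := by
    rw [h (stdL j)]
  rw [cx_actL D σ hD, cx_actL D σ hD, cx_std, mulVec_mulVec, mulVec_single_one] at h1
  have h2 : (cmat σ (D : F) (toMat X' Y') * cmat σ (D : F) (toMat X Y)) l j =
      (cmat σ (D : F) (toMat X' Y') * cmat σ (D : F) (toMat X Y)).col j l := rfl
  rw [h2, h1, Matrix.one_apply, Pi.single_apply]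

theorem exists_clear {ι : Type} [Fintype ι] (h : ι → F) :
    ∃ c : ℕ, 0 < c ∧ ∀ j, IsIntegral ℤ ((c : F) * h j) := by
  classical
  haveI : Algebra.IsAlgebraic ℤ F :=
    (IsFractionRing.comap_isAlgebraic_iff (A := ℤ) (K := ℚ) (C := F)).mpr inferInstance
  obtain ⟨y, hy, hi⟩ := Algebra.IsAlgebraic.exists_integral_multiples ℤ (Finset.univ.image h)
  refine ⟨y.natAbs, Int.natAbs_pos.mpr hy, fun j => ?_⟩
  have h1 := hi (h j) (Finset.mem_image_of_mem h (Finset.mem_univ j))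
  rw [zsmul_eq_mul] at h1
  rcases Int.natAbs_eq y with h2 | h2
  · rw [h2, Int.cast_natCast] at h1
    exact h1
  · rw [h2, Int.cast_neg, Int.cast_natCast, neg_mul] at h1
    have h3 := h1.neg
    rw [neg_neg] at h3
    exact h3

theorem coc_of (hMIN : RowMIN) (hDET : RowDET) : COC := by
  intro F _ _ _ v₁ D h N hG hv hN
  -- integral data
  let D' : 𝓞 F := ⟨D, hG.Di⟩
  have hD' : (D' : F) = D := rfl
  have hD0 : ∀ v : F →+* ℝ, 0 < v (D' : F) := hG.D0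
  obtain ⟨c, hc, hint⟩ : ∃ c : ℕ, 0 < c ∧ ∀ j, IsIntegral ℤ ((c : F) * h j) :=
    exists_clear h
  let k : Fin 3 → 𝓞 F := fun j => ⟨(c : F) * h j, hint j⟩
  have hk : ∀ j, (k j : F) = (c : F) * h j := fun _ => rfl
  have hcpos : (0 : ℝ) < c := by exact_mod_cast hc
  have hvk : ∀ (v : F →+* ℝ) j, v (k j : F) = c * v (h j) := by
    intro v j
    rw [hk, map_mul, map_natCast]
  have hk0 : ∀ v : F →+* ℝ, 0 < v (k 0 : F) := fun v => by rw [hvk]; exact mul_pos hcpos (hG.h0 v)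
  have hk1 : ∀ v : F →+* ℝ, 0 < v (k 1 : F) := fun v => by rw [hvk]; exact mul_pos hcpos (hG.h1 v)
  have hk2 : ∀ v : F →+* ℝ, v ≠ v₁ → 0 < v (k 2 : F) := fun v hv => by
    rw [hvk]; exact mul_pos hcpos (hG.h2 v hv)
  have hk3 : v₁ (k 2 : F) < 0 := by rw [hvk]; exact mul_neg_of_pos_of_neg hcpos hG.h3
  obtain ⟨c', C₀, hc', hred⟩ := coc_redH hMIN hDET v₁ D' k hD0 hk0 hk1 hk2 hk3 hv
  obtain ⟨C, hC⟩ := Pool.CMH.Rd.red (cM D') (cB D' k) N hN.ne' c' C₀ 1 1 hc' one_pos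
  obtain ⟨A, hA, hAP⟩ := eP_bound F
  have hDne : D' ≠ 0 := by
    intro h0
    have h1 := hD0 v₁
    rw [h0] at h1
    change 0 < v₁ (algebraMap (𝓞 F) F 0) at h1
    rw [map_zero, map_zero] at h1
    exact lt_irrefl _ h1
  have hs : Pool.CMH.Jac.Sg (ev v₁ h) := ⟨hG.h0 v₁, hG.h1 v₁, hG.h3⟩
  set x₀ : cT F → ℤ := eL (stdL 2) with hx₀
  set B : ℝ := (1 + Real.sqrt (v₁ D)) * (A * (|C| * ∑ t, |((x₀ t : ℤ) : ℝ)|)) with hB
  have hB0 : 0 ≤ B := by positivity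
  refine ⟨{y | -(ev v₁ h 2) / (B + 1) ^ 2 ≤ Pool.CMH.Jac.Hf (ev v₁ h) y}, ?_, ?_, ?_⟩
  · refine Pool.CMH.Jac.isCompact_Hf hs ?_
    have h1 := hs.n2
    have h2 : 0 < -(ev v₁ h 2) := by linarith
    positivity
  · have h1 := hs.n2
    have h2 : 0 < -(ev v₁ h 2) := by linarith
    exact Pool.CMH.Jac.Hf_subset_Bl (by positivity)
  · intro y hy
    have hyB : y ∈ Pool.CMH.Jac.Bl (ev v₁ h) := hy
    have hb := Pool.CMH.Jac.isU_bst hs hyB
    have hbi := hb.inv hs.ne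
    set κ := (Pool.CMH.Jac.bst (ev v₁ h) y)⁻¹ with hκ
    have hdiag : diagonal (fun j => ((v₁ (k j : F) : ℝ) : ℂ)) =
        (c : ℂ) • diagonal (fun j => ((ev v₁ h j : ℝ) : ℂ)) := by
      rw [← Matrix.diagonal_smul]
      congr 1
      funext j
      rw [hvk]
      simp [ev]
    have hκ' : κᴴ * diagonal (fun j => ((v₁ (k j : F) : ℝ) : ℂ)) * κ =
        diagonal (fun j => ((v₁ (k j : F) : ℝ) : ℂ)) := by
      have h1 : κᴴ * diagonal (fun j => ((ev v₁ h j : ℝ) : ℂ)) * κ =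
          diagonal (fun j => ((ev v₁ h j : ℝ) : ℂ)) := hbi
      rw [hdiag, Matrix.mul_smul, Matrix.smul_mul, h1]
    obtain ⟨δ, hδ1, hδ2, hδ3, hδ4, hδ5⟩ := hC _ (hred κ hκ')
    obtain ⟨X, Y, X', Y', hXY, hact, hXY', hinv, hinv'⟩ :=
      rowS1 D' hDne h k c N hc hk hN δ hδ2 hδ3 hδ4 hδ1
    refine ⟨toMat X' Y', hXY', ?_⟩
    have e1 : cmat v₁ D (toMat X' Y') * cmat v₁ D (toMat X Y) = 1 :=
      cmat_inv D' v₁ (hD0 v₁).le X Y X' Y' hinv
    have e2 : (cmat v₁ D (toMat X Y))⁻¹ = cmat v₁ D (toMat X' Y') :=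
      Matrix.inv_eq_left_inv e1
    have hU : Pool.CMH.Jac.IsU (ev v₁ h) (cmat v₁ D (toMat X Y)) :=
      ((Grp.mem_Gam_iff (hD0 v₁) hN).mp hXY).1
    have hent : ‖(κ * cmat v₁ D (toMat X Y)) 2 2‖ ≤ B + 1 := by
      have h1 : (κ * cmat v₁ D (toMat X Y)) 2 2 =
          cx D' v₁ (eP ((gm D' v₁ κ * δ.map (Int.cast : ℤ → ℝ)) *ᵥ
            (fun t => (x₀ t : ℝ)))) 2 := by
        rw [← mulVec_mulVec, cast_mulVec, hx₀, hact, eP_gm, eP_int, cx_Gv_same D' v₁ (hD0 v₁),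
          cx_actL D' v₁ (hD0 v₁).le, cx_std, mulVec_mulVec, mulVec_single_one]
        rfl
      rw [h1]
      set w := eP ((gm D' v₁ κ * δ.map (Int.cast : ℤ → ℝ)) *ᵥ (fun t => (x₀ t : ℝ))) with hw
      have h2 : ‖w‖ ≤ A * (|C| * ∑ t, |((x₀ t : ℤ) : ℝ)|) := by
        refine (hAP _).trans (mul_le_mul_of_nonneg_left ?_ hA.le)
        rw [pi_norm_le_iff_of_nonneg (by positivity)]
        intro s
        rw [mulVec, dotProduct, Real.norm_eq_abs, Finset.mul_sum]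
        refine (Finset.abs_sum_le_sum_abs _ _).trans (Finset.sum_le_sum fun t _ => ?_)
        rw [abs_mul]
        exact mul_le_mul_of_nonneg_right ((hδ5 s t).trans (le_abs_self C)) (abs_nonneg _)
      have h3 : ‖cx D' v₁ w 2‖ ≤ (1 + Real.sqrt (v₁ D)) * ‖w‖ := by
        unfold cx
        refine (norm_add_le _ _).trans ?_
        rw [norm_mul, norm_mul, Complex.norm_I, one_mul, Complex.norm_real, Complex.norm_real,
          Complex.norm_real, add_mul, one_mul]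
        refine add_le_add (abs_le_norm w 0 2 v₁) ?_
        rw [Real.norm_of_nonneg (Real.sqrt_nonneg _)]
        exact mul_le_mul_of_nonneg_left (abs_le_norm w 1 2 v₁) (Real.sqrt_nonneg _)
      have h4 : (1 + Real.sqrt (v₁ D)) * ‖w‖ ≤ B :=
        mul_le_mul_of_nonneg_left h2 (by positivity)
      linarith
    have hfin := Pool.CMH.Jac.act_inv_mem_compact hs hyB hU hent
    rw [e2] at hfin
    exact hfin

end Pool.Agent.CMH
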