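import Mathlib

/-!
# TANK CMH, cocompactness: the unitary group of signature (2, 1) is transitive on the ball
-/

set_option autoImplicit false

open Matrix

namespace Pool.Agent.CMH

/-- the vector `x` with `h(x, x) = h(e, e)` and real positive last coordinate is the image of `e`
under a unitary matrix: `g = 2 w w^* H / h(w, w) - 1`, `w = x + e` -/
theorem coc_refl {n : Type} [Fintype n] [DecidableEq n] (ht : n → ℝ) (k : n) (hk : ht k ≠ 0)
    (x : n → ℂ) (hx : star x ⬝ᵥ (diagonal (fun i => (ht i : ℂ)) *ᵥ x) = (ht k : ℂ))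
    (t : ℝ) (ht' : x k = (t : ℂ)) (hpos : 0 < t) :
    ∃ g : Matrix n n ℂ, gᴴ * diagonal (fun i => (ht i : ℂ)) * g = diagonal (fun i => (ht i : ℂ)) ∧
      g *ᵥ (Pi.single k 1) = x := by
  set H : Matrix n n ℂ := diagonal (fun i => (ht i : ℂ)) with hH
  set e : n → ℂ := Pi.single k 1 with he
  set w : n → ℂ := x + e with hw
  have hHH : Hᴴ = H := by
    rw [hH, diagonal_conjTranspose]
    congr 1
    funext i
    simp
  have hHe : H *ᵥ e = fun i => if i = k then (ht k : ℂ) else 0 := by
    funext i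
    rw [hH, mulVec_diagonal, he]
    by_cases h : i = k
    · subst h; simp
    · simp [h]
  have hxe : star x ⬝ᵥ (H *ᵥ e) = (ht k : ℂ) * t := by
    rw [hHe]
    simp only [dotProduct, Pi.star_apply, mul_ite, mul_zero, Finset.sum_ite_eq', Finset.mem_univ,
      if_true, ht']
    simp [mul_comm]
  have hex : star e ⬝ᵥ (H *ᵥ x) = (ht k : ℂ) * t := by
    have h1 : star e = e := by
      rw [he]; funext i; by_cases h : i = k
      · subst h; simp
      · simp [h]
    rw [h1, he, single_one_dotProduct, hH, mulVec_diagonal, ht']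
  have hee : star e ⬝ᵥ (H *ᵥ e) = (ht k : ℂ) := by
    have h1 : star e = e := by
      rw [he]; funext i; by_cases h : i = k
      · subst h; simp
      · simp [h]
    rw [h1, hHe, he, single_one_dotProduct, if_pos rfl]
  set s : ℂ := star w ⬝ᵥ (H *ᵥ w) with hs
  have hs1 : s = 2 * (ht k : ℂ) * (1 + t) := by
    rw [hs, hw, star_add, mulVec_add, add_dotProduct, dotProduct_add, dotProduct_add, hx, hxe, hex,
      hee]
    ring
  have hs0 : s ≠ 0 := by
    rw [hs1]
    have h1 : (1 + (t : ℂ)) ≠ 0 := by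
      have h2 : (1 + t : ℝ) ≠ 0 := by positivity
      exact_mod_cast h2
    have h2 : (ht k : ℂ) ≠ 0 := by exact_mod_cast hk
    exact mul_ne_zero (mul_ne_zero two_ne_zero h2) h1
  have hsr : star s = s := by
    rw [hs1]; simp
  set p : n → ℂ := star w ᵥ* H with hp
  have hpw : p ⬝ᵥ w = s := by
    rw [hp, ← dotProduct_mulVec]
  have hps : star p = H *ᵥ w := by
    rw [hp, star_vecMul, star_star, hHH]
  refine ⟨(2 / s) • vecMulVec w p - 1, ?_, ?_⟩
  · have h1 : ((2 / s) • vecMulVec w p - 1)ᴴ = (2 / s) • vecMulVec (H *ᵥ w) (star w) - 1 := by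
      rw [conjTranspose_sub, conjTranspose_smul, conjTranspose_one, conjTranspose_vecMulVec, hps]
      congr 2
      rw [star_div₀, hsr]
      simp
    rw [h1, sub_mul, one_mul, Matrix.smul_mul, vecMulVec_mul, ← hp, mul_sub, mul_one, sub_mul,
      Matrix.smul_mul, Matrix.mul_smul, Matrix.mul_smul, vecMulVec_mul_vecMulVec, hpw,
      mul_vecMulVec]
    ext i j
    simp only [Matrix.sub_apply, Matrix.smul_apply, vecMulVec_apply, Pi.smul_apply, smul_eq_mul]
    field_simp
    ring
  · rw [sub_mulVec, one_mulVec, smul_mulVec, vecMulVec_mulVec]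
    have h1 : p ⬝ᵥ e = s / 2 := by
      rw [hp, ← dotProduct_mulVec, hw, star_add, add_dotProduct, hxe, hee, hs1]
      ring
    rw [h1]
    funext i
    simp only [Pi.sub_apply, Pi.smul_apply, hw, Pi.add_apply, smul_eq_mul,
      MulOpposite.smul_eq_mul_unop, MulOpposite.unop_op]
    field_simp
    ring

end Pool.Agent.CMH
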