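import Mathlib

/-!
# CMH, row JAC (helper37): the action of SU(2,1) on the ball of `ℂ²`

`h : Fin 3 → ℝ`, `h 0, h 1 > 0 > h 2`, ball `Bl h = {y | h₀|y₀|² + h₁|y₁|² + h₂ < 0}`,
`act g y = (g (y,1))_i / j(g,y)`, `j = jf g y = (g (y,1))_2`.
-/

set_option autoImplicit false

namespace Pool.CMH.Jac

open Matrix MeasureTheory

/-- the vector `(y,1)` -/
def Yv (y : Fin 2 → ℂ) : Fin 3 → ℂ := ![y 0, y 1, 1]

/-- the hermitian norm form -/
noncomputable def Hn (h : Fin 3 → ℝ) (x : Fin 3 → ℂ) : ℝ := ∑ i, h i * ‖x i‖ ^ 2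

/-- the ball -/
def Bl (h : Fin 3 → ℝ) : Set (Fin 2 → ℂ) :=
  {y | h 0 * ‖y 0‖ ^ 2 + h 1 * ‖y 1‖ ^ 2 + h 2 < 0}

/-- `g` preserves the hermitian form `diag h` -/
def IsU (h : Fin 3 → ℝ) (g : Matrix (Fin 3) (Fin 3) ℂ) : Prop :=
  gᴴ * Matrix.diagonal (fun i => (h i : ℂ)) * g = Matrix.diagonal (fun i => (h i : ℂ))

/-- automorphy factor -/
noncomputable def jf (g : Matrix (Fin 3) (Fin 3) ℂ) (y : Fin 2 → ℂ) : ℂ := (g *ᵥ Yv y) 2

/-- action by fractional linear maps -/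
noncomputable def act (g : Matrix (Fin 3) (Fin 3) ℂ) (y : Fin 2 → ℂ) : Fin 2 → ℂ :=
  fun i => (g *ᵥ Yv y) i.castSucc / jf g y

/-- the real function `H(y) = - h(Y,Y)` -/
noncomputable def Hf (h : Fin 3 → ℝ) (y : Fin 2 → ℂ) : ℝ := - Hn h (Yv y)

theorem Hn_Yv (h : Fin 3 → ℝ) (y : Fin 2 → ℂ) :
    Hn h (Yv y) = h 0 * ‖y 0‖ ^ 2 + h 1 * ‖y 1‖ ^ 2 + h 2 := by
  simp [Hn, Yv, Fin.sum_univ_three]

theorem mem_Bl_iff (h : Fin 3 → ℝ) (y : Fin 2 → ℂ) : y ∈ Bl h ↔ Hn h (Yv y) < 0 := by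
  rw [Hn_Yv]; rfl

theorem mem_Bl_iff_Hf (h : Fin 3 → ℝ) (y : Fin 2 → ℂ) : y ∈ Bl h ↔ 0 < Hf h y := by
  rw [mem_Bl_iff, Hf]; constructor <;> intro H <;> linarith

theorem Hn_eq (h : Fin 3 → ℝ) (x : Fin 3 → ℂ) :
    (Hn h x : ℂ) = star x ⬝ᵥ (Matrix.diagonal (fun i => (h i : ℂ)) *ᵥ x) := by
  simp only [Hn, dotProduct, mulVec_diagonal, Pi.star_apply, RCLike.star_def]
  push_cast
  refine Finset.sum_congr rfl fun i _ => ?_
  rw [mul_left_comm, Complex.conj_mul']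

theorem Hn_mulVec {h : Fin 3 → ℝ} {g : Matrix (Fin 3) (Fin 3) ℂ} (hg : IsU h g)
    (x : Fin 3 → ℂ) : Hn h (g *ᵥ x) = Hn h x := by
  have : (Hn h (g *ᵥ x) : ℂ) = Hn h x := by
    rw [Hn_eq, Hn_eq, Matrix.star_mulVec, Matrix.mulVec_mulVec, ← Matrix.dotProduct_mulVec,
      Matrix.mulVec_mulVec, ← Matrix.mul_assoc, hg]
  exact_mod_cast this

theorem Hn_smul (h : Fin 3 → ℝ) (c : ℂ) (x : Fin 3 → ℂ) : Hn h (c • x) = ‖c‖ ^ 2 * Hn h x := by
  simp only [Hn, Pi.smul_apply, smul_eq_mul, norm_mul, mul_pow, Finset.mul_sum]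
  refine Finset.sum_congr rfl fun i _ => by ring

theorem last_ne_zero {h : Fin 3 → ℝ} (h0 : 0 < h 0) (h1 : 0 < h 1) {x : Fin 3 → ℂ}
    (hx : Hn h x < 0) : x 2 ≠ 0 := by
  intro h2
  rw [Hn, Fin.sum_univ_three, h2] at hx
  have : 0 ≤ h 0 * ‖x 0‖ ^ 2 := by positivity
  have : 0 ≤ h 1 * ‖x 1‖ ^ 2 := by positivity
  simp at hx
  linarith

theorem jf_ne_zero {h : Fin 3 → ℝ} (h0 : 0 < h 0) (h1 : 0 < h 1)
    {g : Matrix (Fin 3) (Fin 3) ℂ} (hg : IsU h g) {y : Fin 2 → ℂ} (hy : y ∈ Bl h) :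
    jf g y ≠ 0 := by
  apply last_ne_zero h0 h1
  rw [Hn_mulVec hg]
  exact (mem_Bl_iff h y).1 hy

theorem Yv_act {g : Matrix (Fin 3) (Fin 3) ℂ} {y : Fin 2 → ℂ} (hj : jf g y ≠ 0) :
    g *ᵥ Yv y = jf g y • Yv (act g y) := by
  funext i
  fin_cases i
  · simp [Yv, act]; field_simp
  · simp [Yv, act]; field_simp
  · simp [Yv, act, jf]

theorem Hn_act {h : Fin 3 → ℝ} {g : Matrix (Fin 3) (Fin 3) ℂ} (hg : IsU h g)
    {y : Fin 2 → ℂ} (hj : jf g y ≠ 0) :
    Hn h (Yv (act g y)) = Hn h (Yv y) / ‖jf g y‖ ^ 2 := by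
  have h1 := Hn_mulVec hg (Yv y)
  rw [Yv_act hj, Hn_smul] at h1
  have : ‖jf g y‖ ^ 2 ≠ 0 := by positivity
  rw [eq_div_iff this, ← h1]; ring

theorem Hf_act {h : Fin 3 → ℝ} {g : Matrix (Fin 3) (Fin 3) ℂ} (hg : IsU h g)
    {y : Fin 2 → ℂ} (hj : jf g y ≠ 0) :
    Hf h (act g y) = Hf h y / ‖jf g y‖ ^ 2 := by
  rw [Hf, Hf, Hn_act hg hj]; ring

theorem act_mem {h : Fin 3 → ℝ} (h0 : 0 < h 0) (h1 : 0 < h 1)
    {g : Matrix (Fin 3) (Fin 3) ℂ} (hg : IsU h g) {y : Fin 2 → ℂ} (hy : y ∈ Bl h) :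
    act g y ∈ Bl h := by
  have hj := jf_ne_zero h0 h1 hg hy
  rw [mem_Bl_iff, Hn_act hg hj]
  have := (mem_Bl_iff h y).1 hy
  exact div_neg_of_neg_of_pos this (by positivity)

theorem Yv_inj {y z : Fin 2 → ℂ} {c : ℂ} (h : c • Yv y = Yv z) : c = 1 ∧ y = z := by
  have h2 := congrFun h 2
  simp [Yv] at h2
  subst h2
  refine ⟨rfl, ?_⟩
  funext i
  fin_cases i
  · simpa [Yv] using congrFun h 0
  · simpa [Yv] using congrFun h 1

theorem jf_mul (g g' : Matrix (Fin 3) (Fin 3) ℂ) {y : Fin 2 → ℂ} (hj : jf g' y ≠ 0) :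
    jf (g * g') y = jf g (act g' y) * jf g' y := by
  have : (g * g') *ᵥ Yv y = jf g' y • (g *ᵥ Yv (act g' y)) := by
    rw [← Matrix.mulVec_mulVec, Yv_act hj, Matrix.mulVec_smul]
  change ((g * g') *ᵥ Yv y) 2 = _
  rw [this]
  change jf g' y * jf g (act g' y) = _
  rw [mul_comm]

theorem act_mul (g g' : Matrix (Fin 3) (Fin 3) ℂ) {y : Fin 2 → ℂ} (hj : jf g' y ≠ 0) :
    act (g * g') y = act g (act g' y) := by
  have : (g * g') *ᵥ Yv y = jf g' y • (g *ᵥ Yv (act g' y)) := by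
    rw [← Matrix.mulVec_mulVec, Yv_act hj, Matrix.mulVec_smul]
  funext i
  rw [act, this, jf_mul g g' hj, act]
  simp only [Pi.smul_apply, smul_eq_mul]
  rw [mul_comm (jf g _) (jf g' y), mul_div_mul_left _ _ hj]

@[simp] theorem jf_one (y : Fin 2 → ℂ) : jf 1 y = 1 := by simp [jf, Yv]

@[simp] theorem act_one (y : Fin 2 → ℂ) : act 1 y = y := by
  funext i
  fin_cases i <;> simp [act, Yv]

/-! ### group -/

theorem isU_one (h : Fin 3 → ℝ) : IsU h 1 := by simp [IsU]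

theorem IsU.mul {h : Fin 3 → ℝ} {g g' : Matrix (Fin 3) (Fin 3) ℂ} (hg : IsU h g)
    (hg' : IsU h g') : IsU h (g * g') := by
  unfold IsU at *
  rw [Matrix.conjTranspose_mul]
  calc g'ᴴ * gᴴ * Matrix.diagonal (fun i => (h i : ℂ)) * (g * g')
      = g'ᴴ * (gᴴ * Matrix.diagonal (fun i => (h i : ℂ)) * g) * g' := by
        simp only [Matrix.mul_assoc]
    _ = _ := by rw [hg, hg']

theorem det_diag_ne {h : Fin 3 → ℝ} (hh : ∀ i, h i ≠ 0) :
    (Matrix.diagonal (fun i => (h i : ℂ))).det ≠ 0 := by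
  rw [Matrix.det_diagonal]
  exact Finset.prod_ne_zero_iff.2 fun i _ => by exact_mod_cast hh i

theorem IsU.norm_det {h : Fin 3 → ℝ} (hh : ∀ i, h i ≠ 0) {g : Matrix (Fin 3) (Fin 3) ℂ}
    (hg : IsU h g) : ‖g.det‖ = 1 := by
  have h1 := congrArg Matrix.det hg
  rw [Matrix.det_mul, Matrix.det_mul, Matrix.det_conjTranspose] at h1
  have h2 : star g.det * g.det = 1 := by
    have h3 := det_diag_ne hh
    have : (star g.det * g.det - 1) * (Matrix.diagonal (fun i => (h i : ℂ))).det = 0 := by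
      linear_combination h1
    rcases mul_eq_zero.1 this with h4 | h4
    · exact sub_eq_zero.1 h4
    · exact absurd h4 h3
  have h3 : ‖g.det‖ ^ 2 = 1 := by
    have := congrArg norm h2
    rw [norm_mul, norm_star, norm_one] at this
    rw [sq]; exact this
  have h4 : 0 ≤ ‖g.det‖ := norm_nonneg _
  nlinarith

theorem IsU.isUnit_det {h : Fin 3 → ℝ} (hh : ∀ i, h i ≠ 0) {g : Matrix (Fin 3) (Fin 3) ℂ}
    (hg : IsU h g) : IsUnit g.det := by
  rw [isUnit_iff_ne_zero]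
  intro h0
  have := hg.norm_det hh
  rw [h0] at this
  simp at this

theorem IsU.inv {h : Fin 3 → ℝ} (hh : ∀ i, h i ≠ 0) {g : Matrix (Fin 3) (Fin 3) ℂ}
    (hg : IsU h g) : IsU h g⁻¹ := by
  have hu := hg.isUnit_det hh
  have h1 : g * g⁻¹ = 1 := Matrix.mul_nonsing_inv g hu
  have h2 : (g⁻¹)ᴴ * gᴴ = 1 := by
    rw [← Matrix.conjTranspose_mul, h1, Matrix.conjTranspose_one]
  unfold IsU at *
  calc (g⁻¹)ᴴ * Matrix.diagonal (fun i => (h i : ℂ)) * g⁻¹
      = (g⁻¹)ᴴ * (gᴴ * Matrix.diagonal (fun i => (h i : ℂ)) * g) * g⁻¹ := by rw [hg]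
    _ = ((g⁻¹)ᴴ * gᴴ) * Matrix.diagonal (fun i => (h i : ℂ)) * (g * g⁻¹) := by
        simp only [Matrix.mul_assoc]
    _ = _ := by rw [h1, h2, Matrix.one_mul, Matrix.mul_one]

/-- `SU(h)` -/
def SUh (h : Fin 3 → ℝ) (hh : ∀ i, h i ≠ 0) : Subgroup (Matrix.SpecialLinearGroup (Fin 3) ℂ) where
  carrier := {g | IsU h (g : Matrix (Fin 3) (Fin 3) ℂ)}
  mul_mem' := by
    intro a b ha hb
    simp only [Set.mem_ofPred_eq, Matrix.SpecialLinearGroup.coe_mul] at *
    exact ha.mul hb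
  one_mem' := by simp [isU_one]
  inv_mem' := by
    intro g hg
    have h1 : IsU h (g : Matrix (Fin 3) (Fin 3) ℂ)⁻¹ := IsU.inv hh hg
    have h2 : (g : Matrix (Fin 3) (Fin 3) ℂ)⁻¹ =
        ((g⁻¹ : Matrix.SpecialLinearGroup (Fin 3) ℂ) : Matrix (Fin 3) (Fin 3) ℂ) := by
      rw [Matrix.SpecialLinearGroup.coe_inv, Matrix.inv_def, g.det_coe, Ring.inverse_one, one_smul]
    rw [h2] at h1
    exact h1

theorem mem_SUh {h : Fin 3 → ℝ} {hh : ∀ i, h i ≠ 0} {g : Matrix.SpecialLinearGroup (Fin 3) ℂ} :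
    g ∈ SUh h hh ↔ IsU h (g : Matrix (Fin 3) (Fin 3) ℂ) := Iff.rfl

/-! ### the derivative -/

/-- matrix of the complex derivative of `act g` at `y` -/
noncomputable def dmat (g : Matrix (Fin 3) (Fin 3) ℂ) (y : Fin 2 → ℂ) : Matrix (Fin 2) (Fin 2) ℂ :=
  Matrix.of fun i k => (g i.castSucc k.castSucc * jf g y - (g *ᵥ Yv y) i.castSucc * g 2 k.castSucc)
    / jf g y ^ 2

/-- the complex derivative of `act g` at `y` -/
noncomputable def dact (g : Matrix (Fin 3) (Fin 3) ℂ) (y : Fin 2 → ℂ) :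
    (Fin 2 → ℂ) →L[ℂ] (Fin 2 → ℂ) :=
  LinearMap.toContinuousLinearMap (Matrix.mulVecLin (dmat g y))

theorem mulVec_Yv (g : Matrix (Fin 3) (Fin 3) ℂ) (y : Fin 2 → ℂ) (i : Fin 3) :
    (g *ᵥ Yv y) i = g i 0 * y 0 + g i 1 * y 1 + g i 2 := by
  simp [Matrix.mulVec, dotProduct, Fin.sum_univ_three, Yv]

theorem hasFDerivAt_num (g : Matrix (Fin 3) (Fin 3) ℂ) (y : Fin 2 → ℂ) (i : Fin 3) :
    HasFDerivAt (fun y => (g *ᵥ Yv y) i)
      (g i 0 • (ContinuousLinearMap.proj 0 : (Fin 2 → ℂ) →L[ℂ] ℂ) +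
        g i 1 • (ContinuousLinearMap.proj 1 : (Fin 2 → ℂ) →L[ℂ] ℂ)) y := by
  simp_rw [mulVec_Yv]
  have h0 : HasFDerivAt (fun y : Fin 2 → ℂ => y 0)
      (ContinuousLinearMap.proj 0 : (Fin 2 → ℂ) →L[ℂ] ℂ) y := hasFDerivAt_apply 0 y
  have h1 : HasFDerivAt (fun y : Fin 2 → ℂ => y 1)
      (ContinuousLinearMap.proj 1 : (Fin 2 → ℂ) →L[ℂ] ℂ) y := hasFDerivAt_apply 1 y
  exact ((h0.const_mul (g i 0)).add (h1.const_mul (g i 1))).add_const (g i 2)

theorem hasFDerivAt_act (g : Matrix (Fin 3) (Fin 3) ℂ) {y : Fin 2 → ℂ} (hj : jf g y ≠ 0) :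
    HasFDerivAt (act g) (dact g y) y := by
  rw [hasFDerivAt_pi']
  intro i
  have hn := hasFDerivAt_num g y i.castSucc
  have hd := hasFDerivAt_num g y 2
  have hj' : (g *ᵥ Yv y) 2 ≠ 0 := hj
  have hi := (hasDerivAt_inv hj').comp_hasFDerivAt y hd
  have hq := hn.mul hi
  have he : (fun x => act g x i) =
      (fun y => (g *ᵥ Yv y) i.castSucc) * ((fun z : ℂ => z⁻¹) ∘ fun y => (g *ᵥ Yv y) 2) := by
    funext x
    simp [act, jf, div_eq_mul_inv]
  rw [he]
  refine hq.congr_fderiv ?_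
  have hjj : jf g y ≠ 0 := hj
  have hjd : (g *ᵥ Yv y) 2 = jf g y := rfl
  apply ContinuousLinearMap.ext
  intro v
  have e1 : (ContinuousLinearMap.proj i ∘L dact g y) v
      = dmat g y i 0 * v 0 + dmat g y i 1 * v 1 := by
    fin_cases i <;> simp [dact]
  rw [e1]
  simp only [dmat, Matrix.of_apply, hjd, Function.comp, _root_.add_apply,
    _root_.smul_apply, ContinuousLinearMap.proj_apply, smul_eq_mul,
    Fin.castSucc_zero, Fin.castSucc_one]
  field_simp
  ring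

theorem det_dmat (g : Matrix (Fin 3) (Fin 3) ℂ) {y : Fin 2 → ℂ} (hj : jf g y ≠ 0) :
    (dmat g y).det = g.det / jf g y ^ 3 := by
  have hj' := hj
  rw [jf, mulVec_Yv] at hj'
  rw [Matrix.det_fin_two, Matrix.det_fin_three]
  simp only [dmat, Matrix.of_apply, jf, mulVec_Yv, Fin.castSucc_zero, Fin.castSucc_one]
  field_simp
  ring


theorem det_dact (g : Matrix (Fin 3) (Fin 3) ℂ) {y : Fin 2 → ℂ} (hj : jf g y ≠ 0) :
    (dact g y).det = g.det / jf g y ^ 3 := by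
  rw [← det_dmat g hj, ContinuousLinearMap.det, dact]
  simp [← Matrix.toLin'_apply', LinearMap.det_toLin']

/-- the real derivative -/
noncomputable def ract (g : Matrix (Fin 3) (Fin 3) ℂ) (y : Fin 2 → ℂ) :
    (Fin 2 → ℂ) →L[ℝ] (Fin 2 → ℂ) := (dact g y).restrictScalars ℝ

theorem hasFDerivAt_act_real (g : Matrix (Fin 3) (Fin 3) ℂ) {y : Fin 2 → ℂ} (hj : jf g y ≠ 0) :
    HasFDerivAt (act g) (ract g y) y := (hasFDerivAt_act g hj).restrictScalars ℝ

theorem det_ract (g : Matrix (Fin 3) (Fin 3) ℂ) {y : Fin 2 → ℂ} (hj : jf g y ≠ 0) :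
    (ract g y).det = (‖g.det‖ / ‖jf g y‖ ^ 3) ^ 2 := by
  have h1 : (ract g y).det = Algebra.norm ℝ ((dact g y).det) := by
    rw [ContinuousLinearMap.det, ContinuousLinearMap.det, ← LinearMap.det_restrictScalars]
    rfl
  rw [h1, det_dact g hj, Algebra.norm_complex_apply, Complex.normSq_eq_norm_sq, norm_div, norm_pow]

theorem det_ract_of_isU {h : Fin 3 → ℝ} (h0 : 0 < h 0) (h1 : 0 < h 1) (h2 : h 2 < 0)
    {g : Matrix (Fin 3) (Fin 3) ℂ} (hg : IsU h g) {y : Fin 2 → ℂ} (hy : y ∈ Bl h) :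
    (ract g y).det = (‖jf g y‖ ^ 6)⁻¹ := by
  have hh : ∀ i, h i ≠ 0 := by
    intro i
    fin_cases i
    · exact h0.ne'
    · exact h1.ne'
    · exact h2.ne
  rw [det_ract g (jf_ne_zero h0 h1 hg hy), hg.norm_det hh]
  field_simp

/-! ### topology and measure -/

/-- sign conditions -/
structure Sg (h : Fin 3 → ℝ) : Prop where
  p0 : 0 < h 0
  p1 : 0 < h 1
  n2 : h 2 < 0

theorem Sg.ne {h : Fin 3 → ℝ} (hs : Sg h) (i : Fin 3) : h i ≠ 0 := by
  fin_cases i
  · exact hs.p0.ne'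
  · exact hs.p1.ne'
  · exact hs.n2.ne

theorem continuous_Yv : Continuous Yv := by
  refine continuous_pi fun i => ?_
  fin_cases i
  · exact continuous_apply 0
  · exact continuous_apply 1
  · exact continuous_const

theorem continuous_Hn (h : Fin 3 → ℝ) : Continuous (Hn h) := by
  unfold Hn
  fun_prop

theorem continuous_Hf (h : Fin 3 → ℝ) : Continuous (Hf h) :=
  ((continuous_Hn h).comp continuous_Yv).neg

theorem isOpen_Bl (h : Fin 3 → ℝ) : IsOpen (Bl h) := by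
  have : Bl h = {y | 0 < Hf h y} := by
    ext y; exact mem_Bl_iff_Hf h y
  rw [this]
  exact isOpen_lt continuous_const (continuous_Hf h)

theorem continuous_mulVec_Yv (g : Matrix (Fin 3) (Fin 3) ℂ) (i : Fin 3) :
    Continuous fun y => (g *ᵥ Yv y) i := by
  simp_rw [mulVec_Yv]
  fun_prop

theorem continuous_jf (g : Matrix (Fin 3) (Fin 3) ℂ) : Continuous (jf g) :=
  continuous_mulVec_Yv g 2

theorem measurable_act (g : Matrix (Fin 3) (Fin 3) ℂ) : Measurable (act g) := by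
  refine measurable_pi_lambda _ fun i => ?_
  exact (continuous_mulVec_Yv g i.castSucc).measurable.div (continuous_jf g).measurable

section group
variable {h : Fin 3 → ℝ} (hs : Sg h) {g : Matrix (Fin 3) (Fin 3) ℂ} (hg : IsU h g)
include hs hg

theorem jf_ne {y : Fin 2 → ℂ} (hy : y ∈ Bl h) : jf g y ≠ 0 := jf_ne_zero hs.p0 hs.p1 hg hy

theorem act_mem_Bl {y : Fin 2 → ℂ} (hy : y ∈ Bl h) : act g y ∈ Bl h :=
  act_mem hs.p0 hs.p1 hg hy

theorem act_inv_act {y : Fin 2 → ℂ} (hy : y ∈ Bl h) : act g⁻¹ (act g y) = y := by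
  rw [← act_mul _ _ (jf_ne hs hg hy), Matrix.nonsing_inv_mul g (hg.isUnit_det hs.ne), act_one]

theorem act_act_inv {y : Fin 2 → ℂ} (hy : y ∈ Bl h) : act g (act g⁻¹ y) = y := by
  rw [← act_mul _ _ (jf_ne hs (hg.inv hs.ne) hy), Matrix.mul_nonsing_inv g (hg.isUnit_det hs.ne),
    act_one]

theorem continuousOn_act : ContinuousOn (act g) (Bl h) := by
  refine continuousOn_pi.2 fun i => ?_
  exact (continuous_mulVec_Yv g i.castSucc).continuousOn.div (continuous_jf g).continuousOn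
    fun y hy => jf_ne hs hg hy

theorem injOn_act : Set.InjOn (act g) (Bl h) := by
  intro y hy z hz hyz
  rw [← act_inv_act hs hg hy, hyz, act_inv_act hs hg hz]

theorem image_act : act g '' Bl h = Bl h := by
  apply Set.Subset.antisymm
  · rintro _ ⟨y, hy, rfl⟩
    exact act_mem_Bl hs hg hy
  · intro y hy
    exact ⟨act g⁻¹ y, act_mem_Bl hs (hg.inv hs.ne) hy, act_act_inv hs hg hy⟩

theorem integral_act {E : Type*} [NormedAddCommGroup E] [NormedSpace ℝ E]
    (F : (Fin 2 → ℂ) → E) :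
    ∫ y in Bl h, F y = ∫ y in Bl h, (‖jf g y‖ ^ 6)⁻¹ • F (act g y) := by
  have key := integral_image_eq_integral_abs_det_fderiv_smul (μ := (volume : Measure (Fin 2 → ℂ)))
    (s := Bl h) (f := act g) (f' := ract g) (isOpen_Bl h).measurableSet
    (fun y hy => (hasFDerivAt_act_real g (jf_ne hs hg hy)).hasFDerivWithinAt)
    (injOn_act hs hg) F
  rw [image_act hs hg] at key
  rw [key]
  refine setIntegral_congr_fun (isOpen_Bl h).measurableSet fun y hy => ?_
  rw [det_ract_of_isU hs.p0 hs.p1 hs.n2 hg hy, abs_of_nonneg (by positivity)]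

theorem integrableOn_act_iff {E : Type*} [NormedAddCommGroup E] [NormedSpace ℝ E]
    (F : (Fin 2 → ℂ) → E) :
    IntegrableOn F (Bl h) ↔ IntegrableOn (fun y => (‖jf g y‖ ^ 6)⁻¹ • F (act g y)) (Bl h) := by
  have key := integrableOn_image_iff_integrableOn_abs_det_fderiv_smul
    (μ := (volume : Measure (Fin 2 → ℂ)))
    (s := Bl h) (f := act g) (f' := ract g) (isOpen_Bl h).measurableSet
    (fun y hy => (hasFDerivAt_act_real g (jf_ne hs hg hy)).hasFDerivWithinAt)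
    (injOn_act hs hg) F
  rw [image_act hs hg] at key
  rw [key]
  refine integrableOn_congr_fun (fun y hy => ?_) (isOpen_Bl h).measurableSet
  rw [det_ract_of_isU hs.p0 hs.p1 hs.n2 hg hy, abs_of_nonneg (by positivity)]

theorem lintegral_act (F : (Fin 2 → ℂ) → ENNReal) :
    ∫⁻ y in Bl h, F y = ∫⁻ y in Bl h, ENNReal.ofReal ((‖jf g y‖ ^ 6)⁻¹) * F (act g y) := by
  have key := lintegral_image_eq_lintegral_abs_det_fderiv_mul (volume : Measure (Fin 2 → ℂ))
    (s := Bl h) (f := act g) (f' := ract g) (isOpen_Bl h).measurableSet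
    (fun y hy => (hasFDerivAt_act_real g (jf_ne hs hg hy)).hasFDerivWithinAt)
    (injOn_act hs hg) F
  rw [image_act hs hg] at key
  rw [key]
  refine setLIntegral_congr_fun (isOpen_Bl h).measurableSet fun y hy => ?_
  rw [det_ract_of_isU hs.p0 hs.p1 hs.n2 hg hy, abs_of_nonneg (by positivity)]

end group

/-- the invariant measure `H^{-3} dy` on the ball -/
noncomputable def mu (h : Fin 3 → ℝ) : Measure (Fin 2 → ℂ) :=
  (volume.restrict (Bl h)).withDensity (fun y => ENNReal.ofReal ((Hf h y ^ 3)⁻¹))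

theorem measurable_dens (h : Fin 3 → ℝ) :
    Measurable fun y => ENNReal.ofReal ((Hf h y ^ 3)⁻¹) :=
  (((continuous_Hf h).measurable.pow_const 3).inv).ennreal_ofReal

theorem measurePreserving_act {h : Fin 3 → ℝ} (hs : Sg h) {g : Matrix (Fin 3) (Fin 3) ℂ}
    (hg : IsU h g) : MeasurePreserving (act g) (mu h) (mu h) := by
  refine ⟨measurable_act g, ?_⟩
  ext s hms
  rw [Measure.map_apply (measurable_act g) hms, mu, withDensity_apply _ hms,
    withDensity_apply _ (measurable_act g hms), ← lintegral_indicator hms,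
    ← lintegral_indicator (measurable_act g hms),
    lintegral_act hs hg (s.indicator fun y => ENNReal.ofReal ((Hf h y ^ 3)⁻¹))]
  refine setLIntegral_congr_fun (isOpen_Bl h).measurableSet fun y hy => ?_
  have hj := jf_ne hs hg hy
  by_cases hm : act g y ∈ s
  · rw [Set.indicator_of_mem (show y ∈ act g ⁻¹' s from hm), Set.indicator_of_mem hm,
      Hf_act hg hj, ← ENNReal.ofReal_mul (by positivity)]
    congr 1
    have h3 : Hf h y ≠ 0 := ((mem_Bl_iff_Hf h y).1 hy).ne'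
    have h4 : ‖jf g y‖ ≠ 0 := by simpa using hj
    field_simp
  · rw [Set.indicator_of_notMem (show y ∉ act g ⁻¹' s from hm), Set.indicator_of_notMem hm,
      mul_zero]

/-! ### the ball as a space with group action -/

/-- the action of one unitary matrix on the ball -/
noncomputable def actB {h : Fin 3 → ℝ} (hs : Sg h) {g : Matrix (Fin 3) (Fin 3) ℂ}
    (hg : IsU h g) (y : Bl h) : Bl h := ⟨act g y, act_mem_Bl hs hg y.2⟩

theorem continuous_actB {h : Fin 3 → ℝ} (hs : Sg h) {g : Matrix (Fin 3) (Fin 3) ℂ}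
    (hg : IsU h g) : Continuous (actB hs hg) :=
  Continuous.subtype_mk (continuousOn_iff_continuous_domRestrict.1 (continuousOn_act hs hg)) _

/-- the invariant measure on the ball -/
noncomputable def muB (h : Fin 3 → ℝ) : Measure (Bl h) := (mu h).comap (↑)

theorem muB_apply (h : Fin 3 → ℝ) {s : Set (Bl h)} :
    muB h s = mu h ((↑) '' s) :=
  (MeasurableEmbedding.subtype_coe (isOpen_Bl h).measurableSet).comap_apply _ _

theorem mu_compl (h : Fin 3 → ℝ) : mu h (Bl h)ᶜ = 0 := by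
  rw [mu, withDensity_apply _ (isOpen_Bl h).measurableSet.compl,
    Measure.restrict_restrict (isOpen_Bl h).measurableSet.compl, Set.compl_inter_self,
    Measure.restrict_empty, lintegral_zero_measure]

theorem measurePreserving_actB {h : Fin 3 → ℝ} (hs : Sg h) {g : Matrix (Fin 3) (Fin 3) ℂ}
    (hg : IsU h g) : MeasurePreserving (actB hs hg) (muB h) (muB h) := by
  have hm : Measurable (actB hs hg) := (continuous_actB hs hg).measurable
  refine ⟨hm, ?_⟩
  ext s hms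
  have hms' : MeasurableSet ((↑) '' s : Set (Fin 2 → ℂ)) :=
    (MeasurableEmbedding.subtype_coe (isOpen_Bl h).measurableSet).measurableSet_image.2 hms
  rw [Measure.map_apply hm hms, muB_apply, muB_apply,
    ← (measurePreserving_act hs hg).measure_preimage hms'.nullMeasurableSet]
  have e : ((↑) '' (actB hs hg ⁻¹' s) : Set (Fin 2 → ℂ)) = (act g ⁻¹' ((↑) '' s)) ∩ Bl h := by
    ext y
    constructor
    · rintro ⟨z, hz, rfl⟩
      exact ⟨⟨actB hs hg z, hz, rfl⟩, z.2⟩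
    · rintro ⟨⟨z, hz, hzy⟩, hy⟩
      refine ⟨⟨y, hy⟩, ?_, rfl⟩
      have : actB hs hg ⟨y, hy⟩ = z := Subtype.ext hzy.symm
      rw [Set.mem_preimage, this]
      exact hz
  rw [e]
  refine le_antisymm (measure_mono Set.inter_subset_left) ?_
  calc mu h (act g ⁻¹' ((↑) '' s))
      ≤ mu h ((act g ⁻¹' ((↑) '' s)) ∩ Bl h ∪ (Bl h)ᶜ) := by
        refine measure_mono fun y hy => ?_
        by_cases hb : y ∈ Bl h
        · exact Or.inl ⟨hy, hb⟩
        · exact Or.inr hb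
    _ ≤ mu h ((act g ⁻¹' ((↑) '' s)) ∩ Bl h) + mu h (Bl h)ᶜ := measure_union_le _ _
    _ = _ := by rw [mu_compl, add_zero]

theorem act_mul_Bl {h : Fin 3 → ℝ} (hs : Sg h) {g g' : Matrix (Fin 3) (Fin 3) ℂ}
    (hg' : IsU h g') {y : Fin 2 → ℂ} (hy : y ∈ Bl h) :
    act (g * g') y = act g (act g' y) := act_mul g g' (jf_ne hs hg' hy)

/-- `SU(h)` acts on the ball -/
@[reducible] noncomputable def mulActionB {h : Fin 3 → ℝ} (hs : Sg h) :
    MulAction (SUh h hs.ne) (Bl h) where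
  smul g y := actB hs g.2 y
  one_smul y := by
    apply Subtype.ext
    change act ((1 : Matrix.SpecialLinearGroup (Fin 3) ℂ) : Matrix (Fin 3) (Fin 3) ℂ) y = y
    rw [Matrix.SpecialLinearGroup.coe_one, act_one]
  mul_smul g g' y := by
    apply Subtype.ext
    change act ((g.1 * g'.1 : Matrix.SpecialLinearGroup (Fin 3) ℂ) : Matrix (Fin 3) (Fin 3) ℂ) y
      = act g.1 (act g'.1 y)
    rw [Matrix.SpecialLinearGroup.coe_mul, act_mul_Bl hs g'.2 y.2]

theorem mulActionB_coe {h : Fin 3 → ℝ} (hs : Sg h) (g : SUh h hs.ne) (y : Bl h) :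
    letI := mulActionB hs
    ((g • y : Bl h) : Fin 2 → ℂ) = act (g.1 : Matrix (Fin 3) (Fin 3) ℂ) y := rfl

theorem continuousConstSMulB {h : Fin 3 → ℝ} (hs : Sg h) :
    letI := mulActionB hs
    ContinuousConstSMul (SUh h hs.ne) (Bl h) := by
  let _ := mulActionB hs
  exact ⟨fun g => continuous_actB hs g.2⟩

theorem smulInvariantMeasureB {h : Fin 3 → ℝ} (hs : Sg h) :
    letI := mulActionB hs
    SMulInvariantMeasure (SUh h hs.ne) (Bl h) (muB h) := by
  let _ := mulActionB hs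
  exact ⟨fun g s hms => (measurePreserving_actB hs g.2).measure_preimage hms.nullMeasurableSet⟩

instance (h : Fin 3 → ℝ) : LocallyCompactSpace (Bl h) := (isOpen_Bl h).locallyCompactSpace

/-- integral against the invariant measure -/
theorem integral_muB (h : Fin 3 → ℝ) {E : Type*} [NormedAddCommGroup E] [NormedSpace ℝ E]
    (F : (Fin 2 → ℂ) → E) :
    ∫ y : Bl h, F y ∂(muB h) = ∫ y in Bl h, ((Hf h y ^ 3)⁻¹) • F y := by
  have hme := MeasurableEmbedding.subtype_coe (isOpen_Bl h).measurableSet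
  have h1 : Measure.map (↑) (muB h) = mu h := by
    rw [muB, hme.map_comap, Subtype.range_coe]
    have : (mu h).restrict (Bl h) = mu h := by
      rw [Measure.restrict_eq_self_of_ae_mem]
      exact mem_ae_iff.2 (mu_compl h)
    exact this
  rw [← hme.integral_map, h1, mu, integral_withDensity_eq_integral_toReal_smul₀]
  · refine setIntegral_congr_fun (isOpen_Bl h).measurableSet fun y hy => ?_
    have h3 : 0 < Hf h y := (mem_Bl_iff_Hf h y).1 hy
    rw [ENNReal.toReal_ofReal (by positivity)]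
  · exact (measurable_dens h).aemeasurable
  · exact Filter.Eventually.of_forall fun y => ENNReal.ofReal_lt_top

instance (h : Fin 3 → ℝ) : IsFiniteMeasureOnCompacts (muB h) := by
  refine ⟨fun {K} hK => ?_⟩
  rw [muB_apply]
  have hK' : IsCompact ((↑) '' K : Set (Fin 2 → ℂ)) := hK.image continuous_subtype_val
  have hsub : ((↑) '' K : Set (Fin 2 → ℂ)) ⊆ Bl h := by
    rintro _ ⟨y, _, rfl⟩; exact y.2
  have hc : ContinuousOn (fun y => (Hf h y ^ 3)⁻¹) ((↑) '' K : Set (Fin 2 → ℂ)) := by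
    refine ContinuousOn.inv₀ ((continuous_Hf h).pow 3).continuousOn fun y hy => ?_
    have := (mem_Bl_iff_Hf h y).1 (hsub hy)
    positivity
  obtain ⟨C, hC⟩ := hK'.exists_bound_of_continuousOn hc
  rw [mu, withDensity_apply _ hK'.measurableSet,
    Measure.restrict_restrict hK'.measurableSet]
  calc ∫⁻ y in ((↑) '' K : Set (Fin 2 → ℂ)) ∩ Bl h, ENNReal.ofReal ((Hf h y ^ 3)⁻¹)
      ≤ ∫⁻ y in ((↑) '' K : Set (Fin 2 → ℂ)) ∩ Bl h, ENNReal.ofReal C := by
        refine setLIntegral_mono' (hK'.measurableSet.inter (isOpen_Bl h).measurableSet)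
          fun y hy => ENNReal.ofReal_le_ofReal ?_
        exact (le_abs_self _).trans (hC y hy.1)
    _ = ENNReal.ofReal C * volume (((↑) '' K : Set (Fin 2 → ℂ)) ∩ Bl h) := by
        rw [setLIntegral_const]
    _ < ⊤ := by
        refine ENNReal.mul_lt_top ENNReal.ofReal_lt_top ?_
        exact (measure_mono Set.inter_subset_left).trans_lt hK'.measure_lt_top

instance (h : Fin 3 → ℝ) : Measure.IsOpenPosMeasure (muB h) := by
  refine ⟨fun U hU hne h0 => ?_⟩
  rw [muB_apply] at h0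
  have hac : (volume.restrict (Bl h) : Measure (Fin 2 → ℂ)) ≪ mu h := by
    refine withDensity_absolutelyContinuous' (measurable_dens h).aemeasurable ?_
    filter_upwards [ae_restrict_mem (isOpen_Bl h).measurableSet] with y hy
    have h3 : 0 < Hf h y := (mem_Bl_iff_Hf h y).1 hy
    have : 0 < (Hf h y ^ 3)⁻¹ := by positivity
    simpa using this
  have h1 := hac h0
  have hU' : IsOpen ((↑) '' U : Set (Fin 2 → ℂ)) := (isOpen_Bl h).isOpenMap_subtype_val U hU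
  have hsub : ((↑) '' U : Set (Fin 2 → ℂ)) ⊆ Bl h := by
    rintro _ ⟨y, _, rfl⟩; exact y.2
  rw [Measure.restrict_apply hU'.measurableSet, Set.inter_eq_left.2 hsub] at h1
  exact hU'.measure_ne_zero volume (hne.image _) h1

end Pool.CMH.Jac
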