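import Mathlib
import Pool.Agent.Lib.CMH.Defs
import Pool.Agent.Lib.CMH.Rows
import Pool.Agent.Lib.CMH.Final
import Pool.Agent.Lib.CMH.Jac

/-!
# CMH, row COCF: compact quotients for all subgroups of finite index of `SU(h)(O)`
-/

set_option autoImplicit false

open scoped ComplexConjugate Matrix
open Complex NumberField

namespace Pool.Agent.CMH

/-! ### small algebraic integers -/

theorem cocf_int_zero {F : Type} [Field F] [NumberField F] [IsTotallyReal F] {z : F}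
    (hz : IsIntegral ℤ z) (h : ∀ v : F →+* ℝ, |v z| < 1) : z = 0 := by
  by_contra hne
  let a : 𝓞 F := ⟨z, hz⟩
  have ha : a ≠ 0 := by
    intro h0
    exact hne (congrArg (fun t : 𝓞 F => (t : F)) h0)
  have hw : ∀ u : InfinitePlace F, u (a : F) < 1 := by
    intro u
    have hreal : InfinitePlace.IsReal u := IsTotallyReal.isReal u
    obtain ⟨φ, hφ⟩ : ∃ φ : F →+* ℝ, ∀ x, u x = |φ x| := by
      refine ⟨InfinitePlace.embedding_of_isReal hreal, fun x => ?_⟩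
      rw [← Real.norm_eq_abs, InfinitePlace.norm_embedding_of_isReal hreal]
    rw [hφ]
    exact h φ
  obtain ⟨u⟩ : Nonempty (InfinitePlace F) := inferInstance
  exact absurd (InfinitePlace.one_le_of_lt_one (w := u) ha (fun z _ => hw z)) (not_le.2 (hw u))

/-! ### the determinant of a pair -/

section pair
variable {R : Type*} [CommRing R]

/-- product of pairs, `(a + j b)(c + j d)` with `j² = -D` -/
def pm (D : R) (p q : R × R) : R × R := (p.1 * q.1 - D * (p.2 * q.2), p.1 * q.2 + p.2 * q.1)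

/-- the determinant of `X + j Y` -/
def pdet (D : R) (X Y : Matrix (Fin 3) (Fin 3) R) : R × R :=
  pm D (pm D (X 0 0, Y 0 0) (X 1 1, Y 1 1)) (X 2 2, Y 2 2)
    - pm D (pm D (X 0 0, Y 0 0) (X 1 2, Y 1 2)) (X 2 1, Y 2 1)
    - pm D (pm D (X 0 1, Y 0 1) (X 1 0, Y 1 0)) (X 2 2, Y 2 2)
    + pm D (pm D (X 0 1, Y 0 1) (X 1 2, Y 1 2)) (X 2 0, Y 2 0)
    + pm D (pm D (X 0 2, Y 0 2) (X 1 0, Y 1 0)) (X 2 1, Y 2 1)
    - pm D (pm D (X 0 2, Y 0 2) (X 1 1, Y 1 1)) (X 2 0, Y 2 0)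

theorem pdet_map {S : Type*} [CommRing S] (f : R →+* S) (D : R) (X Y : Matrix (Fin 3) (Fin 3) R) :
    pdet (f D) (X.map f) (Y.map f) = (f (pdet D X Y).1, f (pdet D X Y).2) := by
  simp [pdet, pm, Matrix.map_apply]

theorem pdet_one (D : R) : pdet D 1 0 = (1, 0) := by
  simp [pdet, pm]

end pair

theorem cocf_det_cmat {F : Type} [Field F] (v : F →+* ℝ) (D : F) (hD : 0 < v D) (g : Mat F) :
    (cmat v D g).det = (v (pdet D g.1 g.2).1 : ℂ) + I * (√(v D) : ℂ) * (v (pdet D g.1 g.2).2 : ℂ) := by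
  have h1 : ((√(v D) : ℝ) : ℂ) ^ 2 = (v D : ℂ) := by
    rw [← Complex.ofReal_pow, Real.sq_sqrt hD.le]
  have h2 : (I : ℂ) ^ 2 = -1 := I_sq
  rw [Matrix.det_fin_three]
  simp only [cmat, pdet, pm, Prod.fst_add, Prod.fst_sub, Prod.snd_add, Prod.snd_sub, map_add,
    map_sub, map_mul, Complex.ofReal_add, Complex.ofReal_sub, Complex.ofReal_mul]
  rw [← h1]
  generalize ((√(v D) : ℝ) : ℂ) = δ
  have h3 : (I : ℂ) ^ 3 = -I := by rw [pow_succ, h2]; ring
  ring_nf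
  rw [h2, h3]
  ring

theorem cocf_diag {R : Type*} [Zero R] (f : Fin 3 → R) :
    Matrix.diagonal f 0 0 = f 0 ∧ Matrix.diagonal f 0 1 = 0 ∧ Matrix.diagonal f 0 2 = 0 ∧
    Matrix.diagonal f 1 0 = 0 ∧ Matrix.diagonal f 1 1 = f 1 ∧ Matrix.diagonal f 1 2 = 0 ∧
    Matrix.diagonal f 2 0 = 0 ∧ Matrix.diagonal f 2 1 = 0 ∧ Matrix.diagonal f 2 2 = f 2 := by
  simp

theorem cocf_isU {F : Type} [Field F] (v : F →+* ℝ) (D : F) (hD : 0 < v D) (h : Fin 3 → F)
    {N : ℕ} {g : Mat F} (hg : g ∈ Gam D h N) : Pool.CMH.Jac.IsU (ev v h) (cmat v D g) := by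
  obtain ⟨e1, e2, -, -⟩ := hg
  have h1 : ((√(v D) : ℝ) : ℂ) ^ 2 = (v D : ℂ) := by
    rw [← Complex.ofReal_pow, Real.sq_sqrt hD.le]
  have h2 : (I : ℂ) ^ 2 = -1 := I_sq
  unfold Pool.CMH.Jac.IsU
  ext i j
  have f1 := congrArg (fun t : F => ((v t : ℝ) : ℂ)) (congrFun (congrFun e1 i) j)
  have f2 := congrArg (fun t : F => ((v t : ℝ) : ℂ)) (congrFun (congrFun e2 i) j)
  obtain ⟨a1, a2, a3, a4, a5, a6, a7, a8, a9⟩ := cocf_diag h
  simp only [Matrix.add_apply, Matrix.smul_apply, Matrix.mul_apply, Matrix.transpose_apply,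
    smul_eq_mul, Fin.sum_univ_three, map_add, map_mul, a1, a2, a3, a4, a5, a6, a7, a8, a9,
    Complex.ofReal_add, Complex.ofReal_mul, mul_zero, add_zero, zero_add] at f1 f2
  have f3 : ((v (Matrix.diagonal h i j) : ℝ) : ℂ) =
      Matrix.diagonal (fun l => ((v (h l) : ℝ) : ℂ)) i j := by
    by_cases hij : i = j
    · subst hij
      simp
    · simp [Matrix.diagonal_apply_ne _ hij]
  rw [f3] at f1
  have f4 : Matrix.diagonal (fun l => ((ev v h l : ℝ) : ℂ)) i j =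
      Matrix.diagonal (fun l => ((v (h l) : ℝ) : ℂ)) i j := rfl
  obtain ⟨b1, b2, b3, b4, b5, b6, b7, b8, b9⟩ := cocf_diag (fun l => ((ev v h l : ℝ) : ℂ))
  rw [f4, ← f1]
  simp only [Matrix.mul_apply, Matrix.conjTranspose_apply, cmat, Fin.sum_univ_three,
    b1, b2, b3, b4, b5, b6, b7, b8, b9, mul_zero, add_zero, zero_add]
  simp only [ev, star_add, star_mul', RCLike.star_def, Complex.conj_ofReal, conj_I]
  linear_combination (I * (√(v D) : ℂ)) * f2 +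
    ((v (g.2 0 i) : ℂ) * (v (h 0) : ℂ) * (v (g.2 0 j) : ℂ) +
      (v (g.2 1 i) : ℂ) * (v (h 1) : ℂ) * (v (g.2 1 j) : ℂ) +
      (v (g.2 2 i) : ℂ) * (v (h 2) : ℂ) * (v (g.2 2 j) : ℂ)) * h1 -
    ((√(v D) : ℂ)) ^ 2 * ((v (g.2 0 i) : ℂ) * (v (h 0) : ℂ) * (v (g.2 0 j) : ℂ) +
      (v (g.2 1 i) : ℂ) * (v (h 1) : ℂ) * (v (g.2 1 j) : ℂ) +
      (v (g.2 2 i) : ℂ) * (v (h 2) : ℂ) * (v (g.2 2 j) : ℂ)) * h2

/-- elements congruent to `1` modulo `N ≥ 3` have determinant `1` -/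
theorem cocf_det {F : Type} [Field F] [NumberField F] [IsTotallyReal F] (v₁ : F →+* ℝ) (D : F)
    (h : Fin 3 → F) (hG : Good v₁ D h) {N : ℕ} (hN : 3 ≤ N) {g : Mat F} (hg : g ∈ Gam D h N) :
    pdet D g.1 g.2 = (1, 0) := by
  have hN0 : (N : F) ≠ 0 := by
    have : (0 : ℕ) < N := by omega
    exact_mod_cast this.ne'
  have hhne : ∀ (v : F →+* ℝ) (i : Fin 3), ev v h i ≠ 0 := by
    intro v i
    fin_cases i
    · exact (hG.h0 v).ne'
    · exact (hG.h1 v).ne'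
    · by_cases hv : v = v₁
      · subst hv
        exact hG.h3.ne
      · exact (hG.h2 v hv).ne'
  -- norm one at all places
  have key : ∀ v : F →+* ℝ, (v (pdet D g.1 g.2).1) ^ 2 + v D * (v (pdet D g.1 g.2).2) ^ 2 = 1 := by
    intro v
    have h1 := (cocf_isU v D (hG.D0 v) h hg).norm_det (hhne v)
    rw [cocf_det_cmat v D (hG.D0 v)] at h1
    have h2 : ‖((v (pdet D g.1 g.2).1 : ℂ) + I * (√(v D) : ℂ) * (v (pdet D g.1 g.2).2 : ℂ))‖ ^ 2 =
        (v (pdet D g.1 g.2).1) ^ 2 + v D * (v (pdet D g.1 g.2).2) ^ 2 := by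
      rw [show ((v (pdet D g.1 g.2).1 : ℂ) + I * (√(v D) : ℂ) * (v (pdet D g.1 g.2).2 : ℂ)) =
        ((v (pdet D g.1 g.2).1 : ℝ) : ℂ) + ((√(v D) * v (pdet D g.1 g.2).2 : ℝ) : ℂ) * I by
          push_cast; ring, Complex.sq_norm, Complex.normSq_add_mul_I, mul_pow,
        Real.sq_sqrt (hG.D0 v).le]
    rw [← h2, h1, one_pow]
  -- the congruences
  obtain ⟨-, -, e3, e4⟩ := hg
  let D' : 𝓞 F := ⟨D, hG.Di⟩
  let X' : Matrix (Fin 3) (Fin 3) (𝓞 F) := fun i j => ⟨_, e3 i j⟩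
  let Y' : Matrix (Fin 3) (Fin 3) (𝓞 F) := fun i j => ⟨_, e4 i j⟩
  let X : Matrix (Fin 3) (Fin 3) (𝓞 F) := 1 + (N : 𝓞 F) • X'
  let Y : Matrix (Fin 3) (Fin 3) (𝓞 F) := (N : 𝓞 F) • Y'
  have hX : X.map (algebraMap (𝓞 F) F) = g.1 := by
    ext i j
    have h1 : algebraMap (𝓞 F) F (X' i j) =
        (g.1 i j - (1 : Matrix (Fin 3) (Fin 3) F) i j) / (N : F) := rfl
    have h2 : algebraMap (𝓞 F) F ((1 : Matrix (Fin 3) (Fin 3) (𝓞 F)) i j) =
        (1 : Matrix (Fin 3) (Fin 3) F) i j := by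
      by_cases hij : i = j
      · subst hij; simp
      · simp [Matrix.one_apply_ne hij]
    rw [Matrix.map_apply]
    change algebraMap (𝓞 F) F ((1 : Matrix (Fin 3) (Fin 3) (𝓞 F)) i j + (N : 𝓞 F) * X' i j) = _
    rw [map_add, map_mul, h1, h2, map_natCast]
    field_simp
    ring
  have hY : Y.map (algebraMap (𝓞 F) F) = g.2 := by
    ext i j
    have h1 : algebraMap (𝓞 F) F (Y' i j) = g.2 i j / (N : F) := rfl
    rw [Matrix.map_apply]
    change algebraMap (𝓞 F) F ((N : 𝓞 F) * Y' i j) = _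
    rw [map_mul, h1, map_natCast]
    field_simp
  have hpd := pdet_map (algebraMap (𝓞 F) F) D' X Y
  rw [hX, hY, show algebraMap (𝓞 F) F D' = D from rfl] at hpd
  let Q := 𝓞 F ⧸ Ideal.span {(N : 𝓞 F)}
  have hNQ : (Ideal.Quotient.mk (Ideal.span {(N : 𝓞 F)})) (N : 𝓞 F) = 0 :=
    Ideal.Quotient.eq_zero_iff_mem.2 (Ideal.mem_span_singleton_self _)
  have hq := pdet_map (Ideal.Quotient.mk (Ideal.span {(N : 𝓞 F)})) D' X Y
  have hXq : X.map (Ideal.Quotient.mk (Ideal.span {(N : 𝓞 F)})) = 1 := by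
    ext i j
    rw [Matrix.map_apply]
    change Ideal.Quotient.mk _ ((1 : Matrix (Fin 3) (Fin 3) (𝓞 F)) i j + (N : 𝓞 F) * X' i j) = _
    rw [map_add, map_mul, hNQ, zero_mul, add_zero]
    by_cases hij : i = j
    · subst hij; simp
    · simp [Matrix.one_apply_ne hij]
  have hYq : Y.map (Ideal.Quotient.mk (Ideal.span {(N : 𝓞 F)})) = 0 := by
    ext i j
    rw [Matrix.map_apply]
    change Ideal.Quotient.mk _ ((N : 𝓞 F) * Y' i j) = _
    rw [map_mul, hNQ, zero_mul]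
    rfl
  rw [hXq, hYq, pdet_one] at hq
  have hx := congrArg Prod.fst hq
  have hy := congrArg Prod.snd hq
  simp only at hx hy
  have hx' : (N : 𝓞 F) ∣ (pdet D' X Y).1 - 1 := by
    rw [← Ideal.mem_span_singleton, ← Ideal.Quotient.eq_zero_iff_mem, map_sub, ← hx, map_one,
      sub_self]
  obtain ⟨z, hz⟩ := hx'
  -- the first component is `1`
  have hz0 : (z : F) = 0 := by
    refine cocf_int_zero z.2 fun v => ?_
    have h1 := key v
    have h2 : v (pdet D g.1 g.2).1 = 1 + N * v (z : F) := by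
      rw [hpd]
      have : (pdet D' X Y).1 = 1 + (N : 𝓞 F) * z := by rw [← hz]; ring
      simp only [this, map_add, map_one, map_mul, map_natCast]
    have h3 : 0 ≤ v D * (v (pdet D g.1 g.2).2) ^ 2 :=
      mul_nonneg (hG.D0 v).le (sq_nonneg _)
    have h4 : (v (pdet D g.1 g.2).1) ^ 2 ≤ 1 := by linarith
    rw [h2] at h4
    have hN' : (3 : ℝ) ≤ N := by exact_mod_cast hN
    have h5 := abs_le.1 ((sq_le_one_iff_abs_le_one _).1 h4)
    rw [abs_lt]
    constructor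
    · nlinarith [h5.1]
    · nlinarith [h5.2]
  have hx1 : (pdet D g.1 g.2).1 = 1 := by
    rw [hpd]
    have : (pdet D' X Y).1 = 1 + (N : 𝓞 F) * z := by rw [← hz]; ring
    have hz1 : z = 0 := by
      apply NumberField.RingOfIntegers.ext
      rw [hz0]
      rfl
    simp [this, hz1]
  have hy1 : (pdet D g.1 g.2).2 = 0 := by
    have h1 := key v₁
    rw [hx1, map_one] at h1
    have h2 : v₁ D * (v₁ (pdet D g.1 g.2).2) ^ 2 = 0 := by linarith
    rcases mul_eq_zero.1 h2 with h3 | h3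
    · exact absurd h3 (hG.D0 v₁).ne'
    · have h4 : v₁ (pdet D g.1 g.2).2 = 0 := by simpa using h3
      exact (map_eq_zero v₁).1 h4
  exact Prod.ext hx1 hy1

/-! ### the group `SU(h)(O)` -/

/-- the ring `O` as a subring of `ℂ` -/
def cocf_ring {F : Type} [Field F] [NumberField F] (v : F →+* ℝ) (D : F) (hDi : IsIntegral ℤ D)
    (hD : 0 < v D) : Subring ℂ where
  carrier := {z | IsInt v D z}
  mul_mem' := by
    rintro _ _ ⟨x, y, hx, hy, rfl⟩ ⟨x', y', hx', hy', rfl⟩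
    have h1 : ((√(v D) : ℝ) : ℂ) ^ 2 = (v D : ℂ) := by
      rw [← Complex.ofReal_pow, Real.sq_sqrt hD.le]
    refine ⟨x * x' - D * (y * y'), x * y' + y * x', (hx.mul hx').sub (hDi.mul (hy.mul hy')),
      (hx.mul hy').add (hy.mul hx'), ?_⟩
    simp only [map_sub, map_add, map_mul, Complex.ofReal_sub, Complex.ofReal_add,
      Complex.ofReal_mul]
    linear_combination ((v y : ℂ) * (v y' : ℂ) * (√(v D) : ℂ) ^ 2) * I_sq -
      ((v y : ℂ) * (v y' : ℂ)) * h1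
  one_mem' := ⟨1, 0, isIntegral_one, isIntegral_zero, by simp⟩
  add_mem' := by
    rintro _ _ ⟨x, y, hx, hy, rfl⟩ ⟨x', y', hx', hy', rfl⟩
    refine ⟨x + x', y + y', hx.add hx', hy.add hy', ?_⟩
    simp only [map_add, Complex.ofReal_add]
    ring
  zero_mem' := ⟨0, 0, isIntegral_zero, isIntegral_zero, by simp⟩
  neg_mem' := by
    rintro _ ⟨x, y, hx, hy, rfl⟩
    refine ⟨-x, -y, hx.neg, hy.neg, ?_⟩
    simp only [map_neg, Complex.ofReal_neg]
    ring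

theorem cocf_mem_ring {F : Type} [Field F] [NumberField F] {v : F →+* ℝ} {D : F}
    {hDi : IsIntegral ℤ D} {hD : 0 < v D} {z : ℂ} : z ∈ cocf_ring v D hDi hD ↔ IsInt v D z :=
  Iff.rfl

theorem cocf_det_mem {n : Type*} [Fintype n] [DecidableEq n] (S : Subring ℂ) {M : Matrix n n ℂ}
    (hM : ∀ i j, M i j ∈ S) : M.det ∈ S := by
  rw [Matrix.det_apply]
  refine S.sum_mem fun σ _ => ?_
  rw [Units.smul_def]
  exact S.zsmul_mem (S.prod_mem fun i _ => hM _ _) _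

theorem cocf_ne {F : Type} [Field F] [NumberField F] {v₁ : F →+* ℝ} {D : F} {h : Fin 3 → F}
    (hG : Good v₁ D h) : Pool.CMH.Jac.Sg (ev v₁ h) :=
  ⟨hG.h0 v₁, hG.h1 v₁, hG.h3⟩

section group
variable {F : Type} [Field F] [NumberField F] {v₁ : F →+* ℝ} {D : F} {h : Fin 3 → F}

omit [NumberField F] in
theorem cocf_one : InSU v₁ D h 1 := by
  refine ⟨fun i j => ?_, by simp⟩
  by_cases hij : i = j
  · subst hij
    exact ⟨1, 0, isIntegral_one, isIntegral_zero, by simp⟩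
  · exact ⟨0, 0, isIntegral_zero, isIntegral_zero, by simp [Matrix.one_apply_ne hij]⟩

theorem cocf_mul (hG : Good v₁ D h) {g g' : SL3}
    (hg : InSU v₁ D h g) (hg' : InSU v₁ D h g') : InSU v₁ D h (g * g') := by
  refine ⟨fun i j => ?_, ?_⟩
  · have : (g * g').1 i j = ∑ l, g.1 i l * g'.1 l j := by
      rw [← Matrix.mul_apply]
      rfl
    rw [this]
    exact (cocf_ring v₁ D hG.Di (hG.D0 v₁)).sum_mem fun l _ =>
      (cocf_ring v₁ D hG.Di (hG.D0 v₁)).mul_mem (hg.1 i l) (hg'.1 l j)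
  · exact Pool.CMH.Jac.IsU.mul (h := ev v₁ h) hg.2 hg'.2

theorem cocf_inv (hG : Good v₁ D h) {g : SL3}
    (hg : InSU v₁ D h g) : InSU v₁ D h g⁻¹ := by
  refine ⟨fun i j => ?_, ?_⟩
  · have : (g⁻¹).1 i j = g.1.adjugate i j := by
      rw [← Matrix.SpecialLinearGroup.coe_inv]
    rw [this, Matrix.adjugate_apply]
    refine cocf_det_mem (cocf_ring v₁ D hG.Di (hG.D0 v₁)) fun k l => ?_
    by_cases hk : k = j
    · subst hk
      rw [Matrix.updateRow_self]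
      by_cases hl : l = i
      · subst hl
        rw [Pi.single_eq_same]
        exact (cocf_ring v₁ D hG.Di (hG.D0 v₁)).one_mem
      · rw [Pi.single_eq_of_ne hl]
        exact (cocf_ring v₁ D hG.Di (hG.D0 v₁)).zero_mem
    · rw [Matrix.updateRow_ne hk]
      exact hg.1 k l
  · have h1 := Pool.CMH.Jac.IsU.inv (h := ev v₁ h) (cocf_ne hG).ne hg.2
    have h2 : (g : Matrix (Fin 3) (Fin 3) ℂ)⁻¹ =
        ((g⁻¹ : SL3) : Matrix (Fin 3) (Fin 3) ℂ) := by
      rw [Matrix.SpecialLinearGroup.coe_inv, Matrix.inv_def, g.det_coe, Ring.inverse_one, one_smul]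
    rw [h2] at h1
    exact h1

/-- elements of `Γ_N`, `N ≥ 3`, are in `SU(h)(O)` -/
theorem cocf_inG [IsTotallyReal F] (hG : Good v₁ D h) {N : ℕ} (hN : 3 ≤ N) {g : Mat F}
    (hg : g ∈ Gam D h N) :
    ∃ γ : SL3, γ.1 = cmat v₁ D g ∧ InSU v₁ D h γ := by
  have hdet : (cmat v₁ D g).det = 1 := by
    rw [cocf_det_cmat v₁ D (hG.D0 v₁), cocf_det v₁ D h hG hN hg]
    simp
  have hU := cocf_isU v₁ D (hG.D0 v₁) h hg
  have hN0 : (N : F) ≠ 0 := by
    have : (0 : ℕ) < N := by omega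
    exact_mod_cast this.ne'
  obtain ⟨-, -, e3, e4⟩ := hg
  refine ⟨⟨cmat v₁ D g, hdet⟩, rfl, fun i j => ?_, hU⟩
  refine ⟨g.1 i j, g.2 i j, ?_, ?_, rfl⟩
  · have h1 : g.1 i j = (N : F) * ((g.1 i j - (1 : Matrix (Fin 3) (Fin 3) F) i j) / (N : F)) +
        (1 : Matrix (Fin 3) (Fin 3) F) i j := by
      field_simp
      ring
    have h2 : IsIntegral ℤ ((1 : Matrix (Fin 3) (Fin 3) F) i j) := by
      by_cases hij : i = j
      · subst hij
        rw [Matrix.one_apply_eq]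
        exact isIntegral_one
      · rw [Matrix.one_apply_ne hij]
        exact isIntegral_zero
    have hh := ((isIntegral_algebraMap (R := ℤ) (A := F) (x := (N : ℤ))).mul (e3 i j)).add h2
    rw [h1]
    simpa using hh
  · have h1 : g.2 i j = (N : F) * (g.2 i j / (N : F)) := by
      field_simp
    rw [h1]
    have hh := (isIntegral_algebraMap (R := ℤ) (A := F) (x := (N : ℤ))).mul (e4 i j)
    simpa using hh

theorem cocf_act_eq (g : SL3) (y : Fin 2 → ℂ) :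
    actC g y = Pool.CMH.Jac.act g.1 y := rfl

/-- **COCF** -/
theorem cocf [IsTotallyReal F] (hcoc : COC) (hG : Good v₁ D h) (hv : ∃ v : F →+* ℝ, v ≠ v₁)
    {Γ : Subgroup (SL3)} (hΓ : IsArith v₁ D h Γ) :
    Cocompact (ev v₁ h) Γ := by
  classical
  obtain ⟨C, hC, hCb, hCc⟩ := hcoc F v₁ D h 3 hG hv (by norm_num)
  obtain ⟨S', hSf, hS'⟩ := hΓ.fin
  let S : Finset SL3 := hSf.toFinset
  have hS : ∀ g, InSU v₁ D h g → ∃ γ ∈ Γ, ∃ t ∈ S, g = γ * t := by
    intro g hg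
    obtain ⟨γ, hγ, t, ht, he⟩ := hS' g hg
    exact ⟨γ, hγ, t, hSf.mem_toFinset.2 ht, he⟩
  have hs := cocf_ne hG
  refine ⟨⋃ t ∈ S.filter (fun t => InSU v₁ D h t), actC t '' C, ?_, ?_, ?_⟩
  · refine (S.filter _).isCompact_biUnion fun t ht => ?_
    have h1 := (Finset.mem_filter.1 ht).2
    exact hC.image_of_continuousOn ((Pool.CMH.Jac.continuousOn_act hs h1.2).mono hCb)
  · intro y hy
    simp only [Set.mem_iUnion] at hy
    obtain ⟨t, ht, z, hz, rfl⟩ := hy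
    have h1 := (Finset.mem_filter.1 ht).2
    exact Pool.CMH.Jac.act_mem_Bl hs h1.2 (hCb hz)
  · intro y hy
    obtain ⟨g, hg, hgC⟩ := hCc y hy
    obtain ⟨m, hm, hmG⟩ := cocf_inG hG le_rfl hg
    obtain ⟨γ, hγ, t, ht, he⟩ := hS m⁻¹ (cocf_inv hG hmG)
    have htG : InSU v₁ D h t := by
      have : t = γ⁻¹ * m⁻¹ := by rw [he]; group
      rw [this]
      exact cocf_mul hG (cocf_inv hG (hΓ.le γ hγ)) (cocf_inv hG hmG)
    have he2 : γ⁻¹ = t * m := by
      have : γ⁻¹ = t * (γ * t)⁻¹ := by group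
      rw [this, ← he, inv_inv]
    refine ⟨γ⁻¹, Γ.inv_mem hγ, ?_⟩
    simp only [Set.mem_iUnion]
    refine ⟨t, Finset.mem_filter.2 ⟨ht, htG⟩, actC m y, ?_, ?_⟩
    · have h4 : actC m y = act v₁ D g y := by
        have h5 : actC m y = fun j => (m.1 *ᵥ hat y) j.castSucc / (m.1 *ᵥ hat y) 2 := rfl
        rw [h5, hm]
        rfl
      rw [h4]
      exact hgC
    · rw [he2, cocf_act_eq, cocf_act_eq, cocf_act_eq]
      have h3 : (t * m : SL3).1 = t.1 * m.1 := rfl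
      rw [h3, Pool.CMH.Jac.act_mul t.1 m.1 (Pool.CMH.Jac.jf_ne hs hmG.2 hy)]

end group

end Pool.Agent.CMH
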