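import Pool.Agent.Lib.CMH.FX0
import Pool.Agent.Lib.CMH.Cocf
import Pool.Agent.Lib.CMH.Coc

/-!
# CMH: COCX from COC, and the determinant of the elements of `Γ_N`
-/

set_option autoImplicit false

open NumberField

namespace Pool.Agent.CMH

theorem cocx (hcoc : COC) : COCX :=
  fun _ _ _ _ _ _ _ _ hG hv hΓ => cocf hcoc hG hv hΓ

theorem cocx_done : COCX := cocx coc

theorem cocf_hdet {F : Type} [Field F] [NumberField F] [IsTotallyReal F] {v₁ : F →+* ℝ} {D : F}
    {h : Fin 3 → F} (hG : Good v₁ D h) {N : ℕ} (hN : 3 ≤ N) :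
    ∀ p ∈ Gam D h N, (cmat v₁ D p).det = 1 := by
  intro p hp
  rw [cocf_det_cmat v₁ D (hG.D0 v₁), cocf_det v₁ D h hG hN hp]
  simp

end Pool.Agent.CMH
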