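import Mathlib

/-!
Tank CMH, coniveau corollary (helper4).

CM types are `Finset V` (places with sign `+`), as in the closing lemma of helper29.  A multiset `W`
of `l + 2k` types with at least `k` plus signs and at least `k` minus signs at every place (Hodge
coniveau `≥ k` of the monomial `W` and of all its conjugates) becomes balanced after adding the
conjugates of `l` suitable types `P`: `V(W) = V(P)(-k)`.
-/

set_option autoImplicit false

namespace Pool.CMH

open Finset

variable {V : Type} [Fintype V] [DecidableEq V]

/-- the `l` types with prescribed numbers `f v ≤ l` of plus signs -/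
def stair (l : ℕ) (f : V → ℕ) : Multiset (Finset V) :=
  (Multiset.range l).map fun i => Finset.univ.filter fun v => i < f v

omit [DecidableEq V] in
theorem card_stair (l : ℕ) (f : V → ℕ) : (stair l f).card = l := by
  simp [stair]

theorem filter_stair (l : ℕ) (f : V → ℕ) (v : V) (h : f v ≤ l) :
    ((stair l f).filter fun Φ => v ∈ Φ).card = f v := by
  unfold stair
  rw [Multiset.filter_map, Multiset.card_map]
  have h1 : (Multiset.range l).filter ((fun Φ => v ∈ Φ) ∘ fun i =>
      (Finset.univ.filter fun v => i < f v : Finset V)) = (Multiset.range l).filter (· < f v) := by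
    apply Multiset.filter_congr
    intro i _
    simp
  rw [h1]
  have h2 : (Multiset.range l).filter (· < f v) = ((Finset.range l).filter (· < f v)).val := rfl
  rw [h2]
  have h3 : (Finset.range l).filter (· < f v) = Finset.range (f v) := by
    ext i
    simp only [Finset.mem_filter, Finset.mem_range]
    omega
  rw [h3]
  simp

theorem filter_compl (s : Multiset (Finset V)) (v : V) :
    ((s.map fun Φ => Φᶜ).filter fun Φ => v ∈ Φ).card + (s.filter fun Φ => v ∈ Φ).card = s.card := by
  rw [Multiset.filter_map, Multiset.card_map]
  have h1 : s.filter ((fun Φ => v ∈ Φ) ∘ fun Φ : Finset V => Φᶜ) =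
      s.filter (fun Φ => ¬ v ∈ Φ) := by
    apply Multiset.filter_congr
    intro Φ _
    simp
  rw [h1, ← Multiset.card_add, add_comm, Multiset.filter_add_not]

/-- Hodge coniveau `≥ k` gives a balanced multiset. -/
theorem exists_balance (W : Multiset (Finset V)) (l k : ℕ) (hW : W.card = l + 2 * k)
    (h : ∀ v : V, k ≤ (W.filter fun Φ => v ∈ Φ).card ∧ (W.filter fun Φ => v ∈ Φ).card ≤ l + k) :
    ∃ P : Multiset (Finset V), P.card = l ∧
      (∀ v : V, (W.filter fun Φ => v ∈ Φ).card = (P.filter fun Φ => v ∈ Φ).card + k) ∧
      ∀ v : V, 2 * ((W + P.map fun Φ => Φᶜ).filter fun Φ => v ∈ Φ).card =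
        (W + P.map fun Φ => Φᶜ).card := by
  refine ⟨stair l fun v => (W.filter fun Φ => v ∈ Φ).card - k, card_stair _ _, ?_, ?_⟩
  · intro v
    rw [filter_stair]
    · have := (h v).1; omega
    · have := (h v).2; omega
  · intro v
    have h1 := filter_compl (stair l fun v => (W.filter fun Φ => v ∈ Φ).card - k) v
    rw [filter_stair _ _ _ (by have := (h v).2; omega), card_stair] at h1
    rw [Multiset.filter_add, Multiset.card_add, Multiset.card_add, Multiset.card_map, card_stair, hW]
    have := (h v).1
    have := (h v).2
    omega

end Pool.CMH
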