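import Mathlib

/-!
Tank CMH (MP_938ce2_ag), helper5: Gaussian sums over lattices in totally real fields.
-/

set_option autoImplicit false

namespace Pool.CMH

open NumberField Module

section lattice

variable {F : Type} [Field F] [NumberField F]

/-- in a totally real field the trace is the sum over the real embeddings -/
theorem trace_real [IsTotallyReal F] (x : F) :
    ((Algebra.trace ℚ F x : ℚ) : ℝ) = ∑ v : F →+* ℝ, v x := by
  have h1 : algebraMap ℚ ℂ (Algebra.trace ℚ F x) = ∑ σ : F →ₐ[ℚ] ℂ, σ x :=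
    trace_eq_sum_embeddings (K := ℚ) (L := F) ℂ
  have hreal : ∀ σ : F →+* ℂ, ComplexEmbedding.IsReal σ := by
    intro σ
    have h := IsTotallyReal.isReal (K := F) (InfinitePlace.mk σ)
    exact InfinitePlace.isReal_iff.mp h |> fun h' => by
      rcases (InfinitePlace.isReal_mk_iff).mp h with h2
      exact h2
  let e : (F →+* ℝ) ≃ (F →ₐ[ℚ] ℂ) :=
    { toFun := fun v => (Complex.ofRealHom.comp v).toRatAlgHom
      invFun := fun σ => (hreal σ.toRingHom).embedding
      left_inv := by
        intro v
        ext z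
        have : (((hreal ((Complex.ofRealHom.comp v).toRatAlgHom).toRingHom).embedding z : ℝ) : ℂ) =
            (v z : ℂ) := by
          rw [ComplexEmbedding.IsReal.coe_embedding_apply]
          rfl
        exact_mod_cast this
      right_inv := by
        intro σ
        ext z
        change (((hreal σ.toRingHom).embedding z : ℝ) : ℂ) = σ z
        rw [ComplexEmbedding.IsReal.coe_embedding_apply]
        rfl }
  have h2 : ∑ σ : F →ₐ[ℚ] ℂ, σ x = ∑ v : F →+* ℝ, ((v x : ℝ) : ℂ) := by
    rw [← Equiv.sum_comp e]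
    rfl
  rw [h2] at h1
  have h3 : (((Algebra.trace ℚ F x : ℚ) : ℝ) : ℂ) = ((∑ v : F →+* ℝ, v x : ℝ) : ℂ) := by
    push_cast
    rw [← h1]
    simp
  exact_mod_cast h3

/-- coordinates in an integral basis are bounded by the sizes of the conjugates -/
theorem exists_coord_bound [IsTotallyReal F] :
    ∃ C : ℝ, 0 < C ∧ ∀ x : F, ∀ j, |(((integralBasis F).repr x j : ℚ) : ℝ)| ≤
      C * ∑ v : F →+* ℝ, |v x| := by
  classical
  set B := Algebra.traceForm ℚ F
  have hB : B.Nondegenerate := traceForm_nondegenerate ℚ F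
  set b := integralBasis F
  set b' := B.dualBasis hB b
  have hrep : ∀ x j, b.repr x j = Algebra.trace ℚ F (b' j * x) := by
    intro x j
    have h1 : Algebra.trace ℚ F (b' j * x) = B (b' j) x := rfl
    rw [h1]
    conv_rhs => rw [← b.sum_repr x]
    rw [map_sum]
    have h2 : ∀ k, B (b' j) (b.repr x k • b k) = if k = j then b.repr x j else 0 := by
      intro k
      rw [map_smul, LinearMap.BilinForm.apply_dualBasis_left]
      by_cases h : k = j
      · subst h; simp
      · simp [h]
    rw [Finset.sum_congr rfl (fun k _ => h2 k)]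
    simp
  refine ⟨1 + ∑ j, ∑ v : F →+* ℝ, |v (b' j)|, ?_, ?_⟩
  · have : 0 ≤ ∑ j, ∑ v : F →+* ℝ, |v (b' j)| :=
      Finset.sum_nonneg (fun j _ => Finset.sum_nonneg (fun v _ => abs_nonneg _))
    linarith
  · intro x j
    rw [hrep, trace_real]
    calc |∑ v : F →+* ℝ, v (b' j * x)| ≤ ∑ v : F →+* ℝ, |v (b' j * x)| :=
          Finset.abs_sum_le_sum_abs _ _
      _ ≤ ∑ v : F →+* ℝ, (1 + ∑ j, ∑ v : F →+* ℝ, |v (b' j)|) * |v x| := by
          apply Finset.sum_le_sum
          intro v _
          rw [map_mul, abs_mul]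
          apply mul_le_mul_of_nonneg_right _ (abs_nonneg _)
          have h1 : |v (b' j)| ≤ ∑ v : F →+* ℝ, |v (b' j)| :=
            Finset.single_le_sum (f := fun v : F →+* ℝ => |v (b' j)|)
              (fun v _ => abs_nonneg _) (Finset.mem_univ v)
          have h2 : ∑ v : F →+* ℝ, |v (b' j)| ≤ ∑ j, ∑ v : F →+* ℝ, |v (b' j)| :=
            Finset.single_le_sum (f := fun j => ∑ v : F →+* ℝ, |v (b' j)|)
              (fun j _ => Finset.sum_nonneg (fun v _ => abs_nonneg _)) (Finset.mem_univ j)
          linarith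
      _ = _ := by rw [Finset.mul_sum]

end lattice

/-- sums of products over integer vectors -/
theorem summable_pi_int (M : ℕ) (g : ℤ → ℝ) (hg0 : ∀ n, 0 ≤ g n) (hg : Summable g) :
    Summable (fun n : Fin M → ℤ => ∏ k, g (n k)) := by
  induction M with
  | zero => exact (hasSum_fintype _).summable
  | succ M ih =>
    have h := hg.mul_of_nonneg ih hg0 (fun n => Finset.prod_nonneg (fun k _ => hg0 _))
    have e := (Fin.consEquiv (fun _ : Fin (M + 1) => ℤ)).summable_iff
      (f := fun n : Fin (M + 1) → ℤ => ∏ k, g (n k))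
    rw [← e]
    refine h.congr ?_
    intro p
    simp [Function.comp, Fin.consEquiv, Fin.prod_univ_succ]

theorem summable_pi_int' {κ : Type} [Fintype κ] (g : ℤ → ℝ) (hg0 : ∀ n, 0 ≤ g n) (hg : Summable g) :
    Summable (fun n : κ → ℤ => ∏ k, g (n k)) := by
  classical
  have e := Fintype.equivFin κ
  have h := summable_pi_int (Fintype.card κ) g hg0 hg
  have h2 := (Equiv.arrowCongr e (Equiv.refl ℤ)).summable_iff
    (f := fun n : Fin (Fintype.card κ) → ℤ => ∏ k, g (n k))
  rw [← h2] at h
  refine h.congr ?_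
  intro n
  simp only [Function.comp, Equiv.arrowCongr_apply, Equiv.coe_refl, Function.comp_apply, id]
  exact Equiv.prod_comp e.symm (fun k => g (n k))

theorem summable_gauss_int (c : ℝ) (hc : 0 < c) :
    Summable (fun n : ℤ => Real.exp (-(c * (n : ℝ) ^ 2))) := by
  have h := summable_int_iff_summable_nat_and_neg (f := fun n : ℤ => Real.exp (-(c * (n : ℝ) ^ 2)))
  rw [h]
  have h1 : Summable (fun n : ℕ => Real.exp (-(c * (((n : ℤ)) : ℝ) ^ 2))) := by
    have hb : Summable (fun n : ℕ => Real.exp (-c) ^ n) :=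
      summable_geometric_of_lt_one (Real.exp_pos _).le (by rw [Real.exp_lt_one_iff]; linarith)
    refine Summable.of_nonneg_of_le (fun n => (Real.exp_pos _).le) (fun n => ?_) hb
    rw [← Real.exp_nat_mul, Real.exp_le_exp]
    push_cast
    have : (n : ℝ) ≤ (n : ℝ) ^ 2 := by
      rcases Nat.eq_zero_or_pos n with h | h
      · subst h; simp
      · have : (1 : ℝ) ≤ n := by exact_mod_cast h
        nlinarith
    nlinarith
  constructor
  · exact h1
  · refine h1.congr ?_
    intro n
    push_cast
    rw [neg_sq]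

end Pool.CMH
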