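import Mathlib
import Pool.Agent.Lib.CMH.Gs

/-!
Tank CMH (MP_938ce2_ag), helper5: Gaussian sums over F-lattices.
-/

set_option autoImplicit false

namespace Pool.CMH

open NumberField Module

variable {F : Type} [Field F] [NumberField F]

/-- sum of the squares of all conjugates of all coordinates -/
noncomputable def nrm2 {ι : Type} [Fintype ι] (ξ : ι → F) : ℝ :=
  ∑ i, ∑ v : F →+* ℝ, (v (ξ i)) ^ 2

/-- the lattice N⁻¹ 𝓞^ι -/
def Lat (F : Type) [Field F] (ι : Type) (N : ℕ) : Set (ι → F) :=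
  {ξ | ∀ i, IsIntegral ℤ ((N : F) * ξ i)}

theorem nrm2_nonneg {ι : Type} [Fintype ι] (ξ : ι → F) : 0 ≤ nrm2 ξ :=
  Finset.sum_nonneg (fun i _ => Finset.sum_nonneg (fun v _ => sq_nonneg _))

theorem exists_coord_sq_bound [IsTotallyReal F] :
    ∃ C : ℝ, 0 < C ∧ ∀ x : F, ∑ j, (((integralBasis F).repr x j : ℚ) : ℝ) ^ 2 ≤
      C * ∑ v : F →+* ℝ, (v x) ^ 2 := by
  obtain ⟨C, hC, h⟩ := exists_coord_bound (F := F)
  refine ⟨1 + (Fintype.card (Module.Free.ChooseBasisIndex ℤ (𝓞 F))) *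
    (C ^ 2 * Fintype.card (F →+* ℝ)), by positivity, ?_⟩
  intro x
  have h1 : ∀ j, (((integralBasis F).repr x j : ℚ) : ℝ) ^ 2 ≤
      C ^ 2 * Fintype.card (F →+* ℝ) * ∑ v : F →+* ℝ, (v x) ^ 2 := by
    intro j
    have h2 := h x j
    have h3 : (∑ v : F →+* ℝ, |v x|) ^ 2 ≤ Fintype.card (F →+* ℝ) * ∑ v : F →+* ℝ, |v x| ^ 2 := by
      have := sq_sum_le_card_mul_sum_sq (s := (Finset.univ : Finset (F →+* ℝ)))
        (f := fun v => |v x|)
      simpa using this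
    have h4 : (((integralBasis F).repr x j : ℚ) : ℝ) ^ 2 ≤ (C * ∑ v : F →+* ℝ, |v x|) ^ 2 := by
      rw [← sq_abs]
      exact pow_le_pow_left₀ (abs_nonneg _) h2 2
    simp only [sq_abs] at h3
    calc _ ≤ (C * ∑ v : F →+* ℝ, |v x|) ^ 2 := h4
      _ = C ^ 2 * (∑ v : F →+* ℝ, |v x|) ^ 2 := by ring
      _ ≤ C ^ 2 * (Fintype.card (F →+* ℝ) * ∑ v : F →+* ℝ, (v x) ^ 2) :=
          mul_le_mul_of_nonneg_left h3 (by positivity)
      _ = _ := by ring
  calc _ ≤ ∑ j : Module.Free.ChooseBasisIndex ℤ (𝓞 F),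
        C ^ 2 * Fintype.card (F →+* ℝ) * ∑ v : F →+* ℝ, (v x) ^ 2 :=
        Finset.sum_le_sum (fun j _ => h1 j)
    _ = (Fintype.card (Module.Free.ChooseBasisIndex ℤ (𝓞 F))) *
        (C ^ 2 * Fintype.card (F →+* ℝ)) * ∑ v : F →+* ℝ, (v x) ^ 2 := by
        rw [Finset.sum_const, nsmul_eq_mul, Finset.card_univ]; ring
    _ ≤ _ := by
        have : 0 ≤ ∑ v : F →+* ℝ, (v x) ^ 2 := Finset.sum_nonneg (fun v _ => sq_nonneg _)
        nlinarith

/-- the Gaussian sum over an F-lattice converges -/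
theorem summable_gauss_lat [IsTotallyReal F] {ι : Type} [Fintype ι] (N : ℕ) (hN : 0 < N)
    (c : ℝ) (hc : 0 < c) :
    Summable (fun ξ : Lat F ι N => Real.exp (-(c * nrm2 (ξ : ι → F)))) := by
  classical
  obtain ⟨C, hC, hb⟩ := exists_coord_sq_bound (F := F)
  let n : Lat F ι N → (ι × Module.Free.ChooseBasisIndex ℤ (𝓞 F) → ℤ) := fun ξ p =>
    (RingOfIntegers.basis F).repr (⟨(N : F) * (ξ : ι → F) p.1, ξ.2 p.1⟩ : 𝓞 F) p.2
  have hn : ∀ (ξ : Lat F ι N) (p), (((integralBasis F).repr ((N : F) * (ξ : ι → F) p.1) p.2 : ℚ) : ℝ)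
      = (n ξ p : ℝ) := by
    intro ξ p
    have h := integralBasis_repr_apply F (⟨(N : F) * (ξ : ι → F) p.1, ξ.2 p.1⟩ : 𝓞 F) p.2
    have h' : (algebraMap (𝓞 F) F) (⟨(N : F) * (ξ : ι → F) p.1, ξ.2 p.1⟩ : 𝓞 F) =
      (N : F) * (ξ : ι → F) p.1 := rfl
    rw [h'] at h
    rw [h]
    simp [n]
  have hinj : Function.Injective n := by
    intro ξ η h
    apply Subtype.ext
    funext i
    have h1 : (integralBasis F).repr ((N : F) * (ξ : ι → F) i) =
        (integralBasis F).repr ((N : F) * (η : ι → F) i) := by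
      ext j
      have h2 := hn ξ (i, j)
      have h3 := hn η (i, j)
      rw [h] at h2
      have h4 := h2.trans h3.symm
      exact_mod_cast h4
    have h2 := (integralBasis F).repr.injective h1
    have hN' : (N : F) ≠ 0 := by exact_mod_cast hN.ne'
    exact mul_left_cancel₀ hN' h2
  set c' : ℝ := c / (C * (N : ℝ) ^ 2) with hc'
  have hNr : (0 : ℝ) < N := by exact_mod_cast hN
  have hc'0 : 0 < c' := by positivity
  have hs := summable_pi_int' (κ := ι × Module.Free.ChooseBasisIndex ℤ (𝓞 F))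
    (fun m => Real.exp (-(c' * (m : ℝ) ^ 2))) (fun m => (Real.exp_pos _).le)
    (summable_gauss_int c' hc'0)
  have hs2 := hs.comp_injective hinj
  refine Summable.of_nonneg_of_le (fun ξ => (Real.exp_pos _).le) (fun ξ => ?_) hs2
  simp only [Function.comp]
  rw [← Real.exp_sum, Real.exp_le_exp, Finset.sum_neg_distrib, neg_le_neg_iff, ← Finset.mul_sum,
    Fintype.sum_prod_type]
  have h1 : ∀ i, ∑ j, ((n ξ (i, j) : ℤ) : ℝ) ^ 2 ≤ C * (N : ℝ) ^ 2 * ∑ v : F →+* ℝ, (v ((ξ : ι → F) i)) ^ 2 := by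
    intro i
    have h2 := hb ((N : F) * (ξ : ι → F) i)
    have h3 : ∑ j, ((n ξ (i, j) : ℤ) : ℝ) ^ 2 =
        ∑ j, (((integralBasis F).repr ((N : F) * (ξ : ι → F) i) j : ℚ) : ℝ) ^ 2 :=
      Finset.sum_congr rfl (fun j _ => by rw [hn ξ (i, j)])
    rw [h3]
    refine h2.trans (le_of_eq ?_)
    simp only [map_mul, map_natCast, mul_pow]
    rw [← Finset.mul_sum]
    ring
  calc c' * ∑ i, ∑ j, ((n ξ (i, j) : ℤ) : ℝ) ^ 2
      ≤ c' * ∑ i, C * (N : ℝ) ^ 2 * ∑ v : F →+* ℝ, (v ((ξ : ι → F) i)) ^ 2 :=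
        mul_le_mul_of_nonneg_left (Finset.sum_le_sum (fun i _ => h1 i)) hc'0.le
    _ = c * nrm2 (ξ : ι → F) := by
        rw [← Finset.mul_sum, nrm2, hc']
        field_simp

/-- polynomial times Gaussian -/
theorem summable_poly_gauss_lat [IsTotallyReal F] {ι : Type} [Fintype ι] (N : ℕ) (hN : 0 < N)
    (c : ℝ) (hc : 0 < c) (k : ℕ) :
    Summable (fun ξ : Lat F ι N => (1 + nrm2 (ξ : ι → F)) ^ k *
      Real.exp (-(c * nrm2 (ξ : ι → F)))) := by
  have hs := summable_gauss_lat (F := F) (ι := ι) N hN (c / 2) (by positivity)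
  set K : ℝ := (k.factorial : ℝ) / (c / 2) ^ k * Real.exp (c / 2) with hK
  have hs2 := hs.mul_left K
  refine Summable.of_nonneg_of_le (fun ξ => mul_nonneg (pow_nonneg (by
    have := nrm2_nonneg (ξ : ι → F); linarith) _) (Real.exp_pos _).le) (fun ξ => ?_) hs2
  set x := nrm2 (ξ : ι → F) with hx
  have hx0 : 0 ≤ x := nrm2_nonneg _
  have h1 := Real.pow_div_factorial_le_exp (c / 2 * (1 + x)) (by positivity) k
  have h2 : (1 + x) ^ k ≤ (k.factorial : ℝ) / (c / 2) ^ k * Real.exp (c / 2 * (1 + x)) := by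
    rw [mul_pow, div_le_iff₀ (by positivity)] at h1
    rw [div_mul_eq_mul_div, le_div_iff₀ (by positivity)]
    nlinarith
  calc (1 + x) ^ k * Real.exp (-(c * x))
      ≤ ((k.factorial : ℝ) / (c / 2) ^ k * Real.exp (c / 2 * (1 + x))) * Real.exp (-(c * x)) :=
        mul_le_mul_of_nonneg_right h2 (Real.exp_pos _).le
    _ = K * Real.exp (-(c / 2 * x)) := by
        rw [hK, mul_assoc, mul_assoc, ← Real.exp_add, ← Real.exp_add]
        congr 2
        ring

/-- version over all of F^ι, with a bounded coefficient function supported in the lattice -/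
theorem summable_gs [IsTotallyReal F] {ι : Type} [Fintype ι] (N : ℕ) (hN : 0 < N)
    (c : ℝ) (hc : 0 < c) (k : ℕ) :
    Summable (fun ξ : ι → F => (Lat F ι N).indicator (fun ξ => (1 + nrm2 ξ) ^ k *
      Real.exp (-(c * nrm2 ξ))) ξ) :=
  summable_subtype_iff_indicator.mp (summable_poly_gauss_lat N hN c hc k)

end Pool.CMH
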