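import Pool.Agent.Lib.CMH.Rows
import Pool.Agent.Lib.CMH.Gs2

/-!
Tank CMH (MP_938ce2_ag), helper5: bounded Schwartz-Bruhat functions; Gaussian domination.
-/

set_option autoImplicit false

open scoped ComplexConjugate Matrix
open Complex

namespace Pool.Agent.CMH

noncomputable section

variable {F : Type} [Field F] [NumberField F]

open NumberField in
/-- a function on `F^κ` supported in `N⁻¹ O^κ` and periodic modulo `N O^κ` is bounded -/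
theorem Dom.bounded {κ : Type} [Fintype κ] (N : ℕ) (hN : 0 < N) (φ : (κ → F) → ℂ)
    (hs : ∀ ξ, φ ξ ≠ 0 → ∀ i, IsIntegral ℤ ((N : F) * ξ i))
    (hp : ∀ ξ η : κ → F, (∀ i, IsIntegral ℤ (η i)) → φ (fun i => ξ i + (N : F) * η i) = φ ξ) :
    ∃ B : ℝ, 0 ≤ B ∧ ∀ ξ, ‖φ ξ‖ ≤ B := by
  classical
  let J := Module.Free.ChooseBasisIndex ℤ (𝓞 F)
  have hN2 : 0 < N ^ 2 := by positivity
  have : NeZero (N ^ 2) := ⟨hN2.ne'⟩
  have hNF : (N : F) ≠ 0 := by exact_mod_cast hN.ne'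
  -- representatives
  let rep : (κ → J → ZMod (N ^ 2)) → (κ → F) := fun c i =>
    (N : F)⁻¹ * ∑ j, ((c i j).val : F) * (RingOfIntegers.basis F j : F)
  refine ⟨∑ c, ‖φ (rep c)‖, Finset.sum_nonneg (fun c _ => norm_nonneg _), ?_⟩
  intro ξ
  by_cases h0 : φ ξ = 0
  · rw [h0, norm_zero]; exact Finset.sum_nonneg (fun c _ => norm_nonneg _)
  have hint := hs ξ h0
  let z : κ → 𝓞 F := fun i => ⟨(N : F) * ξ i, hint i⟩
  let n : κ → J → ℤ := fun i j => (RingOfIntegers.basis F).repr (z i) j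
  let c : κ → J → ZMod (N ^ 2) := fun i j => (n i j : ZMod (N ^ 2))
  have hz : ∀ i, (N : F) * ξ i = ∑ j, (n i j : F) * (RingOfIntegers.basis F j : F) := by
    intro i
    have h1 : z i = ∑ j, n i j • RingOfIntegers.basis F j :=
      ((RingOfIntegers.basis F).sum_repr (z i)).symm
    have h2 : ((z i : 𝓞 F) : F) = ∑ j, (n i j : F) * (RingOfIntegers.basis F j : F) := by
      rw [h1]
      simp [map_sum]
    exact h2
  have hdiv : ∀ i j, ∃ q : ℤ, n i j = ((c i j).val : ℤ) + (N : ℤ) ^ 2 * q := by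
    intro i j
    have h1 : ((n i j : ℤ) : ZMod (N ^ 2)) = (((c i j).val : ℤ) : ZMod (N ^ 2)) := by
      simp [c]
    rw [ZMod.intCast_eq_intCast_iff_dvd_sub] at h1
    obtain ⟨q, hq⟩ := h1
    refine ⟨-q, ?_⟩
    push_cast at hq
    linarith
  choose q hq using hdiv
  have hkey : ξ = fun i => rep c i + (N : F) * ∑ j, ((q i j : ℤ) : F) * (RingOfIntegers.basis F j : F) := by
    funext i
    apply mul_left_cancel₀ hNF
    rw [hz i, mul_add]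
    simp only [rep]
    rw [← mul_assoc, mul_inv_cancel₀ hNF, one_mul, ← mul_assoc, Finset.mul_sum,
      ← Finset.sum_add_distrib]
    apply Finset.sum_congr rfl
    intro j _
    have h2 : ((n i j : ℤ) : F) = ((c i j).val : F) + (N : F) ^ 2 * ((q i j : ℤ) : F) := by
      rw [hq i j]; push_cast; ring
    rw [h2]; ring
  have heq : φ ξ = φ (rep c) := by
    rw [hkey]
    apply hp
    intro i
    apply IsIntegral.sum
    intro j _
    have h1 : IsIntegral ℤ ((q i j : ℤ) : F) := by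
      simpa using (isIntegral_algebraMap (R := ℤ) (A := F) (x := q i j))
    exact h1.mul (RingOfIntegers.isIntegral_coe _)
  rw [heq]
  exact Finset.single_le_sum (f := fun c => ‖φ (rep c)‖) (fun c _ => norm_nonneg _)
    (Finset.mem_univ c)

/-- sum of the squares of all conjugates of all entries -/
def Dom.q2 (ξ : Fin 2 → Fin 3 → F) : ℝ := ∑ v : F →+* ℝ, ∑ i, ∑ l, v (ξ i l) ^ 2

theorem Dom.q2_nonneg (ξ : Fin 2 → Fin 3 → F) : 0 ≤ Dom.q2 ξ :=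
  Finset.sum_nonneg (fun _ _ => Finset.sum_nonneg (fun _ _ => Finset.sum_nonneg
    (fun _ _ => sq_nonneg _)))

open Classical in
/-- the summable majorant -/
def Dom.maj (F : Type) [Field F] [NumberField F] (N : ℕ) (c : ℝ) (p : ℕ)
    (ξ : Fin 2 → Fin 3 → F) : ℝ :=
  if ∀ i j, IsIntegral ℤ ((N : F) * ξ i j) then (1 + Dom.q2 ξ) ^ p * Real.exp (-(c * Dom.q2 ξ))
  else 0

theorem Dom.summable_maj [NumberField.IsTotallyReal F] (N : ℕ) (hN : 0 < N) (c : ℝ) (hc : 0 < c)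
    (p : ℕ) : Summable (Dom.maj F N c p) := by
  classical
  have h := Pool.CMH.summable_gs (F := F) (ι := Fin 2 × Fin 3) N hN c hc p
  have e := (Equiv.curry (Fin 2) (Fin 3) F).symm.summable_iff
    (f := fun ξ : Fin 2 × Fin 3 → F => (Pool.CMH.Lat F (Fin 2 × Fin 3) N).indicator
      (fun ξ => (1 + Pool.CMH.nrm2 ξ) ^ p * Real.exp (-(c * Pool.CMH.nrm2 ξ))) ξ)
  rw [← e] at h
  refine h.congr ?_
  intro ξ
  have h1 : Pool.CMH.nrm2 ((Equiv.curry (Fin 2) (Fin 3) F).symm ξ) = Dom.q2 ξ := by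
    rw [Pool.CMH.nrm2, Dom.q2, Finset.sum_comm]
    apply Finset.sum_congr rfl
    intro v _
    rw [Fintype.sum_prod_type]
    rfl
  simp only [Function.comp, Set.indicator, Dom.maj, h1]
  have h2 : ((Equiv.curry (Fin 2) (Fin 3) F).symm ξ ∈ Pool.CMH.Lat F (Fin 2 × Fin 3) N) ↔
      ∀ i j, IsIntegral ℤ ((N : F) * ξ i j) := by
    constructor
    · intro h i j
      exact h (i, j)
    · intro h p
      exact h p.1 p.2
  simp only [h2]

theorem Dom.maj_nonneg (N : ℕ) (c : ℝ) (p : ℕ) (ξ : Fin 2 → Fin 3 → F) :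
    0 ≤ Dom.maj F N c p ξ := by
  unfold Dom.maj
  split
  · have := Dom.q2_nonneg ξ
    positivity
  · exact le_refl _

theorem Dom.exists_pos_le {α : Type} [Finite α] (f : α → ℝ) (hf : ∀ a, 0 < f a) :
    ∃ μ : ℝ, 0 < μ ∧ ∀ a, μ ≤ f a := by
  cases isEmpty_or_nonempty α with
  | inl h => exact ⟨1, one_pos, fun a => (h.false a).elim⟩
  | inr h =>
    obtain ⟨a, ha⟩ := Finite.exists_min f
    exact ⟨f a, hf a, ha⟩

/-- norm of the Gaussian -/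
theorem Dom.gauss_le (v₁ : F →+* ℝ) (D : F) (h : Fin 3 → F) (a : Fin 2 → F) (R : Maj F)
    (ξ : Fin 2 → Fin 3 → F) (y : Fin 2 → ℂ) (m c μ : ℝ) (hm : 0 < m) (hμ : 0 < μ) (hc : 0 < c)
    (hD : ∀ v : F →+* ℝ, μ ≤ 1 / √(v D))
    (hh : ∀ v : F →+* ℝ, v ≠ v₁ → ∀ l, μ ≤ v (h l))
    (hR : ∀ v : F →+* ℝ, v ≠ v₁ → ∀ x : Fin 2 → ℝ,
      m * ∑ i, x i ^ 2 ≤ ∑ i, ∑ j, R v i j * (x i * x j))
    (hR1 : R v₁ = R0 a v₁) (ha : ∀ i, m ≤ v₁ (a i))
    (hE : ∀ x : Fin 3 → ℝ, c * ∑ j, x j ^ 2 ≤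
      (((∑ j, ev v₁ h j * x j * x j : ℝ) : ℂ) + 2 * s (ev v₁ h) x y ^ 2).re) :
    ‖gauss2 v₁ D h a R ξ y‖ ≤ Real.exp (-((Real.pi * (μ * (m * min c μ))) * Dom.q2 ξ)) := by
  classical
  have hmc : 0 < min c μ := lt_min hc hμ
  rw [gauss2, Complex.norm_exp, Real.exp_le_exp]
  have hre : (-(Real.pi : ℂ) * ∑ v : F →+* ℝ, ((1 / √(v D) : ℝ) : ℂ) *
      (((∑ i, ∑ j, R v i j * form h v (ξ i) (ξ j) : ℝ) : ℂ) +
        if v = v₁ then 2 * ∑ i, (v (a i) : ℂ) * s (ev v h) (ev v (ξ i)) y ^ 2 else 0)).re =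
      -(Real.pi * ∑ v : F →+* ℝ, (1 / √(v D)) *
      ((∑ i, ∑ j, R v i j * form h v (ξ i) (ξ j)) +
        (if v = v₁ then 2 * ∑ i, (v (a i) : ℂ) * s (ev v h) (ev v (ξ i)) y ^ 2 else 0 : ℂ).re)) := by
    have h1 : ∀ z : ℂ, (-(Real.pi : ℂ) * z).re = -(Real.pi * z.re) := by
      intro z
      have : -(Real.pi : ℂ) = ((-Real.pi : ℝ) : ℂ) := by push_cast; rfl
      rw [this, Complex.re_ofReal_mul]; ring
    rw [h1, Complex.re_sum]
    congr 2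
    apply Finset.sum_congr rfl
    intro v _
    rw [Complex.re_ofReal_mul, Complex.add_re, Complex.ofReal_re]
  rw [hre, neg_le_neg_iff, Dom.q2]
  have hkey : ∀ v : F →+* ℝ, m * min c μ * ∑ i, ∑ l, v (ξ i l) ^ 2 ≤
      (∑ i, ∑ j, R v i j * form h v (ξ i) (ξ j)) +
        (if v = v₁ then 2 * ∑ i, (v (a i) : ℂ) * s (ev v h) (ev v (ξ i)) y ^ 2 else 0 : ℂ).re := by
    intro v
    by_cases hv : v = v₁
    · subst hv
      rw [if_pos rfl, hR1]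
      have h1 : ∑ i, ∑ j, R0 a v i j * form h v (ξ i) (ξ j) +
          (2 * ∑ i, (v (a i) : ℂ) * s (ev v h) (ev v (ξ i)) y ^ 2).re =
          ∑ i, v (a i) * (((∑ j, ev v h j * ev v (ξ i) j * ev v (ξ i) j : ℝ) : ℂ) +
            2 * s (ev v h) (ev v (ξ i)) y ^ 2).re := by
        have hpos : ∀ i, |v (a i)| = v (a i) := fun i => abs_of_pos (hm.trans_le (ha i))
        have h2 : ∀ i, (v (a i)) * (((∑ j, ev v h j * ev v (ξ i) j * ev v (ξ i) j : ℝ) : ℂ) +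
            2 * s (ev v h) (ev v (ξ i)) y ^ 2).re =
            v (a i) * form h v (ξ i) (ξ i) +
              ((v (a i) : ℂ) * (2 * s (ev v h) (ev v (ξ i)) y ^ 2)).re := by
          intro i
          rw [Complex.add_re, Complex.ofReal_re, Complex.re_ofReal_mul, mul_add]
          rfl
        rw [Finset.sum_congr rfl (fun i _ => h2 i)]
        simp only [R0, Fin.sum_univ_two, Matrix.diagonal_apply]
        simp only [hpos, mul_add, Complex.add_re]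
        simp
        ring_nf
      rw [h1]
      have h3 : ∀ i, m * min c μ * ∑ l, v (ξ i l) ^ 2 ≤
          v (a i) * (((∑ j, ev v h j * ev v (ξ i) j * ev v (ξ i) j : ℝ) : ℂ) +
            2 * s (ev v h) (ev v (ξ i)) y ^ 2).re := by
        intro i
        have h4 := hE (ev v (ξ i))
        have h5 : (0 : ℝ) ≤ ∑ l, v (ξ i l) ^ 2 := Finset.sum_nonneg (fun _ _ => sq_nonneg _)
        have h6 : min c μ * ∑ l, v (ξ i l) ^ 2 ≤ (((∑ j, ev v h j * ev v (ξ i) j * ev v (ξ i) j : ℝ) : ℂ) +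
            2 * s (ev v h) (ev v (ξ i)) y ^ 2).re :=
          (mul_le_mul_of_nonneg_right (min_le_left _ _) h5).trans h4
        have h7 : (0 : ℝ) ≤ min c μ * ∑ l, v (ξ i l) ^ 2 := by positivity
        calc m * min c μ * ∑ l, v (ξ i l) ^ 2 = m * (min c μ * ∑ l, v (ξ i l) ^ 2) := by ring
          _ ≤ v (a i) * (min c μ * ∑ l, v (ξ i l) ^ 2) := mul_le_mul_of_nonneg_right (ha i) h7
          _ ≤ _ := mul_le_mul_of_nonneg_left h6 (hm.le.trans (ha i))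
      rw [Finset.mul_sum]
      exact Finset.sum_le_sum (fun i _ => h3 i)
    · rw [if_neg hv, Complex.zero_re, add_zero]
      have h1 : ∑ i, ∑ j, R v i j * form h v (ξ i) (ξ j) =
          ∑ l, v (h l) * ∑ i, ∑ j, R v i j * (v (ξ i l) * v (ξ j l)) := by
        simp only [form, Fin.sum_univ_two, Fin.sum_univ_three]
        ring
      rw [h1]
      have h2 : ∀ l, min c μ * (m * ∑ i, v (ξ i l) ^ 2) ≤
          v (h l) * ∑ i, ∑ j, R v i j * (v (ξ i l) * v (ξ j l)) := by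
        intro l
        have h3 := hR v hv (fun i => v (ξ i l))
        have h4 : (0 : ℝ) ≤ m * ∑ i, v (ξ i l) ^ 2 :=
          mul_nonneg hm.le (Finset.sum_nonneg (fun _ _ => sq_nonneg _))
        calc min c μ * (m * ∑ i, v (ξ i l) ^ 2) ≤ v (h l) * (m * ∑ i, v (ξ i l) ^ 2) :=
              mul_le_mul_of_nonneg_right ((min_le_right _ _).trans (hh v hv l)) h4
          _ ≤ _ := mul_le_mul_of_nonneg_left h3 (hμ.le.trans (hh v hv l))
      calc m * min c μ * ∑ i, ∑ l, v (ξ i l) ^ 2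
          = ∑ l, min c μ * (m * ∑ i, v (ξ i l) ^ 2) := by
            rw [Finset.sum_comm, Finset.mul_sum]
            apply Finset.sum_congr rfl
            intro l _
            ring
        _ ≤ _ := Finset.sum_le_sum (fun l _ => h2 l)
  rw [mul_assoc]
  apply mul_le_mul_of_nonneg_left _ Real.pi_pos.le
  rw [Finset.mul_sum]
  apply Finset.sum_le_sum
  intro v _
  have h0 : (0 : ℝ) ≤ ∑ i, ∑ l, v (ξ i l) ^ 2 :=
    Finset.sum_nonneg (fun _ _ => Finset.sum_nonneg (fun _ _ => sq_nonneg _))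
  calc μ * (m * min c μ) * ∑ i, ∑ l, v (ξ i l) ^ 2 = μ * (m * min c μ * ∑ i, ∑ l, v (ξ i l) ^ 2) := by
        ring
    _ ≤ (1 / √(v D)) * (m * min c μ * ∑ i, ∑ l, v (ξ i l) ^ 2) :=
        mul_le_mul_of_nonneg_right (hD v) (by positivity)
    _ ≤ _ := mul_le_mul_of_nonneg_left (hkey v) (hμ.le.trans (hD v))

/-- bound for the Jacobian factor -/
theorem Dom.del_le (k : Fin 3 → ℝ) (c' : ℝ) (y : Fin 2 → ℂ)
    (hE : ∀ (x : Fin 3 → ℝ) (j : Fin 2), ‖ds k x j y‖ ≤ c' * √(∑ j, x j ^ 2))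
    (x : Fin 2 → Fin 3 → ℝ) :
    ‖Del k x y‖ ≤ c' ^ 2 * ∑ i, ∑ l, x i l ^ 2 := by
  have h0 : ∀ i, (0 : ℝ) ≤ ∑ l, x i l ^ 2 := fun i => Finset.sum_nonneg (fun _ _ => sq_nonneg _)
  have h1 : ‖Del k x y‖ ≤ ‖ds k (x 0) 0 y‖ * ‖ds k (x 1) 1 y‖ + ‖ds k (x 0) 1 y‖ * ‖ds k (x 1) 0 y‖ := by
    rw [Del, ← norm_mul, ← norm_mul]
    exact norm_sub_le _ _
  have h2 : ∀ i j : Fin 2, ‖ds k (x 0) i y‖ * ‖ds k (x 1) j y‖ ≤
      c' ^ 2 * (√(∑ l, x 0 l ^ 2) * √(∑ l, x 1 l ^ 2)) := by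
    intro i j
    have h3 := hE (x 0) i
    have h4 := hE (x 1) j
    calc _ ≤ (c' * √(∑ l, x 0 l ^ 2)) * (c' * √(∑ l, x 1 l ^ 2)) :=
          mul_le_mul h3 h4 (norm_nonneg _) ((norm_nonneg _).trans h3)
      _ = _ := by ring
  have h5 : √(∑ l, x 0 l ^ 2) * √(∑ l, x 1 l ^ 2) ≤ (∑ i, ∑ l, x i l ^ 2) / 2 := by
    rw [Fin.sum_univ_two]
    have h6 := Real.sq_sqrt (h0 0)
    have h7 := Real.sq_sqrt (h0 1)
    nlinarith [sq_nonneg (√(∑ l, x 0 l ^ 2) - √(∑ l, x 1 l ^ 2))]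
  have h8 := h2 0 1
  have h9 := h2 1 0
  have h10 : c' ^ 2 * (√(∑ l, x 0 l ^ 2) * √(∑ l, x 1 l ^ 2)) ≤ c' ^ 2 * ((∑ i, ∑ l, x i l ^ 2) / 2) :=
    mul_le_mul_of_nonneg_left h5 (sq_nonneg _)
  linarith

/-- the term of `CR` is dominated by the summable majorant -/
theorem Dom.term_le (v₁ : F →+* ℝ) (D : F) (h : Fin 3 → F) (a : Fin 2 → F) (R : Maj F)
    (N : ℕ) (φ : (Fin 2 → Fin 3 → F) → ℂ) (hφ : SB2 N φ) (B : ℝ) (hB0 : 0 ≤ B)
    (hB : ∀ ξ, ‖φ ξ‖ ≤ B)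
    (ξ : Fin 2 → Fin 3 → F) (y : Fin 2 → ℂ) (m c c' μ : ℝ) (hm : 0 < m) (hμ : 0 < μ) (hc : 0 < c)
    (hD : ∀ v : F →+* ℝ, μ ≤ 1 / √(v D))
    (hh : ∀ v : F →+* ℝ, v ≠ v₁ → ∀ l, μ ≤ v (h l))
    (hR : ∀ v : F →+* ℝ, v ≠ v₁ → ∀ x : Fin 2 → ℝ,
      m * ∑ i, x i ^ 2 ≤ ∑ i, ∑ j, R v i j * (x i * x j))
    (hR1 : R v₁ = R0 a v₁) (ha : ∀ i, m ≤ v₁ (a i))
    (hE : ∀ x : Fin 3 → ℝ, c * ∑ j, x j ^ 2 ≤
      (((∑ j, ev v₁ h j * x j * x j : ℝ) : ℂ) + 2 * s (ev v₁ h) x y ^ 2).re)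
    (hE' : ∀ (x : Fin 3 → ℝ) (j : Fin 2), ‖ds (ev v₁ h) x j y‖ ≤ c' * √(∑ j, x j ^ 2)) :
    ‖φ ξ * gauss2 v₁ D h a R ξ y * Del (ev v₁ h) (fun i => ev v₁ (ξ i)) y‖ ≤
      B * c' ^ 2 * Dom.maj F N (Real.pi * (μ * (m * min c μ))) 1 ξ := by
  classical
  by_cases h0 : φ ξ = 0
  · rw [h0]
    have := Dom.maj_nonneg (F := F) N (Real.pi * (μ * (m * min c μ))) 1 ξ
    simp only [zero_mul, norm_zero]
    positivity
  have hint := hφ.2.1 ξ h0
  rw [Dom.maj, if_pos hint, norm_mul, norm_mul, pow_one]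
  have h1 := Dom.gauss_le v₁ D h a R ξ y m c μ hm hμ hc hD hh hR hR1 ha hE
  have h2 := Dom.del_le (ev v₁ h) c' y hE' (fun i => ev v₁ (ξ i))
  have h3 : ∑ i, ∑ l, ev v₁ (ξ i) l ^ 2 ≤ Dom.q2 ξ := by
    rw [Dom.q2]
    exact Finset.single_le_sum (f := fun v : F →+* ℝ => ∑ i, ∑ l, v (ξ i l) ^ 2)
      (fun _ _ => Finset.sum_nonneg (fun _ _ => Finset.sum_nonneg (fun _ _ => sq_nonneg _)))
      (Finset.mem_univ v₁)
  have h4 : ‖Del (ev v₁ h) (fun i => ev v₁ (ξ i)) y‖ ≤ c' ^ 2 * (1 + Dom.q2 ξ) := by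
    refine h2.trans (mul_le_mul_of_nonneg_left ?_ (sq_nonneg _))
    linarith
  calc ‖φ ξ‖ * ‖gauss2 v₁ D h a R ξ y‖ * ‖Del (ev v₁ h) (fun i => ev v₁ (ξ i)) y‖
      ≤ B * Real.exp (-((Real.pi * (μ * (m * min c μ))) * Dom.q2 ξ)) * (c' ^ 2 * (1 + Dom.q2 ξ)) := by
        apply mul_le_mul (mul_le_mul (hB ξ) h1 (norm_nonneg _) hB0) h4 (norm_nonneg _)
        positivity
    _ = _ := by ring

end

end Pool.Agent.CMH
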