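import Mathlib
import Pool.Agent.Lib.CMH.Rows
set_option autoImplicit false

/-!
# Tank CMH, rows EST and DEL
-/

open scoped ComplexConjugate Matrix
open Complex

namespace Pool.Agent.CMH

namespace EstA

theorem re_pos {k : Fin 3 → ℝ} (h0 : 0 < k 0) (h1 : 0 < k 1) {y : Fin 2 → ℂ} (hy : y ∈ ball k) :
    0 < (-∑ j, (k j : ℂ) * hat y j ^ 2).re := by
  have hy' : k 0 * ‖y 0‖ ^ 2 + k 1 * ‖y 1‖ ^ 2 + k 2 < 0 := hy
  have e0 := Complex.sq_norm (y 0)
  have e1 := Complex.sq_norm (y 1)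
  rw [Complex.normSq_apply] at e0 e1
  simp only [Fin.sum_univ_three, hat, Matrix.cons_val_zero, Matrix.cons_val_one, Matrix.cons_val,
    Complex.neg_re, Complex.add_re, Complex.mul_re, Complex.ofReal_re, Complex.ofReal_im, pow_two,
    Complex.one_re, Complex.one_im, Complex.mul_im]
  nlinarith [mul_nonneg h0.le (mul_self_nonneg (y 0).im), mul_nonneg h1.le (mul_self_nonneg (y 1).im)]

theorem w_sq (k : Fin 3 → ℝ) (y : Fin 2 → ℂ) : w k y ^ 2 = -∑ j, (k j : ℂ) * hat y j ^ 2 := by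
  unfold w
  have h : (1 / 2 : ℂ) = ((2 : ℕ) : ℂ)⁻¹ := by norm_num
  rw [h]
  exact Complex.cpow_nat_inv_pow _ two_ne_zero

theorem w_ne {k : Fin 3 → ℝ} (h0 : 0 < k 0) (h1 : 0 < k 1) {y : Fin 2 → ℂ} (hy : y ∈ ball k) :
    w k y ≠ 0 := by
  intro h
  have h2 := w_sq k y
  rw [h] at h2
  have h3 := re_pos h0 h1 hy
  rw [← h2] at h3
  simp at h3

theorem w_cont {k : Fin 3 → ℝ} (h0 : 0 < k 0) (h1 : 0 < k 1) : ContinuousOn (w k) (ball k) := by
  unfold w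
  refine ContinuousOn.cpow (Continuous.continuousOn ?_) continuousOn_const ?_
  · simp only [Fin.sum_univ_three, hat, Matrix.cons_val_zero, Matrix.cons_val_one, Matrix.cons_val]
    fun_prop
  · intro y hy
    exact Or.inl (re_pos h0 h1 hy)

theorem pr_cont (k : Fin 3 → ℝ) :
    Continuous fun p : (Fin 3 → ℝ) × (Fin 2 → ℂ) => pr k p.1 p.2 := by
  unfold pr
  simp only [Fin.sum_univ_three, hat, Matrix.cons_val_zero, Matrix.cons_val_one, Matrix.cons_val]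
  fun_prop

theorem s_cont2 {k : Fin 3 → ℝ} (h0 : 0 < k 0) (h1 : 0 < k 1) :
    ContinuousOn (fun p : (Fin 3 → ℝ) × (Fin 2 → ℂ) => s k p.1 p.2) (Set.univ ×ˢ ball k) := by
  unfold s
  refine ContinuousOn.div (pr_cont k).continuousOn ?_ ?_
  · exact (w_cont h0 h1).comp continuous_snd.continuousOn fun p hp => hp.2
  · intro p hp
    exact w_ne h0 h1 hp.2

theorem ds_cont2 {k : Fin 3 → ℝ} (h0 : 0 < k 0) (h1 : 0 < k 1) (j : Fin 2) :
    ContinuousOn (fun p : (Fin 3 → ℝ) × (Fin 2 → ℂ) => ds k p.1 j p.2) (Set.univ ×ˢ ball k) := by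
  have hw : ContinuousOn (fun p : (Fin 3 → ℝ) × (Fin 2 → ℂ) => w k p.2) (Set.univ ×ˢ ball k) :=
    (w_cont h0 h1).comp continuous_snd.continuousOn fun p hp => hp.2
  unfold ds
  refine ContinuousOn.add (ContinuousOn.div ?_ hw fun p hp => w_ne h0 h1 hp.2)
    (ContinuousOn.div ?_ (hw.pow 3) fun p hp => pow_ne_zero _ (w_ne h0 h1 hp.2))
  · refine Continuous.continuousOn ?_
    fun_prop
  · refine Continuous.continuousOn ?_
    exact (pr_cont k).mul (by fun_prop)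

theorem ident (k0 k1 k2 x0 x1 x2 : ℝ) (y0 y1 m c : ℂ)
    (hc : c = (k0 : ℂ) * x0 * y0 + (k1 : ℂ) * x1 * y1 + (k2 : ℂ) * x2) :
    (m * conj m * ((k0 * x0 * x0 + k1 * x1 * x1 + k2 * x2 * x2 : ℝ) : ℂ) +
      2 * c ^ 2 * conj m).re =
      k0 * normSq (m * x0 + c * y0) + k1 * normSq (m * x1 + c * y1) + k2 * normSq (m * x2 + c) -
        normSq c * (k0 * normSq y0 + k1 * normSq y1 + k2) := by
  subst hc
  simp only [Complex.normSq_apply, pow_two, Complex.mul_re, Complex.mul_im, Complex.add_re,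
    Complex.add_im, Complex.ofReal_re, Complex.ofReal_im, Complex.conj_re, Complex.conj_im,
    Complex.re_ofNat, Complex.im_ofNat]
  ring

theorem lagr (k0 k1 : ℝ) (z0 z1 y0 y1 : ℂ) :
    normSq ((k0 : ℂ) * z0 * y0 + (k1 : ℂ) * z1 * y1) =
      (k0 * normSq z0 + k1 * normSq z1) * (k0 * normSq y0 + k1 * normSq y1) -
        k0 * k1 * normSq (z0 * conj y1 - z1 * conj y0) := by
  simp only [Complex.normSq_apply, Complex.mul_re, Complex.mul_im, Complex.add_re,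
    Complex.add_im, Complex.sub_re, Complex.sub_im, Complex.ofReal_re, Complex.ofReal_im,
    Complex.conj_re, Complex.conj_im]
  ring

/-- positivity for one vector -/
theorem pos_one {k : Fin 3 → ℝ} (h0 : 0 < k 0) (h1 : 0 < k 1) (h2 : k 2 < 0) {y : Fin 2 → ℂ}
    (hy : y ∈ ball k) (x : Fin 3 → ℝ) (hx : x ≠ 0) :
    0 < (((∑ j, k j * x j * x j : ℝ) : ℂ) + 2 * s k x y ^ 2).re := by
  have hy' : k 0 * ‖y 0‖ ^ 2 + k 1 * ‖y 1‖ ^ 2 + k 2 < 0 := hy
  rw [Complex.sq_norm, Complex.sq_norm] at hy'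
  obtain ⟨m, hm⟩ : ∃ m : ℂ, m = -((k 0 : ℂ) * y 0 ^ 2 + (k 1 : ℂ) * y 1 ^ 2 + (k 2 : ℂ)) :=
    ⟨_, rfl⟩
  have hw2 : w k y ^ 2 = m := by
    rw [w_sq, hm]
    simp [Fin.sum_univ_three, hat]
  have hm0 : m ≠ 0 := by
    rw [← hw2]
    exact pow_ne_zero _ (w_ne h0 h1 hy)
  obtain ⟨c, hc⟩ : ∃ c : ℂ, c = (k 0 : ℂ) * x 0 * y 0 + (k 1 : ℂ) * x 1 * y 1 + (k 2 : ℂ) * x 2 :=
    ⟨_, rfl⟩
  have hs : s k x y ^ 2 = c ^ 2 / m := by
    unfold s pr
    rw [div_pow, hw2, hc]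
    simp [Fin.sum_univ_three, hat]
  have hz : (k 0 : ℂ) * (m * x 0 + c * y 0) * y 0 + (k 1 : ℂ) * (m * x 1 + c * y 1) * y 1 =
      -((k 2 : ℂ) * (m * x 2 + c)) := by
    have e1 : (k 0 : ℂ) * (m * x 0 + c * y 0) * y 0 + (k 1 : ℂ) * (m * x 1 + c * y 1) * y 1 +
        (k 2 : ℂ) * (m * x 2 + c) = m * ((k 0 : ℂ) * x 0 * y 0 + (k 1 : ℂ) * x 1 * y 1 +
        (k 2 : ℂ) * x 2) + c * ((k 0 : ℂ) * y 0 ^ 2 + (k 1 : ℂ) * y 1 ^ 2 + (k 2 : ℂ)) := by ring
    rw [← hc] at e1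
    have e2 : (k 0 : ℂ) * y 0 ^ 2 + (k 1 : ℂ) * y 1 ^ 2 + (k 2 : ℂ) = -m := by
      rw [hm, neg_neg]
    rw [e2] at e1
    linear_combination e1
  obtain ⟨z0, hz0⟩ : ∃ z : ℂ, z = m * x 0 + c * y 0 := ⟨_, rfl⟩
  obtain ⟨z1, hz1⟩ : ∃ z : ℂ, z = m * x 1 + c * y 1 := ⟨_, rfl⟩
  obtain ⟨z2, hz2⟩ : ∃ z : ℂ, z = m * x 2 + c := ⟨_, rfl⟩
  have key : normSq m * (((∑ j, k j * x j * x j : ℝ) : ℂ) + 2 * s k x y ^ 2).re =
      k 0 * normSq z0 + k 1 * normSq z1 + k 2 * normSq z2 -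
        normSq c * (k 0 * normSq (y 0) + k 1 * normSq (y 1) + k 2) := by
    rw [hz0, hz1, hz2, ← ident (k 0) (k 1) (k 2) (x 0) (x 1) (x 2) (y 0) (y 1) m c hc, hs,
      ← Complex.re_ofReal_mul, ← Complex.mul_conj]
    congr 1
    simp only [Fin.sum_univ_three]
    field_simp
  rw [← hz0, ← hz1, ← hz2] at hz
  have hz' := congrArg normSq hz
  rw [lagr, Complex.normSq_neg, Complex.normSq_mul, Complex.normSq_ofReal] at hz'
  have hA0 : 0 ≤ normSq z0 := Complex.normSq_nonneg _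
  have hA1 : 0 ≤ normSq z1 := Complex.normSq_nonneg _
  have hA3 : 0 ≤ normSq c := Complex.normSq_nonneg _
  have hA4 : 0 ≤ k 0 * k 1 * normSq (z0 * conj (y 1) - z1 * conj (y 0)) := by
    have := Complex.normSq_nonneg (z0 * conj (y 1) - z1 * conj (y 0))
    positivity
  obtain ⟨N, hN⟩ : ∃ N : ℝ, N = -(k 0 * normSq (y 0) + k 1 * normSq (y 1) + k 2) := ⟨_, rfl⟩
  have hN0 : 0 < N := by rw [hN]; linarith
  have hlow : (k 0 * normSq z0 + k 1 * normSq z1) * N + (-k 2) * normSq c * N ≤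
      (-k 2) * (normSq m * (((∑ j, k j * x j * x j : ℝ) : ℂ) + 2 * s k x y ^ 2).re) := by
    rw [key]
    have e : k 0 * normSq (y 0) + k 1 * normSq (y 1) = -k 2 - N := by rw [hN]; ring
    rw [e] at hz'
    have e2 : k 0 * normSq (y 0) + k 1 * normSq (y 1) + k 2 = -N := by rw [hN]; ring
    rw [e2]
    nlinarith [hz', hA4]
  have hpos : 0 < (k 0 * normSq z0 + k 1 * normSq z1) * N + (-k 2) * normSq c * N := by
    have t0 : 0 ≤ k 0 * normSq z0 := by positivity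
    have t1 : 0 ≤ k 1 * normSq z1 := by positivity
    have t2 : 0 ≤ (-k 2) * normSq c := mul_nonneg (by linarith) hA3
    by_contra hcon
    have h3 : (k 0 * normSq z0 + k 1 * normSq z1 + (-k 2) * normSq c) * N ≤ 0 := by linarith
    have h4 : k 0 * normSq z0 + k 1 * normSq z1 + (-k 2) * normSq c ≤ 0 := by
      by_contra h5
      exact absurd h3 (not_le.mpr (mul_pos (not_le.mp h5) hN0))
    have f0 : normSq z0 = 0 := by
      have : k 0 * normSq z0 = 0 := by linarith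
      exact (mul_eq_zero.mp this).resolve_left h0.ne'
    have f1 : normSq z1 = 0 := by
      have : k 1 * normSq z1 = 0 := by linarith
      exact (mul_eq_zero.mp this).resolve_left h1.ne'
    have f2 : normSq c = 0 := by
      have : (-k 2) * normSq c = 0 := by linarith
      exact (mul_eq_zero.mp this).resolve_left (by linarith)
    have g2 : c = 0 := Complex.normSq_eq_zero.mp f2
    have g0 : z0 = 0 := Complex.normSq_eq_zero.mp f0
    have g1 : z1 = 0 := Complex.normSq_eq_zero.mp f1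
    rw [g0, g2, zero_mul, add_zero] at hz0
    rw [g1, g2, zero_mul, add_zero] at hz1
    have x0 : x 0 = 0 := by
      exact_mod_cast (mul_eq_zero.mp hz0.symm).resolve_left hm0
    have x1 : x 1 = 0 := by
      exact_mod_cast (mul_eq_zero.mp hz1.symm).resolve_left hm0
    rw [g2, x0, x1] at hc
    have x2 : x 2 = 0 := by
      have h6 : (k 2 : ℂ) * x 2 = 0 := by
        rw [hc]
        simp
      have h7 := (mul_eq_zero.mp h6).resolve_left (by exact_mod_cast h2.ne)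
      exact_mod_cast h7
    apply hx
    funext j
    fin_cases j
    · exact x0
    · exact x1
    · exact x2
  have hfin := lt_of_lt_of_le hpos hlow
  have hk2 : 0 < -k 2 := by linarith
  have h8 := pos_of_mul_pos_right hfin hk2.le
  exact pos_of_mul_pos_right h8 (Complex.normSq_nonneg _)

theorem quad_smul (k x : Fin 3 → ℝ) (r : ℝ) (y : Fin 2 → ℂ) :
    (((∑ j, k j * (r * x j) * (r * x j) : ℝ) : ℂ) + 2 * s k (fun j => r * x j) y ^ 2).re =
      r ^ 2 * (((∑ j, k j * x j * x j : ℝ) : ℂ) + 2 * s k x y ^ 2).re := by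
  have h1 : s k (fun j => r * x j) y = (r : ℂ) * s k x y := by
    unfold s pr
    rw [← mul_div_assoc, Finset.mul_sum]
    congr 1
    refine Finset.sum_congr rfl fun j _ => ?_
    push_cast
    ring
  rw [h1]
  have h3 : (((∑ j, k j * (r * x j) * (r * x j) : ℝ) : ℂ) + 2 * ((r : ℂ) * s k x y) ^ 2) =
      ((r ^ 2 : ℝ) : ℂ) * (((∑ j, k j * x j * x j : ℝ) : ℂ) + 2 * s k x y ^ 2) := by
    simp only [Fin.sum_univ_three]
    push_cast
    ring
  rw [h3, Complex.re_ofReal_mul]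

theorem ds_smul (k x : Fin 3 → ℝ) (r : ℝ) (j : Fin 2) (y : Fin 2 → ℂ) :
    ds k (fun j => r * x j) j y = (r : ℂ) * ds k x j y := by
  have h1 : pr k (fun j => r * x j) y = (r : ℂ) * pr k x y := by
    unfold pr
    rw [Finset.mul_sum]
    refine Finset.sum_congr rfl fun j _ => ?_
    push_cast
    ring
  unfold ds
  rw [h1]
  push_cast
  ring

/-- the unit sphere -/
def sph : Set (Fin 3 → ℝ) := {x | ∑ j, x j ^ 2 = 1}

theorem sph_compact : IsCompact sph := by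
  refine Metric.isCompact_of_isClosed_isBounded ?_ ?_
  · exact isClosed_eq (by fun_prop) continuous_const
  · refine (Metric.isBounded_closedBall (x := (0 : Fin 3 → ℝ)) (r := 1)).subset ?_
    intro x hx
    rw [mem_closedBall_zero_iff, pi_norm_le_iff_of_nonneg zero_le_one]
    intro j
    have h1 : x j ^ 2 ≤ ∑ i, x i ^ 2 :=
      Finset.single_le_sum (f := fun i => x i ^ 2) (fun i _ => sq_nonneg _) (Finset.mem_univ j)
    have h2 : ∑ i, x i ^ 2 = 1 := hx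
    rw [Real.norm_eq_abs]
    rw [h2] at h1
    exact abs_le_one_iff_mul_self_le_one.mpr (by nlinarith)

theorem sph_ne {x : Fin 3 → ℝ} (hx : x ∈ sph) : x ≠ 0 := by
  rintro rfl
  have : ∑ j : Fin 3, (0 : Fin 3 → ℝ) j ^ 2 = 1 := hx
  simp at this

theorem scale {x : Fin 3 → ℝ} (hx : x ≠ 0) : ∃ (r : ℝ) (u : Fin 3 → ℝ), 0 < r ∧ u ∈ sph ∧
    x = (fun j => r * u j) ∧ r ^ 2 = ∑ j, x j ^ 2 := by
  have hpos : 0 < ∑ j, x j ^ 2 := by
    obtain ⟨j, hj⟩ : ∃ j, x j ≠ 0 := by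
      by_contra h
      push Not at h
      exact hx (funext h)
    exact Finset.sum_pos' (fun i _ => sq_nonneg _) ⟨j, Finset.mem_univ _, by positivity⟩
  refine ⟨√(∑ j, x j ^ 2), fun j => x j / √(∑ j, x j ^ 2), Real.sqrt_pos.mpr hpos, ?_, ?_,
    Real.sq_sqrt hpos.le⟩
  · change ∑ j, (x j / √(∑ j, x j ^ 2)) ^ 2 = 1
    have h1 : ∀ j, (x j / √(∑ j, x j ^ 2)) ^ 2 = x j ^ 2 / ∑ j, x j ^ 2 := by
      intro j
      rw [div_pow, Real.sq_sqrt hpos.le]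
    rw [Finset.sum_congr rfl fun j _ => h1 j, ← Finset.sum_div]
    exact div_self hpos.ne'
  · funext j
    have := (Real.sqrt_pos.mpr hpos).ne'
    field_simp

theorem lower {k : Fin 3 → ℝ} (h0 : 0 < k 0) (h1 : 0 < k 1) (h2 : k 2 < 0)
    {C : Set (Fin 2 → ℂ)} (hC : IsCompact C) (hCb : C ⊆ ball k) :
    ∃ c : ℝ, 0 < c ∧ ∀ y ∈ C, ∀ x : Fin 3 → ℝ,
      c * ∑ j, x j ^ 2 ≤ (((∑ j, k j * x j * x j : ℝ) : ℂ) + 2 * s k x y ^ 2).re := by
  rcases C.eq_empty_or_nonempty with rfl | hne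
  · exact ⟨1, one_pos, fun y hy => absurd hy (Set.notMem_empty y)⟩
  have hsne : sph.Nonempty := ⟨Pi.single 0 1, by
    change ∑ j : Fin 3, (Pi.single 0 1 : Fin 3 → ℝ) j ^ 2 = 1
    simp [Fin.sum_univ_three]⟩
  have hcont : ContinuousOn (fun p : (Fin 3 → ℝ) × (Fin 2 → ℂ) =>
      (((∑ j, k j * p.1 j * p.1 j : ℝ) : ℂ) + 2 * s k p.1 p.2 ^ 2).re) (sph ×ˢ C) := by
    have hs := (s_cont2 h0 h1).mono (t := sph ×ˢ C) (Set.prod_mono (Set.subset_univ _) hCb)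
    refine Complex.continuous_re.comp_continuousOn ?_
    refine ContinuousOn.add (Continuous.continuousOn (by fun_prop)) ?_
    exact continuousOn_const.mul (hs.pow 2)
  obtain ⟨p, hp, hmin⟩ := (sph_compact.prod hC).exists_isMinOn (hsne.prod hne) hcont
  refine ⟨_, pos_one h0 h1 h2 (hCb hp.2) p.1 (sph_ne hp.1), fun y hy x => ?_⟩
  rcases eq_or_ne x 0 with rfl | hx
  · simp [s, pr]
  obtain ⟨r, u, hr, hu, rfl, hr2⟩ := scale hx
  rw [quad_smul, ← hr2, mul_comm]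
  exact mul_le_mul_of_nonneg_left (hmin (a := (u, y)) ⟨hu, hy⟩) (sq_nonneg r)

theorem upper {k : Fin 3 → ℝ} (h0 : 0 < k 0) (h1 : 0 < k 1)
    {C : Set (Fin 2 → ℂ)} (hC : IsCompact C) (hCb : C ⊆ ball k) :
    ∃ c : ℝ, 0 < c ∧ ∀ y ∈ C, ∀ (x : Fin 3 → ℝ) (j : Fin 2),
      ‖ds k x j y‖ ≤ c * √(∑ j, x j ^ 2) := by
  have hb : ∀ j : Fin 2, ∃ M : ℝ, ∀ p ∈ sph ×ˢ C, ‖ds k p.1 j p.2‖ ≤ M := by
    intro j
    have hs := (ds_cont2 h0 h1 j).mono (t := sph ×ˢ C) (Set.prod_mono (Set.subset_univ _) hCb)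
    obtain ⟨M, hM⟩ := (sph_compact.prod hC).exists_bound_of_continuousOn hs
    exact ⟨M, hM⟩
  choose M hM using hb
  refine ⟨|M 0| + |M 1| + 1, by positivity, fun y hy x j => ?_⟩
  rcases eq_or_ne x 0 with rfl | hx
  · have : ds k 0 j y = 0 := by simp [ds, pr]
    rw [this]
    simp
  obtain ⟨r, u, hr, hu, rfl, hr2⟩ := scale hx
  rw [ds_smul, ← hr2, Real.sqrt_sq hr.le, norm_mul, Complex.norm_real, Real.norm_eq_abs,
    abs_of_pos hr, mul_comm]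
  refine mul_le_mul_of_nonneg_right ?_ hr.le
  refine (hM j (u, y) ⟨hu, hy⟩).trans ?_
  have e0 := le_abs_self (M 0)
  have e1 := le_abs_self (M 1)
  have e2 := abs_nonneg (M 0)
  have e3 := abs_nonneg (M 1)
  fin_cases j
  · change M 0 ≤ _
    linarith
  · change M 1 ≤ _
    linarith

end EstA

theorem est : EST := by
  intro k h0 h1 h2
  refine ⟨fun y hy => EstA.re_pos h0 h1 hy, fun y hy => ⟨EstA.w_ne h0 h1 hy, EstA.w_sq k y⟩,
    EstA.w_cont h0 h1, fun x => ⟨?_, fun j => ?_⟩, fun C hC hCb => ?_⟩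
  · exact (EstA.s_cont2 h0 h1).comp (f := fun y : Fin 2 → ℂ => (x, y)) (by fun_prop)
      fun y hy => ⟨Set.mem_univ _, hy⟩
  · exact (EstA.ds_cont2 h0 h1 j).comp (f := fun y : Fin 2 → ℂ => (x, y)) (by fun_prop)
      fun y hy => ⟨Set.mem_univ _, hy⟩
  · obtain ⟨c, hc, hc2⟩ := EstA.lower h0 h1 h2 hC hCb
    obtain ⟨c', hc', hc2'⟩ := EstA.upper h0 h1 hC hCb
    exact ⟨c, hc, c', hc', hc2, hc2'⟩

theorem del : DEL := by
  intro k h0 h1 h2 x y hy
  have hw := EstA.w_ne h0 h1 hy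
  have hw2 := EstA.w_sq k y
  have hw2' : w k y ^ 2 = -((k 0 : ℂ) * y 0 ^ 2 + (k 1 : ℂ) * y 1 ^ 2 + (k 2 : ℂ)) := by
    rw [hw2]
    simp [Fin.sum_univ_three, hat]
  have hP : ∀ i, pr k (x i) y = (k 0 : ℂ) * x i 0 * y 0 + (k 1 : ℂ) * x i 1 * y 1 +
      (k 2 : ℂ) * x i 2 := by
    intro i
    simp [pr, Fin.sum_univ_three, hat]
  have hd0 : ∀ i, ds k (x i) 0 y = (k 0 : ℂ) * x i 0 / w k y +
      pr k (x i) y * ((k 0 : ℂ) * y 0) / w k y ^ 3 := fun i => rfl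
  have hd1 : ∀ i, ds k (x i) 1 y = (k 1 : ℂ) * x i 1 / w k y +
      pr k (x i) y * ((k 1 : ℂ) * y 1) / w k y ^ 3 := fun i => rfl
  unfold Del
  rw [hd0, hd0, hd1, hd1, Matrix.det_fin_three]
  simp only [Matrix.of_apply, Matrix.cons_val', Matrix.cons_val_zero, Matrix.cons_val_one,
    Matrix.cons_val]
  have e : ((k 0 : ℂ) * x 0 0 / w k y + pr k (x 0) y * ((k 0 : ℂ) * y 0) / w k y ^ 3) *
      ((k 1 : ℂ) * x 1 1 / w k y + pr k (x 1) y * ((k 1 : ℂ) * y 1) / w k y ^ 3) -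
      ((k 1 : ℂ) * x 0 1 / w k y + pr k (x 0) y * ((k 1 : ℂ) * y 1) / w k y ^ 3) *
      ((k 0 : ℂ) * x 1 0 / w k y + pr k (x 1) y * ((k 0 : ℂ) * y 0) / w k y ^ 3) =
      (k 0 : ℂ) * k 1 * (w k y ^ 2 * (x 0 0 * x 1 1 - x 0 1 * x 1 0) +
        pr k (x 1) y * (x 0 0 * y 1 - x 0 1 * y 0) + pr k (x 0) y * (y 0 * x 1 1 - y 1 * x 1 0)) /
        w k y ^ 4 := by
    field_simp
    ring
  rw [e, hw2', hP, hP]
  push_cast
  ring

end Pool.Agent.CMH
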