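import Mathlib
import Pool.Agent.Lib.CMH.Defs

/-! TANK CMH, row CHI, lemma EXT: extension by zero of a compactly supported function on the ball.
helper1. -/

set_option autoImplicit false

namespace Pool.Agent.CMH.Ext

open Topology Set Function

noncomputable section

lemma ball_open (k : Fin 3 → ℝ) : IsOpen (ball k) := by
  have h : Continuous fun y : Fin 2 → ℂ => k 0 * ‖y 0‖ ^ 2 + k 1 * ‖y 1‖ ^ 2 + k 2 := by
    fun_prop
  exact isOpen_lt h continuous_const

/-- extension by zero from an open subset -/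
def extZ {X : Type*} (U : Set X) (f : U → ℝ) : X → ℝ := Function.extend (Subtype.val) f 0

lemma extZ_mem {X : Type*} {U : Set X} (f : U → ℝ) {x : X} (hx : x ∈ U) :
    extZ U f x = f ⟨x, hx⟩ := by
  have := Subtype.val_injective.extend_apply f (0 : X → ℝ) (⟨x, hx⟩ : U)
  exact this

lemma extZ_coe {X : Type*} {U : Set X} (f : U → ℝ) (x : U) : extZ U f x = f x :=
  extZ_mem f x.2

lemma extZ_not_mem {X : Type*} {U : Set X} (f : U → ℝ) {x : X} (hx : x ∉ U) :
    extZ U f x = 0 := by
  unfold extZ
  rw [Function.extend_apply']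
  · rfl
  · rintro ⟨y, rfl⟩
    exact hx y.2

lemma extZ_nonneg {X : Type*} {U : Set X} {f : U → ℝ} (hf : ∀ x, 0 ≤ f x) (x : X) :
    0 ≤ extZ U f x := by
  by_cases hx : x ∈ U
  · rw [extZ_mem f hx]; exact hf _
  · rw [extZ_not_mem f hx]

/-- **EXT**: the extension by zero of a continuous function with compact support on an open set -/
theorem ext_open {X : Type*} [TopologicalSpace X] [T2Space X] {U : Set X} (hU : IsOpen U)
    (f : U → ℝ) (hf : Continuous f) (hc : HasCompactSupport f) :
    Continuous (extZ U f) ∧ HasCompactSupport (extZ U f) ∧ tsupport (extZ U f) ⊆ U := by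
  refine ⟨hc.continuous_extend_zero hU hf, hc.extend_zero continuous_subtype_val, ?_⟩
  refine (hc.tsupport_extend_zero_subset continuous_subtype_val).trans ?_
  rintro _ ⟨y, -, rfl⟩
  exact y.2

/-- **EXT** for the ball. -/
theorem ext_ball (k : Fin 3 → ℝ) (f : ball k → ℝ) (hf : Continuous f) (hc : HasCompactSupport f) :
    Continuous (extZ (ball k) f) ∧ HasCompactSupport (extZ (ball k) f) ∧
      tsupport (extZ (ball k) f) ⊆ ball k :=
  ext_open (ball_open k) f hf hc

/-- **EXT**, existential form: a continuous nonnegative compactly supported weight on the subtype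
gives one on `ℂ²`, equal to it on the ball. -/
theorem exists_ext (k : Fin 3 → ℝ) (f : ball k → ℝ) (hf : Continuous f)
    (hc : HasCompactSupport f) (h0 : ∀ y, 0 ≤ f y) :
    ∃ χ : (Fin 2 → ℂ) → ℝ, Continuous χ ∧ HasCompactSupport χ ∧ tsupport χ ⊆ ball k ∧
      (∀ y, 0 ≤ χ y) ∧ (∀ y : ball k, χ y = f y) ∧ ∀ y ∉ ball k, χ y = 0 := by
  obtain ⟨h1, h2, h3⟩ := ext_ball k f hf hc
  exact ⟨extZ (ball k) f, h1, h2, h3, extZ_nonneg h0, extZ_coe f, fun y hy => extZ_not_mem f hy⟩

end

end Pool.Agent.CMH.Ext
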