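import Pool.Agent.Lib.CMH.Rows
import Pool.Agent.Lib.CMH.Gs2

set_option autoImplicit false

namespace Pool.Agent.CMH

/-- lattice sums over the totally real field `F` (row SUM1) -/
theorem sum1 : SUM1 := by
  intro F _ _ _ ι _ N c p hN hc
  have h := Pool.CMH.summable_poly_gauss_lat (F := F) (ι := ι) N hN c hc p
  refine h.congr ?_
  intro ξ
  have h1 : Pool.CMH.nrm2 (ξ : ι → F) = ∑ v : F →+* ℝ, ∑ i, v (ξ.1 i) ^ 2 := by
    rw [Pool.CMH.nrm2, Finset.sum_comm]
  rw [h1, neg_mul]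

end Pool.Agent.CMH
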