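import Mathlib
import Pool.Agent.Lib.CMH.Rows

/-!
# TANK CMH, row TEN: Schwartz-Bruhat functions on `F^κ`

`F` a field which is algebraic over `ℚ`.  A function on `κ → F` has level `N` if its support
consists of vectors `x` with `N x` integral and if it is periodic modulo `N` times the integral
vectors.
-/

set_option autoImplicit false

namespace Pool.Agent.CMH.Ten

variable {F : Type*} [Field F] {κ κ' : Type*}

/-- Schwartz-Bruhat functions of level `N` -/
structure SBN (N : ℕ) (φ : (κ → F) → ℂ) : Prop where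
  pos : 0 < N
  supp : ∀ x, φ x ≠ 0 → ∀ i, IsIntegral ℤ ((N : F) * x i)
  per : ∀ x y : κ → F, (∀ i, IsIntegral ℤ (y i / (N : F))) → φ (x + y) = φ x

/-- Schwartz-Bruhat functions -/
def IsSB (φ : (κ → F) → ℂ) : Prop := ∃ N : ℕ, SBN N φ

theorem isIntegral_nat (n : ℕ) : IsIntegral ℤ (n : F) := by
  have h := isIntegral_algebraMap (R := ℤ) (A := F) (x := (n : ℤ))
  rwa [algebraMap_int_eq, eq_intCast, Int.cast_natCast] at h

section charzero
variable [CharZero F]

theorem SBN.of_dvd {N M : ℕ} {φ : (κ → F) → ℂ} (h : SBN N φ) (hM : 0 < M) (hd : N ∣ M) :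
    SBN M φ := by
  obtain ⟨k, rfl⟩ := hd
  have hN : (N : F) ≠ 0 := Nat.cast_ne_zero.2 h.pos.ne'
  have hk0 : (k : F) ≠ 0 := Nat.cast_ne_zero.2 (by rintro rfl; simp at hM)
  refine ⟨hM, fun x hx i => ?_, fun x y hy => h.per x y fun i => ?_⟩
  · have h1 := (isIntegral_nat (F := F) k).mul (h.supp x hx i)
    have h2 : ((N * k : ℕ) : F) * x i = (k : F) * ((N : F) * x i) := by push_cast; ring
    rwa [h2]
  · have h1 := (isIntegral_nat (F := F) k).mul (hy i)
    have h2 : y i / (N : F) = (k : F) * (y i / ((N * k : ℕ) : F)) := by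
      push_cast
      field_simp
    rwa [h2]

/-- the class of a vector modulo `N` -/
def Cong (N : ℕ) (x y : κ → F) : Prop := ∀ i, IsIntegral ℤ ((x i - y i) / (N : F))

omit [CharZero F] in
theorem Cong.refl (N : ℕ) (x : κ → F) : Cong N x x := fun i => by
  rw [sub_self, zero_div]
  exact isIntegral_zero

omit [CharZero F] in
theorem Cong.symm {N : ℕ} {x y : κ → F} (h : Cong N x y) : Cong N y x := fun i => by
  have h1 := (h i).neg
  have h2 : (y i - x i) / (N : F) = -((x i - y i) / (N : F)) := by ring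
  rwa [h2]

omit [CharZero F] in
theorem Cong.trans {N : ℕ} {x y z : κ → F} (h : Cong N x y) (h' : Cong N y z) : Cong N x z :=
  fun i => by
    have h1 := (h i).add (h' i)
    have h2 : (x i - z i) / (N : F) = (x i - y i) / (N : F) + (y i - z i) / (N : F) := by ring
    rwa [h2]

omit [CharZero F] in
theorem SBN.cong {N : ℕ} {φ : (κ → F) → ℂ} (h : SBN N φ) {x y : κ → F} (hxy : Cong N x y) :
    φ x = φ y := by
  have h1 := h.per y (x - y) hxy
  rwa [add_sub_cancel] at h1

omit [CharZero F] in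
theorem SBN.zero {N : ℕ} (hN : 0 < N) : SBN N (fun _ : κ → F => (0 : ℂ)) :=
  ⟨hN, fun _ h => absurd rfl h, fun _ _ _ => rfl⟩

omit [CharZero F] in
theorem SBN.add {N : ℕ} {φ ψ : (κ → F) → ℂ} (h : SBN N φ) (h' : SBN N ψ) :
    SBN N (fun x => φ x + ψ x) := by
  refine ⟨h.pos, fun x hx => ?_, fun x y hy => ?_⟩
  · by_cases h1 : φ x = 0
    · refine h'.supp x fun h2 => hx ?_
      rw [h1, h2, add_zero]
    · exact h.supp x h1
  · rw [h.per x y hy, h'.per x y hy]

omit [CharZero F] in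
theorem SBN.smul {N : ℕ} {φ : (κ → F) → ℂ} (h : SBN N φ) (c : ℂ) :
    SBN N (fun x => c * φ x) := by
  refine ⟨h.pos, fun x hx => h.supp x fun h1 => hx ?_, fun x y hy => ?_⟩
  · rw [h1, mul_zero]
  · rw [h.per x y hy]

omit [CharZero F] in
theorem SBN.sum {N : ℕ} (hN : 0 < N) {ι : Type*} (s : Finset ι) {φ : ι → (κ → F) → ℂ}
    (h : ∀ k ∈ s, SBN N (φ k)) : SBN N (fun x => ∑ k ∈ s, φ k x) := by
  refine ⟨hN, fun x hx => ?_, fun x y hy => ?_⟩
  · obtain ⟨k, hk, hk0⟩ := Finset.exists_ne_zero_of_sum_ne_zero hx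
    exact (h k hk).supp x hk0
  · exact Finset.sum_congr rfl fun k hk => (h k hk).per x y hy

theorem IsSB.add {φ ψ : (κ → F) → ℂ} (h : IsSB φ) (h' : IsSB ψ) :
    IsSB (fun x => φ x + ψ x) := by
  obtain ⟨N, hN⟩ := h
  obtain ⟨M, hM⟩ := h'
  have hp : 0 < N * M := Nat.mul_pos hN.pos hM.pos
  exact ⟨N * M, (hN.of_dvd hp (dvd_mul_right _ _)).add (hM.of_dvd hp (dvd_mul_left _ _))⟩

omit [CharZero F] in
theorem IsSB.smul {φ : (κ → F) → ℂ} (h : IsSB φ) (c : ℂ) : IsSB (fun x => c * φ x) := by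
  obtain ⟨N, hN⟩ := h
  exact ⟨N, hN.smul c⟩

omit [CharZero F] in
theorem IsSB.zero : IsSB (fun _ : κ → F => (0 : ℂ)) := ⟨1, SBN.zero one_pos⟩

open Classical in
/-- the indicator function of a class modulo `N` -/
noncomputable def ind (N : ℕ) (u : κ → F) : (κ → F) → ℂ := fun x => if Cong N x u then 1 else 0

omit [CharZero F] in
theorem ind_of {N : ℕ} {u x : κ → F} (h : Cong N x u) : ind N u x = 1 := if_pos h

omit [CharZero F] in
theorem ind_of_not {N : ℕ} {u x : κ → F} (h : ¬ Cong N x u) : ind N u x = 0 := if_neg h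

/-- the indicator function of a class modulo `N` has level `N` if `N u` is integral -/
theorem SBN.ind {N : ℕ} (hN : 0 < N) {u : κ → F} (hu : ∀ i, IsIntegral ℤ ((N : F) * u i)) :
    SBN N (ind N u) := by
  have hN0 : (N : F) ≠ 0 := Nat.cast_ne_zero.2 hN.ne'
  refine ⟨hN, fun x hx i => ?_, fun x y hy => ?_⟩
  · have h1 : Cong N x u := by
      by_contra hc
      exact hx (ind_of_not hc)
    have h2 := ((isIntegral_nat (F := F) (N * N)).mul (h1 i)).add (hu i)
    have h3 : (N : F) * x i = ((N * N : ℕ) : F) * ((x i - u i) / (N : F)) + (N : F) * u i := by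
      push_cast
      field_simp
      ring
    rwa [h3]
  · have h1 : Cong N (x + y) x := fun i => by
      have h2 : ((x + y) i - x i) / (N : F) = y i / (N : F) := by
        rw [Pi.add_apply, add_sub_cancel_left]
      rw [h2]
      exact hy i
    by_cases h : Cong N x u
    · rw [ind_of h, ind_of (h1.trans h)]
    · rw [ind_of_not h, ind_of_not fun h' => h (h1.symm.trans h')]

/-- the indicator function of a class modulo `N` of level `M`, `N ∣ M` -/
theorem SBN.ind_of_dvd {N M : ℕ} (hN : 0 < N) (hM : 0 < M) (hd : N ∣ M) {u : κ → F}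
    (hu : ∀ i, IsIntegral ℤ ((M : F) * u i)) : SBN M (Ten.ind N u) := by
  obtain ⟨k, rfl⟩ := hd
  have hN0 : (N : F) ≠ 0 := Nat.cast_ne_zero.2 hN.ne'
  have hk0 : (k : F) ≠ 0 := Nat.cast_ne_zero.2 (by rintro rfl; simp at hM)
  refine ⟨hM, fun x hx i => ?_, fun x y hy => ?_⟩
  · have h1 : Cong N x u := by
      by_contra hc
      exact hx (ind_of_not hc)
    have h2 := ((isIntegral_nat (F := F) (N * N * k)).mul (h1 i)).add (hu i)
    have h3 : ((N * k : ℕ) : F) * x i =
        ((N * N * k : ℕ) : F) * ((x i - u i) / (N : F)) + ((N * k : ℕ) : F) * u i := by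
      push_cast
      field_simp
      ring
    rwa [h3]
  · have h1 : Cong N (x + y) x := fun i => by
      have h2 : ((x + y) i - x i) / (N : F) = (k : F) * (y i / ((N * k : ℕ) : F)) := by
        rw [Pi.add_apply, add_sub_cancel_left]
        push_cast
        field_simp
      rw [h2]
      exact (isIntegral_nat k).mul (hy i)
    by_cases h : Cong N x u
    · rw [ind_of h, ind_of (h1.trans h)]
    · rw [ind_of_not h, ind_of_not fun h' => h (h1.symm.trans h')]

end charzero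

section algebraic
variable [CharZero F] [Algebra.IsAlgebraic ℚ F]

/-- common denominators -/
theorem exists_den {ι : Type*} [Finite ι] (x : ι → F) :
    ∃ m : ℕ, 0 < m ∧ ∀ i, IsIntegral ℤ ((m : F) * x i) := by
  classical
  have := Fintype.ofFinite ι
  have halg : Algebra.IsAlgebraic ℤ F := by
    have : Algebra.IsAlgebraic ℤ ℚ := IsLocalization.isAlgebraic ℚ (nonZeroDivisors ℤ)
    exact Algebra.IsAlgebraic.trans ℤ ℚ F
  obtain ⟨y, hy, h⟩ := Algebra.IsAlgebraic.exists_integral_multiples (R := ℤ) (A := F)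
    (Finset.univ.image x)
  refine ⟨y.natAbs, Int.natAbs_pos.2 hy, fun i => ?_⟩
  have h1 := h (x i) (Finset.mem_image_of_mem x (Finset.mem_univ i))
  rw [zsmul_eq_mul] at h1
  rcases Int.natAbs_eq y with h2 | h2
  · rw [h2, Int.cast_natCast] at h1
    exact h1
  · rw [h2, Int.cast_neg, Int.cast_natCast, neg_mul] at h1
    simpa using h1.neg

/-- the indicator function of any class is Schwartz-Bruhat -/
theorem IsSB.ind [Finite κ] {N : ℕ} (hN : 0 < N) (u : κ → F) : IsSB (Ten.ind N u) := by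
  obtain ⟨m, hm, h⟩ := exists_den u
  refine ⟨N * m, SBN.ind_of_dvd hN (Nat.mul_pos hN hm) (dvd_mul_right _ _) fun i => ?_⟩
  have h1 := (isIntegral_nat (F := F) N).mul (h i)
  have h2 : ((N * m : ℕ) : F) * u i = (N : F) * ((m : F) * u i) := by push_cast; ring
  rwa [h2]

/-- **linear changes of variables** -/
theorem IsSB.comp_linearEquiv [Finite κ] [Finite κ'] {φ : (κ → F) → ℂ} (h : IsSB φ)
    (g : (κ' → F) ≃ₗ[F] (κ → F)) : IsSB (fun x => φ (g x)) := by
  classical
  have := Fintype.ofFinite κ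
  have := Fintype.ofFinite κ'
  obtain ⟨N, hN⟩ := h
  obtain ⟨m₁, hm₁, h1⟩ := exists_den (fun p : κ × κ' => g (Pi.single p.2 1) p.1)
  obtain ⟨m₂, hm₂, h2⟩ := exists_den (fun p : κ' × κ => g.symm (Pi.single p.2 1) p.1)
  have hN0 : (N : F) ≠ 0 := Nat.cast_ne_zero.2 hN.pos.ne'
  have hm₁0 : (m₁ : F) ≠ 0 := Nat.cast_ne_zero.2 hm₁.ne'
  have hm₂0 : (m₂ : F) ≠ 0 := Nat.cast_ne_zero.2 hm₂.ne'
  have e1 : ∀ (x : κ' → F) (i : κ), g x i = ∑ j, x j * g (Pi.single j 1) i := by
    intro x i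
    conv_lhs => rw [← LinearMap.sum_single_apply (fun _ => F) x]
    rw [map_sum, Finset.sum_apply]
    refine Finset.sum_congr rfl fun j _ => ?_
    have h3 : (Pi.single j (x j) : κ' → F) = x j • Pi.single j 1 := by
      rw [← Pi.single_smul, smul_eq_mul, mul_one]
    rw [h3, map_smul, Pi.smul_apply, smul_eq_mul]
  have e2 : ∀ (x : κ → F) (i : κ'), g.symm x i = ∑ j, x j * g.symm (Pi.single j 1) i := by
    intro x i
    conv_lhs => rw [← LinearMap.sum_single_apply (fun _ => F) x]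
    rw [map_sum, Finset.sum_apply]
    refine Finset.sum_congr rfl fun j _ => ?_
    have h3 : (Pi.single j (x j) : κ → F) = x j • Pi.single j 1 := by
      rw [← Pi.single_smul, smul_eq_mul, mul_one]
    rw [h3, map_smul, Pi.smul_apply, smul_eq_mul]
  refine ⟨N * m₁ * m₂, Nat.mul_pos (Nat.mul_pos hN.pos hm₁) hm₂, fun x hx i => ?_,
    fun x y hy => ?_⟩
  · have h3 : x i = ∑ j, g x j * g.symm (Pi.single j 1) i := by
      rw [← e2, LinearEquiv.symm_apply_apply]
    rw [h3, Finset.mul_sum]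
    refine IsIntegral.sum _ fun j _ => ?_
    have h4 := (isIntegral_nat (F := F) m₁).mul ((hN.supp (g x) hx j).mul (h2 (i, j)))
    have h5 : ((N * m₁ * m₂ : ℕ) : F) * (g x j * g.symm (Pi.single j 1) i) =
        (m₁ : F) * ((N : F) * g x j * ((m₂ : F) * g.symm (Pi.single j 1) i)) := by
      push_cast
      ring
    rw [h5]
    exact h4
  · rw [map_add]
    refine hN.per _ _ fun i => ?_
    rw [e1 y i, Finset.sum_div]
    refine IsIntegral.sum _ fun j _ => ?_
    have h4 := (isIntegral_nat (F := F) m₂).mul ((hy j).mul (h1 (i, j)))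
    have h5 : y j * g (Pi.single j 1) i / (N : F) =
        (m₂ : F) * (y j / ((N * m₁ * m₂ : ℕ) : F) * ((m₁ : F) * g (Pi.single j 1) i)) := by
      push_cast
      field_simp
    rw [h5]
    exact h4

end algebraic

/-! ### representatives -/

section numberfield
variable [NumberField F]

open NumberField

/-- finite systems of representatives modulo `N` of the vectors `x` with `N x` integral -/
theorem exists_reps [Finite κ] {N : ℕ} (hN : 0 < N) : ∃ R : Finset (κ → F),
    (∀ u ∈ R, ∀ i, IsIntegral ℤ ((N : F) * u i)) ∧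
    (∀ x : κ → F, (∀ i, IsIntegral ℤ ((N : F) * x i)) → ∃ u ∈ R, Cong N x u) ∧
    (∀ u ∈ R, ∀ v ∈ R, Cong N u v → u = v) := by
  classical
  have hN0 : (N : F) ≠ 0 := Nat.cast_ne_zero.2 hN.ne'
  let I : Ideal (𝓞 F) := Ideal.span {((N * N : ℕ) : 𝓞 F)}
  have hI : I ≠ ⊥ := by
    intro h
    rw [Ideal.span_singleton_eq_bot] at h
    exact (Nat.mul_pos hN hN).ne' (Nat.cast_eq_zero.1 h)
  have hfin : Finite (𝓞 F ⧸ I) := I.finiteQuotientOfFreeOfNeBot hI
  let S : Type _ := {x : κ → F // ∀ i, IsIntegral ℤ ((N : F) * x i)}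
  let q : S → (κ → 𝓞 F ⧸ I) := fun x i =>
    Ideal.Quotient.mk I ⟨(N : F) * x.1 i, (mem_integralClosure_iff ℤ F).2 (x.2 i)⟩
  have hq : ∀ x y : S, q x = q y ↔ Cong N x.1 y.1 := by
    intro x y
    constructor
    · intro h i
      have h1 := congrFun h i
      rw [Ideal.Quotient.eq, Ideal.mem_span_singleton] at h1
      obtain ⟨c, hc⟩ := h1
      have h2 := congrArg (algebraMap (𝓞 F) F) hc
      have h3 : (N : F) * x.1 i - (N : F) * y.1 i = ((N * N : ℕ) : F) * (c : F) := by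
        rw [map_mul, map_natCast] at h2
        exact h2
      have h4 : (x.1 i - y.1 i) / (N : F) = (c : F) := by
        rw [div_eq_iff hN0]
        have h5 : (N : F) * (x.1 i - y.1 i) = (N : F) * ((c : F) * (N : F)) := by
          rw [mul_sub, h3]
          push_cast
          ring
        exact mul_left_cancel₀ hN0 h5
      rw [h4]
      exact RingOfIntegers.isIntegral_coe c
    · intro h
      funext i
      refine (Ideal.Quotient.eq).2 (Ideal.mem_span_singleton.2 ⟨⟨(x.1 i - y.1 i) / (N : F),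
        (mem_integralClosure_iff ℤ F).2 (h i)⟩, ?_⟩)
      refine RingOfIntegers.ext ?_
      change (N : F) * x.1 i - (N : F) * y.1 i =
        algebraMap (𝓞 F) F (((N * N : ℕ) : 𝓞 F) * _)
      rw [map_mul, map_natCast]
      change _ = ((N * N : ℕ) : F) * ((x.1 i - y.1 i) / (N : F))
      push_cast
      field_simp
  have hrange : (Set.range q).Finite := Set.toFinite _
  have := hrange.to_subtype
  have := Fintype.ofFinite (Set.range q)
  let r : Set.range q → S := fun z => z.2.choose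
  have hr : ∀ z, q (r z) = z.1 := fun z => z.2.choose_spec
  refine ⟨Finset.univ.image fun z => (r z).1, ?_, ?_, ?_⟩
  · intro u hu
    obtain ⟨z, -, rfl⟩ := Finset.mem_image.1 hu
    exact (r z).2
  · intro x hx
    refine ⟨(r ⟨q ⟨x, hx⟩, Set.mem_range_self _⟩).1, Finset.mem_image_of_mem _
      (Finset.mem_univ _), ?_⟩
    exact (hq ⟨x, hx⟩ _).1 (hr ⟨q ⟨x, hx⟩, Set.mem_range_self _⟩).symm
  · intro u hu v hv huv
    obtain ⟨z, -, rfl⟩ := Finset.mem_image.1 hu
    obtain ⟨z', -, rfl⟩ := Finset.mem_image.1 hv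
    have h1 := (hq (r z) (r z')).2 huv
    rw [hr, hr] at h1
    rw [Subtype.ext h1]

/-- a Schwartz-Bruhat function is a finite combination of indicator functions -/
theorem SBN.eq_sum [Finite κ] {N : ℕ} {φ : (κ → F) → ℂ} (h : SBN N φ) : ∃ R : Finset (κ → F),
    (∀ u ∈ R, ∀ i, IsIntegral ℤ ((N : F) * u i)) ∧ ∀ x, φ x = ∑ u ∈ R, φ u * Ten.ind N u x := by
  obtain ⟨R, hR, h1, h2⟩ := exists_reps (F := F) (κ := κ) h.pos
  refine ⟨R, hR, fun x => ?_⟩
  by_cases hx : ∀ i, IsIntegral ℤ ((N : F) * x i)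
  · obtain ⟨u, hu, hxu⟩ := h1 x hx
    rw [Finset.sum_eq_single u, ind_of hxu, mul_one, h.cong hxu]
    · intro v hv hvu
      rw [ind_of_not fun h' => hvu (h2 v hv u hu (h'.symm.trans hxu)), mul_zero]
    · exact fun h' => absurd hu h'
  · have h3 : φ x = 0 := by
      by_contra hc
      exact hx (h.supp x hc)
    rw [h3]
    refine (Finset.sum_eq_zero fun u hu => ?_).symm
    rw [ind_of_not, mul_zero]
    intro h'
    apply hx
    have h4 := SBN.ind h.pos (hR u hu)
    exact h4.supp x (by rw [ind_of h']; exact one_ne_zero)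

end numberfield

end Pool.Agent.CMH.Ten

namespace Pool.Agent.CMH

open Ten

variable {F : Type} [Field F] [NumberField F]

theorem isSB_iff {φ : (Fin 3 → F) → ℂ} : IsSB φ ↔ Ten.IsSB φ := by
  constructor
  · rintro ⟨N, hN, h1, h2⟩
    have hN0 : (N : F) ≠ 0 := Nat.cast_ne_zero.2 hN.ne'
    refine ⟨N, hN, h1, fun x y hy => ?_⟩
    have h3 := h2 x (fun j => y j / (N : F)) hy
    have h4 : (fun j => x j + (N : F) * (y j / (N : F))) = x + y := by
      funext j
      rw [mul_div_cancel₀ _ hN0]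
      rfl
    rwa [h4] at h3
  · rintro ⟨N, hN⟩
    have hN0 : (N : F) ≠ 0 := Nat.cast_ne_zero.2 hN.pos.ne'
    refine ⟨N, hN.pos, hN.supp, fun ξ η hη => ?_⟩
    exact hN.per ξ (fun j => (N : F) * η j) fun i => by
      rw [mul_div_cancel_left₀ _ hN0]
      exact hη i

theorem sb2_iff {N : ℕ} {φ : (Fin 2 → Fin 3 → F) → ℂ} :
    SB2 N φ ↔ SBN N (fun z : Fin 2 × Fin 3 → F => φ (fun i j => z (i, j))) := by
  constructor
  · rintro ⟨hN, h1, h2⟩
    have hN0 : (N : F) ≠ 0 := Nat.cast_ne_zero.2 hN.ne'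
    refine ⟨hN, fun x hx p => h1 _ hx p.1 p.2, fun x y hy => ?_⟩
    have h3 := h2 (fun i j => x (i, j)) (fun i j => y (i, j) / (N : F)) fun i j => hy (i, j)
    have h4 : (fun i j => x (i, j) + (N : F) * (y (i, j) / (N : F))) =
        fun (i : Fin 2) (j : Fin 3) => (x + y) (i, j) := by
      funext i j
      rw [mul_div_cancel₀ _ hN0]
      rfl
    rwa [h4] at h3
  · intro hN
    have hN0 : (N : F) ≠ 0 := Nat.cast_ne_zero.2 hN.pos.ne'
    refine ⟨hN.pos, fun ξ hξ i j => hN.supp (fun p => ξ p.1 p.2) hξ (i, j), fun ξ η hη => ?_⟩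
    exact hN.per (fun p => ξ p.1 p.2) (fun p => (N : F) * η p.1 p.2) fun p => by
      rw [mul_div_cancel_left₀ _ hN0]
      exact hη p.1 p.2

theorem SB2.of_dvd {N M : ℕ} {φ : (Fin 2 → Fin 3 → F) → ℂ} (h : SB2 N φ) (hM : 0 < M)
    (hd : N ∣ M) : SB2 M φ := sb2_iff.2 ((sb2_iff.1 h).of_dvd hM hd)

theorem IsSB.add {φ ψ : (Fin 3 → F) → ℂ} (h : IsSB φ) (h' : IsSB ψ) :
    IsSB (fun x => φ x + ψ x) := isSB_iff.2 ((isSB_iff.1 h).add (isSB_iff.1 h'))

theorem IsSB.smul {φ : (Fin 3 → F) → ℂ} (h : IsSB φ) (c : ℂ) : IsSB (fun x => c * φ x) :=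
  isSB_iff.2 ((isSB_iff.1 h).smul c)

/-- `φ₀ ⊗ φ₁` is Schwartz-Bruhat -/
theorem SB2.tens {φ : Fin 2 → (Fin 3 → F) → ℂ} (h : ∀ i, IsSB (φ i)) : ∃ N, SB2 N (tens φ) := by
  obtain ⟨N, hN⟩ := isSB_iff.1 (h 0)
  obtain ⟨M, hM⟩ := isSB_iff.1 (h 1)
  have hp : 0 < N * M := Nat.mul_pos hN.pos hM.pos
  have h0 := hN.of_dvd hp (dvd_mul_right _ _)
  have h1 := hM.of_dvd hp (dvd_mul_left _ _)
  refine ⟨N * M, sb2_iff.2 ⟨hp, fun x hx p => ?_, fun x y hy => ?_⟩⟩
  · have h2 : φ 0 (fun j => x (0, j)) ≠ 0 := fun h3 => hx (by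
      change φ 0 (fun j => x (0, j)) * φ 1 (fun j => x (1, j)) = 0
      rw [h3, zero_mul])
    have h3 : φ 1 (fun j => x (1, j)) ≠ 0 := fun h3 => hx (by
      change φ 0 (fun j => x (0, j)) * φ 1 (fun j => x (1, j)) = 0
      rw [h3, mul_zero])
    obtain ⟨i, j⟩ := p
    fin_cases i
    · exact h0.supp _ h2 j
    · exact h1.supp _ h3 j
  · change φ 0 (fun j => (x + y) (0, j)) * φ 1 (fun j => (x + y) (1, j)) =
      φ 0 (fun j => x (0, j)) * φ 1 (fun j => x (1, j))
    have e0 := h0.per (fun j => x (0, j)) (fun j => y (0, j)) fun j => hy (0, j)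
    have e1 := h1.per (fun j => x (1, j)) (fun j => y (1, j)) fun j => hy (1, j)
    exact congrArg₂ (· * ·) e0 e1

/-- **a Schwartz-Bruhat function on `F^(2×3)` is a finite sum of tensors** -/
theorem exists_tensor {N : ℕ} {φ : (Fin 2 → Fin 3 → F) → ℂ} (h : SB2 N φ) :
    ∃ (K : ℕ) (ψ : Fin K → Fin 2 → (Fin 3 → F) → ℂ), (∀ k i, IsSB (ψ k i)) ∧
      ∀ ξ, φ ξ = ∑ k, ψ k 0 (ξ 0) * ψ k 1 (ξ 1) := by
  classical
  obtain ⟨R, hR, hsum⟩ := (sb2_iff.1 h).eq_sum
  have hpos := h.1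
  refine ⟨R.card, fun k => ![fun x => φ (fun i j => (R.equivFin.symm k).1 (i, j)) *
    ind N (fun j => (R.equivFin.symm k).1 (0, j)) x,
    ind N (fun j => (R.equivFin.symm k).1 (1, j))], ?_, ?_⟩
  · intro k i
    have h1 := hR _ (R.equivFin.symm k).2
    fin_cases i
    · exact isSB_iff.2 ⟨N, (SBN.ind hpos fun j => h1 (0, j)).smul _⟩
    · exact isSB_iff.2 ⟨N, SBN.ind hpos fun j => h1 (1, j)⟩
  · intro ξ
    have h1 := hsum (fun p => ξ p.1 p.2)
    change φ ξ = _ at h1
    rw [h1, ← Finset.sum_coe_sort R, ← R.equivFin.symm.sum_comp]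
    refine Finset.sum_congr rfl fun k _ => ?_
    change φ (fun i j => (R.equivFin.symm k).1 (i, j)) * _ = φ _ * _ * _
    rw [mul_assoc]
    congr 1
    set u := (R.equivFin.symm k).1
    by_cases h2 : Cong N (ξ 0) (fun j => u (0, j))
    · by_cases h3 : Cong N (ξ 1) (fun j => u (1, j))
      · have h4 : Cong N (fun p : Fin 2 × Fin 3 => ξ p.1 p.2) u := by
          rintro ⟨i, j⟩
          fin_cases i
          · exact h2 j
          · exact h3 j
        rw [ind_of h4]
        exact (congrArg₂ (· * ·) (ind_of h2) (ind_of h3)).symm ▸ (mul_one (1 : ℂ)).symm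
      · have h4 : ¬ Cong N (fun p : Fin 2 × Fin 3 => ξ p.1 p.2) u := fun h5 => h3 fun j =>
          h5 (1, j)
        rw [ind_of_not h4]
        have h5 : ind N (fun j => u (1, j)) (ξ 1) = 0 := ind_of_not h3
        change 0 = ind N (fun j => u (0, j)) (ξ 0) * ind N (fun j => u (1, j)) (ξ 1)
        rw [h5, mul_zero]
    · have h4 : ¬ Cong N (fun p : Fin 2 × Fin 3 => ξ p.1 p.2) u := fun h5 => h2 fun j =>
        h5 (0, j)
      rw [ind_of_not h4]
      have h5 : ind N (fun j => u (0, j)) (ξ 0) = 0 := ind_of_not h2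
      change 0 = ind N (fun j => u (0, j)) (ξ 0) * ind N (fun j => u (1, j)) (ξ 1)
      rw [h5, zero_mul]

omit [NumberField F] in
/-- the action of a matrix on the rows -/
def rowMap (g : Matrix (Fin 2) (Fin 2) F) : (Fin 2 × Fin 3 → F) →ₗ[F] (Fin 2 × Fin 3 → F) where
  toFun x p := ∑ k, g p.1 k * x (k, p.2)
  map_add' x y := by
    funext p
    simp only [Pi.add_apply, mul_add, Finset.sum_add_distrib]
  map_smul' c x := by
    funext p
    simp only [Pi.smul_apply, smul_eq_mul, RingHom.id_apply, Finset.mul_sum]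
    exact Finset.sum_congr rfl fun k _ => by ring

omit [NumberField F] in
theorem rowMap_rowMap {g g' : Matrix (Fin 2) (Fin 2) F} (h : g * g' = 1)
    (x : Fin 2 × Fin 3 → F) : rowMap g (rowMap g' x) = x := by
  funext p
  change ∑ k, g p.1 k * ∑ l, g' k l * x (l, p.2) = x p
  simp only [Finset.mul_sum]
  rw [Finset.sum_comm]
  have h1 : ∀ l, ∑ k, g p.1 k * (g' k l * x (l, p.2)) =
      (1 : Matrix (Fin 2) (Fin 2) F) p.1 l * x (l, p.2) := by
    intro l
    rw [← h, Matrix.mul_apply, Finset.sum_mul]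
    exact Finset.sum_congr rfl fun k _ => by ring
  simp only [h1]
  rw [Finset.sum_eq_single p.1]
  · rw [Matrix.one_apply_eq, one_mul]
  · intro l _ hl
    rw [Matrix.one_apply_ne (Ne.symm hl), zero_mul]
  · exact fun h2 => absurd (Finset.mem_univ _) h2

/-- **changes of variables on the rows** -/
theorem SB2.comp {N : ℕ} {φ : (Fin 2 → Fin 3 → F) → ℂ} (h : SB2 N φ)
    (g g' : Matrix (Fin 2) (Fin 2) F) (hg : g * g' = 1) :
    ∃ M, SB2 M (fun ξ => φ (fun i j => ∑ k, g i k * ξ k j)) := by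
  have hg' : g' * g = 1 := mul_eq_one_comm.1 hg
  let e : (Fin 2 × Fin 3 → F) ≃ₗ[F] (Fin 2 × Fin 3 → F) :=
    LinearEquiv.ofLinearMap (rowMap g) (rowMap g')
      (LinearMap.ext fun x => rowMap_rowMap hg x) (LinearMap.ext fun x => rowMap_rowMap hg' x)
  obtain ⟨M, hM⟩ := Ten.IsSB.comp_linearEquiv ⟨N, sb2_iff.1 h⟩ e
  exact ⟨M, sb2_iff.2 hM⟩

end Pool.Agent.CMH
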