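import Pool.Agent.Lib.CMH.Dom

/-!
Tank CMH (MP_938ce2_ag), helper5: continuity of `R ↦ C_R(φ)` at `|diag(a)|` (row LIM), and
absolute convergence and continuity of `C_R(φ)` (row SUM2).
-/

set_option autoImplicit false

open scoped ComplexConjugate Matrix
open Complex

namespace Pool.Agent.CMH

noncomputable section

variable {F : Type} [Field F] [NumberField F]

/-- SB2 functions are bounded -/
theorem Lim.bdd (N : ℕ) (φ : (Fin 2 → Fin 3 → F) → ℂ) (hφ : SB2 N φ) :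
    ∃ B : ℝ, 0 ≤ B ∧ ∀ ξ, ‖φ ξ‖ ≤ B := by
  obtain ⟨hN, hs, hp⟩ := hφ
  obtain ⟨B, hB0, hB⟩ := Dom.bounded (F := F) (κ := Fin 2 × Fin 3) N hN
    (fun ξ => φ (fun i j => ξ (i, j))) (fun ξ h p => hs _ h p.1 p.2)
    (fun ξ η h => hp (fun i j => ξ (i, j)) (fun i j => η (i, j)) (fun i j => h (i, j)))
  exact ⟨B, hB0, fun ξ => hB (fun p => ξ p.1 p.2)⟩

/-- constants -/
theorem Lim.exists_mu (v₁ : F →+* ℝ) (D : F) (h : Fin 3 → F) (hg : Good v₁ D h) :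
    ∃ μ : ℝ, 0 < μ ∧ (∀ v : F →+* ℝ, μ ≤ 1 / √(v D)) ∧
      ∀ v : F →+* ℝ, v ≠ v₁ → ∀ l, μ ≤ v (h l) := by
  classical
  obtain ⟨μ, hμ, h1⟩ := Dom.exists_pos_le
    (fun p : (F →+* ℝ) × Fin 3 => min (1 / √(p.1 D)) (if p.1 = v₁ then 1 else p.1 (h p.2)))
    (by
      rintro ⟨v, l⟩
      apply lt_min
      · have := Real.sqrt_pos.mpr (hg.D0 v)
        positivity
      · dsimp only
        split
        · exact one_pos
        · rename_i hv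
          fin_cases l
          · exact hg.h0 v
          · exact hg.h1 v
          · exact hg.h2 v hv)
  refine ⟨μ, hμ, fun v => (h1 (v, 0)).trans (min_le_left _ _), fun v hv l => ?_⟩
  have := (h1 (v, l)).trans (min_le_right _ _)
  simpa [hv] using this

theorem Lim.exists_up {α : Type} [Finite α] (f : α → ℝ) : ∃ M : ℝ, 0 < M ∧ ∀ a, f a ≤ M := by
  obtain ⟨M, hM⟩ := (Set.finite_range f).bddAbove
  exact ⟨max M 1, lt_max_of_lt_right one_pos, fun a => (hM ⟨a, rfl⟩).trans (le_max_left _ _)⟩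

/-- difference of the exponents -/
def Lim.dx (D : F) (h : Fin 3 → F) (a : Fin 2 → F) (R : Maj F) (ξ : Fin 2 → Fin 3 → F) : ℝ :=
  -Real.pi * ∑ v : F →+* ℝ, (1 / √(v D)) * ∑ i, ∑ j, (R v i j - R0 a v i j) * form h v (ξ i) (ξ j)

theorem Lim.gauss_eq (v₁ : F →+* ℝ) (D : F) (h : Fin 3 → F) (a : Fin 2 → F) (R : Maj F)
    (ξ : Fin 2 → Fin 3 → F) (y : Fin 2 → ℂ) :
    gauss2 v₁ D h a R ξ y = gauss2 v₁ D h a (R0 a) ξ y * exp ((Lim.dx D h a R ξ : ℝ) : ℂ) := by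
  rw [gauss2, gauss2, ← Complex.exp_add]
  congr 1
  rw [Lim.dx]
  push_cast
  rw [← mul_add, ← Finset.sum_add_distrib]
  congr 1
  apply Finset.sum_congr rfl
  intro v _
  have h1 : (∑ i, ∑ j, ((R v i j : ℝ) : ℂ) * (form h v (ξ i) (ξ j) : ℂ)) =
      (∑ i, ∑ j, ((R0 a v i j : ℝ) : ℂ) * (form h v (ξ i) (ξ j) : ℂ)) +
      ∑ i, ∑ j, (((R v i j : ℝ) : ℂ) - ((R0 a v i j : ℝ) : ℂ)) * (form h v (ξ i) (ξ j) : ℂ) := by
    rw [← Finset.sum_add_distrib]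
    apply Finset.sum_congr rfl
    intro i _
    rw [← Finset.sum_add_distrib]
    apply Finset.sum_congr rfl
    intro j _
    ring
  rw [h1]
  ring

theorem Lim.dx_le (D : F) (h : Fin 3 → F) (a : Fin 2 → F) (R : Maj F) (ξ : Fin 2 → Fin 3 → F)
    (M₁ M₂ δ : ℝ) (hδ : 0 ≤ δ) (hM₁ : ∀ v : F →+* ℝ, 1 / √(v D) ≤ M₁) (hM₁0 : 0 ≤ M₁)
    (hM₂0 : 0 ≤ M₂)
    (hM₂ : ∀ (v : F →+* ℝ) l, |v (h l)| ≤ M₂) (hR : ∀ v i j, |R v i j - R0 a v i j| ≤ δ) :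
    |Lim.dx D h a R ξ| ≤ Real.pi * (M₁ * (2 * M₂)) * δ * Dom.q2 ξ := by
  rw [Lim.dx, abs_mul, abs_neg, abs_of_pos Real.pi_pos]
  have hform : ∀ (v : F →+* ℝ) i j, |form h v (ξ i) (ξ j)| ≤
      M₂ * ((∑ l, v (ξ i l) ^ 2 + ∑ l, v (ξ j l) ^ 2) / 2) := by
    intro v i j
    rw [form]
    refine (Finset.abs_sum_le_sum_abs _ _).trans ?_
    rw [← Finset.sum_add_distrib, Finset.sum_div, Finset.mul_sum]
    apply Finset.sum_le_sum
    intro l _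
    rw [abs_mul, abs_mul, mul_assoc]
    apply mul_le_mul (hM₂ v l) _ (by positivity) hM₂0
    nlinarith [sq_nonneg (|v (ξ i l)| - |v (ξ j l)|), sq_abs (v (ξ i l)), sq_abs (v (ξ j l))]
  have h2 : ∀ v : F →+* ℝ, |(1 / √(v D)) * ∑ i, ∑ j, (R v i j - R0 a v i j) * form h v (ξ i) (ξ j)| ≤
      M₁ * (2 * M₂) * δ * ∑ i, ∑ l, v (ξ i l) ^ 2 := by
    intro v
    rw [abs_mul, abs_of_nonneg (by positivity : (0:ℝ) ≤ 1 / √(v D))]
    have h3 : |∑ i, ∑ j, (R v i j - R0 a v i j) * form h v (ξ i) (ξ j)| ≤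
        2 * M₂ * δ * ∑ i, ∑ l, v (ξ i l) ^ 2 := by
      have h4 : |∑ i, ∑ j, (R v i j - R0 a v i j) * form h v (ξ i) (ξ j)| ≤
          ∑ i, ∑ j, δ * (M₂ * ((∑ l, v (ξ i l) ^ 2 + ∑ l, v (ξ j l) ^ 2) / 2)) := by
        refine (Finset.abs_sum_le_sum_abs _ _).trans (Finset.sum_le_sum (fun i _ => ?_))
        refine (Finset.abs_sum_le_sum_abs _ _).trans (Finset.sum_le_sum (fun j _ => ?_))
        rw [abs_mul]
        exact mul_le_mul (hR v i j) (hform v i j) (abs_nonneg _) hδ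
      refine h4.trans (le_of_eq ?_)
      simp only [Fin.sum_univ_two]
      ring
    calc (1 / √(v D)) * |∑ i, ∑ j, (R v i j - R0 a v i j) * form h v (ξ i) (ξ j)|
        ≤ M₁ * (2 * M₂ * δ * ∑ i, ∑ l, v (ξ i l) ^ 2) :=
          mul_le_mul (hM₁ v) h3 (abs_nonneg _) hM₁0
      _ = _ := by ring
  have h5 : |∑ v : F →+* ℝ, (1 / √(v D)) * ∑ i, ∑ j, (R v i j - R0 a v i j) * form h v (ξ i) (ξ j)| ≤
      M₁ * (2 * M₂) * δ * Dom.q2 ξ := by
    rw [Dom.q2, Finset.mul_sum]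
    exact (Finset.abs_sum_le_sum_abs _ _).trans (Finset.sum_le_sum (fun v _ => h2 v))
  calc Real.pi * _ ≤ Real.pi * (M₁ * (2 * M₂) * δ * Dom.q2 ξ) :=
        mul_le_mul_of_nonneg_left h5 Real.pi_pos.le
    _ = _ := by ring

theorem Lim.exp_sub_one (x b : ℝ) (hx : |x| ≤ b) : ‖exp (x : ℂ) - 1‖ ≤ b * Real.exp b := by
  have h1 : exp (x : ℂ) - 1 = ((Real.exp x - 1 : ℝ) : ℂ) := by push_cast; rfl
  rw [h1, Complex.norm_real, Real.norm_eq_abs]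
  have hb : 0 ≤ b := (abs_nonneg x).trans hx
  have h2 : |Real.exp x - 1| ≤ |x| * Real.exp |x| := by
    rcases le_total 0 x with h | h
    · rw [abs_of_nonneg h, abs_of_nonneg (by have := Real.add_one_le_exp x; linarith)]
      have := Real.one_sub_le_exp_neg x
      have h3 : Real.exp x * Real.exp (-x) = 1 := by rw [← Real.exp_add]; simp
      nlinarith [Real.exp_pos x]
    · rw [abs_of_nonpos h, abs_of_nonpos (by
        have := Real.exp_le_one_iff.mpr h; linarith)]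
      have h3 := Real.add_one_le_exp x
      have h4 : 1 ≤ Real.exp (-x) := Real.one_le_exp (by linarith)
      nlinarith
  exact h2.trans (mul_le_mul hx (Real.exp_le_exp.mpr hx) (Real.exp_pos _).le hb)

theorem Lim.R0_lower (v : F →+* ℝ) (a : Fin 2 → F) (m : ℝ) (hm : ∀ i, m ≤ |v (a i)|)
    (x : Fin 2 → ℝ) : m * ∑ i, x i ^ 2 ≤ ∑ i, ∑ j, R0 a v i j * (x i * x j) := by
  simp only [R0, Fin.sum_univ_two, Matrix.diagonal_apply]
  have h0 := hm 0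
  have h1 := hm 1
  simp
  nlinarith [mul_nonneg (sub_nonneg.mpr h0) (sq_nonneg (x 0)),
    mul_nonneg (sub_nonneg.mpr h1) (sq_nonneg (x 1))]

/-- row LIM -/
theorem lim (est : EST) : LIM := by
  intro F _ _ _ v₁ D h a N φ C ε hg ha hφ hC hCb hε
  classical
  obtain ⟨B, hB0, hB⟩ := Lim.bdd N φ hφ
  obtain ⟨μ, hμ, hD, hh⟩ := Lim.exists_mu v₁ D h hg
  obtain ⟨_, _, _, _, hest⟩ := est (ev v₁ h) (hg.h0 v₁) (hg.h1 v₁) hg.h3
  obtain ⟨c, hc, c', hc', hE, hE'⟩ := hest C hC hCb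
  have ha0 : ∀ i, a i ≠ 0 := by
    intro i hi
    have := ha i
    rw [hi, map_zero] at this
    exact lt_irrefl _ this
  obtain ⟨m, hm, hm'⟩ := Dom.exists_pos_le (fun p : (F →+* ℝ) × Fin 2 => |p.1 (a p.2)|)
    (fun p => abs_pos.mpr ((map_ne_zero p.1).mpr (ha0 p.2)))
  obtain ⟨M₁, hM₁0, hM₁⟩ := Lim.exists_up (fun v : F →+* ℝ => 1 / √(v D))
  obtain ⟨M₂, hM₂0, hM₂⟩ := Lim.exists_up (fun p : (F →+* ℝ) × Fin 3 => |p.1 (h p.2)|)
  set c₁ : ℝ := Real.pi * (μ * (m * min c μ)) with hc₁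
  have hc₁0 : 0 < c₁ := by
    have : 0 < min c μ := lt_min hc hμ
    have := Real.pi_pos
    positivity
  set K : ℝ := Real.pi * (M₁ * (2 * M₂)) with hK
  have hK0 : 0 < K := by have := Real.pi_pos; positivity
  set T : ℝ := ∑' ξ, Dom.maj F N (c₁ / 2) 2 ξ with hT
  have hT0 : 0 ≤ T := tsum_nonneg (fun ξ => Dom.maj_nonneg _ _ _ ξ)
  have hN : 0 < N := hφ.1
  have hsumT := Dom.summable_maj (F := F) N hN (c₁ / 2) (by positivity) 2
  refine ⟨min (c₁ / (2 * K)) (ε / (B * K * c' ^ 2 * T + 1)), lt_min (by positivity)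
    (by positivity), ?_⟩
  intro R _ hR1 hRδ y hy
  set δ : ℝ := min (c₁ / (2 * K)) (ε / (B * K * c' ^ 2 * T + 1)) with hδ
  have hδ0 : 0 < δ := lt_min (by positivity) (by positivity)
  have hKδ : K * δ ≤ c₁ / 2 := by
    have : δ ≤ c₁ / (2 * K) := min_le_left _ _
    calc K * δ ≤ K * (c₁ / (2 * K)) := mul_le_mul_of_nonneg_left this hK0.le
      _ = c₁ / 2 := by field_simp
  have hterm0 : ∀ ξ, ‖φ ξ * gauss2 v₁ D h a (R0 a) ξ y * Del (ev v₁ h) (fun i => ev v₁ (ξ i)) y‖ ≤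
      B * c' ^ 2 * Dom.maj F N c₁ 1 ξ := fun ξ =>
    Dom.term_le v₁ D h a (R0 a) N φ hφ B hB0 hB ξ y m c c' μ hm hμ hc hD hh
      (fun v _ x => Lim.R0_lower v a m (fun i => hm' (v, i)) x) rfl
      (fun i => by
        have := hm' (v₁, i)
        rwa [abs_of_pos (ha i)] at this) (hE y hy) (hE' y hy)
  have hsum0 : Summable (fun ξ => φ ξ * gauss2 v₁ D h a (R0 a) ξ y *
      Del (ev v₁ h) (fun i => ev v₁ (ξ i)) y) :=
    Summable.of_norm_bounded ((Dom.summable_maj (F := F) N hN c₁ hc₁0 1).mul_left _) hterm0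
  have hdiff : ∀ ξ, ‖φ ξ * gauss2 v₁ D h a R ξ y * Del (ev v₁ h) (fun i => ev v₁ (ξ i)) y -
      φ ξ * gauss2 v₁ D h a (R0 a) ξ y * Del (ev v₁ h) (fun i => ev v₁ (ξ i)) y‖ ≤
      δ * (B * K * c' ^ 2) * Dom.maj F N (c₁ / 2) 2 ξ := by
    intro ξ
    by_cases h0 : φ ξ = 0
    · rw [h0]
      have := Dom.maj_nonneg (F := F) N (c₁ / 2) 2 ξ
      simp only [zero_mul, sub_zero, norm_zero]
      positivity
    have hint := hφ.2.1 ξ h0
    have h1 := Dom.gauss_le v₁ D h a (R0 a) ξ y m c μ hm hμ hc hD hh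
      (fun v _ x => Lim.R0_lower v a m (fun i => hm' (v, i)) x) rfl
      (fun i => by
        have := hm' (v₁, i)
        rwa [abs_of_pos (ha i)] at this) (hE y hy)
    have h2 := Dom.del_le (ev v₁ h) c' y (hE' y hy) (fun i => ev v₁ (ξ i))
    have h3 : ∑ i, ∑ l, ev v₁ (ξ i) l ^ 2 ≤ Dom.q2 ξ := by
      rw [Dom.q2]
      exact Finset.single_le_sum (f := fun v : F →+* ℝ => ∑ i, ∑ l, v (ξ i l) ^ 2)
        (fun _ _ => Finset.sum_nonneg (fun _ _ => Finset.sum_nonneg (fun _ _ => sq_nonneg _)))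
        (Finset.mem_univ v₁)
    have hq := Dom.q2_nonneg ξ
    have h4 : ‖Del (ev v₁ h) (fun i => ev v₁ (ξ i)) y‖ ≤ c' ^ 2 * (1 + Dom.q2 ξ) := by
      refine h2.trans (mul_le_mul_of_nonneg_left ?_ (sq_nonneg _))
      linarith
    have h5 := Lim.dx_le D h a R ξ M₁ M₂ δ hδ0.le hM₁ hM₁0.le hM₂0.le (fun v l => hM₂ (v, l)) hRδ
    have h6 := Lim.exp_sub_one _ _ h5
    have h7 : φ ξ * gauss2 v₁ D h a R ξ y * Del (ev v₁ h) (fun i => ev v₁ (ξ i)) y -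
      φ ξ * gauss2 v₁ D h a (R0 a) ξ y * Del (ev v₁ h) (fun i => ev v₁ (ξ i)) y =
      φ ξ * gauss2 v₁ D h a (R0 a) ξ y * (exp ((Lim.dx D h a R ξ : ℝ) : ℂ) - 1) *
        Del (ev v₁ h) (fun i => ev v₁ (ξ i)) y := by
      rw [Lim.gauss_eq v₁ D h a R ξ y]; ring
    rw [h7, norm_mul, norm_mul, norm_mul, Dom.maj, if_pos hint]
    have h8 : ‖gauss2 v₁ D h a (R0 a) ξ y‖ * ‖exp ((Lim.dx D h a R ξ : ℝ) : ℂ) - 1‖ ≤
        δ * K * (1 + Dom.q2 ξ) * Real.exp (-(c₁ / 2 * Dom.q2 ξ)) := by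
      calc _ ≤ Real.exp (-(c₁ * Dom.q2 ξ)) *
            ((K * δ * Dom.q2 ξ) * Real.exp (K * δ * Dom.q2 ξ)) :=
            mul_le_mul h1 h6 (norm_nonneg _) (Real.exp_pos _).le
        _ = (K * δ * Dom.q2 ξ) * Real.exp (-(c₁ * Dom.q2 ξ) + K * δ * Dom.q2 ξ) := by
            rw [Real.exp_add]; ring
        _ ≤ (K * δ * (1 + Dom.q2 ξ)) * Real.exp (-(c₁ / 2 * Dom.q2 ξ)) := by
            apply mul_le_mul _ _ (Real.exp_pos _).le (by positivity)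
            · apply mul_le_mul_of_nonneg_left _ (by positivity)
              linarith
            · rw [Real.exp_le_exp]
              nlinarith
        _ = _ := by ring
    calc ‖φ ξ‖ * ‖gauss2 v₁ D h a (R0 a) ξ y‖ * ‖exp ((Lim.dx D h a R ξ : ℝ) : ℂ) - 1‖ *
          ‖Del (ev v₁ h) (fun i => ev v₁ (ξ i)) y‖
        = ‖φ ξ‖ * (‖gauss2 v₁ D h a (R0 a) ξ y‖ * ‖exp ((Lim.dx D h a R ξ : ℝ) : ℂ) - 1‖) *
          ‖Del (ev v₁ h) (fun i => ev v₁ (ξ i)) y‖ := by ring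
      _ ≤ B * (δ * K * (1 + Dom.q2 ξ) * Real.exp (-(c₁ / 2 * Dom.q2 ξ))) *
          (c' ^ 2 * (1 + Dom.q2 ξ)) := by
          apply mul_le_mul (mul_le_mul (hB ξ) h8 (by positivity) hB0) h4 (norm_nonneg _)
          positivity
      _ = _ := by ring
  have hsumd := Summable.of_norm_bounded (hsumT.mul_left (δ * (B * K * c' ^ 2))) hdiff
  have hsumR : Summable (fun ξ => φ ξ * gauss2 v₁ D h a R ξ y *
      Del (ev v₁ h) (fun i => ev v₁ (ξ i)) y) := by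
    refine (hsumd.add hsum0).congr ?_
    intro ξ
    ring
  rw [CR, CR, ← hsumR.tsum_sub hsum0]
  have h9 := tsum_of_norm_bounded ((hsumT.hasSum).mul_left (δ * (B * K * c' ^ 2))) hdiff
  refine h9.trans ?_
  rw [← hT]
  have h10 : δ ≤ ε / (B * K * c' ^ 2 * T + 1) := min_le_right _ _
  have h11 : δ * (B * K * c' ^ 2 * T + 1) ≤ ε := by
    rwa [le_div_iff₀ (by positivity)] at h10
  nlinarith [hδ0]

end

end Pool.Agent.CMH
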