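import Pool.Agent.Lib.CMH.Sum2
import Pool.Agent.Lib.CMH.NVa

set_option autoImplicit false

/-!
# CMH, row NV (helper18): non-vanishing
-/

namespace Pool.Agent.CMH

theorem nv : NV := NVa.nv_of sum2

end Pool.Agent.CMH
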