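import Pool.Agent.Lib.CMH.WDefs

/-! TANK CMH, row PAIR: the abstract pairing theorem.  helper89. -/

set_option autoImplicit false

namespace Pool.Agent.CMH

open MeasureTheory Filter Topology ComplexConjugate

noncomputable section

section

variable {X : Type} [TopologicalSpace X] [T2Space X] [MeasurableSpace X] [BorelSpace X]
  (μ : Measure X) [IsFiniteMeasureOnCompacts μ]

theorem supp_mul {χ : X → ℝ} (hs : HasCompactSupport χ) (f : X → ℂ) :
    HasCompactSupport (fun x => (χ x : ℂ) * f x) := by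
  have h1 : HasCompactSupport (fun x => (χ x : ℂ)) :=
    hs.comp_left (g := fun r : ℝ => (r : ℂ)) Complex.ofReal_zero
  exact h1.mul_right

theorem integrable_wt {χ : X → ℝ} (hc : Continuous χ) (hs : HasCompactSupport χ) {f : X → ℂ}
    (hf : Continuous f) : Integrable (fun x => (χ x : ℂ) * f x) μ :=
  ((Complex.continuous_ofReal.comp hc).mul hf).integrable_of_hasCompactSupport (supp_mul hs f)

theorem tendsto_pairing {χ : X → ℝ} (hc : Continuous χ) (hs : HasCompactSupport χ) {w : X → ℝ}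
    (hw : Continuous w) {A : X → ℂ} (hA : Continuous A) {B : ℕ → X → ℂ}
    (hB : ∀ j, Continuous (B j)) (hlim : ∀ x, Tendsto (fun j => B j x) atTop (𝓝 (A x)))
    (hbd : ∀ K : Set X, IsCompact K → ∃ M : ℝ, ∀ j, ∀ x ∈ K, ‖B j x‖ ≤ M) :
    Tendsto (fun j => ∫ x, (χ x : ℂ) * (A x * conj (B j x) * (w x : ℂ)) ∂μ) atTop
      (𝓝 (∫ x, (χ x : ℂ) * (A x * conj (A x) * (w x : ℂ)) ∂μ)) := by
  obtain ⟨M, hM⟩ := hbd (tsupport χ) hs
  have hM' : ∀ j x, χ x ≠ 0 → ‖B j x‖ ≤ M := fun j x hx => hM j x (subset_tsupport χ hx)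
  refine tendsto_integral_of_dominated_convergence (fun x => ‖(χ x : ℂ) * ((M : ℂ) * A x * (w x : ℂ))‖)
    ?_ ?_ ?_ ?_
  · intro j
    exact (((Complex.continuous_ofReal.comp hc).mul ((hA.mul (Complex.continuous_conj.comp
      (hB j))).mul (Complex.continuous_ofReal.comp hw))).integrable_of_hasCompactSupport
      (supp_mul hs _)).aestronglyMeasurable
  · exact (integrable_wt μ hc hs ((continuous_const.mul hA).mul
      (Complex.continuous_ofReal.comp hw))).norm
  · intro j
    refine Eventually.of_forall fun x => ?_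
    by_cases hx : χ x = 0
    · simp [hx]
    · have h1 := hM' j x hx
      have h2 : ‖B j x‖ ≤ ‖(M : ℂ)‖ := by
        rw [Complex.norm_real, Real.norm_eq_abs]
        exact h1.trans (le_abs_self M)
      rw [norm_mul, norm_mul, norm_mul, norm_mul, norm_mul, norm_mul, RCLike.norm_conj]
      refine mul_le_mul_of_nonneg_left ?_ (norm_nonneg _)
      refine mul_le_mul_of_nonneg_right ?_ (norm_nonneg _)
      rw [mul_comm]
      exact mul_le_mul_of_nonneg_right h2 (norm_nonneg _)
  · refine Eventually.of_forall fun x => ?_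
    exact (((Complex.continuous_conj.tendsto _).comp (hlim x)).const_mul (A x)).mul_const _
      |>.const_mul _

end

/-- **Row PAIR.** -/
theorem exists_term (hI : WgtIndep) (hS : WgtSub) (hP : WgtPos) {G X : Type} [Group G]
    [Countable G] [TopologicalSpace X] [T2Space X] [LocallyCompactSpace X]
    [SecondCountableTopology X] [MeasurableSpace X] [BorelSpace X] [MulAction G X]
    [ContinuousConstSMul G X] (μ : Measure X) [IsFiniteMeasureOnCompacts μ]
    [μ.IsOpenPosMeasure] [SMulInvariantMeasure G X μ] (hPD : PDisc G X)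
    {χ : X → ℝ} (hχ : IsWeight G χ) (J : G → X → ℂ) (w : X → ℝ) (hw : Continuous w)
    (hw0 : ∀ x, 0 < w x) (hwJ : ∀ (g : G) x, w (g • x) = w x * ‖J g x‖ ^ 2)
    (A : X → ℂ) (hA : Continuous A) (hAJ : ∀ (g : G) x, A (g • x) * J g x = A x) {x0 : X}
    (hx0 : A x0 ≠ 0) (B : ℕ → X → ℂ) (hB : ∀ j, Continuous (B j))
    (hBJ : ∀ j, ∀ (g : G) x, B j (g • x) * J g x = B j x)
    (hlim : ∀ x, Tendsto (fun j => B j x) atTop (𝓝 (A x)))
    (hbd : ∀ K : Set X, IsCompact K → ∃ M : ℝ, ∀ j, ∀ x ∈ K, ‖B j x‖ ≤ M) :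
    ∃ j, ∀ (H : Subgroup G) [H.FiniteIndex] (χ' : X → ℝ), IsWeight H χ' →
      ∀ {ι : Type} (s : Finset ι) (b : ι → X → ℂ), (∀ i ∈ s, Continuous (b i)) →
      (∀ x, B j x = ∑ i ∈ s, b i x) →
      ∃ i ∈ s, ∫ x, (χ' x : ℂ) * (A x * conj (b i x) * (w x : ℂ)) ∂μ ≠ 0 := by
  classical
  have hlimI := tendsto_pairing μ hχ.cont hχ.supp hw hA hB hlim hbd
  -- positivity of the limit
  have hpos : ∫ x, (χ x : ℂ) * (A x * conj (A x) * (w x : ℂ)) ∂μ ≠ 0 := by
    have h1 := hP G X μ χ hχ (fun x => ‖A x‖ ^ 2 * w x) ((hA.norm.pow 2).mul hw)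
      (fun x => mul_nonneg (by positivity) (hw0 x).le) (fun g x hx => by
        have h2 : A x ≠ 0 := fun h => hx (by simp [h])
        have h3 : A (g • x) ≠ 0 := fun h => h2 (by rw [← hAJ g x, h, zero_mul])
        exact mul_ne_zero (pow_ne_zero 2 (norm_ne_zero_iff.2 h3)) (hw0 _).ne') x0
      (mul_ne_zero (pow_ne_zero 2 (norm_ne_zero_iff.2 hx0)) (hw0 _).ne')
    have h2 : ∫ x, (χ x : ℂ) * (A x * conj (A x) * (w x : ℂ)) ∂μ =
        ((∫ x, χ x * (‖A x‖ ^ 2 * w x) ∂μ : ℝ) : ℂ) := by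
      rw [← integral_complex_ofReal]
      refine integral_congr_ae (Eventually.of_forall fun x => ?_)
      simp only
      rw [Complex.mul_conj, Complex.normSq_eq_norm_sq]
      push_cast
      ring
    rw [h2]
    exact_mod_cast h1.ne'
  obtain ⟨j, hj⟩ := (hlimI.eventually_ne hpos).exists
  refine ⟨j, fun H _ χ' hχ' ι s b hb hsum => ?_⟩
  by_contra hcon
  push Not at hcon
  set f : X → ℂ := fun x => A x * conj (B j x) * (w x : ℂ) with hf
  have hfc : Continuous f := (hA.mul (Complex.continuous_conj.comp (hB j))).mul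
    (Complex.continuous_ofReal.comp hw)
  have hfinv : ∀ (g : G) x, f (g • x) = f x := by
    intro g x
    simp only [hf]
    rw [hwJ g x]
    conv_rhs => rw [← hAJ g x, ← hBJ j g x]
    rw [map_mul]
    have h1 : ((‖J g x‖ ^ 2 : ℝ) : ℂ) = J g x * conj (J g x) := by
      rw [Complex.mul_conj, Complex.normSq_eq_norm_sq]
    rw [Complex.ofReal_mul, h1]
    ring
  have hind : (H.index : ℝ) ≠ 0 := by exact_mod_cast Subgroup.FiniteIndex.index_ne_zero
  have h1 := hI G X μ hPD _ _ (hS G X H χ' hχ') hχ f hfc hfinv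
  have h2 : ∫ x, ((χ' x / (H.index : ℝ) : ℝ) : ℂ) * f x ∂μ =
      (1 / (H.index : ℂ)) * ∫ x, (χ' x : ℂ) * f x ∂μ := by
    rw [← integral_const_mul]
    refine integral_congr_ae (Eventually.of_forall fun x => ?_)
    simp only
    push_cast
    ring
  have h3 : ∫ x, (χ' x : ℂ) * f x ∂μ =
      ∑ i ∈ s, ∫ x, (χ' x : ℂ) * (A x * conj (b i x) * (w x : ℂ)) ∂μ := by
    rw [← integral_finset_sum]
    · refine integral_congr_ae (Eventually.of_forall fun x => ?_)
      simp only [hf]
      rw [hsum x, map_sum, Finset.mul_sum, Finset.sum_mul, Finset.mul_sum]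
    · intro i hi
      exact integrable_wt μ hχ'.cont hχ'.supp ((hA.mul (Complex.continuous_conj.comp
        (hb i hi))).mul (Complex.continuous_ofReal.comp hw))
  rw [Finset.sum_eq_zero hcon] at h3
  rw [h2, h3, mul_zero] at h1
  exact hj h1.symm

end

end Pool.Agent.CMH
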