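import Pool.Agent.Lib.CMH.Rows

/-! # TANK CMH, row RT: the majorant `Rt`.  helper26. -/

set_option autoImplicit false

open Filter Topology

namespace Pool.Agent.CMH

namespace RtRow

/-- the real matrix behind `Rt`. -/
noncomputable def M (α β t : ℝ) : Matrix (Fin 2) (Fin 2) ℝ :=
  (1 / |α + β * t ^ 2|) •
    !![α ^ 2 + |α * β| * t ^ 2, (α * β - |α * β|) * t;
       (α * β - |α * β|) * t, β ^ 2 * t ^ 2 + |α * β|]

theorem smul_diag {c x y : ℝ} (hc : c ≠ 0) :
    (1 / c) • (!![c * x, 0; 0, c * y] : Matrix (Fin 2) (Fin 2) ℝ) = Matrix.diagonal ![x, y] := by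
  ext i j
  fin_cases i <;> fin_cases j <;> simp [hc]

theorem M_pos {α β t : ℝ} (h : 0 < α * β) (hd : α + β * t ^ 2 ≠ 0) :
    M α β t = Matrix.diagonal ![|α|, |β|] := by
  have ht := sq_nonneg t
  have e : |α * β| = α * β := abs_of_pos h
  unfold M
  rw [e]
  rcases mul_pos_iff.1 h with ⟨h1, h2⟩ | ⟨h1, h2⟩
  · have hp : 0 < α + β * t ^ 2 := by positivity
    rw [abs_of_pos hp, abs_of_pos h1, abs_of_pos h2, ← smul_diag hd]
    congr 2
    ext i j
    fin_cases i <;> fin_cases j <;> simp <;> ring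
  · have hp : α + β * t ^ 2 < 0 := by nlinarith
    have hn : -(α + β * t ^ 2) ≠ 0 := neg_ne_zero.2 hd
    rw [abs_of_neg hp, abs_of_neg h1, abs_of_neg h2, ← smul_diag hn]
    congr 2
    ext i j
    fin_cases i <;> fin_cases j <;> simp <;> ring

theorem posDef_diag {α β : ℝ} (hα : α ≠ 0) (hβ : β ≠ 0) :
    (Matrix.diagonal ![|α|, |β|] : Matrix (Fin 2) (Fin 2) ℝ).PosDef := by
  rw [Matrix.posDef_diagonal_iff]
  intro i
  fin_cases i
  · exact abs_pos.2 hα
  · exact abs_pos.2 hβ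

theorem posDef_two {p q r : ℝ} (hp : 0 < p) (hd : 0 < p * r - q ^ 2) :
    (!![p, q; q, r] : Matrix (Fin 2) (Fin 2) ℝ).PosDef := by
  refine Matrix.PosDef.of_dotProduct_mulVec_pos ?_ ?_
  · ext i j
    fin_cases i <;> fin_cases j <;> simp
  · intro x hx
    have e : star x ⬝ᵥ (!![p, q; q, r] : Matrix (Fin 2) (Fin 2) ℝ).mulVec x =
        p * x 0 ^ 2 + 2 * q * x 0 * x 1 + r * x 1 ^ 2 := by
      simp [Matrix.mulVec, dotProduct, Fin.sum_univ_two]
      ring
    rw [e]
    have e2 : p * (p * x 0 ^ 2 + 2 * q * x 0 * x 1 + r * x 1 ^ 2) =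
        (p * x 0 + q * x 1) ^ 2 + (p * r - q ^ 2) * x 1 ^ 2 := by ring
    have h3 : 0 < p * (p * x 0 ^ 2 + 2 * q * x 0 * x 1 + r * x 1 ^ 2) := by
      rw [e2]
      by_cases h1 : x 1 = 0
      · have h0 : x 0 ≠ 0 := by
          intro h0
          apply hx
          ext i
          fin_cases i
          · exact h0
          · exact h1
        rw [h1]
        have : 0 < (p * x 0) ^ 2 := by positivity
        simpa using this
      · have h4 : 0 < (p * r - q ^ 2) * x 1 ^ 2 := by positivity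
        have h5 := sq_nonneg (p * x 0 + q * x 1)
        linarith
    exact (mul_pos_iff_of_pos_left hp).1 h3

theorem M_symm_isMaj {α β t : ℝ} (hα : α ≠ 0) (hβ : β ≠ 0) (hd : α + β * t ^ 2 ≠ 0) :
    (M α β t).PosDef ∧
      M α β t * Matrix.diagonal ![α⁻¹, β⁻¹] * M α β t = Matrix.diagonal ![α, β] := by
  rcases lt_or_gt_of_ne (mul_ne_zero hα hβ) with h | h
  · -- indefinite
    have e : |α * β| = -(α * β) := abs_of_neg h
    have hD : 0 < |α + β * t ^ 2| := abs_pos.2 hd
    have hD2 : |α + β * t ^ 2| ^ 2 = (α + β * t ^ 2) ^ 2 := sq_abs _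
    constructor
    · unfold M
      rw [e]
      have h1 : (1 / |α + β * t ^ 2|) • (!![α ^ 2 + -(α * β) * t ^ 2, (α * β - -(α * β)) * t;
          (α * β - -(α * β)) * t, β ^ 2 * t ^ 2 + -(α * β)] : Matrix (Fin 2) (Fin 2) ℝ) =
          !![(α ^ 2 + -(α * β) * t ^ 2) / |α + β * t ^ 2|, 2 * (α * β) * t / |α + β * t ^ 2|;
            2 * (α * β) * t / |α + β * t ^ 2|, (β ^ 2 * t ^ 2 + -(α * β)) / |α + β * t ^ 2|] := by
        ext i j
        fin_cases i <;> fin_cases j <;> simp <;> ring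
      rw [h1]
      apply posDef_two
      · have h2 : 0 < α ^ 2 + -(α * β) * t ^ 2 := by
          have h3 : 0 < α ^ 2 := by positivity
          have h4 : 0 ≤ -(α * β) * t ^ 2 := mul_nonneg (by linarith) (sq_nonneg t)
          linarith
        positivity
      · have e3 : (α ^ 2 + -(α * β) * t ^ 2) / |α + β * t ^ 2| *
            ((β ^ 2 * t ^ 2 + -(α * β)) / |α + β * t ^ 2|) -
            (2 * (α * β) * t / |α + β * t ^ 2|) ^ 2 = -(α * β) := by
          rw [div_mul_div_comm, div_pow, ← sq, ← sub_div, hD2]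
          have h5 : (α + β * t ^ 2) ^ 2 ≠ 0 := pow_ne_zero 2 hd
          rw [div_eq_iff h5]
          ring
        rw [e3]
        linarith
    · unfold M
      rw [e, Matrix.smul_mul, Matrix.smul_mul, Matrix.mul_smul, smul_smul]
      have e4 : 1 / |α + β * t ^ 2| * (1 / |α + β * t ^ 2|) = 1 / (α + β * t ^ 2) ^ 2 := by
        rw [div_mul_div_comm, one_mul, ← sq, hD2]
      rw [e4]
      have h5 : (α + β * t ^ 2) ^ 2 ≠ 0 := pow_ne_zero 2 hd
      have hdg : (Matrix.diagonal ![α⁻¹, β⁻¹] : Matrix (Fin 2) (Fin 2) ℝ) = !![α⁻¹, 0; 0, β⁻¹] := by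
        ext i j
        fin_cases i <;> fin_cases j <;> simp
      rw [hdg, ← smul_diag h5]
      congr 1
      rw [Matrix.mul_fin_two, Matrix.mul_fin_two]
      have g1 : ((α ^ 2 + -(α * β) * t ^ 2) * α⁻¹ + (α * β - -(α * β)) * t * 0) *
          (α ^ 2 + -(α * β) * t ^ 2) + ((α ^ 2 + -(α * β) * t ^ 2) * 0 +
            (α * β - -(α * β)) * t * β⁻¹) * ((α * β - -(α * β)) * t) =
          (α + β * t ^ 2) ^ 2 * α := by
        field_simp
        ring
      have g2 : ((α ^ 2 + -(α * β) * t ^ 2) * α⁻¹ + (α * β - -(α * β)) * t * 0) *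
          ((α * β - -(α * β)) * t) + ((α ^ 2 + -(α * β) * t ^ 2) * 0 +
            (α * β - -(α * β)) * t * β⁻¹) * (β ^ 2 * t ^ 2 + -(α * β)) = 0 := by
        have w1 : α * α⁻¹ = 1 := mul_inv_cancel₀ hα
        have w2 : β * β⁻¹ = 1 := mul_inv_cancel₀ hβ
        linear_combination (2 * α * β * t * (α - β * t ^ 2)) * w1 +
          (2 * α * β * t * (β * t ^ 2 - α)) * w2
      have g3 : ((α * β - -(α * β)) * t * α⁻¹ + (β ^ 2 * t ^ 2 + -(α * β)) * 0) *
          (α ^ 2 + -(α * β) * t ^ 2) + ((α * β - -(α * β)) * t * 0 +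
            (β ^ 2 * t ^ 2 + -(α * β)) * β⁻¹) * ((α * β - -(α * β)) * t) = 0 := by
        have w1 : α * α⁻¹ = 1 := mul_inv_cancel₀ hα
        have w2 : β * β⁻¹ = 1 := mul_inv_cancel₀ hβ
        linear_combination (2 * α * β * t * (α - β * t ^ 2)) * w1 +
          (2 * α * β * t * (β * t ^ 2 - α)) * w2
      have g4 : ((α * β - -(α * β)) * t * α⁻¹ + (β ^ 2 * t ^ 2 + -(α * β)) * 0) *
          ((α * β - -(α * β)) * t) + ((α * β - -(α * β)) * t * 0 +
            (β ^ 2 * t ^ 2 + -(α * β)) * β⁻¹) * (β ^ 2 * t ^ 2 + -(α * β)) =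
          (α + β * t ^ 2) ^ 2 * β := by
        field_simp
        ring
      rw [g1, g2, g3, g4]
  · rw [M_pos h hd]
    refine ⟨posDef_diag hα hβ, ?_⟩
    have h1 : |α| * α⁻¹ * |α| = α := by
      have : |α| * |α| = α * α := abs_mul_abs_self α
      field_simp
      linarith [this, sq_abs α]
    have h2 : |β| * β⁻¹ * |β| = β := by
      field_simp
      linarith [sq_abs β]
    rw [Matrix.diagonal_mul_diagonal, Matrix.diagonal_mul_diagonal]
    congr 1
    ext i
    fin_cases i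
    · exact h1
    · exact h2

/-- continuity at `0`. -/
theorem near0 (p q q' r s : ℝ) (hr : r ≠ 0) {ε : ℝ} (hε : 0 < ε) : ∃ η : ℝ, 0 < η ∧ ∀ x : ℝ,
    |x| < η → abs ((p + q * x + q' * x ^ 2) / abs (r + s * x ^ 2) - p / abs r) ≤ ε := by
  have h1 : ContinuousAt (fun x : ℝ => (p + q * x + q' * x ^ 2) / |r + s * x ^ 2|) 0 := by
    refine ContinuousAt.div (by fun_prop) (by fun_prop) ?_
    simpa using hr
  obtain ⟨η, hη, h⟩ := Metric.continuousAt_iff.1 h1 ε hε
  refine ⟨η, hη, fun x hx => ?_⟩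
  have h2 := h (x := x) (by simpa [Real.dist_eq] using hx)
  rw [Real.dist_eq] at h2
  simpa using h2.le

theorem near {α β : ℝ} (hα : α ≠ 0) (hβ : β ≠ 0) {ε : ℝ} (hε : 0 < ε) : ∃ δ : ℝ, 0 < δ ∧
    ∀ t : ℝ, α + β * t ^ 2 ≠ 0 → (α * β < 0 → t ^ 2 < δ ∨ 1 / δ < t ^ 2) →
      ∀ i j, |M α β t i j - (Matrix.diagonal ![|α|, |β|] : Matrix (Fin 2) (Fin 2) ℝ) i j| ≤ ε := by
  rcases lt_or_gt_of_ne (mul_ne_zero hα hβ) with h | h
  · obtain ⟨η1, k1, l1⟩ := near0 (α ^ 2) 0 |α * β| α β hα hε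
    obtain ⟨η2, k2, l2⟩ := near0 0 (α * β - |α * β|) 0 α β hα hε
    obtain ⟨η3, k3, l3⟩ := near0 |α * β| 0 (β ^ 2) α β hα hε
    obtain ⟨η4, k4, l4⟩ := near0 |α * β| 0 (α ^ 2) β α hβ hε
    obtain ⟨η5, k5, l5⟩ := near0 0 (α * β - |α * β|) 0 β α hβ hε
    obtain ⟨η6, k6, l6⟩ := near0 (β ^ 2) 0 |α * β| β α hβ hε
    obtain ⟨η, hη, m1, m2, m3, m4, m5, m6⟩ : ∃ η : ℝ, 0 < η ∧ η ≤ η1 ∧ η ≤ η2 ∧ η ≤ η3 ∧ η ≤ η4 ∧
        η ≤ η5 ∧ η ≤ η6 := by
      refine ⟨min (min (min η1 η2) (min η3 η4)) (min η5 η6), by positivity, ?_, ?_, ?_, ?_, ?_, ?_⟩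
      · exact (min_le_left _ _).trans ((min_le_left _ _).trans (min_le_left _ _))
      · exact (min_le_left _ _).trans ((min_le_left _ _).trans (min_le_right _ _))
      · exact (min_le_left _ _).trans ((min_le_right _ _).trans (min_le_left _ _))
      · exact (min_le_left _ _).trans ((min_le_right _ _).trans (min_le_right _ _))
      · exact (min_le_right _ _).trans (min_le_left _ _)
      · exact (min_le_right _ _).trans (min_le_right _ _)
    have e1 : α ^ 2 / |α| = |α| := by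
      have : |α| ≠ 0 := abs_ne_zero.2 hα
      field_simp
      exact (sq_abs α).symm
    have e2 : |α * β| / |α| = |β| := by
      have : |α| ≠ 0 := abs_ne_zero.2 hα
      rw [abs_mul]
      field_simp
    have e3 : |α * β| / |β| = |α| := by
      have : |β| ≠ 0 := abs_ne_zero.2 hβ
      rw [abs_mul]
      field_simp
    have e4 : β ^ 2 / |β| = |β| := by
      have : |β| ≠ 0 := abs_ne_zero.2 hβ
      field_simp
      exact (sq_abs β).symm
    refine ⟨η ^ 2, by positivity, fun t hd ht => ?_⟩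
    rcases ht h with ht | ht
    · have hx : |t| < η := abs_lt_of_sq_lt_sq ht hη.le
      have j1 := l1 t (hx.trans_le m1)
      have j2 := l2 t (hx.trans_le m2)
      have j3 := l3 t (hx.trans_le m3)
      rw [e1] at j1
      rw [e2] at j3
      rw [zero_div, sub_zero] at j2
      have o1 : M α β t 0 0 = (α ^ 2 + 0 * t + |α * β| * t ^ 2) / |α + β * t ^ 2| := by
        simp [M]
        ring
      have o2 : M α β t 0 1 = (0 + (α * β - |α * β|) * t + 0 * t ^ 2) / |α + β * t ^ 2| := by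
        simp [M]
        ring
      have o3 : M α β t 1 0 = (0 + (α * β - |α * β|) * t + 0 * t ^ 2) / |α + β * t ^ 2| := by
        simp [M]
        ring
      have o4 : M α β t 1 1 = (|α * β| + 0 * t + β ^ 2 * t ^ 2) / |α + β * t ^ 2| := by
        simp [M]
        ring
      intro i j
      fin_cases i <;> fin_cases j
      · change abs (M α β t 0 0 - abs α) ≤ ε
        rw [o1]
        exact j1
      · change |M α β t 0 1 - 0| ≤ ε
        rw [o2, sub_zero]
        exact j2
      · change |M α β t 1 0 - 0| ≤ ε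
        rw [o3, sub_zero]
        exact j2
      · change abs (M α β t 1 1 - abs β) ≤ ε
        rw [o4]
        exact j3
    · have ht0 : t ≠ 0 := by
        rintro rfl
        have : 0 < 1 / η ^ 2 := by positivity
        rw [zero_pow (by norm_num)] at ht
        linarith
      obtain ⟨u, hu⟩ : ∃ u : ℝ, u = t⁻¹ := ⟨_, rfl⟩
      have htu : t = u⁻¹ := by rw [hu, inv_inv]
      have hu0 : u ≠ 0 := by
        rw [hu]
        exact inv_ne_zero ht0
      have hx : |u| < η := by
        apply abs_lt_of_sq_lt_sq _ hη.le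
        rw [hu, inv_pow]
        rw [div_lt_iff₀ (by positivity)] at ht
        rw [inv_lt_iff_one_lt_mul₀ (by positivity)]
        linarith
      have hD : |α + β * t ^ 2| = |β + α * u ^ 2| / u ^ 2 := by
        rw [htu]
        rw [eq_div_iff (by positivity), ← abs_of_nonneg (sq_nonneg u), ← abs_mul]
        congr 1
        rw [abs_of_nonneg (sq_nonneg u)]
        field_simp
        ring
      have hd2 : |β + α * u ^ 2| ≠ 0 := by
        intro h0
        rw [h0, zero_div] at hD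
        exact hd (abs_eq_zero.1 hD)
      have j4 := l4 u (hx.trans_le m4)
      have j5 := l5 u (hx.trans_le m5)
      have j6 := l6 u (hx.trans_le m6)
      rw [e3] at j4
      rw [e4] at j6
      rw [zero_div, sub_zero] at j5
      have o1 : M α β t 0 0 = (|α * β| + 0 * u + α ^ 2 * u ^ 2) / |β + α * u ^ 2| := by
        simp only [M, hD, Matrix.smul_apply, Matrix.of_apply, Matrix.cons_val', Matrix.cons_val_zero,
          Matrix.cons_val_fin_one, smul_eq_mul]
        rw [htu]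
        field_simp
        ring
      have o2 : M α β t 0 1 = (0 + (α * β - |α * β|) * u + 0 * u ^ 2) / |β + α * u ^ 2| := by
        simp only [M, hD, Matrix.smul_apply, Matrix.of_apply, Matrix.cons_val', Matrix.cons_val_zero,
          Matrix.cons_val_one, Matrix.cons_val_fin_one, smul_eq_mul]
        rw [htu]
        field_simp
        ring
      have o3 : M α β t 1 0 = (0 + (α * β - |α * β|) * u + 0 * u ^ 2) / |β + α * u ^ 2| := by
        simp only [M, hD, Matrix.smul_apply, Matrix.of_apply, Matrix.cons_val', Matrix.cons_val_zero,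
          Matrix.cons_val_one, Matrix.cons_val_fin_one, smul_eq_mul]
        rw [htu]
        field_simp
        ring
      have o4 : M α β t 1 1 = (β ^ 2 + 0 * u + |α * β| * u ^ 2) / |β + α * u ^ 2| := by
        simp only [M, hD, Matrix.smul_apply, Matrix.of_apply, Matrix.cons_val',
          Matrix.cons_val_one, Matrix.cons_val_fin_one, smul_eq_mul]
        rw [htu]
        field_simp
        ring
      intro i j
      fin_cases i <;> fin_cases j
      · change abs (M α β t 0 0 - abs α) ≤ ε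
        rw [o1]
        exact j4
      · change |M α β t 0 1 - 0| ≤ ε
        rw [o2, sub_zero]
        exact j5
      · change |M α β t 1 0 - 0| ≤ ε
        rw [o3, sub_zero]
        exact j5
      · change abs (M α β t 1 1 - abs β) ≤ ε
        rw [o4]
        exact j6
  · refine ⟨1, one_pos, fun t hd _ i j => ?_⟩
    rw [M_pos h hd, sub_self, abs_zero]
    exact hε.le

end RtRow

open RtRow in
/-- **ROW RT.** -/
theorem rt : RT := by
  intro F _ _ a ha
  have hne : ∀ (v : F →+* ℝ) i, v (a i) ≠ 0 := fun v i => (map_ne_zero v).2 (ha i)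
  have hd : ∀ (t : F), a 0 + a 1 * t ^ 2 ≠ 0 → ∀ v : F →+* ℝ,
      v (a 0) + v (a 1) * v t ^ 2 ≠ 0 := by
    intro t ht v h
    apply ht
    apply v.injective
    simpa using h
  have hM : ∀ (t : F) (v : F →+* ℝ), Rt a t v = M (v (a 0)) (v (a 1)) (v t) := fun t v => rfl
  have hR : ∀ v : F →+* ℝ, R0 a v = Matrix.diagonal ![|v (a 0)|, |v (a 1)|] := by
    intro v
    unfold R0
    congr 1
    ext i
    fin_cases i <;> rfl
  have hi : ∀ v : F →+* ℝ, (fun i => (v (a i))⁻¹) = ![(v (a 0))⁻¹, (v (a 1))⁻¹] := by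
    intro v
    ext i
    fin_cases i <;> rfl
  have hi2 : ∀ v : F →+* ℝ, (fun i => v (a i)) = ![v (a 0), v (a 1)] := by
    intro v
    ext i
    fin_cases i <;> rfl
  refine ⟨?_, ?_, ?_, ?_⟩
  · intro t ht v
    unfold IsMaj
    rw [hM, hi, hi2]
    exact M_symm_isMaj (hne v 0) (hne v 1) (hd t ht v)
  · intro v
    unfold IsMaj
    rw [hR, hi, hi2]
    refine ⟨posDef_diag (hne v 0) (hne v 1), ?_⟩
    rw [Matrix.diagonal_mul_diagonal, Matrix.diagonal_mul_diagonal]
    congr 1
    ext i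
    have key : ∀ x : ℝ, x ≠ 0 → |x| * x⁻¹ * |x| = x := by
      intro x hx
      field_simp
      linarith [sq_abs x]
    fin_cases i
    · exact key _ (hne v 0)
    · exact key _ (hne v 1)
  · intro t v ht h0 h1
    rw [hM, hR]
    exact M_pos (mul_pos h0 h1) (hd t ht v)
  · intro ε hε
    choose dv hdv1 hdv2 using fun v : F →+* ℝ => near (hne v 0) (hne v 1) hε
    obtain ⟨δ, hδ, hδv⟩ : ∃ δ : ℝ, 0 < δ ∧ ∀ v : F →+* ℝ, δ ≤ dv v := by
      have h1 : ∀ v : F →+* ℝ, ∀ᶠ δ in 𝓝[>] (0 : ℝ), δ ≤ dv v := fun v =>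
        (Ioo_mem_nhdsGT (hdv1 v) : Set.Ioo 0 (dv v) ∈ 𝓝[>] (0 : ℝ)) |> fun h =>
          Filter.mem_of_superset h fun x hx => hx.2.le
      obtain ⟨δ, h3, h4⟩ := ((eventually_all.2 h1).and self_mem_nhdsWithin).exists
      exact ⟨δ, h4, h3⟩
    refine ⟨δ, hδ, fun t ht hN v i j => ?_⟩
    rw [hM, hR]
    refine hdv2 v (v t) (hd t ht v) (fun hneg => ?_) i j
    rcases hN v hneg with h | h
    · exact Or.inl (h.trans_le (hδv v))
    · refine Or.inr (lt_of_le_of_lt ?_ h)
      exact one_div_le_one_div_of_le hδ (hδv v)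

end Pool.Agent.CMH
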