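import Pool.Agent.Lib.CMH.Rows
import Pool.Agent.Lib.CMH.Apx

/-! # TANK CMH, row SIGN: weak approximation.  helper26. -/

set_option autoImplicit false

namespace Pool.Agent.CMH

namespace Sign

variable {F : Type} [Field F] [NumberField F]

open Classical in
theorem exists_signs (P : (F →+* ℝ) → Prop) : ∃ a : F, ∀ v : F →+* ℝ,
    (P v → 1 / 2 < v a) ∧ (¬ P v → v a < -(1 / 2)) ∧ |v a| < 3 / 2 := by
  obtain ⟨a, ha⟩ := Apx.approx (fun v : F →+* ℝ => if P v then (1 : ℝ) else -1) (ε := 1 / 2)
    (by norm_num)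
  refine ⟨a, fun v => ?_⟩
  have := ha v
  rw [abs_lt] at this
  by_cases hv : P v
  · rw [if_pos hv] at this
    refine ⟨fun _ => by linarith [this.1], fun h => absurd hv h, ?_⟩
    rw [abs_lt]
    constructor <;> linarith [this.1, this.2]
  · rw [if_neg hv] at this
    refine ⟨fun h => absurd h hv, fun _ => by linarith [this.2], ?_⟩
    rw [abs_lt]
    constructor <;> linarith [this.1, this.2]

end Sign

open Sign in
/-- **ROW SIGN.** -/
theorem sign : SIGN := by
  classical
  intro F _ _ v₁ Φ₁ Φ₂ Φ₃ Φ₄ h1 h2 h3 h4 hB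
  constructor
  · obtain ⟨c, hc⟩ := exists_signs (F := F) (fun v => v ≠ v₁)
    refine ⟨![1, 1, c], fun v => by simp, fun v => by simp, ?_, ?_⟩
    · intro v hv
      have := (hc v).1 hv
      simp only [Matrix.cons_val]
      linarith
    · have := (hc v₁).2.1 (by simp)
      simp only [Matrix.cons_val]
      linarith
  · obtain ⟨a0, ha0⟩ := exists_signs (F := F) (fun v => Φ₁ v = true)
    obtain ⟨a1, ha1⟩ := exists_signs (F := F) (fun v => Φ₂ v = true)
    have s0 : sgn a0 = Φ₁ := by
      funext v
      unfold sgn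
      rcases h : Φ₁ v with _ | _
      · have := (ha0 v).2.1 (by simp [h])
        simp only [decide_eq_false_iff_not, not_lt]
        linarith
      · have := (ha0 v).1 h
        simp only [decide_eq_true_eq]
        linarith
    have s1 : sgn a1 = Φ₂ := by
      funext v
      unfold sgn
      rcases h : Φ₂ v with _ | _
      · have := (ha1 v).2.1 (by simp [h])
        simp only [decide_eq_false_iff_not, not_lt]
        linarith
      · have := (ha1 v).1 h
        simp only [decide_eq_true_eq]
        linarith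
    have z0 : a0 ≠ 0 := by
      rintro rfl
      have := (ha0 v₁).1 h1
      rw [map_zero] at this
      linarith
    have z1 : a1 ≠ 0 := by
      rintro rfl
      have := (ha1 v₁).1 h2
      rw [map_zero] at this
      linarith
    refine ⟨![a0, a1], ?_, ?_, s0, s1, ?_⟩
    · intro i
      fin_cases i
      · exact z0
      · exact z1
    · intro i
      fin_cases i
      · have := (ha0 v₁).1 h1
        simp only [Matrix.cons_val, Fin.zero_eta]
        linarith
      · have := (ha1 v₁).1 h2
        simp only [Matrix.cons_val, Fin.mk_one]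
        linarith
    intro δ hδ
    obtain ⟨η, hη0, hη1, hη2⟩ : ∃ η : ℝ, 0 < η ∧ η ≤ 1 / 2 ∧ η ^ 2 ≤ δ := by
      refine ⟨min (1 / 2) (√δ), lt_min (by norm_num) (Real.sqrt_pos.2 hδ), min_le_left _ _, ?_⟩
      calc (min (1 / 2) (√δ)) ^ 2 ≤ (√δ) ^ 2 :=
            pow_le_pow_left₀ (le_min (by norm_num) (Real.sqrt_nonneg _)) (min_le_right _ _) 2
        _ = δ := Real.sq_sqrt hδ.le
    obtain ⟨t, ht⟩ := Apx.approx (fun v : F →+* ℝ => if Φ₁ v = !(Φ₃ v) then 0 else 1 / η + 2) hη0
    have hcase : ∀ v : F →+* ℝ, (Φ₁ v = !(Φ₃ v) → v t ^ 2 < η ^ 2) ∧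
        (¬ Φ₁ v = !(Φ₃ v) → 1 / η ^ 2 < v t ^ 2 ∧ 4 < v t ^ 2) := by
      intro v
      have hv := ht v
      constructor
      · intro h
        rw [if_pos h, sub_zero] at hv
        exact sq_lt_sq' (by linarith [(abs_lt.1 hv).1]) (abs_lt.1 hv).2
      · intro h
        rw [if_neg h] at hv
        have h5 := (abs_lt.1 hv).1
        have h6 : 1 / η < v t := by linarith
        have h7 : 2 ≤ 1 / η := by
          rw [le_div_iff₀ hη0]
          linarith
        constructor
        · rw [show 1 / η ^ 2 = (1 / η) ^ 2 by ring]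
          exact pow_lt_pow_left₀ h6 (by linarith) (by norm_num)
        · nlinarith
    -- signs at each place
    have hsig : ∀ v : F →+* ℝ, (Φ₃ v = false → 0 < v a0 + v a1 * v t ^ 2) ∧
        (Φ₃ v = true → v a0 + v a1 * v t ^ 2 < 0) ∧
        (Φ₄ v = false → 0 < v a0 * v a1 * (v a0 + v a1 * v t ^ 2)) ∧
        (Φ₄ v = true → v a0 * v a1 * (v a0 + v a1 * v t ^ 2) < 0) := by
      intro v
      obtain ⟨p1, p2, p3⟩ := ha0 v
      obtain ⟨q1, q2, q3⟩ := ha1 v
      obtain ⟨r1, r2⟩ := hcase v
      have ht2 : 0 ≤ v t ^ 2 := sq_nonneg _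
      have hη3 : η ^ 2 ≤ 1 / 4 := by nlinarith
      have p4 := abs_lt.1 p3
      have q4 := abs_lt.1 q3
      have hmulpos : ∀ x y z : ℝ, (0 < x → 0 < y → 0 < z → 0 < x * y * z) ∧
          (x < 0 → y < 0 → 0 < z → 0 < x * y * z) ∧
          (x < 0 → y < 0 → z < 0 → x * y * z < 0) ∧
          (0 < x → y < 0 → 0 < z → x * y * z < 0) ∧
          (0 < x → y < 0 → z < 0 → 0 < x * y * z) ∧
          (x < 0 → 0 < y → 0 < z → x * y * z < 0) ∧
          (x < 0 → 0 < y → z < 0 → 0 < x * y * z) := by
        intro x y z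
        refine ⟨fun a b c => mul_pos (mul_pos a b) c,
          fun a b c => mul_pos (mul_pos_of_neg_of_neg a b) c,
          fun a b c => mul_neg_of_pos_of_neg (mul_pos_of_neg_of_neg a b) c,
          fun a b c => mul_neg_of_neg_of_pos (mul_neg_of_pos_of_neg a b) c,
          fun a b c => mul_pos_of_neg_of_neg (mul_neg_of_pos_of_neg a b) c,
          fun a b c => mul_neg_of_neg_of_pos (mul_neg_of_neg_of_pos a b) c,
          fun a b c => mul_pos_of_neg_of_neg (mul_neg_of_neg_of_pos a b) c⟩
      obtain ⟨m1, -, m3, m4, m5, m6, m7⟩ := hmulpos (v a0) (v a1) (v a0 + v a1 * v t ^ 2)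
      have u1 : v a1 * v t ^ 2 ≤ 3 / 2 * v t ^ 2 := mul_le_mul_of_nonneg_right q4.2.le ht2
      have u2 : -(3 / 2) * v t ^ 2 ≤ v a1 * v t ^ 2 := mul_le_mul_of_nonneg_right q4.1.le ht2
      have u3 : 1 / 2 < v a1 → 1 / 2 * v t ^ 2 ≤ v a1 * v t ^ 2 := fun h =>
        mul_le_mul_of_nonneg_right h.le ht2
      have u4 : v a1 < -(1 / 2) → v a1 * v t ^ 2 ≤ -(1 / 2) * v t ^ 2 := fun h =>
        mul_le_mul_of_nonneg_right h.le ht2
      have hb : Multiset.countP (fun Φ : CMType F => Φ v = true) (Φ₁ ::ₘ Φ₂ ::ₘ Φ₃ ::ₘ Φ₄ ::ₘ 0) =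
        Multiset.countP (fun Φ : CMType F => Φ v = false) (Φ₁ ::ₘ Φ₂ ::ₘ Φ₃ ::ₘ Φ₄ ::ₘ 0) := hB v
      simp only [Multiset.countP_cons, Multiset.countP_zero] at hb
      rcases e1 : Φ₁ v with _ | _ <;> rcases e2 : Φ₂ v with _ | _ <;>
        rcases e3 : Φ₃ v with _ | _ <;> rcases e4 : Φ₄ v with _ | _ <;>
        simp only [e1, e2, e3, e4, reduceCtorEq, if_true, if_false] at hb <;>
        first
        | (exfalso; omega)
        | skip
      · -- f f t t
        have x1 := p2 (by simp [e1])
        have x2 := q2 (by simp [e2])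
        have x3 := u4 x2
        have x4 : v a0 + v a1 * v t ^ 2 < 0 := by linarith
        refine ⟨fun h => absurd h (by simp), fun _ => x4, fun h => absurd h (by simp), fun _ =>
          m3 (by linarith) (by linarith) x4⟩
      · -- f t f t
        have x1 := p2 (by simp [e1])
        have x2 := q1 e2
        have x3 := u3 x2
        have x5 := (r2 (by simp [e1, e3])).2
        have x4 : 0 < v a0 + v a1 * v t ^ 2 := by linarith
        refine ⟨fun _ => x4, fun h => absurd h (by simp), fun h => absurd h (by simp), fun _ =>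
          m6 (by linarith) (by linarith) x4⟩
      · -- f t t f
        have x1 := p2 (by simp [e1])
        have x2 := q1 e2
        have x5 := r1 (by simp [e1, e3])
        have x4 : v a0 + v a1 * v t ^ 2 < 0 := by linarith
        refine ⟨fun h => absurd h (by simp), fun _ => x4, fun _ =>
          m7 (by linarith) (by linarith) x4, fun h => absurd h (by simp)⟩
      · -- t f f t
        have x1 := p1 e1
        have x2 := q2 (by simp [e2])
        have x5 := r1 (by simp [e1, e3])
        have x4 : 0 < v a0 + v a1 * v t ^ 2 := by linarith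
        refine ⟨fun _ => x4, fun h => absurd h (by simp), fun h => absurd h (by simp), fun _ =>
          m4 (by linarith) (by linarith) x4⟩
      · -- t f t f
        have x1 := p1 e1
        have x2 := q2 (by simp [e2])
        have x3 := u4 x2
        have x5 := (r2 (by simp [e1, e3])).2
        have x4 : v a0 + v a1 * v t ^ 2 < 0 := by linarith
        refine ⟨fun h => absurd h (by simp), fun _ => x4, fun _ =>
          m5 (by linarith) (by linarith) x4, fun h => absurd h (by simp)⟩
      · -- t t f f
        have x1 := p1 e1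
        have x2 := q1 e2
        have x3 := u3 x2
        have x4 : 0 < v a0 + v a1 * v t ^ 2 := by linarith
        refine ⟨fun _ => x4, fun h => absurd h (by simp), fun _ =>
          m1 (by linarith) (by linarith) x4, fun h => absurd h (by simp)⟩
    have hv0 : ∀ v : F →+* ℝ, v (bt ![a0, a1] t 0) = v a0 + v a1 * v t ^ 2 := by
      intro v
      simp [bt]
    have hv1 : ∀ v : F →+* ℝ, v (bt ![a0, a1] t 1) =
        v a0 * v a1 * (v a0 + v a1 * v t ^ 2) := by
      intro v
      simp [bt]
    have g0 : sgn (bt ![a0, a1] t 0) = bar Φ₃ := by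
      funext v
      unfold sgn bar
      rw [hv0]
      obtain ⟨k1, k2, -, -⟩ := hsig v
      rcases h : Φ₃ v with _ | _
      · simpa using k1 h
      · simpa using (k2 h).le
    have g1 : sgn (bt ![a0, a1] t 1) = bar Φ₄ := by
      funext v
      unfold sgn bar
      rw [hv1]
      obtain ⟨-, -, k1, k2⟩ := hsig v
      rcases h : Φ₄ v with _ | _
      · have := k1 h
        simpa only [Bool.not_false, decide_eq_true_eq] using this
      · have := (k2 h).le
        simpa only [Bool.not_true, decide_eq_false_iff_not, not_lt] using this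
    refine ⟨t, ?_, ?_, ?_, g0, g1⟩
    · intro v hv
      by_cases h : Φ₁ v = !(Φ₃ v)
      · left
        exact lt_of_lt_of_le ((hcase v).1 h) hη2
      · right
        refine lt_of_le_of_lt ?_ ((hcase v).2 h).1
        exact one_div_le_one_div_of_le (by positivity) hη2
    · intro h
      have h5 := (hsig v₁).1 h3
      have h6 : v₁ (a0 + a1 * t ^ 2) = 0 := by
        have : a0 + a1 * t ^ 2 = 0 := h
        rw [this, map_zero]
      simp only [map_add, map_mul, map_pow] at h6
      linarith
    · intro i
      fin_cases i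
      · have h5 := (hsig v₁).1 h3
        rw [← hv0] at h5
        exact h5
      · have h5 := (hsig v₁).2.2.1 h4
        rw [← hv1] at h5
        exact h5

end Pool.Agent.CMH
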