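import Pool.Agent.Lib.CMH.Sum
import Pool.Agent.Lib.CMH.Est

/-!
Tank CMH, row SUM3 (helper63).
-/

namespace Pool.Agent.CMH

/-- SUM3 -/
theorem sum3 : SUM3 := Sum.sum3_of est

end Pool.Agent.CMH
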