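import Pool.Agent.Lib.CMH.Rows
import Pool.Agent.Lib.CMH.Ten

/-!
# TANK CMH, row TENS: `C_{R_t}(φ)` is a sum of wedge products of theta one-forms
-/

set_option autoImplicit false

open scoped ComplexConjugate Matrix
open Complex

namespace Pool.Agent.CMH

noncomputable section

variable {F : Type} [Field F] [NumberField F]

namespace Tens

/-- the matrix with the columns `(1, t)`, `(-a₁ t, a₀)` -/
def gM (a : Fin 2 → F) (t : F) : Matrix (Fin 2) (Fin 2) F := !![1, -(a 1 * t); t, a 0]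

/-- the inverse matrix -/
def gI (a : Fin 2 → F) (t : F) : Matrix (Fin 2) (Fin 2) F :=
  !![a 0 / (a 0 + a 1 * t ^ 2), a 1 * t / (a 0 + a 1 * t ^ 2);
     -t / (a 0 + a 1 * t ^ 2), 1 / (a 0 + a 1 * t ^ 2)]

omit [NumberField F] in
theorem gM_gI (a : Fin 2 → F) (t : F) (hb : a 0 + a 1 * t ^ 2 ≠ 0) : gM a t * gI a t = 1 := by
  unfold gM gI
  rw [Matrix.mul_fin_two, Matrix.one_fin_two]
  have e1 : 1 * (a 0 / (a 0 + a 1 * t ^ 2)) + -(a 1 * t) * (-t / (a 0 + a 1 * t ^ 2)) = 1 := by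
    rw [one_mul, ← mul_div_assoc, ← add_div, div_eq_one_iff_eq hb]
    ring
  have e2 : 1 * (a 1 * t / (a 0 + a 1 * t ^ 2)) + -(a 1 * t) * (1 / (a 0 + a 1 * t ^ 2)) = 0 := by
    ring
  have e3 : t * (a 0 / (a 0 + a 1 * t ^ 2)) + a 0 * (-t / (a 0 + a 1 * t ^ 2)) = 0 := by
    ring
  have e4 : t * (a 1 * t / (a 0 + a 1 * t ^ 2)) + a 0 * (1 / (a 0 + a 1 * t ^ 2)) = 1 := by
    rw [← mul_div_assoc, ← mul_div_assoc, ← add_div, div_eq_one_iff_eq hb]
    ring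
  rw [e1, e2, e3, e4]

omit [NumberField F] in
theorem gI_gM (a : Fin 2 → F) (t : F) (hb : a 0 + a 1 * t ^ 2 ≠ 0) : gI a t * gM a t = 1 :=
  mul_eq_one_comm.1 (gM_gI a t hb)

/-- the action on the rows -/
def ch (g : Matrix (Fin 2) (Fin 2) F) (ξ : Fin 2 → Fin 3 → F) : Fin 2 → Fin 3 → F :=
  fun i j => ∑ k, g i k * ξ k j

omit [NumberField F] in
theorem ch_ch (g g' : Matrix (Fin 2) (Fin 2) F) (h : g * g' = 1) (ξ : Fin 2 → Fin 3 → F) :
    ch g (ch g' ξ) = ξ := by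
  have h1 : ∀ i l, ∑ k, g i k * g' k l = (1 : Matrix (Fin 2) (Fin 2) F) i l := fun i l => by
    rw [← h, Matrix.mul_apply]
  funext i j
  unfold ch
  calc ∑ k, g i k * ∑ l, g' k l * ξ l j = ∑ l, (∑ k, g i k * g' k l) * ξ l j := by
        simp only [Finset.mul_sum, Finset.sum_mul]
        rw [Finset.sum_comm]
        exact Finset.sum_congr rfl fun l _ => Finset.sum_congr rfl fun k _ => by ring
    _ = ∑ l, (1 : Matrix (Fin 2) (Fin 2) F) i l * ξ l j :=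
        Finset.sum_congr rfl fun l _ => by rw [h1]
    _ = ξ i j := by
        rw [Finset.sum_eq_single i]
        · rw [Matrix.one_apply_eq, one_mul]
        · intro l _ hl
          rw [Matrix.one_apply_ne (Ne.symm hl), zero_mul]
        · exact fun h2 => absurd (Finset.mem_univ _) h2

/-- the bijection of the rows -/
def chE (g g' : Matrix (Fin 2) (Fin 2) F) (h : g * g' = 1) (h' : g' * g = 1) :
    (Fin 2 → Fin 3 → F) ≃ (Fin 2 → Fin 3 → F) where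
  toFun := ch g
  invFun := ch g'
  left_inv := ch_ch g' g h'
  right_inv := ch_ch g g' h

/-! ### linearity -/

theorem pr_lin (k u z : Fin 3 → ℝ) (p q : ℝ) (y : Fin 2 → ℂ) :
    pr k (fun j => p * u j + q * z j) y = p * pr k u y + q * pr k z y := by
  unfold pr
  rw [Finset.mul_sum, Finset.mul_sum, ← Finset.sum_add_distrib]
  refine Finset.sum_congr rfl fun j _ => ?_
  push_cast
  ring

theorem s_lin (k u z : Fin 3 → ℝ) (p q : ℝ) (y : Fin 2 → ℂ) :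
    s k (fun j => p * u j + q * z j) y = p * s k u y + q * s k z y := by
  unfold s
  rw [pr_lin]
  ring

theorem ds_lin (k u z : Fin 3 → ℝ) (p q : ℝ) (i : Fin 2) (y : Fin 2 → ℂ) :
    ds k (fun j => p * u j + q * z j) i y = p * ds k u i y + q * ds k z i y := by
  unfold ds
  rw [pr_lin]
  push_cast
  ring

theorem ev_ch (v : F →+* ℝ) (g : Matrix (Fin 2) (Fin 2) F) (ξ : Fin 2 → Fin 3 → F) (i : Fin 2) :
    ev v (ch g ξ i) = fun j => v (g i 0) * ev v (ξ 0) j + v (g i 1) * ev v (ξ 1) j := by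
  funext j
  unfold ev ch
  rw [Fin.sum_univ_two, map_add, map_mul, map_mul]

omit [NumberField F] in
theorem form_ev (h : Fin 3 → F) (v : F →+* ℝ) (x z : Fin 3 → F) :
    form h v x z = ∑ j, v (h j) * ev v x j * ev v z j := rfl

theorem form_ch (h : Fin 3 → F) (v : F →+* ℝ) (g : Matrix (Fin 2) (Fin 2) F)
    (ξ : Fin 2 → Fin 3 → F) (i j : Fin 2) :
    form h v (ch g ξ i) (ch g ξ j) =
      v (g i 0) * v (g j 0) * form h v (ξ 0) (ξ 0) +
      (v (g i 0) * v (g j 1) + v (g i 1) * v (g j 0)) * form h v (ξ 0) (ξ 1) +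
      v (g i 1) * v (g j 1) * form h v (ξ 1) (ξ 1) := by
  rw [form_ev, form_ev, form_ev, form_ev, ev_ch, ev_ch, Finset.mul_sum, Finset.mul_sum,
    Finset.mul_sum, ← Finset.sum_add_distrib, ← Finset.sum_add_distrib]
  refine Finset.sum_congr rfl fun l _ => ?_
  ring

/-- the real identity behind the change of variables -/
theorem real_id (A0 A1 T f00 f01 f11 : ℝ) (hB : A0 + A1 * T ^ 2 ≠ 0) :
    (1 / |A0 + A1 * T ^ 2|) * (A0 ^ 2 + |A0 * A1| * T ^ 2) *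
        (1 * 1 * f00 + (1 * -(A1 * T) + -(A1 * T) * 1) * f01 + -(A1 * T) * -(A1 * T) * f11) +
      (1 / |A0 + A1 * T ^ 2|) * ((A0 * A1 - |A0 * A1|) * T) *
        (1 * T * f00 + (1 * A0 + -(A1 * T) * T) * f01 + -(A1 * T) * A0 * f11) +
      ((1 / |A0 + A1 * T ^ 2|) * ((A0 * A1 - |A0 * A1|) * T) *
        (T * 1 * f00 + (T * -(A1 * T) + A0 * 1) * f01 + A0 * -(A1 * T) * f11) +
      (1 / |A0 + A1 * T ^ 2|) * (A1 ^ 2 * T ^ 2 + |A0 * A1|) *
        (T * T * f00 + (T * A0 + A0 * T) * f01 + A0 * A0 * f11)) =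
    |A0 + A1 * T ^ 2| * f00 + |A0 * A1 * (A0 + A1 * T ^ 2)| * f11 := by
  have h1 : |A0 + A1 * T ^ 2| ≠ 0 := abs_ne_zero.2 hB
  have h2 : |A0 + A1 * T ^ 2| * |A0 + A1 * T ^ 2| = (A0 + A1 * T ^ 2) * (A0 + A1 * T ^ 2) :=
    abs_mul_abs_self _
  rw [abs_mul (A0 * A1)]
  generalize |A0 * A1| = m
  generalize hP : |A0 + A1 * T ^ 2| = P at h1 h2 ⊢
  field_simp
  have h3 : P ^ 2 = (A0 + A1 * T ^ 2) * (A0 + A1 * T ^ 2) := by rw [sq, h2]
  rw [h3]
  ring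

theorem gauss2_ch (v₁ : F →+* ℝ) (D : F) (h : Fin 3 → F) (a : Fin 2 → F) (t : F)
    (hb : a 0 + a 1 * t ^ 2 ≠ 0) (η : Fin 2 → Fin 3 → F) (y : Fin 2 → ℂ) :
    gauss2 v₁ D h a (Rt a t) (ch (gM a t) η) y =
      gauss2 v₁ D h (bt a t) (R0 (bt a t)) η y := by
  have key : ∀ v : F →+* ℝ, (∑ i, ∑ j, Rt a t v i j *
      form h v (ch (gM a t) η i) (ch (gM a t) η j)) =
      ∑ i, ∑ j, R0 (bt a t) v i j * form h v (η i) (η j) := by
    intro v
    have hB : v (a 0) + v (a 1) * v t ^ 2 ≠ 0 := by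
      have h1 : v (a 0 + a 1 * t ^ 2) ≠ 0 := (map_ne_zero v).2 hb
      rwa [map_add, map_mul, map_pow] at h1
    have h2 := real_id (v (a 0)) (v (a 1)) (v t) (form h v (η 0) (η 0)) (form h v (η 0) (η 1))
      (form h v (η 1) (η 1)) hB
    rw [Fin.sum_univ_two, Fin.sum_univ_two, Fin.sum_univ_two, Fin.sum_univ_two, Fin.sum_univ_two,
      Fin.sum_univ_two]
    rw [form_ch, form_ch, form_ch, form_ch]
    have e00 : v (gM a t 0 0) = 1 := map_one v
    have e01 : v (gM a t 0 1) = -(v (a 1) * v t) := by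
      change v (-(a 1 * t)) = _
      rw [map_neg, map_mul]
    have e10 : v (gM a t 1 0) = v t := rfl
    have e11 : v (gM a t 1 1) = v (a 0) := rfl
    rw [e00, e01, e10, e11]
    have r00 : Rt a t v 0 0 = (1 / |v (a 0) + v (a 1) * v t ^ 2|) *
      (v (a 0) ^ 2 + |v (a 0) * v (a 1)| * v t ^ 2) := rfl
    have r01 : Rt a t v 0 1 = (1 / |v (a 0) + v (a 1) * v t ^ 2|) *
      ((v (a 0) * v (a 1) - |v (a 0) * v (a 1)|) * v t) := rfl
    have r10 : Rt a t v 1 0 = (1 / |v (a 0) + v (a 1) * v t ^ 2|) *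
      ((v (a 0) * v (a 1) - |v (a 0) * v (a 1)|) * v t) := rfl
    have r11 : Rt a t v 1 1 = (1 / |v (a 0) + v (a 1) * v t ^ 2|) *
      (v (a 1) ^ 2 * v t ^ 2 + |v (a 0) * v (a 1)|) := rfl
    rw [r00, r01, r10, r11, h2]
    have s00 : R0 (bt a t) v 0 0 = |v (a 0) + v (a 1) * v t ^ 2| := by
      change |v (a 0 + a 1 * t ^ 2)| = _
      rw [map_add, map_mul, map_pow]
    have s01 : R0 (bt a t) v 0 1 = 0 := rfl
    have s10 : R0 (bt a t) v 1 0 = 0 := rfl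
    have s11 : R0 (bt a t) v 1 1 = |v (a 0) * v (a 1) * (v (a 0) + v (a 1) * v t ^ 2)| := by
      change |v (a 0 * a 1 * (a 0 + a 1 * t ^ 2))| = _
      rw [map_mul, map_mul, map_add, map_mul, map_pow]
    rw [s00, s01, s10, s11]
    ring
  have key2 : (∑ i, (v₁ (a i) : ℂ) * s (ev v₁ h) (ev v₁ (ch (gM a t) η i)) y ^ 2) =
      ∑ i, (v₁ (bt a t i) : ℂ) * s (ev v₁ h) (ev v₁ (η i)) y ^ 2 := by
    rw [Fin.sum_univ_two, Fin.sum_univ_two, ev_ch, ev_ch, s_lin, s_lin]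
    have e00 : v₁ (gM a t 0 0) = 1 := map_one v₁
    have e01 : v₁ (gM a t 0 1) = -(v₁ (a 1) * v₁ t) := by
      change v₁ (-(a 1 * t)) = _
      rw [map_neg, map_mul]
    have e10 : v₁ (gM a t 1 0) = v₁ t := rfl
    have e11 : v₁ (gM a t 1 1) = v₁ (a 0) := rfl
    have b0 : v₁ (bt a t 0) = v₁ (a 0) + v₁ (a 1) * v₁ t ^ 2 := by
      change v₁ (a 0 + a 1 * t ^ 2) = _
      rw [map_add, map_mul, map_pow]
    have b1 : v₁ (bt a t 1) = v₁ (a 0) * v₁ (a 1) * (v₁ (a 0) + v₁ (a 1) * v₁ t ^ 2) := by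
      change v₁ (a 0 * a 1 * (a 0 + a 1 * t ^ 2)) = _
      rw [map_mul, map_mul, map_add, map_mul, map_pow]
    rw [e00, e01, e10, e11, b0, b1]
    push_cast
    ring
  unfold gauss2
  congr 2
  refine Finset.sum_congr rfl fun v _ => ?_
  rw [key v]
  by_cases hv : v = v₁
  · subst hv
    rw [if_pos rfl, if_pos rfl, key2]
  · rw [if_neg hv, if_neg hv]

theorem Del_ch (v₁ : F →+* ℝ) (k : Fin 3 → ℝ) (a : Fin 2 → F) (t : F) (η : Fin 2 → Fin 3 → F)
    (y : Fin 2 → ℂ) :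
    Del k (fun i => ev v₁ (ch (gM a t) η i)) y =
      (v₁ (bt a t 0) : ℂ) * Del k (fun i => ev v₁ (η i)) y := by
  unfold Del
  simp only [ev_ch, ds_lin]
  have e00 : v₁ (gM a t 0 0) = 1 := map_one v₁
  have e01 : v₁ (gM a t 0 1) = -(v₁ (a 1) * v₁ t) := by
    change v₁ (-(a 1 * t)) = _
    rw [map_neg, map_mul]
  have e10 : v₁ (gM a t 1 0) = v₁ t := rfl
  have e11 : v₁ (gM a t 1 1) = v₁ (a 0) := rfl
  have b0 : v₁ (bt a t 0) = v₁ (a 0) + v₁ (a 1) * v₁ t ^ 2 := by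
    change v₁ (a 0 + a 1 * t ^ 2) = _
    rw [map_add, map_mul, map_pow]
  rw [e00, e01, e10, e11, b0]
  push_cast
  ring

omit [NumberField F] in
theorem posDef_R0 (b : Fin 2 → F) (hb : ∀ i, b i ≠ 0) (v : F →+* ℝ) : (R0 b v).PosDef := by
  unfold R0
  refine Matrix.PosDef.diagonal fun i => ?_
  exact abs_pos.2 ((map_ne_zero v).2 (hb i))

end Tens

open Tens

/-- row TENS -/
theorem tens_of (h2 : SUM2) (h3 : SUM3) : TENS := by
  intro F _ _ _ v₁ D h a N φ t hG ha hav hbv hφ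
  have hb0 : a 0 + a 1 * t ^ 2 ≠ 0 := by
    intro h0
    have h1 := hbv 0
    change 0 < v₁ (a 0 + a 1 * t ^ 2) at h1
    rw [h0, map_zero] at h1
    exact lt_irrefl _ h1
  have hbn : ∀ i, bt a t i ≠ 0 := by
    intro i h0
    have h1 := hbv i
    rw [h0, map_zero] at h1
    exact lt_irrefl _ h1
  have hgg := gM_gI a t hb0
  have hgg' := gI_gM a t hb0
  obtain ⟨M, hM⟩ := hφ.comp (gM a t) (gI a t) hgg
  obtain ⟨K, ψ, hψ, hsum⟩ := exists_tensor hM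
  refine ⟨K, fun k => ![fun x => (v₁ (bt a t 0) : ℂ) * ψ k 0 x, ψ k 1], ?_, ?_⟩
  · intro k i
    fin_cases i
    · exact (hψ k 0).smul _
    · exact hψ k 1
  · intro y hy
    have hSB : ∀ k i, IsSB ((![fun x => (v₁ (bt a t 0) : ℂ) * ψ k 0 x, ψ k 1] :
        Fin 2 → (Fin 3 → F) → ℂ) i) := by
      intro k i
      fin_cases i
      · exact (hψ k 0).smul _
      · exact hψ k 1
    have hw : ∀ k, CR v₁ D h (bt a t) (R0 (bt a t))
        (tens ![fun x => (v₁ (bt a t 0) : ℂ) * ψ k 0 x, ψ k 1]) y =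
        wedge (theta v₁ D h (bt a t 0) (fun x => (v₁ (bt a t 0) : ℂ) * ψ k 0 x))
          (theta v₁ D h (bt a t 1) (ψ k 1)) y :=
      fun k => (h3 F v₁ D h (bt a t) _ hG hbv (hSB k) y hy).2
    have hw' : (∑ k, wedge (theta v₁ D h (bt a t 0) ((![fun x => (v₁ (bt a t 0) : ℂ) * ψ k 0 x,
        ψ k 1] : Fin 2 → (Fin 3 → F) → ℂ) 0)) (theta v₁ D h (bt a t 1)
        ((![fun x => (v₁ (bt a t 0) : ℂ) * ψ k 0 x, ψ k 1] : Fin 2 → (Fin 3 → F) → ℂ) 1)) y) =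
        ∑ k, CR v₁ D h (bt a t) (R0 (bt a t))
          (tens ![fun x => (v₁ (bt a t 0) : ℂ) * ψ k 0 x, ψ k 1]) y :=
      Finset.sum_congr rfl fun k _ => (hw k).symm
    rw [hw']
    have hsm : ∀ k ∈ (Finset.univ : Finset (Fin K)), Summable (fun ξ : Fin 2 → Fin 3 → F =>
        tens (![fun x => (v₁ (bt a t 0) : ℂ) * ψ k 0 x, ψ k 1]) ξ *
          gauss2 v₁ D h (bt a t) (R0 (bt a t)) ξ y *
          Del (ev v₁ h) (fun i => ev v₁ (ξ i)) y) := by
      intro k _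
      obtain ⟨N', hN'⟩ := SB2.tens (hSB k)
      exact (h2 F v₁ D h (bt a t) (R0 (bt a t)) N' _ hG hbv (posDef_R0 _ hbn) rfl hN').1 y hy
    unfold CR
    rw [← Summable.tsum_finsetSum hsm, ← (chE (gM a t) (gI a t) hgg hgg').tsum_eq]
    refine tsum_congr fun η => ?_
    change φ (ch (gM a t) η) * gauss2 v₁ D h a (Rt a t) (ch (gM a t) η) y *
      Del (ev v₁ h) (fun i => ev v₁ (ch (gM a t) η i)) y = _
    rw [gauss2_ch v₁ D h a t hb0, Del_ch]
    have h5 : φ (ch (gM a t) η) = ∑ k, ψ k 0 (η 0) * ψ k 1 (η 1) := hsum η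
    rw [h5, Finset.sum_mul, Finset.sum_mul]
    refine Finset.sum_congr rfl fun k _ => ?_
    change _ = (v₁ (bt a t 0) : ℂ) * ψ k 0 (η 0) * ψ k 1 (η 1) * _ * _
    ring

end

end Pool.Agent.CMH
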