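import Pool.Agent.Lib.CMH.FXa
import Pool.Agent.Lib.CMH.Pair
import Pool.Agent.Lib.CMH.NV
import Pool.Agent.Lib.CMH.Tens
import Pool.Agent.Lib.CMH.Sum3
import Pool.Agent.Lib.CMH.Lim
import Pool.Agent.Lib.CMH.Rt
import Pool.Agent.Lib.CMH.Sign
import Pool.Agent.Lib.CMH.Ten
import Pool.Agent.Lib.CMH.Hol

/-!
# CMH, row FX1: the approximating sequence of majorants and the choice of `b`
-/

set_option autoImplicit false

namespace Pool.Agent.CMH.FX

open MeasureTheory Filter Topology ComplexConjugate Matrix Pool.CMH Pool.Agent.CMH.JB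

noncomputable section

theorem tens' : TENS := tens_of sum2 sum3

theorem lim' : LIM := lim est

/-- **Row FX1.** -/
theorem fx1_of (hP : P1CR) (hPD : PDX) (hCO : COCX) : FX1 := by
  classical
  intro F _ _ _ v₁ D Φ₁ Φ₂ Φ₃ Φ₄ hDi hD0 hex h1 h2 h3 h4 hbal
  obtain ⟨⟨h, hh0, hh1, hh2, hh3⟩, a, ha0, hav, hs1, hs2, hδ⟩ :=
    sign F v₁ Φ₁ Φ₂ Φ₃ Φ₄ h1 h2 h3 h4 hbal
  have hG : Good v₁ D h := ⟨hDi, hD0, hh0, hh1, hh2, hh3⟩
  obtain ⟨φ, hφ, y0, hy0, hne⟩ := nv F v₁ D h a hG hav ha0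
  obtain ⟨N, hN⟩ := SB2.tens hφ
  obtain ⟨Γ, hΓ, hinv⟩ := hP F v₁ D h a N (tens φ) hG ha0 hav hN
  obtain ⟨maj, maj0, req, happ⟩ := rt F a ha0
  set k := ev v₁ h with hk
  have hs : Jac.Sg k := sg_ev (hh0 v₁) (hh1 v₁) hh3
  have hU : ∀ g ∈ Γ, Jac.IsU k g.1 := fun g hg => isU_of_mem hΓ hg
  -- the sequence `t n`
  have hseq : ∀ n : ℕ, ∃ t : F, a 0 + a 1 * t ^ 2 ≠ 0 ∧
      (∀ i, 0 < v₁ (bt a t i)) ∧ sgn (bt a t 0) = bar Φ₃ ∧ sgn (bt a t 1) = bar Φ₄ ∧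
      ∀ v i j, |Rt a t v i j - R0 a v i j| ≤ 1 / ((n : ℝ) + 1) := by
    intro n
    obtain ⟨δ, hδ0, hδ1⟩ := happ (1 / ((n : ℝ) + 1)) (by positivity)
    obtain ⟨t, ht, hne', hpos, e3, e4⟩ := hδ δ hδ0
    exact ⟨t, hne', hpos, e3, e4, hδ1 t hne' ht⟩
  choose t htne htpos ht3 ht4 htap using hseq
  -- the functions
  let A : ball k → ℂ := fun y => CR v₁ D h a (R0 a) (tens φ) y.1
  let B : ℕ → ball k → ℂ := fun n y => CR v₁ D h a (Rt a (t n)) (tens φ) y.1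
  have hR0v : R0 a v₁ = R0 a v₁ := rfl
  have hRtv : ∀ n, Rt a (t n) v₁ = R0 a v₁ := fun n => req (t n) v₁ (htne n) (hav 0) (hav 1)
  have hpd0 : ∀ v, (R0 a v).PosDef := fun v => (maj0 v).1
  have hpdn : ∀ n v, (Rt a (t n) v).PosDef := fun n v => (maj (t n) (htne n) v).1
  have hAc : ContinuousOn (CR v₁ D h a (R0 a) (tens φ)) (ball k) :=
    (sum2 F v₁ D h a (R0 a) N (tens φ) hG hav hpd0 rfl hN).2
  have hBc : ∀ n, ContinuousOn (CR v₁ D h a (Rt a (t n)) (tens φ)) (ball k) := fun n =>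
    (sum2 F v₁ D h a (Rt a (t n)) N (tens φ) hG hav (hpdn n) (hRtv n) hN).2
  have hAcont : Continuous A := hAc.comp_continuous continuous_subtype_val fun y => y.2
  have hBcont : ∀ n, Continuous (B n) := fun n =>
    (hBc n).comp_continuous continuous_subtype_val fun y => y.2
  -- uniform convergence on compact sets
  have hunif : ∀ C : Set (Fin 2 → ℂ), IsCompact C → C ⊆ ball k → ∀ ε : ℝ, 0 < ε →
      ∃ n0 : ℕ, ∀ n, n0 ≤ n → ∀ y ∈ C,
        ‖CR v₁ D h a (Rt a (t n)) (tens φ) y - CR v₁ D h a (R0 a) (tens φ) y‖ ≤ ε := by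
    intro C hC hsub ε hε
    obtain ⟨δ, hδ0, hδ1⟩ := lim' F v₁ D h a N (tens φ) C ε hG hav hN hC hsub hε
    obtain ⟨n0, hn0⟩ := exists_nat_one_div_lt hδ0
    refine ⟨n0, fun n hn y hy => hδ1 (Rt a (t n)) (hpdn n) (hRtv n) (fun v i j => ?_) y hy⟩
    refine (htap n v i j).trans (le_trans ?_ hn0.le)
    exact one_div_le_one_div_of_le (by positivity) (by exact_mod_cast Nat.add_le_add_right hn 1)
  have hlim : ∀ y : ball k, Tendsto (fun n => B n y) atTop (𝓝 (A y)) := by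
    intro y
    rw [Metric.tendsto_atTop]
    intro ε hε
    obtain ⟨n0, hn0⟩ := hunif {y.1} isCompact_singleton (by
      rintro _ rfl
      exact y.2) (ε / 2) (by positivity)
    refine ⟨n0, fun n hn => ?_⟩
    rw [dist_eq_norm]
    exact (hn0 n hn y.1 rfl).trans_lt (half_lt_self hε)
  have hbd : ∀ K : Set (ball k), IsCompact K → ∃ M : ℝ, ∀ n, ∀ y ∈ K, ‖B n y‖ ≤ M := by
    intro K hK
    obtain ⟨n0, hn0⟩ := hunif ((Subtype.val : ball k → Fin 2 → ℂ) '' K)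
      (hK.image continuous_subtype_val) (by
        rintro _ ⟨y, _, rfl⟩
        exact y.2) 1 one_pos
    obtain ⟨M0, hM0⟩ := hK.exists_bound_of_continuousOn hAcont.continuousOn
    have hMn : ∀ n, ∃ M : ℝ, ∀ y ∈ K, ‖B n y‖ ≤ M := fun n =>
      hK.exists_bound_of_continuousOn (hBcont n).continuousOn
    choose M hM using hMn
    refine ⟨max (M0 + 1) (∑ n ∈ Finset.range n0, |M n|), fun n y hy => ?_⟩
    rcases lt_or_ge n n0 with hn | hn
    · refine le_max_of_le_right ((hM n y hy).trans ((le_abs_self _).trans ?_))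
      exact Finset.single_le_sum (f := fun n => |M n|) (fun i _ => abs_nonneg _)
        (Finset.mem_range.2 hn)
    · refine le_max_of_le_left ?_
      have e1 := hn0 n hn y.1 ⟨y, hy, rfl⟩
      have e2 := hM0 y hy
      have e3 : B n y = (B n y - A y) + A y := by ring
      rw [e3]
      refine (norm_add_le _ _).trans ?_
      have e4 : ‖B n y - A y‖ ≤ 1 := e1
      linarith
  -- the action
  let _ := mulActionBall hs Γ hU
  have := continuousConstSMul_ball hs Γ hU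
  have := smulInvariant_muB hs Γ hU
  have hpdisc : PDisc Γ (ball k) := pdisc_of hs hU (hPD F v₁ D h Γ hG hΓ)
  have hcocpt : Cocpt Γ (ball k) := cocpt_of hs hU (hCO F v₁ D h Γ hG hex hΓ)
  have : Countable Γ := countable_of hs hU hpdisc
  obtain ⟨χ0, hχ0⟩ := wgtExists Γ (ball k) hpdisc hcocpt
  have hjne : ∀ (g : Γ) (y : ball k), (g.1.1 *ᵥ hat y.1) 2 ≠ 0 := fun g y =>
    jf_ne' hs (hU g.1 g.2) y.2
  obtain ⟨j, hj⟩ := exists_term wgtIndep wgtSub wgtPos (G := Γ) (X := ball k) (muB k) hpdisc hχ0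
    (fun g y => ((g.1.1 *ᵥ hat y.1) 2 ^ 3)⁻¹) (fun y => Hn k y.1 ^ 3)
    (((Hn_continuous k).comp continuous_subtype_val).pow 3) (fun y => pow_pos (Hn_pos y.2) 3)
    (fun g y => by
      have e1 : Hn k (actC g.1 y.1) = Hn k y.1 / ‖(g.1.1 *ᵥ hat y.1) 2‖ ^ 2 := by
        rw [Hn_eq_Hf, Hn_eq_Hf]
        exact Jac.Hf_act (hU g.1 g.2) (Jac.jf_ne hs (hU g.1 g.2) y.2)
      have e2 : (((g • y : ball k)) : Fin 2 → ℂ) = actC g.1 y.1 := rfl
      have e3 : ‖(g.1.1 *ᵥ hat y.1) 2‖ ≠ 0 := norm_ne_zero_iff.2 (hjne g y)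
      simp only [e2, e1, norm_inv, norm_pow]
      field_simp)
    A hAcont
    (fun g y => by
      have e1 := hinv (R0 a) maj0 rfl g.1 g.2 y.1 y.2
      change CR v₁ D h a (R0 a) (tens φ) (actC g.1 y.1) * ((g.1.1 *ᵥ hat y.1) 2 ^ 3)⁻¹ =
        CR v₁ D h a (R0 a) (tens φ) y.1
      rw [e1]
      have := hjne g y
      field_simp)
    (x0 := ⟨y0, hy0⟩) hne B hBcont
    (fun n g y => by
      have e1 := hinv (Rt a (t n)) (fun v => maj (t n) (htne n) v) (hRtv n) g.1 g.2 y.1 y.2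
      change CR v₁ D h a (Rt a (t n)) (tens φ) (actC g.1 y.1) * ((g.1.1 *ᵥ hat y.1) 2 ^ 3)⁻¹ =
        CR v₁ D h a (Rt a (t n)) (tens φ) y.1
      rw [e1]
      have := hjne g y
      field_simp)
    hlim hbd
  obtain ⟨K, ψ, hψ, hdec⟩ := tens' F v₁ D h a N (tens φ) (t j) hG ha0 hav (htpos j) hN
  refine ⟨h, Γ, a, bt a (t j), φ, K, ψ, hG, fun i => ⟨hav i, htpos j i⟩, hs1, hs2, ht3 j, ht4 j,
    hφ, hψ, hΓ, fun Γ' hle hΓ' χ hχ => ?_⟩
  have : (Γ'.subgroupOf Γ).FiniteIndex := finiteIndex_of hΓ hΓ'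
  have hth : ∀ (i : Fin K) (l : Fin 2) (m : Fin 2), Continuous fun y : ball k =>
      theta v₁ D h (bt a (t j) l) (ψ i l) m y.1 := fun i l m =>
    (continuousOn_theta hG (htpos j l) (hψ i l) m).comp_continuous continuous_subtype_val
      fun y => y.2
  have hwc : ∀ i ∈ (Finset.univ : Finset (Fin K)), Continuous fun y : ball k =>
      wedge (theta v₁ D h (bt a (t j) 0) (ψ i 0)) (theta v₁ D h (bt a (t j) 1) (ψ i 1)) y.1 := by
    intro i _
    exact ((hth i 0 0).mul (hth i 1 1)).sub ((hth i 0 1).mul (hth i 1 0))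
  obtain ⟨i, _, hi⟩ := hj (Γ'.subgroupOf Γ) (fun y : ball k => χ y.1) (isWeight_sub hs hU hle hχ)
    (Finset.univ : Finset (Fin K))
    (fun i y => wedge (theta v₁ D h (bt a (t j) 0) (ψ i 0)) (theta v₁ D h (bt a (t j) 1) (ψ i 1)) y.1)
    hwc (fun y => hdec y.1 y.2)
  refine ⟨i, fun h0 => hi ?_⟩
  have e1 := int_muB k χ hχ.supp (fun y =>
    CR v₁ D h a (R0 a) (tens φ) y *
      conj (wedge (theta v₁ D h (bt a (t j) 0) (ψ i 0)) (theta v₁ D h (bt a (t j) 1) (ψ i 1)) y))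
  refine Eq.trans ?_ (e1.trans (Eq.trans ?_ h0))
  · rfl
  · refine integral_congr_ae (Eventually.of_forall fun y => ?_)
    by_cases hy : y ∈ ball k
    · simp only
      rw [(sum3 F v₁ D h a φ hG hav hφ y hy).2]
    · have : χ y = 0 := by
        by_contra hc
        exact hy (hχ.supp (subset_tsupport χ hc))
      simp [this]

end

end Pool.Agent.CMH.FX
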