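import Pool.Agent.Lib.CMH.JacBr
import Pool.Agent.Lib.CMH.Grp
import Pool.Agent.Lib.CMH.P1Geo

/-!
# CMH, row FINX (helper37): calculus of arithmetic subgroups; P1 in terms of `SL3`
-/

set_option autoImplicit false

namespace Pool.Agent.CMH.FX

open MeasureTheory Matrix ComplexConjugate Pool.CMH
open Pool.Agent.CMH.Grp (Uni Cong emb OI)

noncomputable section

variable {F : Type} [Field F] [NumberField F] {v₁ : F →+* ℝ} {D : F} {h : Fin 3 → F}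

theorem inSU_iff {g : SL3} : InSU v₁ D h g ↔ Uni (ev v₁ h) g.1 ∧ Cong v₁ D 1 g.1 := by
  constructor
  · rintro ⟨h1, h2⟩
    refine ⟨h2, fun i j => ?_⟩
    obtain ⟨x, y, hx, hy, e⟩ := h1 i j
    refine ⟨x - (1 : Matrix (Fin 3) (Fin 3) F) i j, y, hx.sub ?_, hy, ?_⟩
    · by_cases hij : i = j
      · subst hij; rw [Matrix.one_apply_eq]; exact isIntegral_one
      · rw [Matrix.one_apply_ne hij]; exact isIntegral_zero
    · rw [e]
      by_cases hij : i = j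
      · subst hij; simp [emb]; ring
      · simp [emb, Matrix.one_apply_ne hij]
  · rintro ⟨h1, h2⟩
    refine ⟨fun i j => ?_, h1⟩
    obtain ⟨x, y, hx, hy, e⟩ := h2 i j
    refine ⟨x + (1 : Matrix (Fin 3) (Fin 3) F) i j, y, hx.add ?_, hy, ?_⟩
    · by_cases hij : i = j
      · subst hij; rw [Matrix.one_apply_eq]; exact isIntegral_one
      · rw [Matrix.one_apply_ne hij]; exact isIntegral_zero
    · rw [e]
      by_cases hij : i = j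
      · subst hij; simp [emb]; ring
      · simp [emb, Matrix.one_apply_ne hij]

/-- The group `SU(h)(𝓞 + 𝓞 √-D)`. -/
def SUO (hG : Good v₁ D h) : Subgroup SL3 where
  carrier := {g | InSU v₁ D h g}
  mul_mem' := by
    intro a b ha hb
    simp only [Set.mem_ofPred_eq, inSU_iff, Matrix.SpecialLinearGroup.coe_mul] at *
    exact ⟨ha.1.mul hb.1, ha.2.mul hG.Di (hG.D0 v₁) hb.2⟩
  one_mem' := by
    simp only [Set.mem_ofPred_eq, inSU_iff, Matrix.SpecialLinearGroup.coe_one]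
    exact ⟨Grp.uni_one _, Grp.cong_one _ _ _⟩
  inv_mem' := by
    intro g hg
    simp only [Set.mem_ofPred_eq, inSU_iff] at *
    have h2 : (g : Matrix (Fin 3) (Fin 3) ℂ)⁻¹ = ((g⁻¹ : SL3) : Matrix (Fin 3) (Fin 3) ℂ) := by
      rw [Matrix.SpecialLinearGroup.coe_inv, Matrix.inv_def, g.det_coe, Ring.inverse_one, one_smul]
    have h3 := hg.1.inv (Grp.ev_ne hG)
    have h4 := hg.2.inv hG.Di (hG.D0 v₁) (Grp.ev_ne hG) hg.1
    rw [h2] at h3 h4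
    exact ⟨h3, h4⟩

theorem mem_SUO {hG : Good v₁ D h} {g : SL3} : g ∈ SUO hG ↔ InSU v₁ D h g := Iff.rfl

theorem isArith_iff (hG : Good v₁ D h) {Γ : Subgroup SL3} :
    IsArith v₁ D h Γ ↔ Γ ≤ SUO hG ∧ Γ.relIndex (SUO hG) ≠ 0 := by
  constructor
  · intro hΓ
    refine ⟨fun g hg => hΓ.le g hg, ?_⟩
    obtain ⟨S, hS, hfin⟩ := hΓ.fin
    have hfinite : Finite (SUO hG ⧸ Γ.subgroupOf (SUO hG)) := by
      have hS' : Finite {t : SUO hG // t.1 ∈ S} := by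
        have := hS.to_subtype
        exact Finite.of_injective (fun t : {t : SUO hG // t.1 ∈ S} => (⟨t.1.1, t.2⟩ : S))
          (fun a b hab => Subtype.ext (Subtype.ext (by simpa using hab)))
      refine Finite.of_surjective
        (fun t : {t : SUO hG // t.1 ∈ S} => ((t.1⁻¹ : SUO hG) : SUO hG ⧸ Γ.subgroupOf (SUO hG))) ?_
      intro q
      obtain ⟨g, rfl⟩ := QuotientGroup.mk_surjective q
      obtain ⟨γ, hγ, t, ht, e⟩ := hfin (g⁻¹ : SUO hG) (g⁻¹ : SUO hG).2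
      have htm : t ∈ SUO hG := by
        have : t = γ⁻¹ * ((g⁻¹ : SUO hG) : SL3) := by rw [e]; group
        rw [this]
        exact (SUO hG).mul_mem ((SUO hG).inv_mem (hΓ.le γ hγ)) (g⁻¹ : SUO hG).2
      refine ⟨⟨⟨t, htm⟩, ht⟩, ?_⟩
      change ((⟨t, htm⟩⁻¹ : SUO hG) : SUO hG ⧸ Γ.subgroupOf (SUO hG)) = _
      rw [QuotientGroup.eq, Subgroup.mem_subgroupOf]
      have e2 : (((⟨t, htm⟩⁻¹ : SUO hG)⁻¹ * g : SUO hG) : SL3) = γ⁻¹ := by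
        have e3 : ((g : SUO hG) : SL3) = (γ * t)⁻¹ := by rw [← e]; simp
        rw [Subgroup.coe_mul, Subgroup.coe_inv, Subgroup.coe_inv, e3]
        group
      rw [e2]
      exact Γ.inv_mem hγ
    exact Subgroup.index_ne_zero_of_finite
  · rintro ⟨h1, h2⟩
    refine ⟨fun g hg => h1 hg, ?_⟩
    have hfi : (Γ.subgroupOf (SUO hG)).FiniteIndex := ⟨h2⟩
    have hfinite : Finite (SUO hG ⧸ Γ.subgroupOf (SUO hG)) := inferInstance
    refine ⟨Set.range (fun q : SUO hG ⧸ Γ.subgroupOf (SUO hG) => ((q.out⁻¹ : SUO hG) : SL3)),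
      Set.finite_range _, fun g hg => ?_⟩
    let g' : SUO hG := ⟨g, hg⟩
    let q : SUO hG ⧸ Γ.subgroupOf (SUO hG) := ((g'⁻¹ : SUO hG) : SUO hG ⧸ Γ.subgroupOf (SUO hG))
    have hq : q.out⁻¹ * g'⁻¹ ∈ Γ.subgroupOf (SUO hG) :=
      QuotientGroup.eq.1 (QuotientGroup.out_eq' q)
    rw [Subgroup.mem_subgroupOf] at hq
    refine ⟨((q.out⁻¹ * g'⁻¹ : SUO hG) : SL3)⁻¹, Γ.inv_mem hq, _, ⟨q, rfl⟩, ?_⟩
    have : g = (g' : SL3) := rfl
    rw [this, ← Subgroup.coe_inv, ← Subgroup.coe_mul]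
    congr 1
    group

theorem isArith_inf2 (hG : Good v₁ D h) {Γ Γ' : Subgroup SL3} (h1 : IsArith v₁ D h Γ)
    (h2 : IsArith v₁ D h Γ') : IsArith v₁ D h (Γ ⊓ Γ') := by
  rw [isArith_iff hG] at *
  exact ⟨inf_le_left.trans h1.1, Subgroup.relIndex_inf_ne_zero h1.2 h2.2⟩

/-- an arithmetic subgroup has finite index in every larger arithmetic subgroup -/
theorem isArith_relIndex (hG : Good v₁ D h) {Γ Γ' : Subgroup SL3} (h1 : IsArith v₁ D h Γ)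
    (h2 : IsArith v₁ D h Γ') : Γ'.relIndex Γ ≠ 0 := by
  rw [isArith_iff hG] at *
  exact fun h0 => h2.2 (Subgroup.relIndex_eq_zero_of_le_right h1.1 h0)

/-- a subgroup of finite index of an arithmetic subgroup is arithmetic -/
theorem isArith_map (hG : Good v₁ D h) {Γ : Subgroup SL3} (h1 : IsArith v₁ D h Γ)
    (Γ' : Subgroup Γ) (h2 : Γ'.FiniteIndex) : IsArith v₁ D h (Γ'.map Γ.subtype) := by
  rw [isArith_iff hG] at *
  have h3 : (Γ'.map Γ.subtype) ≤ Γ := Subgroup.map_subtype_le Γ'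
  refine ⟨h3.trans h1.1, ?_⟩
  refine Subgroup.relIndex_ne_zero_trans (K := Γ) ?_ h1.2
  rw [Subgroup.relIndex, Subgroup.subgroupOf, Subgroup.comap_map_eq_self_of_injective
    Γ.subtype_injective]
  exact h2.index_ne_zero

theorem isArith_SUO (hG : Good v₁ D h) : IsArith v₁ D h (SUO hG) := by
  rw [isArith_iff hG]
  exact ⟨le_rfl, by rw [Subgroup.relIndex_self]; exact one_ne_zero⟩

/-! ### P1 in terms of `SL3` -/

/-- P1, one-forms -/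
def P1ONE : Prop :=
  ∀ (F : Type) [Field F] [NumberField F] [NumberField.IsTotallyReal F] (v₁ : F →+* ℝ) (D : F)
    (h : Fin 3 → F) (a : F) (N : ℕ), Good v₁ D h → 0 < v₁ a → 0 < N →
    ∃ c : ℕ, 0 < c ∧ ∀ (G : Type) [Group G] (e : G → Mat F), (∀ γ, e γ ∈ Gam D h c) →
      e 1 = (1, 0) → (∀ γ γ', e (γ * γ') = mulM D (e γ) (e γ')) →
      ∃ Γ : Subgroup G, Γ.FiniteIndex ∧ ∀ γ ∈ Γ, ∀ φ : (Fin 3 → F) → ℂ,
        SBJ N (fun ξ : Unit → Fin 3 → F => φ (ξ ())) → ∀ y ∈ ball (ev v₁ h), ∀ j,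
        ∑ l, theta v₁ D h a φ l (act v₁ D (e γ) y) * dact v₁ D (e γ) y l j =
          theta v₁ D h a φ j y

/-- P1, two-forms -/
def P1TWO : Prop :=
  ∀ (F : Type) [Field F] [NumberField F] [NumberField.IsTotallyReal F] (v₁ : F →+* ℝ) (D : F)
    (h : Fin 3 → F) (a : Fin 2 → F) (N : ℕ), Good v₁ D h → (∀ i, 0 < v₁ (a i)) → 0 < N →
    ∃ c : ℕ, 0 < c ∧ ∀ (G : Type) [Group G] (e : G → Mat F), (∀ γ, e γ ∈ Gam D h c) →
      e 1 = (1, 0) → (∀ γ γ', e (γ * γ') = mulM D (e γ) (e γ')) →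
      ∃ Γ : Subgroup G, Γ.FiniteIndex ∧ ∀ γ ∈ Γ, ∀ φ : (Fin 2 → Fin 3 → F) → ℂ, SBJ N φ →
        ∀ R : Maj F, (∀ v, IsMaj a v (R v)) → R v₁ = R0 a v₁ → ∀ y ∈ ball (ev v₁ h),
        CR v₁ D h a R φ (act v₁ D (e γ) y) / gy v₁ D (e γ) y 2 ^ 3 = CR v₁ D h a R φ y

/-- congruence subgroups are arithmetic (weak form) -/
def GAMFIN : Prop :=
  ∀ (F : Type) [Field F] [NumberField F] [NumberField.IsTotallyReal F] (v₁ : F →+* ℝ) (D : F)
    (h : Fin 3 → F) (N : ℕ), Good v₁ D h → 0 < N →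
    ∃ Γ : Subgroup SL3, IsArith v₁ D h Γ ∧ ∀ g ∈ Γ, ∃ p ∈ Gam D h N, cmat v₁ D p = g.1

omit [NumberField F] in
/-- the pair of a matrix -/
theorem exists_e (hG : Good v₁ D h) {N : ℕ} {Γ : Subgroup SL3}
    (hΓ : ∀ g ∈ Γ, ∃ p ∈ Gam D h N, cmat v₁ D p = g.1) :
    ∃ e : Γ → Mat F, (∀ γ, e γ ∈ Gam D h N) ∧ (∀ γ : Γ, cmat v₁ D (e γ) = γ.1.1) ∧
      e 1 = (1, 0) ∧ ∀ γ γ', e (γ * γ') = mulM D (e γ) (e γ') := by
  choose e he1 he2 using fun γ : Γ => hΓ γ.1 γ.2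
  refine ⟨e, he1, he2, ?_, fun γ γ' => ?_⟩
  · apply Grp.cmat_inj (hG.D0 v₁)
    rw [he2, Grp.cmat_one]
    simp
  · apply Grp.cmat_inj (hG.D0 v₁)
    have h3 := Grp.cmat_pm (hG.D0 v₁) (e γ) (e γ')
    change cmat v₁ D (mulM D (e γ) (e γ')) = _ at h3
    rw [he2, h3, he2, he2]
    simp

omit [NumberField F] in
theorem act_eq_actC {g : SL3} {p : Mat F} (hp : cmat v₁ D p = g.1) (y : Fin 2 → ℂ) :
    act v₁ D p y = actC g y := by
  funext j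
  simp only [act, gy, hp, actC]

omit [NumberField F] in
theorem gy_eq_of {g : SL3} {p : Mat F} (hp : cmat v₁ D p = g.1) (y : Fin 2 → ℂ) :
    gy v₁ D p y = g.1 *ᵥ hat y := by
  simp only [gy, hp]

omit [NumberField F] in
theorem dact_eq_of {g : SL3} {p : Mat F} (hp : cmat v₁ D p = g.1) (y : Fin 2 → ℂ) (l j : Fin 2) :
    dact v₁ D p y l j = (g.1 l.castSucc j.castSucc * (g.1 *ᵥ hat y) 2 -
        (g.1 *ᵥ hat y) l.castSucc * g.1 2 j.castSucc) / (g.1 *ᵥ hat y) 2 ^ 2 := by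
  simp only [dact, gy, hp]

omit [NumberField F] in
theorem sg_of (hG : Good v₁ D h) : Jac.Sg (ev v₁ h) := ⟨hG.h0 v₁, hG.h1 v₁, hG.h3⟩

/-- **invariance of a theta one-form under an arithmetic group** -/
theorem inv_one [NumberField.IsTotallyReal F] (hone : P1ONE) (hfi : GAMFIN) (hG : Good v₁ D h)
    {a : F} (ha : 0 < v₁ a) {φ : (Fin 3 → F) → ℂ} (hφ : IsSB φ) :
    ∃ Γ : Subgroup SL3, IsArith v₁ D h Γ ∧ InvOne (ev v₁ h) Γ (theta v₁ D h a φ) := by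
  obtain ⟨N, hN, hφ1, hφ2⟩ := hφ
  obtain ⟨c, hc, H⟩ := hone F v₁ D h a N hG ha hN
  obtain ⟨Γ, hΓ1, hΓ2⟩ := hfi F v₁ D h c hG hc
  obtain ⟨e, he1, he2, he3, he4⟩ := exists_e hG hΓ2
  obtain ⟨Γ', hfin, hinv⟩ := H Γ e he1 he3 he4
  refine ⟨Γ'.map Γ.subtype, isArith_map hG hΓ1 Γ' hfin, ?_⟩
  rintro _ ⟨γ, hγ, rfl⟩ y hy j
  have hU : Jac.IsU (ev v₁ h) (Γ.subtype γ).1 := JB.isU_of_mem hΓ1 γ.2
  have hsb : SBJ N (fun ξ : Unit → Fin 3 → F => φ (ξ ())) :=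
    ⟨hN, fun ξ hξ i j => by cases i; exact hφ1 _ hξ j,
      fun ξ η hη => hφ2 (ξ ()) (η ()) fun j => hη () j⟩
  have h1 := hinv γ hγ φ hsb y hy j
  rw [← h1]
  refine Finset.sum_congr rfl fun l _ => ?_
  rw [JB.fderiv_actC' (sg_of hG) hU hy, dact_eq_of (g := Γ.subtype γ) (he2 γ),
    act_eq_actC (g := Γ.subtype γ) (he2 γ)]

/-- **invariance of all two-forms `C_R(φ)` under one arithmetic group** -/
theorem inv_two [NumberField.IsTotallyReal F] (htwo : P1TWO) (hfi : GAMFIN) (hG : Good v₁ D h)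
    {a : Fin 2 → F} (ha : ∀ i, 0 < v₁ (a i)) {N : ℕ} (hN : 0 < N) :
    ∃ Γ : Subgroup SL3, IsArith v₁ D h Γ ∧ ∀ φ : (Fin 2 → Fin 3 → F) → ℂ, SB2 N φ →
      ∀ R : Maj F, (∀ v, IsMaj a v (R v)) → R v₁ = R0 a v₁ → ∀ g ∈ Γ, ∀ y ∈ ball (ev v₁ h),
        CR v₁ D h a R φ (actC g y) = (g.1 *ᵥ hat y) 2 ^ 3 * CR v₁ D h a R φ y := by
  obtain ⟨c, hc, H⟩ := htwo F v₁ D h a N hG ha hN
  obtain ⟨Γ, hΓ1, hΓ2⟩ := hfi F v₁ D h c hG hc
  obtain ⟨e, he1, he2, he3, he4⟩ := exists_e hG hΓ2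
  obtain ⟨Γ', hfin, hinv⟩ := H Γ e he1 he3 he4
  refine ⟨Γ'.map Γ.subtype, isArith_map hG hΓ1 Γ' hfin, ?_⟩
  rintro φ hφ R hR hR1 _ ⟨γ, hγ, rfl⟩ y hy
  have hU : Jac.IsU (ev v₁ h) (Γ.subtype γ).1 := JB.isU_of_mem hΓ1 γ.2
  have h1 := hinv γ hγ φ hφ R hR hR1 y hy
  have hj := JB.jf_ne' (sg_of hG) hU hy
  rw [act_eq_actC (g := Γ.subtype γ) (he2 γ), gy_eq_of (g := Γ.subtype γ) (he2 γ)] at h1
  rw [← h1, mul_div_cancel₀ _ (pow_ne_zero 3 hj)]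

end

end Pool.Agent.CMH.FX
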