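import Mathlib

/-! TANK CMH, part limit and integral: weights for a group action.  helper89. -/

set_option autoImplicit false

namespace Pool.Agent.CMH

open MeasureTheory Filter Topology

noncomputable section

/-- `χ` is a partition-of-unity weight for the action of `G` on `X`: integration of a `G`-invariant
function over `G \ X` is integration of `χ` times the function over `X`. -/
structure IsWeight (G : Type*) {X : Type*} [Group G] [MulAction G X] [TopologicalSpace X]
    (χ : X → ℝ) : Prop where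
  cont : Continuous χ
  supp : HasCompactSupport χ
  nonneg : ∀ x, 0 ≤ χ x
  sum : ∀ x, HasSum (fun g : G => χ (g • x)) 1

/-- proper discontinuity, for compact sets. -/
def PDisc (G : Type*) (X : Type*) [Group G] [MulAction G X] [TopologicalSpace X] : Prop :=
  ∀ K : Set X, IsCompact K → {g : G | ∃ x ∈ K, g • x ∈ K}.Finite

/-- cocompactness. -/
def Cocpt (G : Type*) (X : Type*) [Group G] [MulAction G X] [TopologicalSpace X] : Prop :=
  ∃ K : Set X, IsCompact K ∧ ∀ x : X, ∃ g : G, g • x ∈ K

/-- ROW WGT (a). -/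
def WgtExists : Prop := ∀ (G X : Type) [Group G] [TopologicalSpace X] [T2Space X]
  [LocallyCompactSpace X] [MulAction G X] [ContinuousConstSMul G X],
  PDisc G X → Cocpt G X → ∃ χ : X → ℝ, IsWeight G χ

/-- ROW WGT (b): independence of the weight. -/
def WgtIndep : Prop := ∀ (G X : Type) [Group G] [Countable G] [TopologicalSpace X] [T2Space X]
  [LocallyCompactSpace X] [SecondCountableTopology X] [MeasurableSpace X] [BorelSpace X]
  [MulAction G X] [ContinuousConstSMul G X] (μ : Measure X) [IsFiniteMeasureOnCompacts μ]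
  [SMulInvariantMeasure G X μ], PDisc G X → ∀ χ₁ χ₂ : X → ℝ, IsWeight G χ₁ → IsWeight G χ₂ →
  ∀ f : X → ℂ, Continuous f → (∀ (g : G) x, f (g • x) = f x) →
    ∫ x, (χ₁ x : ℂ) * f x ∂μ = ∫ x, (χ₂ x : ℂ) * f x ∂μ

/-- ROW WGT (c): a weight for a subgroup of finite index. -/
def WgtSub : Prop := ∀ (G X : Type) [Group G] [TopologicalSpace X] [MulAction G X]
  (H : Subgroup G) [H.FiniteIndex], ∀ χ : X → ℝ, IsWeight H χ →
  IsWeight G (fun x => χ x / (H.index : ℝ))

/-- ROW WGT (d): positivity. -/
def WgtPos : Prop := ∀ (G X : Type) [Group G] [TopologicalSpace X] [MeasurableSpace X]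
  [BorelSpace X] [MulAction G X] (μ : Measure X) [IsFiniteMeasureOnCompacts μ]
  [μ.IsOpenPosMeasure], ∀ χ : X → ℝ, IsWeight G χ →
  ∀ f : X → ℝ, Continuous f → (∀ x, 0 ≤ f x) → (∀ (g : G) x, f x ≠ 0 → f (g • x) ≠ 0) →
  ∀ x0 : X, f x0 ≠ 0 → 0 < ∫ x, χ x * f x ∂μ

end

end Pool.Agent.CMH
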