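import Mathlib
import Pool.Agent.Lib.CMH.WDefs

/-! TANK CMH, row WGT: weights for a properly discontinuous, cocompact action.  helper33. -/

set_option autoImplicit false

namespace Pool.Agent.CMH

open MeasureTheory Filter Topology Set

noncomputable section

section basic

variable {G X : Type*} [Group G] [MulAction G X] [TopologicalSpace X]

/-- the group elements which move a compact set into meeting another one -/
lemma PDisc.finite_pair (h : PDisc G X) {K L : Set X} (hK : IsCompact K) (hL : IsCompact L) :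
    {g : G | ∃ x ∈ K, g • x ∈ L}.Finite := by
  refine (h (K ∪ L) (hK.union hL)).subset ?_
  rintro g ⟨x, hx, hgx⟩
  exact ⟨x, Or.inl hx, Or.inr hgx⟩

lemma IsWeight.exists_pos {χ : X → ℝ} (h : IsWeight G χ) (x : X) : ∃ g : G, 0 < χ (g • x) := by
  by_contra hc
  push Not at hc
  have h0 : ∀ g : G, χ (g • x) = 0 := fun g => le_antisymm (hc g) (h.nonneg _)
  have h1 := h.sum x
  simp only [h0] at h1
  exact zero_ne_one (hasSum_zero.unique h1)

end basic

theorem wgtExists : WgtExists := by
  intro G X _ _ _ _ _ _ hpd hco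
  obtain ⟨K, hK, hcov⟩ := hco
  obtain ⟨L, hL, hKL⟩ := exists_compact_superset hK
  obtain ⟨f, hf0, hf1, hf⟩ := exists_continuous_zero_one_of_isCompact' (X := X) hK
    (t := (interior L)ᶜ) isOpen_interior.isClosed_compl
    (disjoint_compl_right_iff_subset.2 hKL)
  have hfc : HasCompactSupport f := by
    refine HasCompactSupport.intro hL (fun x hx => ?_)
    exact hf0 (fun h => hx (interior_subset h))
  have hfn : ∀ x, 0 ≤ f x := fun x => (hf x).1
  -- local finiteness
  have hlf : LocallyFinite fun g : G => Function.support fun x : X => f (g • x) := by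
    intro x
    obtain ⟨N, hN, hxN⟩ := exists_compact_mem_nhds x
    refine ⟨N, hxN, (hpd.finite_pair hN hfc.isCompact).subset ?_⟩
    rintro g ⟨y, hy, hyN⟩
    exact ⟨y, hyN, subset_tsupport _ hy⟩
  have hfin : ∀ x : X, (Function.support fun g : G => f (g • x)).Finite := by
    intro x
    have := hlf.point_finite x
    refine this.subset ?_
    intro g hg
    exact hg
  set S : X → ℝ := fun x => ∑ᶠ g : G, f (g • x) with hS
  have hSc : Continuous S := continuous_finsum (fun g => f.continuous.comp (continuous_const_smul g)) hlf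
  have hSpos : ∀ x, 0 < S x := by
    intro x
    obtain ⟨g, hg⟩ := hcov x
    have h1 : f (g • x) = 1 := hf1 hg
    have : f (g • x) ≤ S x := single_le_finsum g (hfin x) (fun g => hfn _)
    linarith
  have hSinv : ∀ (g : G) x, S (g • x) = S x := by
    intro g x
    simp only [hS, smul_smul]
    exact finsum_comp_equiv (Equiv.mulRight g) (f := fun k : G => f (k • x))
  refine ⟨fun x => f x / S x, ⟨f.continuous.div hSc (fun x => (hSpos x).ne'), ?_, ?_, ?_⟩⟩
  · refine hfc.mono ?_
    intro x hx
    simp only [Function.mem_support, ne_eq, div_eq_zero_iff, not_or] at hx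
    exact hx.1
  · intro x
    exact div_nonneg (hfn x) (hSpos x).le
  · intro x
    simp only [hSinv]
    have h1 : HasSum (fun g : G => f (g • x)) (S x) := by
      have h0 : S x = ∑ g ∈ (hfin x).toFinset, f (g • x) := finsum_eq_sum _ (hfin x)
      rw [h0]
      refine hasSum_sum_of_ne_finset_zero (fun g hg => ?_)
      by_contra hne
      exact hg ((hfin x).mem_toFinset.2 hne)
    have h2 := h1.div_const (S x)
    rwa [div_self (hSpos x).ne'] at h2

theorem wgtIndep : WgtIndep := by
  intro G X _ _ _ _ _ _ _ _ _ _ μ _ _ hpd χ₁ χ₂ h₁ h₂ f hf hinv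
  set K := tsupport χ₁ ∪ tsupport χ₂ with hKdef
  have hK : IsCompact K := h₁.supp.isCompact.union h₂.supp.isCompact
  set F : Finset G := (hpd K hK).toFinset with hF
  have hFmem : ∀ g : G, g ∈ F ↔ ∃ x ∈ K, g • x ∈ K := by
    intro g
    simp [hF]
  have hFinv : ∀ g : G, g ∈ F → g⁻¹ ∈ F := by
    intro g hg
    rw [hFmem] at hg ⊢
    obtain ⟨x, hx, hgx⟩ := hg
    exact ⟨g • x, hgx, by simpa using hx⟩
  have key : ∀ χ χ' : X → ℝ, IsWeight G χ → IsWeight G χ' → tsupport χ ⊆ K → tsupport χ' ⊆ K →
      ∫ x, (χ x : ℂ) * f x ∂μ = ∑ g ∈ F, ∫ x, (χ' (g • x) : ℂ) * ((χ x : ℂ) * f x) ∂μ := by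
    intro χ χ' h h' hs hs'
    rw [← integral_finsetSum]
    · refine integral_congr_ae (Eventually.of_forall fun x => ?_)
      simp only
      rw [← Finset.sum_mul]
      by_cases hx : χ x = 0
      · simp [hx]
      · have hxK : x ∈ K := hs (subset_tsupport _ hx)
        have h1 : HasSum (fun g : G => χ' (g • x)) (∑ g ∈ F, χ' (g • x)) := by
          refine hasSum_sum_of_ne_finset_zero (fun g hg => ?_)
          by_contra hne
          exact hg ((hFmem g).2 ⟨x, hxK, hs' (subset_tsupport _ hne)⟩)
        have h2 : ∑ g ∈ F, χ' (g • x) = 1 := h1.unique (h'.sum x)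
        have h3 : (∑ g ∈ F, (χ' (g • x) : ℂ)) = 1 := by
          have := congrArg (fun r : ℝ => (r : ℂ)) h2
          push_cast at this
          exact this
        rw [h3, one_mul]
    · intro g _
      refine Continuous.integrable_of_hasCompactSupport ?_ ?_
      · have : Continuous fun x : X => χ' (g • x) := h'.cont.comp (continuous_const_smul g)
        exact (Complex.continuous_ofReal.comp this).mul
          ((Complex.continuous_ofReal.comp h.cont).mul hf)
      · refine h.supp.mono ?_
        intro x hx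
        simp only [Function.mem_support, ne_eq, mul_eq_zero, not_or] at hx ⊢
        intro h0
        exact hx.2.1 (by simp [h0])
  rw [key χ₁ χ₂ h₁ h₂ subset_union_left subset_union_right,
    key χ₂ χ₁ h₂ h₁ subset_union_right subset_union_left]
  have hre : ∀ g ∈ F, ∫ x, (χ₂ (g • x) : ℂ) * ((χ₁ x : ℂ) * f x) ∂μ =
      ∫ x, (χ₁ (g⁻¹ • x) : ℂ) * ((χ₂ x : ℂ) * f x) ∂μ := by
    intro g _
    have := integral_smul_eq_self (μ := μ)
      (fun x : X => (χ₁ (g⁻¹ • x) : ℂ) * ((χ₂ x : ℂ) * f x)) (g := g)
    rw [← this]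
    refine integral_congr_ae (Eventually.of_forall fun x => ?_)
    simp only [inv_smul_smul, hinv]
    ring
  rw [Finset.sum_congr rfl hre]
  refine Finset.sum_nbij' (fun g => g⁻¹) (fun g => g⁻¹) (fun g hg => hFinv g hg)
    (fun g hg => hFinv g hg) (fun g _ => inv_inv g) (fun g _ => inv_inv g) ?_
  intro g _
  rfl

theorem wgtSub : WgtSub := by
  intro G X _ _ _ H hH χ h
  have hidx : (0 : ℝ) < (H.index : ℝ) := by
    exact_mod_cast Nat.pos_of_ne_zero hH.index_ne_zero
  refine ⟨?_, ?_, ?_, ?_⟩
  · exact h.cont.div_const _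
  · refine h.supp.mono ?_
    intro x hx
    simp only [Function.mem_support, ne_eq, div_eq_zero_iff, not_or] at hx
    exact hx.1
  · intro x
    exact div_nonneg (h.nonneg x) hidx.le
  · intro x
    have : Fintype (G ⧸ H) := H.fintypeQuotientOfFiniteIndex
    let e : (G ⧸ H) × H ≃ G :=
      { toFun := fun p => (p.2 : G) * (Quotient.out p.1)⁻¹
        invFun := fun g => ((g⁻¹ : G), ⟨g * Quotient.out ((g⁻¹ : G) : G ⧸ H), by
          have : (((Quotient.out ((g⁻¹ : G) : G ⧸ H)) : G) : G ⧸ H) = ((g⁻¹ : G) : G ⧸ H) :=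
            QuotientGroup.out_eq' _
          have h2 := (QuotientGroup.eq (s := H)).1 this.symm
          simpa using h2⟩)
        left_inv := by
          rintro ⟨q, k⟩
          have hq : (((((k : G) * (Quotient.out q)⁻¹))⁻¹ : G) : G ⧸ H) = q := by
            have : (((Quotient.out q : G) * (k : G)⁻¹ : G) : G ⧸ H) = ((Quotient.out q : G) : G ⧸ H) := by
              rw [QuotientGroup.eq]
              simpa using k.2
            rw [mul_inv_rev, inv_inv, this]
            exact QuotientGroup.out_eq' q
          refine Prod.ext hq ?_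
          apply Subtype.ext
          simp only [hq]
          group
        right_inv := by
          intro g
          simp }
    have he : ∀ p : (G ⧸ H) × H, χ ((e p) • x) = χ ((p.2 : H) • ((Quotient.out p.1)⁻¹ • x)) := by
      intro p
      change χ (((p.2 : G) * (Quotient.out p.1)⁻¹) • x) = _
      rw [mul_smul]
      rfl
    have hs : Summable fun p : (G ⧸ H) × H => χ ((p.2 : H) • ((Quotient.out p.1)⁻¹ • x)) := by
      refine (summable_prod_of_nonneg (fun p => h.nonneg _)).2 ⟨fun q => ?_, ?_⟩
      · exact (h.sum ((Quotient.out q)⁻¹ • x)).summable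
      · exact (hasSum_fintype _).summable
    have ht : HasSum (fun p : (G ⧸ H) × H => χ ((p.2 : H) • ((Quotient.out p.1)⁻¹ • x)))
        (H.index : ℝ) := by
      have h1 := hs.hasSum
      have h2 : ∑' p : (G ⧸ H) × H, χ ((p.2 : H) • ((Quotient.out p.1)⁻¹ • x)) = (H.index : ℝ) := by
        rw [hs.tsum_prod' (fun q => (h.sum ((Quotient.out q)⁻¹ • x)).summable)]
        have h3 : ∀ q : G ⧸ H, ∑' k : H, χ ((k : H) • ((Quotient.out q)⁻¹ • x)) = 1 :=
          fun q => (h.sum ((Quotient.out q)⁻¹ • x)).tsum_eq
        simp only [h3]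
        rw [tsum_fintype]
        simp only [Finset.sum_const, nsmul_eq_mul, mul_one, Finset.card_univ]
        rw [Subgroup.index, Nat.card_eq_fintype_card]
      rwa [h2] at h1
    have h4 : HasSum (fun g : G => χ (g • x)) (H.index : ℝ) := by
      rw [← e.hasSum_iff]
      refine ht.congr_fun ?_ |> id
      intro p
      exact he p
    have h5 := h4.div_const (H.index : ℝ)
    rwa [div_self hidx.ne'] at h5

theorem wgtPos : WgtPos := by
  intro G X _ _ _ _ _ μ _ _ χ h f hf hnn hinv x0 hx0
  obtain ⟨g, hg⟩ := h.exists_pos x0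
  refine Continuous.integral_pos_of_hasCompactSupport_nonneg_nonzero (x := g • x0)
    (h.cont.mul hf) ?_ (fun x => mul_nonneg (h.nonneg x) (hnn x)) ?_
  · refine h.supp.mono ?_
    intro x hx
    simp only [Function.mem_support, ne_eq, mul_eq_zero, not_or] at hx ⊢
    exact hx.1
  · exact mul_ne_zero hg.ne' (hinv g x0 hx0)

end

end Pool.Agent.CMH
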