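import Pool.Agent.Lib.CMH.Rows
import Pool.Agent.Lib.CMH.Final
set_option autoImplicit false

/-!
# Tank CMH: the final sentence from CLOSE and SURF
-/

namespace Pool.Agent.CMH

theorem quad_of_one_place {F : Type} [Field F] {v₁ : F →+* ℝ} (hv : ¬ ∃ v : F →+* ℝ, v ≠ v₁)
    {Φ₁ Φ₂ Φ₃ Φ₄ : CMType F} (h1 : Φ₁ v₁ = true) (h2 : Φ₂ v₁ = true) (h3 : Φ₃ v₁ = false)
    (h4 : Φ₄ v₁ = false) :
    ({Φ₁, Φ₂, Φ₃, Φ₄} : Multiset (CMType F)) = {Φ₁, bar Φ₁} + {Φ₁, bar Φ₁} := by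
  have hall : ∀ v : F →+* ℝ, v = v₁ := fun v => by
    by_contra h
    exact hv ⟨v, h⟩
  have e2 : Φ₂ = Φ₁ := by
    funext v
    rw [hall v, h1, h2]
  have e3 : Φ₃ = bar Φ₁ := by
    funext v
    simp only [bar, hall v, h1, h3, Bool.not_true]
  have e4 : Φ₄ = bar Φ₁ := by
    funext v
    simp only [bar, hall v, h1, h4, Bool.not_true]
  rw [e2, e3, e4]
  simp only [Multiset.insert_eq_cons, Multiset.cons_add, Multiset.singleton_add]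
  rw [Multiset.cons_swap Φ₁ (bar Φ₁)]

theorem final_of (hclose : CLOSE) (hs : SURF) : FINAL := by
  intro F _ _ _ v₁ D hDi hD m hm
  refine hclose F v₁ (AlgClass v₁ D) AlgClass.zero AlgClass.pair AlgClass.add
    (fun s Φ hh => AlgClass.cancel s Φ hh) ?_ m hm
  intro Φ₁ Φ₂ Φ₃ Φ₄ h1 h2 h3 h4 hb
  by_cases hv : ∃ v : F →+* ℝ, v ≠ v₁
  · exact AlgClass.surface Φ₁ Φ₂ Φ₃ Φ₄ (hs F v₁ D Φ₁ Φ₂ Φ₃ Φ₄ hDi hD hv h1 h2 h3 h4 hb)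
  · rw [quad_of_one_place hv h1 h2 h3 h4]
    exact AlgClass.add _ _ (AlgClass.pair Φ₁) (AlgClass.pair Φ₁)

end Pool.Agent.CMH
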