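import Pool.Agent.Lib.CMH.FX0
import Pool.Agent.Lib.CMH.FxCalc
import Pool.Agent.Lib.CMH.Adp
import Pool.Agent.Lib.CMH.AdpDet
import Pool.Agent.Lib.CMH.Coc

/-!
# CMH, row FINX (helper37): adapters to the interfaces of `FX0.lean`
-/

set_option autoImplicit false

namespace Pool.Agent.CMH.FX

open MeasureTheory Matrix ComplexConjugate Pool.CMH

noncomputable section

theorem gamfin : GAMFIN := by
  intro F _ _ _ v₁ D h N hG hN
  exact ⟨GamS v₁ D h N, isArith_GamS grp hG hN, fun g hg => (mem_GamS grp hG hN).1 hg⟩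

/-- `P1ONE` of `FX0` from `P1_one` -/
theorem p1one_of (H : FX.P1ONE) : Pool.Agent.CMH.P1ONE := by
  intro F _ _ _ v₁ D h a φ hG ha hφ
  exact inv_one H gamfin hG ha hφ

/-- `P1CR` of `FX0` from `P1_two` -/
theorem p1cr_of (H : FX.P1TWO) : P1CR := by
  intro F _ _ _ v₁ D h a N φ hG _ ha hφ
  obtain ⟨Γ, h1, h2⟩ := inv_two H gamfin hG ha hφ.1
  exact ⟨Γ, h1, fun R hR hR1 => h2 φ hφ R hR hR1⟩

/-- PD in terms of pairs -/
def PDP : Prop :=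
  ∀ (F : Type) [Field F] [NumberField F] [NumberField.IsTotallyReal F] (v₁ : F →+* ℝ) (D : F)
    (h : Fin 3 → F) (N : ℕ) (K : Set (Fin 2 → ℂ)), Good v₁ D h → 0 < N → IsCompact K →
    K ⊆ ball (ev v₁ h) → {g : Mat F | g ∈ Gam D h N ∧ ∃ y ∈ K, act v₁ D g y ∈ K}.Finite

theorem pdx_of (H : PDP) : PDX := by
  intro F _ _ _ v₁ D h Γ hG hΓ C hC hCs
  have h1 := H F v₁ D h 1 C hG one_pos hC hCs
  have h2 : ∀ g : Γ, ∃ p ∈ Gam D h 1, cmat v₁ D p = g.1.1 := fun g =>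
    (Pool.Agent.CMH.inSU_iff (hG.D0 v₁)).1 (hΓ.le g.1 g.2)
  choose e he1 he2 using h2
  refine Set.Finite.of_finite_image (f := e) (h1.subset ?_) ?_
  · rintro _ ⟨g, ⟨y, hy, hgy⟩, rfl⟩
    refine ⟨he1 g, y, hy, ?_⟩
    rw [act_eq_actC (he2 g)]
    exact hgy
  · intro g _ g' _ hgg
    apply Subtype.ext
    apply Subtype.ext
    rw [← he2 g, ← he2 g', hgg]

theorem cocx : COCX := by
  intro F _ _ _ v₁ D h Γ hG hv hΓ
  obtain ⟨C, hC, hCb, hCc⟩ := coc F v₁ D h 3 hG hv (by norm_num)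
  obtain ⟨S, hS, hfin⟩ := hΓ.fin
  have hs := sg_of hG
  have hU : ∀ g ∈ SUO hG, Jac.IsU (ev v₁ h) g.1 := fun g hg => hg.2
  refine ⟨⋃ t ∈ {t | t ∈ S ∧ t ∈ SUO hG}, actC t '' C, ?_, ?_, ?_⟩
  · refine (hS.subset fun t ht => ht.1).isCompact_biUnion fun t ht => ?_
    exact hC.image_of_continuousOn ((Jac.continuousOn_act hs (hU t ht.2)).mono hCb)
  · intro y hy
    simp only [Set.mem_iUnion] at hy
    obtain ⟨t, ht, z, hz, rfl⟩ := hy
    exact JB.actC_mem hs (hU t ht.2) (hCb hz)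
  · intro y hy
    obtain ⟨p, hp, hpC⟩ := hCc y hy
    let m : SL3 := ⟨cmat v₁ D p, AdpDet.det_one hG le_rfl hp⟩
    have hm : m ∈ SUO hG :=
      (Pool.Agent.CMH.inSU_iff (hG.D0 v₁)).2 ⟨p, gam_mono (hG.D0 v₁) (by norm_num) hp, rfl⟩
    obtain ⟨γ, hγ, t, ht, he⟩ := hfin m⁻¹ ((SUO hG).inv_mem hm)
    have htG : t ∈ SUO hG := by
      have : t = γ⁻¹ * m⁻¹ := by rw [he]; group
      rw [this]
      exact (SUO hG).mul_mem ((SUO hG).inv_mem (hΓ.le γ hγ)) ((SUO hG).inv_mem hm)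
    have he2 : γ⁻¹ = t * m := by
      have : γ⁻¹ = t * (γ * t)⁻¹ := by group
      rw [this, ← he, inv_inv]
    refine ⟨γ⁻¹, Γ.inv_mem hγ, ?_⟩
    simp only [Set.mem_iUnion]
    refine ⟨t, ⟨ht, htG⟩, actC m y, ?_, ?_⟩
    · rw [← act_eq_actC (g := m) (p := p) rfl]
      exact hpC
    · rw [he2, JB.actC_mul hs (hU m hm) hy]

end

end Pool.Agent.CMH.FX
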