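import Pool.Agent.Lib.CMH.PD44
import Pool.Agent.Lib.CMH.FX0

/-!
# TANK CMH, row PDX: proper discontinuity of arithmetic subgroups.  helper44.
-/

open scoped ComplexConjugate Matrix
open Complex

namespace Pool.Agent.CMH

open Grp

theorem exists_gam_of_inSU {F : Type} [Field F] [NumberField F] {v₁ : F →+* ℝ} {D : F}
    {h : Fin 3 → F} (hg : Good v₁ D h) {g : SL3} (hi : InSU v₁ D h g) :
    ∃ p ∈ Gam D h 1, cmat v₁ D p = g.1 := by
  refine exists_mem_Gam (hg.D0 v₁) one_pos hi.2 fun i j => ?_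
  obtain ⟨x, y, hx, hy, e⟩ := hi.1 i j
  refine ⟨x - (1 : Matrix (Fin 3) (Fin 3) F) i j, y, hx.sub ?_, hy, ?_⟩
  · by_cases hij : i = j
    · subst hij; rw [Matrix.one_apply_eq]; exact isIntegral_one
    · rw [Matrix.one_apply_ne hij]; exact isIntegral_zero
  · rw [e]
    by_cases hij : i = j
    · subst hij
      simp only [emb, map_sub, Matrix.one_apply_eq, map_one, Complex.ofReal_sub,
        Complex.ofReal_one, Nat.cast_one]
      ring
    · simp [emb, Matrix.one_apply_ne hij]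

theorem pdx : PDX := by
  intro F _ _ _ v₁ D h Γ hg hΓ C hC hCb
  have h1 := pd hg one_pos hC hCb
  have h2 : ((fun p : Mat F => cmat v₁ D p) '' {g : Mat F | g ∈ Gam D h 1 ∧
      ∃ y ∈ C, act v₁ D g y ∈ C}).Finite := h1.image _
  refine Set.Finite.of_finite_image (f := fun g : Γ => (g.1.1 : Matrix (Fin 3) (Fin 3) ℂ))
    (h2.subset ?_) ?_
  · rintro _ ⟨g, ⟨y, hy, hgy⟩, rfl⟩
    obtain ⟨p, hp, e⟩ := exists_gam_of_inSU hg (hΓ.le g.1 g.2)
    refine ⟨p, ⟨hp, y, hy, ?_⟩, e⟩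
    change acM (cmat v₁ D p) y ∈ C
    rw [e]
    exact hgy
  · intro g _ g' _ e
    exact Subtype.ext (Subtype.ext e)

end Pool.Agent.CMH
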