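import Pool.Agent.Lib.CMH.FX2
import Pool.Agent.Lib.CMH.FxAd
import Pool.Agent.Lib.CMH.FX1
import Pool.Agent.Lib.CMH.FinOf
import Pool.Agent.Lib.CMH.Close
import Pool.Agent.Lib.CMH.PDX44

/-!
# CMH: the final sentence from the two invariance theorems of P1 (helper37)
-/

set_option autoImplicit false

namespace Pool.Agent.CMH

/-- SURF from P1 -/
theorem surf_of_p1 (h1 : FX.P1ONE) (h2 : FX.P1TWO) : SURF :=
  FX.surf_of (FX.p1one_of h1) pdx FX.cocx (FX.fx1_of (FX.p1cr_of h2) pdx FX.cocx)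

/-- FINAL from P1 -/
theorem final_of_p1 (h1 : FX.P1ONE) (h2 : FX.P1TWO) : FINAL :=
  final_of close (surf_of_p1 h1 h2)

end Pool.Agent.CMH
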