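import Pool.Agent.Lib.CMH.P1Geo

/-! # TANK CMH, row TH7f (helper26): functions of level `N` -/

set_option autoImplicit false

namespace Pool.CMH

open Matrix Complex Real

noncomputable section

variable {F : Type} [Field F] [NumberField F]
variable {J : Type} [Fintype J] [DecidableEq J]

namespace TH7f

theorem om_eq (p : KF F) :
    (om p : F) = algebraMap (NumberField.RingOfIntegers F) F (NumberField.RingOfIntegers.basis F p) :=
  NumberField.integralBasis_apply F p

theorem om_int (p : KF F) : IsIntegral ℤ (om p : F) := by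
  rw [om_eq]
  exact NumberField.RingOfIntegers.isIntegral_coe _

theorem sum_int (k : KF F → ℤ) : IsIntegral ℤ (∑ p, (k p : F) * om p) :=
  IsIntegral.sum _ fun p _ => (isIntegral_intCast (k p)).mul (om_int p)

theorem sum_eq (k : KF F → ℤ) : (∑ p, (k p : F) * om p) =
    algebraMap (NumberField.RingOfIntegers F) F
      (∑ p, k p • NumberField.RingOfIntegers.basis F p) := by
  rw [map_sum]
  refine Finset.sum_congr rfl fun p _ => ?_
  rw [om_eq, zsmul_eq_mul, map_mul, map_intCast]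

theorem exists_coord {x : F} (hx : IsIntegral ℤ x) : ∃ k : KF F → ℤ, ∑ p, (k p : F) * om p = x := by
  refine ⟨fun p => (NumberField.RingOfIntegers.basis F).repr ⟨x, hx⟩ p, ?_⟩
  rw [sum_eq, Module.Basis.sum_repr]
  rfl

theorem coord_inj {k l : KF F → ℤ} (h : ∑ p, (k p : F) * om p = ∑ p, (l p : F) * om p) :
    k = l := by
  rw [sum_eq, sum_eq] at h
  have h1 := NumberField.RingOfIntegers.coe_injective h
  rw [← Module.Basis.equivFun_symm_apply, ← Module.Basis.equivFun_symm_apply] at h1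
  exact (LinearEquiv.injective _) h1

omit [Fintype J] [DecidableEq J] in
theorem lat_inj {N : ℕ} (hN : 0 < N) :
    Function.Injective (lat N : ((J × Fin 3) × KF F → ℤ) → J → Fin 3 → F) := by
  intro x y hxy
  have hN0 : (N : F)⁻¹ ≠ 0 := inv_ne_zero (Nat.cast_ne_zero.2 hN.ne')
  ext ⟨⟨i, k⟩, p⟩
  have h1 := congrFun (congrFun hxy i) k
  have h2 := mul_left_cancel₀ hN0 h1
  exact congrFun (coord_inj (k := fun p => x ((i, k), p)) (l := fun p => y ((i, k), p)) h2) p

omit [Fintype J] [DecidableEq J] in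
theorem lat_surj {N : ℕ} (hN : 0 < N) {ξ : J → Fin 3 → F}
    (hξ : ∀ i j, IsIntegral ℤ ((N : F) * ξ i j)) : ∃ x, lat N x = ξ := by
  choose k hk using fun i j => exists_coord (hξ i j)
  refine ⟨fun q => k q.1.1 q.1.2 q.2, ?_⟩
  have hN0 : (N : F) ≠ 0 := Nat.cast_ne_zero.2 hN.ne'
  ext i j
  unfold lat
  rw [hk i j, inv_mul_cancel_left₀ hN0]

end TH7f

open TH7f

/-- TH7f: functions of level `N` -/
theorem exists_lev (N : ℕ) {φ : (J → Fin 3 → F) → ℂ} (hφ : SBJ N φ) :
    ∃ φ' : ((J × Fin 3) × KF F → ZMod (2 * N ^ 2)) → ℂ, Lev N φ φ' := by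
  obtain ⟨hN, -, hper⟩ := hφ
  have hN0 : (N : F) ≠ 0 := Nat.cast_ne_zero.2 hN.ne'
  have : NeZero (2 * N ^ 2) := ⟨by positivity⟩
  refine ⟨fun z => φ (lat N fun p => ((z p).val : ℤ)), fun x => ?_⟩
  have h1 : ∀ q, ∃ m : ℤ, x q = ((red (2 * N ^ 2) x q).val : ℤ) + ((2 * N ^ 2 : ℕ) : ℤ) * m := by
    intro q
    have h2 : (((red (2 * N ^ 2) x q).val : ℤ) : ZMod (2 * N ^ 2)) = (x q : ZMod (2 * N ^ 2)) := by
      rw [Int.cast_natCast, ZMod.natCast_zmod_val]
      rfl
    rw [ZMod.intCast_eq_intCast_iff] at h2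
    obtain ⟨m, hm⟩ := h2.dvd
    exact ⟨m, by linarith⟩
  choose m hm using h1
  have h3 : lat N x = fun i j =>
      lat N (fun p => ((red (2 * N ^ 2) x p).val : ℤ)) i j +
        (N : F) * (2 * ∑ p, (m ((i, j), p) : F) * om p) := by
    ext i j
    unfold lat
    have h4 : ∑ p, (x ((i, j), p) : F) * om p =
        ∑ p, (((red (2 * N ^ 2) x ((i, j), p)).val : ℤ) : F) * om p +
          (2 * (N : F) ^ 2) * ∑ p, (m ((i, j), p) : F) * om p := by
      rw [Finset.mul_sum, ← Finset.sum_add_distrib]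
      refine Finset.sum_congr rfl fun p _ => ?_
      conv_lhs => rw [hm ((i, j), p)]
      push_cast
      ring
    rw [h4]
    field_simp
  change φ (lat N fun p => ((red (2 * N ^ 2) x p).val : ℤ)) = φ (lat N x)
  rw [h3]
  have h5 : IsIntegral ℤ (2 : F) := by
    simpa using (isIntegral_algebraMap (R := ℤ) (A := F) (x := 2))
  exact (hper _ _ fun i j => h5.mul (sum_int _)).symm

theorem tsum_lat (N : ℕ) {φ : (J → Fin 3 → F) → ℂ} (hφ : SBJ N φ)
    (f : (J → Fin 3 → F) → ℂ) :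
    ∑' ξ, φ ξ * f ξ = ∑' x : (J × Fin 3) × KF F → ℤ, φ (lat N x) * f (lat N x) := by
  obtain ⟨hN, hsup, -⟩ := hφ
  symm
  apply (lat_inj (J := J) (F := F) hN).tsum_eq (f := fun ξ => φ ξ * f ξ)
  intro ξ hξ
  exact lat_surj hN (hsup ξ (left_ne_zero_of_mul hξ))

end

end Pool.CMH
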