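import Mathlib
import Pool.Agent.Lib.CMH.P1Geo
import Pool.Agent.Lib.CMH.TH8asm

/-! # TANK CMH, row TH8c: assembly over the real places, in the form of `P1Geo` (helper45). -/

set_option autoImplicit false
set_option linter.unusedSectionVars false
set_option linter.unusedSimpArgs false

open Matrix Complex

namespace Pool.CMH

noncomputable section

section transport

variable {m V κ : Type} [Fintype m] [Fintype V] [Fintype κ] [DecidableEq m] [DecidableEq V]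
  [DecidableEq κ] {W : Matrix V κ ℝ} {W' : Matrix κ V ℝ}

lemma T8.Eh_bd_Eh {κ' : Type} (X : Matrix κ V ℝ) (Y : Matrix V κ' ℝ)
    (B : V → Matrix m m ℂ) (p : m × κ) (q : m × κ') :
    (Eh (m := m) X * blockDiagonal B * Eh (m := m) Y) p q =
      ∑ v, (X p.2 v : ℂ) * B v p.1 q.1 * (Y v q.2 : ℂ) := by
  obtain ⟨i, b⟩ := p
  obtain ⟨j, c⟩ := q
  rw [Matrix.mul_apply, Fintype.sum_prod_type]
  simp only [Matrix.mul_apply, Fintype.sum_prod_type, Eh, blockDiagonal_apply,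
    ite_mul, mul_ite, zero_mul, mul_zero, Finset.sum_ite_eq, Finset.sum_ite_eq',
    Finset.sum_ite_irrel, Finset.sum_const_zero, Finset.mem_univ, if_true]

lemma T8.Eh_tr (W : Matrix V κ ℝ) : Eh (m := m) Wᵀ = (Eh (m := m) W)ᵀ := by
  ext ⟨i, b⟩ ⟨j, v⟩
  simp only [Eh, transpose_apply]
  by_cases h : i = j
  · simp [h]
  · simp [h, Ne.symm h]

lemma T8.tU_eq (W : Matrix V κ ℝ) (B : V → Matrix m m ℂ) :
    tU W B = Eh (m := m) Wᵀ * blockDiagonal B * Eh (m := m) W := by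
  ext p q; rw [T8.Eh_bd_Eh]; rfl

lemma T8.tD_eq (W : Matrix V κ ℝ) (W' : Matrix κ V ℝ) (B : V → Matrix m m ℂ) :
    tD W W' B = Eh (m := m) W' * blockDiagonal B * Eh (m := m) W := by
  ext p q; rw [T8.Eh_bd_Eh]; rfl

lemma T8.tA_eq (W : Matrix V κ ℝ) (W' : Matrix κ V ℝ) (B : V → Matrix m m ℂ) :
    tA W W' B = Eh (m := m) Wᵀ * blockDiagonal B * Eh (m := m) W'ᵀ := by
  ext p q; rw [T8.Eh_bd_Eh]; rfl

lemma T8.tC_eq (W' : Matrix κ V ℝ) (B : V → Matrix m m ℂ) :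
    tC W' B = Eh (m := m) W' * blockDiagonal B * Eh (m := m) W'ᵀ := by
  ext p q; rw [T8.Eh_bd_Eh]; rfl

/-- cancellation in a product of transported matrices. -/
lemma T8.gen_mul {κ₁ κ₂ : Type} {X : Matrix κ₁ V ℝ} {Y : Matrix V κ ℝ} {Y' : Matrix κ V ℝ}
    {U : Matrix V κ₂ ℝ} (h : Y * Y' = 1) (A B : V → Matrix m m ℂ) :
    (Eh (m := m) X * blockDiagonal A * Eh (m := m) Y) *
        (Eh (m := m) Y' * blockDiagonal B * Eh (m := m) U) =
      Eh (m := m) X * blockDiagonal (fun v => A v * B v) * Eh (m := m) U := by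
  have h1 : Eh (m := m) Y * Eh (m := m) Y' = 1 := Eh_mul h
  calc (Eh (m := m) X * blockDiagonal A * Eh (m := m) Y) *
        (Eh (m := m) Y' * blockDiagonal B * Eh (m := m) U)
      = Eh (m := m) X * blockDiagonal A * (Eh (m := m) Y * Eh (m := m) Y') * blockDiagonal B *
          Eh (m := m) U := by simp only [Matrix.mul_assoc]
    _ = _ := by
      rw [h1, Matrix.mul_one, blockDiagonal_mul]
      simp only [Matrix.mul_assoc]

lemma T8.h2t (h2 : W * W' = 1) : W'ᵀ * Wᵀ = 1 := by rw [← transpose_mul, h2, transpose_one]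
lemma T8.h1t (h1 : W' * W = 1) : Wᵀ * W'ᵀ = 1 := by rw [← transpose_mul, h1, transpose_one]

lemma T8.tC_mul_tU (h2 : W * W' = 1) (A B : V → Matrix m m ℂ) :
    tC W' A * tU W B = tD W W' (fun v => A v * B v) := by
  rw [T8.tC_eq, T8.tU_eq, T8.tD_eq, T8.gen_mul (T8.h2t h2)]

lemma T8.tA_mul_tU (h2 : W * W' = 1) (A B : V → Matrix m m ℂ) :
    tA W W' A * tU W B = tU W (fun v => A v * B v) := by
  rw [T8.tA_eq, T8.tU_eq, T8.tU_eq, T8.gen_mul (T8.h2t h2)]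

lemma T8.tU_mul_tD (h2 : W * W' = 1) (A B : V → Matrix m m ℂ) :
    tU W A * tD W W' B = tU W (fun v => A v * B v) := by
  rw [T8.tU_eq, T8.tD_eq, T8.tU_eq, T8.gen_mul h2]

lemma T8.tD_mul_tD (h2 : W * W' = 1) (A B : V → Matrix m m ℂ) :
    tD W W' A * tD W W' B = tD W W' (fun v => A v * B v) := by
  rw [T8.tD_eq, T8.tD_eq, T8.tD_eq, T8.gen_mul h2]

lemma T8.tD_mul_tC (h2 : W * W' = 1) (A B : V → Matrix m m ℂ) :
    tD W W' A * tC W' B = tC W' (fun v => A v * B v) := by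
  rw [T8.tD_eq, T8.tC_eq, T8.tC_eq, T8.gen_mul h2]

lemma T8.tD_one (h1 : W' * W = 1) : tD W W' (fun _ => (1 : Matrix m m ℂ)) = 1 := by
  rw [T8.tD_eq]
  have : blockDiagonal (fun _ : V => (1 : Matrix m m ℂ)) = 1 := blockDiagonal_one
  rw [this, Matrix.mul_one, Eh_mul h1]

lemma T8.tU_add (W : Matrix V κ ℝ) (A B : V → Matrix m m ℂ) :
    tU W A + tU W B = tU W (fun v => A v + B v) := by
  ext p q
  simp only [tU, Matrix.add_apply, ← Finset.sum_add_distrib]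
  exact Finset.sum_congr rfl fun v _ => by ring

lemma T8.tD_add (W : Matrix V κ ℝ) (W' : Matrix κ V ℝ) (A B : V → Matrix m m ℂ) :
    tD W W' A + tD W W' B = tD W W' (fun v => A v + B v) := by
  ext p q
  simp only [tD, Matrix.add_apply, ← Finset.sum_add_distrib]
  exact Finset.sum_congr rfl fun v _ => by ring

theorem Bl_au (h1 : W' * W = 1) (h2 : W * W' = 1)
    {M : Matrix ((m × κ) ⊕ (m × κ)) ((m × κ) ⊕ (m × κ)) ℤ} {A B C D : V → Matrix m m ℂ}
    (h : Bl W W' M A B C D) (Z : V → Matrix m m ℂ) :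
    au M ((2 : ℂ) • tU W Z) = tD W W' (fun v => C v * Z v + D v) := by
  unfold au
  rw [h.hC, h.hD, Matrix.smul_mul, Matrix.mul_smul, smul_smul, T8.tC_mul_tU h2,
    inv_mul_cancel₀ (two_ne_zero), one_smul, T8.tD_add]

theorem tD_det (h1 : W' * W = 1) (h2 : W * W' = 1) (B : V → Matrix m m ℂ) :
    (tD W W' B).det = ∏ v, (B v).det := by
  rw [T8.tD_eq, Matrix.det_conj_of_mul_eq_one (Eh_mul h1) (Eh_mul h2), Matrix.det_blockDiagonal]

theorem Bl_mv (h1 : W' * W = 1) (h2 : W * W' = 1)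
    {M : Matrix ((m × κ) ⊕ (m × κ)) ((m × κ) ⊕ (m × κ)) ℤ} {A B C D : V → Matrix m m ℂ}
    (h : Bl W W' M A B C D) {Z Z' : V → Matrix m m ℂ}
    (e : ∀ v, A v * Z v + B v = Z' v * (C v * Z v + D v))
    (hu : ∀ v, IsUnit (C v * Z v + D v).det) :
    mv M ((2 : ℂ) • tU W Z) = (2 : ℂ) • tU W Z' := by
  have e1 := Bl_au h1 h2 h Z
  have hdet : IsUnit (au M ((2 : ℂ) • tU W Z)).det := by
    rw [e1, tD_det h1 h2]
    exact isUnit_iff_ne_zero.mpr (Finset.prod_ne_zero_iff.mpr fun v _ => (hu v).ne_zero)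
  have e2 : bA M * ((2 : ℂ) • tU W Z) + bB M =
      ((2 : ℂ) • tU W Z') * au M ((2 : ℂ) • tU W Z) := by
    rw [e1, h.hA, h.hB, Matrix.mul_smul, T8.tA_mul_tU h2, Matrix.smul_mul, T8.tU_mul_tD h2, ← smul_add,
      T8.tU_add]
    congr 2
    funext v
    exact e v
  unfold mv
  rw [e2, Matrix.mul_nonsing_inv_cancel_right _ _ hdet]

lemma T8.tD_inv (h1 : W' * W = 1) (h2 : W * W' = 1) {J : V → Matrix m m ℂ}
    (hu : ∀ v, IsUnit (J v).det) : (tD W W' J)⁻¹ = tD W W' (fun v => (J v)⁻¹) := by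
  apply Matrix.inv_eq_right_inv
  rw [T8.tD_mul_tD h2]
  have : (fun v => J v * (J v)⁻¹) = fun _ : V => (1 : Matrix m m ℂ) := by
    funext v; exact Matrix.mul_nonsing_inv _ (hu v)
  rw [this, T8.tD_one h1]

/-- a vector placed at `v`. -/
def T8.sgl (v : V) (e : m → ℂ) : m × V → ℂ := fun p => if p.2 = v then e p.1 else 0

lemma T8.vv_eq (W : Matrix V κ ℝ) (v : V) (e : m → ℂ) :
    vv W v e = Eh (m := m) Wᵀ *ᵥ T8.sgl v e := by
  ext ⟨i, b⟩
  simp only [mulVec, dotProduct, Fintype.sum_prod_type, transpose_apply, Eh, T8.sgl,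
    ite_mul, mul_ite, zero_mul, mul_zero, Finset.sum_ite_eq', Finset.sum_ite_eq,
    Finset.sum_ite_irrel, Finset.sum_const_zero, Finset.mem_univ, if_true, vv]

lemma T8.bd_sgl (J : V → Matrix m m ℂ) (v : V) (e : m → ℂ) :
    blockDiagonal J *ᵥ T8.sgl v e = T8.sgl v (J v *ᵥ e) := by
  ext ⟨i, w⟩
  simp only [mulVec, dotProduct, Fintype.sum_prod_type, blockDiagonal_apply, ite_mul, mul_ite,
    zero_mul, mul_zero, Finset.sum_ite_eq, Finset.sum_ite_eq', Finset.mem_univ, if_true,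
    Finset.sum_ite_irrel, Finset.sum_const_zero, T8.sgl]
  by_cases hv : w = v
  · subst hv; simp
  · simp [hv]

theorem Bl_uu (h1 : W' * W = 1) (h2 : W * W' = 1)
    {M : Matrix ((m × κ) ⊕ (m × κ)) ((m × κ) ⊕ (m × κ)) ℤ} {A B C D : V → Matrix m m ℂ}
    (h : Bl W W' M A B C D) {Z : V → Matrix m m ℂ}
    (hu : ∀ v, IsUnit (C v * Z v + D v).det) (v : V) (e : m → ℂ) :
    uu M ((2 : ℂ) • tU W Z) (vv W v e) = vv W v (((C v * Z v + D v)⁻¹)ᵀ *ᵥ e) := by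
  unfold uu
  rw [Bl_au h1 h2 h, T8.tD_inv h1 h2 hu, T8.tD_eq, T8.vv_eq, mulVec_mulVec]
  have e1 : (Eh (m := m) W' * blockDiagonal (fun v => (C v * Z v + D v)⁻¹) * Eh (m := m) W)ᵀ *
      Eh (m := m) Wᵀ =
      Eh (m := m) Wᵀ * blockDiagonal (fun v => ((C v * Z v + D v)⁻¹)ᵀ) := by
    rw [transpose_mul, transpose_mul, ← T8.Eh_tr, ← T8.Eh_tr, blockDiagonal_transpose,
      Matrix.mul_assoc, Matrix.mul_assoc, Eh_mul (T8.h2t h2), Matrix.mul_one]
  rw [e1, ← mulVec_mulVec, T8.bd_sgl, ← T8.vv_eq]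

theorem Bl_qq (h1 : W' * W = 1) (h2 : W * W' = 1)
    {M : Matrix ((m × κ) ⊕ (m × κ)) ((m × κ) ⊕ (m × κ)) ℤ} {A B C D : V → Matrix m m ℂ}
    (h : Bl W W' M A B C D) {Z : V → Matrix m m ℂ}
    (hu : ∀ v, IsUnit (C v * Z v + D v).det) (v : V) (e e' : m → ℂ) :
    vv W v e ⬝ᵥ (((au M ((2 : ℂ) • tU W Z))⁻¹ * bC M) *ᵥ vv W v e') =
      (2 : ℂ)⁻¹ * (e ⬝ᵥ (((C v * Z v + D v)⁻¹ * C v) *ᵥ e')) := by
  rw [Bl_au h1 h2 h, T8.tD_inv h1 h2 hu, h.hC, Matrix.mul_smul, T8.tD_mul_tC h2, smul_mulVec,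
    dotProduct_smul, smul_eq_mul]
  congr 1
  rw [T8.tC_eq, T8.vv_eq, T8.vv_eq, mulVec_mulVec, Matrix.mul_assoc _ (Eh (m := m) W'ᵀ), Eh_mul (T8.h2t h2),
    Matrix.mul_one, ← mulVec_mulVec, T8.bd_sgl]
  rw [T8.Eh_tr, mulVec_transpose, ← dotProduct_mulVec, mulVec_mulVec, Eh_mul h2, one_mulVec]
  simp only [dotProduct, Fintype.sum_prod_type, T8.sgl, ite_mul, zero_mul, mul_ite, mul_zero,
    Finset.sum_ite_eq', Finset.sum_ite_eq, Finset.mem_univ, if_true]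

theorem tU_mem (h1 : W' * W = 1) {Z : V → Matrix m m ℂ} (hZ : ∀ v, Z v ∈ Sieg m) :
    (2 : ℂ) • tU W Z ∈ Sieg (m × κ) := by
  have h := tot_mem (E := W) h1 hZ
  have e1 : tot W Z = tU W Z := rfl
  rw [e1] at h
  refine ⟨?_, ?_⟩
  · rw [transpose_smul, h.1]
  · intro x hx
    have h2 := h.2 x hx
    have h3 : ∑ i, ∑ j, x i * x j * (((2 : ℂ) • tU W Z) i j).im =
        2 * ∑ i, ∑ j, x i * x j * (tU W Z i j).im := by
      simp_rw [Finset.mul_sum]
      refine Finset.sum_congr rfl fun i _ => Finset.sum_congr rfl fun j _ => ?_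
      have : (((2 : ℂ) • tU W Z) i j).im = 2 * (tU W Z i j).im := by
        simp [Matrix.smul_apply]
      rw [this]; ring
    rw [h3]
    linarith

/-- the quadratic form of the assembled matrix -/
theorem tU_qf (Z : V → Matrix m m ℂ) (x : m × κ → ℤ) :
    qf ((2 : ℂ) • tU W Z) x =
      2 * ∑ v, ∑ i, ∑ j, (∑ p, (x (i, p) : ℂ) * (W v p : ℂ)) *
        (∑ p, (x (j, p) : ℂ) * (W v p : ℂ)) * Z v i j := by
  have h := qf_tot W Z x
  have e1 : qf ((2 : ℂ) • tU W Z) x = 2 * qf (tot W Z) x := by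
    unfold qf
    rw [Finset.mul_sum]
    refine Finset.sum_congr rfl fun i _ => ?_
    rw [Finset.mul_sum]
    refine Finset.sum_congr rfl fun j _ => ?_
    rw [Matrix.smul_apply, smul_eq_mul]
    change _ * (2 * tU W Z i j) = 2 * (_ * tU W Z i j)
    ring
  rw [e1, h]
  congr 1
  refine Finset.sum_congr rfl fun v _ => Finset.sum_congr rfl fun i _ =>
    Finset.sum_congr rfl fun j _ => ?_
  unfold at'
  push_cast
  rfl

theorem vv_lf (v : V) (e : m → ℂ) (x : m × κ → ℤ) :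
    lf (vv W v e) x = ∑ i, (∑ p, (x (i, p) : ℂ) * (W v p : ℂ)) * e i := by
  have h := lf_lift W v e x
  have e1 : lift W v e = vv W v e := rfl
  rw [← e1, h]
  refine Finset.sum_congr rfl fun i _ => ?_
  unfold at'
  push_cast
  rfl

end transport

end

end Pool.CMH
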