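import Mathlib

/-! # TANK CMH, P1, TH8: positivity (helper45).
The Siegel points of the ball and of the majorants. -/

set_option autoImplicit false

open Matrix Finset

namespace Pool.CMH.Pos

noncomputable section

section real
variable {ι : Type*} [Fintype ι]

/-- real bilinear form with diagonal `h`. -/
def rb (h x y : ι → ℝ) : ℝ := ∑ i, h i * x i * y i

/-- complex bilinear form with (real) diagonal `h`. -/
def cb (h : ι → ℝ) (x y : ι → ℂ) : ℂ := ∑ i, (h i : ℂ) * x i * y i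

lemma rb_comm (h x y : ι → ℝ) : rb h x y = rb h y x := by
  unfold rb; exact Finset.sum_congr rfl fun i _ => by ring

lemma rb_add_left (h x x' y : ι → ℝ) : rb h (x + x') y = rb h x y + rb h x' y := by
  unfold rb; rw [← Finset.sum_add_distrib]
  exact Finset.sum_congr rfl fun i _ => by simp [Pi.add_apply]; ring

lemma rb_smul_left (h : ι → ℝ) (c : ℝ) (x y : ι → ℝ) : rb h (c • x) y = c * rb h x y := by
  unfold rb; rw [Finset.mul_sum]
  exact Finset.sum_congr rfl fun i _ => by simp [Pi.smul_apply]; ring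

lemma rb_add_right (h x y y' : ι → ℝ) : rb h x (y + y') = rb h x y + rb h x y' := by
  rw [rb_comm, rb_add_left, rb_comm h y x, rb_comm h y' x]

lemma rb_smul_right (h : ι → ℝ) (c : ℝ) (x y : ι → ℝ) : rb h x (c • y) = c * rb h x y := by
  rw [rb_comm, rb_smul_left, rb_comm]

/-- On the orthogonal complement of a negative vector the form is positive definite. -/
lemma pos_perp [DecidableEq ι] {h : ι → ℝ} {i0 : ι} (h0 : h i0 < 0) (h1 : ∀ i, i ≠ i0 → 0 < h i)
    {p t : ι → ℝ} (hp : rb h p p < 0) (ht : rb h t p = 0) : 0 ≤ rb h t t ∧ (rb h t t = 0 → t = 0) := by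
  classical
  set S := Finset.univ.erase i0 with hS
  have hsplit : ∀ f : ι → ℝ, ∑ i, f i = f i0 + ∑ i ∈ S, f i := fun f =>
    (Finset.add_sum_erase Finset.univ f (Finset.mem_univ i0)).symm
  have hSpos : ∀ i ∈ S, 0 < h i := fun i hi => h1 i (Finset.ne_of_mem_erase hi)
  have e1 : rb h p p = h i0 * p i0 ^ 2 + ∑ i ∈ S, h i * p i ^ 2 := by
    unfold rb; rw [hsplit]; congr 1
    · ring
    · exact Finset.sum_congr rfl fun i _ => by ring
  have e2 : rb h t t = h i0 * t i0 ^ 2 + ∑ i ∈ S, h i * t i ^ 2 := by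
    unfold rb; rw [hsplit]; congr 1
    · ring
    · exact Finset.sum_congr rfl fun i _ => by ring
  have e3 : rb h t p = h i0 * t i0 * p i0 + ∑ i ∈ S, h i * t i * p i := by
    unfold rb; rw [hsplit]
  have hA0 : 0 ≤ ∑ i ∈ S, h i * p i ^ 2 :=
    Finset.sum_nonneg fun i hi => mul_nonneg (hSpos i hi).le (sq_nonneg _)
  have hB0 : 0 ≤ ∑ i ∈ S, h i * t i ^ 2 :=
    Finset.sum_nonneg fun i hi => mul_nonneg (hSpos i hi).le (sq_nonneg _)
  have hcs : (∑ i ∈ S, h i * t i * p i) ^ 2 ≤ (∑ i ∈ S, h i * t i ^ 2) * ∑ i ∈ S, h i * p i ^ 2 := by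
    refine Finset.sum_sq_le_sum_mul_sum_of_sq_le_mul S
      (fun i hi => mul_nonneg (hSpos i hi).le (sq_nonneg _))
      (fun i hi => mul_nonneg (hSpos i hi).le (sq_nonneg _)) ?_
    intro i hi; exact le_of_eq (by ring)
  have hp0 : p i0 ≠ 0 := by
    intro h00
    rw [e1, h00] at hp
    simp at hp
    linarith
  have hp2 : 0 < p i0 ^ 2 := by positivity
  rw [e3] at ht
  have e4 : ∑ i ∈ S, h i * t i * p i = - (h i0 * t i0 * p i0) := by linarith
  rw [e4] at hcs
  -- (h0 t0 p0)^2 ≤ B A, A < - h0 p0^2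
  rw [e1] at hp
  set A := ∑ i ∈ S, h i * p i ^ 2 with hA
  set B := ∑ i ∈ S, h i * t i ^ 2 with hB
  have hAlt : A < - h i0 * p i0 ^ 2 := by linarith
  have hk : 0 < - h i0 * p i0 ^ 2 := by nlinarith
  have key : (-h i0 * p i0 ^ 2) * (-h i0 * t i0 ^ 2) ≤ B * (-h i0 * p i0 ^ 2) := by
    calc (-h i0 * p i0 ^ 2) * (-h i0 * t i0 ^ 2) = (-(h i0 * t i0 * p i0)) ^ 2 := by ring
      _ ≤ B * A := hcs
      _ ≤ B * (-h i0 * p i0 ^ 2) := mul_le_mul_of_nonneg_left hAlt.le hB0
  have key2 : -h i0 * t i0 ^ 2 ≤ B := by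
    have := key
    rw [mul_comm B] at this
    exact le_of_mul_le_mul_left this hk
  refine ⟨by rw [e2]; linarith, ?_⟩
  intro hz
  rw [e2] at hz
  have hBe : B = -h i0 * t i0 ^ 2 := by linarith
  have hB00 : B = 0 := by
    by_contra hne
    have hBp : 0 < B := lt_of_le_of_ne hB0 (Ne.symm hne)
    have : (-h i0 * p i0 ^ 2) * (-h i0 * t i0 ^ 2) < B * (-h i0 * p i0 ^ 2) := by
      calc (-h i0 * p i0 ^ 2) * (-h i0 * t i0 ^ 2) = (-(h i0 * t i0 * p i0)) ^ 2 := by ring
        _ ≤ B * A := hcs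
        _ < B * (-h i0 * p i0 ^ 2) := mul_lt_mul_of_pos_left hAlt hBp
    rw [← hBe, mul_comm] at this
    exact lt_irrefl _ this
  have ht0 : t i0 = 0 := by
    rw [hB00] at hBe
    have : t i0 ^ 2 = 0 := by
      have h3 : -h i0 * t i0 ^ 2 = 0 := hBe.symm
      rcases mul_eq_zero.mp h3 with h4 | h4
      · linarith
      · exact h4
    exact pow_eq_zero_iff (two_ne_zero) |>.mp this
  funext i
  by_cases hi : i = i0
  · rw [hi]; exact ht0
  · have hi' : i ∈ S := Finset.mem_erase.mpr ⟨hi, Finset.mem_univ _⟩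
    have h5 := (Finset.sum_eq_zero_iff_of_nonneg
      (fun i hi => mul_nonneg (hSpos i hi).le (sq_nonneg (t i)))).mp (hB ▸ hB00) i hi'
    rcases mul_eq_zero.mp h5 with h6 | h6
    · exact absurd h6 (hSpos i hi').ne'
    · simpa using pow_eq_zero_iff (two_ne_zero) |>.mp h6

/-- Cauchy-Schwarz on the orthogonal complement of a negative vector. -/
lemma cs_perp [DecidableEq ι] {h : ι → ℝ} {i0 : ι} (h0 : h i0 < 0) (h1 : ∀ i, i ≠ i0 → 0 < h i)
    {p t q : ι → ℝ} (hp : rb h p p < 0) (ht : rb h t p = 0) (hq : rb h q p = 0) :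
    rb h t q ^ 2 ≤ rb h t t * rb h q q := by
  have hd : discrim (rb h q q) (2 * rb h t q) (rb h t t) ≤ 0 := by
    refine discrim_le_zero fun s => ?_
    have h2 : rb h (t + s • q) p = 0 := by
      rw [rb_add_left, rb_smul_left, ht, hq]; ring
    have h3 := (pos_perp h0 h1 hp h2).1
    have h4 : rb h (t + s • q) (t + s • q) =
        rb h q q * (s * s) + 2 * rb h t q * s + rb h t t := by
      rw [rb_add_left, rb_add_right, rb_add_right, rb_smul_left, rb_smul_left, rb_smul_right,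
        rb_smul_right, rb_comm h q t]; ring
    rw [h4] at h3; exact h3
  unfold discrim at hd
  nlinarith

end real

section ball
variable {ι : Type*} [Fintype ι]

lemma cb_smul_smul (h : ι → ℝ) (e : ℂ) (y : ι → ℂ) : cb h (e • y) (e • y) = e ^ 2 * cb h y y := by
  unfold cb; rw [Finset.mul_sum]
  exact Finset.sum_congr rfl fun i _ => by simp only [Pi.smul_apply, smul_eq_mul]; ring

lemma cb_smul_right (h : ι → ℝ) (e : ℂ) (x y : ι → ℂ) : cb h x (e • y) = e * cb h x y := by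
  unfold cb; rw [Finset.mul_sum]
  exact Finset.sum_congr rfl fun i _ => by simp only [Pi.smul_apply, smul_eq_mul]; ring

lemma cb_re (h : ι → ℝ) (y : ι → ℂ) :
    (cb h y y).re = rb h (fun i => (y i).re) (fun i => (y i).re) -
      rb h (fun i => (y i).im) (fun i => (y i).im) := by
  unfold cb rb
  rw [Complex.re_sum, ← Finset.sum_sub_distrib]
  exact Finset.sum_congr rfl fun i _ => by simp

lemma cb_im (h : ι → ℝ) (y : ι → ℂ) :
    (cb h y y).im = 2 * rb h (fun i => (y i).im) (fun i => (y i).re) := by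
  unfold cb rb
  rw [Complex.im_sum, Finset.mul_sum]
  exact Finset.sum_congr rfl fun i _ => by simp; ring

lemma cb_ofReal (h : ι → ℝ) (x : ι → ℝ) (y : ι → ℂ) :
    cb h (fun i => (x i : ℂ)) y =
      (rb h x (fun i => (y i).re) : ℂ) + (rb h x (fun i => (y i).im) : ℂ) * Complex.I := by
  unfold cb rb
  push_cast
  rw [Finset.sum_mul, ← Finset.sum_add_distrib]
  refine Finset.sum_congr rfl fun i _ => ?_
  conv_lhs => rw [← Complex.re_add_im (y i)]
  ring

lemma herm_eq (h : ι → ℝ) (y : ι → ℂ) :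
    ∑ i, h i * ‖y i‖ ^ 2 = rb h (fun i => (y i).re) (fun i => (y i).re) +
      rb h (fun i => (y i).im) (fun i => (y i).im) := by
  unfold rb
  rw [← Finset.sum_add_distrib]
  refine Finset.sum_congr rfl fun i _ => ?_
  rw [← Complex.normSq_eq_norm_sq, Complex.normSq_apply]; ring

/-- the exponent of the theta kernel at a point of the ball. -/
def T (h : ι → ℝ) (y : ι → ℂ) (x : ι → ℝ) : ℝ :=
  (cb h (fun i => (x i : ℂ)) (fun i => (x i : ℂ)) -
    2 * cb h (fun i => (x i : ℂ)) y ^ 2 / cb h y y).re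

/-- Main inequality. There is a decomposition `x = α p + t` with an explicit lower bound. -/
theorem T_lower [DecidableEq ι] {h : ι → ℝ} {i0 : ι} (h0 : h i0 < 0) (h1 : ∀ i, i ≠ i0 → 0 < h i)
    {y : ι → ℂ} (hy : ∑ i, h i * ‖y i‖ ^ 2 < 0) :
    cb h y y ≠ 0 ∧ ∃ p : ι → ℝ, rb h p p < 0 ∧ ∀ x : ι → ℝ, ∃ (α : ℝ) (t : ι → ℝ),
      x = α • p + t ∧ rb h t p = 0 ∧
      (-(∑ i, h i * ‖y i‖ ^ 2) / ‖cb h y y‖) * (α ^ 2 * (-rb h p p) + rb h t t) ≤ T h y x := by
  set c := cb h y y with hc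
  set e : ℂ := Complex.exp (Complex.I * (((Real.pi - c.arg) / 2 : ℝ) : ℂ)) with he
  have hne : ‖e‖ = 1 := by rw [he, mul_comm]; exact Complex.norm_exp_ofReal_mul_I _
  have hee : e ^ 2 * c = -(‖c‖ : ℂ) := by
    have h3 : (‖c‖ : ℂ) * Complex.exp (c.arg * Complex.I) = c := Complex.norm_mul_exp_arg_mul_I c
    have h4 : e ^ 2 = Complex.exp (Complex.I * ((Real.pi - c.arg : ℝ) : ℂ)) := by
      rw [he, ← Complex.exp_nat_mul]; congr 1; push_cast; ring
    have h5 : Complex.exp (Complex.I * ((Real.pi - c.arg : ℝ) : ℂ)) * Complex.exp (c.arg * Complex.I) = -1 := by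
      rw [← Complex.exp_add, ← Complex.exp_pi_mul_I]
      congr 1
      push_cast; ring
    rw [h4]
    calc Complex.exp (Complex.I * ((Real.pi - c.arg : ℝ) : ℂ)) * c
        = Complex.exp (Complex.I * ((Real.pi - c.arg : ℝ) : ℂ)) *
          ((‖c‖ : ℂ) * Complex.exp (c.arg * Complex.I)) := by rw [h3]
      _ = (‖c‖ : ℂ) * (Complex.exp (Complex.I * ((Real.pi - c.arg : ℝ) : ℂ)) *
          Complex.exp (c.arg * Complex.I)) := by ring
      _ = -(‖c‖ : ℂ) := by rw [h5]; ring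
  set z : ι → ℂ := e • y with hz
  set p : ι → ℝ := fun i => (z i).re with hp
  set q : ι → ℝ := fun i => (z i).im with hq
  have hzz : cb h z z = -(‖c‖ : ℂ) := by rw [hz, cb_smul_smul]; exact hee
  have hre : rb h p p - rb h q q = -‖c‖ := by
    rw [← cb_re, hzz]; simp
  have him : rb h q p = 0 := by
    have := cb_im h z
    rw [hzz] at this
    simp at this
    linarith
  have hher : ∑ i, h i * ‖y i‖ ^ 2 = rb h p p + rb h q q := by
    rw [← herm_eq]
    refine Finset.sum_congr rfl fun i _ => ?_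
    rw [hz, Pi.smul_apply, smul_eq_mul, norm_mul, hne, one_mul]
  have hpp : rb h p p < 0 := by
    have := norm_nonneg c
    rw [hher] at hy
    linarith
  have hqq : 0 ≤ rb h q q := (pos_perp h0 h1 hpp him).1
  have hr : 0 < ‖c‖ := by linarith
  have hc0 : c ≠ 0 := norm_pos_iff.mp hr
  refine ⟨hc0, p, hpp, fun x => ?_⟩
  refine ⟨rb h x p / rb h p p, x - (rb h x p / rb h p p) • p, by abel, ?_, ?_⟩
  · rw [sub_eq_add_neg, ← neg_smul, rb_add_left, rb_smul_left, neg_mul, div_mul_cancel₀ _ hpp.ne]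
    ring
  set α := rb h x p / rb h p p with hα
  set t := x - α • p with ht
  have hxt : x = α • p + t := by rw [ht]; abel
  have htp : rb h t p = 0 := by
    rw [ht, sub_eq_add_neg, ← neg_smul, rb_add_left, rb_smul_left, hα, neg_mul,
      div_mul_cancel₀ _ hpp.ne]
    ring
  have hcs : rb h t q ^ 2 ≤ rb h t t * rb h q q := cs_perp h0 h1 hpp htp him
  have hxp : rb h x p = α * rb h p p := by rw [hxt, rb_add_left, rb_smul_left, htp]; ring
  have hxq : rb h x q = rb h t q := by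
    rw [hxt, rb_add_left, rb_smul_left, rb_comm h p q, him]; ring
  have hxx : rb h x x = α ^ 2 * rb h p p + rb h t t := by
    conv_lhs => rw [hxt]
    rw [rb_add_left, rb_add_right, rb_add_right, rb_smul_left, rb_smul_left, rb_smul_right,
      rb_smul_right, rb_comm h p t, htp]; ring
  have hT : T h y x = rb h x x + 2 / ‖c‖ * (rb h x p ^ 2 - rb h x q ^ 2) := by
    unfold T
    have e1 : cb h (fun i => (x i : ℂ)) y ^ 2 / cb h y y =
        -(cb h (fun i => (x i : ℂ)) z ^ 2) / (‖c‖ : ℂ) := by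
      have he0 : e ≠ 0 := by rw [← norm_pos_iff, hne]; exact one_pos
      have hcc : ((‖c‖ : ℝ) : ℂ) ≠ 0 := by exact_mod_cast hr.ne'
      rw [hz, cb_smul_right, ← hc, div_eq_div_iff hc0 hcc]
      have : (‖c‖ : ℂ) = -(e ^ 2 * c) := by rw [hee]; ring
      rw [this]; ring
    rw [mul_div_assoc, e1, cb_ofReal h x z, Complex.sub_re]
    have e2 : (cb h (fun i => (x i : ℂ)) (fun i => (x i : ℂ))).re = rb h x x := by
      rw [cb_re]; simp [rb]
    rw [e2]
    have e3 : (2 * (-((rb h x (fun i => (z i).re) : ℂ) +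
        (rb h x (fun i => (z i).im) : ℂ) * Complex.I) ^ 2 / (‖c‖ : ℂ))).re =
        -(2 / ‖c‖ * (rb h x p ^ 2 - rb h x q ^ 2)) := by
      have e4 : (2 * (-((rb h x (fun i => (z i).re) : ℂ) +
        (rb h x (fun i => (z i).im) : ℂ) * Complex.I) ^ 2 / (‖c‖ : ℂ))) =
        ((-(2 / ‖c‖ * (rb h x p ^ 2 - rb h x q ^ 2)) : ℝ) : ℂ) +
        ((-(2 / ‖c‖ * (2 * rb h x p * rb h x q)) : ℝ) : ℂ) * Complex.I := by
        push_cast
        have hcc : ((‖c‖ : ℝ) : ℂ) ≠ 0 := by exact_mod_cast hr.ne'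
        field_simp
        ring_nf
        rw [Complex.I_sq]
        ring
      rw [e4, Complex.add_re, Complex.mul_re, Complex.ofReal_re, Complex.ofReal_re,
        Complex.ofReal_im, Complex.I_re, Complex.I_im]; ring
    rw [e3]; ring
  rw [hT, hxx, hxp, hxq, hher]
  have hPQ : ‖c‖ = rb h q q - rb h p p := by linarith
  have htt : 0 ≤ rb h t t := (pos_perp h0 h1 hpp htp).1
  have hN : 0 < rb h q q - rb h p p := by linarith
  rw [hPQ]
  rw [div_mul_eq_mul_div, div_le_iff₀ hN, add_mul]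
  have e5 : 2 / (rb h q q - rb h p p) * ((α * rb h p p) ^ 2 - rb h t q ^ 2) *
      (rb h q q - rb h p p) = 2 * ((α * rb h p p) ^ 2 - rb h t q ^ 2) := by
    field_simp
  rw [e5]
  nlinarith [hcs]

theorem T_pos [DecidableEq ι] {h : ι → ℝ} {i0 : ι} (h0 : h i0 < 0) (h1 : ∀ i, i ≠ i0 → 0 < h i)
    {y : ι → ℂ} (hy : ∑ i, h i * ‖y i‖ ^ 2 < 0) {x : ι → ℝ} (hx : x ≠ 0) : 0 < T h y x := by
  obtain ⟨hc, p, hp, H⟩ := T_lower h0 h1 hy
  obtain ⟨α, t, hxt, htp, hle⟩ := H x
  refine lt_of_lt_of_le ?_ hle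
  have htt := pos_perp h0 h1 hp htp
  have hk : 0 < -(∑ i, h i * ‖y i‖ ^ 2) / ‖cb h y y‖ :=
    div_pos (by linarith) (norm_pos_iff.mpr hc)
  refine mul_pos hk ?_
  by_cases ht : rb h t t = 0
  · have : t = 0 := htt.2 ht
    have hα : α ≠ 0 := by
      rintro rfl
      apply hx; rw [hxt, this]; simp
    have : 0 < α ^ 2 := by positivity
    nlinarith
  · have : 0 < rb h t t := lt_of_le_of_ne htt.1 (Ne.symm ht)
    nlinarith [sq_nonneg α]

end ball

end

end Pool.CMH.Pos
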