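import Mathlib
import Pool.Agent.Lib.CMH.TH8k
import Pool.Agent.Lib.CMH.TH8asm
import Pool.Agent.Lib.CMH.Pos

/-! # TANK CMH, row TH8: the local points `Zh`, `Zd` are in the Siegel space (helper45). -/

set_option autoImplicit false
set_option linter.unusedSectionVars false
set_option linter.unusedSimpArgs false

open Matrix Complex
open scoped Kronecker

namespace Pool.CMH

open Pool.Agent.CMH.TH8

noncomputable section

variable {m n : Type} [Fintype m] [Fintype n] [DecidableEq m] [DecidableEq n]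

lemma posDef_quad {P : Matrix n n ℝ} (h : P.PosDef) {x : n → ℝ} (hx : x ≠ 0) :
    0 < ∑ i, ∑ j, x i * x j * P i j := by
  have h1 := h.dotProduct_mulVec_pos hx
  have h2 : star x ⬝ᵥ (P *ᵥ x) = ∑ i, ∑ j, x i * x j * P i j := by
    simp only [dotProduct, mulVec, star_trivial, Finset.mul_sum]
    exact Finset.sum_congr rfl fun i _ => Finset.sum_congr rfl fun j _ => by ring
  rwa [h2] at h1

lemma posDef_of_quad {P : Matrix n n ℝ} (hs : Pᵀ = P)
    (h : ∀ x : n → ℝ, x ≠ 0 → 0 < ∑ i, ∑ j, x i * x j * P i j) : P.PosDef := by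
  refine Matrix.PosDef.of_dotProduct_mulVec_pos ?_ ?_
  · rw [Matrix.IsHermitian, conjTranspose_eq_transpose_of_trivial, hs]
  · intro x hx
    have h2 : star x ⬝ᵥ (P *ᵥ x) = ∑ i, ∑ j, x i * x j * P i j := by
      simp only [dotProduct, mulVec, star_trivial, Finset.mul_sum]
      exact Finset.sum_congr rfl fun i _ => Finset.sum_congr rfl fun j _ => by ring
    rw [h2]; exact h x hx

/-- `(i/δ) Q ⊗ N` is in the Siegel space. -/
theorem kron_mem {δ : ℝ} (hδ : 0 < δ) {Q : Matrix m m ℝ} (hQ : Q.PosDef) {N : Matrix n n ℂ}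
    (hN : Nᵀ = N) (hN' : (N.map Complex.re).PosDef) :
    (Complex.I / (δ : ℂ)) • (cx Q ⊗ₖ N) ∈ Sieg (m × n) := by
  have hQs : Qᵀ = Q := by
    have := hQ.isHermitian
    rwa [Matrix.IsHermitian, conjTranspose_eq_transpose_of_trivial] at this
  refine ⟨?_, ?_⟩
  · ext ⟨i, j⟩ ⟨i', j'⟩
    have e1 : Q i' i = Q i i' := congrFun (congrFun hQs i) i'
    have e2 : N j' j = N j j' := congrFun (congrFun hN j) j'
    simp only [transpose_apply, Matrix.smul_apply, kroneckerMap_apply, map_apply, smul_eq_mul, e1,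
      e2]
  · intro x hx
    have hK : (Q ⊗ₖ N.map Complex.re).PosDef := hQ.kronecker hN'
    have h1 := posDef_quad hK hx
    have h2 : ∀ p q : m × n, (((Complex.I / (δ : ℂ)) • (cx Q ⊗ₖ N)) p q).im =
        δ⁻¹ * (Q ⊗ₖ N.map Complex.re) p q := by
      rintro ⟨i, j⟩ ⟨i', j'⟩
      simp only [Matrix.smul_apply, kroneckerMap_apply, map_apply, smul_eq_mul]
      have e3 : Complex.I / (δ : ℂ) * ((Q i i' : ℂ) * N j j') =
          ((δ⁻¹ * Q i i' : ℝ) : ℂ) * (Complex.I * N j j') := by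
        push_cast; field_simp
      rw [e3, Complex.im_ofReal_mul, Complex.I_mul_im]
      ring
    simp_rw [h2]
    have h3 : ∑ p, ∑ q, x p * x q * (δ⁻¹ * (Q ⊗ₖ N.map Complex.re) p q) =
        δ⁻¹ * ∑ p, ∑ q, x p * x q * (Q ⊗ₖ N.map Complex.re) p q := by
      simp_rw [Finset.mul_sum]
      exact Finset.sum_congr rfl fun i _ => Finset.sum_congr rfl fun j _ => by ring
    rw [h3]
    exact mul_pos (inv_pos.mpr hδ) h1

/-- the complex diagonal matrix of a real vector. -/
abbrev dg (h : n → ℝ) : Matrix n n ℂ := diagonal fun i => (h i : ℂ)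

lemma dg_symm (h : n → ℝ) : (dg h)ᵀ = dg h := diagonal_transpose _

lemma bf_dg (h : n → ℝ) (p q : n → ℂ) : bf (dg h) p q = Pos.cb h p q := by
  unfold bf Pos.cb
  simp only [dotProduct, mulVec_diagonal]
  exact Finset.sum_congr rfl fun i _ => by ring

lemma HS_apply (h : n → ℝ) (p : n → ℂ) (i j : n) :
    (dg h * S (dg h) p) i j = (if i = j then (h i : ℂ) else 0) -
      2 * ((h i * p i) * (h j * p j)) / Pos.cb h p p := by
  unfold S Pm
  rw [bf_dg, mul_sub, Matrix.mul_one, Matrix.sub_apply]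
  have e1 : dg h i j = if i = j then (h i : ℂ) else 0 := diagonal_apply _ _ _
  have e2 : (dg h * (2 : ℂ) • (Pos.cb h p p)⁻¹ • vecMulVec p (dg h *ᵥ p)) i j =
      2 * ((h i * p i) * (h j * p j)) / Pos.cb h p p := by
    rw [diagonal_mul]
    simp only [Matrix.smul_apply, vecMulVec_apply, smul_eq_mul, mulVec_diagonal]
    ring
  rw [e1, e2]

theorem HS_posDef {h : n → ℝ} {i0 : n} (h0 : h i0 < 0) (h1 : ∀ i, i ≠ i0 → 0 < h i)
    {p : n → ℂ} (hp : ∑ i, h i * ‖p i‖ ^ 2 < 0) :
    ((dg h * S (dg h) p).map Complex.re).PosDef := by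
  refine posDef_of_quad ?_ ?_
  · ext i j
    have := congrFun (congrFun (HS_symm (dg_symm h) p) i) j
    rw [transpose_apply] at this
    rw [transpose_apply, map_apply, map_apply, this]
  · intro x hx
    have h2 := Pos.T_pos h0 h1 hp hx
    have h3 : ∑ i, ∑ j, x i * x j * ((dg h * S (dg h) p).map Complex.re) i j = Pos.T h p x := by
      have h4 : ∑ i, ∑ j, x i * x j * ((dg h * S (dg h) p).map Complex.re) i j =
          (∑ i, ∑ j, (x i : ℂ) * (x j : ℂ) * (dg h * S (dg h) p) i j).re := by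
        rw [Complex.re_sum]
        refine Finset.sum_congr rfl fun i _ => ?_
        rw [Complex.re_sum]
        refine Finset.sum_congr rfl fun j _ => ?_
        rw [← Complex.ofReal_mul, Complex.re_ofReal_mul, map_apply]
      rw [h4]
      unfold Pos.T
      congr 1
      simp_rw [HS_apply, mul_sub, Finset.sum_sub_distrib, mul_ite, mul_zero, Finset.sum_ite_eq,
        Finset.mem_univ, if_true]
      congr 1
      · unfold Pos.cb
        exact Finset.sum_congr rfl fun i _ => by ring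
      · have e1 : Pos.cb h (fun i => (x i : ℂ)) p ^ 2 =
            ∑ i, ∑ j, ((h i : ℂ) * (x i : ℂ) * p i) * ((h j : ℂ) * (x j : ℂ) * p j) := by
          unfold Pos.cb
          rw [sq, Finset.sum_mul_sum]
        rw [e1, Finset.mul_sum, Finset.sum_div]
        refine Finset.sum_congr rfl fun i _ => ?_
        rw [Finset.mul_sum, Finset.sum_div]
        exact Finset.sum_congr rfl fun j _ => by ring
    rw [h3]; exact h2

/-- the hyperbolic place. -/
theorem Zh_mem {δ : ℝ} (hδ : 0 < δ) {Q : Matrix m m ℝ} (hQ : Q.PosDef) {h : n → ℝ} {i0 : n}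
    (h0 : h i0 < 0) (h1 : ∀ i, i ≠ i0 → 0 < h i) {p : n → ℂ} (hp : ∑ i, h i * ‖p i‖ ^ 2 < 0) :
    Zh (δ : ℂ) (cx Q) (dg h) p ∈ Sieg (m × n) :=
  kron_mem hδ hQ (HS_symm (dg_symm h) p) (HS_posDef h0 h1 hp)

/-- a definite place. -/
theorem Zd_mem {δ : ℝ} (hδ : 0 < δ) {R : Matrix m m ℝ} (hR : R.PosDef) {h : n → ℝ}
    (hh : ∀ i, 0 < h i) : Zd (δ : ℂ) (cx R) (dg h) ∈ Sieg (m × n) := by
  refine kron_mem hδ hR (dg_symm h) ?_
  have : (dg h).map Complex.re = diagonal h := by
    ext i j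
    have e1 : dg h i j = if i = j then (h i : ℂ) else 0 := diagonal_apply _ _ _
    rw [map_apply, diagonal_apply, e1]
    split_ifs <;> simp
  rw [this]
  exact Matrix.PosDef.diagonal hh

end

end Pool.CMH
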