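import Mathlib
import Pool.Agent.Lib.CMH.P1Geo
import Pool.Agent.Lib.CMH.TH8z
import Pool.Agent.Lib.CMH.Est

/-! # TANK CMH, row TH8d: the local points of `P1Geo` are in the Siegel space (helper45). -/

set_option autoImplicit false
set_option linter.unusedSectionVars false
set_option linter.unusedSimpArgs false

open Matrix Complex
open scoped Kronecker

namespace Pool.CMH

open Pool.Agent.CMH (hat pr w s ds ball ev form Mat Gam cmat gy act Good SB2 Maj IsMaj R0 gauss
  gauss2 Del CR IsSB GRP EST)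

noncomputable section

variable {F : Type} [Field F] [NumberField F]
variable {J : Type} [Fintype J] [DecidableEq J]
variable {v₁ : F →+* ℝ} {D : F} {h : Fin 3 → F}

lemma ball_norm {k : Fin 3 → ℝ} {y : Fin 2 → ℂ} (hy : y ∈ ball k) :
    ∑ i, k i * ‖hat y i‖ ^ 2 < 0 := by
  rw [Fin.sum_univ_three]
  simpa [hat, ball] using hy

theorem Zp_mem (hgd : Good v₁ D h) {a : J → F} (ha : ∀ i, 0 < v₁ (a i))
    {R : (F →+* ℝ) → Matrix J J ℝ} (hR : ∀ v, v ≠ v₁ → (R v).PosDef) {y : Fin 2 → ℂ}
    (hy : y ∈ ball (ev v₁ h)) (v : F →+* ℝ) : Zp v₁ D h a R y v ∈ Sieg (J × Fin 3) := by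
  have hδ : 0 < √(v D) := Real.sqrt_pos.mpr (hgd.D0 v)
  by_cases hv : v = v₁
  · subst hv
    have hQ : (diagonal fun i : J => v (a i)).PosDef := Matrix.PosDef.diagonal ha
    have h0 : (ev v h) 2 < 0 := hgd.h3
    have h1 : ∀ i, i ≠ (2 : Fin 3) → 0 < (ev v h) i := by
      intro i hi
      fin_cases i
      · exact hgd.h0 v
      · exact hgd.h1 v
      · exact absurd rfl hi
    have key := Zh_mem hδ hQ h0 h1 (ball_norm hy)
    convert key using 1
    ext ⟨i, j⟩ ⟨i', j'⟩
    have hw : w (ev v h) y ^ 2 = -Pos.cb (ev v h) (hat y) (hat y) := by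
      rw [Pool.Agent.CMH.EstA.w_sq]
      unfold Pos.cb
      congr 1
      exact Finset.sum_congr rfl fun i _ => by ring
    unfold Pool.Agent.CMH.TH8.Zh
    rw [Matrix.smul_apply, kroneckerMap_apply, HS_apply, smul_eq_mul]
    unfold Zp
    rw [if_pos rfl, hw]
    have e1 : cx (diagonal fun i : J => v (a i)) i i' = if i = i' then (v (a i) : ℂ) else 0 := by
      rw [cx, map_apply, diagonal_apply]
      split_ifs <;> simp
    dsimp only
    rw [e1]
    congr 2
    change (if j = j' then (v (h j) : ℂ) else 0) + _ = (if j = j' then (v (h j) : ℂ) else 0) - _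
    rw [sub_eq_add_neg]
    congr 1
    change _ = -(2 * ((v (h j) : ℂ) * hat y j * ((v (h j') : ℂ) * hat y j')) / _)
    rw [div_neg]
    congr 2
    ring
  · have key := Zd_mem (n := Fin 3) hδ (hR v hv) (h := ev v h) (by
      intro i
      fin_cases i
      · exact hgd.h0 v
      · exact hgd.h1 v
      · exact hgd.h2 v hv)
    convert key using 1
    ext ⟨i, j⟩ ⟨i', j'⟩
    unfold Zp Pool.Agent.CMH.TH8.Zd
    rw [if_neg hv, Matrix.smul_apply, kroneckerMap_apply, smul_eq_mul]
    congr 2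

end

end Pool.CMH
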