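import Pool.Agent.Lib.CMH.P1Geo

/-!
# TANK CMH, row TH8f: the majorants of a binary diagonal form
-/

set_option autoImplicit false

namespace Pool.CMH

open Matrix
open Pool.Agent.CMH (IsMaj)

namespace TH8f

theorem posDef_two {p q r : ℝ} (hp : 0 < p) (hd : 0 < p * r - q ^ 2) :
    (!![p, q; q, r] : Matrix (Fin 2) (Fin 2) ℝ).PosDef := by
  refine Matrix.PosDef.of_dotProduct_mulVec_pos ?_ ?_
  · ext i j
    fin_cases i <;> fin_cases j <;> simp
  · intro x hx
    have e : star x ⬝ᵥ (!![p, q; q, r] : Matrix (Fin 2) (Fin 2) ℝ).mulVec x =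
        p * x 0 ^ 2 + 2 * q * x 0 * x 1 + r * x 1 ^ 2 := by
      simp [Matrix.mulVec, dotProduct, Fin.sum_univ_two]
      ring
    rw [e]
    have e2 : p * (p * x 0 ^ 2 + 2 * q * x 0 * x 1 + r * x 1 ^ 2) =
        (p * x 0 + q * x 1) ^ 2 + (p * r - q ^ 2) * x 1 ^ 2 := by ring
    have h3 : 0 < p * (p * x 0 ^ 2 + 2 * q * x 0 * x 1 + r * x 1 ^ 2) := by
      rw [e2]
      by_cases h1 : x 1 = 0
      · have h0 : x 0 ≠ 0 := by
          intro h0
          apply hx
          ext i
          fin_cases i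
          · exact h0
          · exact h1
        rw [h1]
        have : 0 < (p * x 0) ^ 2 := by positivity
        simpa using this
      · have h4 : 0 < (p * r - q ^ 2) * x 1 ^ 2 := by positivity
        have h5 := sq_nonneg (p * x 0 + q * x 1)
        linarith
    exact (mul_pos_iff_of_pos_left hp).1 h3

/-- what a positive definite real matrix of size two is -/
theorem of_posDef {R : Matrix (Fin 2) (Fin 2) ℝ} (h : R.PosDef) :
    0 < R 0 0 ∧ 0 < R 1 1 ∧ R 1 0 = R 0 1 := by
  refine ⟨h.diag_pos, h.diag_pos, ?_⟩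
  have := congrFun (congrFun h.isHermitian 1) 0
  simpa [Matrix.conjTranspose_apply] using this.symm

theorem entries {R : Matrix (Fin 2) (Fin 2) ℝ} {q : Fin 2 → ℝ}
    (h : R * Matrix.diagonal (fun i => (q i)⁻¹) * R = Matrix.diagonal (fun i => q i)) :
    (R 0 0 * (q 0)⁻¹ * R 0 0 + R 0 1 * (q 1)⁻¹ * R 1 0 = q 0) ∧
    (R 0 0 * (q 0)⁻¹ * R 0 1 + R 0 1 * (q 1)⁻¹ * R 1 1 = 0) ∧
    (R 1 0 * (q 0)⁻¹ * R 0 1 + R 1 1 * (q 1)⁻¹ * R 1 1 = q 1) := by
  refine ⟨?_, ?_, ?_⟩
  · have := congrFun (congrFun h 0) 0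
    simpa [Matrix.mul_apply, Fin.sum_univ_two, Matrix.diagonal_apply] using this
  · have := congrFun (congrFun h 0) 1
    simpa [Matrix.mul_apply, Fin.sum_univ_two, Matrix.diagonal_apply] using this
  · have := congrFun (congrFun h 1) 1
    simpa [Matrix.mul_apply, Fin.sum_univ_two, Matrix.diagonal_apply] using this

theorem mat_ext {R R' : Matrix (Fin 2) (Fin 2) ℝ} (h0 : R 0 0 = R' 0 0) (h1 : R 0 1 = R' 0 1)
    (h2 : R 1 0 = R' 1 0) (h3 : R 1 1 = R' 1 1) : R = R' := by
  ext i j
  fin_cases i <;> fin_cases j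
  · exact h0
  · exact h1
  · exact h2
  · exact h3

theorem form_eq {p r s : ℝ} {q : Fin 2 → ℝ}
    (h0 : p * (q 0)⁻¹ * p + s * (q 1)⁻¹ * s = q 0)
    (h1 : p * (q 0)⁻¹ * s + s * (q 1)⁻¹ * r = 0)
    (h2 : s * (q 0)⁻¹ * s + r * (q 1)⁻¹ * r = q 1) :
    (!![p, s; s, r] : Matrix (Fin 2) (Fin 2) ℝ) * Matrix.diagonal (fun i => (q i)⁻¹) *
      !![p, s; s, r] = Matrix.diagonal (fun i => q i) := by
  apply mat_ext
  · rw [Matrix.mul_apply, Fin.sum_univ_two, Matrix.mul_diagonal, Matrix.mul_diagonal]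
    simpa using h0
  · rw [Matrix.mul_apply, Fin.sum_univ_two, Matrix.mul_diagonal, Matrix.mul_diagonal]
    simpa using h1
  · rw [Matrix.mul_apply, Fin.sum_univ_two, Matrix.mul_diagonal, Matrix.mul_diagonal]
    have : s * (q 0)⁻¹ * p + r * (q 1)⁻¹ * s = 0 := by linarith
    simpa using this
  · rw [Matrix.mul_apply, Fin.sum_univ_two, Matrix.mul_diagonal, Matrix.mul_diagonal]
    simpa using h2

end TH8f

open TH8f

theorem Rmaj_continuous (q₀ q₁ : ℝ) (i j : Fin 2) : Continuous (fun t => Rmaj q₀ q₁ t i j) := by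
  unfold Rmaj
  split_ifs with h
  · exact continuous_const
  · fin_cases i <;> fin_cases j <;> simp <;> fun_prop

theorem Rmaj_isMaj {F : Type} [Field F] [NumberField F] {a : Fin 2 → F} (ha : ∀ i, a i ≠ 0)
    (v : F →+* ℝ) (t : ℝ) : IsMaj a v (Rmaj (v (a 0)) (v (a 1)) t) := by
  have h0 : v (a 0) ≠ 0 := (map_ne_zero v).2 (ha 0)
  have h1 : v (a 1) ≠ 0 := (map_ne_zero v).2 (ha 1)
  unfold IsMaj Rmaj
  split_ifs with h
  · have e0 : |v (a 0)| * |v (a 0)| = v (a 0) * v (a 0) := abs_mul_abs_self _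
    have e1 : |v (a 1)| * |v (a 1)| = v (a 1) * v (a 1) := abs_mul_abs_self _
    refine ⟨?_, ?_⟩
    · apply posDef_two (abs_pos.2 h0)
      have : 0 < |v (a 0)| * |v (a 1)| := mul_pos (abs_pos.2 h0) (abs_pos.2 h1)
      simpa using this
    · apply form_eq (q := fun i => v (a i))
      · field_simp
        rw [sq_abs]
        ring
      · simp
      · field_simp
        rw [sq_abs]
        ring
  · have h' : v (a 0) * v (a 1) < 0 :=
      lt_of_le_of_ne (not_lt.1 h) (mul_ne_zero h0 h1)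
    set x := v (a 0) with hx
    set y := v (a 1) with hy
    have e0 : |x| * |x| = x * x := abs_mul_abs_self _
    have e1 : |y| * |y| = y * y := abs_mul_abs_self _
    have e2 : |x| * |y| = -(x * y) := by rw [← abs_mul, abs_of_neg h']
    have e3 : √|x * y| * √|x * y| = -(x * y) := by
      rw [Real.mul_self_sqrt (abs_nonneg _), abs_of_neg h']
    have e4 : |x| * y = -(x * |y|) := by
      rcases mul_neg_iff.1 h' with ⟨hp, hn⟩ | ⟨hn, hp⟩
      · rw [abs_of_pos hp, abs_of_neg hn]; ring
      · rw [abs_of_neg hn, abs_of_pos hp]; ring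
    have hc := Real.cosh_sq t
    have hcp := Real.cosh_pos t
    have hcs : Real.cosh t ^ 2 = Real.sinh t ^ 2 + 1 := Real.cosh_sq t
    refine ⟨?_, ?_⟩
    · apply posDef_two (mul_pos (abs_pos.2 h0) hcp)
      have : |x| * Real.cosh t * (|y| * Real.cosh t) - (√|x * y| * Real.sinh t) ^ 2 = -(x * y) := by
        calc |x| * Real.cosh t * (|y| * Real.cosh t) - (√|x * y| * Real.sinh t) ^ 2
            = (|x| * |y|) * Real.cosh t ^ 2 - (√|x * y| * √|x * y|) * Real.sinh t ^ 2 := by ring
          _ = -(x * y) := by rw [e2, e3, hcs]; ring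
      rw [this]
      linarith
    · apply form_eq (q := fun i => v (a i))
      · simp only [← hx, ← hy]
        field_simp
        have : |x| ^ 2 = x ^ 2 := sq_abs x
        have e3' : √|x * y| ^ 2 = -(x * y) := by rw [sq]; exact e3
        rw [this, e3', hcs]
        ring
      · simp only [← hx, ← hy]
        field_simp
        linear_combination (Real.cosh t * √|x * y| * Real.sinh t) * e4
      · simp only [← hx, ← hy]
        field_simp
        have : |y| ^ 2 = y ^ 2 := sq_abs y
        have e3' : √|x * y| ^ 2 = -(x * y) := by rw [sq]; exact e3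
        rw [this, e3', hcs]
        ring

theorem exists_Rmaj {F : Type} [Field F] [NumberField F] {a : Fin 2 → F} (ha : ∀ i, a i ≠ 0)
    {v : F →+* ℝ} {R : Matrix (Fin 2) (Fin 2) ℝ} (hR : IsMaj a v R) :
    ∃ t, R = Rmaj (v (a 0)) (v (a 1)) t := by
  have h0 : v (a 0) ≠ 0 := (map_ne_zero v).2 (ha 0)
  have h1 : v (a 1) ≠ 0 := (map_ne_zero v).2 (ha 1)
  obtain ⟨hp, he⟩ := hR
  obtain ⟨p0, p1, hs⟩ := of_posDef hp
  obtain ⟨E0, E1, E2⟩ := entries (q := fun i => v (a i)) he
  set x := v (a 0) with hx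
  set y := v (a 1) with hy
  rw [hs] at E0 E2
  set r := R 0 0 with hr
  set s := R 0 1 with hs'
  set u := R 1 1 with hu
  have F0 : r ^ 2 * y + s ^ 2 * x = x ^ 2 * y := by
    field_simp at E0
    linarith
  have F1 : s * (r * y + u * x) = 0 := by
    have : s * (r * y + u * x) = x * y * (r * x⁻¹ * s + s * y⁻¹ * u) := by
      field_simp
    rw [this, E1, mul_zero]
  have F2 : s ^ 2 * y + u ^ 2 * x = y ^ 2 * x := by
    field_simp at E2
    linarith
  unfold Rmaj
  split_ifs with h
  · refine ⟨0, ?_⟩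
    have hs0 : s = 0 := by
      rcases mul_eq_zero.1 F1 with h2 | h2
      · exact h2
      · exfalso
        rcases mul_pos_iff.1 h with ⟨a1, a2⟩ | ⟨a1, a2⟩
        · have := mul_pos p0 a2
          have := mul_pos p1 a1
          linarith
        · have := mul_neg_of_pos_of_neg p0 a2
          have := mul_neg_of_pos_of_neg p1 a1
          linarith
    have r0 : r = |x| := by
      have : r ^ 2 = x ^ 2 := by
        have : r ^ 2 * y = x ^ 2 * y := by rw [hs0] at F0; linarith
        exact mul_right_cancel₀ h1 this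
      rw [← abs_of_pos p0]
      exact (sq_eq_sq_iff_abs_eq_abs _ _).1 this
    have u0 : u = |y| := by
      have : u ^ 2 = y ^ 2 := by
        have : u ^ 2 * x = y ^ 2 * x := by rw [hs0] at F2; linarith
        exact mul_right_cancel₀ h0 this
      rw [← abs_of_pos p1]
      exact (sq_eq_sq_iff_abs_eq_abs _ _).1 this
    apply mat_ext
    · simpa using r0
    · simpa using hs0
    · simpa using (hs.trans hs0)
    · simpa using u0
  · have h' : x * y < 0 := lt_of_le_of_ne (not_lt.1 h) (mul_ne_zero h0 h1)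
    have e : |x * y| = -(x * y) := abs_of_neg h'
    have hpos : 0 < |x * y| := abs_pos.2 h'.ne
    have hsq : 0 < √|x * y| := Real.sqrt_pos.2 hpos
    refine ⟨Real.arsinh (s / √|x * y|), ?_⟩
    have hsinh : √|x * y| * Real.sinh (Real.arsinh (s / √|x * y|)) = s := by
      rw [Real.sinh_arsinh]
      field_simp
    have hcosh : Real.cosh (Real.arsinh (s / √|x * y|)) ^ 2 = 1 + s ^ 2 / |x * y| := by
      rw [Real.cosh_sq, Real.sinh_arsinh, div_pow, Real.sq_sqrt hpos.le]
      ring
    have hcp : 0 < Real.cosh (Real.arsinh (s / √|x * y|)) := Real.cosh_pos _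
    set T := Real.arsinh (s / √|x * y|) with hT
    have r0 : r = |x| * Real.cosh T := by
      have h2 : r ^ 2 = (|x| * Real.cosh T) ^ 2 := by
        rw [mul_pow, sq_abs, hcosh, e]
        field_simp
        linear_combination F0
      have h3 : 0 < |x| * Real.cosh T := mul_pos (abs_pos.2 h0) hcp
      exact (pow_left_inj₀ p0.le h3.le two_ne_zero).1 h2
    have u0 : u = |y| * Real.cosh T := by
      have h2 : u ^ 2 = (|y| * Real.cosh T) ^ 2 := by
        rw [mul_pow, sq_abs, hcosh, e]
        field_simp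
        linear_combination F2
      have h3 : 0 < |y| * Real.cosh T := mul_pos (abs_pos.2 h1) hcp
      exact (pow_left_inj₀ p1.le h3.le two_ne_zero).1 h2
    apply mat_ext
    · simpa using r0
    · simpa using hsinh.symm
    · simpa using hs.trans hsinh.symm
    · simpa using u0

end Pool.CMH
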