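import Pool.Agent.Lib.CMH.Grp
import Pool.Agent.Lib.CMH.Wgt

/-!
# TANK CMH: the group `Γ_N`, its action on the ball (as a subtype), and the row CHI.  helper44.
-/

open scoped ComplexConjugate Matrix
open Complex

namespace Pool.Agent.CMH.Grp

noncomputable section

variable {F : Type} [Field F] [NumberField F]

section group

variable {v₁ : F →+* ℝ} {D : F} {h : Fin 3 → F} {N : ℕ}

theorem pm_mem (hg : Good v₁ D h) (hN : 0 < N) {g₁ g₂ : Mat F} (h₁ : g₁ ∈ Gam D h N)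
    (h₂ : g₂ ∈ Gam D h N) : pm D g₁ g₂ ∈ Gam D h N := by
  have hD := hg.D0 v₁
  obtain ⟨u₁, c₁⟩ := (mem_Gam_iff hD hN).mp h₁
  obtain ⟨u₂, c₂⟩ := (mem_Gam_iff hD hN).mp h₂
  rw [mem_Gam_iff hD hN, cmat_pm hD]
  exact ⟨u₁.mul u₂, c₁.mul hg.Di hD c₂⟩

theorem one_mem (hg : Good v₁ D h) (hN : 0 < N) : ((1, 0) : Mat F) ∈ Gam D h N := by
  rw [mem_Gam_iff (hg.D0 v₁) hN, cmat_one]
  exact ⟨uni_one _, cong_one _ _ _⟩

theorem exists_inv (hg : Good v₁ D h) (hN : 0 < N) {g : Mat F} (hm : g ∈ Gam D h N) :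
    ∃ g' ∈ Gam D h N, cmat v₁ D g' = (cmat v₁ D g)⁻¹ ∧ pm D g' g = (1, 0) := by
  have hD := hg.D0 v₁
  obtain ⟨u, c⟩ := (mem_Gam_iff hD hN).mp hm
  obtain ⟨g', hg', e⟩ := exists_mem_Gam hD hN (u.inv (ev_ne hg)) (c.inv hg.Di hD (ev_ne hg) u)
  refine ⟨g', hg', e, cmat_inj hD ?_⟩
  rw [cmat_pm hD, e, cmat_one]
  exact Matrix.nonsing_inv_mul _ (u.isUnit_det (ev_ne hg))

/-- the group structure on `Γ_N`, with the product of pairs -/
@[reducible]
def gamGroup (hg : Good v₁ D h) (hN : 0 < N) : Group (Gam D h N) :=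
  letI : Mul (Gam D h N) := ⟨fun a b => ⟨pm D a.1 b.1, pm_mem hg hN a.2 b.2⟩⟩
  letI : One (Gam D h N) := ⟨⟨(1, 0), one_mem hg hN⟩⟩
  letI : Inv (Gam D h N) := ⟨fun a => ⟨(exists_inv hg hN a.2).choose,
    (exists_inv hg hN a.2).choose_spec.1⟩⟩
  Group.ofLeftAxioms
    (fun a b c => Subtype.ext (cmat_inj (hg.D0 v₁) (by
      change cmat v₁ D (pm D (pm D a.1 b.1) c.1) = cmat v₁ D (pm D a.1 (pm D b.1 c.1))
      simp only [cmat_pm (hg.D0 v₁), Matrix.mul_assoc])))
    (fun a => Subtype.ext (cmat_inj (hg.D0 v₁) (by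
      change cmat v₁ D (pm D (1, 0) a.1) = cmat v₁ D a.1
      rw [cmat_pm (hg.D0 v₁), cmat_one, Matrix.one_mul])))
    (fun a => Subtype.ext (exists_inv hg hN a.2).choose_spec.2.2)

theorem gamGroup_mul (hg : Good v₁ D h) (hN : 0 < N) (a b : Gam D h N) :
    ((gamGroup hg hN).toMonoid.toMulOneClass.toMul.mul a b).1 = pm D a.1 b.1 := rfl

/-- the action of `Γ_N` on the ball -/
@[reducible]
def gamAction (hg : Good v₁ D h) (hN : 0 < N) :
    @MulAction (Gam D h N) (ball (ev v₁ h)) (gamGroup hg hN).toMonoid :=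
  letI := gamGroup hg hN
  { smul := fun g y => ⟨act v₁ D g.1 y.1,
      ((mem_Gam_iff (hg.D0 v₁) hN).mp g.2).1.mem (hg.h0 v₁) (hg.h1 v₁) y.2⟩
    one_smul := fun y => Subtype.ext (by
      change acM (cmat v₁ D (1, 0)) y.1 = y.1
      rw [cmat_one, acM_one])
    mul_smul := fun a b y => Subtype.ext (by
      change acM (cmat v₁ D (pm D a.1 b.1)) y.1 = acM (cmat v₁ D a.1) (acM (cmat v₁ D b.1) y.1)
      rw [cmat_pm (hg.D0 v₁)]
      exact (acM_mul (((mem_Gam_iff (hg.D0 v₁) hN).mp b.2).1.ne (hg.h0 v₁) (hg.h1 v₁) y.2)).1) }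

theorem hat_continuous : Continuous hat := by
  refine continuous_pi fun j => ?_
  fin_cases j
  · exact continuous_apply 0
  · exact continuous_apply 1
  · exact continuous_const

theorem acM_continuousOn {k : Fin 3 → ℝ} (h0 : 0 < k 0) (h1 : 0 < k 1)
    {M : Matrix (Fin 3) (Fin 3) ℂ} (hu : Uni k M) : ContinuousOn (acM M) (ball k) := by
  refine continuousOn_pi.mpr fun j => ?_
  have hc : ∀ i, Continuous fun y => (M *ᵥ hat y) i := fun i =>
    (continuous_apply i).comp (Continuous.matrix_mulVec continuous_const hat_continuous)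
  exact (hc _).continuousOn.div (hc 2).continuousOn fun y hy => hu.ne h0 h1 hy

theorem gamAction_cont (hg : Good v₁ D h) (hN : 0 < N) :
    letI := gamGroup hg hN
    letI := gamAction hg hN
    ContinuousConstSMul (Gam D h N) (ball (ev v₁ h)) := by
  let _ := gamGroup hg hN
  let _ := gamAction hg hN
  refine ⟨fun g => ?_⟩
  refine Continuous.subtype_mk ?_ _
  exact (acM_continuousOn (hg.h0 v₁) (hg.h1 v₁)
    ((mem_Gam_iff (hg.D0 v₁) hN).mp g.2).1).comp_continuous continuous_subtype_val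
    (fun y => y.2)

end group

theorem ball_open (k : Fin 3 → ℝ) : IsOpen (ball k) := by
  have : Continuous fun y : Fin 2 → ℂ => k 0 * ‖y 0‖ ^ 2 + k 1 * ‖y 1‖ ^ 2 + k 2 := by fun_prop
  exact isOpen_Iio.preimage this

end

end Pool.Agent.CMH.Grp

namespace Pool.Agent.CMH

open Grp

/-- CHI from proper discontinuity. -/
theorem chi_of_pd (hPD : ∀ (F : Type) [Field F] [NumberField F] [NumberField.IsTotallyReal F]
      (v₁ : F →+* ℝ) (D : F) (h : Fin 3 → F) (N : ℕ) (K : Set (Fin 2 → ℂ)),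
      Good v₁ D h → 0 < N → IsCompact K → K ⊆ ball (ev v₁ h) →
      {g : Mat F | g ∈ Gam D h N ∧ ∃ y ∈ K, act v₁ D g y ∈ K}.Finite) : CHI := by
  intro F _ _ _ v₁ D h N hg hN hC
  let _ := gamGroup hg hN
  let _ := gamAction hg hN
  have := gamAction_cont hg hN
  have hO := ball_open (ev v₁ h)
  have : LocallyCompactSpace (ball (ev v₁ h)) := hO.locallyCompactSpace
  have hpd : PDisc (Gam D h N) (ball (ev v₁ h)) := by
    intro K hK
    have h1 := hPD F v₁ D h N (Subtype.val '' K) hg hN (hK.image continuous_subtype_val)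
      (by rintro _ ⟨y, -, rfl⟩; exact y.2)
    have h2 : (Subtype.val '' {g : Gam D h N | ∃ x ∈ K, g • x ∈ K}).Finite := by
      refine h1.subset ?_
      rintro _ ⟨g, ⟨x, hx, hgx⟩, rfl⟩
      exact ⟨g.2, x.1, ⟨x, hx, rfl⟩, ⟨g • x, hgx, rfl⟩⟩
    exact Set.Finite.of_finite_image h2 Subtype.val_injective.injOn
  have hcc : Cocpt (Gam D h N) (ball (ev v₁ h)) := by
    obtain ⟨C, hC1, hC2, hC3⟩ := hC
    refine ⟨Subtype.val ⁻¹' C, ?_, fun x => ?_⟩
    · rw [Subtype.isCompact_iff, Subtype.image_preimage_coe, Set.inter_eq_self_of_subset_right hC2]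
      exact hC1
    · obtain ⟨g, hgm, hgy⟩ := hC3 x.1 x.2
      exact ⟨⟨g, hgm⟩, hgy⟩
  obtain ⟨χ, hχ⟩ := wgtExists (Gam D h N) (ball (ev v₁ h)) hpd hcc
  have hsub : tsupport (Function.extend Subtype.val χ 0) ⊆ ball (ev v₁ h) := by
    rw [hχ.supp.tsupport_extend_zero continuous_subtype_val Subtype.val_injective]
    rintro _ ⟨y, -, rfl⟩
    exact y.2
  have hval : ∀ y : ball (ev v₁ h), Function.extend Subtype.val χ 0 y.1 = χ y := fun y =>
    Subtype.val_injective.extend_apply χ 0 y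
  refine ⟨Function.extend Subtype.val χ 0, HasCompactSupport.continuous_extend_zero hO hχ.cont
    hχ.supp, HasCompactSupport.extend_zero hχ.supp continuous_subtype_val, hsub, fun y => ?_,
    fun y hy => ?_⟩
  · by_cases hy : y ∈ ball (ev v₁ h)
    · rw [hval ⟨y, hy⟩]; exact hχ.nonneg _
    · rw [Function.extend_apply' _ _ _ (by rintro ⟨a, rfl⟩; exact hy a.2)]
      exact le_rfl
  · have h1 := hχ.sum ⟨y, hy⟩
    have h2 : (fun g : Gam D h N => Function.extend Subtype.val χ 0 (act v₁ D g.1 y)) =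
        fun g : Gam D h N => χ (g • (⟨y, hy⟩ : ball (ev v₁ h))) := by
      funext g
      exact hval (g • (⟨y, hy⟩ : ball (ev v₁ h)))
    rw [h2]
    exact h1

end Pool.Agent.CMH
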