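import Pool.Agent.Lib.CMH.P1Geo
import Pool.Agent.Lib.CMH.Grp
import Pool.Agent.Lib.CMH.GrpAct
import Pool.Agent.Lib.CMH.Est

/-! TANK CMH, P1, row TH8g (helper72): the cocycle `cE`, continuity, Jacobian of the action. -/

set_option autoImplicit false

namespace Pool.CMH

open Matrix Complex Real
open Pool.Agent.CMH (hat pr w s ds ball ev form Mat Gam cmat gy act Good SB2 Maj IsMaj R0 gauss
  gauss2 Del CR IsSB GRP EST)
open Pool.Agent.CMH.Grp (Uni acM)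

noncomputable section

variable {F : Type} [Field F] [NumberField F]
variable {J : Type} [Fintype J] [DecidableEq J]
variable {v₁ : F →+* ℝ} {D : F} {h : Fin 3 → F}

theorem TH8g_uni (hgd : Good v₁ D h) {N : ℕ} {g : Mat F} (hg : g ∈ Gam D h N) :
    Uni (ev v₁ h) (cmat v₁ D g) :=
  (Pool.Agent.CMH.Grp.uni_cmat_iff (hgd.D0 v₁) h g).1 ⟨hg.1, hg.2.1⟩

theorem TH8g_gy (hgd : Good v₁ D h) {N : ℕ} {g : Mat F} (hg : g ∈ Gam D h N)
    {y : Fin 2 → ℂ} (hy : y ∈ ball (ev v₁ h)) : gy v₁ D g y 2 ≠ 0 :=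
  (TH8g_uni hgd hg).ne (hgd.h0 v₁) (hgd.h1 v₁) hy

theorem TH8g_mem (hgd : Good v₁ D h) {N : ℕ} {g : Mat F} (hg : g ∈ Gam D h N)
    {y : Fin 2 → ℂ} (hy : y ∈ ball (ev v₁ h)) : act v₁ D g y ∈ ball (ev v₁ h) :=
  (TH8g_uni hgd hg).mem (hgd.h0 v₁) (hgd.h1 v₁) hy

theorem cE_ne (hgd : Good v₁ D h) {N : ℕ} {g : Mat F} (hg : g ∈ Gam D h N)
    {y : Fin 2 → ℂ} (hy : y ∈ ball (ev v₁ h)) : cE v₁ D h g y ≠ 0 :=
  div_ne_zero (mul_ne_zero (TH8g_gy hgd hg hy)
    (Pool.Agent.CMH.EstA.w_ne (hgd.h0 v₁) (hgd.h1 v₁) (TH8g_mem hgd hg hy)))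
    (Pool.Agent.CMH.EstA.w_ne (hgd.h0 v₁) (hgd.h1 v₁) hy)

theorem act_continuous (hgd : Good v₁ D h) {N : ℕ} {g : Mat F} (hg : g ∈ Gam D h N) :
    ContinuousOn (act v₁ D g) (ball (ev v₁ h)) :=
  Pool.Agent.CMH.Grp.acM_continuousOn (hgd.h0 v₁) (hgd.h1 v₁) (TH8g_uni hgd hg)

theorem cE_continuous (hgd : Good v₁ D h) {N : ℕ} {g : Mat F} (hg : g ∈ Gam D h N) :
    ContinuousOn (cE v₁ D h g) (ball (ev v₁ h)) := by
  have hw := Pool.Agent.CMH.EstA.w_cont (k := ev v₁ h) (hgd.h0 v₁) (hgd.h1 v₁)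
  have h1 : Continuous fun y => gy v₁ D g y 2 :=
    (continuous_apply 2).comp
      (Continuous.matrix_mulVec continuous_const Pool.Agent.CMH.Grp.hat_continuous)
  refine (h1.continuousOn.mul (hw.comp (act_continuous hgd hg) fun y hy =>
    TH8g_mem hgd hg hy)).div hw fun y hy => ?_
  exact Pool.Agent.CMH.EstA.w_ne (hgd.h0 v₁) (hgd.h1 v₁) hy

theorem cE_mul (hgd : Good v₁ D h) {N : ℕ} {g g' : Mat F} (hg : g ∈ Gam D h N)
    (hg' : g' ∈ Gam D h N) {y : Fin 2 → ℂ} (hy : y ∈ ball (ev v₁ h)) :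
    act v₁ D (mulM D g g') y = act v₁ D g (act v₁ D g' y) ∧
    cE v₁ D h (mulM D g g') y = cE v₁ D h g (act v₁ D g' y) * cE v₁ D h g' y := by
  have e0 : cmat v₁ D (mulM D g g') = cmat v₁ D g * cmat v₁ D g' :=
    Pool.Agent.CMH.Grp.cmat_pm (hgd.D0 v₁) g g'
  have hne := TH8g_gy hgd hg' hy
  have e1 := Pool.Agent.CMH.Grp.acM_mul (M := cmat v₁ D g) (M' := cmat v₁ D g') hne
  have e2 : act v₁ D (mulM D g g') y = act v₁ D g (act v₁ D g' y) := by
    rw [Pool.Agent.CMH.Grp.act_eq, e0]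
    exact e1.1
  have e3 : gy v₁ D (mulM D g g') y 2 = gy v₁ D g (act v₁ D g' y) 2 * gy v₁ D g' y 2 := by
    rw [Pool.Agent.CMH.Grp.gy_eq, e0]
    exact e1.2
  refine ⟨e2, ?_⟩
  have w1 := Pool.Agent.CMH.EstA.w_ne (hgd.h0 v₁) (hgd.h1 v₁) hy
  have w2 := Pool.Agent.CMH.EstA.w_ne (hgd.h0 v₁) (hgd.h1 v₁) (TH8g_mem hgd hg' hy)
  unfold cE
  rw [e2, e3]
  field_simp

theorem det_dact (hgd : Good v₁ D h) {N : ℕ} {g : Mat F} (hg : g ∈ Gam D h N)
    {y : Fin 2 → ℂ} (hy : y ∈ ball (ev v₁ h)) :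
    dact v₁ D g y 0 0 * dact v₁ D g y 1 1 - dact v₁ D g y 0 1 * dact v₁ D g y 1 0 =
      (cmat v₁ D g).det / gy v₁ D g y 2 ^ 3 := by
  have hne := TH8g_gy hgd hg hy
  have e : ∀ i, gy v₁ D g y i =
      cmat v₁ D g i 0 * y 0 + cmat v₁ D g i 1 * y 1 + cmat v₁ D g i 2 := by
    intro i
    simp [Pool.Agent.CMH.Grp.gy_eq, Matrix.mulVec, dotProduct, Fin.sum_univ_three, hat]
  have e0 := e 0
  have e1 := e 1
  have e2 := e 2
  generalize hM : cmat v₁ D g = M at *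
  have c0 : (Fin.castSucc (0 : Fin 2)) = (0 : Fin 3) := rfl
  have c1 : (Fin.castSucc (1 : Fin 2)) = (1 : Fin 3) := rfl
  unfold dact
  rw [hM, c0, c1, Matrix.det_fin_three]
  rw [← sub_eq_zero]
  field_simp
  rw [e0, e1, e2]
  ring

theorem ZZ_continuous {a : J → F} (hgd : Good v₁ D h) {T : Type} [TopologicalSpace T]
    (R : T → (F →+* ℝ) → Matrix J J ℝ) (hR : ∀ v i j, Continuous fun t => R t v i j) :
    Continuous (fun x : T × ball (ev v₁ h) => ZZ v₁ D h a (R x.1) x.2.1) := by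
  have hw : Continuous fun x : T × ball (ev v₁ h) => w (ev v₁ h) x.2.1 := by
    have h1 := (continuousOn_iff_continuous_restrict.1
      (Pool.Agent.CMH.EstA.w_cont (k := ev v₁ h) (hgd.h0 v₁) (hgd.h1 v₁)))
    exact h1.comp continuous_snd
  have hhat : ∀ l, Continuous fun x : T × ball (ev v₁ h) => hat x.2.1 l := fun l =>
    (continuous_apply l).comp (Pool.Agent.CMH.Grp.hat_continuous.comp
      (continuous_subtype_val.comp continuous_snd))
  have hR' : ∀ v i j, Continuous fun x : T × ball (ev v₁ h) => ((R x.1 v i j : ℝ) : ℂ) :=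
    fun v i j => Complex.continuous_ofReal.comp ((hR v i j).comp continuous_fst)
  refine continuous_matrix fun p q => ?_
  unfold ZZ tU
  simp only [Matrix.smul_apply, smul_eq_mul]
  refine continuous_const.mul (continuous_finsetSum _ fun v _ => ?_)
  refine (continuous_const.mul ?_).mul continuous_const
  unfold Zp
  refine continuous_const.mul ?_
  by_cases hv : v = v₁
  · simp only [if_pos hv]
    refine continuous_const.mul (continuous_const.add ?_)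
    refine ((continuous_const.mul (hhat _)).mul (hhat _)).div (hw.pow 2) fun x => ?_
    exact pow_ne_zero 2 (Pool.Agent.CMH.EstA.w_ne (hgd.h0 v₁) (hgd.h1 v₁) x.2.2)
  · simp only [if_neg hv]
    exact (hR' v _ _).mul continuous_const

end

end Pool.CMH
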