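import Pool.Agent.Lib.CMH.TH1

/-! # TANK CMH, row TH9, part a: from the transformation law of the Siegel theta series with an
elliptic variable to the laws of `theta1` and `theta2`.  helper99. -/

set_option autoImplicit false

namespace Pool.CMH

open Matrix Complex Real

noncomputable section

variable {ι : Type} [Fintype ι] [DecidableEq ι]

/-- the polarisation of `qq` -/
def qb (M : Matrix (ι ⊕ ι) (ι ⊕ ι) ℤ) (Z : Matrix ι ι ℂ) (η ζ : ι → ℂ) : ℂ :=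
  η ⬝ᵥ (((au M Z)⁻¹ * bC M) *ᵥ ζ) + ζ ⬝ᵥ (((au M Z)⁻¹ * bC M) *ᵥ η)

theorem uu_add (M : Matrix (ι ⊕ ι) (ι ⊕ ι) ℤ) (Z : Matrix ι ι ℂ) (u v : ι → ℂ) :
    uu M Z (u + v) = uu M Z u + uu M Z v := by
  unfold uu; rw [mulVec_add]

theorem uu_smul (M : Matrix (ι ⊕ ι) (ι ⊕ ι) ℤ) (Z : Matrix ι ι ℂ) (t : ℂ) (u : ι → ℂ) :
    uu M Z (t • u) = t • uu M Z u := by
  unfold uu; rw [mulVec_smul]

theorem qq_line (M : Matrix (ι ⊕ ι) (ι ⊕ ι) ℤ) (Z : Matrix ι ι ℂ) (s t : ℂ) (ζ η : ι → ℂ) :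
    qq M Z (s • ζ + t • η) = s ^ 2 * qq M Z ζ + s * t * qb M Z η ζ + t ^ 2 * qq M Z η := by
  unfold qq qb
  simp only [mulVec_add, mulVec_smul, dotProduct_add, add_dotProduct, dotProduct_smul,
    smul_dotProduct, smul_eq_mul]
  ring

theorem ee_line (N : ℕ) (M : Matrix (ι ⊕ ι) (ι ⊕ ι) ℤ) (Z : Matrix ι ι ℂ) (s t : ℂ)
    (ζ η : ι → ℂ) : ee N M Z (s • ζ + t • η) =
      cexp (π * I * N * (s ^ 2 * qq M Z ζ + s * t * qb M Z η ζ + t ^ 2 * qq M Z η)) := by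
  unfold ee; rw [qq_line]

theorem ee_line_deriv (N : ℕ) (M : Matrix (ι ⊕ ι) (ι ⊕ ι) ℤ) (Z : Matrix ι ι ℂ) (s : ℂ)
    (ζ η : ι → ℂ) : HasDerivAt (fun t : ℂ => ee N M Z (s • ζ + t • η))
      (ee N M Z (s • ζ) * (π * I * N * (s * qb M Z η ζ))) 0 := by
  simp_rw [ee_line]
  have h1 : HasDerivAt (fun t : ℂ => π * I * N *
      (s ^ 2 * qq M Z ζ + s * t * qb M Z η ζ + t ^ 2 * qq M Z η))
      (π * I * N * (s * qb M Z η ζ)) 0 := by
    have h2 : HasDerivAt (fun t : ℂ => s ^ 2 * qq M Z ζ + s * t * qb M Z η ζ + t ^ 2 * qq M Z η)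
        (s * qb M Z η ζ) 0 := by
      have a1 := (((hasDerivAt_id (0 : ℂ)).const_mul s).mul_const (qb M Z η ζ)).const_add
        (s ^ 2 * qq M Z ζ)
      have a2 := ((hasDerivAt_id (0 : ℂ)).pow 2).mul_const (qq M Z η)
      have a3 := a1.add a2
      refine a3.congr_deriv ?_
      simp
    exact h2.const_mul _
  have h3 := h1.cexp
  refine h3.congr_deriv ?_
  congr 1
  have h4 : ee N M Z (s • ζ) = ee N M Z (s • ζ + (0 : ℂ) • η) := by simp
  rw [h4, ee_line]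

theorem ee_zero (N : ℕ) (M : Matrix (ι ⊕ ι) (ι ⊕ ι) ℤ) (Z : Matrix ι ι ℂ) : ee N M Z 0 = 1 := by
  unfold ee qq; simp

variable {N : ℕ} [NeZero N] {M : Matrix (ι ⊕ ι) (ι ⊕ ι) ℤ} {Z Z' : Matrix ι ι ℂ} {J : ℂ}

/-- the law of the series with one linear factor, at a general point of the line `s ζ` -/
theorem law_one_at (hZ : Z ∈ Sieg ι) (hZ' : Z' ∈ Sieg ι) (φ : (ι → ZMod N) → ℂ)
    (h : ∀ u, theta N φ Z' (uu M Z u) = J * ee N M Z u * theta N φ Z u) (s : ℂ) (ζ η : ι → ℂ) :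
    2 * π * I * ∑' x : ι → ℤ, φ (red N x) * (lf (uu M Z η) x * tm N Z' (s • uu M Z ζ) x) =
      J * (ee N M Z (s • ζ) * (π * I * N * (s * qb M Z η ζ)) * theta N φ Z (s • ζ) +
        ee N M Z (s • ζ) *
          (2 * π * I * ∑' x : ι → ℤ, φ (red N x) * (lf η x * tm N Z (s • ζ) x))) := by
  have h1 := theta_deriv_at N φ hZ' (s • uu M Z ζ) (uu M Z η)
  have h2 : (fun t : ℂ => theta N φ Z' (s • uu M Z ζ + t • uu M Z η)) =
      fun t : ℂ => J * (ee N M Z (s • ζ + t • η) * theta N φ Z (s • ζ + t • η)) := by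
    funext t
    rw [← mul_assoc, ← h, uu_add, uu_smul, uu_smul]
  rw [h2] at h1
  have h3 := (((ee_line_deriv N M Z s ζ η).mul (theta_deriv_at N φ hZ (s • ζ) η)).const_mul J)
  have h4 := h1.unique h3
  rw [h4]
  simp

/-- the law of `theta1` -/
theorem theta1_lawG (hZ : Z ∈ Sieg ι) (hZ' : Z' ∈ Sieg ι) (φ : (ι → ZMod N) → ℂ)
    (h : ∀ u, theta N φ Z' (uu M Z u) = J * ee N M Z u * theta N φ Z u) (η : ι → ℂ) :
    theta1 N φ Z' (uu M Z η) = J * theta1 N φ Z η := by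
  have h1 := law_one_at hZ hZ' φ h 0 0 η
  simp only [zero_smul, zero_mul, mul_zero, zero_add, ee_zero, one_mul] at h1
  have h2 : (2 * π * I : ℂ) ≠ 0 := by
    simp [Real.pi_ne_zero]
  refine mul_left_cancel₀ h2 ?_
  unfold theta1
  rw [h1]
  ring

/-- the law of `theta2` -/
theorem theta2_lawG (hZ : Z ∈ Sieg ι) (hZ' : Z' ∈ Sieg ι) (φ : (ι → ZMod N) → ℂ)
    (h : ∀ u, theta N φ Z' (uu M Z u) = J * ee N M Z u * theta N φ Z u) (η ζ : ι → ℂ) :
    theta2 N φ Z' (uu M Z η) (uu M Z ζ) =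
      J * (theta2 N φ Z η ζ + N / (4 * π * I) * qb M Z η ζ * theta N φ Z 0) := by
  have h1 := (theta1_deriv N φ hZ' (uu M Z η) (uu M Z ζ)).const_mul (2 * π * I)
  have h2 : (fun s : ℂ => 2 * π * I *
      ∑' x : ι → ℤ, φ (red N x) * (lf (uu M Z η) x * tm N Z' (s • uu M Z ζ) x)) =
      fun s : ℂ => J * (ee N M Z (s • ζ) * (π * I * N * (s * qb M Z η ζ)) * theta N φ Z (s • ζ) +
        ee N M Z (s • ζ) *
          (2 * π * I * ∑' x : ι → ℤ, φ (red N x) * (lf η x * tm N Z (s • ζ) x))) := by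
    funext s
    exact law_one_at hZ hZ' φ h s ζ η
  rw [h2] at h1
  have he : HasDerivAt (fun s : ℂ => ee N M Z (s • ζ)) 0 0 := by
    have := ee_line_deriv N M Z 0 0 ζ
    simpa using this
  have hl : HasDerivAt (fun s : ℂ => π * I * N * (s * qb M Z η ζ)) (π * I * N * qb M Z η ζ) 0 := by
    have := ((hasDerivAt_id (0 : ℂ)).mul_const (qb M Z η ζ)).const_mul (π * I * N : ℂ)
    refine this.congr_deriv ?_
    simp
  have ht := theta_deriv N φ hZ ζ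
  have h3 := (((he.mul hl).mul ht).add
    (he.mul ((theta1_deriv N φ hZ η ζ).const_mul (2 * π * I)))).const_mul J
  have h4 := h1.unique h3
  simp only [Pi.mul_apply, zero_smul, ee_zero, zero_mul, mul_zero, one_mul, zero_add, add_zero] at h4
  have h5 : (2 * π * I * (2 * π * I) : ℂ) ≠ 0 := by
    simp [Real.pi_ne_zero]
  have h6 : (4 * π * I : ℂ) ≠ 0 := by simp [Real.pi_ne_zero]
  refine mul_left_cancel₀ h5 ?_
  rw [mul_assoc, h4]
  field_simp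
  ring

end

end Pool.CMH
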