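import Pool.Agent.Lib.CMH.P1Defs

/-! # TANK CMH, row TH1: convergence of Siegel theta series, bounds, continuity, derivatives in the
elliptic variable.  helper99. -/

set_option autoImplicit false

namespace Pool.CMH

open Matrix Complex Real Filter Topology

noncomputable section

variable {ι : Type} [Fintype ι]

namespace TH1

/-! ## 1. products of one-dimensional sums -/

theorem summable_prod_pi [DecidableEq ι] (f : ι → ℤ → ℝ) (h0 : ∀ i n, 0 ≤ f i n)
    (hf : ∀ i, Summable (f i)) : Summable fun x : ι → ℤ => ∏ i, f i (x i) := by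
  refine summable_of_sum_le (c := ∏ i, ∑' n, f i n)
    (fun x => Finset.prod_nonneg fun i _ => h0 i _) fun s => ?_
  have h1 : s ⊆ Fintype.piFinset fun i => s.image fun x => x i := by
    intro x hx
    rw [Fintype.mem_piFinset]
    exact fun i => Finset.mem_image_of_mem _ hx
  refine (Finset.sum_le_sum_of_subset_of_nonneg h1
    fun x _ _ => Finset.prod_nonneg fun i _ => h0 i _).trans ?_
  rw [← Finset.prod_univ_sum]
  refine Finset.prod_le_prod (fun i _ => Finset.sum_nonneg fun n _ => h0 i n) fun i _ => ?_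
  exact (hf i).sum_le_tsum _ fun n _ => h0 i n

/-- the majorant `∏ exp(-π (T x_a² - 2 S |x_a|))`. -/
def B (ι : Type) [Fintype ι] (T S : ℝ) (x : ι → ℤ) : ℝ :=
  ∏ a, rexp (-π * (T * (x a : ℝ) ^ 2 - 2 * S * |(x a : ℝ)|))

theorem B_nonneg (T S : ℝ) (x : ι → ℤ) : 0 ≤ B ι T S x :=
  Finset.prod_nonneg fun _ _ => (Real.exp_pos _).le

theorem summable_B {T : ℝ} (hT : 0 < T) (S : ℝ) : Summable (B ι T S) := by
  classical
  refine summable_prod_pi (fun _ n => rexp (-π * (T * (n : ℝ) ^ 2 - 2 * S * |(n : ℝ)|)))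
    (fun _ _ => (Real.exp_pos _).le) fun _ => ?_
  have h := summable_pow_mul_jacobiTheta₂_term_bound S hT 0
  simpa only [pow_zero, one_mul, Int.cast_abs] using h

/-- the polynomial weight `1 + ∑ |x_a|`. -/
def W (x : ι → ℤ) : ℝ := 1 + ∑ a, |(x a : ℝ)|

theorem one_le_W (x : ι → ℤ) : 1 ≤ W x := by
  unfold W
  have : 0 ≤ ∑ a, |(x a : ℝ)| := Finset.sum_nonneg fun _ _ => abs_nonneg _
  linarith

theorem W_pow_mul_B (T S : ℝ) (k : ℕ) (x : ι → ℤ) :
    W x ^ k * B ι T S x ≤ B ι T (S + k / (2 * π)) x := by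
  have h1 : W x ^ k ≤ rexp (k * ∑ a, |(x a : ℝ)|) := by
    rw [Real.exp_nat_mul]
    refine pow_le_pow_left₀ (zero_le_one.trans (one_le_W x)) ?_ _
    have := Real.add_one_le_exp (∑ a, |(x a : ℝ)|)
    unfold W
    linarith
  refine (mul_le_mul_of_nonneg_right h1 (B_nonneg _ _ _)).trans (le_of_eq ?_)
  unfold B
  rw [Finset.mul_sum, Real.exp_sum, ← Finset.prod_mul_distrib]
  refine Finset.prod_congr rfl fun a _ => ?_
  rw [← Real.exp_add]
  congr 1
  have := Real.pi_pos.ne'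
  field_simp
  ring

/-! ## 2. the term -/

/-- `Im Z ≥ c`. -/
def ImGe (c : ℝ) (Z : Matrix ι ι ℂ) : Prop :=
  ∀ x : ι → ℝ, c * ∑ a, x a ^ 2 ≤ ∑ a, ∑ b, x a * x b * (Z a b).im

theorem qf_im (Z : Matrix ι ι ℂ) (x : ι → ℤ) :
    (qf Z x).im = ∑ a, ∑ b, (x a : ℝ) * (x b : ℝ) * (Z a b).im := by
  unfold qf
  simp [Complex.im_sum]

theorem lf_im (u : ι → ℂ) (x : ι → ℤ) : (lf u x).im = ∑ a, (x a : ℝ) * (u a).im := by
  unfold lf
  simp [Complex.im_sum]

theorem norm_tm (N : ℕ) (Z : Matrix ι ι ℂ) (u : ι → ℂ) (x : ι → ℤ) :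
    ‖tm N Z u x‖ = rexp (-π * (N : ℝ)⁻¹ * (qf Z x).im - 2 * π * (lf u x).im) := by
  unfold tm
  rw [Complex.norm_exp]
  congr 1
  rw [show (π * I * qf Z x / N : ℂ) = ((N : ℝ)⁻¹ : ℝ) * (π * I * qf Z x) by push_cast; ring]
  rw [Complex.add_re, Complex.re_ofReal_mul]
  simp [mul_re, mul_im]
  ring

theorem norm_tm_le {N : ℕ} (hN : 0 < N) {c M : ℝ} {Z : Matrix ι ι ℂ} (hZ : ImGe c Z) {u : ι → ℂ}
    (hu : ∀ a, |(u a).im| ≤ M) (x : ι → ℤ) : ‖tm N Z u x‖ ≤ B ι ((N : ℝ)⁻¹ * c) M x := by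
  have hr : (0 : ℝ) < (N : ℝ)⁻¹ := inv_pos.2 (Nat.cast_pos.2 hN)
  rw [norm_tm]
  generalize (N : ℝ)⁻¹ = r at hr
  rw [B, ← Real.exp_sum, Real.exp_le_exp, qf_im, lf_im, ← Finset.mul_sum,
    Finset.sum_sub_distrib, ← Finset.mul_sum]
  have h1 := hZ fun a => (x a : ℝ)
  have h2 : -∑ a, (x a : ℝ) * (u a).im ≤ ∑ a, M * |(x a : ℝ)| := by
    rw [← Finset.sum_neg_distrib]
    refine Finset.sum_le_sum fun a _ => ?_
    calc -((x a : ℝ) * (u a).im) ≤ |(x a : ℝ) * (u a).im| := neg_le_abs _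
      _ = |(u a).im| * |(x a : ℝ)| := by rw [abs_mul, mul_comm]
      _ ≤ M * |(x a : ℝ)| := mul_le_mul_of_nonneg_right (hu a) (abs_nonneg _)
  have h3 : ∑ a, 2 * M * |(x a : ℝ)| = 2 * ∑ a, M * |(x a : ℝ)| := by
    rw [Finset.mul_sum]
    exact Finset.sum_congr rfl fun a _ => by ring
  rw [h3]
  have hπ := Real.pi_pos
  have h4 : π * r * (c * ∑ a, (x a : ℝ) ^ 2) ≤
      π * r * ∑ a, ∑ b, (x a : ℝ) * (x b : ℝ) * (Z a b).im :=
    mul_le_mul_of_nonneg_left h1 (by positivity)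
  have h5 : 2 * π * -∑ a, (x a : ℝ) * (u a).im ≤ 2 * π * ∑ a, M * |(x a : ℝ)| :=
    mul_le_mul_of_nonneg_left h2 (by positivity)
  nlinarith [h4, h5]

/-! ## 3. uniform positivity -/

theorem sum_sq_le (x : ι → ℝ) : ∑ a, x a ^ 2 ≤ (Fintype.card ι : ℝ) * ‖x‖ ^ 2 := by
  calc ∑ a, x a ^ 2 ≤ ∑ _a : ι, ‖x‖ ^ 2 := by
        refine Finset.sum_le_sum fun a _ => ?_
        rw [← sq_abs, ← Real.norm_eq_abs]
        exact pow_le_pow_left₀ (norm_nonneg _) (norm_le_pi_norm x a) 2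
    _ = _ := by simp

theorem exists_ImGe {K : Set (Matrix ι ι ℂ × (ι → ℂ))} (hK : IsCompact K)
    (hS : ∀ p ∈ K, p.1 ∈ Sieg ι) : ∃ c : ℝ, 0 < c ∧ ∀ p ∈ K, ImGe c p.1 := by
  let F : (Matrix ι ι ℂ × (ι → ℂ)) × (ι → ℝ) → ℝ :=
    fun q => ∑ a, ∑ b, q.2 a * q.2 b * (q.1.1 a b).im
  have hF : Continuous F := by
    refine continuous_finsetSum _ fun a _ => continuous_finsetSum _ fun b _ => ?_
    refine ((((continuous_apply a).comp continuous_snd).mul
      ((continuous_apply b).comp continuous_snd))).mul ?_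
    exact Complex.continuous_im.comp
      ((continuous_apply b).comp ((continuous_apply a).comp (continuous_fst.comp continuous_fst)))
  have hc : IsCompact (K ×ˢ Metric.sphere (0 : ι → ℝ) 1) := hK.prod (isCompact_sphere _ _)
  obtain ⟨c, hc0, hc1⟩ : ∃ c : ℝ, 0 < c ∧ ∀ p ∈ K, ∀ x ∈ Metric.sphere (0 : ι → ℝ) 1,
      c ≤ F (p, x) := by
    rcases (K ×ˢ Metric.sphere (0 : ι → ℝ) 1).eq_empty_or_nonempty with he | hne
    · refine ⟨1, one_pos, fun p hp x hx => ?_⟩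
      have : (p, x) ∈ (∅ : Set ((Matrix ι ι ℂ × (ι → ℂ)) × (ι → ℝ))) := he ▸ ⟨hp, hx⟩
      exact this.elim
    · obtain ⟨q, hq, hmin⟩ := hc.exists_isMinOn hne hF.continuousOn
      refine ⟨F q, ?_, fun p hp x hx => hmin ⟨hp, hx⟩⟩
      refine (hS q.1 hq.1).2 q.2 fun h0 => ?_
      have := hq.2
      rw [h0] at this
      simp at this
  refine ⟨c / (Fintype.card ι + 1), by positivity, fun p hp x => ?_⟩
  rcases eq_or_ne x 0 with rfl | hx
  · simp
  have hn : 0 < ‖x‖ := norm_pos_iff.2 hx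
  have h1 := hc1 p hp (‖x‖⁻¹ • x) (by simp [norm_smul, hn.ne'])
  have h2 : F (p, ‖x‖⁻¹ • x) = ‖x‖⁻¹ ^ 2 * ∑ a, ∑ b, x a * x b * (p.1 a b).im := by
    simp only [F, Pi.smul_apply, smul_eq_mul, Finset.mul_sum]
    refine Finset.sum_congr rfl fun a _ => Finset.sum_congr rfl fun b _ => ?_
    ring
  rw [h2] at h1
  have h3 : c * ‖x‖ ^ 2 ≤ ∑ a, ∑ b, x a * x b * (p.1 a b).im := by
    have h3 := mul_le_mul_of_nonneg_right h1 (sq_nonneg ‖x‖)
    generalize ∑ a, ∑ b, x a * x b * (p.1 a b).im = S at h3 ⊢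
    have h4 : ‖x‖⁻¹ ^ 2 * S * ‖x‖ ^ 2 = S := by
      rw [inv_pow]
      field_simp
    rwa [h4] at h3
  refine le_trans ?_ h3
  have h4 := sum_sq_le x
  have h5 : (0 : ℝ) < (Fintype.card ι : ℝ) + 1 := by positivity
  calc c / (Fintype.card ι + 1) * ∑ a, x a ^ 2
      ≤ c / (Fintype.card ι + 1) * ((Fintype.card ι : ℝ) * ‖x‖ ^ 2) :=
        mul_le_mul_of_nonneg_left h4 (by positivity)
    _ = c * ‖x‖ ^ 2 * ((Fintype.card ι : ℝ) / (Fintype.card ι + 1)) := by ring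
    _ ≤ c * ‖x‖ ^ 2 * 1 := by
        refine mul_le_mul_of_nonneg_left ?_ (by positivity)
        rw [div_le_one h5]
        linarith
    _ = c * ‖x‖ ^ 2 := mul_one _

theorem exists_im_le {K : Set (Matrix ι ι ℂ × (ι → ℂ))} (hK : IsCompact K) :
    ∃ M : ℝ, ∀ p ∈ K, ∀ a, |(p.2 a).im| ≤ M := by
  obtain ⟨M, hM⟩ := (hK.image continuous_snd).isBounded.exists_norm_le
  refine ⟨M, fun p hp a => ?_⟩
  exact (Complex.abs_im_le_norm _).trans ((norm_le_pi_norm p.2 a).trans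
    (hM p.2 (Set.mem_image_of_mem _ hp)))

end TH1

open TH1

/-- locally uniform domination: for a compact set of `(Z, u)` -/
theorem tm_dom (N : ℕ) [NeZero N] {K : Set (Matrix ι ι ℂ × (ι → ℂ))} (hK : IsCompact K)
    (hS : ∀ p ∈ K, p.1 ∈ Sieg ι) (k : ℕ) :
    ∃ B : (ι → ℤ) → ℝ, Summable B ∧
      ∀ p ∈ K, ∀ x : ι → ℤ, (1 + ∑ i, |(x i : ℝ)|) ^ k * ‖tm N p.1 p.2 x‖ ≤ B x := by
  obtain ⟨c, hc, hcK⟩ := exists_ImGe hK hS
  obtain ⟨M, hM⟩ := exists_im_le hK
  have hN : (0 : ℝ) < (N : ℝ)⁻¹ := inv_pos.2 (Nat.cast_pos.2 (NeZero.pos N))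
  refine ⟨B ι ((N : ℝ)⁻¹ * c) (M + k / (2 * π)), summable_B (by positivity) _, fun p hp x => ?_⟩
  refine le_trans ?_ (W_pow_mul_B _ _ k x)
  exact mul_le_mul_of_nonneg_left (norm_tm_le (NeZero.pos N) (hcK p hp) (hM p hp) x)
    (pow_nonneg (zero_le_one.trans (one_le_W x)) _)

theorem theta_tm_summable (N : ℕ) [NeZero N] {Z : Matrix ι ι ℂ}
    (hZ : Z ∈ Sieg ι) (u : ι → ℂ) : Summable fun x : ι → ℤ => ‖tm N Z u x‖ := by
  obtain ⟨B, hB, h⟩ := tm_dom N (K := {(Z, u)}) isCompact_singleton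
    (fun p hp => by rw [Set.mem_singleton_iff.1 hp]; exact hZ) 0
  refine hB.of_nonneg_of_le (fun _ => norm_nonneg _) fun x => ?_
  simpa using h (Z, u) rfl x

/-- a function of level `N` is bounded -/
theorem red_bound {N : ℕ} [NeZero N] (φ : (ι → ZMod N) → ℂ) :
    ∃ C : ℝ, 0 ≤ C ∧ ∀ x : ι → ℤ, ‖φ (red N x)‖ ≤ C := by
  classical
  exact ⟨∑ y, ‖φ y‖, Finset.sum_nonneg fun _ _ => norm_nonneg _, fun x =>
    Finset.single_le_sum (f := fun y => ‖φ y‖) (fun _ _ => norm_nonneg _)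
      (Finset.mem_univ (red N x))⟩

theorem theta_summable (N : ℕ) [NeZero N] (φ : (ι → ZMod N) → ℂ) {Z : Matrix ι ι ℂ}
    (hZ : Z ∈ Sieg ι) (u : ι → ℂ) : Summable fun x : ι → ℤ => φ (red N x) * tm N Z u x := by
  obtain ⟨C, _, hC⟩ := red_bound φ
  refine ((theta_tm_summable N hZ u).mul_left C).of_norm_bounded fun x => ?_
  rw [norm_mul]
  exact mul_le_mul_of_nonneg_right (hC x) (norm_nonneg _)

theorem norm_lf_le (η : ι → ℂ) (x : ι → ℤ) :
    ‖lf η x‖ ≤ (∑ i, ‖η i‖) * (1 + ∑ i, |(x i : ℝ)|) := by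
  unfold lf
  refine (norm_sum_le _ _).trans ?_
  rw [Finset.sum_mul]
  refine Finset.sum_le_sum fun i _ => ?_
  rw [norm_mul, Complex.norm_intCast, mul_comm]
  refine mul_le_mul_of_nonneg_left ?_ (norm_nonneg _)
  have : |(x i : ℝ)| ≤ ∑ i, |(x i : ℝ)| :=
    Finset.single_le_sum (f := fun i => |(x i : ℝ)|) (fun _ _ => abs_nonneg _) (Finset.mem_univ i)
  linarith

theorem tm_add (N : ℕ) (Z : Matrix ι ι ℂ) (u η : ι → ℂ) (t : ℂ) (x : ι → ℤ) :
    tm N Z (u + t • η) x = tm N Z u x * cexp (t * (2 * π * I * lf η x)) := by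
  unfold tm
  rw [← Complex.exp_add]
  congr 1
  have : lf (u + t • η) x = lf u x + t * lf η x := by
    unfold lf
    rw [Finset.mul_sum, ← Finset.sum_add_distrib]
    refine Finset.sum_congr rfl fun i _ => ?_
    simp only [Pi.add_apply, Pi.smul_apply, smul_eq_mul]
    ring
  rw [this]
  ring

theorem tm_hasDerivAt (N : ℕ) (Z : Matrix ι ι ℂ) (u η : ι → ℂ) (x : ι → ℤ) (t : ℂ) :
    HasDerivAt (fun t : ℂ => tm N Z (u + t • η) x)
      (2 * π * I * (lf η x * tm N Z (u + t • η) x)) t := by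
  simp_rw [tm_add]
  have h := (((hasDerivAt_id t).mul_const (2 * π * I * lf η x)).cexp).const_mul (tm N Z u x)
  refine h.congr_deriv ?_
  simp only [id]
  ring

/-- termwise differentiation in `u`, with a coefficient of polynomial growth -/
theorem deriv_gen (N : ℕ) [NeZero N] {p : (ι → ℤ) → ℂ} {C : ℝ} {k : ℕ}
    (hp : ∀ x, ‖p x‖ ≤ C * (1 + ∑ i, |(x i : ℝ)|) ^ k) {Z : Matrix ι ι ℂ}
    (hZ : Z ∈ Sieg ι) (u η : ι → ℂ) :
    HasDerivAt (fun t : ℂ => ∑' x : ι → ℤ, p x * tm N Z (u + t • η) x)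
      (2 * π * I * ∑' x : ι → ℤ, p x * (lf η x * tm N Z u x)) 0 := by
  have hK : IsCompact ((fun t : ℂ => (Z, u + t • η)) '' Metric.closedBall 0 1) :=
    (isCompact_closedBall _ _).image (by fun_prop)
  have hS : ∀ q ∈ (fun t : ℂ => (Z, u + t • η)) '' Metric.closedBall 0 1, q.1 ∈ Sieg ι := by
    rintro q ⟨t, _, rfl⟩
    exact hZ
  obtain ⟨B, hB, h⟩ := tm_dom N hK hS (k + 1)
  obtain ⟨B0, hB0, h0⟩ := tm_dom N hK hS k
  have hC : 0 ≤ C := by
    have h1 := (norm_nonneg _).trans (hp 0)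
    simpa using h1
  have hterm : ∀ (x : ι → ℤ) (t : ℂ), t ∈ Metric.ball (0 : ℂ) 1 →
      HasDerivAt (fun t : ℂ => p x * tm N Z (u + t • η) x)
        (p x * (2 * π * I * (lf η x * tm N Z (u + t • η) x))) t :=
    fun x t _ => (tm_hasDerivAt N Z u η x t).const_mul _
  have hbd : ∀ (x : ι → ℤ) (t : ℂ), t ∈ Metric.ball (0 : ℂ) 1 →
      ‖p x * (2 * π * I * (lf η x * tm N Z (u + t • η) x))‖ ≤
        2 * π * C * (∑ i, ‖η i‖) * B x := by
    intro x t ht
    have h1 := h (Z, u + t • η) ⟨t, Metric.ball_subset_closedBall ht, rfl⟩ x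
    have h2 : ‖(2 * π * I : ℂ)‖ = 2 * π := by
      simp [abs_of_pos Real.pi_pos]
    rw [norm_mul, norm_mul _ (lf η x * _), h2, norm_mul]
    have hW : 0 ≤ 1 + ∑ i, |(x i : ℝ)| := zero_le_one.trans (one_le_W x)
    calc ‖p x‖ * (2 * π * (‖lf η x‖ * ‖tm N Z (u + t • η) x‖))
        ≤ (C * (1 + ∑ i, |(x i : ℝ)|) ^ k) * (2 * π * (((∑ i, ‖η i‖) * (1 + ∑ i, |(x i : ℝ)|)) *
            ‖tm N Z (u + t • η) x‖)) := by
          refine mul_le_mul (hp x) ?_ (by positivity) (by positivity)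
          refine mul_le_mul_of_nonneg_left ?_ (by positivity)
          exact mul_le_mul_of_nonneg_right (norm_lf_le η x) (norm_nonneg _)
      _ = 2 * π * C * (∑ i, ‖η i‖) *
            ((1 + ∑ i, |(x i : ℝ)|) ^ (k + 1) * ‖tm N Z (u + t • η) x‖) := by
          rw [pow_succ]; ring
      _ ≤ _ := mul_le_mul_of_nonneg_left h1 (by positivity)
  have hsum : Summable fun x : ι → ℤ => p x * tm N Z (u + (0 : ℂ) • η) x := by
    refine (hB0.mul_left C).of_norm_bounded fun x => ?_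
    have h1 := h0 (Z, u + (0 : ℂ) • η) ⟨0, by simp, rfl⟩ x
    rw [norm_mul]
    calc ‖p x‖ * ‖tm N Z (u + (0 : ℂ) • η) x‖
        ≤ (C * (1 + ∑ i, |(x i : ℝ)|) ^ k) * ‖tm N Z (u + (0 : ℂ) • η) x‖ :=
          mul_le_mul_of_nonneg_right (hp x) (norm_nonneg _)
      _ = C * ((1 + ∑ i, |(x i : ℝ)|) ^ k * ‖tm N Z (u + (0 : ℂ) • η) x‖) := by ring
      _ ≤ _ := mul_le_mul_of_nonneg_left h1 hC
  have key := hasDerivAt_tsum_of_isPreconnected (hB.mul_left (2 * π * C * (∑ i, ‖η i‖)))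
    Metric.isOpen_ball (convex_ball (0 : ℂ) 1).isPreconnected hterm hbd
    (Metric.mem_ball_self one_pos) hsum (Metric.mem_ball_self one_pos)
  refine key.congr_deriv ?_
  rw [← tsum_mul_left]
  refine tsum_congr fun x => ?_
  rw [zero_smul, add_zero]
  ring

theorem theta_deriv_at (N : ℕ) [NeZero N] (φ : (ι → ZMod N) → ℂ) {Z : Matrix ι ι ℂ}
    (hZ : Z ∈ Sieg ι) (u η : ι → ℂ) :
    HasDerivAt (fun t : ℂ => theta N φ Z (u + t • η))
      (2 * π * I * ∑' x : ι → ℤ, φ (red N x) * (lf η x * tm N Z u x)) 0 := by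
  obtain ⟨C, _, hC⟩ := red_bound φ
  exact deriv_gen N (p := fun x => φ (red N x)) (C := C) (k := 0)
    (fun x => by simpa using hC x) hZ u η

/-- the first derivative in `u` at `0` -/
theorem theta_deriv (N : ℕ) [NeZero N] (φ : (ι → ZMod N) → ℂ) {Z : Matrix ι ι ℂ}
    (hZ : Z ∈ Sieg ι) (η : ι → ℂ) :
    HasDerivAt (fun t : ℂ => theta N φ Z (t • η)) (2 * π * I * theta1 N φ Z η) 0 := by
  have h := theta_deriv_at N φ hZ 0 η
  simpa only [zero_add, theta1] using h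

theorem theta1_deriv (N : ℕ) [NeZero N] (φ : (ι → ZMod N) → ℂ) {Z : Matrix ι ι ℂ}
    (hZ : Z ∈ Sieg ι) (η ζ : ι → ℂ) :
    HasDerivAt (fun s : ℂ => ∑' x : ι → ℤ, φ (red N x) * (lf η x * tm N Z (s • ζ) x))
      (2 * π * I * theta2 N φ Z η ζ) 0 := by
  obtain ⟨C, hC0, hC⟩ := red_bound φ
  have h := deriv_gen N (p := fun x => φ (red N x) * lf η x) (C := C * ∑ i, ‖η i‖) (k := 1)
    (fun x => by
      rw [norm_mul, pow_one, mul_assoc]
      exact mul_le_mul (hC x) (norm_lf_le η x) (norm_nonneg _) hC0) hZ 0 ζ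
  simp only [zero_add, mul_assoc] at h
  unfold theta2
  simpa only [mul_assoc] using h

theorem theta_continuous (N : ℕ) [NeZero N] (φ : (ι → ZMod N) → ℂ) :
    ContinuousOn (fun p : Matrix ι ι ℂ × (ι → ℂ) => theta N φ p.1 p.2)
      {p | p.1 ∈ Sieg ι} := by
  intro p0 hp0
  obtain ⟨c, hc, hcK⟩ := exists_ImGe (K := {p0}) isCompact_singleton
    (fun p hp => by rw [Set.mem_singleton_iff.1 hp]; exact hp0)
  have hc0 := hcK p0 rfl
  obtain ⟨M, hM⟩ := exists_im_le (K := {p0}) isCompact_singleton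
  have hM0 := hM p0 rfl
  obtain ⟨C, _, hC⟩ := red_bound φ
  let ε : ℝ := c / (2 * (Fintype.card ι + 1))
  have hε : 0 < ε := by positivity
  let s : Set (Matrix ι ι ℂ × (ι → ℂ)) :=
    {p | (∀ a b, |(p.1 a b).im - (p0.1 a b).im| < ε) ∧ ∀ a, |(p.2 a).im| < M + 1}
  have hs : IsOpen s := by
    have h1 : IsOpen {p : Matrix ι ι ℂ × (ι → ℂ) | ∀ a b, |(p.1 a b).im - (p0.1 a b).im| < ε} := by
      simp only [Set.ofPred_forall]
      refine isOpen_iInter_of_finite fun a => isOpen_iInter_of_finite fun b => ?_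
      refine isOpen_lt ?_ continuous_const
      refine (Continuous.sub (Complex.continuous_im.comp ?_) continuous_const).abs
      exact (continuous_apply b).comp ((continuous_apply a).comp continuous_fst)
    have h2 : IsOpen {p : Matrix ι ι ℂ × (ι → ℂ) | ∀ a, |(p.2 a).im| < M + 1} := by
      simp only [Set.ofPred_forall]
      refine isOpen_iInter_of_finite fun a => ?_
      refine isOpen_lt ?_ continuous_const
      exact (Complex.continuous_im.comp ((continuous_apply a).comp continuous_snd)).abs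
    exact h1.inter h2
  have hp0s : p0 ∈ s := ⟨fun a b => by simpa using hε, fun a => by have := hM0 a; linarith⟩
  have hcs : ∀ p ∈ s, ImGe (c / 2) p.1 := by
    intro p hp x
    have h1 := hc0 x
    have h2 : ∑ a, ∑ b, x a * x b * (p0.1 a b).im - ∑ a, ∑ b, x a * x b * (p.1 a b).im ≤
        c / 2 * ∑ a, x a ^ 2 := by
      rw [← Finset.sum_sub_distrib]
      have h3 : ∀ a, (∑ b, x a * x b * (p0.1 a b).im - ∑ b, x a * x b * (p.1 a b).im) ≤
          ∑ b, ε * ((x a ^ 2 + x b ^ 2) / 2) := by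
        intro a
        rw [← Finset.sum_sub_distrib]
        refine Finset.sum_le_sum fun b _ => ?_
        have h4 := (hp.1 a b).le
        have h5 : |x a * x b| ≤ (x a ^ 2 + x b ^ 2) / 2 := by
          rw [abs_le]
          constructor <;> nlinarith [sq_nonneg (x a + x b), sq_nonneg (x a - x b)]
        calc x a * x b * (p0.1 a b).im - x a * x b * (p.1 a b).im
            = -((x a * x b) * ((p.1 a b).im - (p0.1 a b).im)) := by ring
          _ ≤ |(x a * x b) * ((p.1 a b).im - (p0.1 a b).im)| := neg_le_abs _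
          _ = |x a * x b| * |(p.1 a b).im - (p0.1 a b).im| := abs_mul _ _
          _ ≤ ((x a ^ 2 + x b ^ 2) / 2) * ε := mul_le_mul h5 h4 (abs_nonneg _) (by positivity)
          _ = _ := mul_comm _ _
      refine (Finset.sum_le_sum fun a _ => h3 a).trans ?_
      have h6 : ∑ a, ∑ b, ε * ((x a ^ 2 + x b ^ 2) / 2) =
          ε * (Fintype.card ι : ℝ) * ∑ a, x a ^ 2 := by
        simp only [← Finset.mul_sum, ← Finset.sum_div, Finset.sum_add_distrib, Finset.sum_const,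
          Finset.card_univ, nsmul_eq_mul]
        ring
      rw [h6]
      refine mul_le_mul_of_nonneg_right ?_ (Finset.sum_nonneg fun a _ => sq_nonneg _)
      have h7 : (0 : ℝ) < (Fintype.card ι : ℝ) + 1 := by positivity
      calc ε * (Fintype.card ι : ℝ)
          = c / 2 * ((Fintype.card ι : ℝ) / ((Fintype.card ι : ℝ) + 1)) := by
            simp only [ε]; field_simp
        _ ≤ c / 2 * 1 := by
            refine mul_le_mul_of_nonneg_left ?_ (by positivity)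
            rw [div_le_one h7]
            linarith
        _ = c / 2 := mul_one _
    linarith
  have hN : (0 : ℝ) < (N : ℝ)⁻¹ := inv_pos.2 (Nat.cast_pos.2 (NeZero.pos N))
  have hcont : ContinuousOn
      (fun p : Matrix ι ι ℂ × (ι → ℂ) => ∑' x : ι → ℤ, φ (red N x) * tm N p.1 p.2 x) s := by
    refine continuousOn_tsum (u := fun x => C * B ι ((N : ℝ)⁻¹ * (c / 2)) (M + 1) x) ?_
      ((summable_B (by positivity) _).mul_left C) ?_
    · intro x
      refine (continuous_const.mul ?_).continuousOn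
      unfold tm qf lf
      refine Complex.continuous_exp.comp ?_
      refine Continuous.add ?_ ?_
      · refine Continuous.div_const (continuous_const.mul ?_) _
        refine continuous_finsetSum _ fun a _ => continuous_finsetSum _ fun b _ => ?_
        exact continuous_const.mul
          ((continuous_apply b).comp ((continuous_apply a).comp continuous_fst))
      · refine continuous_const.mul ?_
        refine continuous_finsetSum _ fun a _ => ?_
        exact continuous_const.mul ((continuous_apply a).comp continuous_snd)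
    · intro x p hp
      rw [norm_mul]
      exact mul_le_mul (hC x) (norm_tm_le (NeZero.pos N) (hcs p hp) (fun a => (hp.2 a).le) x)
        (norm_nonneg _) ‹0 ≤ C›
  exact (hcont.continuousAt (hs.mem_nhds hp0s)).continuousWithinAt

end

end Pool.CMH
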