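import Pool.Agent.Lib.CMH.TH9t
import Pool.Agent.Lib.CMH.TH8d
import Pool.Agent.Lib.CMH.TH1
import Pool.Agent.Lib.CMH.TH7d

/-! # TANK CMH, row TH9a, second part (helper15): the two-forms `C_R(φ)` as Siegel theta series -/

set_option autoImplicit false
set_option linter.unusedSectionVars false

namespace Pool.CMH

open Matrix Complex Real
open Pool.Agent.CMH (hat pr w s ds ball ev form Mat Gam cmat gy act Good SB2 Maj IsMaj R0 gauss
  gauss2 Del CR IsSB GRP EST)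

noncomputable section

section

variable {ι : Type} [Fintype ι]

/-- the terms of `theta2` are summable -/
theorem theta2_summable (N : ℕ) [NeZero N] (φ : (ι → ZMod N) → ℂ) {Z : Matrix ι ι ℂ}
    (hZ : Z ∈ Sieg ι) (η ζ : ι → ℂ) :
    Summable fun x : ι → ℤ => φ (red N x) * (lf η x * lf ζ x * tm N Z 0 x) := by
  obtain ⟨C, hC0, hC⟩ := red_bound φ
  obtain ⟨B, hB, hB'⟩ := tm_dom N (K := {(Z, (0 : ι → ℂ))}) isCompact_singleton
    (by intro p hp; rw [Set.mem_singleton_iff.1 hp]; exact hZ) 2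
  refine Summable.of_norm_bounded (hB.mul_left (C * ((∑ i, ‖η i‖) * ∑ i, ‖ζ i‖))) fun x => ?_
  have h1 := hB' _ (Set.mem_singleton _) x
  have h2 := norm_lf_le η x
  have h3 := norm_lf_le ζ x
  have h4 := hC x
  rw [norm_mul, norm_mul, norm_mul]
  have hW : (0 : ℝ) ≤ 1 + ∑ i, |(x i : ℝ)| := by positivity
  calc ‖φ (red N x)‖ * (‖lf η x‖ * ‖lf ζ x‖ * ‖tm N Z 0 x‖)
      ≤ C * (((∑ i, ‖η i‖) * (1 + ∑ i, |(x i : ℝ)|)) *
          ((∑ i, ‖ζ i‖) * (1 + ∑ i, |(x i : ℝ)|)) * ‖tm N Z 0 x‖) := by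
        gcongr
    _ = C * ((∑ i, ‖η i‖) * ∑ i, ‖ζ i‖) *
          ((1 + ∑ i, |(x i : ℝ)|) ^ 2 * ‖tm N Z 0 x‖) := by ring
    _ ≤ C * ((∑ i, ‖η i‖) * ∑ i, ‖ζ i‖) * B x := by
        gcongr

end

variable {F : Type} [Field F] [NumberField F] {v₁ : F →+* ℝ} {D : F} {h : Fin 3 → F}

open Classical in
/-- the quadratic form of `Z_v` on the pair of vectors `ξ` -/
theorem Zp_quad2 {a : Fin 2 → F} (ha : ∀ i, 0 < v₁ (a i)) {R : Maj F} (hR : R v₁ = R0 a v₁)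
    (y : Fin 2 → ℂ) (ξ : Fin 2 → Fin 3 → F) (v : F →+* ℝ) :
    ∑ p : Fin 2 × Fin 3, ∑ q : Fin 2 × Fin 3, (v (ξ p.1 p.2) : ℂ) * (v (ξ q.1 q.2) : ℂ) *
      Zp v₁ D h a R y v p q =
      I * (((1 / √(v D) : ℝ) : ℂ) *
        (((∑ i, ∑ j, R v i j * form h v (ξ i) (ξ j) : ℝ) : ℂ) +
          if v = v₁ then 2 * ∑ i, (v (a i) : ℂ) * s (ev v h) (ev v (ξ i)) y ^ 2 else 0)) := by
  by_cases hv : v = v₁
  · subst hv
    have hZ : ∀ p q : Fin 2 × Fin 3, Zp v D h a R y v p q =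
        (I / (√(v D) : ℂ)) * ((if p.1 = q.1 then (v (a p.1) : ℂ) else 0) *
          ((if p.2 = q.2 then (v (h p.2) : ℂ) else 0) +
          2 * (v (h p.2) : ℂ) * (v (h q.2) : ℂ) * hat y p.2 * hat y q.2 / w (ev v h) y ^ 2)) := by
      intro p q
      unfold Zp
      rw [if_pos rfl]
    have hR' : ∀ i j : Fin 2, R v i j = if i = j then v (a i) else 0 := by
      intro i j
      rw [hR]
      unfold R0
      rw [Matrix.diagonal_apply]
      by_cases hij : i = j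
      · rw [if_pos hij, if_pos hij, abs_of_pos (ha i)]
      · rw [if_neg hij, if_neg hij]
    simp only [hZ, hR']
    rw [if_pos trivial]
    unfold s pr form ev
    simp only [Fintype.sum_prod_type, Fin.sum_univ_two, Fin.sum_univ_three]
    push_cast
    simp
    ring
  · have hZ : ∀ p q : Fin 2 × Fin 3, Zp v₁ D h a R y v p q =
        (I / (√(v D) : ℂ)) * ((R v p.1 q.1 : ℂ) * (if p.2 = q.2 then (v (h p.2) : ℂ) else 0)) := by
      intro p q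
      unfold Zp
      rw [if_neg hv]
    simp only [hZ]
    rw [if_neg hv]
    unfold form
    simp only [Fintype.sum_prod_type, Fin.sum_univ_two, Fin.sum_univ_three]
    push_cast
    simp
    ring

/-- a linear factor at the place `v₁` -/
theorem lf_row (N : ℕ) (hN0 : (N : ℂ) ≠ 0) (x : (Fin 2 × Fin 3) × KF F → ℤ) (i : Fin 2)
    (j : Fin 2) (y : Fin 2 → ℂ) :
    lf (vv (Wm F) v₁ (row i ((N : ℂ)⁻¹ • ed (ev v₁ h) j y))) x =
      ds (ev v₁ h) (ev v₁ (lat N x i)) j y := by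
  classical
  have hX : ∀ (p : Fin 2 × Fin 3), ∑ q, (x (p, q) : ℂ) * (Wm F v₁ q : ℂ) =
      N * ((v₁ (lat N x p.1 p.2) : ℝ) : ℂ) := by
    intro p
    rw [lat_at]
    push_cast
    rw [mul_inv_cancel_left₀ hN0]
  rw [vv_lf, ds_eq_ed, Fintype.sum_prod_type, Finset.sum_eq_single i]
  · refine Finset.sum_congr rfl fun l _ => ?_
    rw [hX]
    unfold row
    rw [if_pos rfl, Pi.smul_apply, smul_eq_mul]
    change (N : ℂ) * ((v₁ (lat N x i l) : ℝ) : ℂ) * ((N : ℂ)⁻¹ * ed (ev v₁ h) j y l) =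
      ((v₁ (lat N x i l) : ℝ) : ℂ) * ed (ev v₁ h) j y l
    field_simp
  · intro b _ hb
    refine Finset.sum_eq_zero fun l _ => ?_
    unfold row
    rw [if_neg hb, mul_zero]
  · intro hi
    exact absurd (Finset.mem_univ _) hi

theorem CR_eq [NumberField.IsTotallyReal F] (hgd : Good v₁ D h) {a : Fin 2 → F}
    (ha : ∀ i, 0 < v₁ (a i)) {R : Maj F} (hR : R v₁ = R0 a v₁) (hRp : ∀ v, (R v).PosDef) (N : ℕ)
    {φ : (Fin 2 → Fin 3 → F) → ℂ} (hφ : SBJ N φ)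
    {φ' : ((Fin 2 × Fin 3) × KF F → ZMod (2 * N ^ 2)) → ℂ} (hφ' : Lev N φ φ')
    {y : Fin 2 → ℂ} (hy : y ∈ ball (ev v₁ h)) :
    CR v₁ D h a R φ y =
      theta2 (2 * N ^ 2) φ' (ZZ v₁ D h a R y)
        (vv (Wm F) v₁ (row 0 ((N : ℂ)⁻¹ • ed (ev v₁ h) 0 y)))
        (vv (Wm F) v₁ (row 1 ((N : ℂ)⁻¹ • ed (ev v₁ h) 1 y))) -
      theta2 (2 * N ^ 2) φ' (ZZ v₁ D h a R y)
        (vv (Wm F) v₁ (row 0 ((N : ℂ)⁻¹ • ed (ev v₁ h) 1 y)))
        (vv (Wm F) v₁ (row 1 ((N : ℂ)⁻¹ • ed (ev v₁ h) 0 y))) := by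
  classical
  have hNpos : 0 < N := hφ.1
  have hN0 : (N : ℂ) ≠ 0 := by exact_mod_cast hNpos.ne'
  have : NeZero (2 * N ^ 2) := ⟨by positivity⟩
  have hZZ : ZZ v₁ D h a R y ∈ Sieg ((Fin 2 × Fin 3) × KF F) :=
    tU_mem (Wi_mul F) fun v => Zp_mem hgd ha (fun v _ => hRp v) hy v
  have e1 : CR v₁ D h a R φ y = ∑' ξ : Fin 2 → Fin 3 → F, φ ξ *
      (gauss2 v₁ D h a R ξ y * Del (ev v₁ h) (fun i => ev v₁ (ξ i)) y) := by
    unfold CR
    exact tsum_congr fun ξ => mul_assoc _ _ _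
  rw [e1, tsum_lat N hφ (fun ξ => gauss2 v₁ D h a R ξ y * Del (ev v₁ h) (fun i => ev v₁ (ξ i)) y)]
  unfold theta2
  rw [← (theta2_summable (2 * N ^ 2) φ' hZZ _ _).tsum_sub
    (theta2_summable (2 * N ^ 2) φ' hZZ _ _)]
  refine tsum_congr fun x => ?_
  rw [hφ' x]
  simp only [lf_row N hN0]
  have hT : gauss2 v₁ D h a R (lat N x) y = tm (2 * N ^ 2) (ZZ v₁ D h a R y) 0 x := by
    unfold tm gauss2 ZZ
    congr 1
    rw [tU_qf]
    have hX : ∀ (v : F →+* ℝ) (i : Fin 2 × Fin 3), ∑ p, (x (i, p) : ℂ) * (Wm F v p : ℂ) =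
        N * ((v (lat N x i.1 i.2) : ℝ) : ℂ) := by
      intro v i
      rw [lat_at]
      push_cast
      rw [mul_inv_cancel_left₀ hN0]
    simp only [hX]
    have h0 : lf (0 : (Fin 2 × Fin 3) × KF F → ℂ) x = 0 := by simp [lf]
    rw [h0, mul_zero, add_zero]
    have h1 : ∀ v : F →+* ℝ, ∑ i : Fin 2 × Fin 3, ∑ j : Fin 2 × Fin 3,
        (N * ((v (lat N x i.1 i.2) : ℝ) : ℂ)) * (N * ((v (lat N x j.1 j.2) : ℝ) : ℂ)) *
        Zp v₁ D h a R y v i j =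
        (N : ℂ) ^ 2 * (I * (((1 / √(v D) : ℝ) : ℂ) *
        (((∑ i, ∑ j, R v i j * form h v (lat N x i) (lat N x j) : ℝ) : ℂ) +
          if v = v₁ then 2 * ∑ i, (v (a i) : ℂ) * s (ev v h) (ev v (lat N x i)) y ^ 2 else 0))) := by
      intro v
      rw [← Zp_quad2 ha hR y (lat N x) v, Finset.mul_sum]
      refine Finset.sum_congr rfl fun i _ => ?_
      rw [Finset.mul_sum]
      refine Finset.sum_congr rfl fun j _ => ?_
      ring
    simp only [h1]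
    rw [← Finset.mul_sum, ← Finset.mul_sum]
    generalize (∑ v : F →+* ℝ, ((1 / √(v D) : ℝ) : ℂ) *
        (((∑ i, ∑ j, R v i j * form h v (lat N x i) (lat N x j) : ℝ) : ℂ) +
          if v = v₁ then 2 * ∑ i, (v (a i) : ℂ) * s (ev v h) (ev v (lat N x i)) y ^ 2 else 0)) = T
    have hI := Complex.I_sq
    have h2 : ((2 * N ^ 2 : ℕ) : ℂ) ≠ 0 := by
      push_cast
      exact mul_ne_zero two_ne_zero (pow_ne_zero 2 hN0)
    rw [eq_div_iff h2]
    push_cast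
    linear_combination (-2 * (π : ℂ) * N ^ 2 * T) * hI
  rw [hT]
  unfold Del
  ring

end

end Pool.CMH
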