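import Pool.Agent.Lib.CMH.TH6
import Pool.Agent.Lib.CMH.TH7d
import Pool.Agent.Lib.CMH.TH7f
import Pool.Agent.Lib.CMH.TH8c
import Pool.Agent.Lib.CMH.TH8d
import Pool.Agent.Lib.CMH.TH8e
import Pool.Agent.Lib.CMH.TH8f
import Pool.Agent.Lib.CMH.TH8g
import Pool.Agent.Lib.CMH.TH9a
import Pool.Agent.Lib.CMH.TH9r
import Pool.Agent.Lib.CMH.Cocf
import Pool.Agent.Lib.CMH.Grp

/-!
# TANK CMH, P1, row TH9c: invariance of the theta one-forms and of the two-forms `C_R(φ)`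
-/

set_option autoImplicit false

namespace Pool.CMH

open Matrix Complex Real
open Pool.Agent.CMH (hat pr w s ds ball ev form Mat Gam cmat gy act Good SB2 Maj IsMaj R0 gauss
  gauss2 Del CR IsSB GRP EST)

noncomputable section

variable {F : Type} [Field F] [NumberField F]
variable {J : Type} [Fintype J] [DecidableEq J]
variable {v₁ : F →+* ℝ} {D : F} {h : Fin 3 → F}

/-! ### the group acting on the ball -/

theorem Gam_mono {c m : ℕ} (hm : 0 < m) : Gam D h (m * c) ⊆ Gam D h c := by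
  rintro g ⟨h1, h2, h3, h4⟩
  have hm' : (m : F) ≠ 0 := by exact_mod_cast hm.ne'
  have key : ∀ x : F, IsIntegral ℤ (x / ((m * c : ℕ) : F)) → IsIntegral ℤ (x / (c : F)) := by
    intro x hx
    have e : x / (c : F) = (m : F) * (x / ((m * c : ℕ) : F)) := by
      push_cast
      by_cases hc : (c : F) = 0
      · simp [hc]
      · field_simp
    rw [e]
    have : IsIntegral ℤ (m : F) := by
      have := isIntegral_algebraMap (R := ℤ) (A := F) (x := (m : ℤ))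
      simpa using this
    exact this.mul hx
  exact ⟨h1, h2, fun i j => key _ (h3 i j), fun i j => key _ (h4 i j)⟩

theorem convex_ball {k : Fin 3 → ℝ} (h0 : 0 < k 0) (h1 : 0 < k 1) : Convex ℝ (ball k) := by
  have hc : ∀ i : Fin 2, ConvexOn ℝ Set.univ (fun y : Fin 2 → ℂ => ‖y i‖ ^ 2) := by
    intro i
    have h2 : ConvexOn ℝ Set.univ (fun y : Fin 2 → ℂ => ‖y i‖) := by
      have := (convexOn_norm (E := ℂ) convex_univ).comp_linearMap
        (LinearMap.proj (R := ℝ) (φ := fun _ : Fin 2 => ℂ) i)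
      simpa [Function.comp_def] using this
    exact h2.pow (fun y _ => norm_nonneg _) 2
  have hs : ConvexOn ℝ Set.univ (fun y : Fin 2 → ℂ => k 0 * ‖y 0‖ ^ 2 + k 1 * ‖y 1‖ ^ 2 + k 2) := by
    have e := (((hc 0).smul h0.le).add ((hc 1).smul h1.le)).add
      (convexOn_const (k 2) (convex_univ (𝕜 := ℝ) (E := Fin 2 → ℂ)))
    exact e
  have := hs.convex_lt 0
  simpa [ball] using this

theorem mulM_mem (hgd : Good v₁ D h) {N : ℕ} (hN : 0 < N) {g g' : Mat F} (hg : g ∈ Gam D h N)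
    (hg' : g' ∈ Gam D h N) : mulM D g g' ∈ Gam D h N := by
  obtain ⟨g₃, h3, e, -⟩ := (Pool.Agent.CMH.grp F v₁ D h N hgd hN).2.2.1 g hg g' hg'
  have : g₃ = mulM D g g' := e
  rwa [← this]

/-- the group acting on the ball -/
@[reducible] def mulActionBall (hgd : Good v₁ D h) {N : ℕ} (hN : 0 < N) {G : Type} [Group G]
    (e : G → Mat F) (he : ∀ γ, e γ ∈ Gam D h N) (h1 : e 1 = (1, 0))
    (hm : ∀ γ γ', e (γ * γ') = mulM D (e γ) (e γ')) : MulAction G (ball (ev v₁ h)) where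
  smul γ y := ⟨act v₁ D (e γ) y.1,
    ((Pool.Agent.CMH.grp F v₁ D h N hgd hN).1 (e γ) (he γ) y.1 y.2).2.1⟩
  one_smul y := by
    apply Subtype.ext
    change act v₁ D (e 1) y.1 = y.1
    rw [h1, Pool.Agent.CMH.Grp.act_eq, Pool.Agent.CMH.Grp.cmat_one, Pool.Agent.CMH.Grp.acM_one]
  mul_smul γ γ' y := by
    apply Subtype.ext
    change act v₁ D (e (γ * γ')) y.1 = act v₁ D (e γ) (act v₁ D (e γ') y.1)
    rw [hm]
    exact (cE_mul hgd (he γ) (he γ') y.2).1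

theorem h_ne (hgd : Good v₁ D h) (k : Fin 3) : h k ≠ 0 := by
  intro hk
  have h0 := hgd.h0 v₁
  have h1 := hgd.h1 v₁
  have h3 := hgd.h3
  fin_cases k
  · simp only [Fin.zero_eta] at hk; rw [hk, map_zero] at h0; exact lt_irrefl _ h0
  · simp only [Fin.mk_one] at hk; rw [hk, map_zero] at h1; exact lt_irrefl _ h1
  · simp only [Fin.reduceFinMk] at hk; rw [hk, map_zero] at h3; exact lt_irrefl _ h3

theorem det_all [NumberField.IsTotallyReal F] (hgd : Good v₁ D h) {N : ℕ} (hN : 3 ≤ N)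
    {g : Mat F} (hg : g ∈ Gam D h N) (v : F →+* ℝ) : (cmat v D g).det = 1 := by
  rw [Pool.Agent.CMH.cocf_det_cmat v D (hgd.D0 v) g, Pool.Agent.CMH.cocf_det v₁ D h hgd hN hg]
  simp

open Classical in
theorem det_v (hgd : Good v₁ D h) {a : J → F} (ha0 : ∀ i, a i ≠ 0) (ha : ∀ i, 0 < v₁ (a i))
    {R : (F →+* ℝ) → Matrix J J ℝ}
    (hR : ∀ v, (R v).PosDef ∧ R v * Matrix.diagonal (fun i => (v (a i))⁻¹) * R v =
      Matrix.diagonal (fun i => v (a i))) {N : ℕ} {g : Mat F} (hg : g ∈ Gam D h N)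
    (hdet : ∀ v : F →+* ℝ, (cmat v D g).det = 1) {y : Fin 2 → ℂ} (hy : y ∈ ball (ev v₁ h))
    (v : F →+* ℝ) :
    (atv (sC D h a g) v * Zp v₁ D h a R y v + atv (sD J g) v).det =
      if v = v₁ then cE v₁ D h g y ^ (2 * Fintype.card J) else 1 := by
  by_cases hv : v = v₁
  · subst hv
    rw [if_pos rfl]
    exact Zp_det hgd ha0 ha hg hy (hdet v)
  · rw [if_neg hv]
    exact Zp_det_ne hgd ha0 hg (fun v _ => hR v) y v hv (hdet v)

theorem unit_v (hgd : Good v₁ D h) {a : J → F} (ha0 : ∀ i, a i ≠ 0) (ha : ∀ i, 0 < v₁ (a i))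
    {R : (F →+* ℝ) → Matrix J J ℝ}
    (hR : ∀ v, (R v).PosDef ∧ R v * Matrix.diagonal (fun i => (v (a i))⁻¹) * R v =
      Matrix.diagonal (fun i => v (a i))) {N : ℕ} {g : Mat F} (hg : g ∈ Gam D h N)
    (hdet : ∀ v : F →+* ℝ, (cmat v D g).det = 1) {y : Fin 2 → ℂ} (hy : y ∈ ball (ev v₁ h))
    (v : F →+* ℝ) :
    IsUnit (atv (sC D h a g) v * Zp v₁ D h a R y v + atv (sD J g) v).det := by
  classical
  rw [det_v hgd ha0 ha hR hg hdet hy v]
  split_ifs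
  · exact (pow_ne_zero _ (cE_ne hgd hg hy)).isUnit
  · exact isUnit_one

/-- **the core**: a family of theta functions over `T × ball` -/
theorem core [NumberField.IsTotallyReal F] (hgd : Good v₁ D h) {a : J → F}
    (ha0 : ∀ i, a i ≠ 0) (ha : ∀ i, 0 < v₁ (a i)) {T : Type} [TopologicalSpace T]
    [PreconnectedSpace T] (R : T → (F →+* ℝ) → Matrix J J ℝ)
    (hRc : ∀ v i j, Continuous fun t => R t v i j)
    (hR : ∀ t v, (R t v).PosDef ∧ R t v * Matrix.diagonal (fun i => (v (a i))⁻¹) * R t v =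
      Matrix.diagonal (fun i => v (a i))) (N : ℕ) (hN : 0 < N) :
    ∃ c : ℕ, 0 < c ∧ ∀ {G : Type} [Group G] (e : G → Mat F), (∀ γ, e γ ∈ Gam D h c) →
      e 1 = (1, 0) → (∀ γ γ', e (γ * γ') = mulM D (e γ) (e γ')) →
      ∃ Γ : Subgroup G, Γ.FiniteIndex ∧ ∀ γ ∈ Γ, ∃ M, Rep D h a (e γ) M ∧
        (∀ v : F →+* ℝ, (cmat v D (e γ)).det = 1) ∧
        ∀ (t : T) (y : Fin 2 → ℂ), y ∈ ball (ev v₁ h) →
        ∀ (φ : ((J × Fin 3) × KF F → ZMod (2 * N ^ 2)) → ℂ) (u : (J × Fin 3) × KF F → ℂ),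
        theta (2 * N ^ 2) φ (ZZ v₁ D h a (R t) (act v₁ D (e γ) y))
            (uu M (ZZ v₁ D h a (R t) y) u) =
          cE v₁ D h (e γ) y ^ Fintype.card J * ee (2 * N ^ 2) M (ZZ v₁ D h a (R t) y) u *
            theta (2 * N ^ 2) φ (ZZ v₁ D h a (R t) y) u := by
  classical
  have hh : ∀ k, h k ≠ 0 := h_ne hgd
  have hD0 : D ≠ 0 := by
    intro hD
    have := hgd.D0 v₁
    rw [hD, map_zero] at this
    exact lt_irrefl _ this
  obtain ⟨c, hc, hρ⟩ := exists_rho hgd.Di hD0 hh ha0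
  refine ⟨3 * c, by positivity, ?_⟩
  intro G _ e he h1 hm
  have he' : ∀ γ, e γ ∈ Gam D h c := fun γ => Gam_mono (by norm_num) (he γ)
  obtain ⟨ρ, hρ⟩ := hρ e he' h1 hm
  have hdet : ∀ γ (v : F →+* ℝ), (cmat v D (e γ)).det = 1 := fun γ v =>
    det_all hgd (by omega : 3 ≤ 3 * c) (he γ) v
  have hW := Wi_mul F
  have hW' := Wm_mul F
  haveI : NeZero (2 * N ^ 2) := ⟨by positivity⟩
  have heven : Even (2 * N ^ 2) := even_two_mul _
  letI act1 : MulAction G (ball (ev v₁ h)) := mulActionBall hgd hc e he' h1 hm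
  letI act2 : MulAction G (T × ball (ev v₁ h)) :=
    { smul := fun γ x => (x.1, γ • x.2)
      one_smul := fun x => by
        change (x.1, (1 : G) • x.2) = x
        rw [one_smul]
      mul_smul := fun γ γ' x => by
        change (x.1, (γ * γ') • x.2) = (x.1, γ • γ' • x.2)
        rw [mul_smul] }
  haveI : PreconnectedSpace (ball (ev v₁ h)) :=
    Subtype.preconnectedSpace (convex_ball (hgd.h0 v₁) (hgd.h1 v₁)).isPreconnected
  -- the units
  have hdv : ∀ γ (t : T) (y : Fin 2 → ℂ), y ∈ ball (ev v₁ h) → ∀ v : F →+* ℝ,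
      (atv (sC D h a (e γ)) v * Zp v₁ D h a (R t) y v + atv (sD J (e γ)) v).det =
        if v = v₁ then cE v₁ D h (e γ) y ^ (2 * Fintype.card J) else 1 := by
    intro γ t y hy v
    exact det_v hgd ha0 ha (hR t) (he' γ) (hdet γ) hy v
  have hmem : ∀ (t : T) (y : Fin 2 → ℂ), y ∈ ball (ev v₁ h) →
      ZZ v₁ D h a (R t) y ∈ Sieg ((J × Fin 3) × KF F) := by
    intro t y hy
    exact tU_mem hW fun v => Zp_mem hgd ha (fun v _ => (hR t v).1) hy v
  obtain ⟨Γ, hΓ, hinv⟩ := invariance (2 * N ^ 2) heven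
    (X := T × ball (ev v₁ h)) (G := G)
    (fun x => ZZ v₁ D h a (R x.1) x.2.1) (ZZ_continuous hgd R hRc)
    (fun x => hmem x.1 x.2.1 x.2.2) ρ (fun γ => (hρ γ).2)
    (fun γ x => by
      change ZZ v₁ D h a (R x.1) (act v₁ D (e γ) x.2.1) = _
      exact (Bl_mv hW hW' (hρ γ).1
        (Zp_act hgd ha0 ha (he' γ) (fun v _ => (hR x.1 v).2) x.2.2)
        (unit_v hgd ha0 ha (hR x.1) (he' γ) (hdet γ) x.2.2)).symm)
    (fun γ x => cE v₁ D h (e γ) x.2.1 ^ Fintype.card J)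
    (fun γ => by
      have h2 := continuousOn_iff_continuous_restrict.1 (cE_continuous hgd (he' γ))
      exact (h2.comp continuous_snd).pow _)
    (fun γ x => by
      change _ = (au (ρ γ) ((2 : ℂ) • tU (Wm F) (Zp v₁ D h a (R x.1) x.2.1))).det
      rw [Bl_au hW hW' (hρ γ).1, tD_det hW hW',
        Finset.prod_congr rfl fun v _ => hdv γ x.1 x.2.1 x.2.2 v,
        Finset.prod_ite_eq' Finset.univ v₁]
      simp only [Finset.mem_univ, if_true]
      ring)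
    (fun γ γ' x => by
      change cE v₁ D h (e (γ * γ')) x.2.1 ^ _ =
        cE v₁ D h (e γ) (act v₁ D (e γ') x.2.1) ^ _ * cE v₁ D h (e γ') x.2.1 ^ _
      rw [hm, (cE_mul hgd (he' γ) (he' γ') x.2.2).2, mul_pow])
  refine ⟨Γ, hΓ, fun γ hγ => ⟨ρ γ, (hρ γ).1, hdet γ, fun t y hy φ u => ?_⟩⟩
  exact hinv γ hγ (t, ⟨y, hy⟩) φ u

/-! ### linearity -/

section lin

variable {ι : Type} [Fintype ι]

theorem summ_gen (N : ℕ) [NeZero N] {p : (ι → ℤ) → ℂ} {C : ℝ} {k : ℕ}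
    (hp : ∀ x, ‖p x‖ ≤ C * (1 + ∑ i, |(x i : ℝ)|) ^ k) {Z : Matrix ι ι ℂ}
    (hZ : Z ∈ Sieg ι) (u : ι → ℂ) : Summable fun x : ι → ℤ => p x * tm N Z u x := by
  obtain ⟨B, hB, hb⟩ := tm_dom N (K := {(Z, u)}) isCompact_singleton
    (fun p hp => by rw [Set.mem_singleton_iff.1 hp]; exact hZ) k
  refine (hB.mul_left |C|).of_norm_bounded fun x => ?_
  have h0 : (0 : ℝ) ≤ (1 + ∑ i, |(x i : ℝ)|) ^ k := by positivity
  calc ‖p x * tm N Z u x‖ = ‖p x‖ * ‖tm N Z u x‖ := norm_mul _ _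
    _ ≤ (|C| * (1 + ∑ i, |(x i : ℝ)|) ^ k) * ‖tm N Z u x‖ := by
        refine mul_le_mul_of_nonneg_right ?_ (norm_nonneg _)
        exact (hp x).trans (mul_le_mul_of_nonneg_right (le_abs_self C) h0)
    _ = |C| * ((1 + ∑ i, |(x i : ℝ)|) ^ k * ‖tm N Z u x‖) := by ring
    _ ≤ |C| * B x := mul_le_mul_of_nonneg_left (hb (Z, u) rfl x) (abs_nonneg _)

theorem summ1 (N : ℕ) [NeZero N] (φ : (ι → ZMod N) → ℂ) {Z : Matrix ι ι ℂ} (hZ : Z ∈ Sieg ι)
    (η : ι → ℂ) : Summable fun x : ι → ℤ => φ (red N x) * (lf η x * tm N Z 0 x) := by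
  obtain ⟨C, hC0, hC⟩ := red_bound φ
  have := summ_gen N (p := fun x => φ (red N x) * lf η x) (C := C * ∑ i, ‖η i‖) (k := 1)
    (fun x => by
      rw [norm_mul, pow_one, mul_assoc]
      exact mul_le_mul (hC x) (norm_lf_le η x) (norm_nonneg _) hC0) hZ 0
  refine this.congr fun x => ?_
  ring

theorem summ2 (N : ℕ) [NeZero N] (φ : (ι → ZMod N) → ℂ) {Z : Matrix ι ι ℂ} (hZ : Z ∈ Sieg ι)
    (η ζ : ι → ℂ) : Summable fun x : ι → ℤ => φ (red N x) * (lf η x * lf ζ x * tm N Z 0 x) := by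
  obtain ⟨C, hC0, hC⟩ := red_bound φ
  have := summ_gen N (p := fun x => φ (red N x) * (lf η x * lf ζ x))
    (C := C * ((∑ i, ‖η i‖) * ∑ i, ‖ζ i‖)) (k := 2)
    (fun x => by
      rw [norm_mul, norm_mul]
      calc ‖φ (red N x)‖ * (‖lf η x‖ * ‖lf ζ x‖)
          ≤ C * (((∑ i, ‖η i‖) * (1 + ∑ i, |(x i : ℝ)|)) *
              ((∑ i, ‖ζ i‖) * (1 + ∑ i, |(x i : ℝ)|))) := by
            refine mul_le_mul (hC x) ?_ (by positivity) hC0
            exact mul_le_mul (norm_lf_le η x) (norm_lf_le ζ x) (norm_nonneg _) (by positivity)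
        _ = C * ((∑ i, ‖η i‖) * ∑ i, ‖ζ i‖) * (1 + ∑ i, |(x i : ℝ)|) ^ 2 := by ring) hZ 0
  refine this.congr fun x => ?_
  ring

theorem lf_add (η ζ : ι → ℂ) (x : ι → ℤ) : lf (η + ζ) x = lf η x + lf ζ x := by
  unfold lf
  rw [← Finset.sum_add_distrib]
  exact Finset.sum_congr rfl fun i _ => by rw [Pi.add_apply, mul_add]

theorem lf_smul (c : ℂ) (η : ι → ℂ) (x : ι → ℤ) : lf (c • η) x = c * lf η x := by
  unfold lf
  rw [Finset.mul_sum]
  exact Finset.sum_congr rfl fun i _ => by rw [Pi.smul_apply, smul_eq_mul]; ring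

theorem theta1_add (N : ℕ) [NeZero N] (φ : (ι → ZMod N) → ℂ) {Z : Matrix ι ι ℂ}
    (hZ : Z ∈ Sieg ι) (η ζ : ι → ℂ) :
    theta1 N φ Z (η + ζ) = theta1 N φ Z η + theta1 N φ Z ζ := by
  unfold theta1
  rw [← (summ1 N φ hZ η).tsum_add (summ1 N φ hZ ζ)]
  exact tsum_congr fun x => by rw [lf_add]; ring

theorem theta1_smul (N : ℕ) (φ : (ι → ZMod N) → ℂ) (Z : Matrix ι ι ℂ) (c : ℂ) (η : ι → ℂ) :
    theta1 N φ Z (c • η) = c * theta1 N φ Z η := by
  unfold theta1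
  rw [← tsum_mul_left]
  exact tsum_congr fun x => by rw [lf_smul]; ring

theorem theta2_add_left (N : ℕ) [NeZero N] (φ : (ι → ZMod N) → ℂ) {Z : Matrix ι ι ℂ}
    (hZ : Z ∈ Sieg ι) (η η' ζ : ι → ℂ) :
    theta2 N φ Z (η + η') ζ = theta2 N φ Z η ζ + theta2 N φ Z η' ζ := by
  unfold theta2
  rw [← (summ2 N φ hZ η ζ).tsum_add (summ2 N φ hZ η' ζ)]
  exact tsum_congr fun x => by rw [lf_add]; ring

theorem theta2_add_right (N : ℕ) [NeZero N] (φ : (ι → ZMod N) → ℂ) {Z : Matrix ι ι ℂ}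
    (hZ : Z ∈ Sieg ι) (η ζ ζ' : ι → ℂ) :
    theta2 N φ Z η (ζ + ζ') = theta2 N φ Z η ζ + theta2 N φ Z η ζ' := by
  unfold theta2
  rw [← (summ2 N φ hZ η ζ).tsum_add (summ2 N φ hZ η ζ')]
  exact tsum_congr fun x => by rw [lf_add]; ring

theorem theta2_smul_left (N : ℕ) (φ : (ι → ZMod N) → ℂ) (Z : Matrix ι ι ℂ) (c : ℂ)
    (η ζ : ι → ℂ) : theta2 N φ Z (c • η) ζ = c * theta2 N φ Z η ζ := by
  unfold theta2
  rw [← tsum_mul_left]
  exact tsum_congr fun x => by rw [lf_smul]; ring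

theorem theta2_smul_right (N : ℕ) (φ : (ι → ZMod N) → ℂ) (Z : Matrix ι ι ℂ) (c : ℂ)
    (η ζ : ι → ℂ) : theta2 N φ Z η (c • ζ) = c * theta2 N φ Z η ζ := by
  unfold theta2
  rw [← tsum_mul_left]
  exact tsum_congr fun x => by rw [lf_smul]; ring

end lin

theorem vv_add {m V κ : Type} (W : Matrix V κ ℝ) (v : V) (e e' : m → ℂ) :
    vv W v (e + e') = vv W v e + vv W v e' := by
  funext p; simp [vv, mul_add]

theorem vv_smul {m V κ : Type} (W : Matrix V κ ℝ) (v : V) (c : ℂ) (e : m → ℂ) :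
    vv W v (c • e) = c • vv W v e := by
  funext p; simp only [vv, Pi.smul_apply, smul_eq_mul]; ring

theorem row_add (i : J) (e e' : Fin 3 → ℂ) : row i (e + e') = row i e + row i e' := by
  funext p; simp only [row, Pi.add_apply]; split_ifs <;> simp

theorem row_smul (i : J) (c : ℂ) (e : Fin 3 → ℂ) : row i (c • e) = c • row i e := by
  funext p; simp only [row, Pi.smul_apply, smul_eq_mul]; split_ifs <;> simp

/-- the vector `η_{i,j}(y)` -/
def eta (v₁ : F →+* ℝ) (h : Fin 3 → F) (N : ℕ) (i : J) (j : Fin 2) (y : Fin 2 → ℂ) :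
    (J × Fin 3) × KF F → ℂ :=
  vv (Wm F) v₁ (row i ((N : ℂ)⁻¹ • ed (ev v₁ h) j y))

/-- the transformation of the vectors `η_{i,j}` -/
theorem uu_eta [NumberField.IsTotallyReal F] (hgd : Good v₁ D h) {a : J → F}
    (ha0 : ∀ i, a i ≠ 0) (ha : ∀ i, 0 < v₁ (a i))
    {R : (F →+* ℝ) → Matrix J J ℝ}
    (hR : ∀ v, (R v).PosDef ∧ R v * Matrix.diagonal (fun i => (v (a i))⁻¹) * R v =
      Matrix.diagonal (fun i => v (a i))) {c : ℕ} {g : Mat F} (hg : g ∈ Gam D h c)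
    (hdet : ∀ v : F →+* ℝ, (cmat v D g).det = 1) {y : Fin 2 → ℂ} (hy : y ∈ ball (ev v₁ h))
    {M : Matrix (((J × Fin 3) × KF F) ⊕ ((J × Fin 3) × KF F))
      (((J × Fin 3) × KF F) ⊕ ((J × Fin 3) × KF F)) ℤ} (hM : Rep D h a g M)
    (N : ℕ) (i : J) (j : Fin 2) :
    uu M (ZZ v₁ D h a R y) (eta v₁ h N i j y) = cE v₁ D h g y •
      (dact v₁ D g y 0 j • eta v₁ h N i 0 (act v₁ D g y) +
        dact v₁ D g y 1 j • eta v₁ h N i 1 (act v₁ D g y)) := by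
  classical
  have hu := unit_v hgd ha0 ha hR hg hdet hy
  unfold ZZ eta
  rw [Bl_uu (Wi_mul F) (Wm_mul F) hM hu, ← vv_smul, ← vv_smul, ← vv_add, ← vv_smul]
  congr 1
  have ht := Zp_tangent hgd ha0 ha (R := R) hg hy i j
  set A := atv (sC D h a g) v₁ * Zp v₁ D h a R y v₁ + atv (sD J g) v₁ with hA
  have hcE := cE_ne hgd hg hy
  have h1 : (A⁻¹)ᵀ *ᵥ (Aᵀ *ᵥ row i (∑ l, dact v₁ D g y l j • ed (ev v₁ h) l (act v₁ D g y))) =
      row i (∑ l, dact v₁ D g y l j • ed (ev v₁ h) l (act v₁ D g y)) := by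
    rw [mulVec_mulVec, ← transpose_mul, Matrix.mul_nonsing_inv _ (hu v₁), transpose_one,
      one_mulVec]
  rw [ht, mulVec_smul] at h1
  have h2 : (A⁻¹)ᵀ *ᵥ row i (ed (ev v₁ h) j y) = cE v₁ D h g y •
      row i (∑ l, dact v₁ D g y l j • ed (ev v₁ h) l (act v₁ D g y)) := by
    rw [← h1, smul_smul, mul_inv_cancel₀ hcE, one_smul]
  rw [row_smul, mulVec_smul, h2, Fin.sum_univ_two, row_add, row_smul, row_smul, row_smul, row_smul,
    smul_comm ((N : ℂ)⁻¹), smul_add, smul_comm ((N : ℂ)⁻¹), smul_comm ((N : ℂ)⁻¹)]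

/-- **invariance of the one-forms** -/
theorem P1_one [NumberField.IsTotallyReal F] (hgd : Good v₁ D h) {a : F}
    (ha : 0 < v₁ a) (N : ℕ) (hN : 0 < N) :
    ∃ c : ℕ, 0 < c ∧ ∀ {G : Type} [Group G] (e : G → Mat F), (∀ γ, e γ ∈ Gam D h c) →
      e 1 = (1, 0) → (∀ γ γ', e (γ * γ') = mulM D (e γ) (e γ')) →
      ∃ Γ : Subgroup G, Γ.FiniteIndex ∧ ∀ γ ∈ Γ, ∀ φ : (Fin 3 → F) → ℂ,
        SBJ N (fun ξ : Unit → Fin 3 → F => φ (ξ ())) → ∀ y ∈ ball (ev v₁ h), ∀ j,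
        ∑ l, Pool.Agent.CMH.theta v₁ D h a φ l (act v₁ D (e γ) y) * dact v₁ D (e γ) y l j =
          Pool.Agent.CMH.theta v₁ D h a φ j y := by
  have ha0 : a ≠ 0 := by
    intro h0
    rw [h0, map_zero] at ha
    exact lt_irrefl _ ha
  have hva : ∀ v : F →+* ℝ, v a ≠ 0 := fun v => (map_ne_zero v).2 ha0
  obtain ⟨c, hc, H⟩ := core (J := Unit) (T := Unit) hgd (a := fun _ => a) (fun _ => ha0)
    (fun _ => ha) (fun _ v => diagonal fun _ => |v a|) (fun v i j => continuous_const)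
    (fun _ v => by
      refine ⟨Matrix.PosDef.diagonal fun _ => abs_pos.2 (hva v), ?_⟩
      rw [diagonal_mul_diagonal, diagonal_mul_diagonal]
      congr 1
      funext _
      have := abs_mul_abs_self (v a)
      field_simp [hva v]
      rw [sq_abs]) N hN
  refine ⟨c, hc, ?_⟩
  intro G _ e he h1 hm
  obtain ⟨Γ, hΓ, H⟩ := H e he h1 hm
  refine ⟨Γ, hΓ, fun γ hγ φ hφ y hy j => ?_⟩
  obtain ⟨M, hM, hdet, H⟩ := H γ hγ
  have hn : NeZero (2 * N ^ 2) := ⟨by positivity⟩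
  have hg := he γ
  have hy' : act v₁ D (e γ) y ∈ ball (ev v₁ h) :=
    ((Pool.Agent.CMH.grp F v₁ D h c hgd hc).1 (e γ) hg y hy).2.1
  have hcE := cE_ne hgd hg hy
  obtain ⟨φ', hφ'⟩ := exists_lev N hφ
  have hR : ∀ v : F →+* ℝ, (diagonal fun _ : Unit => |v a|).PosDef ∧
      (diagonal fun _ : Unit => |v a|) * (diagonal fun _ : Unit => (v a)⁻¹) *
        (diagonal fun _ : Unit => |v a|) = diagonal fun _ : Unit => v a := fun v => by
    refine ⟨Matrix.PosDef.diagonal fun _ => abs_pos.2 (hva v), ?_⟩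
    rw [diagonal_mul_diagonal, diagonal_mul_diagonal]
    congr 1
    funext _
    have := abs_mul_abs_self (v a)
    field_simp [hva v]
    rw [sq_abs]
  have hmem : ∀ y ∈ ball (ev v₁ h),
      ZZ v₁ D h (fun _ : Unit => a) (fun v => diagonal fun _ => |v a|) y ∈
        Sieg ((Unit × Fin 3) × KF F) := by
    classical
    intro y hy
    exact tU_mem (Wi_mul F) fun v => Zp_mem hgd (fun _ => ha) (fun v _ => (hR v).1) hy v
  have hlaw := theta1_lawG (hmem y hy) (hmem _ hy') φ' (H () y hy φ') (eta v₁ h N () j y)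
  rw [uu_eta hgd (fun _ => ha0) (fun _ => ha) hR hg hdet hy hM, theta1_smul,
    theta1_add _ _ (hmem _ hy'), theta1_smul, theta1_smul, Fintype.card_unit, pow_one] at hlaw
  have hlaw2 := mul_left_cancel₀ hcE hlaw
  rw [Fin.sum_univ_two, theta_eq hgd ha N hφ hφ' 0 hy', theta_eq hgd ha N hφ hφ' 1 hy',
    theta_eq hgd ha N hφ hφ' j hy]
  change _ = theta1 (2 * N ^ 2) φ' _ (eta v₁ h N () j y)
  rw [← hlaw2]
  unfold eta
  ring

/-- **invariance of the two-forms, for all majorants** -/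
theorem P1_two [NumberField.IsTotallyReal F] (hgd : Good v₁ D h) {a : Fin 2 → F}
    (ha : ∀ i, 0 < v₁ (a i)) (N : ℕ) (hN : 0 < N) :
    ∃ c : ℕ, 0 < c ∧ ∀ {G : Type} [Group G] (e : G → Mat F), (∀ γ, e γ ∈ Gam D h c) →
      e 1 = (1, 0) → (∀ γ γ', e (γ * γ') = mulM D (e γ) (e γ')) →
      ∃ Γ : Subgroup G, Γ.FiniteIndex ∧ ∀ γ ∈ Γ, ∀ φ : (Fin 2 → Fin 3 → F) → ℂ, SBJ N φ →
        ∀ R : Maj F, (∀ v, IsMaj a v (R v)) → R v₁ = R0 a v₁ → ∀ y ∈ ball (ev v₁ h),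
        CR v₁ D h a R φ (act v₁ D (e γ) y) / gy v₁ D (e γ) y 2 ^ 3 = CR v₁ D h a R φ y := by
  have ha0 : ∀ i, a i ≠ 0 := by
    intro i h0
    have := ha i
    rw [h0, map_zero] at this
    exact lt_irrefl _ this
  have hT : ∀ (t : (F →+* ℝ) → ℝ) (v : F →+* ℝ),
      (Rmaj (v (a 0)) (v (a 1)) (t v)).PosDef ∧
      Rmaj (v (a 0)) (v (a 1)) (t v) * Matrix.diagonal (fun i => (v (a i))⁻¹) *
        Rmaj (v (a 0)) (v (a 1)) (t v) = Matrix.diagonal (fun i => v (a i)) :=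
    fun t v => Rmaj_isMaj ha0 v (t v)
  obtain ⟨c, hc, H⟩ := core (J := Fin 2) (T := (F →+* ℝ) → ℝ) hgd ha0 ha
    (fun t v => Rmaj (v (a 0)) (v (a 1)) (t v))
    (fun v i j => (Rmaj_continuous _ _ i j).comp (continuous_apply v)) hT N hN
  refine ⟨c, hc, ?_⟩
  intro G _ e he h1 hm
  obtain ⟨Γ, hΓ, H⟩ := H e he h1 hm
  refine ⟨Γ, hΓ, fun γ hγ φ hφ R hR hR1 y hy => ?_⟩
  obtain ⟨M, hM, hdet, H⟩ := H γ hγ
  have hn : NeZero (2 * N ^ 2) := ⟨by positivity⟩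
  have hg := he γ
  have hy' : act v₁ D (e γ) y ∈ ball (ev v₁ h) :=
    ((Pool.Agent.CMH.grp F v₁ D h c hgd hc).1 (e γ) hg y hy).2.1
  have hcE := cE_ne hgd hg hy
  obtain ⟨φ', hφ'⟩ := exists_lev N hφ
  choose t ht using fun v => exists_Rmaj ha0 (hR v)
  have hRt : R = fun v => Rmaj (v (a 0)) (v (a 1)) (t v) := funext ht
  have hR' : ∀ v, (R v).PosDef ∧ R v * Matrix.diagonal (fun i => (v (a i))⁻¹) * R v =
      Matrix.diagonal (fun i => v (a i)) := fun v => hR v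
  have hmem : ∀ y ∈ ball (ev v₁ h), ZZ v₁ D h a R y ∈ Sieg ((Fin 2 × Fin 3) × KF F) := by
    classical
    intro y hy
    exact tU_mem (Wi_mul F) fun v => Zp_mem hgd ha (fun v _ => (hR' v).1) hy v
  have hu := unit_v hgd ha0 ha hR' hg hdet hy
  have hcross : ∀ (i i' : Fin 2), i ≠ i' → ∀ e₁ e₂ : Fin 3 → ℂ,
      vv (Wm F) v₁ (row i e₁) ⬝ᵥ
        (((au M (ZZ v₁ D h a R y))⁻¹ * bC M) *ᵥ vv (Wm F) v₁ (row i' e₂)) = 0 := by
    classical
    intro i i' hi e₁ e₂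
    unfold ZZ
    rw [Bl_qq (Wi_mul F) (Wm_mul F) hM hu, Zp_cross (hu v₁) hi, mul_zero]
  have law : ∀ u, theta (2 * N ^ 2) φ' (ZZ v₁ D h a R (act v₁ D (e γ) y))
      (uu M (ZZ v₁ D h a R y) u) =
      cE v₁ D h (e γ) y ^ Fintype.card (Fin 2) * ee (2 * N ^ 2) M (ZZ v₁ D h a R y) u *
        theta (2 * N ^ 2) φ' (ZZ v₁ D h a R y) u := by
    intro u
    rw [hRt]
    exact H t y hy φ' u
  have hlaw : ∀ j j' : Fin 2,
      theta2 (2 * N ^ 2) φ' (ZZ v₁ D h a R (act v₁ D (e γ) y))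
        (dact v₁ D (e γ) y 0 j • eta v₁ h N 0 0 (act v₁ D (e γ) y) +
          dact v₁ D (e γ) y 1 j • eta v₁ h N 0 1 (act v₁ D (e γ) y))
        (dact v₁ D (e γ) y 0 j' • eta v₁ h N 1 0 (act v₁ D (e γ) y) +
          dact v₁ D (e γ) y 1 j' • eta v₁ h N 1 1 (act v₁ D (e γ) y)) =
      theta2 (2 * N ^ 2) φ' (ZZ v₁ D h a R y) (eta v₁ h N 0 j y) (eta v₁ h N 1 j' y) := by
    intro j j'
    have h2 := theta2_lawG (hmem y hy) (hmem _ hy') φ' law (eta v₁ h N 0 j y) (eta v₁ h N 1 j' y)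
    have hq : qb M (ZZ v₁ D h a R y) (eta v₁ h N 0 j y) (eta v₁ h N 1 j' y) = 0 := by
      unfold qb eta
      rw [hcross 0 1 (by decide), hcross 1 0 (by decide), add_zero]
    rw [hq, mul_zero, zero_mul, add_zero, uu_eta hgd ha0 ha hR' hg hdet hy hM,
      uu_eta hgd ha0 ha hR' hg hdet hy hM, theta2_smul_left, theta2_smul_right, ← mul_assoc,
      Fintype.card_fin, ← sq] at h2
    exact mul_left_cancel₀ (pow_ne_zero 2 hcE) h2
  have hZ' := hmem _ hy'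
  have h00 := hlaw 0 1
  have h10 := hlaw 1 0
  simp only [theta2_add_left _ _ hZ', theta2_add_right _ _ hZ', theta2_smul_left,
    theta2_smul_right] at h00 h10
  have hdd := det_dact hgd hg hy
  rw [hdet v₁] at hdd
  have e1 := CR_eq hgd ha hR1 (fun v => (hR' v).1) N hφ hφ' hy
  have e2 := CR_eq hgd ha hR1 (fun v => (hR' v).1) N hφ hφ' hy'
  rw [e1, e2]
  change _ = theta2 (2 * N ^ 2) φ' _ (eta v₁ h N 0 0 y) (eta v₁ h N 1 1 y) -
    theta2 (2 * N ^ 2) φ' _ (eta v₁ h N 0 1 y) (eta v₁ h N 1 0 y)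
  rw [← h00, ← h10, div_eq_mul_one_div, ← hdd]
  unfold eta
  ring

end

end Pool.CMH
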