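import Pool.Agent.Lib.CMH.FinAll
import Pool.Agent.Lib.CMH.TH9c

/-!
# CMH: the final theorem (helper37)
-/

set_option autoImplicit false

namespace Pool.Agent.CMH

theorem p1one' : FX.P1ONE := by
  intro F _ _ _ v₁ D h a N hG ha hN
  obtain ⟨c, hc, H⟩ := Pool.CMH.P1_one hG ha N hN
  exact ⟨c, hc, fun G _ e h1 h2 h3 => H e h1 h2 h3⟩

theorem p1two' : FX.P1TWO := by
  intro F _ _ _ v₁ D h a N hG ha hN
  obtain ⟨c, hc, H⟩ := Pool.CMH.P1_two hG ha N hN
  exact ⟨c, hc, fun G _ e h1 h2 h3 => H e h1 h2 h3⟩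

/-- every balanced quadruple (two `true`, two `false` at `v₁`) comes from a ball quotient surface -/
theorem surf : SURF := surf_of_p1 p1one' p1two'

/-- **The final theorem.** -/
theorem final : FINAL := final_of_p1 p1one' p1two'

end Pool.Agent.CMH
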