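import Pool.Agent.Lib.CMH.Rows

/-!
# Tank CMH: the generalised (coniveau) form

A multiset of `l + 2k` CM types which has at every place at least `k` times `true` and `k` times
`false` (coniveau `≥ k` for all conjugates) is completed to a balanced multiset by the conjugates of
`l` CM types.
-/

set_option autoImplicit false

namespace Pool.Agent.CMH

namespace Ghc

variable {F : Type} [Field F]

theorem count_add (m : Multiset (CMType F)) (v : F →+* ℝ) :
    m.countP (fun Φ => Φ v = true) + m.countP (fun Φ => Φ v = false) = m.card := by
  have h3 := Multiset.card_eq_countP_add_countP (fun Φ : CMType F => Φ v = true) m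
  rw [h3]
  congr 1
  apply Multiset.countP_congr rfl
  intro Φ _
  simp

theorem count_bar_true (m : Multiset (CMType F)) (v : F →+* ℝ) :
    (m.map bar).countP (fun Φ => Φ v = true) = m.countP (fun Φ => Φ v = false) := by
  rw [Multiset.countP_map, ← Multiset.countP_eq_card_filter]
  apply Multiset.countP_congr rfl
  intro Φ _
  simp [bar]

theorem count_bar_false (m : Multiset (CMType F)) (v : F →+* ℝ) :
    (m.map bar).countP (fun Φ => Φ v = false) = m.countP (fun Φ => Φ v = true) := by
  rw [Multiset.countP_map, ← Multiset.countP_eq_card_filter]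
  apply Multiset.countP_congr rfl
  intro Φ _
  simp [bar]

/-- the completion -/
theorem exists_completion (m : Multiset (CMType F)) (k l : ℕ) (hm : m.card = l + 2 * k)
    (hk : ∀ v : F →+* ℝ, k ≤ m.countP (fun Φ => Φ v = true) ∧
      k ≤ m.countP (fun Φ => Φ v = false)) :
    ∃ m' : Multiset (CMType F), m'.card = l ∧
      (∀ v : F →+* ℝ, m'.countP (fun Φ => Φ v = true) + k = m.countP (fun Φ => Φ v = true)) ∧
      Balanced (m + m'.map bar) := by
  classical
  let t : (F →+* ℝ) → ℕ := fun v => m.countP (fun Φ => Φ v = true) - k
  have ht : ∀ v, t v ≤ l := fun v => by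
    have h1 := count_add m v
    have h2 := (hk v).1
    have h3 := (hk v).2
    change m.countP (fun Φ => Φ v = true) - k ≤ l
    omega
  let m' : Multiset (CMType F) := (Multiset.range l).map fun i v => decide (i < t v)
  have hc : m'.card = l := by rw [Multiset.card_map, Multiset.card_range]
  have h1 : ∀ v, m'.countP (fun Φ => Φ v = true) = t v := by
    intro v
    have h2 : m'.countP (fun Φ => Φ v = true) =
        (Multiset.range l).countP (fun i => i < t v) := by
      rw [Multiset.countP_map, ← Multiset.countP_eq_card_filter]
      apply Multiset.countP_congr rfl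
      intro i _
      simp
    rw [h2, Multiset.countP_eq_card_filter]
    have h3 : (Multiset.range l).filter (fun i => i < t v) = Multiset.range (t v) := by
      have h4 : (Finset.range l).filter (fun i => i < t v) = Finset.range (t v) := by
        ext i
        simp only [Finset.mem_filter, Finset.mem_range]
        have := ht v
        omega
      exact congrArg Finset.val h4
    rw [h3, Multiset.card_range]
  have h5 : ∀ v, m'.countP (fun Φ => Φ v = true) + k = m.countP (fun Φ => Φ v = true) := by
    intro v
    rw [h1]
    have h2 := (hk v).1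
    change m.countP (fun Φ => Φ v = true) - k + k = _
    omega
  refine ⟨m', hc, h5, fun v => ?_⟩
  rw [Multiset.countP_add, Multiset.countP_add, count_bar_true, count_bar_false]
  have e1 := count_add m v
  have e2 := count_add m' v
  have e3 := h5 v
  omega

end Ghc

/-- **all coniveau**: from `FIN2`. -/
theorem ghc (fin2 : FIN2) (F : Type) [Field F] [NumberField F] [NumberField.IsTotallyReal F]
    (v₁ : F →+* ℝ) (D : F) (hD : IsIntegral ℤ D) (hD0 : ∀ v : F →+* ℝ, 0 < v D) (k l : ℕ)
    (m : Multiset (CMType F)) (hm : m.card = l + 2 * k)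
    (hk : ∀ v : F →+* ℝ, k ≤ m.countP (fun Φ => Φ v = true) ∧
      k ≤ m.countP (fun Φ => Φ v = false)) :
    ∃ m' : Multiset (CMType F), m'.card = l ∧
      (∀ v : F →+* ℝ, m'.countP (fun Φ => Φ v = true) + k = m.countP (fun Φ => Φ v = true)) ∧
      IsAlg v₁ D (m + m'.map bar) := by
  obtain ⟨m', h1, h2, h3⟩ := Ghc.exists_completion m k l hm hk
  exact ⟨m', h1, h2, fin2 F v₁ D hD hD0 _ h3⟩

end Pool.Agent.CMH
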