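import Pool.Agent.Lib.CMH.Defs

/-!
# Multisets of CM types of given level

If at every real place a multiset of `l + 2k` CM types has at least `k` signs `+` and at least `k`
signs `-`, then there are `l` CM types `Φ'_1, ..., Φ'_l` such that the multiset together with the
conjugates of the `Φ'_i` is balanced.
-/

namespace Pool.Agent.CMH

variable {F : Type} [Field F] [NumberField F]

omit [NumberField F] in
theorem countP_true_add_false (s : Multiset (CMType F)) (v : F →+* ℝ) :
    s.countP (fun Φ => Φ v = true) + s.countP (fun Φ => Φ v = false) = Multiset.card s := by
  induction s using Multiset.induction_on with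
  | empty => simp
  | cons Φ s ih =>
    rw [Multiset.countP_cons, Multiset.countP_cons, Multiset.card_cons]
    cases Φ v <;> simp <;> omega

theorem countP_range_lt (l p : ℕ) (hp : p ≤ l) :
    (Multiset.range l).countP (fun i => i < p) = p := by
  rw [Multiset.countP_eq_card_filter]
  have h : Multiset.filter (fun i => i < p) (Multiset.range l) =
      (Finset.filter (fun i => i < p) (Finset.range l)).val := rfl
  rw [h, Finset.card_val]
  have h2 : Finset.filter (fun i => i < p) (Finset.range l) = Finset.range p := by
    ext i
    simp only [Finset.mem_filter, Finset.mem_range]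
    omega
  rw [h2, Finset.card_range]

/-- the `i`-th of the `l` CM types of the reduced multiset -/
def redType (s : Multiset (CMType F)) (k i : ℕ) : CMType F :=
  fun v => decide (i < s.countP (fun Φ => Φ v = true) - k)

omit [NumberField F] in
theorem exists_reduced (s : Multiset (CMType F)) (l k : ℕ) (hc : Multiset.card s = l + 2 * k)
    (hp : ∀ v : F →+* ℝ, k ≤ s.countP (fun Φ => Φ v = true))
    (hm : ∀ v : F →+* ℝ, k ≤ s.countP (fun Φ => Φ v = false)) :
    ∃ t : Multiset (CMType F), Multiset.card t = l ∧ Balanced (s + t.map bar) := by
  refine ⟨(Multiset.range l).map (redType s k), by simp, ?_⟩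
  intro v
  have h1 := countP_true_add_false s v
  have h2 := hp v
  have h3 := hm v
  set P := s.countP (fun Φ => Φ v = true) with hP
  have h4 : P - k ≤ l := by omega
  have h5 : ((Multiset.range l).map (redType s k)).countP (fun Φ => Φ v = true) = P - k := by
    rw [Multiset.countP_map, ← Multiset.countP_eq_card_filter, ← countP_range_lt l (P - k) h4]
    congr 1
    funext i
    simp [redType, ← hP]
  have h6 := countP_true_add_false ((Multiset.range l).map (redType s k)) v
  rw [Multiset.card_map, Multiset.card_range] at h6
  have h7 : (((Multiset.range l).map (redType s k)).map bar).countP (fun Φ => Φ v = true) =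
      ((Multiset.range l).map (redType s k)).countP (fun Φ => Φ v = false) := by
    rw [Multiset.countP_map, ← Multiset.countP_eq_card_filter]
    congr 1
    funext Φ
    simp [bar]
  have h8 : (((Multiset.range l).map (redType s k)).map bar).countP (fun Φ => Φ v = false) =
      ((Multiset.range l).map (redType s k)).countP (fun Φ => Φ v = true) := by
    rw [Multiset.countP_map, ← Multiset.countP_eq_card_filter]
    congr 1
    funext Φ
    simp [bar]
  rw [Multiset.countP_add, Multiset.countP_add, h7, h8]
  omega

end Pool.Agent.CMH
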