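import Pool.Agent.Lib.CMH.Defs

/-!
# Coniveau and level of multisets of CM types (for MP_386e47_ag)

A multiset of `2k+l` CM types which contains at every place at least `k` and at most `k+l` times
`true` is, up to a balanced multiset, a multiset of `l` CM types. `l = 1` is level one.
-/

namespace Pool.Agent.CMH

variable {F : Type} [Field F]

/-- Coniveau `k` in degree `2k+l`: `2k+l` CM types with at least `k` times `true` and at least `k`
times `false` at every place. -/
def Coniveau (k l : ℕ) (m : Multiset (CMType F)) : Prop :=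
  m.card = 2 * k + l ∧ ∀ v : F →+* ℝ,
    k ≤ m.countP (fun Φ => Φ v = true) ∧ k ≤ m.countP (fun Φ => Φ v = false)

theorem countP_tf_h60 (m : Multiset (CMType F)) (v : F →+* ℝ) :
    m.countP (fun Φ => Φ v = true) + m.countP (fun Φ => Φ v = false) = m.card := by
  have h := Multiset.card_eq_countP_add_countP (fun Φ : CMType F => Φ v = true) m
  rw [h]
  congr 1
  apply Multiset.countP_congr rfl
  intro Φ _
  simp

theorem countP_bar_true (m : Multiset (CMType F)) (v : F →+* ℝ) :
    (m.map bar).countP (fun Φ => Φ v = true) = m.countP (fun Φ => Φ v = false) := by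
  rw [Multiset.countP_map, Multiset.countP_eq_card_filter]
  congr 1
  apply Multiset.filter_congr
  intro Φ _
  simp [bar]

theorem countP_bar_false (m : Multiset (CMType F)) (v : F →+* ℝ) :
    (m.map bar).countP (fun Φ => Φ v = false) = m.countP (fun Φ => Φ v = true) := by
  rw [Multiset.countP_map, Multiset.countP_eq_card_filter]
  congr 1
  apply Multiset.filter_congr
  intro Φ _
  simp [bar]

/-- there are `l` CM types with prescribed numbers `c v ≤ l` of `true` -/
theorem exists_types (l : ℕ) (c : (F →+* ℝ) → ℕ) (hc : ∀ v, c v ≤ l) :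
    ∃ m : Multiset (CMType F), m.card = l ∧ ∀ v, m.countP (fun Φ => Φ v = true) = c v := by
  refine ⟨(Finset.univ : Finset (Fin l)).val.map (fun j => fun v => decide (j.val < c v)),
    by simp, fun v => ?_⟩
  rw [Multiset.countP_map]
  simp only [decide_eq_true_eq]
  have : (Multiset.filter (fun a : Fin l => a.val < c v) (Finset.univ : Finset (Fin l)).val).card =
      ((Finset.univ : Finset (Fin l)).filter (fun a => a.val < c v)).card := rfl
  rw [this, Fin.card_filter_val_lt]
  exact min_eq_right (hc v)

/-- A multiset of coniveau `k` and `l` conjugate CM types form a balanced multiset. -/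
theorem exists_balanced_of_coniveau (k l : ℕ) (m : Multiset (CMType F)) (h : Coniveau k l m) :
    ∃ m' : Multiset (CMType F), m'.card = l ∧
      (∀ v, m.countP (fun Ψ => Ψ v = true) = m'.countP (fun Ψ => Ψ v = true) + k) ∧
      Balanced (m + m'.map bar) := by
  obtain ⟨hc, hv⟩ := h
  have hle : ∀ v : F →+* ℝ, m.countP (fun Φ => Φ v = true) - k ≤ l := by
    intro v
    have h1 := countP_tf_h60 m v
    have h2 := (hv v).2
    omega
  obtain ⟨m', h1, h2⟩ := exists_types l (fun v => m.countP (fun Φ => Φ v = true) - k) hle
  refine ⟨m', h1, fun v => ?_, fun v => ?_⟩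
  · have := (hv v).1
    rw [h2 v]
    omega
  · have h3 := countP_tf_h60 m v
    have h4 := countP_tf_h60 m' v
    rw [Multiset.countP_add, Multiset.countP_add, countP_bar_true, countP_bar_false]
    have h5 := (hv v).1
    have h6 := h2 v
    omega

/-- The coniveau statement from the balanced case, for any class `P` of multisets. -/
theorem coniveau_of_all (P : Multiset (CMType F) → Prop)
    (hall : ∀ m : Multiset (CMType F), Balanced m → P m) (k l : ℕ)
    (m : Multiset (CMType F)) (h : Coniveau k l m) :
    ∃ m' : Multiset (CMType F), m'.card = l ∧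
      (∀ v, m.countP (fun Ψ => Ψ v = true) = m'.countP (fun Ψ => Ψ v = true) + k) ∧
      P (m + m'.map bar) := by
  obtain ⟨m', h1, h2, h3⟩ := exists_balanced_of_coniveau k l m h
  exact ⟨m', h1, h2, hall _ h3⟩

/-- Level one: `2k+1` CM types with `k` or `k+1` times `true` at every place. -/
def LevelOne (k : ℕ) (m : Multiset (CMType F)) : Prop :=
  m.card = 2 * k + 1 ∧ ∀ v : F →+* ℝ,
    m.countP (fun Φ => Φ v = true) = k ∨ m.countP (fun Φ => Φ v = true) = k + 1

/-- Level one from the balanced case. -/
theorem levelOne_of_all (P : Multiset (CMType F) → Prop)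
    (hall : ∀ m : Multiset (CMType F), Balanced m → P m) (k : ℕ)
    (m : Multiset (CMType F)) (h : LevelOne k m) :
    ∃ Φ : CMType F, (∀ v, Φ v = true ↔ m.countP (fun Ψ => Ψ v = true) = k + 1) ∧
      P (m + {bar Φ}) := by
  have hcon : Coniveau k 1 m := by
    refine ⟨h.1, fun v => ?_⟩
    have h1 := countP_tf_h60 m v
    have h2 := h.1
    rcases h.2 v with h3 | h3 <;> omega
  obtain ⟨m', h1, h2, h3⟩ := coniveau_of_all P hall k 1 m hcon
  obtain ⟨Φ, rfl⟩ := Multiset.card_eq_one.1 h1
  have e1 : ∀ v, Multiset.countP (fun Ψ : CMType F => Ψ v = true) {Φ} = if Φ v = true then 1 else 0 := by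
    intro v
    rw [← Multiset.cons_zero, Multiset.countP_cons, Multiset.countP_zero, zero_add]
  refine ⟨Φ, fun v => ?_, by simpa using h3⟩
  rw [h2 v, e1]
  by_cases hΦ : Φ v = true
  · simp [hΦ, add_comm]
  · simp [hΦ]

end Pool.Agent.CMH
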