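import Mathlib

set_option linter.unusedSectionVars false

/-! Poisson summation on `ℤ^ι` in `ℝ^ι`, for a continuous function with polynomial decay and
summable Fourier transform. -/

open MeasureTheory Set Filter Topology
open scoped BigOperators Real

namespace Pool.Agent.CMH.Poi

noncomputable section

variable {ι : Type*} [Fintype ι]

/-- the integral vector `n` as a real vector -/
def ivec (n : ι → ℤ) : ι → ℝ := fun i => (n i : ℝ)

@[simp] lemma ivec_apply (n : ι → ℤ) (i : ι) : ivec n i = (n i : ℝ) := rfl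

lemma ivec_add (m n : ι → ℤ) : ivec (m + n) = ivec m + ivec n := by
  funext i; simp [ivec]

/-- `exp(2 pi i k.x)` -/
def echar (k : ι → ℤ) (x : ι → ℝ) : ℂ := Complex.exp (2 * π * Complex.I * ((∑ i, (k i : ℝ) * x i : ℝ) : ℂ))

/-- the Fourier transform at an integral vector -/
def FT (f : (ι → ℝ) → ℂ) (k : ι → ℤ) : ℂ := ∫ t : ι → ℝ, echar (-k) t * f t

lemma norm_echar (k : ι → ℤ) (x : ι → ℝ) : ‖echar k x‖ = 1 := by
  unfold echar
  rw [show (2 * π * Complex.I * ((∑ i, (k i : ℝ) * x i : ℝ) : ℂ)) =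
    ((2 * π * (∑ i, (k i : ℝ) * x i) : ℝ) : ℂ) * Complex.I by push_cast; ring]
  exact Complex.norm_exp_ofReal_mul_I _

lemma echar_add (k : ι → ℤ) (x y : ι → ℝ) : echar k (x + y) = echar k x * echar k y := by
  unfold echar
  rw [← Complex.exp_add]
  congr 1
  simp only [Pi.add_apply, mul_add, Finset.sum_add_distrib]
  push_cast
  ring

lemma echar_ivec (k n : ι → ℤ) : echar k (ivec n) = 1 := by
  unfold echar
  rw [Complex.exp_eq_one_iff]
  refine ⟨∑ i, k i * n i, ?_⟩
  simp only [ivec_apply]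
  push_cast
  ring

lemma continuous_echar (k : ι → ℤ) : Continuous (echar k) := by
  unfold echar
  fun_prop

lemma echar_eq_mFourier (k : ι → ℤ) (x : ι → ℝ) :
    UnitAddTorus.mFourier k (fun i => (x i : UnitAddCircle)) = echar k x := by
  unfold UnitAddTorus.mFourier echar
  simp only [ContinuousMap.coe_mk]
  simp only [fourier_coe_apply, Complex.ofReal_one, div_one]
  rw [← Complex.exp_sum]
  congr 1
  push_cast
  rw [Finset.mul_sum]
  refine Finset.sum_congr rfl fun i _ => ?_
  ring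

/-- summability on the standard lattice -/
lemma summable_decay {s : ℝ} (hs : (Fintype.card ι : ℝ) < s) :
    Summable fun n : ι → ℤ => (1 + ‖ivec n‖) ^ (-s) := by
  classical
  set L := Submodule.span ℤ (Set.range (Pi.basisFun ℝ ι)) with hL
  have hmem : ∀ n : ι → ℤ, ivec n ∈ L := by
    intro n
    rw [hL, Module.Basis.mem_span_iff_repr_mem]
    intro i
    exact ⟨n i, by simp⟩
  have hinj : Function.Injective (fun n : ι → ℤ => (⟨ivec n, hmem n⟩ : L)) := by
    intro a b hab
    have h1 : ivec a = ivec b := congrArg Subtype.val hab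
    funext i
    have := congrFun h1 i
    simpa using this
  have hr : -s < -(Module.finrank ℤ L : ℝ) := by
    have h1 : Module.finrank ℤ L = Fintype.card ι := by
      rw [hL, ← (ZLattice.rank ℝ (Submodule.span ℤ (Set.range (Pi.basisFun ℝ ι)))).symm]
      simp
    rw [h1]
    linarith
  have h1 := (ZLattice.summable_norm_rpow L (-s) hr).comp_injective hinj
  refine Summable.of_norm_bounded_eventually h1 ?_
  have : {n : ι → ℤ | ¬ ‖(1 + ‖ivec n‖) ^ (-s)‖ ≤ ‖((⟨ivec n, hmem n⟩ : L))‖ ^ (-s)} ⊆ {0} := by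
    intro n hn
    by_contra h0
    apply hn
    have hne : ivec n ≠ 0 := by
      intro h2
      apply h0
      have : n = 0 := by
        funext i
        have := congrFun h2 i
        simpa using this
      exact this
    have hpos : 0 < ‖ivec n‖ := norm_pos_iff.mpr hne
    rw [Real.norm_eq_abs, abs_of_nonneg (by positivity)]
    show (1 + ‖ivec n‖) ^ (-s) ≤ ‖ivec n‖ ^ (-s)
    have hs0 : 0 ≤ s := le_trans (Nat.cast_nonneg _) hs.le
    exact Real.rpow_le_rpow_of_nonpos hpos (by linarith) (by linarith)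
  exact (Set.finite_singleton _).subset this

/-- the unit box -/
def ubox (ι : Type*) : Set (ι → ℝ) := {x | ∀ i, x i ∈ Ioc (0 : ℝ) (0 + 1)}

lemma measurableSet_ubox : MeasurableSet (ubox ι) :=
  MeasurableSet.univ_pi' fun _ => measurableSet_Ioc

/-- the translates of the unit box cover the space -/
lemma iUnion_ubox : (⋃ n : ι → ℤ, (fun x => x + ivec n) '' ubox ι) = univ := by
  rw [eq_univ_iff_forall]
  intro x
  rw [mem_iUnion]
  refine ⟨fun i => ⌈x i⌉ - 1, x - ivec (fun i => ⌈x i⌉ - 1), ?_, by simp⟩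
  intro i
  simp only [Pi.sub_apply, ivec_apply, Int.cast_sub, Int.cast_one, mem_Ioc]
  have h1 := Int.ceil_lt_add_one (x i)
  have h2 := Int.le_ceil (x i)
  constructor <;> linarith

lemma disjoint_ubox : Pairwise (Function.onFun Disjoint fun n : ι → ℤ => (fun x => x + ivec n) '' ubox ι) := by
  intro m n hmn
  rw [Function.onFun, Set.disjoint_left]
  rintro _ ⟨x, hx, rfl⟩ ⟨y, hy, hxy⟩
  apply hmn
  funext i
  have h1 := hx i
  have h2 := hy i
  have h3 := congrFun hxy i
  simp only [Pi.add_apply, ivec_apply] at h3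
  rw [mem_Ioc] at h1 h2
  have h4 : ((m i : ℝ) - n i) < 1 := by linarith [h1.1, h2.2]
  have h5 : -1 < ((m i : ℝ) - n i) := by linarith [h1.2, h2.1]
  have h6 : m i - n i < 1 := by exact_mod_cast h4
  have h7 : -1 < m i - n i := by exact_mod_cast h5
  omega

/-- unfolding -/
lemma hasSum_integral_box {f : (ι → ℝ) → ℂ} (hf : Integrable f) :
    HasSum (fun n : ι → ℤ => ∫ x in ubox ι, f (x + ivec n)) (∫ x, f x) := by
  have hm : ∀ n : ι → ℤ, MeasurableSet ((fun x => x + ivec n) '' ubox ι) := by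
    intro n
    exact (MeasurableEquiv.addRight (ivec n)).measurableSet_image.mpr measurableSet_ubox
  have h1 := hasSum_integral_iUnion (μ := volume) hm disjoint_ubox
    (f := f) (by rw [iUnion_ubox]; exact hf.integrableOn)
  rw [iUnion_ubox, setIntegral_univ] at h1
  have h3 : (fun n : ι → ℤ => ∫ x in ubox ι, f (x + ivec n)) =
      fun n : ι → ℤ => ∫ x in (fun x => x + ivec n) '' ubox ι, f x := by
    funext n
    exact ((measurePreserving_add_right volume (ivec n)).setIntegral_image_emb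
      (MeasurableEquiv.addRight (ivec n)).measurableEmbedding f (ubox ι)).symm
  rw [h3]
  exact h1

variable {f : (ι → ℝ) → ℂ} {C s : ℝ}

/-- the decay bound at a translate -/
lemma decay_shift (hs : (Fintype.card ι : ℝ) < s) (hC : ∀ x, ‖f x‖ ≤ C * (1 + ‖x‖) ^ (-s))
    {R : ℝ} (hR : 0 ≤ R) {x : ι → ℝ} (hx : ‖x‖ ≤ R) (n : ι → ℤ) :
    ‖f (x + ivec n)‖ ≤ C * (1 + R) ^ s * (1 + ‖ivec n‖) ^ (-s) := by
  have hs0 : 0 ≤ s := le_trans (Nat.cast_nonneg _) hs.le
  have hC0 : 0 ≤ C := by
    have h := (norm_nonneg _).trans (hC 0)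
    simpa using h
  refine (hC _).trans ?_
  rw [mul_assoc]
  refine mul_le_mul_of_nonneg_left ?_ hC0
  have h1 : (1 + ‖ivec n‖) / (1 + R) ≤ 1 + ‖x + ivec n‖ := by
    rw [div_le_iff₀ (by linarith)]
    have h2 : ‖ivec n‖ ≤ ‖x + ivec n‖ + ‖x‖ := by
      calc ‖ivec n‖ = ‖(x + ivec n) - x‖ := by congr 1; abel
        _ ≤ _ := norm_sub_le _ _
    nlinarith [norm_nonneg (x + ivec n), norm_nonneg x]
  calc (1 + ‖x + ivec n‖) ^ (-s) ≤ ((1 + ‖ivec n‖) / (1 + R)) ^ (-s) :=
        Real.rpow_le_rpow_of_nonpos (by positivity) h1 (by linarith)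
    _ = (1 + R) ^ s * (1 + ‖ivec n‖) ^ (-s) := by
        rw [Real.div_rpow (by positivity) (by positivity), Real.rpow_neg (by linarith : (0 : ℝ) ≤ 1 + R),
          div_inv_eq_mul, mul_comm]

lemma norm_le_one_of_ubox {x : ι → ℝ} (hx : x ∈ ubox ι) : ‖x‖ ≤ 1 := by
  rw [pi_norm_le_iff_of_nonneg zero_le_one]
  intro i
  have := hx i
  rw [mem_Ioc] at this
  rw [Real.norm_eq_abs, abs_of_pos this.1]
  linarith [this.2]

/-- the periodised function -/
def perf (f : (ι → ℝ) → ℂ) (x : ι → ℝ) : ℂ := ∑' n : ι → ℤ, f (x + ivec n)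

lemma summable_shift (hs : (Fintype.card ι : ℝ) < s) (hC : ∀ x, ‖f x‖ ≤ C * (1 + ‖x‖) ^ (-s))
    (x : ι → ℝ) : Summable fun n : ι → ℤ => f (x + ivec n) :=
  Summable.of_norm_bounded ((summable_decay hs).mul_left _)
    fun n => decay_shift hs hC (norm_nonneg x) le_rfl n

lemma continuous_perf (hc : Continuous f) (hs : (Fintype.card ι : ℝ) < s)
    (hC : ∀ x, ‖f x‖ ≤ C * (1 + ‖x‖) ^ (-s)) : Continuous (perf f) := by
  rw [continuous_iff_continuousAt]
  intro x₀
  have h1 : ContinuousOn (perf f) (Metric.closedBall 0 (‖x₀‖ + 1)) := by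
    unfold perf
    refine continuousOn_tsum (fun n => ?_) ((summable_decay hs).mul_left (C * (1 + (‖x₀‖ + 1)) ^ s)) ?_
    · exact (hc.comp (continuous_id.add continuous_const)).continuousOn
    · intro n x hx
      rw [mem_closedBall_zero_iff] at hx
      exact decay_shift hs hC (by positivity) hx n
  refine h1.continuousAt ?_
  refine Filter.mem_of_superset (Metric.closedBall_mem_nhds x₀ one_pos) ?_
  intro y hy
  rw [mem_closedBall_zero_iff]
  rw [Metric.mem_closedBall, dist_eq_norm] at hy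
  calc ‖y‖ = ‖(y - x₀) + x₀‖ := by congr 1; abel
    _ ≤ ‖y - x₀‖ + ‖x₀‖ := norm_add_le _ _
    _ ≤ _ := by linarith

lemma perf_add_ivec (f : (ι → ℝ) → ℂ) (x : ι → ℝ) (m : ι → ℤ) : perf f (x + ivec m) = perf f x := by
  unfold perf
  rw [← (Equiv.addLeft m).tsum_eq (fun n : ι → ℤ => f (x + ivec n))]
  refine tsum_congr fun n => ?_
  rw [Equiv.coe_addLeft, ivec_add, add_assoc]

/-- the projection to the torus -/
def qmap (x : ι → ℝ) : UnitAddTorus ι := fun i => (x i : UnitAddCircle)

lemma isOpenQuotientMap_qmap : IsOpenQuotientMap (qmap (ι := ι)) :=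
  IsOpenQuotientMap.piMap (f := fun _ : ι => ((↑) : ℝ → UnitAddCircle))
    fun _ => QuotientAddGroup.isOpenQuotientMap_mk

lemma qmap_eq {x y : ι → ℝ} (h : qmap x = qmap y) : ∃ n : ι → ℤ, y = x + ivec n := by
  have h1 : ∀ i, ∃ n : ℤ, y i = x i + n := by
    intro i
    have h2 : ((x i : ℝ) : UnitAddCircle) = ((y i : ℝ) : UnitAddCircle) := congrFun h i
    rw [QuotientAddGroup.eq, AddSubgroup.mem_zmultiples_iff] at h2
    obtain ⟨k, hk⟩ := h2
    refine ⟨k, ?_⟩
    rw [zsmul_eq_mul, mul_one] at hk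
    linarith
  choose n hn using h1
  exact ⟨n, funext fun i => hn i⟩

/-- the periodised function on the torus -/
def torf (hc : Continuous f) (hs : (Fintype.card ι : ℝ) < s)
    (hC : ∀ x, ‖f x‖ ≤ C * (1 + ‖x‖) ^ (-s)) : C(UnitAddTorus ι, ℂ) where
  toFun := fun θ => perf f (Function.surjInv (isOpenQuotientMap_qmap (ι := ι)).surjective θ)
  continuous_toFun := by
    rw [(isOpenQuotientMap_qmap (ι := ι)).isQuotientMap.continuous_iff]
    have : (fun θ => perf f (Function.surjInv (isOpenQuotientMap_qmap (ι := ι)).surjective θ)) ∘ qmap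
        = perf f := by
      funext x
      obtain ⟨n, hn⟩ := qmap_eq (Function.surjInv_eq (isOpenQuotientMap_qmap (ι := ι)).surjective (qmap x))
      show perf f _ = perf f x
      conv_rhs => rw [hn]
      rw [perf_add_ivec]
    rw [this]
    exact continuous_perf hc hs hC

lemma torf_qmap (hc : Continuous f) (hs : (Fintype.card ι : ℝ) < s)
    (hC : ∀ x, ‖f x‖ ≤ C * (1 + ‖x‖) ^ (-s)) (x : ι → ℝ) : torf hc hs hC (qmap x) = perf f x := by
  obtain ⟨n, hn⟩ := qmap_eq (Function.surjInv_eq (isOpenQuotientMap_qmap (ι := ι)).surjective (qmap x))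
  show perf f _ = perf f x
  conv_rhs => rw [hn]
  rw [perf_add_ivec]

lemma integrable_of_decay (hc : Continuous f) (hs : (Fintype.card ι : ℝ) < s)
    (hC : ∀ x, ‖f x‖ ≤ C * (1 + ‖x‖) ^ (-s)) : Integrable f := by
  have h1 : Integrable (fun x : ι → ℝ => C * (1 + ‖x‖) ^ (-s)) :=
    (integrable_one_add_norm (by simpa using hs)).const_mul C
  exact h1.mono' hc.aestronglyMeasurable (Eventually.of_forall hC)

lemma coeff_torf (hc : Continuous f) (hs : (Fintype.card ι : ℝ) < s)
    (hC : ∀ x, ‖f x‖ ≤ C * (1 + ‖x‖) ^ (-s)) (k : ι → ℤ) :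
    UnitAddTorus.mFourierCoeff (torf hc hs hC) k = FT f k := by
  rw [UnitAddTorus.mFourierCoeff_eq_integral _ _ 0]
  have hs0 : 0 ≤ s := le_trans (Nat.cast_nonneg _) hs.le
  have e1 : ∀ x : ι → ℝ, (UnitAddTorus.mFourier (-k)) (fun i => (x i : UnitAddCircle)) •
      (torf hc hs hC) (fun i => (x i : UnitAddCircle)) =
      ∑' n : ι → ℤ, echar (-k) (x + ivec n) * f (x + ivec n) := by
    intro x
    rw [echar_eq_mFourier, smul_eq_mul]
    have : (torf hc hs hC) (fun i => (x i : UnitAddCircle)) = perf f x := torf_qmap hc hs hC x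
    rw [this, perf, ← tsum_mul_left]
    refine tsum_congr fun n => ?_
    rw [echar_add, echar_ivec, mul_one]
  simp only [e1]
  have hbox : {x : ι → ℝ | ∀ i, x i ∈ Ioc ((0 : ι → ℝ) i) ((0 : ι → ℝ) i + 1)} = ubox ι := rfl
  rw [hbox]
  have hci : Continuous (fun x => echar (-k) x * f x) := (continuous_echar _).mul hc
  have hint : Integrable (fun x => echar (-k) x * f x) := by
    refine (integrable_of_decay hc hs hC).norm.mono' hci.aestronglyMeasurable
      (Eventually.of_forall fun x => ?_)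
    rw [norm_mul, norm_echar, one_mul]
  have h2 := hasSum_integral_box hint
  have hfin : volume (ubox ι) ≠ ⊤ := by
    have : ubox ι ⊆ Metric.closedBall 0 1 := fun x hx => by
      rw [mem_closedBall_zero_iff]; exact norm_le_one_of_ubox hx
    exact ((measure_mono this).trans_lt measure_closedBall_lt_top).ne
  have h3 := hasSum_integral_of_summable_integral_norm (μ := volume.restrict (ubox ι))
    (F := fun (n : ι → ℤ) (x : ι → ℝ) => echar (-k) (x + ivec n) * f (x + ivec n))
    (fun n => ((hint.comp_add_right (ivec n)).integrableOn)) ?_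
  · exact (h3.tsum_eq.symm.trans h2.tsum_eq)
  · refine Summable.of_nonneg_of_le (fun n => integral_nonneg fun _ => norm_nonneg _) (fun n => ?_)
      (((summable_decay hs).mul_left (C * (1 + 1) ^ s)).mul_right (volume.real (ubox ι)))
    have := norm_setIntegral_le_of_norm_le_const (μ := volume) (s := ubox ι)
      (f := fun x => (‖echar (-k) (x + ivec n) * f (x + ivec n)‖ : ℝ))
      (C := C * (1 + 1) ^ s * (1 + ‖ivec n‖) ^ (-s)) hfin.lt_top (fun x hx => by
        rw [norm_norm, norm_mul, norm_echar, one_mul]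
        exact decay_shift hs hC zero_le_one (norm_le_one_of_ubox hx) n)
    refine le_trans (le_abs_self _) ?_
    exact this

/-- **Poisson summation** -/
theorem poisson (hc : Continuous f) (hs : (Fintype.card ι : ℝ) < s)
    (hC : ∀ x, ‖f x‖ ≤ C * (1 + ‖x‖) ^ (-s)) (hsum : Summable (FT f)) (x : ι → ℝ) :
    ∑' n : ι → ℤ, f (x + ivec n) = ∑' k : ι → ℤ, FT f k * echar k x := by
  have h1 : UnitAddTorus.mFourierCoeff (torf hc hs hC) = FT f := funext (coeff_torf hc hs hC)
  have h2 := UnitAddTorus.hasSum_mFourier_series_apply_of_summable (f := torf hc hs hC)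
    (by rw [h1]; exact hsum) (qmap x)
  rw [torf_qmap, h1] at h2
  have h3 := h2.tsum_eq
  rw [perf] at h3
  rw [← h3]
  refine tsum_congr fun k => ?_
  rw [smul_eq_mul]
  congr 1
  exact echar_eq_mFourier k x

end

end Pool.Agent.CMH.Poi
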