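import Pool.Agent.Lib.CMH.Rows
import Pool.Agent.Lib.CMH.Gs2

/-!
Tank CMH, rows SUM2 and SUM3 (helper63): absolute convergence and continuity of the theta series,
the wedge product as a double sum.
-/

set_option autoImplicit false
set_option linter.unusedSectionVars false

open scoped ComplexConjugate Matrix BigOperators
open Complex

namespace Pool.Agent.CMH.Sum

noncomputable section

open NumberField
open Pool.CMH (nrm2 Lat nrm2_nonneg summable_gs)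

variable {F : Type} [Field F] [NumberField F]

/-! ## Schwartz-Bruhat functions are bounded -/

/-- a periodic function with support in a lattice is bounded -/
theorem bdd {ι : Type} [Fintype ι] {N : ℕ} (hN : 0 < N) (φ : (ι → F) → ℂ)
    (hs : ∀ ξ, φ ξ ≠ 0 → ∀ i, IsIntegral ℤ ((N : F) * ξ i))
    (hp : ∀ ξ η : ι → F, (∀ i, IsIntegral ℤ (η i)) → φ (fun i => ξ i + (N : F) * η i) = φ ξ) :
    ∃ C : ℝ, 0 ≤ C ∧ ∀ ξ, ‖φ ξ‖ ≤ C := by
  classical
  have hN' : (N : F) ≠ 0 := by exact_mod_cast hN.ne'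
  obtain ⟨I, hI⟩ : ∃ I : Ideal (𝓞 F), I = Ideal.span {((N : 𝓞 F) ^ 2)} := ⟨_, rfl⟩
  have hI0 : I ≠ ⊥ := by
    rw [hI, Ne, Ideal.span_singleton_eq_bot]
    have : ((N : 𝓞 F)) ≠ 0 := by exact_mod_cast hN.ne'
    exact pow_ne_zero 2 this
  have hfin : Finite (𝓞 F ⧸ I) := I.finiteQuotientOfFreeOfNeBot hI0
  have hfin2 : Finite (ι → 𝓞 F ⧸ I) := Pi.finite
  obtain ⟨σ, hσ⟩ : ∃ σ : 𝓞 F ⧸ I → 𝓞 F, ∀ q, Ideal.Quotient.mk I (σ q) = q :=
    ⟨Function.surjInv Ideal.Quotient.mk_surjective, Function.surjInv_eq _⟩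
  -- the function on the quotient
  let f : (ι → 𝓞 F ⧸ I) → ℂ := fun q => φ (fun i => ((σ (q i) : 𝓞 F) : F) / (N : F))
  obtain ⟨C, hC⟩ := (Set.finite_range (fun q => ‖f q‖)).bddAbove
  refine ⟨max C 0, le_max_right _ _, fun ξ => ?_⟩
  by_cases h0 : φ ξ = 0
  · rw [h0, norm_zero]; exact le_max_right _ _
  · have hint := hs ξ h0
    let x : ι → 𝓞 F := fun i => ⟨(N : F) * ξ i, hint i⟩
    let q : ι → 𝓞 F ⧸ I := fun i => Ideal.Quotient.mk I (x i)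
    have h1 : φ ξ = f q := by
      have h2 : ∀ i, ∃ z : 𝓞 F, x i = σ (q i) + (N : 𝓞 F) ^ 2 * z := by
        intro i
        have h3 : x i - σ (q i) ∈ I := by
          rw [← Ideal.Quotient.eq, hσ]
        rw [hI, Ideal.mem_span_singleton] at h3
        obtain ⟨z, hz⟩ := h3
        exact ⟨z, by rw [← hz]; ring⟩
      choose z hz using h2
      have h4 := hp (fun i => ((σ (q i) : 𝓞 F) : F) / (N : F)) (fun i => (z i : F))
        (fun i => (z i).2)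
      show φ ξ = φ (fun i => ((σ (q i) : 𝓞 F) : F) / (N : F))
      rw [← h4]
      congr 1
      funext i
      have h5 : ((x i : 𝓞 F) : F) = (N : F) * ξ i := rfl
      rw [hz i] at h5
      push_cast at h5
      field_simp
      rw [mul_comm (ξ i), ← h5]
    rw [h1]
    exact (hC ⟨q, rfl⟩).trans (le_max_left _ _)

/-! ## Lower bounds for the real quadratic forms -/

/-- a positive definite real `2 x 2` form is bounded below -/
theorem quad_pos (R : Matrix (Fin 2) (Fin 2) ℝ) (hR : R.PosDef) :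
    ∃ l : ℝ, 0 < l ∧ ∀ x y : ℝ, l * (x ^ 2 + y ^ 2) ≤
      R 0 0 * x ^ 2 + (R 0 1 + R 1 0) * (x * y) + R 1 1 * y ^ 2 := by
  have hs : R 1 0 = R 0 1 := by
    have := hR.isHermitian.apply 0 1
    simpa using this
  have h00 : 0 < R 0 0 := hR.diag_pos
  have h11 : 0 < R 1 1 := hR.diag_pos
  have hd : 0 < R 0 0 * R 1 1 - R 0 1 * R 0 1 := by
    have := hR.det_pos
    rw [Matrix.det_fin_two, hs] at this
    exact this
  set T := R 0 0 + R 1 1 with hT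
  have hT0 : 0 < T := by linarith
  set l := (R 0 0 * R 1 1 - R 0 1 * R 0 1) / T with hl
  have hlT : l * T = R 0 0 * R 1 1 - R 0 1 * R 0 1 := div_mul_cancel₀ _ hT0.ne'
  have hl0 : 0 < l := div_pos hd hT0
  have hA : 0 < R 0 0 - l := by
    have : (R 0 0 - l) * T = R 0 0 ^ 2 + R 0 1 ^ 2 := by rw [sub_mul, hlT, hT]; ring
    have h2 : 0 < (R 0 0 - l) * T := by rw [this]; positivity
    exact (pos_iff_pos_of_mul_pos h2).mpr hT0
  refine ⟨l, hl0, fun x y => ?_⟩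
  rw [hs]
  have key : (R 0 0 - l) * (R 0 0 * x ^ 2 + (R 0 1 + R 0 1) * (x * y) + R 1 1 * y ^ 2 -
      l * (x ^ 2 + y ^ 2)) = ((R 0 0 - l) * x + R 0 1 * y) ^ 2 + l ^ 2 * y ^ 2 := by
    have : l * R 0 0 + l * R 1 1 = R 0 0 * R 1 1 - R 0 1 * R 0 1 := by rw [← hlT, hT]; ring
    linear_combination (-(y ^ 2)) * this
  have h3 : 0 ≤ (R 0 0 - l) * (R 0 0 * x ^ 2 + (R 0 1 + R 0 1) * (x * y) + R 1 1 * y ^ 2 -
      l * (x ^ 2 + y ^ 2)) := by rw [key]; positivity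
  have h4 := nonneg_of_mul_nonneg_right h3 hA
  linarith

theorem exists_min3 (k : Fin 3 → ℝ) (hk : ∀ j, 0 < k j) : ∃ m : ℝ, 0 < m ∧ ∀ j, m ≤ k j := by
  obtain ⟨j₀, hj₀⟩ := Finite.exists_min k
  exact ⟨k j₀, hk j₀, hj₀⟩

theorem form_self (h : Fin 3 → F) (v : F →+* ℝ) (x : Fin 3 → F) :
    form h v x x = ∑ j, ev v h j * ev v x j * ev v x j := rfl

/-- the bound at a definite place, one row -/
theorem place1 (v : F →+* ℝ) (h : Fin 3 → F) (hh : ∀ j, 0 < v (h j)) :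
    ∃ l : ℝ, 0 < l ∧ ∀ x : Fin 3 → F, l * ∑ k, v (x k) ^ 2 ≤ form h v x x := by
  obtain ⟨m, hm, hmk⟩ := exists_min3 (fun j => v (h j)) hh
  refine ⟨m, hm, fun x => ?_⟩
  rw [Finset.mul_sum, form]
  refine Finset.sum_le_sum fun k _ => ?_
  have := mul_le_mul_of_nonneg_right (hmk k) (sq_nonneg (v (x k)))
  linarith

/-- the bound at a definite place, two rows -/
theorem place2 (v : F →+* ℝ) (h : Fin 3 → F) (hh : ∀ j, 0 < v (h j))
    (R : Matrix (Fin 2) (Fin 2) ℝ) (hR : R.PosDef) :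
    ∃ l : ℝ, 0 < l ∧ ∀ ξ : Fin 2 → Fin 3 → F, l * ∑ i, ∑ k, v (ξ i k) ^ 2 ≤
      ∑ i, ∑ j, R i j * form h v (ξ i) (ξ j) := by
  obtain ⟨m, hm, hmk⟩ := exists_min3 (fun j => v (h j)) hh
  obtain ⟨l, hl, hlR⟩ := quad_pos R hR
  refine ⟨m * l, by positivity, fun ξ => ?_⟩
  have e1 : ∑ i, ∑ j, R i j * form h v (ξ i) (ξ j) = ∑ k, v (h k) *
      (R 0 0 * v (ξ 0 k) ^ 2 + (R 0 1 + R 1 0) * (v (ξ 0 k) * v (ξ 1 k)) +
        R 1 1 * v (ξ 1 k) ^ 2) := by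
    simp only [Fin.sum_univ_two, Fin.sum_univ_three, form]
    ring
  have e2 : m * l * ∑ i, ∑ k, v (ξ i k) ^ 2 =
      ∑ k, m * (l * (v (ξ 0 k) ^ 2 + v (ξ 1 k) ^ 2)) := by
    simp only [Fin.sum_univ_two, Fin.sum_univ_three]
    ring
  rw [e1, e2]
  refine Finset.sum_le_sum fun k _ => ?_
  have h1 := hlR (v (ξ 0 k)) (v (ξ 1 k))
  have h2 : 0 ≤ l * (v (ξ 0 k) ^ 2 + v (ξ 1 k) ^ 2) := by positivity
  exact mul_le_mul (hmk k) h1 h2 (hh k).le

/-- the estimate for the Gaussian, one row -/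
theorem gauss_bound (hE : EST) {v₁ : F →+* ℝ} {D : F} {h : Fin 3 → F} (hG : Good v₁ D h) {a : F}
    (ha : 0 < v₁ a) {C : Set (Fin 2 → ℂ)} (hC : IsCompact C) (hCb : C ⊆ ball (ev v₁ h)) :
    ∃ c : ℝ, 0 < c ∧ ∀ y ∈ C, ∀ ξ : Fin 3 → F,
      ‖gauss v₁ D h a ξ y‖ ≤ Real.exp (-(c * nrm2 ξ)) := by
  classical
  obtain ⟨-, -, -, -, hE5⟩ := hE (ev v₁ h) (hG.h0 v₁) (hG.h1 v₁) hG.h3
  obtain ⟨c, hc, -, -, hc1, -⟩ := hE5 C hC hCb
  have ha0 : a ≠ 0 := by rintro rfl; simp at ha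
  have hD : ∀ v : F →+* ℝ, 0 < √(v D) := fun v => Real.sqrt_pos.mpr (hG.D0 v)
  have hva : ∀ v : F →+* ℝ, 0 < |v a| := fun v => abs_pos.mpr ((map_ne_zero v).mpr ha0)
  -- the bound at each place
  have hpl : ∀ v : F →+* ℝ, ∃ l : ℝ, 0 < l ∧ ∀ y ∈ C, ∀ ξ : Fin 3 → F,
      l * ∑ k, v (ξ k) ^ 2 ≤ (((|v a| / √(v D) : ℝ) : ℂ) *
        ((form h v ξ ξ : ℂ) + if v = v₁ then 2 * s (ev v h) (ev v ξ) y ^ 2 else 0)).re := by
    intro v
    have hpos : 0 < |v a| / √(v D) := div_pos (hva v) (hD v)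
    by_cases hv : v = v₁
    · subst hv
      refine ⟨|v a| / √(v D) * c, by positivity, fun y hy ξ => ?_⟩
      rw [if_pos rfl, Complex.re_ofReal_mul, mul_assoc]
      refine mul_le_mul_of_nonneg_left ?_ hpos.le
      exact hc1 y hy (ev v ξ)
    · have hh : ∀ j, 0 < v (h j) := by
        intro j
        fin_cases j
        · exact hG.h0 v
        · exact hG.h1 v
        · exact hG.h2 v hv
      obtain ⟨l, hl, hl1⟩ := place1 v h hh
      refine ⟨|v a| / √(v D) * l, by positivity, fun y hy ξ => ?_⟩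
      rw [if_neg hv, add_zero, Complex.re_ofReal_mul, Complex.ofReal_re, mul_assoc]
      exact mul_le_mul_of_nonneg_left (hl1 ξ) hpos.le
  choose l hl hl1 using hpl
  have : Nonempty (F →+* ℝ) := ⟨v₁⟩
  obtain ⟨v₀, hv₀⟩ := Finite.exists_min l
  refine ⟨Real.pi * l v₀, mul_pos Real.pi_pos (hl v₀), fun y hy ξ => ?_⟩
  rw [gauss, Complex.norm_exp, Real.exp_le_exp]
  have e : (-(Real.pi : ℂ) * ∑ v : F →+* ℝ, ((|v a| / √(v D) : ℝ) : ℂ) *
      ((form h v ξ ξ : ℂ) + if v = v₁ then 2 * s (ev v h) (ev v ξ) y ^ 2 else 0)).re =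
      -(Real.pi * ∑ v : F →+* ℝ, (((|v a| / √(v D) : ℝ) : ℂ) *
      ((form h v ξ ξ : ℂ) + if v = v₁ then 2 * s (ev v h) (ev v ξ) y ^ 2 else 0)).re) := by
    rw [← Complex.re_sum, neg_mul, Complex.neg_re, Complex.re_ofReal_mul]
  rw [e, neg_le_neg_iff, mul_assoc]
  refine mul_le_mul_of_nonneg_left ?_ Real.pi_pos.le
  rw [nrm2, Finset.sum_comm, Finset.mul_sum]
  refine Finset.sum_le_sum fun v _ => ?_
  refine le_trans ?_ (hl1 v y hy ξ)
  exact mul_le_mul_of_nonneg_right (hv₀ v) (Finset.sum_nonneg fun _ _ => sq_nonneg _)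

/-- the estimate for the Gaussian, two rows -/
theorem gauss2_bound (hE : EST) {v₁ : F →+* ℝ} {D : F} {h : Fin 3 → F} (hG : Good v₁ D h)
    {a : Fin 2 → F} (ha : ∀ i, 0 < v₁ (a i)) {R : Maj F} (hR : ∀ v, (R v).PosDef)
    (hR1 : R v₁ = R0 a v₁) {C : Set (Fin 2 → ℂ)} (hC : IsCompact C)
    (hCb : C ⊆ ball (ev v₁ h)) :
    ∃ c : ℝ, 0 < c ∧ ∀ y ∈ C, ∀ ξ : Fin 2 → Fin 3 → F,
      ‖gauss2 v₁ D h a R ξ y‖ ≤ Real.exp (-(c * nrm2 (fun p : Fin 2 × Fin 3 => ξ p.1 p.2))) := by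
  classical
  obtain ⟨-, -, -, -, hE5⟩ := hE (ev v₁ h) (hG.h0 v₁) (hG.h1 v₁) hG.h3
  obtain ⟨c, hc, -, -, hc1, -⟩ := hE5 C hC hCb
  have hD : ∀ v : F →+* ℝ, 0 < √(v D) := fun v => Real.sqrt_pos.mpr (hG.D0 v)
  have hpl : ∀ v : F →+* ℝ, ∃ l : ℝ, 0 < l ∧ ∀ y ∈ C, ∀ ξ : Fin 2 → Fin 3 → F,
      l * ∑ i, ∑ k, v (ξ i k) ^ 2 ≤ (((1 / √(v D) : ℝ) : ℂ) *
        (((∑ i, ∑ j, R v i j * form h v (ξ i) (ξ j) : ℝ) : ℂ) +
          if v = v₁ then 2 * ∑ i, (v (a i) : ℂ) * s (ev v h) (ev v (ξ i)) y ^ 2 else 0)).re := by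
    intro v
    have hpos : 0 < 1 / √(v D) := div_pos one_pos (hD v)
    by_cases hv : v = v₁
    · subst hv
      set m := min (v (a 0)) (v (a 1)) with hm
      have hm0 : 0 < m := lt_min (ha 0) (ha 1)
      refine ⟨1 / √(v D) * (m * c), by positivity, fun y hy ξ => ?_⟩
      rw [if_pos rfl, Complex.re_ofReal_mul, mul_assoc]
      refine mul_le_mul_of_nonneg_left ?_ hpos.le
      rw [hR1]
      have e1 : (((∑ i, ∑ j, R0 a v i j * form h v (ξ i) (ξ j) : ℝ) : ℂ) +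
          2 * ∑ i, (v (a i) : ℂ) * s (ev v h) (ev v (ξ i)) y ^ 2).re =
          ∑ i, v (a i) * (((∑ j, ev v h j * ev v (ξ i) j * ev v (ξ i) j : ℝ) : ℂ) +
            2 * s (ev v h) (ev v (ξ i)) y ^ 2).re := by
        have h1 : ∀ i, v (a i) * (((∑ j, ev v h j * ev v (ξ i) j * ev v (ξ i) j : ℝ) : ℂ) +
            2 * s (ev v h) (ev v (ξ i)) y ^ 2).re = ((v (a i) : ℂ) *
            (((∑ j, ev v h j * ev v (ξ i) j * ev v (ξ i) j : ℝ) : ℂ) +
            2 * s (ev v h) (ev v (ξ i)) y ^ 2)).re := fun i => by rw [Complex.re_ofReal_mul]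
        simp only [h1]
        rw [← Complex.re_sum]
        congr 1
        simp only [R0, Matrix.diagonal_apply, ite_mul, zero_mul, Finset.sum_ite_eq,
          Finset.mem_univ, if_true, abs_of_pos (ha _), form_self]
        push_cast
        simp only [mul_add, Finset.sum_add_distrib, Finset.mul_sum]
        congr 1
        refine Finset.sum_congr rfl fun i _ => ?_
        ring
      rw [e1, Finset.mul_sum]
      refine Finset.sum_le_sum fun i _ => ?_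
      have h2 : m ≤ v (a i) := by
        fin_cases i
        · exact min_le_left _ _
        · exact min_le_right _ _
      have h3 := hc1 y hy (ev v (ξ i))
      have h4 : 0 ≤ c * ∑ j, ev v (ξ i) j ^ 2 :=
        mul_nonneg hc.le (Finset.sum_nonneg fun _ _ => sq_nonneg _)
      rw [mul_assoc]
      exact mul_le_mul h2 h3 h4 (ha i).le
    · have hh : ∀ j, 0 < v (h j) := by
        intro j
        fin_cases j
        · exact hG.h0 v
        · exact hG.h1 v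
        · exact hG.h2 v hv
      obtain ⟨l, hl, hl1⟩ := place2 v h hh (R v) (hR v)
      refine ⟨1 / √(v D) * l, by positivity, fun y hy ξ => ?_⟩
      rw [if_neg hv, add_zero, Complex.re_ofReal_mul, Complex.ofReal_re, mul_assoc]
      exact mul_le_mul_of_nonneg_left (hl1 ξ) hpos.le
  choose l hl hl1 using hpl
  have : Nonempty (F →+* ℝ) := ⟨v₁⟩
  obtain ⟨v₀, hv₀⟩ := Finite.exists_min l
  refine ⟨Real.pi * l v₀, mul_pos Real.pi_pos (hl v₀), fun y hy ξ => ?_⟩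
  rw [gauss2, Complex.norm_exp, Real.exp_le_exp, neg_mul, Complex.neg_re, Complex.re_ofReal_mul,
    Complex.re_sum, neg_le_neg_iff, mul_assoc]
  refine mul_le_mul_of_nonneg_left ?_ Real.pi_pos.le
  rw [nrm2, Finset.sum_comm, Finset.mul_sum]
  refine Finset.sum_le_sum fun v _ => ?_
  refine le_trans ?_ (hl1 v y hy ξ)
  rw [Fintype.sum_prod_type]
  exact mul_le_mul_of_nonneg_right (hv₀ v)
    (Finset.sum_nonneg fun _ _ => Finset.sum_nonneg fun _ _ => sq_nonneg _)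

/-! ## SUM2 -/

theorem isOpen_ball (k : Fin 3 → ℝ) : IsOpen (ball k) := by
  have : Continuous fun y : Fin 2 → ℂ => k 0 * ‖y 0‖ ^ 2 + k 1 * ‖y 1‖ ^ 2 + k 2 := by fun_prop
  exact isOpen_lt this continuous_const

theorem ev_sq_le {ι : Type} [Fintype ι] (v₁ : F →+* ℝ) (ξ : ι → F) :
    ∑ i, v₁ (ξ i) ^ 2 ≤ nrm2 ξ := by
  classical
  rw [nrm2]
  refine Finset.sum_le_sum fun i _ => ?_
  exact Finset.single_le_sum (f := fun v : F →+* ℝ => v (ξ i) ^ 2) (fun v _ => sq_nonneg _)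
    (Finset.mem_univ v₁)

/-- the majorising function -/
def mj {ι : Type} [Fintype ι] (N : ℕ) (c : ℝ) (ξ : ι → F) : ℝ :=
  (Lat F ι N).indicator (fun ξ => (1 + nrm2 ξ) ^ 1 * Real.exp (-(c * nrm2 ξ))) ξ

theorem summable_mj [IsTotallyReal F] {ι : Type} [Fintype ι] {N : ℕ} (hN : 0 < N) {c : ℝ}
    (hc : 0 < c) : Summable (mj (F := F) (ι := ι) N c) := summable_gs N hN c hc 1

theorem summable_mj2 [IsTotallyReal F] {N : ℕ} (hN : 0 < N) {c : ℝ} (hc : 0 < c) :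
    Summable fun ξ : Fin 2 → Fin 3 → F => mj N c (fun p : Fin 2 × Fin 3 => ξ p.1 p.2) := by
  have h1 := summable_mj (F := F) (ι := Fin 2 × Fin 3) hN hc
  exact h1.comp_injective (i := fun (ξ : Fin 2 → Fin 3 → F) (p : Fin 2 × Fin 3) => ξ p.1 p.2)
    (fun ξ η h => by
      funext i j
      exact congrFun h (i, j))

/-- the bound for a term of `C_R(φ)` -/
theorem term2_bound (hE : EST) {v₁ : F →+* ℝ} {D : F} {h : Fin 3 → F} (hG : Good v₁ D h)
    {a : Fin 2 → F} (ha : ∀ i, 0 < v₁ (a i)) {R : Maj F} (hR : ∀ v, (R v).PosDef)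
    (hR1 : R v₁ = R0 a v₁) {N : ℕ} {φ : (Fin 2 → Fin 3 → F) → ℂ} (hφ : SB2 N φ)
    {C : Set (Fin 2 → ℂ)} (hC : IsCompact C) (hCb : C ⊆ ball (ev v₁ h)) :
    ∃ c : ℝ, 0 < c ∧ ∃ B : ℝ, ∀ y ∈ C, ∀ ξ : Fin 2 → Fin 3 → F,
      ‖φ ξ * gauss2 v₁ D h a R ξ y * Del (ev v₁ h) (fun i => ev v₁ (ξ i)) y‖ ≤
        B * mj N c (fun p : Fin 2 × Fin 3 => ξ p.1 p.2) := by
  obtain ⟨c, hc, hc1⟩ := gauss2_bound hE hG ha hR hR1 hC hCb
  obtain ⟨-, -, -, -, hE5⟩ := hE (ev v₁ h) (hG.h0 v₁) (hG.h1 v₁) hG.h3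
  obtain ⟨-, -, c', hc', -, hc2⟩ := hE5 C hC hCb
  obtain ⟨P, hP, hP1⟩ := bdd (ι := Fin 2 × Fin 3) hφ.1
    (fun ξ => φ (fun i j => ξ (i, j))) (fun ξ h i => hφ.2.1 _ h i.1 i.2)
    (fun ξ η h => hφ.2.2 (fun i j => ξ (i, j)) (fun i j => η (i, j)) (fun i j => h (i, j)))
  refine ⟨c, hc, P * (2 * c' ^ 2), fun y hy ξ => ?_⟩
  set u : Fin 2 × Fin 3 → F := fun p => ξ p.1 p.2 with hu
  have hn : 0 ≤ nrm2 u := nrm2_nonneg _
  by_cases h0 : φ ξ = 0
  · rw [h0, zero_mul, zero_mul, norm_zero]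
    refine mul_nonneg (by positivity) ?_
    exact Set.indicator_nonneg (fun _ _ => mul_nonneg (pow_nonneg (by
      linarith [nrm2_nonneg (F := F) (ι := Fin 2 × Fin 3) (by assumption)]) _) (Real.exp_pos _).le) _
  · have hmem : u ∈ Lat F (Fin 2 × Fin 3) N := fun p => hφ.2.1 ξ h0 p.1 p.2
    have hm : mj N c u = (1 + nrm2 u) ^ 1 * Real.exp (-(c * nrm2 u)) :=
      Set.indicator_of_mem hmem _
    rw [hm, norm_mul, norm_mul, pow_one]
    have h1 : ‖φ ξ‖ ≤ P := hP1 u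
    have h2 := hc1 y hy ξ
    have hsq : ∀ i, ∑ j, ev v₁ (ξ i) j ^ 2 ≤ nrm2 u := by
      intro i
      refine le_trans ?_ (ev_sq_le v₁ u)
      rw [Fintype.sum_prod_type]
      exact Finset.single_le_sum (f := fun i => ∑ j, v₁ (u (i, j)) ^ 2)
        (fun i _ => Finset.sum_nonneg fun _ _ => sq_nonneg _) (Finset.mem_univ i)
    have hds : ∀ i j, ‖ds (ev v₁ h) (ev v₁ (ξ i)) j y‖ ≤ c' * √(nrm2 u) := fun i j =>
      (hc2 y hy (ev v₁ (ξ i)) j).trans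
        (mul_le_mul_of_nonneg_left (Real.sqrt_le_sqrt (hsq i)) hc'.le)
    have h3 : ‖Del (ev v₁ h) (fun i => ev v₁ (ξ i)) y‖ ≤ 2 * c' ^ 2 * (1 + nrm2 u) := by
      rw [Del]
      refine (norm_sub_le _ _).trans ?_
      rw [norm_mul, norm_mul]
      have hs0 : 0 ≤ c' * √(nrm2 u) := by positivity
      have h4 := mul_le_mul (hds 0 0) (hds 1 1) (norm_nonneg _) hs0
      have h5 := mul_le_mul (hds 0 1) (hds 1 0) (norm_nonneg _) hs0
      have h6 : c' * √(nrm2 u) * (c' * √(nrm2 u)) = c' ^ 2 * nrm2 u := by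
        rw [show c' * √(nrm2 u) * (c' * √(nrm2 u)) = c' ^ 2 * (√(nrm2 u) * √(nrm2 u)) by ring,
          Real.mul_self_sqrt hn]
      rw [h6] at h4 h5
      have h7 : 0 ≤ c' ^ 2 := by positivity
      nlinarith
    calc ‖φ ξ‖ * ‖gauss2 v₁ D h a R ξ y‖ * ‖Del (ev v₁ h) (fun i => ev v₁ (ξ i)) y‖
        ≤ P * Real.exp (-(c * nrm2 u)) * (2 * c' ^ 2 * (1 + nrm2 u)) := by
          refine mul_le_mul (mul_le_mul h1 h2 (norm_nonneg _) hP) h3 (norm_nonneg _) ?_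
          exact mul_nonneg hP (Real.exp_pos _).le
      _ = _ := by ring

theorem continuousOn_gauss2 (hE : EST) {v₁ : F →+* ℝ} {D : F} {h : Fin 3 → F} (hG : Good v₁ D h)
    (a : Fin 2 → F) (R : Maj F) (ξ : Fin 2 → Fin 3 → F) :
    ContinuousOn (fun y => gauss2 v₁ D h a R ξ y) (ball (ev v₁ h)) := by
  classical
  obtain ⟨-, -, -, hE4, -⟩ := hE (ev v₁ h) (hG.h0 v₁) (hG.h1 v₁) hG.h3
  unfold gauss2
  refine Continuous.comp_continuousOn Complex.continuous_exp ?_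
  refine ContinuousOn.mul continuousOn_const ?_
  refine continuousOn_finsetSum _ fun v _ => ?_
  refine ContinuousOn.mul continuousOn_const ?_
  refine ContinuousOn.add continuousOn_const ?_
  by_cases hv : v = v₁
  · subst hv
    simp only [if_true]
    refine ContinuousOn.mul continuousOn_const ?_
    refine continuousOn_finsetSum _ fun i _ => ?_
    refine ContinuousOn.mul continuousOn_const ?_
    exact ((hE4 (ev v (ξ i))).1).pow 2
  · simp only [if_neg hv]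
    exact continuousOn_const

theorem continuousOn_Del (hE : EST) {v₁ : F →+* ℝ} {D : F} {h : Fin 3 → F} (hG : Good v₁ D h)
    (x : Fin 2 → Fin 3 → ℝ) :
    ContinuousOn (fun y => Del (ev v₁ h) x y) (ball (ev v₁ h)) := by
  obtain ⟨-, -, -, hE4, -⟩ := hE (ev v₁ h) (hG.h0 v₁) (hG.h1 v₁) hG.h3
  unfold Del
  exact (((hE4 (x 0)).2 0).mul ((hE4 (x 1)).2 1)).sub (((hE4 (x 0)).2 1).mul ((hE4 (x 1)).2 0))

/-- **SUM2**, from EST -/
theorem sum2_of (hE : EST) : SUM2 := by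
  intro F _ _ _ v₁ D h a R N φ hG ha hR hR1 hφ
  have hb : ∀ y₀ ∈ ball (ev v₁ h), ∃ r : ℝ, 0 < r ∧ Metric.closedBall y₀ r ⊆ ball (ev v₁ h) := by
    intro y₀ hy₀
    exact Metric.nhds_basis_closedBall.mem_iff.mp ((isOpen_ball _).mem_nhds hy₀)
  constructor
  · intro y hy
    obtain ⟨c, hc, B, hB⟩ := term2_bound hE hG ha hR hR1 hφ (C := {y}) isCompact_singleton
      (Set.singleton_subset_iff.mpr hy)
    exact Summable.of_norm_bounded ((summable_mj2 hφ.1 hc).mul_left B)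
      fun ξ => hB y (Set.mem_singleton y) ξ
  · intro y₀ hy₀
    obtain ⟨r, hr, hrb⟩ := hb y₀ hy₀
    obtain ⟨c, hc, B, hB⟩ := term2_bound hE hG ha hR hR1 hφ (C := Metric.closedBall y₀ r)
      (isCompact_closedBall _ _) hrb
    have h1 : ContinuousOn (CR v₁ D h a R φ) (Metric.closedBall y₀ r) := by
      unfold CR
      refine continuousOn_tsum (fun ξ => ?_) ((summable_mj2 hφ.1 hc).mul_left B)
        (fun ξ y hy => hB y hy ξ)
      exact (((continuousOn_const.mul (continuousOn_gauss2 hE hG a R ξ)).mul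
        (continuousOn_Del hE hG _)).mono hrb)
    exact (h1.continuousAt (Metric.closedBall_mem_nhds y₀ hr)).continuousWithinAt

/-! ## SUM3 -/

/-- the bound for a term of the theta one-form -/
theorem term1_bound (hE : EST) {v₁ : F →+* ℝ} {D : F} {h : Fin 3 → F} (hG : Good v₁ D h)
    {a : F} (ha : 0 < v₁ a) {φ : (Fin 3 → F) → ℂ} (hφ : IsSB φ)
    {C : Set (Fin 2 → ℂ)} (hC : IsCompact C) (hCb : C ⊆ ball (ev v₁ h)) :
    ∃ N : ℕ, 0 < N ∧ ∃ c : ℝ, 0 < c ∧ ∃ B : ℝ, ∀ y ∈ C, ∀ (ξ : Fin 3 → F) (j : Fin 2),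
      ‖φ ξ * gauss v₁ D h a ξ y * ds (ev v₁ h) (ev v₁ ξ) j y‖ ≤ B * mj N c ξ := by
  obtain ⟨c, hc, hc1⟩ := gauss_bound hE hG ha hC hCb
  obtain ⟨-, -, -, -, hE5⟩ := hE (ev v₁ h) (hG.h0 v₁) (hG.h1 v₁) hG.h3
  obtain ⟨-, -, c', hc', -, hc2⟩ := hE5 C hC hCb
  obtain ⟨N, hN, hs, hp⟩ := hφ
  obtain ⟨P, hP, hP1⟩ := bdd (ι := Fin 3) hN φ hs hp
  refine ⟨N, hN, c, hc, P * c', fun y hy ξ j => ?_⟩
  have hn : 0 ≤ nrm2 ξ := nrm2_nonneg _
  by_cases h0 : φ ξ = 0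
  · rw [h0, zero_mul, zero_mul, norm_zero]
    refine mul_nonneg (by positivity) ?_
    exact Set.indicator_nonneg (fun η _ => mul_nonneg (pow_nonneg (by
      linarith [nrm2_nonneg η]) _) (Real.exp_pos _).le) _
  · have hmem : ξ ∈ Lat F (Fin 3) N := fun p => hs ξ h0 p
    have hm : mj N c ξ = (1 + nrm2 ξ) ^ 1 * Real.exp (-(c * nrm2 ξ)) :=
      Set.indicator_of_mem hmem _
    rw [hm, norm_mul, norm_mul, pow_one]
    have h1 : ‖φ ξ‖ ≤ P := hP1 ξ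
    have h2 := hc1 y hy ξ
    have hds : ‖ds (ev v₁ h) (ev v₁ ξ) j y‖ ≤ c' * (1 + nrm2 ξ) := by
      refine (hc2 y hy (ev v₁ ξ) j).trans (mul_le_mul_of_nonneg_left ?_ hc'.le)
      refine (Real.sqrt_le_sqrt (ev_sq_le v₁ ξ)).trans ?_
      rw [Real.sqrt_le_left (by linarith)]
      nlinarith
    calc ‖φ ξ‖ * ‖gauss v₁ D h a ξ y‖ * ‖ds (ev v₁ h) (ev v₁ ξ) j y‖
        ≤ P * Real.exp (-(c * nrm2 ξ)) * (c' * (1 + nrm2 ξ)) := by
          refine mul_le_mul (mul_le_mul h1 h2 (norm_nonneg _) hP) hds (norm_nonneg _) ?_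
          exact mul_nonneg hP (Real.exp_pos _).le
      _ = _ := by ring

/-- the Gaussian of `|diag(a)|` is a product -/
theorem gauss2_R0 {v₁ : F →+* ℝ} {D : F} {h : Fin 3 → F} {a : Fin 2 → F}
    (ha : ∀ i, 0 < v₁ (a i)) (ξ : Fin 2 → Fin 3 → F) (y : Fin 2 → ℂ) :
    gauss2 v₁ D h a (R0 a) ξ y = gauss v₁ D h (a 0) (ξ 0) y * gauss v₁ D h (a 1) (ξ 1) y := by
  classical
  rw [gauss2, gauss, gauss, ← Complex.exp_add, ← mul_add, ← Finset.sum_add_distrib]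
  congr 2
  refine Finset.sum_congr rfl fun v _ => ?_
  have e1 : ∑ i, ∑ j, R0 a v i j * form h v (ξ i) (ξ j) =
      |v (a 0)| * form h v (ξ 0) (ξ 0) + |v (a 1)| * form h v (ξ 1) (ξ 1) := by
    simp only [R0, Matrix.diagonal_apply, ite_mul, zero_mul, Finset.sum_ite_eq, Finset.mem_univ,
      if_true, Fin.sum_univ_two]
  rw [e1]
  by_cases hv : v = v₁
  · subst hv
    simp only [if_true, Fin.sum_univ_two, abs_of_pos (ha _)]
    push_cast
    ring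
  · simp only [if_neg hv]
    push_cast
    ring

/-- pairs of rows -/
def rows (F : Type) : (Fin 2 → Fin 3 → F) ≃ (Fin 3 → F) × (Fin 3 → F) where
  toFun := fun ξ => (ξ 0, ξ 1)
  invFun := fun p => ![p.1, p.2]
  left_inv := fun ξ => by
    funext i
    fin_cases i <;> rfl
  right_inv := fun p => rfl

/-- **SUM3**, from EST -/
theorem sum3_of (hE : EST) : SUM3 := by
  intro F _ _ _ v₁ D h a φ hG ha hφ y hy
  obtain ⟨f, hf⟩ : ∃ f : Fin 2 → Fin 2 → (Fin 3 → F) → ℂ, ∀ i j ξ, f i j ξ =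
      φ i ξ * gauss v₁ D h (a i) ξ y * ds (ev v₁ h) (ev v₁ ξ) j y := ⟨_, fun _ _ _ => rfl⟩
  have hS : ∀ i j, Summable (fun ξ : Fin 3 → F => ‖f i j ξ‖) := by
    intro i j
    obtain ⟨N, hN, c, hc, B, hB⟩ := term1_bound hE hG (ha i) (hφ i) (C := {y})
      isCompact_singleton (Set.singleton_subset_iff.mpr hy)
    refine Summable.of_nonneg_of_le (fun _ => norm_nonneg _) (fun ξ => ?_)
      ((summable_mj hN hc).mul_left B)
    rw [hf]
    exact hB y (Set.mem_singleton y) ξ j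
  have ht : ∀ i j, theta v₁ D h (a i) (φ i) j y = ∑' ξ, f i j ξ := by
    intro i j
    rw [theta]
    exact tsum_congr fun ξ => (hf i j ξ).symm
  constructor
  · intro i j
    refine ((hS i j).of_norm).congr fun ξ => ?_
    exact hf i j ξ
  · have e1 := tsum_mul_tsum_of_summable_norm (hS 0 0) (hS 1 1)
    have e2 := tsum_mul_tsum_of_summable_norm (hS 0 1) (hS 1 0)
    have s1 : Summable (fun x : (Fin 3 → F) × (Fin 3 → F) => f 0 0 x.1 * f 1 1 x.2) :=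
      summable_mul_of_summable_norm (hS 0 0) (hS 1 1)
    have s2 : Summable (fun x : (Fin 3 → F) × (Fin 3 → F) => f 0 1 x.1 * f 1 0 x.2) :=
      summable_mul_of_summable_norm (hS 0 1) (hS 1 0)
    have e3 := (s1.hasSum.sub s2.hasSum).tsum_eq
    have e4 : wedge (theta v₁ D h (a 0) (φ 0)) (theta v₁ D h (a 1) (φ 1)) y =
        (∑' ξ, f 0 0 ξ) * (∑' ξ, f 1 1 ξ) - (∑' ξ, f 0 1 ξ) * (∑' ξ, f 1 0 ξ) := by
      rw [wedge, ht 0 0, ht 0 1, ht 1 0, ht 1 1]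
    have e5 : CR v₁ D h a (R0 a) (tens φ) y = ∑' x : (Fin 3 → F) × (Fin 3 → F),
        (f 0 0 x.1 * f 1 1 x.2 - f 0 1 x.1 * f 1 0 x.2) := by
      rw [CR, ← (rows F).tsum_eq (fun x : (Fin 3 → F) × (Fin 3 → F) =>
        f 0 0 x.1 * f 1 1 x.2 - f 0 1 x.1 * f 1 0 x.2)]
      refine tsum_congr fun ξ => ?_
      change _ = f 0 0 (ξ 0) * f 1 1 (ξ 1) - f 0 1 (ξ 0) * f 1 0 (ξ 1)
      rw [gauss2_R0 ha, tens, Del, hf, hf, hf, hf]
      ring
    rw [e5, e4, e1, e2]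
    exact e3

end

end Pool.Agent.CMH.Sum
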