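import Pool.Agent.Lib.CMH.Lim
import Pool.Agent.Lib.CMH.Est

/-!
Tank CMH (MP_938ce2_ag), helper5: absolute convergence and continuity of `C_R(φ)` (row SUM2).
-/

set_option autoImplicit false

open scoped ComplexConjugate Matrix
open Complex

namespace Pool.Agent.CMH

noncomputable section

variable {F : Type} [Field F] [NumberField F]

/-- a positive definite binary form is bounded below -/
theorem Sum2.posDef_lower (R : Matrix (Fin 2) (Fin 2) ℝ) (hR : R.PosDef) :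
    ∃ m : ℝ, 0 < m ∧ ∀ x : Fin 2 → ℝ, m * ∑ i, x i ^ 2 ≤ ∑ i, ∑ j, R i j * (x i * x j) := by
  have hsymm : R 1 0 = R 0 1 := by
    have := hR.1.apply 0 1
    simpa using this
  have hpos : ∀ x : Fin 2 → ℝ, x ≠ 0 →
      0 < R 0 0 * x 0 ^ 2 + 2 * R 0 1 * (x 0 * x 1) + R 1 1 * x 1 ^ 2 := by
    intro x hx
    have h1 := hR.dotProduct_mulVec_pos hx
    simp only [dotProduct, Matrix.mulVec, Fin.sum_univ_two, star_trivial, Pi.star_apply] at h1
    rw [hsymm] at h1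
    nlinarith
  have ha : 0 < R 0 0 := by
    have := hpos ![1, 0] (by intro h; simpa using congrFun h 0)
    simpa using this
  have hd : 0 < R 1 1 := by
    have := hpos ![0, 1] (by intro h; simpa using congrFun h 1)
    simpa using this
  have hdet : 0 < R 0 0 * R 1 1 - R 0 1 ^ 2 := by
    have := hpos ![-(R 0 1), R 0 0] (by intro h; exact ha.ne' (by simpa using congrFun h 1))
    simp at this
    have h2 : R 0 0 * R 0 1 ^ 2 + -(2 * R 0 1 * (R 0 1 * R 0 0)) + R 1 1 * R 0 0 ^ 2 =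
      R 0 0 * (R 0 0 * R 1 1 - R 0 1 ^ 2) := by ring
    rw [h2] at this
    exact (mul_pos_iff_of_pos_left ha).mp this
  set T := R 0 0 + R 1 1 with hT
  have hT0 : 0 < T := by positivity
  refine ⟨(R 0 0 * R 1 1 - R 0 1 ^ 2) / T, by positivity, ?_⟩
  intro x
  simp only [Fin.sum_univ_two]
  rw [hsymm]
  have hA : 0 < R 0 0 ^ 2 + R 0 1 ^ 2 := by positivity
  have hkey : 0 ≤ (R 0 0 ^ 2 + R 0 1 ^ 2) * ((R 0 0 ^ 2 + R 0 1 ^ 2) * x 0 ^ 2 +
      2 * R 0 1 * T * (x 0 * x 1) + (R 1 1 ^ 2 + R 0 1 ^ 2) * x 1 ^ 2) := by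
    have h3 : (R 0 0 ^ 2 + R 0 1 ^ 2) * ((R 0 0 ^ 2 + R 0 1 ^ 2) * x 0 ^ 2 +
      2 * R 0 1 * T * (x 0 * x 1) + (R 1 1 ^ 2 + R 0 1 ^ 2) * x 1 ^ 2) =
      ((R 0 0 ^ 2 + R 0 1 ^ 2) * x 0 + R 0 1 * T * x 1) ^ 2 +
        (R 0 0 * R 1 1 - R 0 1 ^ 2) ^ 2 * x 1 ^ 2 := by
      rw [hT]; ring
    rw [h3]
    positivity
  have hkey2 := nonneg_of_mul_nonneg_right hkey hA
  have h4 : (R 0 0 * R 1 1 - R 0 1 ^ 2) / T * (x 0 ^ 2 + x 1 ^ 2) =
      ((R 0 0 * R 1 1 - R 0 1 ^ 2) * (x 0 ^ 2 + x 1 ^ 2)) / T := by ring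
  rw [h4, div_le_iff₀ hT0]
  rw [hT] at hkey2 ⊢
  nlinarith

/-- the ball is open -/
theorem Sum2.isOpen_ball (k : Fin 3 → ℝ) : IsOpen (ball k) := by
  have : Continuous fun y : Fin 2 → ℂ => k 0 * ‖y 0‖ ^ 2 + k 1 * ‖y 1‖ ^ 2 + k 2 := by fun_prop
  exact isOpen_lt this continuous_const

theorem Sum2.term_cont (v₁ : F →+* ℝ) (D : F) (h : Fin 3 → F) (a : Fin 2 → F) (R : Maj F)
    (hg : Good v₁ D h) (c : ℂ) (ξ : Fin 2 → Fin 3 → F) :
    ContinuousOn (fun y => c * gauss2 v₁ D h a R ξ y * Del (ev v₁ h) (fun i => ev v₁ (ξ i)) y)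
      (ball (ev v₁ h)) := by
  classical
  obtain ⟨_, _, _, hc, _⟩ := est (ev v₁ h) (hg.h0 v₁) (hg.h1 v₁) hg.h3
  apply ContinuousOn.mul
  · apply continuousOn_const.mul
    unfold gauss2
    apply ContinuousOn.cexp
    apply continuousOn_const.mul
    apply continuousOn_finsetSum
    intro v _
    apply continuousOn_const.mul
    apply continuousOn_const.add
    by_cases hv : v = v₁
    · subst hv
      simp only [if_true]
      apply continuousOn_const.mul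
      apply continuousOn_finsetSum
      intro i _
      exact continuousOn_const.mul ((hc _).1.pow 2)
    · simp only [if_neg hv]
      exact continuousOn_const
  · unfold Del
    exact (((hc _).2 0).mul ((hc _).2 1)).sub (((hc _).2 1).mul ((hc _).2 0))

/-- uniform summable majorant on compact subsets of the ball -/
theorem Sum2.major (v₁ : F →+* ℝ) (D : F) (h : Fin 3 → F) (a : Fin 2 → F) (R : Maj F)
    [NumberField.IsTotallyReal F]
    (N : ℕ) (φ : (Fin 2 → Fin 3 → F) → ℂ) (hg : Good v₁ D h) (ha : ∀ i, 0 < v₁ (a i))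
    (hR : ∀ v, (R v).PosDef) (hR1 : R v₁ = R0 a v₁) (hφ : SB2 N φ)
    (C : Set (Fin 2 → ℂ)) (hC : IsCompact C) (hCb : C ⊆ ball (ev v₁ h)) :
    ∃ u : (Fin 2 → Fin 3 → F) → ℝ, Summable u ∧ ∀ ξ, ∀ y ∈ C,
      ‖φ ξ * gauss2 v₁ D h a R ξ y * Del (ev v₁ h) (fun i => ev v₁ (ξ i)) y‖ ≤ u ξ := by
  classical
  obtain ⟨B, hB0, hB⟩ := Lim.bdd N φ hφ
  obtain ⟨μ, hμ, hD, hh⟩ := Lim.exists_mu v₁ D h hg
  obtain ⟨_, _, _, _, hest⟩ := est (ev v₁ h) (hg.h0 v₁) (hg.h1 v₁) hg.h3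
  obtain ⟨c, hc, c', hc', hE, hE'⟩ := hest C hC hCb
  choose mf hmf hmf' using fun v => Sum2.posDef_lower (R v) (hR v)
  obtain ⟨m₁, hm₁, hm₁'⟩ := Dom.exists_pos_le mf hmf
  obtain ⟨m₂, hm₂, hm₂'⟩ := Dom.exists_pos_le (fun i => v₁ (a i)) ha
  set m := min m₁ m₂ with hm
  have hm0 : 0 < m := lt_min hm₁ hm₂
  refine ⟨fun ξ => B * c' ^ 2 * Dom.maj F N (Real.pi * (μ * (m * min c μ))) 1 ξ, ?_, ?_⟩
  · apply Summable.mul_left
    apply Dom.summable_maj N hφ.1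
    have : 0 < min c μ := lt_min hc hμ
    have := Real.pi_pos
    positivity
  · intro ξ y hy
    refine Dom.term_le v₁ D h a R N φ hφ B hB0 hB ξ y m c c' μ hm0 hμ hc hD hh ?_ hR1 ?_
      (hE y hy) (hE' y hy)
    · intro v _ x
      refine le_trans ?_ (hmf' v x)
      apply mul_le_mul_of_nonneg_right ((min_le_left _ _).trans (hm₁' v))
      exact Finset.sum_nonneg (fun _ _ => sq_nonneg _)
    · intro i
      exact (min_le_right _ _).trans (hm₂' i)

/-- row SUM2 -/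
theorem sum2 : SUM2 := by
  intro F _ _ _ v₁ D h a R N φ hg ha hR hR1 hφ
  constructor
  · intro y hy
    obtain ⟨u, hu, hu'⟩ := Sum2.major v₁ D h a R N φ hg ha hR hR1 hφ {y} isCompact_singleton
      (Set.singleton_subset_iff.mpr hy)
    exact Summable.of_norm_bounded hu (fun ξ => hu' ξ y rfl)
  · intro y hy
    obtain ⟨K, hK, hyK, hKb⟩ := exists_compact_subset (Sum2.isOpen_ball (ev v₁ h)) hy
    obtain ⟨u, hu, hu'⟩ := Sum2.major v₁ D h a R N φ hg ha hR hR1 hφ K hK hKb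
    have h1 : ContinuousOn (CR v₁ D h a R φ) K := by
      unfold CR
      exact continuousOn_tsum (fun ξ => (Sum2.term_cont v₁ D h a R hg (φ ξ) ξ).mono hKb) hu
        (fun ξ y hy => hu' ξ y hy)
    have h2 : K ∈ nhds y := mem_interior_iff_mem_nhds.mp hyK
    exact (h1.continuousAt h2).continuousWithinAt

end

end Pool.Agent.CMH
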