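import Mathlib

set_option autoImplicit false

/-!
# P1, TH2 (helper18): the partial inversion, one variable
-/

open Complex

namespace Pool.CMH

/-- the term of the one variable theta sum -/
noncomputable def thE (N : ℕ) (τ ζ : ℂ) (x : ℤ) : ℂ :=
  cexp (Real.pi * I * (τ * x ^ 2 / N + 2 * x * ζ))

/-- normalised discrete Fourier transform in one variable -/
noncomputable def ft1 (N : ℕ) [NeZero N] (φ : ZMod N → ℂ) (n : ZMod N) : ℂ :=
  ((Real.sqrt N : ℝ) : ℂ)⁻¹ * ∑ r : ZMod N, φ r * ZMod.stdAddChar (r * n)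

theorem thE_summable (N : ℕ) [NeZero N] {τ : ℂ} (hτ : 0 < τ.im) (ζ : ℂ) :
    Summable fun x : ℤ => ‖thE N τ ζ x‖ := by
  have hN : (0 : ℝ) < N := Nat.cast_pos.2 (NeZero.pos N)
  have hN' : (N : ℂ) ≠ 0 := Nat.cast_ne_zero.2 (NeZero.ne N)
  have h0 : 0 < (τ / N : ℂ).im := by
    rw [show (τ / N : ℂ) = τ / ((N : ℝ) : ℂ) by push_cast; rfl, div_ofReal_im]
    positivity
  have h1 : Summable fun x : ℤ => jacobiTheta₂_term x ζ (τ / N) :=
    (summable_jacobiTheta₂_term_iff _ _).2 h0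
  refine h1.norm.congr fun x => ?_
  rw [jacobiTheta₂_term, thE]
  congr 2
  field_simp
  ring

theorem thE_add (N : ℕ) [NeZero N] (τ ζ : ℂ) (r m : ℤ) :
    thE N τ ζ (m * N + r) = thE N τ ζ r * jacobiTheta₂_term m (τ * r + N * ζ) (N * τ) := by
  have hN' : (N : ℂ) ≠ 0 := Nat.cast_ne_zero.2 (NeZero.ne N)
  rw [thE, thE, jacobiTheta₂_term, ← Complex.exp_add]
  congr 1
  push_cast
  field_simp
  ring

/-- the sum over one residue class -/
theorem thE_class (N : ℕ) [NeZero N] (τ ζ : ℂ) (r : ℤ) :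
    ∑' m : ℤ, thE N τ ζ (m * N + r) =
      thE N τ ζ r * jacobiTheta₂ (τ * r + N * ζ) (N * τ) := by
  rw [jacobiTheta₂, ← tsum_mul_left]
  exact tsum_congr fun m => thE_add N τ ζ r m

theorem thE_split (N : ℕ) [NeZero N] (φ : ZMod N → ℂ) {τ : ℂ} (hτ : 0 < τ.im) (ζ : ℂ) :
    ∑' x : ℤ, φ x * thE N τ ζ x =
      ∑ r : ZMod N, φ r * (thE N τ ζ (r.val : ℤ) *
        jacobiTheta₂ (τ * (r.val : ℤ) + N * ζ) (N * τ)) := by
  obtain ⟨k, rfl⟩ : ∃ k, N = k + 1 := Nat.exists_eq_succ_of_ne_zero (NeZero.ne N)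
  have hφ : ∀ (m : ℤ) (r : Fin (k + 1)), φ ((m * (k + 1 : ℕ) + (r : ℕ) : ℤ) : ZMod (k + 1)) =
      φ r := by
    intro m r
    congr 1
    rw [Int.cast_add, Int.cast_mul, Int.cast_natCast, ZMod.natCast_self, mul_zero, zero_add,
      Int.cast_natCast]
    exact ZMod.natCast_zmod_val (n := k + 1) r
  have hs : Summable fun x : ℤ => φ x * thE (k + 1) τ ζ x := by
    obtain ⟨B, hB⟩ := (Set.finite_range fun r : ZMod (k + 1) => ‖φ r‖).bddAbove
    refine Summable.of_norm_bounded (g := fun x => B * ‖thE (k + 1) τ ζ x‖)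
      ((thE_summable (k + 1) hτ ζ).mul_left B) fun x => ?_
    rw [norm_mul]
    exact mul_le_mul_of_nonneg_right (hB ⟨_, rfl⟩) (norm_nonneg _)
  rw [← (Int.divModEquiv (k + 1)).symm.tsum_eq]
  have hs' := (Int.divModEquiv (k + 1)).symm.summable_iff.2 hs
  rw [← (Equiv.prodComm (Fin (k + 1)) ℤ).tsum_eq]
  have hs'' := (Equiv.prodComm (Fin (k + 1)) ℤ).summable_iff.2 hs'
  refine hs''.tsum_prod.trans ?_
  rw [tsum_fintype]
  refine Finset.sum_congr rfl fun r _ => ?_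
  have h1 : ∀ m : ℤ, φ (((Int.divModEquiv (k + 1)).symm ((Equiv.prodComm (Fin (k + 1)) ℤ) (r, m))
      : ℤ) : ZMod (k + 1)) * thE (k + 1) τ ζ ((Int.divModEquiv (k + 1)).symm
        ((Equiv.prodComm (Fin (k + 1)) ℤ) (r, m))) =
      φ r * thE (k + 1) τ ζ (m * (k + 1 : ℕ) + ((r : ℕ) : ℤ)) := by
    intro m
    simp only [Equiv.prodComm_apply, Prod.swap_prod_mk, Int.divModEquiv_symm_apply]
    rw [hφ]
  refine (tsum_congr h1).trans ?_
  rw [tsum_mul_left, thE_class]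
  rfl

theorem im_neg_inv_pos {w : ℂ} (hw : 0 < w.im) : 0 < (-1 / w).im := by
  have h0 : w ≠ 0 := fun h => by rw [h] at hw; exact lt_irrefl _ hw
  rw [neg_div, one_div, neg_im, inv_im, neg_div, neg_neg]
  exact div_pos hw (normSq_pos.2 h0)

/-- the law of the inversion in one variable -/
theorem thE_law (N : ℕ) [NeZero N] (φ : ZMod N → ℂ) {τ : ℂ} (hτ : 0 < τ.im) (ζ : ℂ) :
    ∑' x : ℤ, φ x * thE N τ ζ x =
      1 / (-I * τ) ^ (1 / 2 : ℂ) * cexp (-(Real.pi * I * N * ζ ^ 2 / τ)) *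
        ∑' x : ℤ, ft1 N φ x * thE N (-1 / τ) (ζ / τ) x := by
  have hN : (0 : ℝ) < N := Nat.cast_pos.2 (NeZero.pos N)
  have hN' : (N : ℂ) ≠ 0 := Nat.cast_ne_zero.2 (NeZero.ne N)
  have hτ0 : τ ≠ 0 := fun h => by rw [h] at hτ; exact lt_irrefl _ hτ
  have hNτ : 0 < ((N : ℂ) * τ).im := by
    rw [show ((N : ℂ) * τ) = ((N : ℝ) : ℂ) * τ by push_cast; rfl, im_ofReal_mul]
    positivity
  -- the right hand side
  have hR : HasSum (fun x : ℤ => ft1 N φ x * thE N (-1 / τ) (ζ / τ) x)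
      (((Real.sqrt N : ℝ) : ℂ)⁻¹ * ∑ r : ZMod N, φ r *
        jacobiTheta₂ ((τ * (r.val : ℤ) + N * ζ) / (N * τ)) (-1 / (N * τ))) := by
    have h1 : ∀ r : ZMod N, HasSum (fun x : ℤ => φ r * ZMod.stdAddChar (r * (x : ZMod N)) *
        thE N (-1 / τ) (ζ / τ) x)
        (φ r * jacobiTheta₂ ((τ * (r.val : ℤ) + N * ζ) / (N * τ)) (-1 / (N * τ))) := by
      intro r
      have h2 := (hasSum_jacobiTheta₂_term ((τ * (r.val : ℤ) + N * ζ) / (N * τ))
        (im_neg_inv_pos hNτ)).mul_left (φ r)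
      refine h2.congr_fun ?_
      intro x
      have h3 : (ZMod.stdAddChar (r * (x : ZMod N)) : ℂ) =
          cexp (2 * Real.pi * I * ((r.val : ℤ) * x : ℤ) / N) := by
        rw [← ZMod.stdAddChar_coe]
        congr 1
        push_cast
        rw [ZMod.natCast_zmod_val]
      rw [h3, thE, mul_assoc, ← Complex.exp_add, jacobiTheta₂_term]
      congr 2
      push_cast
      field_simp
      ring
    have h2 := (hasSum_sum fun r (_ : r ∈ Finset.univ) => h1 r).mul_left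
      (((Real.sqrt N : ℝ) : ℂ)⁻¹)
    refine h2.congr_fun ?_
    intro x
    rw [ft1, mul_assoc, Finset.sum_mul]
  rw [hR.tsum_eq, thE_split N φ hτ ζ]
  have hsq : (-I * (N * τ)) ^ (1 / 2 : ℂ) =
      ((Real.sqrt N : ℝ) : ℂ) * (-I * τ) ^ (1 / 2 : ℂ) := by
    have h1 : -I * τ ≠ 0 := mul_ne_zero (neg_ne_zero.2 I_ne_zero) hτ0
    have h2 : -I * (N * τ) = ((N : ℝ) : ℂ) * (-I * τ) := by
      push_cast
      ring
    have h3 : ((Real.sqrt N : ℝ) : ℂ) = cexp ((Real.log N : ℝ) * (1 / 2 : ℂ)) := by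
      rw [Real.sqrt_eq_rpow, Real.rpow_def_of_pos hN, ofReal_exp]
      push_cast
      rfl
    rw [h2, cpow_def_of_ne_zero (mul_ne_zero (ofReal_ne_zero.2 hN.ne') h1),
      cpow_def_of_ne_zero h1, log_ofReal_mul hN h1, h3, ← Complex.exp_add, add_mul]
  rw [Finset.mul_sum, Finset.mul_sum]
  refine Finset.sum_congr rfl fun r _ => ?_
  rw [jacobiTheta₂_functional_equation, hsq, thE]
  have hs0 : ((Real.sqrt N : ℝ) : ℂ) ≠ 0 := by
    rw [Ne, ofReal_eq_zero, Real.sqrt_eq_zero hN.le]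
    exact hN.ne'
  have hexp : cexp (Real.pi * I * (τ * ((r.val : ℤ) : ℂ) ^ 2 / N + 2 * ((r.val : ℤ) : ℂ) * ζ)) *
      cexp (-Real.pi * I * (τ * ((r.val : ℤ) : ℂ) + N * ζ) ^ 2 / (N * τ)) =
      cexp (-(Real.pi * I * N * ζ ^ 2 / τ)) := by
    rw [← Complex.exp_add]
    congr 1
    field_simp
    ring
  rw [← hexp]
  field_simp

end Pool.CMH
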