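import Pool.Agent.Lib.CMH.P1Defs
import Pool.Agent.Lib.CMH.TH2a

set_option autoImplicit false

/-!
# P1, TH2 (helper18): the partial inversion, matrices
-/

namespace Pool.CMH

open Matrix Complex Real

noncomputable section

set_option linter.unusedSectionVars false
set_option linter.unusedSimpArgs false

variable {ι : Type} [Fintype ι] [DecidableEq ι]

theorem Sieg.im_diag {Z : Matrix ι ι ℂ} (hZ : Z ∈ Sieg ι) (i : ι) : 0 < (Z i i).im := by
  have h1 := hZ.2 (Pi.single i 1) (by
    intro h
    have := congrFun h i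
    simp at this)
  rw [Finset.sum_eq_single i, Finset.sum_eq_single i] at h1
  · simpa using h1
  · intro j _ hj
    simp [Pi.single_eq_of_ne hj]
  · intro h
    exact absurd (Finset.mem_univ _) h
  · intro j _ hj
    simp [Pi.single_eq_of_ne hj]
  · intro h
    exact absurd (Finset.mem_univ _) h

theorem au_jI (i : ι) (Z : Matrix ι ι ℂ) :
    au (jI i) Z = (1 : Matrix ι ι ℂ).updateRow i (Z i) := by
  ext j k
  rw [au, jI, bC, bD, toBlocks_fromBlocks₂₁, toBlocks_fromBlocks₂₂, Matrix.add_apply,
    Matrix.mul_apply, Finset.sum_eq_single i]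
  · rcases eq_or_ne j i with rfl | hj
    · rcases eq_or_ne k j with rfl | hk
      · simp
      · simp [Matrix.updateRow_self, Matrix.one_apply_ne hk.symm, hk.symm]
    · simp [Matrix.updateRow_ne hj, hj.symm, Matrix.one_apply]
  · intro l _ hl
    simp [hl.symm]
  · intro h
    exact absurd (Finset.mem_univ _) h

theorem bA_jI (i : ι) : bA (jI i) = 1 - Matrix.single i i 1 := by
  ext j k
  simp [bA, jI, Matrix.one_apply, Matrix.single_apply]

theorem bB_jI (i : ι) : bB (jI i) = -Matrix.single i i 1 := by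
  ext j k
  simp [bB, jI, Matrix.single_apply]

theorem bC_jI (i : ι) : bC (jI i) = Matrix.single i i 1 := by
  ext j k
  simp [bC, jI, Matrix.single_apply]

/-- product with an elementary row matrix -/
theorem mul_updRow (A : Matrix ι ι ℂ) (i : ι) (v : ι → ℂ) (j k : ι) :
    (A * (1 : Matrix ι ι ℂ).updateRow i v) j k = A j i * v k + if k = i then 0 else A j k := by
  rw [Matrix.mul_apply, ← Finset.add_sum_erase _ _ (Finset.mem_univ i), Matrix.updateRow_self]
  congr 1
  have h1 : ∀ l ∈ Finset.univ.erase i, A j l * (1 : Matrix ι ι ℂ).updateRow i v l k =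
      if l = k then A j k else 0 := by
    intro l hl
    rw [Matrix.updateRow_ne (Finset.ne_of_mem_erase hl), Matrix.one_apply]
    rcases eq_or_ne l k with rfl | hlk
    · simp
    · simp [hlk]
  rw [Finset.sum_congr rfl h1, Finset.sum_ite_eq']
  rcases eq_or_ne k i with rfl | hk
  · simp
  · simp [hk]

theorem det_au_jI (i : ι) (Z : Matrix ι ι ℂ) : (au (jI i) Z).det = Z i i := by
  rw [au_jI, ← Matrix.det_transpose, ← Matrix.updateCol_transpose, Matrix.transpose_one,
    ← Matrix.cramer_apply, Matrix.cramer_one]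
  rfl

/-- the partially inverted matrix -/
def zJ (i : ι) (Z : Matrix ι ι ℂ) : Matrix ι ι ℂ := fun j k =>
  if j = i then (if k = i then -1 / Z i i else Z i k / Z i i)
  else (if k = i then Z j i / Z i i else Z j k - Z j i * Z i k / Z i i)

theorem isUnit_au_jI (i : ι) {Z : Matrix ι ι ℂ} (h : Z i i ≠ 0) : IsUnit (au (jI i) Z).det := by
  rw [det_au_jI]
  exact isUnit_iff_ne_zero.2 h

theorem mv_jI (i : ι) {Z : Matrix ι ι ℂ} (h : Z i i ≠ 0) : mv (jI i) Z = zJ i Z := by
  have h1 : zJ i Z * au (jI i) Z = bA (jI i) * Z + bB (jI i) := by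
    rw [au_jI, bA_jI, bB_jI]
    ext j k
    rw [mul_updRow, Matrix.add_apply, Matrix.sub_mul, Matrix.one_mul, Matrix.sub_apply,
      Matrix.neg_apply]
    rcases eq_or_ne j i with rfl | hj
    · rw [Matrix.single_mul_apply_same]
      rcases eq_or_ne k j with rfl | hk
      · simp [zJ]
        field_simp
      · simp [zJ, hk, hk.symm, Matrix.single_apply]
        field_simp
        ring
    · rw [Matrix.single_mul_apply_of_ne _ _ _ _ _ hj]
      rcases eq_or_ne k i with rfl | hk
      · simp [zJ, hj, hj.symm, Matrix.single_apply]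
        field_simp
      · simp [zJ, hj, hj.symm, hk, Matrix.single_apply]
        field_simp
        ring
  rw [mv, ← h1, Matrix.mul_nonsing_inv_cancel_right _ _ (isUnit_au_jI i h)]

/-- the transformed vector -/
def uJ (i : ι) (Z : Matrix ι ι ℂ) (u : ι → ℂ) : ι → ℂ := fun j =>
  if j = i then u i / Z i i else u j - Z i j * u i / Z i i

theorem uu_jI (i : ι) {Z : Matrix ι ι ℂ} (h : Z i i ≠ 0) (u : ι → ℂ) :
    uu (jI i) Z u = uJ i Z u := by
  have h1 : (au (jI i) Z)ᵀ *ᵥ uJ i Z u = u := by
    funext k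
    rw [Matrix.mulVec_transpose]
    let W : Matrix ι ι ℂ := Matrix.of fun (_ : ι) (l : ι) => uJ i Z u l
    have h2 : (W * (1 : Matrix ι ι ℂ).updateRow i (Z i)) i k = _ := mul_updRow W i (Z i) i k
    rw [au_jI]
    change (W * (1 : Matrix ι ι ℂ).updateRow i (Z i)) i k = u k
    rw [h2]
    change uJ i Z u i * Z i k + (if k = i then 0 else uJ i Z u k) = u k
    rcases eq_or_ne k i with rfl | hk
    · simp [uJ]
      field_simp
    · simp [uJ, hk]
      field_simp
      ring
  rw [uu, Matrix.transpose_nonsing_inv]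
  have h3 : IsUnit ((au (jI i) Z)ᵀ).det := by
    rw [Matrix.det_transpose]
    exact isUnit_au_jI i h
  conv_lhs => rw [← h1]
  rw [Matrix.mulVec_mulVec, Matrix.nonsing_inv_mul _ h3, Matrix.one_mulVec]

theorem qq_jI (i : ι) {Z : Matrix ι ι ℂ} (h : Z i i ≠ 0) (u : ι → ℂ) :
    qq (jI i) Z u = u i ^ 2 / Z i i := by
  have h1 : au (jI i) Z * Matrix.single i i (1 / Z i i) = bC (jI i) := by
    rw [au_jI, bC_jI]
    ext j k
    rcases eq_or_ne k i with rfl | hk
    · rw [Matrix.mul_single_apply_same]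
      rcases eq_or_ne j k with rfl | hj
      · simp
        field_simp
      · simp [Matrix.updateRow_ne hj, Matrix.one_apply_ne hj, hj.symm]
    · rw [Matrix.mul_single_apply_of_ne _ _ _ _ _ hk]
      simp [hk.symm]
  have h2 : (au (jI i) Z)⁻¹ * bC (jI i) = Matrix.single i i (1 / Z i i) := by
    rw [← h1, Matrix.nonsing_inv_mul_cancel_left _ _ (isUnit_au_jI i h)]
  rw [qq, h2, dotProduct, Finset.sum_eq_single i]
  · rw [Matrix.mulVec, dotProduct, Finset.sum_eq_single i]
    · simp
      field_simp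
    · intro l _ hl
      simp [hl.symm]
    · intro h
      exact absurd (Finset.mem_univ _) h
  · intro l _ hl
    rw [Matrix.mulVec, dotProduct]
    simp [hl.symm]
  · intro h
    exact absurd (Finset.mem_univ _) h

/-- the quadratic form of a symmetric matrix -/
theorem qf_update {Z : Matrix ι ι ℂ} (hZ : Zᵀ = Z) (i : ι) (w : ι → ℤ) (hw : w i = 0) (n : ℤ) :
    qf Z (Function.update w i n) =
      Z i i * n ^ 2 + 2 * n * (∑ j, (w j : ℂ) * Z i j) + qf Z w := by
  have hs : ∀ j k, Z j k = Z k j := fun j k => congrFun (congrFun hZ.symm j) k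
  have h1 : ∀ j, ((Function.update w i n j : ℤ) : ℂ) = w j + if j = i then (n : ℂ) else 0 := by
    intro j
    rcases eq_or_ne j i with rfl | hj
    · simp [hw]
    · simp [hj]
  simp only [qf, h1]
  have h2 : ∀ j k, ((w j : ℂ) + if j = i then (n : ℂ) else 0) * (w k + if k = i then (n : ℂ) else 0) *
      Z j k = (w j : ℂ) * w k * Z j k + (if k = i then (w j : ℂ) * n * Z j i else 0) +
        (if j = i then (n : ℂ) * w k * Z i k else 0) +
        (if j = i then (if k = i then (n : ℂ) ^ 2 * Z i i else 0) else 0) := by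
    intro j k
    rcases eq_or_ne j i with rfl | hj
    · rcases eq_or_ne k j with rfl | hk
      · simp
        ring
      · simp [hk]
        ring
    · rcases eq_or_ne k i with rfl | hk
      · simp [hj]
        ring
      · simp [hj, hk]
  simp only [h2, Finset.sum_add_distrib, Finset.sum_ite_eq', Finset.mem_univ, if_true]
  have h3 : ∀ j, (∑ k, if j = i then (n : ℂ) * w k * Z i k else 0) =
      if j = i then ∑ k, (n : ℂ) * w k * Z i k else 0 := by
    intro j
    split_ifs <;> simp
  have h4 : ∀ j, (∑ k, if j = i then (if k = i then (n : ℂ) ^ 2 * Z i i else 0) else 0) =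
      if j = i then (n : ℂ) ^ 2 * Z i i else 0 := by
    intro j
    split_ifs <;> simp
  simp only [h3, h4, Finset.sum_ite_eq', Finset.mem_univ, if_true]
  have h5 : ∑ j, (w j : ℂ) * n * Z j i = n * ∑ j, (w j : ℂ) * Z i j := by
    rw [Finset.mul_sum]
    exact Finset.sum_congr rfl fun j _ => by rw [hs j i]; ring
  have h6 : ∑ j, (n : ℂ) * w j * Z i j = n * ∑ j, (w j : ℂ) * Z i j := by
    rw [Finset.mul_sum]
    exact Finset.sum_congr rfl fun j _ => by ring
  rw [h5, h6]
  ring

theorem lf_update (u : ι → ℂ) (i : ι) (w : ι → ℤ) (hw : w i = 0) (n : ℤ) :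
    lf u (Function.update w i n) = n * u i + lf u w := by
  have h1 : ∀ j, ((Function.update w i n j : ℤ) : ℂ) * u j =
      w j * u j + if j = i then (n : ℂ) * u i else 0 := by
    intro j
    rcases eq_or_ne j i with rfl | hj
    · simp [hw]
    · simp [hj]
  simp only [lf, h1, Finset.sum_add_distrib, Finset.sum_ite_eq', Finset.mem_univ, if_true]
  ring

theorem zJ_symm (i : ι) {Z : Matrix ι ι ℂ} (hZ : Zᵀ = Z) : (zJ i Z)ᵀ = zJ i Z := by
  have hs : ∀ j k, Z j k = Z k j := fun j k => congrFun (congrFun hZ.symm j) k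
  ext j k
  rw [Matrix.transpose_apply]
  rcases eq_or_ne j i with rfl | hj
  · rcases eq_or_ne k j with rfl | hk
    · rfl
    · simp [zJ, hk, hs k j]
  · rcases eq_or_ne k i with rfl | hk
    · simp [zJ, hj, hs j k]
    · simp [zJ, hj, hk, hs j k, hs k i, hs j i]
      ring

theorem qf_zJ {Z : Matrix ι ι ℂ} (hZ : Zᵀ = Z) (i : ι) (w : ι → ℤ) (hw : w i = 0) :
    qf (zJ i Z) w = qf Z w - (∑ j, (w j : ℂ) * Z i j) ^ 2 / Z i i := by
  have hs : ∀ j k, Z j k = Z k j := fun j k => congrFun (congrFun hZ.symm j) k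
  have h1 : ∀ j k, (w j : ℂ) * w k * zJ i Z j k =
      (w j : ℂ) * w k * Z j k - (w j * Z i j) * (w k * Z i k) / Z i i := by
    intro j k
    rcases eq_or_ne j i with rfl | hj
    · simp [hw]
    · rcases eq_or_ne k i with rfl | hk
      · simp [hw]
      · simp only [zJ, hj, hk, if_false, hs j i]
        ring
  simp only [qf, h1, Finset.sum_sub_distrib]
  congr 1
  rw [sq, Finset.sum_mul_sum, Finset.sum_div]
  exact Finset.sum_congr rfl fun j _ => (Finset.sum_div _ _ _).symm

theorem lf_uJ (u : ι → ℂ) (Z : Matrix ι ι ℂ) (i : ι) (w : ι → ℤ) (hw : w i = 0) :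
    lf (uJ i Z u) w = lf u w - (∑ j, (w j : ℂ) * Z i j) * u i / Z i i := by
  have h1 : ∀ j, (w j : ℂ) * uJ i Z u j = w j * u j - (w j * Z i j) * u i / Z i i := by
    intro j
    rcases eq_or_ne j i with rfl | hj
    · simp [hw]
    · simp only [uJ, hj, if_false]
      ring
  simp only [lf, h1, Finset.sum_sub_distrib]
  congr 1
  rw [Finset.sum_mul, Finset.sum_div]

theorem sum_zJ (i : ι) (Z : Matrix ι ι ℂ) (w : ι → ℤ) (hw : w i = 0) :
    ∑ j, (w j : ℂ) * zJ i Z i j = (∑ j, (w j : ℂ) * Z i j) / Z i i := by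
  rw [Finset.sum_div]
  refine Finset.sum_congr rfl fun j _ => ?_
  rcases eq_or_ne j i with rfl | hj
  · simp [hw]
  · simp only [zJ, hj, if_false, if_true]
    ring

end

end Pool.CMH
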