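import Pool.Agent.Lib.CMH.P1Defs

/-!
Tank CMH (MP_938ce2_ag), row TH3 (helper29): `Sp(2g, ℤ)` is generated by the translations `n(B)`,
the matrices `m(A)` and the partial inversions `J_i`.
-/

set_option autoImplicit false

namespace Pool.CMH

open Matrix Finset

namespace TH3

variable {ι : Type} [Fintype ι] [DecidableEq ι]

/-- translation -/
def nn (B : Matrix ι ι ℤ) : Matrix (ι ⊕ ι) (ι ⊕ ι) ℤ := fromBlocks 1 B 0 1

/-- Levi element; `A'` is the inverse of `A` -/
def mm (A A' : Matrix ι ι ℤ) : Matrix (ι ⊕ ι) (ι ⊕ ι) ℤ := fromBlocks A 0 0 A'ᵀ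

/-- partial inversion in the coordinate `i`: `x_i ↦ - y_i`, `y_i ↦ x_i` -/
def jj (i : ι) : Matrix (ι ⊕ ι) (ι ⊕ ι) ℤ :=
  fromBlocks (1 - single i i 1) (-single i i 1) (single i i 1) (1 - single i i 1)

inductive Gen : Matrix (ι ⊕ ι) (ι ⊕ ι) ℤ → Prop
  | n (B : Matrix ι ι ℤ) (hB : Bᵀ = B) : Gen (nn B)
  | m (A A' : Matrix ι ι ℤ) (h : A * A' = 1) : Gen (mm A A')
  | j (i : ι) : Gen (jj i)
  | mul (M M' : Matrix (ι ⊕ ι) (ι ⊕ ι) ℤ) (h : Gen M) (h' : Gen M') : Gen (M * M')

theorem Gen.one : Gen (1 : Matrix (ι ⊕ ι) (ι ⊕ ι) ℤ) := by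
  have h := Gen.n (0 : Matrix ι ι ℤ) (by simp)
  rwa [nn, fromBlocks_one] at h

/-! ### action on vectors -/

theorem nn_mulVec (B : Matrix ι ι ℤ) (x y : ι → ℤ) :
    nn B *ᵥ Sum.elim x y = Sum.elim (x + B *ᵥ y) y := by
  rw [nn, fromBlocks_mulVec]
  simp

theorem mm_mulVec (A A' : Matrix ι ι ℤ) (x y : ι → ℤ) :
    mm A A' *ᵥ Sum.elim x y = Sum.elim (A *ᵥ x) (A'ᵀ *ᵥ y) := by
  rw [mm, fromBlocks_mulVec]
  simp

theorem single_mulVec' (i k : ι) (c : ℤ) (y : ι → ℤ) :
    single i k c *ᵥ y = Pi.single i (c * y k) := by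
  funext a
  rw [mulVec, dotProduct]
  by_cases h : a = i
  · subst h
    simp [single, Matrix.of_apply, ite_and]
  · simp [single, Matrix.of_apply, ite_and, h, Ne.symm h]

theorem jj_mulVec (i : ι) (x y : ι → ℤ) :
    jj i *ᵥ Sum.elim x y = Sum.elim (Function.update x i (-y i)) (Function.update y i (x i)) := by
  rw [jj, fromBlocks_mulVec]
  simp only [Sum.elim_comp_inl, Sum.elim_comp_inr, sub_mulVec, one_mulVec, neg_mulVec,
    single_mulVec']
  congr 1
  · funext a
    by_cases h : a = i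
    · subst h; simp
    · simp [h]
  · funext a
    by_cases h : a = i
    · subst h; simp
    · simp [h]

/-! ### fixing a hyperbolic pair -/

/-- `g` fixes `e_j` and `f_j` -/
def Fix (g : Matrix (ι ⊕ ι) (ι ⊕ ι) ℤ) (j : ι) : Prop :=
  g *ᵥ Sum.elim (Pi.single j (1 : ℤ) : ι → ℤ) (0 : ι → ℤ) =
      Sum.elim (Pi.single j (1 : ℤ) : ι → ℤ) (0 : ι → ℤ) ∧
    g *ᵥ Sum.elim (0 : ι → ℤ) (Pi.single j (1 : ℤ) : ι → ℤ) =
      Sum.elim (0 : ι → ℤ) (Pi.single j (1 : ℤ) : ι → ℤ)

theorem Fix.one (j : ι) : Fix 1 j := ⟨one_mulVec _, one_mulVec _⟩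

theorem Fix.mul {g g' : Matrix (ι ⊕ ι) (ι ⊕ ι) ℤ} {j : ι} (h : Fix g j) (h' : Fix g' j) :
    Fix (g * g') j := by
  constructor
  · rw [← mulVec_mulVec, h'.1, h.1]
  · rw [← mulVec_mulVec, h'.2, h.2]

theorem fix_nn (B : Matrix ι ι ℤ) (j : ι) (h : B *ᵥ Pi.single j 1 = 0) : Fix (nn B) j := by
  constructor
  · rw [nn_mulVec]; simp
  · rw [nn_mulVec, h]; simp

theorem fix_mm (A A' : Matrix ι ι ℤ) (j : ι) (h : A *ᵥ Pi.single j 1 = Pi.single j 1)
    (h' : A'ᵀ *ᵥ Pi.single j 1 = Pi.single j 1) : Fix (mm A A') j := by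
  constructor
  · rw [mm_mulVec, h]; simp
  · rw [mm_mulVec, h']; simp

theorem fix_jj {i j : ι} (h : j ≠ i) : Fix (jj i) j := by
  constructor
  · rw [jj_mulVec]
    congr 1
    · funext a
      by_cases ha : a = i
      · subst ha; simp [h.symm]
      · simp [ha]
    · funext a
      by_cases ha : a = i
      · subst ha; simp [h.symm]
      · simp [ha]
  · rw [jj_mulVec]
    congr 1
    · funext a
      by_cases ha : a = i
      · subst ha; simp [h.symm]
      · simp [ha]
    · funext a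
      by_cases ha : a = i
      · subst ha; simp [h.symm]
      · simp [ha]

/-! ### Lemma A: one plane -/
theorem lemA (i : ι) : ∀ (n : ℕ) (x y : ι → ℤ), (y i).natAbs ≤ n →
    ∃ g, Gen g ∧ (∀ j, j ≠ i → Fix g j) ∧
      ∃ a : ℤ, g *ᵥ Sum.elim x y = Sum.elim (Function.update x i a) (Function.update y i 0) := by
  intro n
  induction n with
  | zero =>
    intro x y h
    refine ⟨1, Gen.one, fun j _ => Fix.one j, x i, ?_⟩
    have h0 : y i = 0 := by omega
    rw [one_mulVec, Function.update_eq_self, ← h0, Function.update_eq_self]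
  | succ n ih =>
    intro x y h
    by_cases h0 : y i = 0
    · refine ⟨1, Gen.one, fun j _ => Fix.one j, x i, ?_⟩
      rw [one_mulVec, Function.update_eq_self, ← h0, Function.update_eq_self]
    · set q := x i / y i with hq
      set x' : ι → ℤ := Function.update x i (-y i) with hx'
      set y' : ι → ℤ := Function.update y i (x i % y i) with hy'
      have hlt : (y' i).natAbs ≤ n := by
        rw [hy', Function.update_self]
        have h1 := Int.emod_nonneg (x i) h0
        have h2 := Int.emod_lt_abs (x i) h0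
        rw [← Int.natCast_natAbs] at h2
        omega
      obtain ⟨g, hg, hfix, a, ha⟩ := ih x' y' hlt
      refine ⟨g * (jj i * nn (single i i (-q))), Gen.mul _ _ hg (Gen.mul _ _ (Gen.j i) (Gen.n _ ?_)),
        ?_, a, ?_⟩
      · simp
      · intro j hj
        refine (hfix j hj).mul ((fix_jj hj).mul (fix_nn _ _ ?_))
        rw [single_mulVec']
        simp [hj]
      · rw [← mulVec_mulVec, ← mulVec_mulVec, nn_mulVec, jj_mulVec, single_mulVec']
        have e1 : Function.update (x + Pi.single i (-q * y i)) i (-y i) = x' := by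
          funext b
          by_cases hb : b = i
          · subst hb; simp [hx']
          · simp [hx', hb]
        have e2 : Function.update y i ((x + (Pi.single i (-q * y i) : ι → ℤ)) i) = y' := by
          funext b
          by_cases hb : b = i
          · subst hb
            simp only [hy', Function.update_self, Pi.add_apply, Pi.single_eq_same]
            have := Int.emod_add_mul_ediv (x b) (y b)
            rw [hq]
            linarith [this, mul_comm (x b / y b) (y b)]
          · simp [hy', hb]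
        rw [e1, e2, ha]
        congr 1
        · rw [hx', Function.update_idem]
        · rw [hy', Function.update_idem]

theorem lemA' (T : Finset ι) : ∀ (x y : ι → ℤ),
    ∃ g, Gen g ∧ (∀ j, j ∉ T → Fix g j) ∧
      ∃ x' y' : ι → ℤ, g *ᵥ Sum.elim x y = Sum.elim x' y' ∧ (∀ j, j ∉ T → x' j = x j ∧ y' j = y j) ∧
        ∀ j ∈ T, y' j = 0 := by
  classical
  induction T using Finset.induction_on with
  | empty =>
    intro x y
    exact ⟨1, Gen.one, fun j _ => Fix.one j, x, y, one_mulVec _, fun j _ => ⟨rfl, rfl⟩, by simp⟩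
  | insert i T hi ih =>
    intro x y
    obtain ⟨g, hg, hf, x', y', h1, h2, h3⟩ := ih x y
    obtain ⟨g', hg', hf', a, h4⟩ := lemA i _ x' y' le_rfl
    refine ⟨g' * g, Gen.mul _ _ hg' hg, ?_, Function.update x' i a, Function.update y' i 0, ?_, ?_, ?_⟩
    · intro j hj
      rw [Finset.mem_insert, not_or] at hj
      exact (hf' j hj.1).mul (hf j hj.2)
    · rw [← mulVec_mulVec, h1, h4]
    · intro j hj
      rw [Finset.mem_insert, not_or] at hj
      rw [Function.update_of_ne hj.1, Function.update_of_ne hj.1]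
      exact h2 j hj.2
    · intro j hj
      by_cases hji : j = i
      · subst hji; simp
      · rw [Function.update_of_ne hji]
        exact h3 j (Finset.mem_of_mem_insert_of_ne hj hji)

/-! ### Lemma B: two coordinates of `x` -/
theorem single_sq_zero {k i : ι} (hki : k ≠ i) (c c' : ℤ) :
    single k i c * single k i c' = (0 : Matrix ι ι ℤ) := by
  rw [Matrix.single_mul_single_of_ne _ _ _ _ hki.symm]

theorem lemB : ∀ (n : ℕ) (k i : ι) (x : ι → ℤ), k ≠ i → (x i).natAbs ≤ n →
    ∃ g, Gen g ∧ (∀ j, j ≠ k → j ≠ i → Fix g j) ∧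
      ∃ a : ℤ, g *ᵥ Sum.elim x (0 : ι → ℤ) =
        Sum.elim (Function.update (Function.update x k a) i 0) (0 : ι → ℤ) := by
  intro n
  induction n with
  | zero =>
    intro k i x hki h
    refine ⟨1, Gen.one, fun j _ _ => Fix.one j, x k, ?_⟩
    have h0 : x i = 0 := by omega
    rw [one_mulVec, Function.update_eq_self, ← h0, Function.update_eq_self]
  | succ n ih =>
    intro k i x hki h
    by_cases h0 : x i = 0
    · refine ⟨1, Gen.one, fun j _ _ => Fix.one j, x k, ?_⟩
      rw [one_mulVec, Function.update_eq_self, ← h0, Function.update_eq_self]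
    · set q := x k / x i with hq
      set x' : ι → ℤ := Function.update (Function.update x k (x i)) i (x k % x i) with hx'
      have hlt : (x' i).natAbs ≤ n := by
        rw [hx', Function.update_self]
        have h1 := Int.emod_nonneg (x k) h0
        have h2 := Int.emod_lt_abs (x k) h0
        rw [← Int.natCast_natAbs] at h2
        omega
      obtain ⟨g, hg, hfix, a, ha⟩ := ih k i x' hki hlt
      have hsw : (Equiv.swap k i).permMatrix ℤ * (Equiv.swap k i).permMatrix ℤ = 1 := by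
        rw [← permMatrix_mul, Equiv.swap_mul_self, permMatrix_one]
      have hel : (1 + single k i (-q)) * (1 + single k i q) = (1 : Matrix ι ι ℤ) := by
        rw [Matrix.add_mul, Matrix.mul_add, Matrix.mul_add, single_sq_zero hki, Matrix.mul_one,
          Matrix.mul_one, Matrix.one_mul, add_zero, add_assoc, ← Matrix.single_add, add_neg_cancel]
        simp
      refine ⟨g * (mm _ _ * mm _ _), Gen.mul _ _ hg (Gen.mul _ _ (Gen.m _ _ hsw) (Gen.m _ _ hel)),
        ?_, a, ?_⟩
      · intro j hjk hji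
        refine (hfix j hjk hji).mul ((fix_mm _ _ _ ?_ ?_).mul (fix_mm _ _ _ ?_ ?_))
        · rw [permMatrix_mulVec]
          funext b
          simp only [Function.comp_apply]
          by_cases hb : b = j
          · subst hb; rw [Equiv.swap_apply_of_ne_of_ne hjk hji]
          · rw [Pi.single_eq_of_ne hb, Pi.single_eq_of_ne]
            intro hc
            apply hb
            have := congrArg (Equiv.swap k i) hc
            rw [Equiv.swap_apply_self, Equiv.swap_apply_of_ne_of_ne hjk hji] at this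
            exact this
        · rw [transpose_permMatrix, Equiv.swap_inv, permMatrix_mulVec]
          funext b
          simp only [Function.comp_apply]
          by_cases hb : b = j
          · subst hb; rw [Equiv.swap_apply_of_ne_of_ne hjk hji]
          · rw [Pi.single_eq_of_ne hb, Pi.single_eq_of_ne]
            intro hc
            apply hb
            have := congrArg (Equiv.swap k i) hc
            rw [Equiv.swap_apply_self, Equiv.swap_apply_of_ne_of_ne hjk hji] at this
            exact this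
        · rw [add_mulVec, one_mulVec, single_mulVec']
          simp [hji.symm]
        · rw [transpose_add, transpose_one, transpose_single, add_mulVec, one_mulVec,
            single_mulVec']
          simp [hjk.symm]
      · rw [← mulVec_mulVec, ← mulVec_mulVec, mm_mulVec, mm_mulVec, add_mulVec, one_mulVec,
          single_mulVec', permMatrix_mulVec, Matrix.mulVec_zero, Matrix.mulVec_zero]
        have e1 : (x + (Pi.single k (-q * x i) : ι → ℤ)) ∘ (Equiv.swap k i) = x' := by
          funext b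
          simp only [Function.comp_apply, Pi.add_apply, hx']
          by_cases hb : b = i
          · subst hb
            rw [Equiv.swap_apply_right, Pi.single_eq_same, Function.update_self]
            have := Int.emod_add_mul_ediv (x k) (x b)
            rw [hq]
            linarith [this, mul_comm (x k / x b) (x b)]
          · by_cases hb' : b = k
            · subst hb'
              rw [Equiv.swap_apply_left, Pi.single_eq_of_ne hki.symm, Function.update_of_ne hki,
                Function.update_self, add_zero]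
            · rw [Equiv.swap_apply_of_ne_of_ne hb' hb, Pi.single_eq_of_ne hb',
                Function.update_of_ne hb, Function.update_of_ne hb', add_zero]
        rw [e1, ha, hx']
        congr 1
        funext b
        by_cases hb : b = i
        · subst hb; simp
        · by_cases hb' : b = k
          · subst hb'
            simp [hb]
          · simp [hb, hb']

theorem lemB' (k : ι) (T : Finset ι) : k ∉ T → ∀ (x : ι → ℤ),
    ∃ g, Gen g ∧ (∀ j, j ≠ k → j ∉ T → Fix g j) ∧
      ∃ x' : ι → ℤ, g *ᵥ Sum.elim x (0 : ι → ℤ) = Sum.elim x' (0 : ι → ℤ) ∧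
        (∀ j, j ≠ k → j ∉ T → x' j = x j) ∧ ∀ j ∈ T, x' j = 0 := by
  classical
  induction T using Finset.induction_on with
  | empty =>
    intro _ x
    exact ⟨1, Gen.one, fun j _ _ => Fix.one j, x, one_mulVec _, fun j _ _ => rfl, by simp⟩
  | insert i T hi ih =>
    intro hk x
    rw [Finset.mem_insert, not_or] at hk
    obtain ⟨g, hg, hf, x', h1, h2, h3⟩ := ih hk.2 x
    obtain ⟨g', hg', hf', a, h4⟩ := lemB _ k i x' hk.1 le_rfl
    refine ⟨g' * g, Gen.mul _ _ hg' hg, ?_, Function.update (Function.update x' k a) i 0, ?_, ?_, ?_⟩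
    · intro j hj hj'
      rw [Finset.mem_insert, not_or] at hj'
      exact (hf' j hj hj'.1).mul (hf j hj hj'.2)
    · rw [← mulVec_mulVec, h1, h4]
    · intro j hj hj'
      rw [Finset.mem_insert, not_or] at hj'
      rw [Function.update_of_ne hj'.1, Function.update_of_ne hj]
      exact h2 j hj hj'.2
    · intro j hj
      by_cases hji : j = i
      · subst hji; simp
      · have hjT := Finset.mem_of_mem_insert_of_ne hj hji
        have hjk : j ≠ k := fun h => hk.2 (h ▸ hjT)
        rw [Function.update_of_ne hji, Function.update_of_ne hjk]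
        exact h3 j hjT

/-! ### Lemma C: the partner of `e_k` -/
theorem vmv_mulVec (a b z : ι → ℤ) : vecMulVec a b *ᵥ z = (b ⬝ᵥ z) • a := by
  funext i
  simp only [mulVec, dotProduct, vecMulVec_apply, Pi.smul_apply, smul_eq_mul, Finset.sum_mul]
  exact Finset.sum_congr rfl fun j _ => by ring

theorem lemC (k : ι) (S : Finset ι) (hk : k ∉ S) (x y : ι → ℤ) (hy : y k = 1)
    (hS : ∀ j ∈ S, x j = 0 ∧ y j = 0) :
    ∃ g, Gen g ∧ (∀ j ∈ S, Fix g j) ∧
      g *ᵥ Sum.elim (Pi.single k (1 : ℤ) : ι → ℤ) (0 : ι → ℤ) =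
        Sum.elim (Pi.single k (1 : ℤ) : ι → ℤ) (0 : ι → ℤ) ∧
      g *ᵥ Sum.elim x y = Sum.elim (0 : ι → ℤ) (Pi.single k (1 : ℤ) : ι → ℤ) := by
  classical
  set e : ι → ℤ := Pi.single k 1 with he
  have hek : e k = 1 := by simp [he]
  set A : Matrix ι ι ℤ := 1 + vecMulVec e (y - e) with hA
  set A' : Matrix ι ι ℤ := 1 - vecMulVec e (y - e) with hA'
  have hd : (y - e) ⬝ᵥ e = 0 := by
    rw [he, dotProduct_single]
    simp [hy]
  have hsq : vecMulVec e (y - e) * vecMulVec e (y - e) = 0 := by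
    rw [vecMulVec_mul_vecMulVec, hd]
    simp
  have hAA : A * A' = 1 := by
    rw [hA, hA', Matrix.add_mul, Matrix.mul_sub, Matrix.mul_sub, hsq, Matrix.one_mul,
      Matrix.one_mul, Matrix.mul_one]
    abel
  have hAe : A *ᵥ e = e := by
    rw [hA, add_mulVec, one_mulVec, vmv_mulVec, hd, zero_smul, add_zero]
  have hA't : A'ᵀ = 1 - vecMulVec (y - e) e := by
    rw [hA', transpose_sub, transpose_one]
    congr 1
    ext i j
    simp [vecMulVec_apply, mul_comm]
  have hA'y : A'ᵀ *ᵥ y = e := by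
    rw [hA't, sub_mulVec, one_mulVec, vmv_mulVec]
    have : e ⬝ᵥ y = 1 := by rw [he, single_dotProduct]; simp [hy]
    rw [this, one_smul]
    abel
  set x₁ : ι → ℤ := A *ᵥ x with hx₁
  have hx₁S : ∀ j ∈ S, x₁ j = 0 := by
    intro j hj
    have hjk : j ≠ k := fun h => hk (h ▸ hj)
    rw [hx₁, hA, add_mulVec, one_mulVec, vmv_mulVec]
    simp [he, hjk, (hS j hj).1]
  set B : Matrix ι ι ℤ := -(vecMulVec x₁ e + vecMulVec e x₁) + x₁ k • vecMulVec e e with hB
  have hBt : Bᵀ = B := by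
    rw [hB]
    ext i j
    simp only [transpose_apply, Matrix.add_apply, Matrix.neg_apply, Matrix.smul_apply,
      vecMulVec_apply, smul_eq_mul]
    ring
  have hee : e ⬝ᵥ e = 1 := by rw [he, single_dotProduct]; simp
  have hxe : x₁ ⬝ᵥ e = x₁ k := by rw [he, dotProduct_single]; simp
  have hBe : B *ᵥ e = -x₁ := by
    rw [hB, add_mulVec, neg_mulVec, add_mulVec, smul_mulVec, vmv_mulVec, vmv_mulVec, vmv_mulVec,
      hee, hxe]
    simp
  refine ⟨nn B * mm A A', Gen.mul _ _ (Gen.n B hBt) (Gen.m A A' hAA), ?_, ?_, ?_⟩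
  · intro j hj
    have hjk : j ≠ k := fun h => hk (h ▸ hj)
    have hej : e ⬝ᵥ (Pi.single j 1 : ι → ℤ) = 0 := by
      rw [dotProduct_single]; simp [he, hjk]
    refine (fix_nn _ _ ?_).mul (fix_mm _ _ _ ?_ ?_)
    · rw [hB, add_mulVec, neg_mulVec, add_mulVec, smul_mulVec, vmv_mulVec, vmv_mulVec, vmv_mulVec,
        hej, dotProduct_single, hx₁S j hj]
      simp
    · rw [hA, add_mulVec, one_mulVec, vmv_mulVec, dotProduct_single]
      simp [he, hjk, (hS j hj).2]
    · rw [hA't, sub_mulVec, one_mulVec, vmv_mulVec, hej]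
      simp
  · rw [← mulVec_mulVec, mm_mulVec, hAe, Matrix.mulVec_zero, nn_mulVec, Matrix.mulVec_zero,
      add_zero]
  · rw [← mulVec_mulVec, mm_mulVec, hA'y, ← hx₁, nn_mulVec, hBe]
    simp

/-! ### inverses -/
theorem jj_pow : jj (ι := ι) = jj := rfl

theorem ext_of_fix {M : Matrix (ι ⊕ ι) (ι ⊕ ι) ℤ} (h : ∀ j, Fix M j) : M = 1 := by
  apply Matrix.ext_of_mulVec_single
  intro c
  rw [one_mulVec]
  rcases c with j | j
  · have := (h j).1
    have e : (Sum.elim (Pi.single j (1 : ℤ) : ι → ℤ) (0 : ι → ℤ)) = Pi.single (Sum.inl j) 1 := by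
      funext a
      rcases a with a | a
      · by_cases hh : a = j
        · subst hh; simp
        · simp [hh]
      · simp
    rwa [e] at this
  · have := (h j).2
    have e : (Sum.elim (0 : ι → ℤ) (Pi.single j (1 : ℤ) : ι → ℤ)) = Pi.single (Sum.inr j) 1 := by
      funext a
      rcases a with a | a
      · simp
      · by_cases hh : a = j
        · subst hh; simp
        · simp [hh]
    rwa [e] at this

theorem jj4 (i : ι) : (jj i * jj i * jj i) * jj i = (1 : Matrix (ι ⊕ ι) (ι ⊕ ι) ℤ) := by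
  apply ext_of_fix
  intro j
  constructor
  · simp only [← mulVec_mulVec, jj_mulVec]
    congr 1
    · funext a
      by_cases h : a = i
      · subst h; simp
      · simp [h]
    · funext a
      by_cases h : a = i
      · subst h; simp
      · simp [h]
  · simp only [← mulVec_mulVec, jj_mulVec]
    congr 1
    · funext a
      by_cases h : a = i
      · subst h; simp
      · simp [h]
    · funext a
      by_cases h : a = i
      · subst h; simp
      · simp [h]

theorem Gen.exists_inv {g : Matrix (ι ⊕ ι) (ι ⊕ ι) ℤ} (h : Gen g) : ∃ g', Gen g' ∧ g' * g = 1 := by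
  induction h with
  | n B hB =>
    refine ⟨nn (-B), Gen.n _ (by rw [transpose_neg, hB]), ?_⟩
    rw [nn, nn, fromBlocks_multiply, ← fromBlocks_one]
    congr 1 <;> simp
  | m A A' hA =>
    have hA' : A' * A = 1 := mul_eq_one_comm.mp hA
    refine ⟨mm A' A, Gen.m _ _ hA', ?_⟩
    rw [mm, mm, fromBlocks_multiply, ← fromBlocks_one]
    congr 1
    · simpa using hA'
    · simp
    · simp
    · rw [Matrix.zero_mul, zero_add, ← transpose_mul, hA', transpose_one]
  | j i => exact ⟨jj i * jj i * jj i, Gen.mul _ _ (Gen.mul _ _ (Gen.j i) (Gen.j i)) (Gen.j i), jj4 i⟩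
  | mul M M' _ _ ih ih' =>
    obtain ⟨a, ha, ha1⟩ := ih
    obtain ⟨b, hb, hb1⟩ := ih'
    refine ⟨b * a, Gen.mul _ _ hb ha, ?_⟩
    rw [Matrix.mul_assoc, ← Matrix.mul_assoc a, ha1, Matrix.one_mul, hb1]

/-! ### the symplectic form -/
theorem nn_mem {B : Matrix ι ι ℤ} (hB : Bᵀ = B) : nn B ∈ symplecticGroup ι ℤ := by
  rw [nn, SymplecticGroup.fromBlocks_mem_iff]
  simp [hB]

theorem mm_mem {A A' : Matrix ι ι ℤ} (h : A * A' = 1) : mm A A' ∈ symplecticGroup ι ℤ := by
  rw [mm, SymplecticGroup.fromBlocks_mem_iff]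
  refine ⟨by simp, by simp, ?_⟩
  rw [transpose_zero, Matrix.zero_mul, sub_zero, ← transpose_mul, mul_eq_one_comm.mp h,
    transpose_one]

theorem jj_mem (i : ι) : jj i ∈ symplecticGroup ι ℤ := by
  rw [jj, SymplecticGroup.fromBlocks_mem_iff]
  refine ⟨?_, ?_, ?_⟩
  · simp [Matrix.sub_mul, Matrix.mul_sub]
  · simp [Matrix.sub_mul, Matrix.mul_sub]
  · simp [Matrix.sub_mul, Matrix.mul_sub]

theorem Gen.mem {g : Matrix (ι ⊕ ι) (ι ⊕ ι) ℤ} (h : Gen g) : g ∈ symplecticGroup ι ℤ := by
  induction h with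
  | n B hB => exact nn_mem hB
  | m A A' hA => exact mm_mem hA
  | j i => exact jj_mem i
  | mul M M' _ _ ih ih' => exact Submonoid.mul_mem _ ih ih'

/-- the symplectic form -/
def sf (v w : ι ⊕ ι → ℤ) : ℤ := ∑ i, (v (Sum.inl i) * w (Sum.inr i) - v (Sum.inr i) * w (Sum.inl i))

theorem sf_eq (v w : ι ⊕ ι → ℤ) : sf v w = -(v ⬝ᵥ (Matrix.J ι ℤ *ᵥ w)) := by
  rw [Matrix.J, fromBlocks_mulVec, dotProduct, Fintype.sum_sum_type]
  simp only [sf, Sum.elim_inl, Sum.elim_inr, zero_mulVec, neg_mulVec, one_mulVec, add_zero, zero_add,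
    Pi.neg_apply, Function.comp_apply]
  rw [Finset.sum_sub_distrib]
  simp
  ring

theorem sf_mulVec {M : Matrix (ι ⊕ ι) (ι ⊕ ι) ℤ} (hM : M ∈ symplecticGroup ι ℤ) (v w : ι ⊕ ι → ℤ) :
    sf (M *ᵥ v) (M *ᵥ w) = sf v w := by
  rw [sf_eq, sf_eq]
  congr 1
  have h := SymplecticGroup.mem_iff'.mp hM
  calc (M *ᵥ v) ⬝ᵥ (J ι ℤ *ᵥ (M *ᵥ w)) = v ⬝ᵥ (Mᵀ *ᵥ (J ι ℤ *ᵥ (M *ᵥ w))) := by
        rw [dotProduct_mulVec v, vecMul_transpose]
    _ = v ⬝ᵥ ((Mᵀ * J ι ℤ * M) *ᵥ w) := by
        rw [mulVec_mulVec, mulVec_mulVec]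
    _ = v ⬝ᵥ (J ι ℤ *ᵥ w) := by rw [h]

/-- basis vectors -/
abbrev ee' (j : ι) : ι ⊕ ι → ℤ := Sum.elim (Pi.single j (1 : ℤ) : ι → ℤ) (0 : ι → ℤ)
abbrev ff' (j : ι) : ι ⊕ ι → ℤ := Sum.elim (0 : ι → ℤ) (Pi.single j (1 : ℤ) : ι → ℤ)

theorem sf_e (j : ι) (w : ι ⊕ ι → ℤ) : sf (ee' j) w = w (Sum.inr j) := by
  simp [sf, Pi.single_apply]

theorem sf_f (j : ι) (w : ι ⊕ ι → ℤ) : sf (ff' j) w = -w (Sum.inl j) := by
  simp [sf, Pi.single_apply]

theorem sf_e' (j : ι) (w : ι ⊕ ι → ℤ) : sf w (ee' j) = -w (Sum.inr j) := by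
  simp [sf, Pi.single_apply]

theorem sf_f' (j : ι) (w : ι ⊕ ι → ℤ) : sf w (ff' j) = w (Sum.inl j) := by
  simp [sf, Pi.single_apply]

/-- one more hyperbolic pair -/
theorem step {M : Matrix (ι ⊕ ι) (ι ⊕ ι) ℤ} (hM : M ∈ symplecticGroup ι ℤ) (S : Finset ι) (k : ι)
    (hk : k ∉ S) (hS : ∀ j ∈ S, Fix M j) :
    ∃ g, Gen g ∧ (∀ j ∈ S, Fix g j) ∧ Fix (g * M) k := by
  classical
  have hne : ∀ j ∈ S, j ≠ k := fun j hj h => hk (h ▸ hj)
  -- the first column
  set v : ι ⊕ ι → ℤ := M *ᵥ ee' k with hv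
  set x : ι → ℤ := v ∘ Sum.inl with hx
  set y : ι → ℤ := v ∘ Sum.inr with hy
  have hvxy : Sum.elim x y = v := by rw [hx, hy, Sum.elim_comp_inl_inr]
  have hx0 : ∀ j ∈ S, x j = 0 := by
    intro j hj
    have h1 := sf_mulVec hM (ee' k) (ff' j)
    rw [(hS j hj).2, ← hv, sf_f', sf_f'] at h1
    rw [hx, Function.comp_apply, h1]
    simp [hne j hj]
  have hy0 : ∀ j ∈ S, y j = 0 := by
    intro j hj
    have h1 := sf_mulVec hM (ee' k) (ee' j)
    rw [(hS j hj).1, ← hv, sf_e', sf_e'] at h1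
    rw [hy, Function.comp_apply]
    simpa using h1
  obtain ⟨g₁, hg₁, hf₁, x₁, y₁, h11, h12, h13⟩ := lemA' (Sᶜ) x y
  have hy₁ : y₁ = 0 := by
    funext j
    by_cases hj : j ∈ S
    · have h2 := (h12 j (by simpa using hj)).2
      rw [h2, hy0 j hj]; rfl
    · exact h13 j (by simpa using hj)
  rw [hy₁] at h11
  obtain ⟨g₂, hg₂, hf₂, x₂, h21, h22, h23⟩ := lemB' k ((insert k S)ᶜ) (by simp) x₁
  set c : ℤ := x₂ k with hc
  have hx₂ : x₂ = Pi.single k c := by
    funext j
    by_cases hjk : j = k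
    · subst hjk; simp [hc]
    · rw [Pi.single_eq_of_ne hjk]
      by_cases hj : j ∈ S
      · rw [h22 j hjk (by simp [hj]), (h12 j (by simpa using hj)).1, hx0 j hj]
      · exact h23 j (by simp [hj, hjk])
  rw [hx₂] at h21
  set N := g₂ * (g₁ * M) with hN
  have hNm : N ∈ symplecticGroup ι ℤ :=
    Submonoid.mul_mem _ hg₂.mem (Submonoid.mul_mem _ hg₁.mem hM)
  have hNe : N *ᵥ ee' k = Sum.elim (Pi.single k c : ι → ℤ) (0 : ι → ℤ) := by
    rw [hN, ← mulVec_mulVec, ← mulVec_mulVec, ← hv, ← hvxy, h11, h21]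
  have hcu : c * (N *ᵥ ff' k) (Sum.inr k) = 1 := by
    have h1 := sf_mulVec hNm (ee' k) (ff' k)
    rw [hNe, sf_e] at h1
    have h2 : sf (Sum.elim (Pi.single k c : ι → ℤ) (0 : ι → ℤ)) (N *ᵥ ff' k) =
        c * (N *ᵥ ff' k) (Sum.inr k) := by
      simp [sf, Pi.single_apply]
    rw [h2] at h1
    rw [h1]
    simp
  have hcc : c * c = 1 := by
    rcases Int.isUnit_iff.mp (IsUnit.of_mul_eq_one _ hcu) with h | h <;> rw [h] <;> norm_num
  have hAA : (1 + single k k (c - 1)) * (1 + single k k (c - 1)) = (1 : Matrix ι ι ℤ) := by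
    rw [Matrix.add_mul, Matrix.mul_add, Matrix.mul_add, Matrix.single_mul_single_same,
      Matrix.mul_one, Matrix.mul_one, Matrix.one_mul, add_assoc, ← Matrix.single_add,
      ← Matrix.single_add]
    have : c - 1 + (c - 1 + (c - 1) * (c - 1)) = 0 := by linear_combination hcc
    rw [this]
    simp
  set g₃ := mm (1 + single k k (c - 1)) (1 + single k k (c - 1)) with hg₃
  have hG₃ : Gen g₃ := Gen.m _ _ hAA
  set N' := g₃ * N with hN'
  have hN'm : N' ∈ symplecticGroup ι ℤ := Submonoid.mul_mem _ hG₃.mem hNm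
  have hN'e : N' *ᵥ ee' k = ee' k := by
    rw [hN', ← mulVec_mulVec, hNe, hg₃, mm_mulVec, Matrix.mulVec_zero, add_mulVec, one_mulVec,
      single_mulVec']
    congr 1
    funext j
    by_cases hjk : j = k
    · subst hjk
      simp only [Pi.add_apply, Pi.single_eq_same]
      linear_combination hcc
    · simp [hjk]
  have hfixg : ∀ j ∈ S, Fix (g₃ * (g₂ * g₁)) j := by
    intro j hj
    refine Fix.mul (fix_mm _ _ _ ?_ ?_) (Fix.mul (hf₂ j (hne j hj) ?_) (hf₁ j ?_))
    · rw [add_mulVec, one_mulVec, single_mulVec']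
      simp [(hne j hj).symm]
    · rw [transpose_add, transpose_one, transpose_single, add_mulVec, one_mulVec, single_mulVec']
      simp [(hne j hj).symm]
    · simp [hj]
    · simpa using hj
  have hN'S : ∀ j ∈ S, Fix N' j := by
    intro j hj
    have := (hfixg j hj).mul (hS j hj)
    rwa [Matrix.mul_assoc, Matrix.mul_assoc, ← hN, ← hN'] at this
  -- the partner
  set w : ι ⊕ ι → ℤ := N' *ᵥ ff' k with hw
  have hwxy : Sum.elim (w ∘ Sum.inl) (w ∘ Sum.inr) = w := Sum.elim_comp_inl_inr w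
  have hwk : (w ∘ Sum.inr) k = 1 := by
    have h1 := sf_mulVec hN'm (ee' k) (ff' k)
    rw [hN'e, ← hw, sf_e, sf_e] at h1
    rw [Function.comp_apply, h1]
    simp
  have hwS : ∀ j ∈ S, (w ∘ Sum.inl) j = 0 ∧ (w ∘ Sum.inr) j = 0 := by
    intro j hj
    have h1 := sf_mulVec hN'm (ff' j) (ff' k)
    have h2 := sf_mulVec hN'm (ee' j) (ff' k)
    rw [(hN'S j hj).2, ← hw, sf_f, sf_f] at h1
    rw [(hN'S j hj).1, ← hw, sf_e, sf_e] at h2
    constructor
    · rw [Function.comp_apply]
      simpa using h1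
    · rw [Function.comp_apply, h2]
      simp [hne j hj]
  obtain ⟨g₄, hg₄, hf₄, h41, h42⟩ := lemC k S hk _ _ hwk hwS
  refine ⟨g₄ * (g₃ * (g₂ * g₁)), Gen.mul _ _ hg₄ (Gen.mul _ _ hG₃ (Gen.mul _ _ hg₂ hg₁)), ?_, ?_⟩
  · intro j hj
    exact (hf₄ j hj).mul (hfixg j hj)
  · have e : g₄ * (g₃ * (g₂ * g₁)) * M = g₄ * N' := by
      rw [hN', hN]
      simp only [Matrix.mul_assoc]
    rw [e]
    constructor
    · rw [← mulVec_mulVec, hN'e, h41]
    · rw [← mulVec_mulVec, ← hw, ← hwxy, h42]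

theorem reduce {M : Matrix (ι ⊕ ι) (ι ⊕ ι) ℤ} (hM : M ∈ symplecticGroup ι ℤ) (S : Finset ι) :
    ∃ g, Gen g ∧ ∀ j ∈ S, Fix (g * M) j := by
  classical
  induction S using Finset.induction_on with
  | empty => exact ⟨1, Gen.one, by simp⟩
  | insert k S hk ih =>
    obtain ⟨g, hg, hS⟩ := ih
    obtain ⟨g', hg', hf', hk'⟩ := step (Submonoid.mul_mem _ hg.mem hM) S k hk hS
    refine ⟨g' * g, Gen.mul _ _ hg' hg, ?_⟩
    intro j hj
    rw [Matrix.mul_assoc]
    rcases Finset.mem_insert.mp hj with h | h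
    · rw [h]; exact hk'
    · exact (hf' j h).mul (hS j h)

theorem gen_of_mem {M : Matrix (ι ⊕ ι) (ι ⊕ ι) ℤ} (hM : M ∈ symplecticGroup ι ℤ) : Gen M := by
  obtain ⟨g, hg, hf⟩ := reduce hM Finset.univ
  have h1 : g * M = 1 := ext_of_fix fun j => hf j (Finset.mem_univ j)
  obtain ⟨g', hg', h2⟩ := hg.exists_inv
  have : g' = M := by
    calc g' = g' * (g * M) := by rw [h1, Matrix.mul_one]
      _ = M := by rw [← Matrix.mul_assoc, h2, Matrix.one_mul]
  rwa [← this]

end TH3

variable {ι : Type} [Fintype ι] [DecidableEq ι]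

theorem nB_mem {B : Matrix ι ι ℤ} (hB : Bᵀ = B) : nB B ∈ symplecticGroup ι ℤ := TH3.nn_mem hB

theorem mA_eq {A A' : Matrix ι ι ℤ} (h : A * A' = 1) : mA A = TH3.mm A A' := by
  rw [mA, TH3.mm, Matrix.inv_eq_right_inv h]

theorem mA_mem {A : Matrix ι ι ℤ} (hA : IsUnit A.det) : mA A ∈ symplecticGroup ι ℤ := by
  have h : A * A⁻¹ = 1 := Matrix.mul_nonsing_inv _ hA
  rw [mA_eq h]
  exact TH3.mm_mem h

theorem jI_mem (i : ι) : jI i ∈ symplecticGroup ι ℤ := TH3.jj_mem i

theorem sp_gen (p : Matrix (ι ⊕ ι) (ι ⊕ ι) ℤ → Prop)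
    (hmul : ∀ M ∈ symplecticGroup ι ℤ, ∀ M' ∈ symplecticGroup ι ℤ, p M → p M' → p (M * M'))
    (hB : ∀ B : Matrix ι ι ℤ, Bᵀ = B → p (nB B))
    (hA : ∀ A : Matrix ι ι ℤ, IsUnit A.det → p (mA A))
    (hJ : ∀ i, p (jI i)) : ∀ M ∈ symplecticGroup ι ℤ, p M := by
  intro M hM
  have hG := TH3.gen_of_mem hM
  clear hM
  induction hG with
  | n B h => exact hB B h
  | m A A' h =>
    rw [← mA_eq h]
    refine hA A ?_
    have := congrArg Matrix.det h
    rw [Matrix.det_mul, Matrix.det_one] at this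
    exact IsUnit.of_mul_eq_one _ this
  | j i => exact hJ i
  | mul M M' h h' ih ih' => exact hmul M h.mem M' h'.mem ih ih'

end Pool.CMH
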