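import Pool.Agent.Lib.CMH.P1Defs

/-!
# TANK CMH, row TH5a: the integral symplectic group acts on the Siegel space (helper24)
-/

set_option autoImplicit false

namespace Pool.CMH

open Matrix Complex Real

noncomputable section

variable {ι : Type} [Fintype ι]

namespace TH5

/-- the cast of an integral matrix -/
def cst (x : Matrix ι ι ℤ) : Matrix ι ι ℂ := x.map (fun z : ℤ => (z : ℂ))

theorem cst_mul (x y : Matrix ι ι ℤ) : cst (x * y) = cst x * cst y := by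
  have := Matrix.map_mul (L := x) (M := y) (f := Int.castRingHom ℂ)
  simpa [cst] using this

omit [Fintype ι] in
theorem cst_transpose (x : Matrix ι ι ℤ) : cst xᵀ = (cst x)ᵀ := by
  ext i j; simp [cst]

omit [Fintype ι] in
theorem cst_add (x y : Matrix ι ι ℤ) : cst (x + y) = cst x + cst y := by
  ext i j; simp [cst]

omit [Fintype ι] in
theorem cst_one [DecidableEq ι] : cst (1 : Matrix ι ι ℤ) = 1 := by
  ext i j
  by_cases h : i = j
  · subst h; simp [cst]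
  · simp [cst, h]

omit [Fintype ι] in
theorem conj_cst (x : Matrix ι ι ℤ) : (cst x)ᴴ = (cst x)ᵀ := by
  ext i j
  simp [cst, Matrix.conjTranspose_apply]

variable [DecidableEq ι]

/-- relations between the blocks. -/
theorem rel {M : Matrix (ι ⊕ ι) (ι ⊕ ι) ℤ} (hg : M ∈ Matrix.symplecticGroup ι ℤ) :
    (bA M)ᵀ * bC M = (bC M)ᵀ * bA M ∧ (bB M)ᵀ * bD M = (bD M)ᵀ * bB M ∧
      (bA M)ᵀ * bD M = 1 + (bC M)ᵀ * bB M ∧ (bD M)ᵀ * bA M = 1 + (bB M)ᵀ * bC M := by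
  have h := SymplecticGroup.mem_iff'.1 hg
  set a := M.toBlocks₁₁ with ha
  set b := M.toBlocks₁₂ with hb
  set c := M.toBlocks₂₁ with hc
  set d := M.toBlocks₂₂ with hd
  have hgb : M = fromBlocks a b c d := (fromBlocks_toBlocks M).symm
  rw [hgb, Matrix.J, fromBlocks_transpose, fromBlocks_multiply, fromBlocks_multiply] at h
  obtain ⟨h1, h2, h3, h4⟩ := fromBlocks_inj.1 h
  simp only [Matrix.mul_zero, Matrix.mul_one, zero_add, Matrix.mul_neg, add_zero,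
    Matrix.neg_mul] at h1 h2 h3 h4
  have cast : ∀ {x y : Matrix ι ι ℤ}, x = y → cst x = cst y := fun h => by rw [h]
  have cm : ∀ x y : Matrix ι ι ℤ, cst (xᵀ * y) = (cst x)ᵀ * cst y := by
    intro x y
    rw [cst_mul, cst_transpose]
  refine ⟨?_, ?_, ?_, ?_⟩
  · have h5 : aᵀ * c = cᵀ * a := by
      rw [← sub_eq_zero, ← neg_eq_zero]
      rw [← h1]; abel
    have := cast h5
    rwa [cm, cm] at this
  · have h5 : bᵀ * d = dᵀ * b := by
      rw [← sub_eq_zero, ← neg_eq_zero]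
      rw [← h4]; abel
    have := cast h5
    rwa [cm, cm] at this
  · have h5 : aᵀ * d = 1 + cᵀ * b := by
      have h6 : -(cᵀ * b + -(aᵀ * d)) = 1 := by
        have : cᵀ * b + -(aᵀ * d) = -1 := h2
        rw [this, neg_neg]
      rw [← h6]; abel
    have := cast h5
    rwa [cm, cst_add, cm, cst_one] at this
  · have h5 : dᵀ * a = 1 + bᵀ * c := by
      rw [← h3]; abel
    have := cast h5
    rwa [cm, cst_add, cm, cst_one] at this

omit [DecidableEq ι] in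
/-- blocks of a product -/
theorem bl_mul (M M' : Matrix (ι ⊕ ι) (ι ⊕ ι) ℤ) :
    bA (M * M') = bA M * bA M' + bB M * bC M' ∧ bB (M * M') = bA M * bB M' + bB M * bD M' ∧
      bC (M * M') = bC M * bA M' + bD M * bC M' ∧ bD (M * M') = bC M * bB M' + bD M * bD M' := by
  have h : M * M' = fromBlocks M.toBlocks₁₁ M.toBlocks₁₂ M.toBlocks₂₁ M.toBlocks₂₂ *
      fromBlocks M'.toBlocks₁₁ M'.toBlocks₁₂ M'.toBlocks₂₁ M'.toBlocks₂₂ := by
    rw [fromBlocks_toBlocks, fromBlocks_toBlocks]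
  rw [fromBlocks_multiply] at h
  have e := fun (x y z w : Matrix ι ι ℤ) => (cst_add (x * y) (z * w)).trans
    (by rw [cst_mul, cst_mul] : cst (x * y) + cst (z * w) = cst x * cst y + cst z * cst w)
  refine ⟨?_, ?_, ?_, ?_⟩
  · have : (M * M').toBlocks₁₁ = M.toBlocks₁₁ * M'.toBlocks₁₁ + M.toBlocks₁₂ * M'.toBlocks₂₁ := by
      rw [h, toBlocks_fromBlocks₁₁]
    unfold bA
    rw [this]
    exact e _ _ _ _
  · have : (M * M').toBlocks₁₂ = M.toBlocks₁₁ * M'.toBlocks₁₂ + M.toBlocks₁₂ * M'.toBlocks₂₂ := by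
      rw [h, toBlocks_fromBlocks₁₂]
    unfold bB
    rw [this]
    exact e _ _ _ _
  · have : (M * M').toBlocks₂₁ = M.toBlocks₂₁ * M'.toBlocks₁₁ + M.toBlocks₂₂ * M'.toBlocks₂₁ := by
      rw [h, toBlocks_fromBlocks₂₁]
    unfold bC
    rw [this]
    exact e _ _ _ _
  · have : (M * M').toBlocks₂₂ = M.toBlocks₂₁ * M'.toBlocks₁₂ + M.toBlocks₂₂ * M'.toBlocks₂₂ := by
      rw [h, toBlocks_fromBlocks₂₂]
    unfold bD
    rw [this]
    exact e _ _ _ _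

omit [Fintype ι] [DecidableEq ι] in
theorem bC_conj (M : Matrix (ι ⊕ ι) (ι ⊕ ι) ℤ) : (bC M)ᴴ = (bC M)ᵀ := conj_cst _
omit [Fintype ι] [DecidableEq ι] in
theorem bD_conj (M : Matrix (ι ⊕ ι) (ι ⊕ ι) ℤ) : (bD M)ᴴ = (bD M)ᵀ := conj_cst _
omit [Fintype ι] [DecidableEq ι] in
theorem bA_conj (M : Matrix (ι ⊕ ι) (ι ⊕ ι) ℤ) : (bA M)ᴴ = (bA M)ᵀ := conj_cst _
omit [Fintype ι] [DecidableEq ι] in
theorem bB_conj (M : Matrix (ι ⊕ ι) (ι ⊕ ι) ℤ) : (bB M)ᴴ = (bB M)ᵀ := conj_cst _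

/-- `A Z + B` -/
def pz (M : Matrix (ι ⊕ ι) (ι ⊕ ι) ℤ) (Z : Matrix ι ι ℂ) : Matrix ι ι ℂ := bA M * Z + bB M

theorem key_sym {M : Matrix (ι ⊕ ι) (ι ⊕ ι) ℤ} (hM : M ∈ symplecticGroup ι ℤ)
    {Z : Matrix ι ι ℂ} (hZ : Zᵀ = Z) : (au M Z)ᵀ * pz M Z = (pz M Z)ᵀ * au M Z := by
  obtain ⟨r1, r2, r3, r4⟩ := rel hM
  have e1 : (au M Z)ᵀ * pz M Z = Z * ((bC M)ᵀ * bA M) * Z + Z * ((bC M)ᵀ * bB M) +
      ((bD M)ᵀ * bA M) * Z + (bD M)ᵀ * bB M := by
    unfold au pz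
    rw [transpose_add, transpose_mul, hZ]
    noncomm_ring
  have e2 : (pz M Z)ᵀ * au M Z = Z * ((bA M)ᵀ * bC M) * Z + Z * ((bA M)ᵀ * bD M) +
      ((bB M)ᵀ * bC M) * Z + (bB M)ᵀ * bD M := by
    unfold au pz
    rw [transpose_add, transpose_mul, hZ]
    noncomm_ring
  rw [e1, e2, r1, r2, r3, r4]
  noncomm_ring

theorem key_herm {M : Matrix (ι ⊕ ι) (ι ⊕ ι) ℤ} (hM : M ∈ symplecticGroup ι ℤ)
    (Z : Matrix ι ι ℂ) : (au M Z)ᴴ * pz M Z - (pz M Z)ᴴ * au M Z = Z - Zᴴ := by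
  obtain ⟨r1, r2, r3, r4⟩ := rel hM
  have e1 : (au M Z)ᴴ * pz M Z = Zᴴ * ((bC M)ᵀ * bA M) * Z + Zᴴ * ((bC M)ᵀ * bB M) +
      ((bD M)ᵀ * bA M) * Z + (bD M)ᵀ * bB M := by
    unfold au pz
    rw [conjTranspose_add, conjTranspose_mul, bC_conj, bD_conj]
    noncomm_ring
  have e2 : (pz M Z)ᴴ * au M Z = Zᴴ * ((bA M)ᵀ * bC M) * Z + Zᴴ * ((bA M)ᵀ * bD M) +
      ((bB M)ᵀ * bC M) * Z + (bB M)ᵀ * bD M := by
    unfold au pz
    rw [conjTranspose_add, conjTranspose_mul, bA_conj, bB_conj]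
    noncomm_ring
  rw [e1, e2, r1, r2, r3, r4]
  noncomm_ring

theorem key_inv {M : Matrix (ι ⊕ ι) (ι ⊕ ι) ℤ} (hM : M ∈ symplecticGroup ι ℤ)
    {Z : Matrix ι ι ℂ} (hZ : Zᵀ = Z) : (au M Z)ᵀ * bA M = 1 + (pz M Z)ᵀ * bC M := by
  obtain ⟨r1, r2, r3, r4⟩ := rel hM
  have e1 : (au M Z)ᵀ * bA M = Z * ((bC M)ᵀ * bA M) + (bD M)ᵀ * bA M := by
    unfold au
    rw [transpose_add, transpose_mul, hZ]
    noncomm_ring
  have e2 : (pz M Z)ᵀ * bC M = Z * ((bA M)ᵀ * bC M) + (bB M)ᵀ * bC M := by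
    unfold pz
    rw [transpose_add, transpose_mul, hZ]
    noncomm_ring
  rw [e1, e2, r1, r4]
  abel

omit [DecidableEq ι] in
/-- the hermitian form of `(Z - Zᴴ)` -/
theorem form_im {W : Matrix ι ι ℂ} (hW : Wᵀ = W) (v : ι → ℂ) :
    (star v ⬝ᵥ ((W - Wᴴ) *ᵥ v)).im = 2 * (∑ i, ∑ j, (v i).re * (v j).re * (W i j).im +
      ∑ i, ∑ j, (v i).im * (v j).im * (W i j).im) := by
  have hsym : ∀ i j, W j i = W i j := fun i j => congrFun (congrFun hW i) j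
  rw [← Finset.sum_add_distrib, Finset.mul_sum]
  simp only [dotProduct, mulVec, Complex.im_sum]
  refine Finset.sum_congr rfl fun i _ => ?_
  rw [← Finset.sum_add_distrib, Finset.mul_sum, Finset.mul_sum, Complex.im_sum]
  refine Finset.sum_congr rfl fun j _ => ?_
  rw [Matrix.sub_apply, conjTranspose_apply, hsym]
  simp only [Pi.star_apply, Complex.star_def, Complex.mul_im, Complex.mul_re, Complex.sub_re,
    Complex.sub_im, Complex.conj_re, Complex.conj_im]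
  ring

omit [DecidableEq ι] in
theorem form_pos {Z : Matrix ι ι ℂ} (hZ : Z ∈ Sieg ι) {v : ι → ℂ} (hv : v ≠ 0) :
    0 < (star v ⬝ᵥ ((Z - Zᴴ) *ᵥ v)).im := by
  rw [form_im hZ.1]
  have h0 : ∀ x : ι → ℝ, 0 ≤ ∑ i, ∑ j, x i * x j * (Z i j).im := by
    intro x
    by_cases hx : x = 0
    · subst hx; simp
    · exact (hZ.2 x hx).le
  have h1 := h0 fun i => (v i).re
  have h2 := h0 fun i => (v i).im
  by_cases hr : (fun i => (v i).re) = 0
  · have hi : (fun i => (v i).im) ≠ 0 := by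
      intro hi
      apply hv
      funext i
      exact Complex.ext (congrFun hr i) (congrFun hi i)
    have h3 := hZ.2 _ hi
    linarith
  · have h3 := hZ.2 _ hr
    linarith

end TH5

variable [DecidableEq ι]

open TH5

theorem au_isUnit {M : Matrix (ι ⊕ ι) (ι ⊕ ι) ℤ} (hM : M ∈ symplecticGroup ι ℤ)
    {Z : Matrix ι ι ℂ} (hZ : Z ∈ Sieg ι) : IsUnit (au M Z).det := by
  rw [isUnit_iff_ne_zero]
  intro h0
  obtain ⟨v, hv, hQ⟩ := Matrix.exists_mulVec_eq_zero_iff.2 h0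
  have h1 := form_pos hZ hv
  rw [← key_herm hM Z, sub_mulVec, dotProduct_sub, ← mulVec_mulVec, ← mulVec_mulVec,
    dotProduct_mulVec, ← star_mulVec, hQ] at h1
  simp at h1

theorem mv_mem {M : Matrix (ι ⊕ ι) (ι ⊕ ι) ℤ} (hM : M ∈ symplecticGroup ι ℤ)
    {Z : Matrix ι ι ℂ} (hZ : Z ∈ Sieg ι) : mv M Z ∈ Sieg ι := by
  have hu := au_isUnit hM hZ
  have hQ : au M Z * (au M Z)⁻¹ = 1 := Matrix.mul_nonsing_inv _ hu
  have hQ' : (au M Z)⁻¹ * au M Z = 1 := Matrix.nonsing_inv_mul _ hu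
  have hsym : (mv M Z)ᵀ = mv M Z := by
    have h1 := key_sym hM hZ.1
    have h2 : ((au M Z)⁻¹)ᵀ * (au M Z)ᵀ = 1 := by rw [← transpose_mul, hQ, transpose_one]
    change (pz M Z * (au M Z)⁻¹)ᵀ = pz M Z * (au M Z)⁻¹
    calc (pz M Z * (au M Z)⁻¹)ᵀ = ((au M Z)⁻¹)ᵀ * (pz M Z)ᵀ * (au M Z * (au M Z)⁻¹) := by
          rw [hQ, Matrix.mul_one, transpose_mul]
      _ = ((au M Z)⁻¹)ᵀ * ((pz M Z)ᵀ * au M Z) * (au M Z)⁻¹ := by noncomm_ring
      _ = (((au M Z)⁻¹)ᵀ * (au M Z)ᵀ) * pz M Z * (au M Z)⁻¹ := by rw [← h1]; noncomm_ring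
      _ = pz M Z * (au M Z)⁻¹ := by rw [h2, Matrix.one_mul]
  refine ⟨hsym, fun x hx => ?_⟩
  set X : ι → ℂ := fun i => (x i : ℂ) with hX
  have hX0 : X ≠ 0 := by
    intro h
    apply hx
    funext i
    have := congrFun h i
    simpa [hX] using this
  set v : ι → ℂ := (au M Z)⁻¹ *ᵥ X with hv
  have hQv : au M Z *ᵥ v = X := by rw [hv, mulVec_mulVec, hQ, one_mulVec]
  have hv0 : v ≠ 0 := by
    intro h
    rw [h, mulVec_zero] at hQv
    exact hX0 hQv.symm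
  have h1 := form_pos hZ hv0
  have h2 : star v ⬝ᵥ ((Z - Zᴴ) *ᵥ v) = star X ⬝ᵥ ((mv M Z - (mv M Z)ᴴ) *ᵥ X) := by
    have hWQ : mv M Z * au M Z = pz M Z := by
      change pz M Z * (au M Z)⁻¹ * au M Z = pz M Z
      rw [Matrix.mul_assoc, hQ', Matrix.mul_one]
    have h3 : Z - Zᴴ = (au M Z)ᴴ * (mv M Z - (mv M Z)ᴴ) * au M Z := by
      rw [← key_herm hM Z, ← hWQ, conjTranspose_mul]
      noncomm_ring
    rw [h3, ← mulVec_mulVec, hQv, ← mulVec_mulVec, dotProduct_mulVec, ← star_mulVec, hQv]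
  rw [h2, form_im hsym] at h1
  simp only [hX, Complex.ofReal_re, Complex.ofReal_im, zero_mul, Finset.sum_const_zero, add_zero] at h1
  linarith

theorem au_mul {M M' : Matrix (ι ⊕ ι) (ι ⊕ ι) ℤ} (hM' : M' ∈ symplecticGroup ι ℤ)
    {Z : Matrix ι ι ℂ} (hZ : Z ∈ Sieg ι) : au (M * M') Z = au M (mv M' Z) * au M' Z := by
  have hQ : (au M' Z)⁻¹ * au M' Z = 1 := Matrix.nonsing_inv_mul _ (au_isUnit hM' hZ)
  obtain ⟨-, -, h3, h4⟩ := bl_mul M M'
  calc au (M * M') Z = bC M * (bA M' * Z + bB M') * 1 + bD M * (bC M' * Z + bD M') := by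
        unfold au
        rw [h3, h4]
        noncomm_ring
    _ = bC M * (bA M' * Z + bB M') * ((au M' Z)⁻¹ * au M' Z) + bD M * (bC M' * Z + bD M') := by
        rw [hQ]
    _ = au M (mv M' Z) * au M' Z := by
        have e : au M (mv M' Z) = bC M * ((bA M' * Z + bB M') * (au M' Z)⁻¹) + bD M := rfl
        have e' : bC M' * Z + bD M' = au M' Z := rfl
        rw [e, e']
        noncomm_ring

theorem mv_mul {M M' : Matrix (ι ⊕ ι) (ι ⊕ ι) ℤ} (hM : M ∈ symplecticGroup ι ℤ)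
    (hM' : M' ∈ symplecticGroup ι ℤ) {Z : Matrix ι ι ℂ} (hZ : Z ∈ Sieg ι) :
    mv (M * M') Z = mv M (mv M' Z) := by
  have hu := au_isUnit hM' hZ
  have hQ' : au M' Z * (au M' Z)⁻¹ = 1 := Matrix.mul_nonsing_inv _ hu
  have hQ : (au M' Z)⁻¹ * au M' Z = 1 := Matrix.nonsing_inv_mul _ hu
  obtain ⟨h1, h2, -, -⟩ := bl_mul M M'
  have e1 : bA (M * M') * Z + bB (M * M') = (bA M * mv M' Z + bB M) * au M' Z := by
    calc bA (M * M') * Z + bB (M * M')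
        = bA M * (bA M' * Z + bB M') * 1 + bB M * (bC M' * Z + bD M') := by
          rw [h1, h2]
          noncomm_ring
      _ = bA M * (bA M' * Z + bB M') * ((au M' Z)⁻¹ * au M' Z) + bB M * (bC M' * Z + bD M') := by
          rw [hQ]
      _ = (bA M * mv M' Z + bB M) * au M' Z := by
          have e : mv M' Z = (bA M' * Z + bB M') * (au M' Z)⁻¹ := rfl
          have e' : bC M' * Z + bD M' = au M' Z := rfl
          rw [e, e']
          noncomm_ring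
  change (bA (M * M') * Z + bB (M * M')) * (au (M * M') Z)⁻¹ = _
  rw [e1, au_mul hM' hZ, Matrix.mul_inv_rev]
  calc (bA M * mv M' Z + bB M) * au M' Z * ((au M' Z)⁻¹ * (au M (mv M' Z))⁻¹)
      = (bA M * mv M' Z + bB M) * (au M' Z * (au M' Z)⁻¹) * (au M (mv M' Z))⁻¹ := by
        noncomm_ring
    _ = mv M (mv M' Z) := by
        rw [hQ', Matrix.mul_one]
        rfl

theorem uu_mul {M M' : Matrix (ι ⊕ ι) (ι ⊕ ι) ℤ} (hM : M ∈ symplecticGroup ι ℤ)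
    (hM' : M' ∈ symplecticGroup ι ℤ) {Z : Matrix ι ι ℂ} (hZ : Z ∈ Sieg ι) (u : ι → ℂ) :
    uu (M * M') Z u = uu M (mv M' Z) (uu M' Z u) := by
  unfold uu
  rw [au_mul hM' hZ, Matrix.mul_inv_rev, transpose_mul, mulVec_mulVec]

/-- cocycle of the quadratic form -/
theorem TH5.qq_mul {M M' : Matrix (ι ⊕ ι) (ι ⊕ ι) ℤ} (hM : M ∈ symplecticGroup ι ℤ)
    (hM' : M' ∈ symplecticGroup ι ℤ) {Z : Matrix ι ι ℂ} (hZ : Z ∈ Sieg ι) (u : ι → ℂ) :
    qq (M * M') Z u = qq M (mv M' Z) (uu M' Z u) + qq M' Z u := by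
  have hu := au_isUnit hM' hZ
  have hW := mv_mem hM' hZ
  have hu2 := au_isUnit hM hW
  have hQ' : au M' Z * (au M' Z)⁻¹ = 1 := Matrix.mul_nonsing_inv _ hu
  have hQW : (au M (mv M' Z))⁻¹ * au M (mv M' Z) = 1 := Matrix.nonsing_inv_mul _ hu2
  have h2 : ((au M' Z)⁻¹)ᵀ * (au M' Z)ᵀ = 1 := by rw [← transpose_mul, hQ', transpose_one]
  have hA : bA M' = ((au M' Z)⁻¹)ᵀ + mv M' Z * bC M' := by
    have h3 := key_inv hM' hZ.1
    calc bA M' = (((au M' Z)⁻¹)ᵀ * (au M' Z)ᵀ) * bA M' := by rw [h2, Matrix.one_mul]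
      _ = ((au M' Z)⁻¹)ᵀ * ((au M' Z)ᵀ * bA M') := by noncomm_ring
      _ = ((au M' Z)⁻¹)ᵀ + (((au M' Z)⁻¹)ᵀ * (pz M' Z)ᵀ) * bC M' := by rw [h3]; noncomm_ring
      _ = ((au M' Z)⁻¹)ᵀ + mv M' Z * bC M' := by
          rw [← transpose_mul]
          have e : pz M' Z * (au M' Z)⁻¹ = mv M' Z := rfl
          rw [e, hW.1]
  have hmat : (au (M * M') Z)⁻¹ * bC (M * M') =
      (au M' Z)⁻¹ * (((au M (mv M' Z))⁻¹ * bC M) * ((au M' Z)⁻¹)ᵀ) + (au M' Z)⁻¹ * bC M' := by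
    rw [au_mul hM' hZ, Matrix.mul_inv_rev, (bl_mul M M').2.2.1]
    have e : bC M * bA M' + bD M * bC M' = bC M * ((au M' Z)⁻¹)ᵀ + au M (mv M' Z) * bC M' := by
      have e' : au M (mv M' Z) = bC M * mv M' Z + bD M := rfl
      rw [e']
      conv_lhs => rw [hA]
      noncomm_ring
    rw [e]
    calc (au M' Z)⁻¹ * (au M (mv M' Z))⁻¹ *
          (bC M * ((au M' Z)⁻¹)ᵀ + au M (mv M' Z) * bC M')
        = (au M' Z)⁻¹ * (((au M (mv M' Z))⁻¹ * bC M) * ((au M' Z)⁻¹)ᵀ) +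
          (au M' Z)⁻¹ * ((au M (mv M' Z))⁻¹ * au M (mv M' Z)) * bC M' := by noncomm_ring
      _ = _ := by rw [hQW, Matrix.mul_one]
  unfold qq
  rw [hmat, add_mulVec, dotProduct_add]
  congr 1
  rw [← mulVec_mulVec, ← mulVec_mulVec, dotProduct_mulVec]
  have e : u ᵥ* (au M' Z)⁻¹ = uu M' Z u := by
    unfold uu
    rw [mulVec_transpose]
  rw [e]
  rfl

theorem ee_mul (N : ℕ) {M M' : Matrix (ι ⊕ ι) (ι ⊕ ι) ℤ} (hM : M ∈ symplecticGroup ι ℤ)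
    (hM' : M' ∈ symplecticGroup ι ℤ) {Z : Matrix ι ι ℂ} (hZ : Z ∈ Sieg ι) (u : ι → ℂ) :
    ee N (M * M') Z u = ee N M (mv M' Z) (uu M' Z u) * ee N M' Z u := by
  unfold ee
  rw [TH5.qq_mul hM hM' hZ, ← Complex.exp_add]
  congr 1
  ring

theorem mv_continuous {M : Matrix (ι ⊕ ι) (ι ⊕ ι) ℤ} (hM : M ∈ symplecticGroup ι ℤ) :
    ContinuousOn (mv M) (Sieg ι) := by
  have h1 : Continuous (au M) := by
    unfold au
    fun_prop
  have h2 : Continuous (fun Z : Matrix ι ι ℂ => bA M * Z + bB M) := by fun_prop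
  have h3 : ContinuousOn (fun Z : Matrix ι ι ℂ => (au M Z)⁻¹) (Sieg ι) := by
    have e : ∀ Z : Matrix ι ι ℂ, (au M Z)⁻¹ = ((au M Z).det)⁻¹ • (au M Z).adjugate := by
      intro Z
      rw [Matrix.inv_def, Ring.inverse_eq_inv']
    simp only [e]
    refine ContinuousOn.smul (ContinuousOn.inv₀ h1.matrix_det.continuousOn fun Z hZ => ?_)
      h1.matrix_adjugate.continuousOn
    exact (au_isUnit hM hZ).ne_zero
  exact h2.continuousOn.mul h3

end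

end Pool.CMH
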