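import Pool.Agent.Lib.CMH.P1Defs
import Pool.Agent.Lib.CMH.TH2a
import Pool.Agent.Lib.CMH.TH2b
import Pool.Agent.Lib.CMH.TH1
import Pool.Agent.Lib.CMH.TH3
import Pool.Agent.Lib.CMH.TH5a

set_option autoImplicit false

/-!
# P1, TH2 (helper18): the law of the partial inversion
-/

namespace Pool.CMH

open Matrix Complex Real

noncomputable section

set_option linter.unusedSectionVars false

variable {ι : Type} [Fintype ι] [DecidableEq ι]

/-- Fourier inversion -/
theorem ft1_inv (N : ℕ) [NeZero N] (φ : ZMod N → ℂ) (n : ZMod N) :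
    ft1 N (fun r => ((Real.sqrt N : ℝ) : ℂ)⁻¹ *
      ∑ y : ZMod N, ZMod.stdAddChar (-(r * y)) * φ y) n = φ n := by
  have hN : (0 : ℝ) < N := Nat.cast_pos.2 (NeZero.pos N)
  have hs0 : ((Real.sqrt N : ℝ) : ℂ) ≠ 0 := by
    rw [Ne, ofReal_eq_zero, Real.sqrt_eq_zero hN.le]
    exact hN.ne'
  have hsq : ((Real.sqrt N : ℝ) : ℂ) * ((Real.sqrt N : ℝ) : ℂ) = N := by
    rw [← ofReal_mul, Real.mul_self_sqrt hN.le]
    rfl
  have h1 : ∀ y : ZMod N, ∑ r : ZMod N, (ZMod.stdAddChar (r * (n - y)) : ℂ) =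
      if y = n then (N : ℂ) else 0 := by
    intro y
    have h2 := AddChar.sum_mulShift (n - y) (ZMod.isPrimitive_stdAddChar N)
    rw [ZMod.card] at h2
    rw [h2]
    rcases eq_or_ne y n with rfl | hy
    · simp
    · rw [if_neg (sub_ne_zero.2 hy.symm), if_neg hy]
      simp
  rw [ft1]
  have h3 : ∀ r : ZMod N, (((Real.sqrt N : ℝ) : ℂ)⁻¹ *
      ∑ y : ZMod N, (ZMod.stdAddChar (-(r * y)) : ℂ) * φ y) * (ZMod.stdAddChar (r * n) : ℂ) =
      ((Real.sqrt N : ℝ) : ℂ)⁻¹ * ∑ y : ZMod N, (ZMod.stdAddChar (r * (n - y)) : ℂ) * φ y := by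
    intro r
    rw [mul_assoc, Finset.sum_mul]
    congr 1
    refine Finset.sum_congr rfl fun y _ => ?_
    rw [show r * (n - y) = -(r * y) + r * n by ring, AddChar.map_add_eq_mul]
    ring
  rw [Finset.sum_congr rfl fun r _ => h3 r, ← Finset.mul_sum, Finset.sum_comm]
  have h4 : ∀ y : ZMod N, ∑ r : ZMod N, (ZMod.stdAddChar (r * (n - y)) : ℂ) * φ y =
      if y = n then (N : ℂ) * φ y else 0 := by
    intro y
    rw [← Finset.sum_mul, h1]
    split_ifs <;> simp
  rw [Finset.sum_congr rfl fun y _ => h4 y, Finset.sum_ite_eq', if_pos (Finset.mem_univ _),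
    ← mul_assoc, ← mul_assoc, ← mul_inv, hsq, inv_mul_cancel₀ (Nat.cast_ne_zero.2 (NeZero.ne N)),
    one_mul]

/-- the splitting of the coordinate `i` -/
def splitI (i : ι) : ({w : ι → ℤ // w i = 0} × ℤ) ≃ (ι → ℤ) where
  toFun p := Function.update p.1.1 i p.2
  invFun x := (⟨Function.update x i 0, by simp⟩, x i)
  left_inv p := by
    obtain ⟨⟨w, hw⟩, n⟩ := p
    ext j
    · rcases eq_or_ne j i with rfl | hj
      · simp [hw]
      · simp [hj]
    · simp
  right_inv x := by simp

theorem tsum_splitI (i : ι) {f : (ι → ℤ) → ℂ} (hf : Summable f) :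
    ∑' x, f x = ∑' w : {w : ι → ℤ // w i = 0}, ∑' n : ℤ, f (Function.update w.1 i n) := by
  rw [← (splitI i).tsum_eq]
  have h1 := (splitI i).summable_iff.2 hf
  exact h1.tsum_prod

theorem red_update (N : ℕ) (i : ι) (w : ι → ℤ) (n : ℤ) :
    red N (Function.update w i n) = Function.update (red N w) i (n : ZMod N) := by
  funext j
  rcases eq_or_ne j i with rfl | hj
  · simp [red]
  · simp [red, hj]

theorem law_J (N : ℕ) [NeZero N] (i : ι) :
    Law N (jI i) (pJ N i) (-I) (fun Z => (-I * Z i i) ^ (1 / 2 : ℂ)) := by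
  refine ⟨?_, ?_, ?_, ?_⟩
  · rw [neg_pow, I_pow_four]
    norm_num
  · refine ContinuousOn.cpow_const ?_ ?_
    · exact continuousOn_const.mul (Continuous.continuousOn (by fun_prop))
    · intro Z hZ
      left
      have := Sieg.im_diag hZ i
      simpa using this
  · intro Z hZ
    rw [det_au_jI, ← cpow_nat_mul]
    norm_num
  · intro Z hZ φ u
    have hN : (0 : ℝ) < N := Nat.cast_pos.2 (NeZero.pos N)
    have hN' : (N : ℂ) ≠ 0 := Nat.cast_ne_zero.2 (NeZero.ne N)
    have hτ := Sieg.im_diag hZ i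
    have hτ0 : Z i i ≠ 0 := fun h => by rw [h] at hτ; exact lt_irrefl _ hτ
    have hZ' : mv (jI i) Z ∈ Sieg ι := mv_mem (jI_mem i) hZ
    have hc0 : (-I * Z i i) ^ (1 / 2 : ℂ) ≠ 0 := by
      rw [Ne, cpow_eq_zero_iff]
      rintro ⟨h, -⟩
      exact mul_ne_zero (neg_ne_zero.2 I_ne_zero) hτ0 h
    have e1 : theta N φ (mv (jI i) Z) (uu (jI i) Z u) = _ :=
      tsum_splitI i (theta_summable N φ hZ' (uu (jI i) Z u))
    have e2 : theta N (pJ N i φ) Z u = _ :=
      tsum_splitI i (theta_summable N (pJ N i φ) hZ u)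
    rw [e1, e2, ← tsum_mul_left]
    refine tsum_congr fun w => ?_
    obtain ⟨w, hw⟩ := w
    set β : ℂ := ∑ j, (w j : ℂ) * Z i j with hβ
    set ζ : ℂ := β / N + u i with hζ
    -- the terms
    have t1 : ∀ n : ℤ, φ (red N (Function.update w i n)) *
        tm N (mv (jI i) Z) (uu (jI i) Z u) (Function.update w i n) =
        cexp (π * I * (qf Z w - β ^ 2 / Z i i) / N + 2 * π * I * (lf u w - β * u i / Z i i)) *
          (φ (Function.update (red N w) i (n : ZMod N)) * thE N (-1 / Z i i) (ζ / Z i i) n) := by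
      intro n
      rw [red_update, mv_jI i hτ0, uu_jI i hτ0, tm, qf_update (zJ_symm i hZ.1) i w hw,
        lf_update _ i w hw, sum_zJ i Z w hw, qf_zJ hZ.1 i w hw, lf_uJ u Z i w hw, ← hβ, thE,
        show zJ i Z i i = -1 / Z i i by simp [zJ], show uJ i Z u i = u i / Z i i by simp [uJ]]
      rw [mul_left_comm, ← Complex.exp_add]
      congr 2
      rw [hζ]
      field_simp
      ring
    have t2 : ∀ n : ℤ, pJ N i φ (red N (Function.update w i n)) *
        tm N Z u (Function.update w i n) =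
        cexp (π * I * qf Z w / N + 2 * π * I * lf u w) *
          (pJ N i φ (Function.update (red N w) i (n : ZMod N)) * thE N (Z i i) ζ n) := by
      intro n
      rw [red_update, tm, qf_update hZ.1 i w hw, lf_update _ i w hw, ← hβ, thE]
      rw [mul_left_comm, ← Complex.exp_add]
      congr 2
      rw [hζ]
      field_simp
      ring
    rw [tsum_congr t1, tsum_congr t2, tsum_mul_left, tsum_mul_left]
    have h3 := thE_law N (fun y => pJ N i φ (Function.update (red N w) i y)) hτ ζ
    have h4 : ∀ n : ZMod N, ft1 N (fun y => pJ N i φ (Function.update (red N w) i y)) n =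
        φ (Function.update (red N w) i n) := by
      intro n
      rw [← ft1_inv N (fun y => φ (Function.update (red N w) i y)) n]
      congr 1
      funext r
      simp [pJ]
    rw [h3]
    simp only [h4]
    have h5 : cexp (π * I * (qf Z w - β ^ 2 / Z i i) / N +
        2 * π * I * (lf u w - β * u i / Z i i)) =
        ee N (jI i) Z u * cexp (π * I * qf Z w / N + 2 * π * I * lf u w) *
          cexp (-(π * I * N * ζ ^ 2 / Z i i)) := by
      rw [ee, qq_jI i hτ0, ← Complex.exp_add, ← Complex.exp_add]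
      congr 1
      rw [hζ]
      field_simp
      ring
    rw [h5]
    field_simp

end

end Pool.CMH
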