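import Pool.Agent.Lib.CMH.P1Defs

/-!
# TANK CMH, P1, row TH4 : the finite set of operators `NN N ι`
-/

set_option autoImplicit false
set_option linter.unusedSectionVars false

namespace Pool.CMH

open Matrix Complex Real

noncomputable section

variable {ι : Type} [Fintype ι]

@[simp] theorem hX_apply (N : ℕ) (a : ι → ZMod N) (φ : (ι → ZMod N) → ℂ) (x : ι → ZMod N) :
    hX N a φ x = φ (x + a) := rfl

@[simp] theorem hZ_apply (N : ℕ) [NeZero N] (b : ι → ZMod N) (φ : (ι → ZMod N) → ℂ)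
    (x : ι → ZMod N) : hZ N b φ x = ZMod.stdAddChar (b ⬝ᵥ x) * φ x := rfl

theorem ch_ne (N : ℕ) [NeZero N] (r : ZMod N) : (ZMod.stdAddChar r : ℂ) ≠ 0 := by
  intro h
  have h1 : (ZMod.stdAddChar r : ℂ) * ZMod.stdAddChar (-r) = 1 := by
    rw [← AddChar.map_add_eq_mul, add_neg_cancel, AddChar.map_zero_eq_one]
  rw [h, zero_mul] at h1
  exact zero_ne_one h1

theorem ch_pow (N : ℕ) [NeZero N] (r : ZMod N) : (ZMod.stdAddChar r : ℂ) ^ N = 1 := by
  rw [← AddChar.map_nsmul_eq_pow]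
  simp

theorem ch_pow2 (N : ℕ) [NeZero N] (r : ZMod N) : (ZMod.stdAddChar r : ℂ) ^ (2 * N) = 1 := by
  rw [mul_comm, pow_mul, ch_pow, one_pow]

theorem fin_pow (K : ℕ) (hK : K ≠ 0) : {c : ℂ | c ^ K = 1}.Finite := by
  have h0 : (0 : ℕ) < K := Nat.pos_of_ne_zero hK
  refine (Polynomial.nthRootsFinset K (1 : ℂ)).finite_toSet.subset fun c hc => ?_
  exact (Polynomial.mem_nthRootsFinset h0 _).2 hc

variable [DecidableEq ι]

/-- the commutant of the Heisenberg operators -/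
theorem h_commutant (N : ℕ) [NeZero N] (P : Op N ι) (hX' : ∀ a, P ∘ₗ hX N a = hX N a ∘ₗ P)
    (hZ' : ∀ b, P ∘ₗ hZ N b = hZ N b ∘ₗ P) : ∃ c : ℂ, P = c • LinearMap.id := by
  let δ : (ι → ZMod N) → (ι → ZMod N) → ℂ := fun x => Pi.single x 1
  have h1 : ∀ x y, y ≠ x → P (δ x) y = 0 := by
    intro x y hxy
    obtain ⟨i, hi⟩ := Function.ne_iff.1 hxy
    have h2 : ∀ b, hZ N b (P (δ x)) = (ZMod.stdAddChar (b ⬝ᵥ x) : ℂ) • P (δ x) := by
      intro b
      have h20 : hZ N b (P (δ x)) = P (hZ N b (δ x)) := (LinearMap.congr_fun (hZ' b) (δ x)).symm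
      rw [h20, ← map_smul]
      congr 1
      ext z
      rw [hZ_apply, Pi.smul_apply, smul_eq_mul]
      by_cases hz : z = x
      · rw [hz]
      · simp [δ, hz]
    have h3 := congrFun (h2 (Pi.single i 1)) y
    rw [hZ_apply, Pi.smul_apply, smul_eq_mul, single_one_dotProduct, single_one_dotProduct] at h3
    by_contra h4
    have h5 := mul_right_cancel₀ h4 h3
    exact hi (ZMod.injective_stdAddChar h5)
  have h6 : ∀ x, P (δ x) x = P (δ 0) 0 := by
    intro x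
    have h7 : hX N x (δ x) = δ 0 := by
      ext z
      rw [hX_apply]
      simp only [δ, Pi.single_apply]
      congr 1
      rw [add_eq_right]
    have h8 : P (hX N x (δ x)) = hX N x (P (δ x)) := LinearMap.congr_fun (hX' x) (δ x)
    rw [h7] at h8
    rw [h8, hX_apply, zero_add]
  refine ⟨P (δ 0) 0, ?_⟩
  refine LinearMap.pi_ext' fun x => LinearMap.ext_ring ?_
  change P (Pi.single x 1) = P (δ 0) 0 • Pi.single x (1 : ℂ)
  ext y
  by_cases hxy : y = x
  · subst hxy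
    rw [Pi.smul_apply, Pi.single_eq_same, smul_eq_mul, mul_one]
    exact h6 y
  · rw [Pi.smul_apply, Pi.single_eq_of_ne hxy, smul_zero]
    exact h1 x y hxy

theorem hX_zero (N : ℕ) : (hX N (0 : ι → ZMod N)) = LinearMap.id := by
  ext φ x
  simp

theorem hZ_zero (N : ℕ) [NeZero N] : (hZ N (0 : ι → ZMod N)) = LinearMap.id := by
  refine LinearMap.ext fun φ => funext fun x => ?_
  rw [hZ_apply, zero_dotProduct, AddChar.map_zero_eq_one, one_mul]
  rfl

theorem NN_mul (N : ℕ) [NeZero N] {P Q : Op N ι} (hP : P ∈ NN N ι) (hQ : Q ∈ NN N ι) :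
    P ∘ₗ Q ∈ NN N ι := by
  refine ⟨by rw [LinearMap.det_comp, mul_pow, hP.1, hQ.1, mul_one], fun a b => ?_⟩
  obtain ⟨a', b', c, hc, e⟩ := hQ.2 a b
  obtain ⟨a'', b'', c', hc', e'⟩ := hP.2 a' b'
  refine ⟨a'', b'', c * c', by rw [mul_pow, hc, hc', mul_one], ?_⟩
  rw [LinearMap.comp_assoc, e, LinearMap.comp_smul, ← LinearMap.comp_assoc, e',
    LinearMap.smul_comp, smul_smul, LinearMap.comp_assoc]

theorem NN_finite (N : ℕ) [NeZero N] : (NN N ι).Finite := by
  classical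
  have hN : 2 * N ≠ 0 := mul_ne_zero two_ne_zero (NeZero.ne N)
  -- the finite set of data
  let R : Set ℂ := {c : ℂ | c ^ (2 * N) = 1}
  have hR : R.Finite := fin_pow _ hN
  have hRf : Finite R := hR
  let D : Type := ((ι → ZMod N) × (ι → ZMod N)) → ((ι → ZMod N) × (ι → ZMod N) × R)
  have hD : Finite D := inferInstanceAs (Finite (((ι → ZMod N) × (ι → ZMod N)) →
    ((ι → ZMod N) × (ι → ZMod N) × R)))
  -- compatibility of an operator with data
  let Cp : D → Op N ι → Prop := fun F P => ∀ a b : ι → ZMod N,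
    P ∘ₗ (hX N a ∘ₗ hZ N b) =
      ((F (a, b)).2.2 : ℂ) • ((hX N (F (a, b)).1 ∘ₗ hZ N (F (a, b)).2.1) ∘ₗ P)
  have hex : ∀ P ∈ NN N ι, ∃ F, Cp F P := by
    intro P hP
    choose a' b' c hc e using hP.2
    exact ⟨fun t => (a' t.1 t.2, b' t.1 t.2, ⟨c t.1 t.2, hc t.1 t.2⟩), fun a b => e a b⟩
  let g : D → Op N ι := fun F => if h : ∃ P ∈ NN N ι, Cp F P then h.choose else 0
  let K : ℕ := Module.finrank ℂ ((ι → ZMod N) → ℂ) * (4 * N)
  have hK : K ≠ 0 := by
    refine mul_ne_zero ?_ (mul_ne_zero four_ne_zero (NeZero.ne N))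
    rw [Module.finrank_fintype_fun_eq_card]
    exact Fintype.card_ne_zero
  have hfin : ((Set.univ : Set D) ×ˢ {c : ℂ | c ^ K = 1}).Finite :=
    Set.finite_univ.prod (fin_pow K hK)
  refine (hfin.image fun t => t.2 • g t.1).subset ?_
  intro P hP
  obtain ⟨F, hF⟩ := hex P hP
  have hQ0 : ∃ Q ∈ NN N ι, Cp F Q := ⟨P, hP, hF⟩
  obtain ⟨Q, hQd⟩ : ∃ Q, Q = g F := ⟨_, rfl⟩
  have hgF : g F = hQ0.choose := dif_pos hQ0
  have hQ : Q ∈ NN N ι := by rw [hQd, hgF]; exact hQ0.choose_spec.1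
  have hQF : Cp F Q := by rw [hQd, hgF]; exact hQ0.choose_spec.2
  have h4N : 4 * N ≠ 0 := mul_ne_zero four_ne_zero (NeZero.ne N)
  have hdQ : LinearMap.det Q ≠ 0 := fun h0 => by
    have := hQ.1
    rw [h0, zero_pow h4N] at this
    exact zero_ne_one this
  let Qe := LinearMap.equivOfDetNeZero Q hdQ
  have hQe : (Qe : Op N ι) = Q := rfl
  let I' : Op N ι := (Qe.symm : Op N ι)
  have hI1 : I' ∘ₗ Q = LinearMap.id := by
    ext φ x
    change Qe.symm (Qe _) x = _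
    rw [LinearEquiv.symm_apply_apply]
    rfl
  have hI2 : Q ∘ₗ I' = LinearMap.id := by
    refine LinearMap.ext fun φ => ?_
    change Qe (Qe.symm φ) = φ
    rw [LinearEquiv.apply_symm_apply]
  have hcomm : ∀ a b : ι → ZMod N, (I' ∘ₗ P) ∘ₗ (hX N a ∘ₗ hZ N b) =
      (hX N a ∘ₗ hZ N b) ∘ₗ (I' ∘ₗ P) := by
    intro a b
    have e1 := hF a b
    have e2 := hQF a b
    have e3 : I' ∘ₗ (((F (a, b)).2.2 : ℂ) • (hX N (F (a, b)).1 ∘ₗ hZ N (F (a, b)).2.1)) =
        (hX N a ∘ₗ hZ N b) ∘ₗ I' := by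
      calc I' ∘ₗ (((F (a, b)).2.2 : ℂ) • (hX N (F (a, b)).1 ∘ₗ hZ N (F (a, b)).2.1))
          = I' ∘ₗ (((F (a, b)).2.2 : ℂ) •
            ((hX N (F (a, b)).1 ∘ₗ hZ N (F (a, b)).2.1) ∘ₗ (Q ∘ₗ I'))) := by
            rw [hI2, LinearMap.comp_id]
        _ = I' ∘ₗ ((((F (a, b)).2.2 : ℂ) •
            ((hX N (F (a, b)).1 ∘ₗ hZ N (F (a, b)).2.1) ∘ₗ Q)) ∘ₗ I') := rfl
        _ = I' ∘ₗ ((Q ∘ₗ (hX N a ∘ₗ hZ N b)) ∘ₗ I') := by rw [e2]
        _ = (I' ∘ₗ Q) ∘ₗ ((hX N a ∘ₗ hZ N b) ∘ₗ I') := rfl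
        _ = (hX N a ∘ₗ hZ N b) ∘ₗ I' := by rw [hI1, LinearMap.id_comp]
    calc (I' ∘ₗ P) ∘ₗ (hX N a ∘ₗ hZ N b) = I' ∘ₗ (P ∘ₗ (hX N a ∘ₗ hZ N b)) := rfl
      _ = (I' ∘ₗ (((F (a, b)).2.2 : ℂ) • (hX N (F (a, b)).1 ∘ₗ hZ N (F (a, b)).2.1))) ∘ₗ P := by
          rw [e1]; rfl
      _ = (hX N a ∘ₗ hZ N b) ∘ₗ (I' ∘ₗ P) := by rw [e3]; rfl
  obtain ⟨c, hc⟩ := h_commutant N (I' ∘ₗ P)
    (fun a => by have := hcomm a 0; rwa [hZ_zero, LinearMap.comp_id] at this)
    (fun b => by have := hcomm 0 b; rwa [hX_zero, LinearMap.id_comp] at this)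
  have hPc : P = c • Q := by
    calc P = (Q ∘ₗ I') ∘ₗ P := by rw [hI2, LinearMap.id_comp]
      _ = Q ∘ₗ (I' ∘ₗ P) := rfl
      _ = c • Q := by rw [hc, LinearMap.comp_smul, LinearMap.comp_id]
  refine ⟨(F, c), ⟨Set.mem_univ _, ?_⟩, ?_⟩
  · have h1 := hP.1
    rw [hPc, LinearMap.det_smul, mul_pow, hQ.1, mul_one, ← pow_mul] at h1
    exact h1
  · change c • g F = P
    rw [← hQd, hPc]

/-! ### the generators -/

/-- multiplication by a function -/
def opm (N : ℕ) (f : (ι → ZMod N) → ℂ) : Op N ι where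
  toFun φ x := f x * φ x
  map_add' φ ψ := by funext x; simp [mul_add]
  map_smul' c φ := by funext x; simp only [Pi.smul_apply, smul_eq_mul, RingHom.id_apply]; ring

theorem det_opm (N : ℕ) [NeZero N] (f : (ι → ZMod N) → ℂ) :
    LinearMap.det (opm N f) = ∏ x, f x := by
  rw [← LinearMap.det_toMatrix', ← Matrix.det_diagonal]
  congr 1
  ext x y
  rw [LinearMap.toMatrix'_apply, Matrix.diagonal_apply]
  change f x * (Pi.single y (1 : ℂ) : (ι → ZMod N) → ℂ) x = _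
  rw [Pi.single_apply]
  split_ifs <;> simp

theorem qf_add (B : Matrix ι ι ℤ) (hB : Bᵀ = B) (x y : ι → ℤ) :
    qf (B.map (fun z : ℤ => (z : ℂ))) (x + y) = qf (B.map (fun z : ℤ => (z : ℂ))) x +
      qf (B.map (fun z : ℤ => (z : ℂ))) y + 2 * ((x ⬝ᵥ B *ᵥ y : ℤ) : ℂ) := by
  have h1 : ∀ x : ι → ℤ, qf (B.map (fun z : ℤ => (z : ℂ))) x = ((x ⬝ᵥ B *ᵥ x : ℤ) : ℂ) := by
    intro x
    simp only [qf, dotProduct, mulVec, Matrix.map_apply, Finset.mul_sum]
    push_cast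
    refine Finset.sum_congr rfl fun i _ => Finset.sum_congr rfl fun j _ => ?_
    ring
  have h2 : y ⬝ᵥ B *ᵥ x = x ⬝ᵥ B *ᵥ y := by
    rw [dotProduct_mulVec, dotProduct_comm, ← mulVec_transpose, hB]
  rw [h1, h1, h1, mulVec_add, dotProduct_add, add_dotProduct, add_dotProduct, h2]
  push_cast
  ring

/-- the phase, on integral vectors -/
def qph (N : ℕ) (B : Matrix ι ι ℤ) (x : ι → ℤ) : ℂ :=
  cexp (π * I * qf (B.map (fun z : ℤ => (z : ℂ))) x / N)

theorem exp_int (n : ℤ) : cexp (2 * π * I * n) = 1 := by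
  rw [mul_comm]
  exact Complex.exp_int_mul_two_pi_mul_I n

theorem qf_coe (B : Matrix ι ι ℤ) (x : ι → ℤ) :
    qf (B.map (fun z : ℤ => (z : ℂ))) x = ((x ⬝ᵥ B *ᵥ x : ℤ) : ℂ) := by
  simp only [qf, dotProduct, mulVec, Matrix.map_apply, Finset.mul_sum]
  push_cast
  refine Finset.sum_congr rfl fun i _ => Finset.sum_congr rfl fun j _ => ?_
  ring

/-- change of the phase under a translation -/
theorem qph_add (N : ℕ) [NeZero N] (B : Matrix ι ι ℤ) (hB : Bᵀ = B) (x y : ι → ℤ) :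
    qph N B (x + y) = qph N B x * qph N B y *
      ZMod.stdAddChar (((x ⬝ᵥ B *ᵥ y : ℤ)) : ZMod N) := by
  have hN : (N : ℂ) ≠ 0 := Nat.cast_ne_zero.2 (NeZero.ne N)
  rw [ZMod.stdAddChar_coe, qph, qph, qph, qf_add B hB, ← Complex.exp_add, ← Complex.exp_add]
  congr 1
  field_simp

/-- the phase of a multiple of an even level is trivial -/
theorem qph_mul (N : ℕ) [NeZero N] (hN : Even N) (B : Matrix ι ι ℤ) (y : ι → ℤ) :
    qph N B (fun i => (N : ℤ) * y i) = 1 := by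
  have hN0 : (N : ℂ) ≠ 0 := Nat.cast_ne_zero.2 (NeZero.ne N)
  obtain ⟨k, hk⟩ := hN
  have h1 : (fun i => (N : ℤ) * y i) ⬝ᵥ B *ᵥ (fun i => (N : ℤ) * y i) =
      (N : ℤ) * N * (y ⬝ᵥ B *ᵥ y) := by
    have h2 : (fun i => (N : ℤ) * y i) = (N : ℤ) • y := rfl
    rw [h2, mulVec_smul, dotProduct_smul, smul_dotProduct, smul_eq_mul, smul_eq_mul, mul_assoc]
  rw [qph, qf_coe, h1]
  have h3 : (π : ℂ) * I * (((N : ℤ) * N * (y ⬝ᵥ B *ᵥ y) : ℤ) : ℂ) / N =
      2 * π * I * ((k : ℤ) * (y ⬝ᵥ B *ᵥ y) : ℤ) := by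
    have h4 : (N : ℂ) = k + k := by rw [hk]; push_cast; rfl
    push_cast
    rw [h4] at hN0 ⊢
    field_simp
    ring
  rw [h3, exp_int]

/-- the phase only depends on the class modulo `N` -/
theorem qph_red (N : ℕ) [NeZero N] (hN : Even N) (B : Matrix ι ι ℤ) (hB : Bᵀ = B)
    {x y : ι → ℤ} (h : red N x = red N y) : qph N B x = qph N B y := by
  have h1 : ∀ i, ∃ z : ℤ, x i = y i + N * z := by
    intro i
    have h2 : ((x i : ℤ) : ZMod N) = (y i : ℤ) := congrFun h i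
    obtain ⟨z, hz⟩ := (ZMod.intCast_eq_intCast_iff_dvd_sub (y i) (x i) N).1 h2.symm
    exact ⟨z, by linarith⟩
  choose z hz using h1
  have h3 : x = y + fun i => (N : ℤ) * z i := funext hz
  rw [h3, qph_add N B hB, qph_mul N hN, mul_one]
  have h4 : ((y ⬝ᵥ B *ᵥ (fun i => (N : ℤ) * z i) : ℤ) : ZMod N) = 0 := by
    have h5 : (fun i => (N : ℤ) * z i) = (N : ℤ) • z := rfl
    rw [h5, mulVec_smul, dotProduct_smul, smul_eq_mul, Int.cast_mul, Int.cast_natCast,
      ZMod.natCast_self, zero_mul]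
  rw [h4, AddChar.map_zero_eq_one, mul_one]

theorem qph_pow (N : ℕ) [NeZero N] (B : Matrix ι ι ℤ) (x : ι → ℤ) : qph N B x ^ (2 * N) = 1 := by
  have hN0 : (N : ℂ) ≠ 0 := Nat.cast_ne_zero.2 (NeZero.ne N)
  rw [qph, ← Complex.exp_nat_mul, qf_coe]
  have h1 : ((2 * N : ℕ) : ℂ) * (π * I * ((x ⬝ᵥ B *ᵥ x : ℤ) : ℂ) / N) =
      2 * π * I * ((x ⬝ᵥ B *ᵥ x : ℤ) : ℂ) := by
    push_cast
    field_simp
  rw [h1, exp_int]

theorem pB_mem (N : ℕ) [NeZero N] (hN : Even N) {B : Matrix ι ι ℤ} (hB : Bᵀ = B) :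
    pB N B ∈ NN N ι := by
  let lif : (ι → ZMod N) → ι → ℤ := fun x i => ((x i).val : ℤ)
  have hlif : ∀ x, red N (lif x) = x := by
    intro x
    funext i
    change (((x i).val : ℤ) : ZMod N) = x i
    rw [Int.cast_natCast, ZMod.natCast_zmod_val]
  refine ⟨?_, fun a b => ?_⟩
  · have h1 : pB N B = opm N fun x => qph N B (lif x) := rfl
    rw [h1, det_opm, ← Finset.prod_pow]
    refine Finset.prod_eq_one fun x _ => ?_
    rw [show 4 * N = (2 * N) * 2 by ring, pow_mul, qph_pow, one_pow]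
  · let Bm : Matrix ι ι (ZMod N) := B.map (fun z : ℤ => (z : ZMod N))
    refine ⟨a, b - Bm *ᵥ a, qph N B (lif a), qph_pow N B _, ?_⟩
    refine LinearMap.ext fun φ => funext fun x => ?_
    change qph N B (lif x) * (ZMod.stdAddChar (b ⬝ᵥ (x + a)) * φ (x + a)) =
      qph N B (lif a) * (ZMod.stdAddChar ((b - Bm *ᵥ a) ⬝ᵥ (x + a)) *
        (qph N B (lif (x + a)) * φ (x + a)))
    have h2 : qph N B (lif (x + a)) = qph N B (lif x) * qph N B (lif a) *
        ZMod.stdAddChar ((lif x ⬝ᵥ B *ᵥ lif a : ℤ) : ZMod N) := by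
      rw [← qph_add N B hB]
      refine qph_red N hN B hB ?_
      rw [hlif]
      funext i
      have h3 := congrFun (hlif x) i
      have h4 := congrFun (hlif a) i
      change (x + a) i = ((lif x i + lif a i : ℤ) : ZMod N)
      rw [Int.cast_add]
      exact congrArg₂ (· + ·) h3.symm h4.symm
    have hcast : ∀ y z : ι → ZMod N, ((lif y ⬝ᵥ B *ᵥ lif z : ℤ) : ZMod N) = y ⬝ᵥ Bm *ᵥ z := by
      intro y z
      simp only [dotProduct, mulVec]
      push_cast
      refine Finset.sum_congr rfl fun i _ => ?_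
      have h3 : ((lif y i : ℤ) : ZMod N) = y i := congrFun (hlif y) i
      rw [h3]
      congr 1
      refine Finset.sum_congr rfl fun j _ => ?_
      have h4 : ((lif z j : ℤ) : ZMod N) = z j := congrFun (hlif z) j
      rw [h4]
      rfl
    have hsym : ∀ y z : ι → ZMod N, y ⬝ᵥ Bm *ᵥ z = (Bm *ᵥ y) ⬝ᵥ z := by
      intro y z
      have h5 : Bmᵀ = Bm := by
        change (B.map _)ᵀ = _
        rw [← Matrix.transpose_map, hB]
      rw [dotProduct_mulVec, ← mulVec_transpose, h5]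
    -- the square of the phase of `a`
    have h6 : qph N B (lif a) * qph N B (lif a) =
        ZMod.stdAddChar ((Bm *ᵥ a) ⬝ᵥ a) := by
      rw [← hsym, ← hcast, ZMod.stdAddChar_coe, qph, qf_coe, ← Complex.exp_add]
      congr 1
      ring
    have h7 : (ZMod.stdAddChar ((b - Bm *ᵥ a) ⬝ᵥ (x + a)) : ℂ) * ZMod.stdAddChar ((Bm *ᵥ a) ⬝ᵥ a) *
        ZMod.stdAddChar ((lif x ⬝ᵥ B *ᵥ lif a : ℤ) : ZMod N) = ZMod.stdAddChar (b ⬝ᵥ (x + a)) := by
      rw [← AddChar.map_add_eq_mul, ← AddChar.map_add_eq_mul, hcast]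
      congr 1
      rw [sub_dotProduct, dotProduct_add, dotProduct_add, dotProduct_comm x (Bm *ᵥ a)]
      ring
    rw [h2, ← h7, ← h6]
    ring

theorem det_perm (N : ℕ) [NeZero N] (P : Op N ι) (σ : Equiv.Perm (ι → ZMod N))
    (h : ∀ φ x, P φ x = φ (σ x)) : LinearMap.det P ^ (4 * N) = 1 := by
  have h1 : LinearMap.toMatrix' P = (1 : Matrix (ι → ZMod N) (ι → ZMod N) ℂ).submatrix σ id := by
    ext x y
    rw [LinearMap.toMatrix'_apply, Matrix.submatrix_apply, Matrix.one_apply, h, id]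
    change (Pi.single y (1 : ℂ) : (ι → ZMod N) → ℂ) (σ x) = _
    rw [Pi.single_apply]
  rw [← LinearMap.det_toMatrix', h1, Matrix.det_permute, Matrix.det_one, mul_one]
  rcases Int.units_eq_one_or (Equiv.Perm.sign σ) with h2 | h2
  · rw [h2]; simp
  · rw [h2, show 4 * N = 2 * (2 * N) by ring, pow_mul]; simp

theorem pA_mem (N : ℕ) [NeZero N] {A : Matrix ι ι ℤ} (hA : IsUnit A.det) : pA N A ∈ NN N ι := by
  let A1 : Matrix ι ι (ZMod N) := ((A⁻¹)ᵀ).map (fun z : ℤ => (z : ZMod N))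
  let A2 : Matrix ι ι (ZMod N) := (Aᵀ).map (fun z : ℤ => (z : ZMod N))
  have h12 : A1 * A2 = 1 := by
    have h1 : A1 * A2 = ((A⁻¹)ᵀ * Aᵀ).map (Int.castRingHom (ZMod N)) := by
      rw [Matrix.map_mul]
      rfl
    rw [h1, ← Matrix.transpose_mul, Matrix.mul_nonsing_inv A hA, Matrix.transpose_one]
    exact Matrix.map_one _ (map_zero _) (map_one _)
  have h21 : A2 * A1 = 1 := mul_eq_one_comm.1 h12
  let σ : Equiv.Perm (ι → ZMod N) :=
    { toFun := fun x => A1 *ᵥ x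
      invFun := fun x => A2 *ᵥ x
      left_inv := fun x => by
        change A2 *ᵥ (A1 *ᵥ x) = x
        rw [Matrix.mulVec_mulVec, h21, Matrix.one_mulVec]
      right_inv := fun x => by
        change A1 *ᵥ (A2 *ᵥ x) = x
        rw [Matrix.mulVec_mulVec, h12, Matrix.one_mulVec] }
  refine ⟨det_perm N _ σ fun φ x => rfl, fun a b => ⟨A2 *ᵥ a, b ᵥ* A1, 1, one_pow _, ?_⟩⟩
  refine LinearMap.ext fun φ => funext fun x => ?_
  change ZMod.stdAddChar (b ⬝ᵥ (A1 *ᵥ x + a)) * φ (A1 *ᵥ x + a) =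
    1 * (ZMod.stdAddChar ((b ᵥ* A1) ⬝ᵥ (x + A2 *ᵥ a)) * φ (A1 *ᵥ (x + A2 *ᵥ a)))
  have h3 : A1 *ᵥ (x + A2 *ᵥ a) = A1 *ᵥ x + a := by
    rw [Matrix.mulVec_add, Matrix.mulVec_mulVec, h12, Matrix.one_mulVec]
  rw [one_mul, ← Matrix.dotProduct_mulVec, h3]

theorem pJ_apply (N : ℕ) [NeZero N] (i : ι) (φ : (ι → ZMod N) → ℂ) (x : ι → ZMod N) :
    pJ N i φ x = ((Real.sqrt N : ℝ) : ℂ)⁻¹ *
      ∑ y : ZMod N, ZMod.stdAddChar (-(x i * y)) * φ (Function.update x i y) := rfl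

theorem sqrt_sq' (N : ℕ) : ((Real.sqrt N : ℝ) : ℂ) * ((Real.sqrt N : ℝ) : ℂ) = N := by
  rw [← Complex.ofReal_mul, Real.mul_self_sqrt (Nat.cast_nonneg N)]
  push_cast
  rfl

/-- the square of the partial Fourier transform -/
theorem pJ_sq (N : ℕ) [NeZero N] (i : ι) (φ : (ι → ZMod N) → ℂ) (x : ι → ZMod N) :
    pJ N i (pJ N i φ) x = φ (Function.update x i (-x i)) := by
  have hN : (N : ℂ) ≠ 0 := Nat.cast_ne_zero.2 (NeZero.ne N)
  have h1 : pJ N i (pJ N i φ) x = ((Real.sqrt N : ℝ) : ℂ)⁻¹ * ((Real.sqrt N : ℝ) : ℂ)⁻¹ *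
      ∑ z : ZMod N, (∑ y : ZMod N, ZMod.stdAddChar (y * (-(x i) - z))) *
        φ (Function.update x i z) := by
    rw [pJ_apply, mul_assoc]
    congr 1
    have h2 : ∀ y : ZMod N, pJ N i φ (Function.update x i y) = ((Real.sqrt N : ℝ) : ℂ)⁻¹ *
        ∑ z : ZMod N, ZMod.stdAddChar (-(y * z)) * φ (Function.update x i z) := by
      intro y
      rw [pJ_apply]
      simp only [Function.update_self, Function.update_idem]
    simp only [h2, Finset.mul_sum, Finset.sum_mul]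
    rw [Finset.sum_comm]
    refine Finset.sum_congr rfl fun z _ => Finset.sum_congr rfl fun y _ => ?_
    have h3 : (ZMod.stdAddChar (y * (-(x i) - z)) : ℂ) =
        ZMod.stdAddChar (-(x i * y)) * ZMod.stdAddChar (-(y * z)) := by
      rw [← AddChar.map_add_eq_mul]
      congr 1
      ring
    rw [h3]
    ring
  rw [h1, ← mul_inv, sqrt_sq']
  simp only [AddChar.sum_mulShift _ (ZMod.isPrimitive_stdAddChar N)]
  rw [Finset.sum_eq_single (-x i)]
  · rw [sub_self, if_pos rfl, ZMod.card]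
    field_simp
  · intro z _ hz
    rw [if_neg (fun h0 => hz (sub_eq_zero.1 h0).symm)]
    simp
  · intro h
    exact absurd (Finset.mem_univ _) h

theorem det_pJ (N : ℕ) [NeZero N] (i : ι) : LinearMap.det (pJ N i : Op N ι) ^ (4 * N) = 1 := by
  have h1 : ((pJ N i ∘ₗ pJ N i) ∘ₗ (pJ N i ∘ₗ pJ N i) : Op N ι) = LinearMap.id := by
    refine LinearMap.ext fun φ => funext fun x => ?_
    change pJ N i (pJ N i (pJ N i (pJ N i φ))) x = φ x
    rw [pJ_sq, pJ_sq]
    simp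
  have h2 : LinearMap.det (pJ N i : Op N ι) ^ 4 = 1 := by
    have h3 := congrArg LinearMap.det h1
    rw [LinearMap.det_comp, LinearMap.det_comp, LinearMap.det_id] at h3
    rw [← h3]
    ring
  rw [pow_mul, h2, one_pow]

theorem pJ_mem (N : ℕ) [NeZero N] (i : ι) : pJ N i ∈ NN N ι := by
  refine ⟨det_pJ N i, fun a b => ⟨Function.update a i (-b i), Function.update b i (a i),
    ZMod.stdAddChar (a i * b i), ch_pow2 N _, ?_⟩⟩
  refine LinearMap.ext fun φ => funext fun x => ?_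
  have e1 : (pJ N i ∘ₗ (hX N a ∘ₗ hZ N b)) φ x = ((Real.sqrt N : ℝ) : ℂ)⁻¹ *
      ∑ y : ZMod N, ZMod.stdAddChar (-(x i * y)) *
        (ZMod.stdAddChar (b ⬝ᵥ (Function.update x i y + a)) *
          φ (Function.update x i y + a)) := rfl
  have e2 : (ZMod.stdAddChar (a i * b i) • ((hX N (Function.update a i (-b i)) ∘ₗ
      hZ N (Function.update b i (a i))) ∘ₗ pJ N i)) φ x = ZMod.stdAddChar (a i * b i) *
      (ZMod.stdAddChar (Function.update b i (a i) ⬝ᵥ (x + Function.update a i (-b i))) *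
        (((Real.sqrt N : ℝ) : ℂ)⁻¹ * ∑ y : ZMod N,
          ZMod.stdAddChar (-((x + Function.update a i (-b i)) i * y)) *
            φ (Function.update (x + Function.update a i (-b i)) i y))) := rfl
  rw [e1, e2]
  have e3 : ∀ y : ZMod N, Function.update x i y + a = Function.update (x + a) i (y + a i) := by
    intro y
    funext j
    by_cases hj : j = i
    · subst hj; simp
    · simp [hj]
  have e4 : ∀ y : ZMod N, Function.update (x + Function.update a i (-b i)) i y =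
      Function.update (x + a) i y := by
    intro y
    funext j
    by_cases hj : j = i
    · subst hj; simp
    · simp [hj]
  have hup : ∀ (w : ι → ZMod N) (z : ZMod N), b ⬝ᵥ Function.update w i z =
      b ⬝ᵥ w + b i * (z - w i) := by
    intro w z
    have h1 : Function.update w i z = w + Pi.single i (z - w i) := by
      funext j
      by_cases hj : j = i
      · subst hj; simp
      · simp [hj]
    rw [h1, dotProduct_add, dotProduct_single]
  have hub : ∀ (w : ι → ZMod N) (z : ZMod N), Function.update b i z ⬝ᵥ w =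
      b ⬝ᵥ w + (z - b i) * w i := by
    intro w z
    have h1 : Function.update b i z = b + Pi.single i (z - b i) := by
      funext j
      by_cases hj : j = i
      · subst hj; simp
      · simp [hj]
    rw [h1, add_dotProduct, single_dotProduct]
  have e6 : x + Function.update a i (-b i) = Function.update (x + a) i (x i - b i) := by
    funext j
    by_cases hj : j = i
    · subst hj; simp [sub_eq_add_neg]
    · simp [hj]
  have e5 : ∀ z : ZMod N, (ZMod.stdAddChar (-(x i * (z - a i))) : ℂ) *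
        (ZMod.stdAddChar (b ⬝ᵥ (Function.update (x + a) i z)) * φ (Function.update (x + a) i z)) =
      ZMod.stdAddChar (a i * b i) *
      (ZMod.stdAddChar (Function.update b i (a i) ⬝ᵥ (x + Function.update a i (-b i))) *
        (ZMod.stdAddChar (-((x + Function.update a i (-b i)) i * z)) *
            φ (Function.update (x + a) i z))) := by
    intro z
    have h1 : (ZMod.stdAddChar (-(x i * (z - a i))) : ℂ) *
        ZMod.stdAddChar (b ⬝ᵥ (Function.update (x + a) i z)) = ZMod.stdAddChar (a i * b i) *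
        ZMod.stdAddChar (Function.update b i (a i) ⬝ᵥ (x + Function.update a i (-b i))) *
        ZMod.stdAddChar (-((x + Function.update a i (-b i)) i * z)) := by
      rw [← AddChar.map_add_eq_mul, ← AddChar.map_add_eq_mul, ← AddChar.map_add_eq_mul]
      congr 1
      rw [e6, hub, hup, hup, Function.update_self, Pi.add_apply]
      ring
    rw [← mul_assoc, h1]
    ring
  simp only [e3, e4]
  have e7 : ∑ y : ZMod N, (ZMod.stdAddChar (-(x i * y)) : ℂ) *
        (ZMod.stdAddChar (b ⬝ᵥ (Function.update (x + a) i (y + a i))) *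
          φ (Function.update (x + a) i (y + a i))) =
      ∑ z : ZMod N, (ZMod.stdAddChar (-(x i * (z - a i))) : ℂ) *
        (ZMod.stdAddChar (b ⬝ᵥ (Function.update (x + a) i z)) *
          φ (Function.update (x + a) i z)) := by
    refine Fintype.sum_equiv (Equiv.addRight (a i)) _ _ fun y => ?_
    rw [Equiv.coe_addRight, add_sub_cancel_right]
  rw [e7, Finset.sum_congr rfl fun z _ => e5 z, ← Finset.mul_sum, ← Finset.mul_sum]
  ring

end

end Pool.CMH
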