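import Pool.Agent.Lib.CMH.P1Defs

/-!
# TANK CMH, P1, row TH5b: the laws of the translations and of the changes of basis
-/

set_option autoImplicit false

namespace Pool.CMH

open Matrix Complex Real

noncomputable section

variable {ι : Type} [Fintype ι]

/-- integral vectors as complex vectors -/
def TH5b_cv (x : ι → ℤ) : ι → ℂ := fun i => (x i : ℂ)

theorem TH5b_qf (Z : Matrix ι ι ℂ) (x : ι → ℤ) :
    qf Z x = TH5b_cv x ⬝ᵥ (Z *ᵥ TH5b_cv x) := by
  simp only [qf, TH5b_cv, dotProduct, mulVec, Finset.mul_sum]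
  refine Finset.sum_congr rfl fun i _ => Finset.sum_congr rfl fun j _ => ?_
  ring

theorem TH5b_lf (u : ι → ℂ) (x : ι → ℤ) : lf u x = TH5b_cv x ⬝ᵥ u := by
  simp only [lf, TH5b_cv, dotProduct]

/-- the integral quadratic form of a symmetric matrix modulo `2 N` -/
theorem TH5b_mod {N : ℕ} (hN : Even N) {B : Matrix ι ι ℤ} (hB : Bᵀ = B) (x z : ι → ℤ) :
    ∃ k : ℤ, (∑ i, ∑ j, (x i + N * z i) * (x j + N * z j) * B i j) =
      (∑ i, ∑ j, x i * x j * B i j) + N * (2 * k) := by
  obtain ⟨m, hm⟩ := hN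
  refine ⟨(∑ i, ∑ j, x i * z j * B i j) + m * ∑ i, ∑ j, z i * z j * B i j, ?_⟩
  have hs : (∑ i, ∑ j, z i * x j * B i j) = ∑ i, ∑ j, x i * z j * B i j := by
    rw [Finset.sum_comm]
    refine Finset.sum_congr rfl fun i _ => Finset.sum_congr rfl fun j _ => ?_
    have h1 : B j i = B i j := by
      have := congrFun (congrFun hB i) j
      simpa [Matrix.transpose_apply] using this
    rw [h1]; ring
  have h1 : (∑ i, ∑ j, (x i + N * z i) * (x j + N * z j) * B i j) =
      (∑ i, ∑ j, x i * x j * B i j) + N * (∑ i, ∑ j, x i * z j * B i j) +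
        N * (∑ i, ∑ j, z i * x j * B i j) + N * N * (∑ i, ∑ j, z i * z j * B i j) := by
    simp only [Finset.mul_sum, ← Finset.sum_add_distrib]
    refine Finset.sum_congr rfl fun i _ => Finset.sum_congr rfl fun j _ => ?_
    ring
  have h2 : (N : ℤ) = 2 * m := by rw [hm]; push_cast; ring
  rw [h1, hs, h2]; ring

omit [Fintype ι] in
theorem TH5b_red (N : ℕ) [NeZero N] (x : ι → ℤ) :
    ∃ z : ι → ℤ, ∀ i, x i = ((red N x i).val : ℤ) + N * z i := by
  refine ⟨fun i => x i / N, fun i => ?_⟩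
  have h : ((red N x i).val : ℤ) = x i % N := by
    simp only [red]
    exact ZMod.val_intCast (x i)
  rw [h]
  exact (Int.emod_add_mul_ediv (x i) N).symm

variable [DecidableEq ι]

theorem law_B (N : ℕ) [NeZero N] (hN : Even N) {B : Matrix ι ι ℤ} (hB : Bᵀ = B) :
    Law N (nB B) (pB N B) 1 (fun _ => 1) := by
  have hau : ∀ Z : Matrix ι ι ℂ, au (nB B) Z = 1 := by
    intro Z
    simp only [au, bC, bD, nB, toBlocks_fromBlocks₂₁, toBlocks_fromBlocks₂₂]
    rw [Matrix.map_zero _ (by simp), Matrix.zero_mul, zero_add]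
    exact Matrix.map_one _ (by simp) (by simp)
  have hmv : ∀ Z : Matrix ι ι ℂ, mv (nB B) Z = Z + B.map (fun z : ℤ => (z : ℂ)) := by
    intro Z
    simp only [mv, hau]
    simp only [bA, bB, nB, toBlocks_fromBlocks₁₁, toBlocks_fromBlocks₁₂]
    rw [Matrix.map_one _ (by simp) (by simp), Matrix.one_mul, inv_one, Matrix.mul_one]
  refine ⟨by norm_num, continuousOn_const, fun Z _ => by simp [hau], fun Z hZ φ u => ?_⟩
  have huu : uu (nB B) Z u = u := by simp [uu, hau]
  have hee : ee N (nB B) Z u = 1 := by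
    have : bC (nB B) = 0 := by
      simp only [bC, nB, toBlocks_fromBlocks₂₁]
      exact Matrix.map_zero _ (by simp)
    simp [ee, qq, this]
  rw [huu, hee, hmv]
  simp only [one_mul]
  simp only [theta]
  refine tsum_congr fun x => ?_
  obtain ⟨z, hz⟩ := TH5b_red N x
  set y : ι → ℤ := fun i => ((red N x i).val : ℤ) with hy
  obtain ⟨k, hk⟩ := TH5b_mod (N := N) hN hB y z
  have hx : ∀ i, x i = y i + N * z i := hz
  have hq : qf (B.map (fun z : ℤ => (z : ℂ))) x =
      qf (B.map (fun z : ℤ => (z : ℂ))) y + N * (2 * k) := by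
    have h1 : ∀ w : ι → ℤ, qf (B.map (fun z : ℤ => (z : ℂ))) w =
        ((∑ i, ∑ j, w i * w j * B i j : ℤ) : ℂ) := by
      intro w
      simp only [qf, Matrix.map_apply]
      push_cast
      rfl
    rw [h1, h1]
    have h2 : (∑ i, ∑ j, x i * x j * B i j) = ∑ i, ∑ j, (y i + N * z i) * (y j + N * z j) * B i j :=
      Finset.sum_congr rfl fun i _ => Finset.sum_congr rfl fun j _ => by rw [hx i, hx j]
    rw [h2, hk]
    push_cast
    ring
  have hN0 : (N : ℂ) ≠ 0 := by exact_mod_cast NeZero.ne N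
  have hadd : qf (Z + B.map (fun z : ℤ => (z : ℂ))) x =
      qf Z x + qf (B.map (fun z : ℤ => (z : ℂ))) x := by
    rw [TH5b_qf, TH5b_qf, TH5b_qf, Matrix.add_mulVec, dotProduct_add]
  have hexp : tm N (Z + B.map (fun z : ℤ => (z : ℂ))) u x =
      cexp (π * I * qf (B.map (fun z : ℤ => (z : ℂ))) y / N) * tm N Z u x := by
    simp only [tm]
    rw [hadd, hq, ← Complex.exp_add]
    have : (π * I * (qf Z x + (qf (B.map (fun z : ℤ => (z : ℂ))) y + N * (2 * k))) / N +
        2 * π * I * lf u x : ℂ) =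
        (π * I * qf (B.map (fun z : ℤ => (z : ℂ))) y / N +
          (π * I * qf Z x / N + 2 * π * I * lf u x)) + k * (2 * π * I) := by
      field_simp
      ring
    rw [this, Complex.exp_periodic.int_mul k]
  rw [hexp]
  simp only [pB, LinearMap.coe_mk, AddHom.coe_mk]
  ring

theorem TH5b_det {A : Matrix ι ι ℤ} (hA : IsUnit A.det) : A.det = 1 ∨ A.det = -1 :=
  Int.isUnit_iff.mp hA

theorem law_A (N : ℕ) [NeZero N] {A : Matrix ι ι ℤ} (hA : IsUnit A.det) :
    Law N (mA A) (pA N A) ((A.det : ℤ) : ℂ) (fun _ => 1) := by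
  set cst : Matrix ι ι ℤ → Matrix ι ι ℂ := fun M => M.map (fun z : ℤ => (z : ℂ)) with hcst
  have cmul : ∀ M M' : Matrix ι ι ℤ, cst (M * M') = cst M * cst M' := by
    intro M M'
    exact Matrix.map_mul (f := Int.castRingHom ℂ)
  have cone : cst 1 = 1 := Matrix.map_one _ (by simp) (by simp)
  have ctr : ∀ M : Matrix ι ι ℤ, cst Mᵀ = (cst M)ᵀ := fun M => rfl
  have hAi : A * A⁻¹ = 1 := Matrix.mul_nonsing_inv A hA
  have hiA : A⁻¹ * A = 1 := Matrix.nonsing_inv_mul A hA
  have cdet : ∀ M : Matrix ι ι ℤ, (cst M).det = ((M.det : ℤ) : ℂ) := by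
    intro M
    exact ((Int.castRingHom ℂ).map_det M).symm
  have hbC : bC (mA A) = 0 := by
    simp only [bC, mA, toBlocks_fromBlocks₂₁]
    exact Matrix.map_zero _ (by simp)
  have hau : ∀ Z : Matrix ι ι ℂ, au (mA A) Z = cst (A⁻¹)ᵀ := by
    intro Z
    simp only [au, hbC, Matrix.zero_mul, zero_add]
    simp only [bD, mA, toBlocks_fromBlocks₂₂, hcst]
  have haui : (cst (A⁻¹)ᵀ)⁻¹ = cst Aᵀ := by
    refine Matrix.inv_eq_right_inv ?_
    rw [← cmul, ← Matrix.transpose_mul, hAi, Matrix.transpose_one, cone]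
  have hmv : ∀ Z : Matrix ι ι ℂ, mv (mA A) Z = cst A * Z * cst Aᵀ := by
    intro Z
    simp only [mv, hau, haui]
    have h1 : bA (mA A) = cst A := by simp only [bA, mA, toBlocks_fromBlocks₁₁, hcst]
    have h2 : bB (mA A) = 0 := by
      simp only [bB, mA, toBlocks_fromBlocks₁₂]
      exact Matrix.map_zero _ (by simp)
    rw [h1, h2, add_zero]
  have hdd : ((A.det : ℤ) : ℂ) * ((A⁻¹).det : ℤ) = 1 := by
    have : A.det * (A⁻¹).det = 1 := by rw [← Matrix.det_mul, hAi, Matrix.det_one]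
    exact_mod_cast this
  refine ⟨?_, continuousOn_const, fun Z _ => ?_, fun Z hZ φ u => ?_⟩
  · rcases TH5b_det hA with h | h <;> rw [h] <;> norm_num
  · rw [hau, cdet, Matrix.det_transpose, hdd]; norm_num
  have huu : uu (mA A) Z u = cst A *ᵥ u := by
    simp only [uu, hau, haui]
    rw [ctr, Matrix.transpose_transpose]
  have hee : ee N (mA A) Z u = 1 := by simp [ee, qq, hbC]
  rw [huu, hee, hmv]
  simp only [one_mul]
  simp only [theta]
  let e : (ι → ℤ) ≃ (ι → ℤ) :=
    { toFun := fun x => Aᵀ *ᵥ x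
      invFun := fun x => (A⁻¹)ᵀ *ᵥ x
      left_inv := fun x => by
        simp only [Matrix.mulVec_mulVec]
        rw [← Matrix.transpose_mul, hAi, Matrix.transpose_one, Matrix.one_mulVec]
      right_inv := fun x => by
        simp only [Matrix.mulVec_mulVec]
        rw [← Matrix.transpose_mul, hiA, Matrix.transpose_one, Matrix.one_mulVec] }
  rw [← e.tsum_eq (fun x => (pA N A) φ (red N x) * tm N Z u x)]
  refine tsum_congr fun x => ?_
  have he : e x = Aᵀ *ᵥ x := rfl
  have hcv : TH5b_cv (e x) = cst Aᵀ *ᵥ TH5b_cv x := by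
    funext i
    simp only [he, TH5b_cv, mulVec, dotProduct, hcst, Matrix.map_apply]
    push_cast
    rfl
  have hq : qf (cst A * Z * cst Aᵀ) x = qf Z (e x) := by
    rw [TH5b_qf, TH5b_qf, hcv, ← Matrix.mulVec_mulVec, ← Matrix.mulVec_mulVec,
      Matrix.dotProduct_mulVec (TH5b_cv x) (cst A), ← Matrix.mulVec_transpose, ← ctr]
  have hl : lf (cst A *ᵥ u) x = lf u (e x) := by
    rw [TH5b_lf, TH5b_lf, hcv, Matrix.dotProduct_mulVec (TH5b_cv x) (cst A),
      ← Matrix.mulVec_transpose, ← ctr]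
  have hr : (((A⁻¹)ᵀ).map (fun z : ℤ => (z : ZMod N))) *ᵥ red N (e x) = red N x := by
    have h1 : ∀ w : ι → ℤ, (((A⁻¹)ᵀ).map (fun z : ℤ => (z : ZMod N))) *ᵥ red N w =
        red N ((A⁻¹)ᵀ *ᵥ w) := by
      intro w
      funext i
      simp only [red, mulVec, dotProduct, Matrix.map_apply]
      push_cast
      rfl
    rw [h1]
    congr 1
    exact e.symm_apply_apply x
  have ht : tm N (cst A * Z * cst Aᵀ) (cst A *ᵥ u) x = tm N Z u (e x) := by
    simp only [tm, hq, hl]
  rw [ht]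
  simp only [pA, LinearMap.coe_mk, AddHom.coe_mk]
  rw [hr]

end

end Pool.CMH
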