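import Pool.Agent.Lib.CMH.TH5a

/-!
# TANK CMH, row TH5c: composition of transformation laws (helper24)
-/

set_option autoImplicit false

namespace Pool.CMH

open Matrix Complex Real

noncomputable section

variable {ι : Type} [Fintype ι] [DecidableEq ι]

theorem Law.mul {N : ℕ} {M M' : Matrix (ι ⊕ ι) (ι ⊕ ι) ℤ} (hM : M ∈ symplecticGroup ι ℤ)
    (hM' : M' ∈ symplecticGroup ι ℤ) {P P' : Op N ι} {κ κ' : ℂ} {m m' : Matrix ι ι ℂ → ℂ}
    (h : Law N M P κ m) (h' : Law N M' P' κ' m') :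
    Law N (M * M') (P' ∘ₗ P) (κ * κ') (fun Z => m (mv M' Z) * m' Z) where
  κ4 := by rw [mul_pow, h.κ4, h'.κ4, one_mul]
  cont := (h.cont.comp (mv_continuous hM') fun Z hZ => mv_mem hM' hZ).mul h'.cont
  sq := by
    intro Z hZ
    rw [mul_pow, h.sq _ (mv_mem hM' hZ), h'.sq _ hZ, au_mul hM' hZ, Matrix.det_mul]
    ring
  law := by
    intro Z hZ φ u
    rw [mv_mul hM hM' hZ, uu_mul hM hM' hZ, h.law _ (mv_mem hM' hZ), h'.law _ hZ,
      ee_mul N hM hM' hZ, LinearMap.comp_apply]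
    ring

end

end Pool.CMH
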