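import Pool.Agent.Lib.CMH.TH2
import Pool.Agent.Lib.CMH.TH3
import Pool.Agent.Lib.CMH.TH4
import Pool.Agent.Lib.CMH.TH5b
import Pool.Agent.Lib.CMH.TH5c

/-!
# TANK CMH, row TH5d: every integral symplectic matrix has a transformation law (helper24)
-/

set_option autoImplicit false

namespace Pool.CMH

open Matrix Complex Real

noncomputable section

variable {ι : Type} [Fintype ι] [DecidableEq ι]

theorem exists_law (N : ℕ) [NeZero N] (hN : Even N) {M : Matrix (ι ⊕ ι) (ι ⊕ ι) ℤ}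
    (hM : M ∈ symplecticGroup ι ℤ) :
    ∃ P ∈ NN N ι, ∃ (κ : ℂ) (m : Matrix ι ι ℂ → ℂ), Law N M P κ m := by
  refine sp_gen (fun M => ∃ P ∈ NN N ι, ∃ (κ : ℂ) (m : Matrix ι ι ℂ → ℂ), Law N M P κ m)
    ?_ ?_ ?_ ?_ M hM
  · rintro M hM M' hM' ⟨P, hP, κ, m, h⟩ ⟨P', hP', κ', m', h'⟩
    exact ⟨_, NN_mul N hP' hP, _, _, Law.mul hM hM' h h'⟩
  · intro B hB
    exact ⟨_, pB_mem N hN hB, _, _, law_B N hN hB⟩
  · intro A hA
    exact ⟨_, pA_mem N hA, _, _, law_A N hA⟩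
  · intro i
    exact ⟨_, pJ_mem N i, _, _, law_J N i⟩

end

end Pool.CMH
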