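import Pool.Agent.Lib.CMH.TH5d

/-!
# TANK CMH, TH6: the abstract invariance theorem
-/

set_option autoImplicit false

namespace Pool.CMH

open Matrix Complex Real

noncomputable section

variable {ι : Type} [Fintype ι] [DecidableEq ι]

theorem th6_au_one (Z : Matrix ι ι ℂ) : au (1 : Matrix (ι ⊕ ι) (ι ⊕ ι) ℤ) Z = 1 := by
  have h1 : bC (1 : Matrix (ι ⊕ ι) (ι ⊕ ι) ℤ) = 0 := by
    ext i j
    simp [bC, toBlocks₂₁]
  have h2 : bD (1 : Matrix (ι ⊕ ι) (ι ⊕ ι) ℤ) = 1 := by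
    ext i j
    by_cases h : i = j
    · subst h
      simp [bD, toBlocks₂₂]
    · simp [bD, toBlocks₂₂, Matrix.one_apply, h]
  rw [au, h1, h2, Matrix.zero_mul, zero_add]

theorem th6_uu_one (Z : Matrix ι ι ℂ) (u : ι → ℂ) :
    uu (1 : Matrix (ι ⊕ ι) (ι ⊕ ι) ℤ) Z u = u := by
  rw [uu, th6_au_one, inv_one, transpose_one, one_mulVec]

theorem th6_ee_one (N : ℕ) (Z : Matrix ι ι ℂ) (u : ι → ℂ) :
    ee N (1 : Matrix (ι ⊕ ι) (ι ⊕ ι) ℤ) Z u = 1 := by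
  have h1 : bC (1 : Matrix (ι ⊕ ι) (ι ⊕ ι) ℤ) = 0 := by
    ext i j
    simp [bC, toBlocks₂₁]
  rw [ee, qq, h1, Matrix.mul_zero, zero_mulVec, dotProduct_zero, mul_zero, Complex.exp_zero]

section

variable {G X : Type} [Group G] [MulAction G X] (N : ℕ) (Zx : X → Matrix ι ι ℂ)
  (ρ : G →* Matrix (ι ⊕ ι) (ι ⊕ ι) ℤ) (J : G → X → ℂ)

/-- the right action on functions -/
def th6_S (γ : G) (F : X → (ι → ℂ) → ℂ) : X → (ι → ℂ) → ℂ :=
  fun x u => (J γ x)⁻¹ * (ee N (ρ γ) (Zx x) u)⁻¹ * F (γ • x) (uu (ρ γ) (Zx x) u)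

theorem th6_S_mul (hZ : ∀ x, Zx x ∈ Sieg ι) (hρ : ∀ γ, ρ γ ∈ symplecticGroup ι ℤ)
    (hact : ∀ γ x, Zx (γ • x) = mv (ρ γ) (Zx x))
    (hJm : ∀ γ γ' x, J (γ * γ') x = J γ (γ' • x) * J γ' x) (γ γ' : G)
    (F : X → (ι → ℂ) → ℂ) :
    th6_S N Zx ρ J (γ * γ') F = th6_S N Zx ρ J γ' (th6_S N Zx ρ J γ F) := by
  funext x u
  simp only [th6_S]
  rw [map_mul, ee_mul N (hρ γ) (hρ γ') (hZ x), uu_mul (hρ γ) (hρ γ') (hZ x), hJm, mul_smul,
    hact γ' x, mul_inv, mul_inv]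
  ring

theorem th6_J_ne (hZ : ∀ x, Zx x ∈ Sieg ι) (hρ : ∀ γ, ρ γ ∈ symplecticGroup ι ℤ)
    (hJ : ∀ γ x, J γ x ^ 2 = (au (ρ γ) (Zx x)).det) (γ : G) (x : X) : J γ x ≠ 0 := by
  intro h
  have h1 := hJ γ x
  rw [h] at h1
  exact (au_isUnit (hρ γ) (hZ x)).ne_zero (by rw [← h1]; norm_num)

theorem th6_S_one (hZ : ∀ x, Zx x ∈ Sieg ι) (hρ : ∀ γ, ρ γ ∈ symplecticGroup ι ℤ)
    (hJ : ∀ γ x, J γ x ^ 2 = (au (ρ γ) (Zx x)).det)
    (hJm : ∀ γ γ' x, J (γ * γ') x = J γ (γ' • x) * J γ' x)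
    (F : X → (ι → ℂ) → ℂ) : th6_S N Zx ρ J 1 F = F := by
  funext x u
  have h1 : J 1 x = 1 := by
    have h2 := hJm 1 1 x
    rw [mul_one, one_smul] at h2
    have h3 := th6_J_ne Zx ρ J hZ hρ hJ 1 x
    exact (mul_right_cancel₀ h3 (by rw [one_mul]; exact h2)).symm
  simp only [th6_S]
  rw [map_one, th6_ee_one, th6_uu_one, one_smul, h1]
  simp

end

/-- one element: a constant and an operator of the finite group -/
theorem th6_step (N : ℕ) [NeZero N] (hN : Even N) {G X : Type} [Group G] [MulAction G X]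
    [TopologicalSpace X] [PreconnectedSpace X] (Zx : X → Matrix ι ι ℂ) (hZc : Continuous Zx)
    (hZ : ∀ x, Zx x ∈ Sieg ι) (ρ : G →* Matrix (ι ⊕ ι) (ι ⊕ ι) ℤ)
    (hρ : ∀ γ, ρ γ ∈ symplecticGroup ι ℤ) (hact : ∀ γ x, Zx (γ • x) = mv (ρ γ) (Zx x))
    (J : G → X → ℂ) (hJc : ∀ γ, Continuous (J γ))
    (hJ : ∀ γ x, J γ x ^ 2 = (au (ρ γ) (Zx x)).det) (γ : G) :
    ∃ P ∈ NN N ι, ∃ c : ℂ, c ^ 8 = 1 ∧ ∀ (φ : (ι → ZMod N) → ℂ),
      th6_S N Zx ρ J γ (fun x u => theta N φ (Zx x) u) =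
        fun x u => c * theta N (P φ) (Zx x) u := by
  obtain ⟨P, hP, κ, m, hL⟩ := exists_law (ι := ι) N hN (hρ γ)
  obtain ⟨c₀, hc₀⟩ : ∃ c₀ : ℂ, c₀ ^ 2 = κ := by
    obtain ⟨c₀, hc₀⟩ := IsAlgClosed.exists_pow_nat_eq κ (n := 2) (by norm_num)
    exact ⟨c₀, hc₀⟩
  have hκ : κ ≠ 0 := by
    intro h
    have := hL.κ4
    rw [h] at this
    norm_num at this
  have hc₀' : c₀ ≠ 0 := by
    intro h
    rw [h] at hc₀
    exact hκ (by rw [← hc₀]; norm_num)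
  have hJ0 := th6_J_ne Zx ρ J hZ hρ hJ γ
  have hsq : ∀ x, (m (Zx x) / J γ x) ^ 2 = c₀ ^ 2 := by
    intro x
    rw [div_pow, hL.sq _ (hZ x), hJ, hc₀, mul_div_assoc, div_self, mul_one]
    exact (au_isUnit (hρ γ) (hZ x)).ne_zero
  have hcont : ContinuousOn (fun x => m (Zx x) / J γ x) (Set.univ : Set X) := by
    refine ContinuousOn.div ?_ (hJc γ).continuousOn fun x _ => hJ0 x
    exact hL.cont.comp hZc.continuousOn fun x _ => hZ x
  have hconst : ∃ c : ℂ, c ^ 2 = κ ∧ ∀ x, m (Zx x) / J γ x = c := by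
    rcases (isPreconnected_univ (α := X)).eq_or_eq_neg_of_sq_eq hcont
      (continuousOn_const (c := c₀)) (fun x _ => by simpa using hsq x)
      (fun {x} _ => hc₀') with h | h
    · exact ⟨c₀, hc₀, fun x => h (Set.mem_univ x)⟩
    · exact ⟨-c₀, by rw [neg_sq, hc₀], fun x => h (Set.mem_univ x)⟩
  obtain ⟨c, hc, hcx⟩ := hconst
  refine ⟨P, hP, c, ?_, fun φ => ?_⟩
  · calc c ^ 8 = (c ^ 2) ^ 4 := by ring
      _ = 1 := by rw [hc, hL.κ4]
  · funext x u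
    simp only [th6_S]
    rw [hact γ x, hL.law _ (hZ x)]
    have h1 : m (Zx x) = c * J γ x := by
      rw [← hcx x, div_mul_cancel₀ _ (hJ0 x)]
    have h2 : ee N (ρ γ) (Zx x) u ≠ 0 := Complex.exp_ne_zero _
    rw [h1]
    have h3 := hJ0 x
    field_simp

/-- **abstract form**: a group `G` acting on a connected space `X`, with an equivariant continuous
map to the Siegel space and a continuous cocycle `J` with `J² = det (C Z + D)` -/
theorem invariance (N : ℕ) [NeZero N] (hN : Even N) {G X : Type} [Group G] [MulAction G X]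
    [TopologicalSpace X] [PreconnectedSpace X] (Zx : X → Matrix ι ι ℂ) (hZc : Continuous Zx)
    (hZ : ∀ x, Zx x ∈ Sieg ι) (ρ : G →* Matrix (ι ⊕ ι) (ι ⊕ ι) ℤ)
    (hρ : ∀ γ, ρ γ ∈ symplecticGroup ι ℤ) (hact : ∀ γ x, Zx (γ • x) = mv (ρ γ) (Zx x))
    (J : G → X → ℂ) (hJc : ∀ γ, Continuous (J γ))
    (hJ : ∀ γ x, J γ x ^ 2 = (au (ρ γ) (Zx x)).det)
    (hJm : ∀ γ γ' x, J (γ * γ') x = J γ (γ' • x) * J γ' x) :
    ∃ Γ : Subgroup G, Γ.FiniteIndex ∧ ∀ γ ∈ Γ, ∀ (x : X) (φ : (ι → ZMod N) → ℂ) (u : ι → ℂ),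
      theta N φ (Zx (γ • x)) (uu (ρ γ) (Zx x) u) =
        J γ x * ee N (ρ γ) (Zx x) u * theta N φ (Zx x) u := by
  classical
  let Th : ((ι → ZMod N) → ℂ) → X → (ι → ℂ) → ℂ := fun φ x u => theta N φ (Zx x) u
  have hmul := th6_S_mul N Zx ρ J hZ hρ hact hJm
  have hone := th6_S_one N Zx ρ J hZ hρ hJ hJm
  let Γ : Subgroup G :=
    { carrier := {γ | ∀ φ, th6_S N Zx ρ J γ (Th φ) = Th φ}
      one_mem' := fun φ => hone _
      mul_mem' := by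
        intro a b ha hb φ
        rw [hmul, ha φ, hb φ]
      inv_mem' := by
        intro a ha φ
        have h1 : th6_S N Zx ρ J a⁻¹ (th6_S N Zx ρ J a (Th φ)) = Th φ := by
          rw [← hmul, mul_inv_cancel, hone]
        rw [ha φ] at h1
        exact h1 }
  -- the finite set of values
  let f : G → (((ι → ZMod N) → ℂ) → X → (ι → ℂ) → ℂ) := fun γ φ => th6_S N Zx ρ J γ⁻¹ (Th φ)
  have hfin : (Set.range f).Finite := by
    have h8 : {c : ℂ | c ^ 8 = 1}.Finite := by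
      have : {c : ℂ | c ^ 8 = 1} ⊆ ((Polynomial.nthRoots 8 (1 : ℂ)).toFinset : Set ℂ) := by
        intro c hc
        simp only [Finset.mem_coe, Multiset.mem_toFinset]
        exact (Polynomial.mem_nthRoots (by norm_num)).2 hc
      exact (Finset.finite_toSet _).subset this
    refine ((h8.prod (NN_finite (ι := ι) N)).image
      (fun q => (fun φ x u => q.1 * theta N (q.2 φ) (Zx x) u))).subset ?_
    rintro _ ⟨γ, rfl⟩
    obtain ⟨P, hP, c, hc, h⟩ := th6_step N hN Zx hZc hZ ρ hρ hact J hJc hJ γ⁻¹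
    exact ⟨(c, P), ⟨hc, hP⟩, by funext φ; exact (h φ).symm⟩
  have hfr : Finite (Set.range f) := hfin.to_subtype
  have hq : Finite (G ⧸ Γ) := by
    refine Finite.of_surjective
      (fun s : Set.range f => (QuotientGroup.mk (Classical.choose s.2) : G ⧸ Γ)) ?_
    intro q
    induction q using QuotientGroup.induction_on with
    | H γ =>
      refine ⟨⟨f γ, γ, rfl⟩, ?_⟩
      have h1 : f (Classical.choose (⟨γ, rfl⟩ : ∃ y, f y = f γ)) = f γ :=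
        Classical.choose_spec (⟨γ, rfl⟩ : ∃ y, f y = f γ)
      set γ' := Classical.choose (⟨γ, rfl⟩ : ∃ y, f y = f γ) with hγ'
      refine QuotientGroup.eq.2 ?_
      show ∀ φ, th6_S N Zx ρ J (γ'⁻¹ * γ) (Th φ) = Th φ
      intro φ
      have h2 : th6_S N Zx ρ J γ'⁻¹ (Th φ) = th6_S N Zx ρ J γ⁻¹ (Th φ) := congrFun h1 φ
      rw [hmul, h2, ← hmul, inv_mul_cancel, hone]
  refine ⟨Γ, Subgroup.finiteIndex_of_finite_quotient, fun γ hγ x φ u => ?_⟩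
  have h1 : th6_S N Zx ρ J γ (Th φ) x u = Th φ x u := by
    have h0 : th6_S N Zx ρ J γ (Th φ) = Th φ := hγ φ
    rw [h0]
  simp only [th6_S, Th] at h1
  have h2 : ee N (ρ γ) (Zx x) u ≠ 0 := Complex.exp_ne_zero _
  have h3 := th6_J_ne Zx ρ J hZ hρ hJ γ x
  rw [← h1]
  field_simp

end

end Pool.CMH
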