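import Pool.Agent.Lib.CMH.P1Geo

/-!
# TANK CMH, row TH7 (helper71): from the number field to integral symplectic matrices. Definitions

`F` a number field, `om` a `ℤ`-basis of `𝓞 F`, `os` its dual basis for the trace form.
Positions `p ∈ F^κ` have the coordinates `x` with `p k = ∑ i, x (k,i) om i`, momenta `q ∈ F^κ` the
coordinates `Tr (q k * om i)`.
-/

set_option autoImplicit false

namespace Pool.CMH

open Matrix Complex NumberField

noncomputable section

variable {F : Type} [Field F] [NumberField F]

/-- the dual basis for the trace form -/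
def os (i : KF F) : F := (integralBasis F).traceDual i

variable {κ : Type} [Fintype κ] [DecidableEq κ]

/-- the rational matrix `Tr (p i * A k k' * q j)` -/
def tb (p q : KF F → F) (A : Matrix κ κ F) : Matrix (κ × KF F) (κ × KF F) ℚ :=
  fun x y => Algebra.trace ℚ F (p x.2 * A x.1 y.1 * q y.2)

/-- the rational symplectic matrix of `X + √(-D) Y` in coordinates (momentum; position) -/
def rhoQ (D : F) (c : κ → F) (X Y : Matrix κ κ F) :
    Matrix ((κ × KF F) ⊕ (κ × KF F)) ((κ × KF F) ⊕ (κ × KF F)) ℚ :=
  fromBlocks (tb om os (diagonal c * X * diagonal (fun k => (c k)⁻¹))) (tb om om (diagonal c * Y))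
    (tb os os (-(D • (Y * diagonal (fun k => (c k)⁻¹))))) (tb os om X)

/-- its integral version -/
def rhoZ (D : F) (c : κ → F) (X Y : Matrix κ κ F) :
    Matrix ((κ × KF F) ⊕ (κ × KF F)) ((κ × KF F) ⊕ (κ × KF F)) ℤ :=
  (rhoQ D c X Y).map Rat.num

/-- integrality -/
def IntR (D : F) (c : κ → F) (X Y : Matrix κ κ F) : Prop :=
  (rhoZ D c X Y).map (fun z : ℤ => (z : ℚ)) = rhoQ D c X Y

end

end Pool.CMH
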