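import Pool.Agent.Lib.CMH.TH7Defs

/-!
# TANK CMH, row TH7 (helper71), part a: traces and places, multiplicativity of `tb`
-/

set_option autoImplicit false
set_option linter.unusedSectionVars false

namespace Pool.CMH

open Matrix Complex NumberField

noncomputable section

variable {F : Type} [Field F] [NumberField F]

/-! ### the two dual bases -/

theorem trace_om_os (i j : KF F) :
    Algebra.trace ℚ F (om i * os j) = if i = j then 1 else 0 := by
  unfold om os
  exact Module.Basis.trace_mul_traceDual _ i j

theorem trace_os_om (i j : KF F) :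
    Algebra.trace ℚ F (os i * om j) = if i = j then 1 else 0 := by
  rw [mul_comm, trace_om_os]
  simp only [eq_comm]

theorem sum_trace_om (x : F) : ∑ i : KF F, (Algebra.trace ℚ F (x * om i) : ℚ) • os i = x := by
  have h := (integralBasis F).traceDual.sum_repr x
  conv_rhs => rw [← h]
  refine Finset.sum_congr rfl fun i _ => ?_
  rw [Module.Basis.traceDual_repr_apply]
  rfl

theorem sum_trace_os (x : F) : ∑ i : KF F, (Algebra.trace ℚ F (x * os i) : ℚ) • om i = x := by
  have h := (integralBasis F).sum_repr x
  conv_rhs => rw [← h]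
  refine Finset.sum_congr rfl fun i _ => ?_
  have h2 := Module.Basis.traceDual_repr_apply (K := ℚ) (L := F) (integralBasis F).traceDual x i
  rw [Module.Basis.traceDual_traceDual] at h2
  rw [h2]
  rfl

/-- `(p, q)` are dual to each other -/
def Dual (p q : KF F → F) : Prop := ∀ x : F, ∑ i : KF F, (Algebra.trace ℚ F (x * p i) : ℚ) • q i = x

theorem dual_om_os : Dual (F := F) om os := sum_trace_om
theorem dual_os_om : Dual (F := F) os om := sum_trace_os

variable {κ : Type} [Fintype κ] [DecidableEq κ]

theorem tb_mul {p q r s : KF F → F} (h : Dual r q) (A B : Matrix κ κ F) :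
    tb p q A * tb r s B = tb p s (A * B) := by
  ext x y
  rw [Matrix.mul_apply, Fintype.sum_prod_type]
  simp only [tb]
  rw [Matrix.mul_apply, Finset.mul_sum, Finset.sum_mul, map_sum]
  refine Finset.sum_congr rfl fun k _ => ?_
  -- the sum over the basis
  have h1 := h (B k y.1 * s y.2)
  have h2 : p x.2 * (A x.1 k * B k y.1) * s y.2 =
      ∑ i : KF F, (Algebra.trace ℚ F (B k y.1 * s y.2 * r i) : ℚ) • (p x.2 * A x.1 k * q i) := by
    have h3 : ∑ i : KF F, (Algebra.trace ℚ F (B k y.1 * s y.2 * r i) : ℚ) • (p x.2 * A x.1 k * q i)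
        = (p x.2 * A x.1 k) * ∑ i : KF F, (Algebra.trace ℚ F (B k y.1 * s y.2 * r i) : ℚ) • q i := by
      rw [Finset.mul_sum]
      refine Finset.sum_congr rfl fun i _ => ?_
      rw [mul_smul_comm]
    rw [h3, h1]
    ring
  rw [h2, map_sum]
  refine Finset.sum_congr rfl fun i _ => ?_
  rw [map_smul, smul_eq_mul, mul_comm]
  congr 2
  ring

theorem tb_transpose (p q : KF F → F) (A : Matrix κ κ F) : (tb p q A)ᵀ = tb q p Aᵀ := by
  ext x y
  simp only [tb, transpose_apply]
  congr 1
  ring

theorem tb_add (p q : KF F → F) (A B : Matrix κ κ F) : tb p q (A + B) = tb p q A + tb p q B := by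
  ext x y
  simp only [tb, Matrix.add_apply]
  rw [← map_add]
  congr 1
  ring

theorem tb_neg (p q : KF F → F) (A : Matrix κ κ F) : tb p q (-A) = -tb p q A := by
  ext x y
  simp only [tb, Matrix.neg_apply]
  rw [← map_neg]
  congr 1
  ring

theorem tb_sub (p q : KF F → F) (A B : Matrix κ κ F) : tb p q (A - B) = tb p q A - tb p q B := by
  rw [sub_eq_add_neg, tb_add, tb_neg, sub_eq_add_neg]

theorem tb_one_om_os : tb om os (1 : Matrix κ κ F) = 1 := by
  ext ⟨k, i⟩ ⟨k', j⟩
  simp only [tb]
  by_cases hk : k = k'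
  · subst hk
    rw [Matrix.one_apply_eq, mul_one, trace_om_os]
    by_cases hi : i = j
    · subst hi; simp
    · rw [if_neg hi, Matrix.one_apply_ne (by simpa using hi)]
  · rw [Matrix.one_apply_ne hk, mul_zero, zero_mul, map_zero,
      Matrix.one_apply_ne (by simp [hk])]

theorem tb_one_os_om : tb os om (1 : Matrix κ κ F) = 1 := by
  have h := congrArg Matrix.transpose (tb_one_om_os (F := F) (κ := κ))
  rwa [tb_transpose, transpose_one, transpose_one] at h

/-! ### places -/

/-- the real places and the complex embeddings of a totally real field -/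
def placeEquiv (F : Type) [Field F] [NumberField F] [IsTotallyReal F] :
    (F →+* ℝ) ≃ (F →ₐ[ℚ] ℂ) where
  toFun v := (Complex.ofRealHom.comp v).toRatAlgHom
  invFun φ := ComplexEmbedding.IsReal.embedding
    (IsTotallyReal.complexEmbedding_isReal (φ : F →+* ℂ))
  left_inv v := by
    ext x
    apply Complex.ofReal_injective
    rw [ComplexEmbedding.IsReal.coe_embedding_apply]
    rfl
  right_inv φ := by
    ext x
    change ((ComplexEmbedding.IsReal.embedding
      (IsTotallyReal.complexEmbedding_isReal (φ : F →+* ℂ)) x : ℝ) : ℂ) = φ x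
    rw [ComplexEmbedding.IsReal.coe_embedding_apply]
    rfl

theorem trace_places [IsTotallyReal F] (x : F) :
    ((Algebra.trace ℚ F x : ℚ) : ℝ) = ∑ v : F →+* ℝ, v x := by
  have h := trace_eq_sum_embeddings (K := ℚ) (L := F) ℂ (x := x)
  rw [← Equiv.sum_comp (placeEquiv F)] at h
  have h2 : ∑ v : F →+* ℝ, (placeEquiv F v) x = ((∑ v : F →+* ℝ, v x : ℝ) : ℂ) := by
    rw [Complex.ofReal_sum]
    rfl
  rw [h2] at h
  apply Complex.ofReal_injective
  rw [← h]
  simp

theorem card_places [IsTotallyReal F] : Fintype.card (F →+* ℝ) = Fintype.card (KF F) := by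
  rw [Fintype.card_congr (placeEquiv F), AlgHom.card, ← Module.finrank_eq_card_basis (integralBasis F)]

open Classical in
theorem sum_places [IsTotallyReal F] (i j : KF F) :
    ∑ v : F →+* ℝ, v (om i) * v (os j) = if i = j then 1 else 0 := by
  have h := trace_places (om i * os j)
  rw [trace_om_os] at h
  simp only [map_mul] at h
  rw [← h]
  split_ifs <;> simp

open Classical in
theorem sum_ix [IsTotallyReal F] (v w : F →+* ℝ) :
    ∑ i : KF F, v (om i) * w (os i) = if v = w then 1 else 0 := by
  obtain ⟨e⟩ : Nonempty ((F →+* ℝ) ≃ KF F) := Fintype.card_eq.mp card_places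
  -- square matrices
  let A : Matrix (F →+* ℝ) (F →+* ℝ) ℝ := fun v w => v (om (e w))
  let B : Matrix (F →+* ℝ) (F →+* ℝ) ℝ := fun v w => w (os (e v))
  have h2 : B * A = 1 := by
    ext x y
    rw [Matrix.mul_apply]
    simp only [A, B]
    have := sum_places (e y) (e x)
    rw [show (∑ j : F →+* ℝ, j (os (e x)) * j (om (e y))) = ∑ v : F →+* ℝ, v (om (e y)) * v (os (e x)) from
      Finset.sum_congr rfl fun _ _ => mul_comm _ _, this]
    by_cases hxy : x = y
    · subst hxy; simp
    · rw [Matrix.one_apply_ne hxy, if_neg]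
      exact fun h => hxy (e.injective h).symm
  have h3 : A * B = 1 := mul_eq_one_comm.mp h2
  have h4 := congrFun (congrFun h3 v) w
  rw [Matrix.mul_apply] at h4
  simp only [A, B] at h4
  rw [Equiv.sum_comp e (fun i => v (om i) * w (os i))] at h4
  rw [h4, Matrix.one_apply]

end

end Pool.CMH
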