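import Pool.Agent.Lib.CMH.TH7a

/-!
# TANK CMH, row TH7 (helper71), part b: `rhoQ` is multiplicative and symplectic; place form
-/

set_option autoImplicit false
set_option linter.unusedSectionVars false

namespace Pool.CMH

open Matrix Complex NumberField

noncomputable section

variable {F : Type} [Field F] [NumberField F] {κ : Type} [Fintype κ] [DecidableEq κ]

/-- the inverse diagonal -/
def dinv (c : κ → F) : Matrix κ κ F := diagonal (fun k => (c k)⁻¹)

theorem dinv_mul {c : κ → F} (hc : ∀ k, c k ≠ 0) : dinv c * diagonal c = 1 := by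
  unfold dinv
  rw [diagonal_mul_diagonal, ← diagonal_one]
  congr 1
  funext k
  exact inv_mul_cancel₀ (hc k)

theorem mul_dinv {c : κ → F} (hc : ∀ k, c k ≠ 0) : diagonal c * dinv c = 1 := by
  unfold dinv
  rw [diagonal_mul_diagonal, ← diagonal_one]
  congr 1
  funext k
  exact mul_inv_cancel₀ (hc k)

theorem dinv_transpose (c : κ → F) : (dinv c)ᵀ = dinv c := diagonal_transpose _

theorem rhoQ_one (D : F) {c : κ → F} (hc : ∀ k, c k ≠ 0) : rhoQ D c 1 0 = 1 := by
  have h1 : diagonal c * (1 : Matrix κ κ F) * diagonal (fun k => (c k)⁻¹) = 1 := by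
    rw [Matrix.mul_one]
    exact mul_dinv hc
  have h2 : -(D • ((0 : Matrix κ κ F) * diagonal (fun k => (c k)⁻¹))) = 0 := by simp
  have h3 : ∀ p q : KF F → F, tb p q (0 : Matrix κ κ F) = 0 := by
    intro p q
    ext x y
    simp [tb]
  unfold rhoQ
  rw [h1, h2, Matrix.mul_zero, h3, h3, tb_one_om_os, tb_one_os_om, fromBlocks_one]

theorem rhoQ_mul (D : F) {c : κ → F} (hc : ∀ k, c k ≠ 0) (X Y X' Y' : Matrix κ κ F) :
    rhoQ D c X Y * rhoQ D c X' Y' = rhoQ D c (X * X' - D • (Y * Y')) (X * Y' + Y * X') := by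
  have hi := dinv_mul hc
  unfold rhoQ
  change fromBlocks (tb om os (diagonal c * X * dinv c)) (tb om om (diagonal c * Y))
    (tb os os (-(D • (Y * dinv c)))) (tb os om X) *
    fromBlocks (tb om os (diagonal c * X' * dinv c)) (tb om om (diagonal c * Y'))
    (tb os os (-(D • (Y' * dinv c)))) (tb os om X') = fromBlocks
    (tb om os (diagonal c * (X * X' - D • (Y * Y')) * dinv c)) (tb om om (diagonal c * (X * Y' + Y * X')))
    (tb os os (-(D • ((X * Y' + Y * X') * dinv c)))) (tb os om (X * X' - D • (Y * Y')))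
  have e1 : diagonal c * X * dinv c * (diagonal c * X' * dinv c) = diagonal c * (X * X') * dinv c := by
    calc diagonal c * X * dinv c * (diagonal c * X' * dinv c)
        = diagonal c * X * (dinv c * diagonal c) * X' * dinv c := by simp only [Matrix.mul_assoc]
      _ = _ := by rw [hi, Matrix.mul_one]; simp only [Matrix.mul_assoc]
  have e2 : diagonal c * X * dinv c * (diagonal c * Y') = diagonal c * (X * Y') := by
    calc diagonal c * X * dinv c * (diagonal c * Y')
        = diagonal c * X * (dinv c * diagonal c) * Y' := by simp only [Matrix.mul_assoc]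
      _ = _ := by rw [hi, Matrix.mul_one]; simp only [Matrix.mul_assoc]
  have e3 : D • (Y * dinv c) * (diagonal c * X' * dinv c) = D • (Y * X' * dinv c) := by
    calc D • (Y * dinv c) * (diagonal c * X' * dinv c)
        = D • (Y * (dinv c * diagonal c) * X' * dinv c) := by
          rw [smul_mul_assoc]; simp only [Matrix.mul_assoc]
      _ = _ := by rw [hi, Matrix.mul_one]
  have e4 : D • (Y * dinv c) * (diagonal c * Y') = D • (Y * Y') := by
    calc D • (Y * dinv c) * (diagonal c * Y')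
        = D • (Y * (dinv c * diagonal c) * Y') := by
          rw [smul_mul_assoc]; simp only [Matrix.mul_assoc]
      _ = _ := by rw [hi, Matrix.mul_one]
  rw [fromBlocks_multiply, tb_mul dual_om_os, tb_mul dual_os_om, tb_mul dual_om_os,
    tb_mul dual_os_om, tb_mul dual_om_os, tb_mul dual_os_om, tb_mul dual_om_os, tb_mul dual_os_om,
    ← tb_add, ← tb_add, ← tb_add, ← tb_add]
  congr 2
  · rw [e1, Matrix.mul_neg, Matrix.mul_smul, mul_sub, sub_mul, Matrix.mul_smul, smul_mul_assoc, sub_eq_add_neg]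
    simp only [Matrix.mul_assoc]
  · rw [e2, mul_add]
    simp only [Matrix.mul_assoc]
  · rw [Matrix.neg_mul, e3, Matrix.mul_neg, Matrix.mul_smul, add_mul, smul_add, neg_add, add_comm]
    simp only [Matrix.mul_assoc]
  · rw [Matrix.neg_mul, e4, sub_eq_add_neg, add_comm]

/-- unitarity of `X + √(-D) Y` for `diag c` -/
def Uni (D : F) (c : κ → F) (X Y : Matrix κ κ F) : Prop :=
  Xᵀ * diagonal c * X + D • (Yᵀ * diagonal c * Y) = diagonal c ∧
    Xᵀ * diagonal c * Y = Yᵀ * diagonal c * X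

theorem rhoQ_mem (D : F) {c : κ → F} (hc : ∀ k, c k ≠ 0) {X Y : Matrix κ κ F} (h : Uni D c X Y) :
    rhoQ D c X Y ∈ symplecticGroup (κ × KF F) ℚ := by
  rw [SymplecticGroup.mem_iff', rhoQ, J, fromBlocks_transpose, fromBlocks_multiply,
    fromBlocks_multiply]
  simp only [tb_transpose, Matrix.mul_zero, Matrix.mul_one, Matrix.mul_neg, zero_add, add_zero,
    Matrix.neg_mul]
  have e0 : (diagonal c * X * diagonal fun k => (c k)⁻¹)ᵀ = dinv c * (Xᵀ * diagonal c) := by
    rw [transpose_mul, transpose_mul, diagonal_transpose, diagonal_transpose]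
    rfl
  have e1 : (-(D • (Y * diagonal fun k => (c k)⁻¹)))ᵀ = -(D • (dinv c * Yᵀ)) := by
    rw [transpose_neg, transpose_smul, transpose_mul, diagonal_transpose]
    rfl
  have e2 : (diagonal c * Y)ᵀ = Yᵀ * diagonal c := by
    rw [transpose_mul, diagonal_transpose]
  rw [e0, e1, e2, tb_mul dual_om_os, tb_mul dual_os_om, tb_mul dual_om_os, tb_mul dual_os_om,
    tb_mul dual_om_os, tb_mul dual_os_om, tb_mul dual_om_os, tb_mul dual_os_om]
  have f1 : tb os os (-(D • (dinv c * Yᵀ)) * (diagonal c * X * diagonal fun k => (c k)⁻¹)) +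
      -tb os os (dinv c * (Xᵀ * diagonal c) * -(D • (Y * diagonal fun k => (c k)⁻¹))) = 0 := by
    rw [← tb_neg, ← tb_add]
    have : -(D • (dinv c * Yᵀ)) * (diagonal c * X * diagonal fun k => (c k)⁻¹) +
      -(dinv c * (Xᵀ * diagonal c) * -(D • (Y * diagonal fun k => (c k)⁻¹))) = 0 := by
      change -(D • (dinv c * Yᵀ)) * (diagonal c * X * dinv c) +
        -(dinv c * (Xᵀ * diagonal c) * -(D • (Y * dinv c))) = 0
      have g1 : -(D • (dinv c * Yᵀ)) * (diagonal c * X * dinv c) =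
          -(D • (dinv c * (Yᵀ * diagonal c * X) * dinv c)) := by
        rw [Matrix.neg_mul, smul_mul_assoc]
        simp only [Matrix.mul_assoc]
      have g2 : dinv c * (Xᵀ * diagonal c) * -(D • (Y * dinv c)) =
          -(D • (dinv c * (Xᵀ * diagonal c * Y) * dinv c)) := by
        rw [Matrix.mul_neg, Matrix.mul_smul]
        simp only [Matrix.mul_assoc]
      rw [g1, g2, h.2, add_neg_cancel]
    rw [this]
    ext x y
    simp [tb]
  have f2 : tb os om (-(D • (dinv c * Yᵀ)) * (diagonal c * Y)) +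
      -tb os om (dinv c * (Xᵀ * diagonal c) * X) = -1 := by
    rw [← tb_neg, ← tb_add]
    have : -(D • (dinv c * Yᵀ)) * (diagonal c * Y) + -(dinv c * (Xᵀ * diagonal c) * X) = -1 := by
      have g1 : -(D • (dinv c * Yᵀ)) * (diagonal c * Y) = -(dinv c * (D • (Yᵀ * diagonal c * Y))) := by
        rw [Matrix.neg_mul, smul_mul_assoc, Matrix.mul_smul]
        simp only [Matrix.mul_assoc]
      have g2 : dinv c * (Xᵀ * diagonal c) * X = dinv c * (Xᵀ * diagonal c * X) := by
        simp only [Matrix.mul_assoc]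
      rw [g1, g2, ← neg_add, ← mul_add, add_comm (D • _), h.1, dinv_mul hc]
    rw [this, tb_neg, tb_one_os_om]
  have f3 : tb om os (Xᵀ * (diagonal c * X * diagonal fun k => (c k)⁻¹)) +
      -tb om os (Yᵀ * diagonal c * -(D • (Y * diagonal fun k => (c k)⁻¹))) = 1 := by
    rw [← tb_neg, ← tb_add]
    have : Xᵀ * (diagonal c * X * diagonal fun k => (c k)⁻¹) +
        -(Yᵀ * diagonal c * -(D • (Y * diagonal fun k => (c k)⁻¹))) = 1 := by
      change Xᵀ * (diagonal c * X * dinv c) + -(Yᵀ * diagonal c * -(D • (Y * dinv c))) = 1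
      have g1 : Xᵀ * (diagonal c * X * dinv c) = Xᵀ * diagonal c * X * dinv c := by
        simp only [Matrix.mul_assoc]
      have g2 : -(Yᵀ * diagonal c * -(D • (Y * dinv c))) = D • (Yᵀ * diagonal c * Y) * dinv c := by
        rw [Matrix.mul_neg, neg_neg, Matrix.mul_smul, smul_mul_assoc]
        simp only [Matrix.mul_assoc]
      rw [g1, g2, ← add_mul, h.1, mul_dinv hc]
    rw [this, tb_one_om_os]
  have f4 : tb om om (Xᵀ * (diagonal c * Y)) + -tb om om (Yᵀ * diagonal c * X) = 0 := by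
    rw [← tb_neg, ← tb_add, ← h.2, ← Matrix.mul_assoc, add_neg_cancel]
    ext x y
    simp [tb]
  rw [f1, f2, f3, f4]

/-! ### the integral matrix -/

theorem rhoZ_cast {D : F} {c : κ → F} {X Y : Matrix κ κ F} (h : IntR D c X Y) :
    (rhoZ D c X Y).map (fun z : ℤ => (z : ℚ)) = rhoQ D c X Y := h

theorem map_cast_inj {n : Type} {A B : Matrix n n ℤ}
    (h : A.map (fun z : ℤ => (z : ℚ)) = B.map (fun z : ℤ => (z : ℚ))) : A = B := by
  ext x y
  have := congrFun (congrFun h x) y
  simpa using this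

theorem intR_iff {D : F} {c : κ → F} {X Y : Matrix κ κ F} :
    IntR D c X Y ↔ ∃ R : Matrix ((κ × KF F) ⊕ (κ × KF F)) ((κ × KF F) ⊕ (κ × KF F)) ℤ,
      R.map (fun z : ℤ => (z : ℚ)) = rhoQ D c X Y := by
  constructor
  · intro h
    exact ⟨_, h⟩
  · rintro ⟨R, hR⟩
    unfold IntR rhoZ
    rw [← hR]
    ext x y
    simp

theorem map_mul_cast {n : Type} [Fintype n] (A B : Matrix n n ℤ) :
    (A * B).map (fun z : ℤ => (z : ℚ)) =
      A.map (fun z : ℤ => (z : ℚ)) * B.map (fun z : ℤ => (z : ℚ)) := by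
  ext x y
  simp [Matrix.mul_apply]

theorem IntR.mul {D : F} {c : κ → F} (hc : ∀ k, c k ≠ 0) {X Y X' Y' : Matrix κ κ F}
    (h : IntR D c X Y) (h' : IntR D c X' Y') :
    IntR D c (X * X' - D • (Y * Y')) (X * Y' + Y * X') := by
  rw [intR_iff]
  refine ⟨rhoZ D c X Y * rhoZ D c X' Y', ?_⟩
  rw [map_mul_cast, h, h', rhoQ_mul D hc]

theorem rhoZ_mul {D : F} {c : κ → F} (hc : ∀ k, c k ≠ 0) {X Y X' Y' : Matrix κ κ F}
    (h : IntR D c X Y) (h' : IntR D c X' Y') :
    rhoZ D c (X * X' - D • (Y * Y')) (X * Y' + Y * X') = rhoZ D c X Y * rhoZ D c X' Y' := by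
  apply map_cast_inj
  rw [map_mul_cast, h, h', rhoQ_mul D hc]
  exact IntR.mul hc h h'

theorem rhoZ_one (D : F) {c : κ → F} (hc : ∀ k, c k ≠ 0) : rhoZ D c 1 0 = 1 := by
  unfold rhoZ
  rw [rhoQ_one D hc]
  ext x y
  by_cases hxy : x = y
  · subst hxy; simp
  · simp [Matrix.one_apply_ne hxy]

theorem rhoZ_mem {D : F} {c : κ → F} (hc : ∀ k, c k ≠ 0) {X Y : Matrix κ κ F} (h : Uni D c X Y)
    (hi : IntR D c X Y) : rhoZ D c X Y ∈ symplecticGroup (κ × KF F) ℤ := by
  have h1 := rhoQ_mem D hc h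
  rw [SymplecticGroup.mem_iff'] at h1 ⊢
  apply map_cast_inj
  rw [map_mul_cast, map_mul_cast]
  have h2 : (J (κ × KF F) ℤ).map (fun z : ℤ => (z : ℚ)) = J (κ × KF F) ℚ :=
    map_J (κ × KF F) (Int.castRingHom ℚ)
  have h3 : (rhoZ D c X Y)ᵀ.map (fun z : ℤ => (z : ℚ)) = (rhoQ D c X Y)ᵀ := by
    rw [← hi]
    rfl
  rw [h2, h3, hi, h1]

end

end Pool.CMH
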