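import Pool.Agent.Lib.CMH.TH7b

/-!
# TANK CMH, row TH7 (helper71), part c: integrality of `rhoQ` for matrices `≡ 1 mod M`
-/

set_option autoImplicit false
set_option linter.unusedSectionVars false

namespace Pool.CMH

open Matrix Complex NumberField

open scoped Kronecker

noncomputable section

variable {F : Type} [Field F] [NumberField F] {κ : Type} [Fintype κ] [DecidableEq κ]

theorem om_int (i : KF F) : IsIntegral ℤ (om i : F) := by
  unfold om
  rw [integralBasis_apply]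
  exact RingOfIntegers.isIntegral_coe _

theorem int_smul_nat {x : F} (n : ℕ) (h : IsIntegral ℤ x) : IsIntegral ℤ ((n : F) * x) :=
  (by simpa using (isIntegral_algebraMap (R := ℤ) (A := F) (x := (n : ℤ))) :
    IsIntegral ℤ (n : F)).mul h

theorem exists_den (x : F) : ∃ M : ℕ, 0 < M ∧ IsIntegral ℤ ((M : F) * x) := by
  have h1 : IsAlgebraic ℤ x := (IsFractionRing.isAlgebraic_iff ℤ ℚ F).mpr
    (Algebra.IsAlgebraic.isAlgebraic (R := ℚ) x)
  obtain ⟨y, hy, hi⟩ := h1.exists_integral_multiple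
  refine ⟨y.natAbs, Int.natAbs_pos.mpr hy, ?_⟩
  have h2 : ((y.natAbs : ℕ) : F) * x = ((y.sign : ℤ) : F) * (y • x) := by
    rw [zsmul_eq_mul, ← mul_assoc]
    congr 1
    have : ((y.natAbs : ℤ)) = y.sign * y := by
      rw [Int.sign_mul_self_eq_natAbs]
    have h3 := congrArg (fun z : ℤ => (z : F)) this
    simp only [Int.cast_mul, Int.cast_natCast] at h3
    exact h3
  rw [h2]
  exact (isIntegral_algebraMap (R := ℤ) (A := F) (x := y.sign)).mul hi

theorem exists_den_fin {α : Type} [Finite α] (f : α → F) :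
    ∃ M : ℕ, 0 < M ∧ ∀ a, IsIntegral ℤ ((M : F) * f a) := by
  have := Fintype.ofFinite α
  choose g hg hi using fun a => exists_den (f a)
  classical
  refine ⟨∏ a, g a, Finset.prod_pos fun a _ => hg a, fun a => ?_⟩
  have h1 : ((∏ b, g b : ℕ) : F) * f a = ((∏ b ∈ Finset.univ.erase a, g b : ℕ) : F) * ((g a : F) * f a) := by
    rw [← Finset.prod_erase_mul _ _ (Finset.mem_univ a)]
    push_cast
    ring
  rw [h1]
  exact int_smul_nat _ (hi a)

/-- `M` clears all denominators -/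
def GoodLev (D : F) (c : κ → F) (M : ℕ) : Prop :=
  0 < M ∧ (∀ k, IsIntegral ℤ ((M : F) * c k)) ∧
    (∀ k k', IsIntegral ℤ ((M : F) * (c k * (c k')⁻¹))) ∧
    ∀ k (i : KF F), IsIntegral ℤ ((M : F) * (D * (c k)⁻¹ * os i))

theorem GoodLev.dvd {D : F} {c : κ → F} {M M' : ℕ} (h : GoodLev D c M) (hM : M ∣ M')
    (h0 : 0 < M') : GoodLev D c M' := by
  obtain ⟨r, rfl⟩ := hM
  obtain ⟨_, h1, h2, h3⟩ := h
  have key : ∀ x : F, IsIntegral ℤ ((M : F) * x) → IsIntegral ℤ (((M * r : ℕ) : F) * x) := by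
    intro x hx
    have : ((M * r : ℕ) : F) * x = (r : F) * ((M : F) * x) := by push_cast; ring
    rw [this]
    exact int_smul_nat _ hx
  exact ⟨h0, fun k => key _ (h1 k), fun k k' => key _ (h2 k k'), fun k i => key _ (h3 k i)⟩

theorem exists_goodLev (D : F) (c : κ → F) : ∃ M, GoodLev D c M := by
  obtain ⟨M1, h1, h1'⟩ := exists_den_fin c
  obtain ⟨M2, h2, h2'⟩ := exists_den_fin (fun p : κ × κ => c p.1 * (c p.2)⁻¹)
  obtain ⟨M3, h3, h3'⟩ := exists_den_fin (fun p : κ × KF F => D * (c p.1)⁻¹ * os p.2)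
  have key : ∀ (A B : ℕ) (x : F), IsIntegral ℤ ((A : F) * x) → IsIntegral ℤ (((B * A : ℕ) : F) * x) := by
    intro A B x hx
    have : ((B * A : ℕ) : F) * x = (B : F) * ((A : F) * x) := by push_cast; ring
    rw [this]
    exact int_smul_nat _ hx
  refine ⟨M1 * M2 * M3, by positivity, fun k => ?_, fun k k' => ?_, fun k i => ?_⟩
  · rw [show M1 * M2 * M3 = (M2 * M3) * M1 by ring]
    exact key _ _ _ (h1' k)
  · rw [show M1 * M2 * M3 = (M1 * M3) * M2 by ring]
    exact key _ _ _ (h2' (k, k'))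
  · exact key _ _ _ (h3' (k, i))

/-! ### integral traces -/

theorem trace_int {x : F} (hx : IsIntegral ℤ x) : ∃ n : ℤ, (n : ℚ) = Algebra.trace ℚ F x := by
  obtain ⟨y, hy⟩ := IsIntegrallyClosed.isIntegral_iff.mp
    (Algebra.isIntegral_trace (R := ℤ) (L := ℚ) (F := F) hx)
  exact ⟨y, by rw [← hy]; rfl⟩

theorem trace_os_int {x : F} (hx : IsIntegral ℤ x) (j : KF F) :
    ∃ n : ℤ, (n : ℚ) = Algebra.trace ℚ F (x * os j) := by
  have h2 := Module.Basis.traceDual_repr_apply (K := ℚ) (L := F) (integralBasis F).traceDual x j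
  rw [Module.Basis.traceDual_traceDual] at h2
  have h3 := integralBasis_repr_apply F (⟨x, hx⟩ : 𝓞 F) j
  refine ⟨(RingOfIntegers.basis F).repr ⟨x, hx⟩ j, ?_⟩
  change _ = Algebra.traceForm ℚ F x ((integralBasis F).traceDual j)
  rw [← h2]
  exact h3.symm

theorem rat_num_eq {q : ℚ} (h : ∃ n : ℤ, (n : ℚ) = q) : ((q.num : ℤ) : ℚ) = q := by
  obtain ⟨n, rfl⟩ := h
  simp

theorem intR_of_lev {D : F} {c : κ → F} {M : ℕ} (h : GoodLev D c M) {X Y : Matrix κ κ F}
    (hc : ∀ k, c k ≠ 0)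
    (hX : ∀ k k', IsIntegral ℤ ((X k k' - (1 : Matrix κ κ F) k k') / (M : F)))
    (hY : ∀ k k', IsIntegral ℤ (Y k k' / (M : F))) : IntR D c X Y := by
  obtain ⟨h0, h1, h2, h3⟩ := h
  have hM : (M : F) ≠ 0 := by exact_mod_cast h0.ne'
  have hX' : ∀ k k', X k k' = (1 : Matrix κ κ F) k k' +
      (M : F) * ((X k k' - (1 : Matrix κ κ F) k k') / (M : F)) := by
    intro k k'
    field_simp
    ring
  have hY' : ∀ k k', Y k k' = (M : F) * (Y k k' / (M : F)) := by
    intro k k'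
    field_simp
  have hone : ∀ k k', IsIntegral ℤ ((1 : Matrix κ κ F) k k') := by
    intro k k'
    rw [Matrix.one_apply]
    split_ifs
    · exact isIntegral_one
    · exact isIntegral_zero
  unfold IntR rhoZ
  ext (x | x) (y | y)
  · -- momenta to momenta
    change ((rhoQ D c X Y (Sum.inl x) (Sum.inl y)).num : ℚ) = _
    apply rat_num_eq
    change ∃ n : ℤ, (n : ℚ) = Algebra.trace ℚ F (om x.2 * (diagonal c * X *
      diagonal (fun k => (c k)⁻¹)) x.1 y.1 * os y.2)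
    apply trace_os_int
    refine (om_int _).mul ?_
    rw [Matrix.mul_diagonal, Matrix.diagonal_mul, hX' x.1 y.1]
    have : c x.1 * ((1 : Matrix κ κ F) x.1 y.1 +
        (M : F) * ((X x.1 y.1 - (1 : Matrix κ κ F) x.1 y.1) / (M : F))) * (c y.1)⁻¹ =
        (1 : Matrix κ κ F) x.1 y.1 + ((M : F) * (c x.1 * (c y.1)⁻¹)) *
          ((X x.1 y.1 - (1 : Matrix κ κ F) x.1 y.1) / (M : F)) := by
      by_cases hk : x.1 = y.1
      · rw [hk, Matrix.one_apply_eq]
        field_simp [hc y.1]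
      · rw [Matrix.one_apply_ne hk]
        ring
    rw [this]
    exact (hone _ _).add ((h2 _ _).mul (hX _ _))
  · change ((rhoQ D c X Y (Sum.inl x) (Sum.inr y)).num : ℚ) = _
    apply rat_num_eq
    change ∃ n : ℤ, (n : ℚ) = Algebra.trace ℚ F (om x.2 * (diagonal c * Y) x.1 y.1 * om y.2)
    apply trace_int
    refine ((om_int _).mul ?_).mul (om_int _)
    rw [Matrix.diagonal_mul, hY' x.1 y.1]
    have : c x.1 * ((M : F) * (Y x.1 y.1 / (M : F))) = (M : F) * c x.1 * (Y x.1 y.1 / (M : F)) := by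
      ring
    rw [this]
    exact (h1 _).mul (hY _ _)
  · change ((rhoQ D c X Y (Sum.inr x) (Sum.inl y)).num : ℚ) = _
    apply rat_num_eq
    change ∃ n : ℤ, (n : ℚ) = Algebra.trace ℚ F (os x.2 * (-(D • (Y *
      diagonal (fun k => (c k)⁻¹)))) x.1 y.1 * os y.2)
    apply trace_os_int
    rw [Matrix.neg_apply, Matrix.smul_apply, Matrix.mul_diagonal, smul_eq_mul, hY' x.1 y.1]
    have : os x.2 * -(D * ((M : F) * (Y x.1 y.1 / (M : F)) * (c y.1)⁻¹)) =
        -(((M : F) * (D * (c y.1)⁻¹ * os x.2)) * (Y x.1 y.1 / (M : F))) := by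
      ring
    rw [this]
    exact ((h3 _ _).mul (hY _ _)).neg
  · change ((rhoQ D c X Y (Sum.inr x) (Sum.inr y)).num : ℚ) = _
    apply rat_num_eq
    change ∃ n : ℤ, (n : ℚ) = Algebra.trace ℚ F (os x.2 * X x.1 y.1 * om y.2)
    have : os x.2 * X x.1 y.1 * om y.2 = (X x.1 y.1 * om y.2) * os x.2 := by ring
    rw [this]
    apply trace_os_int
    refine IsIntegral.mul ?_ (om_int _)
    rw [hX' x.1 y.1]
    exact (hone _ _).add (int_smul_nat _ (hX _ _))

/-! ### the Kronecker form -/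

variable {m : Type} [Fintype m] [DecidableEq m]

/-- `1 ⊗ X` -/
def kr (m : Type) [DecidableEq m] (X : Matrix (Fin 3) (Fin 3) F) :
    Matrix (m × Fin 3) (m × Fin 3) F := (1 : Matrix m m F) ⊗ₖ X

/-- `a ⊗ h` -/
def ah (a : m → F) (h : Fin 3 → F) : m × Fin 3 → F := fun p => a p.1 * h p.2

theorem kr_mul (X Y : Matrix (Fin 3) (Fin 3) F) : kr m (X * Y) = kr m X * kr m Y := by
  unfold kr
  rw [← Matrix.mul_kronecker_mul, Matrix.mul_one]

theorem kr_one : kr m (1 : Matrix (Fin 3) (Fin 3) F) = 1 := Matrix.one_kronecker_one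

theorem kr_zero : kr m (0 : Matrix (Fin 3) (Fin 3) F) = 0 := Matrix.kronecker_zero _

theorem kr_add (X Y : Matrix (Fin 3) (Fin 3) F) : kr m (X + Y) = kr m X + kr m Y :=
  Matrix.kronecker_add _ _ _

theorem kr_smul (D : F) (X : Matrix (Fin 3) (Fin 3) F) : kr m (D • X) = D • kr m X :=
  Matrix.kronecker_smul _ _ _

theorem kr_sub (X Y : Matrix (Fin 3) (Fin 3) F) : kr m (X - Y) = kr m X - kr m Y := by
  rw [sub_eq_add_neg, kr_add, sub_eq_add_neg]
  congr 1
  have := kr_smul (m := m) (-1 : F) Y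
  rwa [neg_one_smul, neg_one_smul] at this

theorem Uni.kr {D : F} {h : Fin 3 → F} {X Y : Matrix (Fin 3) (Fin 3) F} (hu : Uni D h X Y)
    (a : m → F) : Uni D (ah a h) (kr m X) (kr m Y) := by
  have hd : diagonal (ah a h) = (diagonal a) ⊗ₖ (diagonal h) :=
    (Matrix.diagonal_kronecker_diagonal a h).symm
  have ht : ∀ Z : Matrix (Fin 3) (Fin 3) F, (Pool.CMH.kr m Z)ᵀ = (1 : Matrix m m F) ⊗ₖ Zᵀ := by
    intro Z
    unfold Pool.CMH.kr
    rw [← Matrix.kroneckerMap_transpose, transpose_one]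
  have hm : ∀ Z W : Matrix (Fin 3) (Fin 3) F,
      (Pool.CMH.kr m Z)ᵀ * diagonal (ah a h) * Pool.CMH.kr m W =
        (diagonal a) ⊗ₖ (Zᵀ * diagonal h * W) := by
    intro Z W
    rw [ht, hd]
    unfold Pool.CMH.kr
    rw [← Matrix.mul_kronecker_mul, ← Matrix.mul_kronecker_mul, Matrix.one_mul, Matrix.mul_one]
  refine ⟨?_, ?_⟩
  · rw [hm, hm, ← Matrix.kronecker_smul, ← Matrix.kronecker_add, hu.1, hd]
  · rw [hm, hm, hu.2]

theorem Uni.smul {D : F} {c : κ → F} {X Y : Matrix κ κ F} (hu : Uni D c X Y) (a : F) :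
    Uni D (fun k => a * c k) X Y := by
  have hd : diagonal (fun k => a * c k) = a • diagonal c := by
    ext i j
    by_cases hij : i = j
    · subst hij; simp
    · simp [Matrix.diagonal_apply_ne _ hij]
  refine ⟨?_, ?_⟩
  · rw [hd]
    simp only [Matrix.mul_smul, Matrix.smul_mul]
    rw [smul_comm D a, ← smul_add, hu.1]
  · rw [hd]
    simp only [Matrix.mul_smul, Matrix.smul_mul]
    rw [hu.2]

end

end Pool.CMH
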