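import Mathlib
import Pool.Agent.Lib.CMH.Defs
import Pool.Agent.Lib.CMH.Cocf

/-!
# CMH, row TH7e: elements of level `N ≥ 3` have determinant one (helper65)
-/

set_option autoImplicit false

open scoped ComplexConjugate Matrix
open Complex NumberField

namespace Pool.CMH

open Pool.Agent.CMH (Mat Gam cmat ev pdet pm pdet_map pdet_one cocf_isU cocf_det_cmat cocf_int_zero)

/-- elements congruent to `1` modulo `N ≥ 3` have determinant `1` (no signature hypothesis) -/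
theorem pdet_eq_one {F : Type} [Field F] [NumberField F] [IsTotallyReal F] {D : F}
    (hDi : IsIntegral ℤ D) (hD : ∀ v : F →+* ℝ, 0 < v D) {h : Fin 3 → F} (hh : ∀ k, h k ≠ 0)
    {N : ℕ} (hN : 3 ≤ N) {g : Mat F} (hg : g ∈ Gam D h N) (v₁ : F →+* ℝ) :
    pdet D g.1 g.2 = (1, 0) := by
  have hN0 : (N : F) ≠ 0 := by
    have : (0 : ℕ) < N := by omega
    exact_mod_cast this.ne'
  have hhne : ∀ (v : F →+* ℝ) (i : Fin 3), ev v h i ≠ 0 := by
    intro v i
    exact (map_ne_zero v).2 (hh i)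
  -- norm one at all places
  have key : ∀ v : F →+* ℝ, (v (pdet D g.1 g.2).1) ^ 2 + v D * (v (pdet D g.1 g.2).2) ^ 2 = 1 := by
    intro v
    have h1 := (cocf_isU v D (hD v) h hg).norm_det (hhne v)
    rw [cocf_det_cmat v D (hD v)] at h1
    have h2 : ‖((v (pdet D g.1 g.2).1 : ℂ) + I * (√(v D) : ℂ) * (v (pdet D g.1 g.2).2 : ℂ))‖ ^ 2 =
        (v (pdet D g.1 g.2).1) ^ 2 + v D * (v (pdet D g.1 g.2).2) ^ 2 := by
      rw [show ((v (pdet D g.1 g.2).1 : ℂ) + I * (√(v D) : ℂ) * (v (pdet D g.1 g.2).2 : ℂ)) =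
        ((v (pdet D g.1 g.2).1 : ℝ) : ℂ) + ((√(v D) * v (pdet D g.1 g.2).2 : ℝ) : ℂ) * I by
          push_cast; ring, Complex.sq_norm, Complex.normSq_add_mul_I, mul_pow,
        Real.sq_sqrt (hD v).le]
    rw [← h2, h1, one_pow]
  -- the congruences
  obtain ⟨-, -, e3, e4⟩ := hg
  let D' : 𝓞 F := ⟨D, hDi⟩
  let X' : Matrix (Fin 3) (Fin 3) (𝓞 F) := fun i j => ⟨_, e3 i j⟩
  let Y' : Matrix (Fin 3) (Fin 3) (𝓞 F) := fun i j => ⟨_, e4 i j⟩
  let X : Matrix (Fin 3) (Fin 3) (𝓞 F) := 1 + (N : 𝓞 F) • X'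
  let Y : Matrix (Fin 3) (Fin 3) (𝓞 F) := (N : 𝓞 F) • Y'
  have hX : X.map (algebraMap (𝓞 F) F) = g.1 := by
    ext i j
    have h1 : algebraMap (𝓞 F) F (X' i j) =
        (g.1 i j - (1 : Matrix (Fin 3) (Fin 3) F) i j) / (N : F) := rfl
    have h2 : algebraMap (𝓞 F) F ((1 : Matrix (Fin 3) (Fin 3) (𝓞 F)) i j) =
        (1 : Matrix (Fin 3) (Fin 3) F) i j := by
      by_cases hij : i = j
      · subst hij; simp
      · simp [Matrix.one_apply_ne hij]
    rw [Matrix.map_apply]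
    change algebraMap (𝓞 F) F ((1 : Matrix (Fin 3) (Fin 3) (𝓞 F)) i j + (N : 𝓞 F) * X' i j) = _
    rw [map_add, map_mul, h1, h2, map_natCast]
    field_simp
    ring
  have hY : Y.map (algebraMap (𝓞 F) F) = g.2 := by
    ext i j
    have h1 : algebraMap (𝓞 F) F (Y' i j) = g.2 i j / (N : F) := rfl
    rw [Matrix.map_apply]
    change algebraMap (𝓞 F) F ((N : 𝓞 F) * Y' i j) = _
    rw [map_mul, h1, map_natCast]
    field_simp
  have hpd := pdet_map (algebraMap (𝓞 F) F) D' X Y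
  rw [hX, hY, show algebraMap (𝓞 F) F D' = D from rfl] at hpd
  let Q := 𝓞 F ⧸ Ideal.span {(N : 𝓞 F)}
  have hNQ : (Ideal.Quotient.mk (Ideal.span {(N : 𝓞 F)})) (N : 𝓞 F) = 0 :=
    Ideal.Quotient.eq_zero_iff_mem.2 (Ideal.mem_span_singleton_self _)
  have hq := pdet_map (Ideal.Quotient.mk (Ideal.span {(N : 𝓞 F)})) D' X Y
  have hXq : X.map (Ideal.Quotient.mk (Ideal.span {(N : 𝓞 F)})) = 1 := by
    ext i j
    rw [Matrix.map_apply]
    change Ideal.Quotient.mk _ ((1 : Matrix (Fin 3) (Fin 3) (𝓞 F)) i j + (N : 𝓞 F) * X' i j) = _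
    rw [map_add, map_mul, hNQ, zero_mul, add_zero]
    by_cases hij : i = j
    · subst hij; simp
    · simp [Matrix.one_apply_ne hij]
  have hYq : Y.map (Ideal.Quotient.mk (Ideal.span {(N : 𝓞 F)})) = 0 := by
    ext i j
    rw [Matrix.map_apply]
    change Ideal.Quotient.mk _ ((N : 𝓞 F) * Y' i j) = _
    rw [map_mul, hNQ, zero_mul]
    rfl
  rw [hXq, hYq, pdet_one] at hq
  have hx := congrArg Prod.fst hq
  have hy := congrArg Prod.snd hq
  simp only at hx hy
  have hx' : (N : 𝓞 F) ∣ (pdet D' X Y).1 - 1 := by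
    rw [← Ideal.mem_span_singleton, ← Ideal.Quotient.eq_zero_iff_mem, map_sub, ← hx, map_one,
      sub_self]
  obtain ⟨z, hz⟩ := hx'
  -- the first component is `1`
  have hz0 : (z : F) = 0 := by
    refine cocf_int_zero z.2 fun v => ?_
    have h1 := key v
    have h2 : v (pdet D g.1 g.2).1 = 1 + N * v (z : F) := by
      rw [hpd]
      have : (pdet D' X Y).1 = 1 + (N : 𝓞 F) * z := by rw [← hz]; ring
      simp only [this, map_add, map_one, map_mul, map_natCast]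
    have h3 : 0 ≤ v D * (v (pdet D g.1 g.2).2) ^ 2 :=
      mul_nonneg (hD v).le (sq_nonneg _)
    have h4 : (v (pdet D g.1 g.2).1) ^ 2 ≤ 1 := by linarith
    rw [h2] at h4
    have hN' : (3 : ℝ) ≤ N := by exact_mod_cast hN
    have h5 := abs_le.1 ((sq_le_one_iff_abs_le_one _).1 h4)
    rw [abs_lt]
    constructor
    · nlinarith [h5.1]
    · nlinarith [h5.2]
  have hx1 : (pdet D g.1 g.2).1 = 1 := by
    rw [hpd]
    have : (pdet D' X Y).1 = 1 + (N : 𝓞 F) * z := by rw [← hz]; ring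
    have hz1 : z = 0 := by
      apply NumberField.RingOfIntegers.ext
      rw [hz0]
      rfl
    simp [this, hz1]
  have hy1 : (pdet D g.1 g.2).2 = 0 := by
    have h1 := key v₁
    rw [hx1, map_one] at h1
    have h2 : v₁ D * (v₁ (pdet D g.1 g.2).2) ^ 2 = 0 := by linarith
    rcases mul_eq_zero.1 h2 with h3 | h3
    · exact absurd h3 (hD v₁).ne'
    · have h4 : v₁ (pdet D g.1 g.2).2 = 0 := by simpa using h3
      exact (map_eq_zero v₁).1 h4
  exact Prod.ext hx1 hy1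

/-- TH7e: `det = 1` for level `≥ 3` -/
theorem det_one {F : Type} [Field F] [NumberField F] [NumberField.IsTotallyReal F] {D : F}
    (hDi : IsIntegral ℤ D) (hD : ∀ v : F →+* ℝ, 0 < v D) {h : Fin 3 → F} (hh : ∀ k, h k ≠ 0)
    {N : ℕ} (hN : 3 ≤ N) {g : Mat F} (hg : g ∈ Gam D h N) (v : F →+* ℝ) :
    (cmat v D g).det = 1 := by
  rw [cocf_det_cmat v D (hD v), pdet_eq_one hDi hD hh hN hg v]
  simp

end Pool.CMH
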