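import Pool.Agent.Lib.CMH.P1Geo

/-!
# TANK CMH, P1, row TH7b (helper70): the symplectic matrix of `X + √(-D) Y` over `F`
-/

set_option autoImplicit false
set_option linter.unusedSectionVars false

namespace Pool.CMH

open Matrix Complex Real
open Pool.Agent.CMH (Mat Gam)

noncomputable section

variable {F : Type} [Field F]
variable {J : Type} [Fintype J] [DecidableEq J]

/-- block diagonal matrices -/
def bd7 (f : J → Matrix (Fin 3) (Fin 3) F) : Matrix (J × Fin 3) (J × Fin 3) F :=
  fun p q => if p.1 = q.1 then f p.1 p.2 q.2 else 0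

theorem bd7_mul (f g : J → Matrix (Fin 3) (Fin 3) F) :
    bd7 f * bd7 g = bd7 (fun i => f i * g i) := by
  ext ⟨i, k⟩ ⟨j, l⟩
  simp only [bd7, Matrix.mul_apply, Fintype.sum_prod_type]
  rw [Finset.sum_eq_single i]
  · by_cases h : i = j
    · subst h
      simp
    · simp [h]
  · intro b _ hb
    refine Finset.sum_eq_zero fun x _ => ?_
    rw [if_neg (fun h => hb h.symm), zero_mul]
  · intro h
    exact absurd (Finset.mem_univ _) h

theorem bd7_add (f g : J → Matrix (Fin 3) (Fin 3) F) :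
    bd7 f + bd7 g = bd7 (fun i => f i + g i) := by
  ext ⟨i, k⟩ ⟨j, l⟩
  simp only [bd7, Matrix.add_apply]
  split_ifs <;> simp

theorem bd7_sub (f g : J → Matrix (Fin 3) (Fin 3) F) :
    bd7 f - bd7 g = bd7 (fun i => f i - g i) := by
  ext ⟨i, k⟩ ⟨j, l⟩
  simp only [bd7, Matrix.sub_apply]
  split_ifs <;> simp

theorem bd7_transpose (f : J → Matrix (Fin 3) (Fin 3) F) :
    (bd7 f)ᵀ = bd7 (fun i => (f i)ᵀ) := by
  ext ⟨i, k⟩ ⟨j, l⟩
  simp only [bd7, Matrix.transpose_apply]
  by_cases h : i = j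
  · subst h; simp
  · rw [if_neg h, if_neg (fun h' => h h'.symm)]

theorem bd7_one : bd7 (fun _ : J => (1 : Matrix (Fin 3) (Fin 3) F)) = 1 := by
  ext ⟨i, k⟩ ⟨j, l⟩
  simp only [bd7, Matrix.one_apply, Prod.mk.injEq]
  by_cases h : i = j
  · simp [h]
  · simp [h]

variable [NumberField F]

theorem sA_bd (h : Fin 3 → F) (g : Mat F) :
    sA J h g = bd7 (fun _ : J => diagonal h * g.1 * diagonal (fun l => (h l)⁻¹)) := by
  ext ⟨i, k⟩ ⟨j, l⟩
  simp only [sA, bd7, Matrix.mul_diagonal, Matrix.diagonal_mul]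

theorem sB_bd (h : Fin 3 → F) (a : J → F) (g : Mat F) :
    sB h a g = bd7 (fun i : J => a i • (diagonal h * g.2)) := by
  ext ⟨i, k⟩ ⟨j, l⟩
  simp only [sB, bd7, Matrix.diagonal_mul, Matrix.smul_apply, smul_eq_mul, mul_assoc]

theorem sC_bd (D : F) (h : Fin 3 → F) (a : J → F) (g : Mat F) :
    sC D h a g = bd7 (fun i : J => -((D * (a i)⁻¹) • (g.2 * diagonal (fun l => (h l)⁻¹)))) := by
  ext ⟨i, k⟩ ⟨j, l⟩
  simp only [sC, bd7, Matrix.mul_diagonal, Matrix.smul_apply, smul_eq_mul, Matrix.neg_apply,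
    mul_inv]
  by_cases hij : i = j
  · subst hij
    simp only [if_true]
    ring
  · simp [hij]

theorem sD_bd (g : Mat F) : sD J g = bd7 (fun _ : J => g.1) := rfl

theorem dd7 {h : Fin 3 → F} (hh : ∀ k, h k ≠ 0) :
    diagonal (fun l => (h l)⁻¹) * diagonal h = (1 : Matrix (Fin 3) (Fin 3) F) := by
  rw [Matrix.diagonal_mul_diagonal]
  simp [hh]

theorem dd7' {h : Fin 3 → F} (hh : ∀ k, h k ≠ 0) :
    diagonal h * diagonal (fun l => (h l)⁻¹) = (1 : Matrix (Fin 3) (Fin 3) F) := by
  rw [Matrix.diagonal_mul_diagonal]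
  simp [hh]

/-- TH7b: over `F` -/
theorem sS_mul (D : F) {h : Fin 3 → F} {a : J → F} (hh : ∀ k, h k ≠ 0) (ha : ∀ i, a i ≠ 0)
    (g g' : Mat F) :
    fromBlocks (sA J h g) (sB h a g) (sC D h a g) (sD J g) *
      fromBlocks (sA J h g') (sB h a g') (sC D h a g') (sD J g') =
      fromBlocks (sA J h (mulM D g g')) (sB h a (mulM D g g')) (sC D h a (mulM D g g'))
        (sD J (mulM D g g')) := by
  have h1 := dd7 hh
  have h2 := dd7' hh
  set H := diagonal h with hH
  set H' := diagonal (fun l => (h l)⁻¹) with hH'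
  rw [fromBlocks_multiply]
  simp only [sA_bd, sB_bd, sC_bd, sD_bd, bd7_mul, bd7_add, ← hH, ← hH', mulM]
  congr 1
  · congr 1
    funext i
    have e1 : H * g.1 * H' * (H * g'.1 * H') = H * (g.1 * g'.1) * H' := by
      calc H * g.1 * H' * (H * g'.1 * H') = H * g.1 * (H' * H) * g'.1 * H' := by
            simp only [mul_assoc]
        _ = _ := by rw [h1]; simp only [mul_one, mul_assoc]
    have e2 : a i • (H * g.2) * -((D * (a i)⁻¹) • (g'.2 * H')) = -(D • (H * (g.2 * g'.2) * H')) := by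
      rw [mul_neg, smul_mul_assoc, mul_smul_comm, smul_smul]
      have : a i * (D * (a i)⁻¹) = D := by
        have := ha i
        field_simp
      rw [this]
      simp only [mul_assoc]
    rw [e1, e2, mul_sub, sub_mul, ← sub_eq_add_neg]
    congr 1
    rw [mul_smul_comm, smul_mul_assoc]
  · congr 1
    funext i
    have e1 : H * g.1 * H' * (a i • (H * g'.2)) = a i • (H * (g.1 * g'.2)) := by
      rw [mul_smul_comm]
      congr 1
      calc H * g.1 * H' * (H * g'.2) = H * g.1 * (H' * H) * g'.2 := by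
            simp only [mul_assoc]
        _ = _ := by rw [h1]; simp only [mul_one, mul_assoc]
    rw [e1, mul_add, smul_add, smul_mul_assoc]
    simp only [mul_assoc]
  · congr 1
    funext i
    have e1 : -((D * (a i)⁻¹) • (g.2 * H')) * (H * g'.1 * H') =
        -((D * (a i)⁻¹) • (g.2 * g'.1 * H')) := by
      rw [neg_mul, smul_mul_assoc]
      congr 2
      calc g.2 * H' * (H * g'.1 * H') = g.2 * (H' * H) * g'.1 * H' := by
            simp only [mul_assoc]
        _ = _ := by rw [h1]; simp only [mul_one]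
    rw [e1, mul_neg, mul_smul_comm, ← neg_add, ← smul_add, add_mul, add_comm]
    simp only [mul_assoc]
  · congr 1
    funext i
    have e1 : -((D * (a i)⁻¹) • (g.2 * H')) * (a i • (H * g'.2)) = -(D • (g.2 * g'.2)) := by
      rw [neg_mul, smul_mul_assoc, mul_smul_comm, smul_smul]
      have : D * (a i)⁻¹ * a i = D := by
        have := ha i
        field_simp
      rw [this]
      congr 2
      calc g.2 * H' * (H * g'.2) = g.2 * (H' * H) * g'.2 := by
            simp only [mul_assoc]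
        _ = _ := by rw [h1]; simp only [mul_one]
    rw [e1]
    abel

theorem sS_mem {D : F} (hD : D ≠ 0) {h : Fin 3 → F} {a : J → F} (hh : ∀ k, h k ≠ 0)
    (ha : ∀ i, a i ≠ 0) {g : Mat F} {N : ℕ} (hg : g ∈ Gam D h N) :
    fromBlocks (sA J h g) (sB h a g) (sC D h a g) (sD J g) ∈
      symplecticGroup (J × Fin 3) F := by
  have h1 := dd7 hh
  have h2 := dd7' hh
  obtain ⟨hg1, hg2, -, -⟩ := hg
  set H := diagonal h with hH
  set H' := diagonal (fun l => (h l)⁻¹) with hH'
  have hHt : Hᵀ = H := diagonal_transpose _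
  have hHt' : H'ᵀ = H' := diagonal_transpose _
  rw [SymplecticGroup.fromBlocks_mem_iff]
  simp only [sA_bd, sB_bd, sC_bd, sD_bd, bd7_mul, bd7_sub, bd7_transpose, ← hH, ← hH']
  have tA : (H * g.1 * H')ᵀ = H' * g.1ᵀ * H := by
    rw [transpose_mul, transpose_mul, hHt, hHt', mul_assoc]
  refine ⟨?_, ?_, ?_⟩
  · congr 1
    funext i
    rw [tA, transpose_neg, transpose_smul, transpose_mul, hHt', mul_neg, neg_mul, mul_smul_comm,
      smul_mul_assoc]
    congr 2
    calc H' * g.1ᵀ * H * (g.2 * H') = H' * (g.1ᵀ * H * g.2) * H' := by simp only [mul_assoc]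
      _ = H' * g.2ᵀ * (H * g.1 * H') := by rw [hg2]; simp only [mul_assoc]
  · congr 1
    funext i
    rw [transpose_smul, transpose_mul, hHt, smul_mul_assoc, mul_smul_comm]
    congr 1
    calc g.2ᵀ * H * g.1 = g.1ᵀ * H * g.2 := hg2.symm
      _ = _ := by simp only [mul_assoc]
  · rw [← bd7_one]
    congr 1
    funext i
    rw [tA, transpose_neg, transpose_smul, transpose_mul, hHt', neg_mul, sub_neg_eq_add,
      smul_mul_assoc, mul_smul_comm, smul_smul]
    have e : D * (a i)⁻¹ * a i = D := by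
      have := ha i
      field_simp
    rw [e]
    calc H' * g.1ᵀ * H * g.1 + D • (H' * g.2ᵀ * (H * g.2))
        = H' * (g.1ᵀ * H * g.1 + D • (g.2ᵀ * H * g.2)) := by
          rw [mul_add, mul_smul_comm]
          simp only [mul_assoc]
      _ = 1 := by rw [hg1, h1]

end

end Pool.CMH
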