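import Mathlib

/-! # TANK CMH, row TH8, local algebra at the hyperbolic place: the reflection `S_p`, the matrix
`c Z + d = X - i δ Y S_p = g' + (g - g') P_p` (`g = X + i δ Y`, `g' = X - i δ Y`), its determinant,
the action on `S_p` and on the tangent vectors.  helper20. -/

set_option autoImplicit false
set_option linter.unusedSectionVars false

open Matrix

namespace Pool.Agent.CMH.TH8

noncomputable section

variable {n : Type} [Fintype n] [DecidableEq n]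

/-- the bilinear form of `H`. -/
def bf (H : Matrix n n ℂ) (x y : n → ℂ) : ℂ := x ⬝ᵥ H *ᵥ y

/-- the projection on the line of `p`. -/
def Pm (H : Matrix n n ℂ) (p : n → ℂ) : Matrix n n ℂ := (bf H p p)⁻¹ • vecMulVec p (H *ᵥ p)

/-- the reflection: `-1` on `p`, `1` on the orthogonal space. -/
def S (H : Matrix n n ℂ) (p : n → ℂ) : Matrix n n ℂ := 1 - (2 : ℂ) • Pm H p

/-- `c Z + d`. -/
def AA (H g g' : Matrix n n ℂ) (p : n → ℂ) : Matrix n n ℂ := g' + (g - g') * Pm H p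

theorem AA_eq (H X Y : Matrix n n ℂ) (d : ℂ) (p : n → ℂ) :
    X - d • (Y * S H p) = AA H (X + d • Y) (X - d • Y) p := by
  unfold AA S
  have : X + d • Y - (X - d • Y) = (2 * d) • Y := by
    rw [mul_smul, two_smul]
    abel
  rw [this, mul_sub, mul_one, smul_sub, Matrix.mul_smul, smul_mul_assoc, mul_smul, smul_comm d]
  abel

variable {H g g' : Matrix n n ℂ} {p : n → ℂ}

theorem bf_comm (hH : Hᵀ = H) (x y : n → ℂ) : bf H x y = bf H y x := by
  unfold bf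
  rw [dotProduct_mulVec, ← mulVec_transpose, hH, dotProduct_comm]

theorem vecMul_H (hH : Hᵀ = H) (x : n → ℂ) : x ᵥ* H = H *ᵥ x := by
  rw [← mulVec_transpose, hH]

theorem Pm_mulVec (H : Matrix n n ℂ) (p x : n → ℂ) : Pm H p *ᵥ x = ((bf H p p)⁻¹ * ((H *ᵥ p) ⬝ᵥ x)) • p := by
  unfold Pm
  rw [smul_mulVec, vecMulVec_mulVec, mul_smul]
  congr 1
  ext i
  simp [mul_comm]

theorem Hp_dot (hH : Hᵀ = H) (p x : n → ℂ) : (H *ᵥ p) ⬝ᵥ x = bf H p x := by
  unfold bf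
  rw [dotProduct_mulVec, vecMul_H hH]

theorem Pm_self (hH : Hᵀ = H) (hb : bf H p p ≠ 0) : Pm H p *ᵥ p = p := by
  rw [Pm_mulVec, Hp_dot hH, inv_mul_cancel₀ hb, one_smul]

theorem Pm_orth (hH : Hᵀ = H) {x : n → ℂ} (hx : bf H p x = 0) : Pm H p *ᵥ x = 0 := by
  rw [Pm_mulVec, Hp_dot hH, hx, mul_zero, zero_smul]

theorem Pm_mul_Pm (hH : Hᵀ = H) (hb : bf H p p ≠ 0) : Pm H p * Pm H p = Pm H p := by
  nth_rw 2 [Pm]
  rw [Matrix.mul_smul, mul_vecMulVec, Pm_self hH hb, ← Pm]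

theorem S_mul_S (hH : Hᵀ = H) (hb : bf H p p ≠ 0) : S H p * S H p = 1 := by
  unfold S
  rw [sub_mul, mul_sub, mul_sub, Matrix.one_mul, Matrix.one_mul, Matrix.mul_one, smul_mul_smul_comm, Pm_mul_Pm hH hb]
  module

theorem S_self (hH : Hᵀ = H) (hb : bf H p p ≠ 0) : S H p *ᵥ p = -p := by
  unfold S
  rw [sub_mulVec, one_mulVec, smul_mulVec, Pm_self hH hb]
  module

/-- `H S_p` is symmetric. -/
theorem HS_symm (hH : Hᵀ = H) (p : n → ℂ) : (H * S H p)ᵀ = H * S H p := by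
  unfold S Pm
  rw [mul_sub, Matrix.mul_one, transpose_sub, hH, Matrix.mul_smul, Matrix.mul_smul, mul_vecMulVec,
    transpose_smul, transpose_smul, transpose_vecMulVec]

/-- `gᵀ H g' = H` gives the inverse of `g'`. -/
theorem g'_inv (hdet : IsUnit H.det) (hg : gᵀ * H * g' = H) : (H⁻¹ * gᵀ * H) * g' = 1 := by
  rw [mul_assoc, mul_assoc, ← mul_assoc gᵀ, hg, nonsing_inv_mul _ hdet]

theorem isUnit_g' (hdet : IsUnit H.det) (hg : gᵀ * H * g' = H) : IsUnit g'.det := by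
  have h := congrArg det (g'_inv hdet hg)
  rw [det_mul, det_one] at h
  exact IsUnit.of_mul_eq_one_right _ h

/-- `det (c Z + d) = det g' <g p, g p> / <p, p>`. -/
theorem det_AA (hH : Hᵀ = H) (hdet : IsUnit H.det) (hg : gᵀ * H * g' = H) (hb : bf H p p ≠ 0) :
    (AA H g g' p).det = g'.det * (bf H (g *ᵥ p) (g *ᵥ p) / bf H p p) := by
  have hu := isUnit_g' hdet hg
  have h1 : AA H g g' p = g' * (1 + replicateCol Unit ((bf H p p)⁻¹ • (g'⁻¹ *ᵥ ((g - g') *ᵥ p))) *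
      replicateRow Unit (H *ᵥ p)) := by
    unfold AA Pm
    rw [mul_add, Matrix.mul_one, Matrix.mul_smul, mul_vecMulVec]
    congr 1
    rw [← vecMulVec_eq Unit, smul_vecMulVec, Matrix.mul_smul, mul_vecMulVec, mulVec_mulVec,
      mul_nonsing_inv _ hu, one_mulVec]
  rw [h1, det_mul, det_one_add_replicateCol_mul_replicateRow]
  congr 1
  rw [dotProduct_smul, sub_mulVec, mulVec_sub, mulVec_mulVec, mulVec_mulVec, nonsing_inv_mul _ hu,
    one_mulVec, dotProduct_sub, Hp_dot hH, Hp_dot hH]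
  have h2 : bf H p ((g'⁻¹ * g) *ᵥ p) = bf H (g *ᵥ p) (g *ᵥ p) := by
    have h3 : H * g'⁻¹ = gᵀ * H := by
      calc H * g'⁻¹ = gᵀ * H * g' * g'⁻¹ := by rw [hg]
        _ = gᵀ * H := by rw [mul_assoc, mul_nonsing_inv _ hu, Matrix.mul_one]
    unfold bf
    rw [mulVec_mulVec, ← mul_assoc, h3, mulVec_mulVec, dotProduct_mulVec, dotProduct_mulVec,
      ← vecMul_transpose g p, vecMul_vecMul, mul_assoc]
  rw [h2, smul_eq_mul]
  have h5 := inv_mul_cancel₀ hb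
  rw [div_eq_mul_inv]
  linear_combination (-1 : ℂ) * h5

/-- `(c Z + d) S_p = S_(g p) (c Z + d)`. -/
theorem AA_mul_S (hH : Hᵀ = H) (hg : gᵀ * H * g' = H) (hb : bf H p p ≠ 0)
    (hb' : bf H (g *ᵥ p) (g *ᵥ p) ≠ 0) : AA H g g' p * S H p = S H (g *ᵥ p) * AA H g g' p := by
  have h1 : Pm H p * S H p = -Pm H p := by
    unfold S
    rw [mul_sub, Matrix.mul_one, Matrix.mul_smul, Pm_mul_Pm hH hb]
    module
  -- `S' (g Pm) = - g Pm`
  have h2 : S H (g *ᵥ p) * (g * Pm H p) = -(g * Pm H p) := by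
    unfold Pm
    rw [Matrix.mul_smul, Matrix.mul_smul, mul_vecMulVec, mul_vecMulVec, S_self hH hb']
    ext i j
    simp [vecMulVec_apply]
  -- `Pm' g' = g Pm` up to the scalar
  have h3 : Pm H (g *ᵥ p) * (g' * (1 - Pm H p)) = 0 := by
    have h4 : (H *ᵥ (g *ᵥ p)) ᵥ* g' = H *ᵥ p := by
      rw [← vecMul_H hH, vecMul_vecMul, ← vecMul_transpose g p, vecMul_vecMul, ← mul_assoc, hg,
        vecMul_H hH]
    have h5 : (H *ᵥ p) ᵥ* (1 - Pm H p) = 0 := by
      unfold Pm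
      rw [vecMul_sub, vecMul_one, vecMul_smul, vecMul_vecMulVec, Hp_dot hH, smul_smul,
        inv_mul_cancel₀ hb, one_smul, sub_self]
    nth_rw 1 [Pm]
    rw [smul_mul_assoc, vecMulVec_mul, ← vecMul_vecMul, h4, h5]
    ext i j
    simp [vecMulVec_apply]
  have h6 : AA H g g' p = g * Pm H p + g' * (1 - Pm H p) := by
    unfold AA
    rw [mul_sub, sub_mul, Matrix.mul_one]
    abel
  have h7 : (1 - Pm H p) * S H p = 1 - Pm H p := by
    rw [sub_mul, Matrix.one_mul, h1]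
    unfold S
    module
  have h8 : S H (g *ᵥ p) * (g' * (1 - Pm H p)) = g' * (1 - Pm H p) := by
    unfold S
    rw [sub_mul, Matrix.one_mul, smul_mul_assoc, h3, smul_zero, sub_zero]
  rw [h6, add_mul, mul_add, h2, mul_assoc, h1, mul_assoc, h7, h8, mul_neg]

/-- the transposed matrix on the tangent vectors: if `<g p, z> = 0` and `g t = c e' + E z` with
`e'` on the line of `g p`, `g e = E e'`, `e` on the line of `p`, `<p, t> = 0`, then
`(c Z + d)ᵀ H z = E⁻¹ H t`. -/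
theorem AA_tangent (hH : Hᵀ = H) (hdet : IsUnit H.det) (hg : gᵀ * H * g' = H)
    (hg2 : g'ᵀ * H * g = H)
    (hb : bf H p p ≠ 0) {z t : n → ℂ} {E c : ℂ} (hE : E ≠ 0)
    (hz : bf H (g *ᵥ p) z = 0) (ht : bf H p t = 0) (h : g *ᵥ t = c • (g *ᵥ p) + E • z) :
    (AA H g g' p)ᵀ *ᵥ (H *ᵥ z) = E⁻¹ • (H *ᵥ t) := by
  have h1 : g'ᵀ *ᵥ (H *ᵥ z) = E⁻¹ • (H *ᵥ t) - (E⁻¹ * c) • (H *ᵥ p) := by
    have h2 : z = g *ᵥ (E⁻¹ • t - (E⁻¹ * c) • p) := by
      rw [mulVec_sub, mulVec_smul, mulVec_smul, h, smul_add, smul_smul, smul_smul,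
        inv_mul_cancel₀ hE, one_smul]
      module
    rw [h2, mulVec_mulVec, mulVec_mulVec, hg2, mulVec_sub, mulVec_smul, mulVec_smul]
  have h3 : (Pm H p)ᵀ *ᵥ (gᵀ *ᵥ (H *ᵥ z)) = 0 := by
    unfold Pm
    rw [transpose_smul, transpose_vecMulVec, smul_mulVec, vecMulVec_mulVec]
    have : p ⬝ᵥ gᵀ *ᵥ (H *ᵥ z) = 0 := by
      rw [dotProduct_mulVec, vecMul_transpose]
      exact hz
    rw [this]
    simp
  have h4 : (Pm H p)ᵀ *ᵥ (H *ᵥ t) = 0 := by
    unfold Pm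
    rw [transpose_smul, transpose_vecMulVec, smul_mulVec, vecMulVec_mulVec]
    have : p ⬝ᵥ H *ᵥ t = 0 := ht
    rw [this]
    simp
  have h5 : (Pm H p)ᵀ *ᵥ (H *ᵥ p) = H *ᵥ p := by
    unfold Pm
    rw [transpose_smul, transpose_vecMulVec, smul_mulVec, vecMulVec_mulVec]
    have : p ⬝ᵥ H *ᵥ p = bf H p p := rfl
    rw [this]
    ext i
    simp only [Pi.smul_apply, smul_eq_mul, MulOpposite.smul_eq_mul_unop, MulOpposite.unop_op]
    field_simp
  unfold AA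
  rw [transpose_add, transpose_mul, transpose_sub, add_mulVec, ← mulVec_mulVec, sub_mulVec,
    mulVec_sub, h3, h1, mulVec_sub, mulVec_smul, mulVec_smul, h4, h5]
  module

end

end Pool.Agent.CMH.TH8
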