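import Pool.Agent.Lib.CMH.TH8a
import Mathlib.Analysis.Calculus.Deriv.Prod

/-! # TANK CMH, row TH8, derivatives: tangent vectors transform by `(c Z + d)⁻ᵀ`.  helper20. -/

set_option autoImplicit false
set_option linter.unusedSectionVars false

open Matrix Filter Topology

namespace Pool.Agent.CMH.TH8

noncomputable section

variable {n : Type} [Fintype n] [DecidableEq n] {H g g' : Matrix n n ℂ}

theorem bf_smul_left (H : Matrix n n ℂ) (c : ℂ) (x y : n → ℂ) : bf H (c • x) y = c * bf H x y := by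
  unfold bf
  rw [smul_dotProduct, smul_eq_mul]

theorem bf_smul_right (H : Matrix n n ℂ) (c : ℂ) (x y : n → ℂ) : bf H x (c • y) = c * bf H x y := by
  unfold bf
  rw [mulVec_smul, dotProduct_smul, smul_eq_mul]

theorem bf_eq_sum (H : Matrix n n ℂ) (x y : n → ℂ) : bf H x y = ∑ i, ∑ j, x i * (H i j * y j) := by
  unfold bf dotProduct mulVec dotProduct
  simp_rw [Finset.mul_sum]

/-- the projection depends only on the line. -/
theorem Pm_smul (H : Matrix n n ℂ) {c : ℂ} (hc : c ≠ 0) (p : n → ℂ) : Pm H (c • p) = Pm H p := by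
  unfold Pm
  rw [bf_smul_left, bf_smul_right, mulVec_smul, smul_vecMulVec, vecMulVec_smul, smul_smul, smul_smul]
  congr 1
  rcases eq_or_ne (bf H p p) 0 with hb | hb
  · rw [hb]; simp
  · field_simp

theorem AA_smul (H g g' : Matrix n n ℂ) {c : ℂ} (hc : c ≠ 0) (p : n → ℂ) :
    AA H g g' (c • p) = AA H g g' p := by
  unfold AA
  rw [Pm_smul H hc]

theorem S_smul (H : Matrix n n ℂ) {c : ℂ} (hc : c ≠ 0) (p : n → ℂ) : S H (c • p) = S H p := by
  unfold S
  rw [Pm_smul H hc]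

/-- derivative of `<e, e>`. -/
theorem hasDerivAt_bf (hH : Hᵀ = H) {e : ℂ → n → ℂ} {t : n → ℂ} {s : ℂ} (h : HasDerivAt e t s) :
    HasDerivAt (fun x => bf H (e x) (e x)) (2 * bf H (e s) t) s := by
  have h1 : ∀ i, HasDerivAt (fun x => e x i) (t i) s := hasDerivAt_pi.mp h
  have h2 : HasDerivAt (fun x => ∑ i, ∑ j, e x i * (H i j * e x j))
      (∑ i, ∑ j, (t i * (H i j * e s j) + e s i * (H i j * t j))) s := by
    apply HasDerivAt.fun_sum
    intro i _
    apply HasDerivAt.fun_sum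
    intro j _
    exact (h1 i).mul ((h1 j).const_mul (H i j))
  have h3 : (fun x => bf H (e x) (e x)) = fun x => ∑ i, ∑ j, e x i * (H i j * e x j) := by
    funext x
    exact bf_eq_sum H _ _
  rw [h3]
  convert h2 using 1
  simp_rw [Finset.sum_add_distrib]
  rw [← bf_eq_sum, ← bf_eq_sum, bf_comm hH t]
  ring

/-- if `<e, e> = -1` near `s` then the derivative is orthogonal. -/
theorem bf_deriv_eq_zero (hH : Hᵀ = H) {e : ℂ → n → ℂ} {t : n → ℂ} {s : ℂ}
    (h : HasDerivAt e t s) (h1 : ∀ᶠ x in 𝓝 s, bf H (e x) (e x) = -1) : bf H (e s) t = 0 := by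
  have h2 := hasDerivAt_bf hH h
  have h3 : HasDerivAt (fun x => bf H (e x) (e x)) 0 s := by
    refine (hasDerivAt_const s (-1 : ℂ)).congr_of_eventuallyEq ?_
    filter_upwards [h1] with x hx
    exact hx
  have h4 := h2.unique h3
  have : (2 : ℂ) ≠ 0 := two_ne_zero
  exact (mul_eq_zero.mp h4).resolve_left this

/-- tangent vectors: `g e = E e₂` along a curve, `<e, e> = <e₂, e₂> = -1`:
`(c Z + d)ᵀ H e₂' = E⁻¹ H e'`. -/
theorem tangent (hH : Hᵀ = H) (hdet : IsUnit H.det) (hg : gᵀ * H * g' = H)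
    (hg2 : g'ᵀ * H * g = H) {e e₂ : ℂ → n → ℂ} {E : ℂ → ℂ} {s E' : ℂ} {t z : n → ℂ}
    (he : HasDerivAt e t s) (he₂ : HasDerivAt e₂ z s) (hE : HasDerivAt E E' s)
    (h1 : ∀ᶠ x in 𝓝 s, bf H (e x) (e x) = -1) (h2 : ∀ᶠ x in 𝓝 s, bf H (e₂ x) (e₂ x) = -1)
    (h3 : ∀ᶠ x in 𝓝 s, g *ᵥ e x = E x • e₂ x) (hE0 : E s ≠ 0) :
    (AA H g g' (e s))ᵀ *ᵥ (H *ᵥ z) = (E s)⁻¹ • (H *ᵥ t) := by
  have hb : bf H (e s) (e s) ≠ 0 := by
    rw [h1.self_of_nhds]
    norm_num
  have h3s : g *ᵥ e s = E s • e₂ s := h3.self_of_nhds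
  have h4 : HasDerivAt (fun x => g *ᵥ e x) (g *ᵥ t) s := by
    rw [hasDerivAt_pi]
    intro i
    have h5 : ∀ j, HasDerivAt (fun x => e x j) (t j) s := hasDerivAt_pi.mp he
    have h6 : HasDerivAt (fun x => ∑ j, g i j * e x j) (∑ j, g i j * t j) s := by
      apply HasDerivAt.fun_sum
      intro j _
      exact (h5 j).const_mul (g i j)
    exact h6
  have h7 : HasDerivAt (fun x => E x • e₂ x) (E s • z + E' • e₂ s) s := hE.smul he₂
  have h8 : g *ᵥ t = E s • z + E' • e₂ s :=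
    h4.unique (h7.congr_of_eventuallyEq h3)
  have h9 : e₂ s = (E s)⁻¹ • (g *ᵥ e s) := by
    rw [h3s, smul_smul, inv_mul_cancel₀ hE0, one_smul]
  refine AA_tangent hH hdet hg hg2 hb hE0 ?_ (bf_deriv_eq_zero hH he h1)
    (c := E' * (E s)⁻¹) ?_
  · rw [h3s, bf_smul_left, bf_deriv_eq_zero hH he₂ h2, mul_zero]
  · rw [h8, h9, smul_smul, add_comm]

end

end Pool.Agent.CMH.TH8
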