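import Pool.Agent.Lib.CMH.TH9a

/-! # TANK CMH, row TH9b: the laws of `theta1`, `theta2` (exact statements of helper97).
helper99. -/

set_option autoImplicit false

namespace Pool.CMH

open Matrix Complex Real

noncomputable section

theorem theta1_law (N : ℕ) [NeZero N] {ι : Type} [Fintype ι] [DecidableEq ι]
    {M : Matrix (ι ⊕ ι) (ι ⊕ ι) ℤ} {Z Z' : Matrix ι ι ℂ} (hZ : Z ∈ Sieg ι) (hZ' : Z' ∈ Sieg ι)
    {c : ℂ} {φ : (ι → ZMod N) → ℂ}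
    (hl : ∀ u, theta N φ Z' (uu M Z u) = c * ee N M Z u * theta N φ Z u) (η : ι → ℂ) :
    theta1 N φ Z' (uu M Z η) = c * theta1 N φ Z η :=
  theta1_lawG hZ hZ' φ hl η

theorem theta2_law (N : ℕ) [NeZero N] {ι : Type} [Fintype ι] [DecidableEq ι]
    {M : Matrix (ι ⊕ ι) (ι ⊕ ι) ℤ} {Z Z' : Matrix ι ι ℂ} (hZ : Z ∈ Sieg ι) (hZ' : Z' ∈ Sieg ι)
    {c : ℂ} {φ : (ι → ZMod N) → ℂ}
    (hl : ∀ u, theta N φ Z' (uu M Z u) = c * ee N M Z u * theta N φ Z u) (η ζ : ι → ℂ)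
    (h1 : η ⬝ᵥ (((au M Z)⁻¹ * bC M) *ᵥ ζ) = 0) (h2 : ζ ⬝ᵥ (((au M Z)⁻¹ * bC M) *ᵥ η) = 0) :
    theta2 N φ Z' (uu M Z η) (uu M Z ζ) = c * theta2 N φ Z η ζ := by
  rw [theta2_lawG hZ hZ' φ hl η ζ]
  unfold qb
  rw [h1, h2]
  ring

end

end Pool.CMH
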