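import Pool.Agent.Lib.CMH.TH7f
import Pool.Agent.Lib.CMH.TH8c

/-! # TANK CMH, row TH9a (helper4): the theta one-forms as Siegel theta series -/

set_option autoImplicit false

namespace Pool.CMH

open Matrix Complex Real
open Pool.Agent.CMH (hat pr w s ds ball ev form Mat Gam cmat gy act Good SB2 Maj IsMaj R0 gauss
  gauss2 Del CR IsSB GRP EST)

noncomputable section

section

variable {F : Type} [Field F] [NumberField F]

/-- the value of a lattice point at a place -/
theorem lat_at {J : Type} [Fintype J] [DecidableEq J] (N : ℕ) (x : (J × Fin 3) × KF F → ℤ)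
    (v : F →+* ℝ) (i : J) (k : Fin 3) :
    v (lat N x i k) = (N : ℝ)⁻¹ * ∑ p, (x ((i, k), p) : ℝ) * Wm F v p := by
  unfold lat Wm
  rw [map_mul, map_inv₀, map_natCast, map_sum]
  congr 1
  refine Finset.sum_congr rfl fun p _ => ?_
  rw [map_mul, map_intCast]

omit [NumberField F] in
/-- `ds` is linear in `x` with the coefficients `ed` -/
theorem ds_eq_ed (k x : Fin 3 → ℝ) (j : Fin 2) (y : Fin 2 → ℂ) :
    ds k x j y = ∑ l, (x l : ℂ) * ed k j y l := by
  unfold ds ed pr
  have h1 : ∑ l, (x l : ℂ) * ((if l = j.castSucc then (k j.castSucc : ℂ) else 0) / w k y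
      + (k l : ℂ) * hat y l * ((k j.castSucc : ℂ) * y j) / w k y ^ 3) =
      ∑ l, (if l = j.castSucc then (x l : ℂ) * (k j.castSucc : ℂ) / w k y else 0) +
      (∑ l, (k l : ℂ) * (x l : ℂ) * hat y l) * ((k j.castSucc : ℂ) * y j) / w k y ^ 3 := by
    rw [Finset.sum_mul, Finset.sum_div, ← Finset.sum_add_distrib]
    refine Finset.sum_congr rfl fun l _ => ?_
    split_ifs <;> ring
  rw [h1, Finset.sum_ite_eq' Finset.univ j.castSucc]
  simp only [Finset.mem_univ, if_true]
  ring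


variable {v₁ : F →+* ℝ} {D : F} {h : Fin 3 → F}

open Classical in
omit [NumberField F] in
/-- the quadratic form of `Z_v` on the vector `ξ` -/
theorem Zp_quad {a : F} (ha : 0 < v₁ a) (y : Fin 2 → ℂ) (ξ : Fin 3 → F) (v : F →+* ℝ) :
    ∑ i : Unit × Fin 3, ∑ j : Unit × Fin 3, (v (ξ i.2) : ℂ) * (v (ξ j.2) : ℂ) *
      Zp v₁ D h (fun _ : Unit => a) (fun v => diagonal fun _ => |v a|) y v i j =
      I * (((|v a| / √(v D) : ℝ) : ℂ) *
        ((form h v ξ ξ : ℂ) + if v = v₁ then 2 * s (ev v h) (ev v ξ) y ^ 2 else 0)) := by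
  by_cases hv : v = v₁
  · subst hv
    have hZ : ∀ i j : Unit × Fin 3, Zp v D h (fun _ : Unit => a)
        (fun v => diagonal fun _ => |v a|) y v i j =
        (I / (√(v D) : ℂ)) * ((v a : ℂ) * ((if i.2 = j.2 then (v (h i.2) : ℂ) else 0) +
          2 * (v (h i.2) : ℂ) * (v (h j.2) : ℂ) * hat y i.2 * hat y j.2 / w (ev v h) y ^ 2)) := by
      intro i j
      unfold Zp
      rw [if_pos rfl, if_pos (Subsingleton.elim _ _)]
    simp only [hZ]
    rw [abs_of_pos ha, if_pos trivial]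
    unfold s pr form ev
    simp only [Fintype.sum_prod_type, Finset.univ_unique, Finset.sum_singleton]
    simp only [Fin.sum_univ_three]
    push_cast
    simp
    ring
  · have hZ : ∀ i j : Unit × Fin 3, Zp v₁ D h (fun _ : Unit => a)
        (fun v => diagonal fun _ => |v a|) y v i j =
        (I / (√(v D) : ℂ)) * ((|v a| : ℝ) * (if i.2 = j.2 then (v (h i.2) : ℂ) else 0)) := by
      intro i j
      unfold Zp
      rw [if_neg hv]
      congr 2
    simp only [hZ]
    rw [if_neg hv]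
    unfold form
    simp only [Fintype.sum_prod_type, Finset.univ_unique, Finset.sum_singleton]
    simp only [Fin.sum_univ_three]
    push_cast
    simp
    ring

theorem theta_eq (hgd : Good v₁ D h) {a : F} (ha : 0 < v₁ a) (N : ℕ)
    {φ : (Fin 3 → F) → ℂ} (hφ : SBJ N (fun ξ : Unit → Fin 3 → F => φ (ξ ())))
    {φ' : ((Unit × Fin 3) × KF F → ZMod (2 * N ^ 2)) → ℂ}
    (hφ' : Lev N (fun ξ : Unit → Fin 3 → F => φ (ξ ())) φ') (j : Fin 2) {y : Fin 2 → ℂ}
    (hy : y ∈ ball (ev v₁ h)) :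
    Pool.Agent.CMH.theta v₁ D h a φ j y =
      theta1 (2 * N ^ 2) φ' (ZZ v₁ D h (fun _ : Unit => a) (fun v => diagonal fun _ => |v a|) y)
        (vv (Wm F) v₁ (row () ((N : ℂ)⁻¹ • ed (ev v₁ h) j y))) := by
  classical
  have hN0 : (N : ℂ) ≠ 0 := by exact_mod_cast hφ.1.ne'
  have e1 : Pool.Agent.CMH.theta v₁ D h a φ j y =
      ∑' ξ : Unit → Fin 3 → F, φ (ξ ()) *
        (gauss v₁ D h a (ξ ()) y * ds (ev v₁ h) (ev v₁ (ξ ())) j y) := by
    unfold Pool.Agent.CMH.theta
    rw [← (Equiv.funUnique Unit (Fin 3 → F)).tsum_eq]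
    refine tsum_congr fun ξ => ?_
    rw [mul_assoc]
    rfl
  rw [e1, tsum_lat N hφ (fun ξ => gauss v₁ D h a (ξ ()) y * ds (ev v₁ h) (ev v₁ (ξ ())) j y)]
  unfold theta1
  refine tsum_congr fun x => ?_
  rw [hφ' x]
  congr 1
  rw [mul_comm]
  have hX : ∀ (v : F →+* ℝ) (i : Unit × Fin 3), ∑ p, (x (i, p) : ℂ) * (Wm F v p : ℂ) =
      N * ((v (lat N x () i.2) : ℝ) : ℂ) := by
    intro v i
    rw [lat_at]
    push_cast
    rw [mul_inv_cancel_left₀ hN0]
  congr 1
  · rw [vv_lf, ds_eq_ed, Fintype.sum_prod_type]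
    simp only [Finset.univ_unique, Finset.sum_singleton, hX]
    refine Finset.sum_congr rfl fun l _ => ?_
    unfold row
    rw [if_pos (Subsingleton.elim _ _), Pi.smul_apply, smul_eq_mul]
    change ((v₁ (lat N x () l) : ℝ) : ℂ) * ed (ev v₁ h) j y l =
      (N : ℂ) * ((v₁ (lat N x () l) : ℝ) : ℂ) * ((N : ℂ)⁻¹ * ed (ev v₁ h) j y l)
    field_simp
  · unfold tm gauss ZZ
    congr 1
    rw [tU_qf]
    simp only [hX]
    have h0 : lf (0 : (Unit × Fin 3) × KF F → ℂ) x = 0 := by simp [lf]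
    rw [h0, mul_zero, add_zero]
    have h1 : ∀ v : F →+* ℝ, ∑ i : Unit × Fin 3, ∑ j : Unit × Fin 3,
        (N * ((v (lat N x () i.2) : ℝ) : ℂ)) * (N * ((v (lat N x () j.2) : ℝ) : ℂ)) *
        Zp v₁ D h (fun _ : Unit => a) (fun v => diagonal fun _ => |v a|) y v i j =
        (N : ℂ) ^ 2 * (I * (((|v a| / √(v D) : ℝ) : ℂ) *
          ((form h v (lat N x ()) (lat N x ()) : ℂ) +
            if v = v₁ then 2 * s (ev v h) (ev v (lat N x ())) y ^ 2 else 0))) := by
      intro v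
      rw [← Zp_quad ha y (lat N x ()) v, Finset.mul_sum]
      refine Finset.sum_congr rfl fun i _ => ?_
      rw [Finset.mul_sum]
      refine Finset.sum_congr rfl fun j _ => ?_
      ring
    simp only [h1]
    rw [← Finset.mul_sum, ← Finset.mul_sum]
    generalize (∑ v : F →+* ℝ, ((|v a| / √(v D) : ℝ) : ℂ) *
          ((form h v (lat N x ()) (lat N x ()) : ℂ) +
            if v = v₁ then 2 * s (ev v h) (ev v (lat N x ())) y ^ 2 else 0)) = T
    have hI := Complex.I_sq
    have h2 : ((2 * N ^ 2 : ℕ) : ℂ) ≠ 0 := by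
      push_cast
      exact mul_ne_zero two_ne_zero (pow_ne_zero 2 hN0)
    rw [eq_div_iff h2]
    push_cast
    linear_combination (-2 * (π : ℂ) * N ^ 2 * T) * hI
end

end

end Pool.CMH
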