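import Pool.Agent.Lib.CMH.Tens
import Pool.Agent.Lib.CMH.Sum2
import Pool.Agent.Lib.CMH.Sum3

/-!
# TANK CMH, row TENS, general form: `C_R(φ)`, `R = Mᵀ |diag b| M`, `Mᵀ diag(b) M = diag(a)`, is a sum
of wedge products of theta one-forms `v_{b₀} ∧ v_{b₁}`
-/

set_option autoImplicit false

open scoped ComplexConjugate Matrix
open Complex

namespace Pool.Agent.CMH

noncomputable section

variable {F : Type} [Field F] [NumberField F]

/-- the majorant `Mᵀ |diag b| M` -/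
def Rn (b : Fin 2 → F) (M : Matrix (Fin 2) (Fin 2) F) : Maj F := fun v =>
  (M.map v)ᵀ * Matrix.diagonal (fun i => |v (b i)|) * M.map v

namespace Tens

theorem form_quad (h : Fin 3 → F) (v : F →+* ℝ) (d : Fin 2 → ℝ) (M : Matrix (Fin 2) (Fin 2) F)
    (ξ : Fin 2 → Fin 3 → F) :
    (∑ i, ∑ j, ((M.map v)ᵀ * Matrix.diagonal d * M.map v) i j * form h v (ξ i) (ξ j)) =
      ∑ k, d k * form h v (ch M ξ k) (ch M ξ k) := by
  have h1 : ∀ i j, ((M.map v)ᵀ * Matrix.diagonal d * M.map v) i j =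
      v (M 0 i) * d 0 * v (M 0 j) + v (M 1 i) * d 1 * v (M 1 j) := by
    intro i j
    rw [Matrix.mul_apply, Fin.sum_univ_two, Matrix.mul_diagonal, Matrix.mul_diagonal,
      Matrix.transpose_apply, Matrix.transpose_apply, Matrix.map_apply, Matrix.map_apply,
      Matrix.map_apply, Matrix.map_apply]
  have hsym : form h v (ξ 1) (ξ 0) = form h v (ξ 0) (ξ 1) := by
    unfold form
    exact Finset.sum_congr rfl fun j _ => by ring
  rw [Fin.sum_univ_two, Fin.sum_univ_two, Fin.sum_univ_two, Fin.sum_univ_two, form_ch, form_ch,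
    h1, h1, h1, h1, hsym]
  ring

theorem s_quad (v : F →+* ℝ) (k : Fin 3 → ℝ) (a b : Fin 2 → F) (M : Matrix (Fin 2) (Fin 2) F)
    (hM : Mᵀ * Matrix.diagonal b * M = Matrix.diagonal a) (ξ : Fin 2 → Fin 3 → F)
    (y : Fin 2 → ℂ) :
    (∑ i, (v (a i) : ℂ) * s k (ev v (ξ i)) y ^ 2) =
      ∑ i, (v (b i) : ℂ) * s k (ev v (ch M ξ i)) y ^ 2 := by
  have h1 : ∀ i j, M 0 i * b 0 * M 0 j + M 1 i * b 1 * M 1 j = Matrix.diagonal a i j := by
    intro i j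
    rw [← hM, Matrix.mul_apply, Fin.sum_univ_two, Matrix.mul_diagonal, Matrix.mul_diagonal,
      Matrix.transpose_apply, Matrix.transpose_apply]
  have e00 := congrArg (fun x => ((v x : ℝ) : ℂ)) (h1 0 0)
  have e01 := congrArg (fun x => ((v x : ℝ) : ℂ)) (h1 0 1)
  have e11 := congrArg (fun x => ((v x : ℝ) : ℂ)) (h1 1 1)
  rw [Matrix.diagonal_apply_eq] at e00 e11
  rw [Matrix.diagonal_apply_ne _ (by decide)] at e01
  simp only [map_add, map_mul, map_zero, Complex.ofReal_add, Complex.ofReal_mul,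
    Complex.ofReal_zero] at e00 e01 e11
  rw [Fin.sum_univ_two, Fin.sum_univ_two, ev_ch, ev_ch, s_lin, s_lin, ← e00, ← e11]
  linear_combination -(2 * s k (ev v (ξ 0)) y * s k (ev v (ξ 1)) y) * e01

theorem gauss2_gen (v₁ : F →+* ℝ) (D : F) (h : Fin 3 → F) (a b : Fin 2 → F)
    (M : Matrix (Fin 2) (Fin 2) F) (hM : Mᵀ * Matrix.diagonal b * M = Matrix.diagonal a)
    (ξ : Fin 2 → Fin 3 → F) (y : Fin 2 → ℂ) :
    gauss2 v₁ D h a (Rn b M) ξ y = gauss2 v₁ D h b (R0 b) (ch M ξ) y := by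
  have key : ∀ v : F →+* ℝ, (∑ i, ∑ j, Rn b M v i j * form h v (ξ i) (ξ j)) =
      ∑ i, ∑ j, R0 b v i j * form h v (ch M ξ i) (ch M ξ j) := by
    intro v
    unfold Rn
    rw [form_quad]
    refine Finset.sum_congr rfl fun i _ => ?_
    rw [Finset.sum_eq_single i]
    · change _ = (Matrix.diagonal (fun i => |v (b i)|)) i i * _
      rw [Matrix.diagonal_apply_eq]
    · intro j _ hj
      change (Matrix.diagonal (fun i => |v (b i)|)) i j * _ = 0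
      rw [Matrix.diagonal_apply_ne _ (Ne.symm hj), zero_mul]
    · exact fun h' => absurd (Finset.mem_univ _) h'
  unfold gauss2
  congr 2
  refine Finset.sum_congr rfl fun v _ => ?_
  rw [key v]
  by_cases hv : v = v₁
  · subst hv
    rw [if_pos rfl, if_pos rfl, s_quad v (ev v h) a b M hM]
  · rw [if_neg hv, if_neg hv]

theorem Del_gen (v₁ : F →+* ℝ) (k : Fin 3 → ℝ) (M : Matrix (Fin 2) (Fin 2) F)
    (ξ : Fin 2 → Fin 3 → F) (y : Fin 2 → ℂ) :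
    Del k (fun i => ev v₁ (ch M ξ i)) y = (v₁ M.det : ℂ) * Del k (fun i => ev v₁ (ξ i)) y := by
  unfold Del
  simp only [ev_ch, ds_lin]
  rw [Matrix.det_fin_two, map_sub, map_mul, map_mul]
  push_cast
  ring

end Tens

open Tens

/-- **row TENS, general form** -/
theorem CR_Rn_eq_sum [NumberField.IsTotallyReal F] {v₁ : F →+* ℝ} {D : F} {h : Fin 3 → F}
    (hG : Good v₁ D h) {a b : Fin 2 → F} (hbv : ∀ i, 0 < v₁ (b i)) {N : ℕ}
    {φ : (Fin 2 → Fin 3 → F) → ℂ} (hφ : SB2 N φ) {M : Matrix (Fin 2) (Fin 2) F}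
    (hM : Mᵀ * Matrix.diagonal b * M = Matrix.diagonal a) (hdet : M.det ≠ 0) :
    ∃ (K : ℕ) (ψ : Fin K → Fin 2 → (Fin 3 → F) → ℂ), (∀ k i, IsSB (ψ k i)) ∧
      ∀ y ∈ ball (ev v₁ h), CR v₁ D h a (Rn b M) φ y =
        ∑ k, wedge (theta v₁ D h (b 0) (ψ k 0)) (theta v₁ D h (b 1) (ψ k 1)) y := by
  have hbn : ∀ i, b i ≠ 0 := by
    intro i h0
    have h1 := hbv i
    rw [h0, map_zero] at h1
    exact lt_irrefl _ h1
  have hu : IsUnit M.det := isUnit_iff_ne_zero.2 hdet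
  have hgg : M⁻¹ * M = 1 := Matrix.nonsing_inv_mul M hu
  have hgg' : M * M⁻¹ = 1 := Matrix.mul_nonsing_inv M hu
  obtain ⟨N', hN'⟩ := hφ.comp M⁻¹ M hgg
  obtain ⟨K, ψ, hψ, hsum⟩ := exists_tensor hN'
  have hd : (v₁ M.det : ℂ) ≠ 0 := by
    rw [Ne, Complex.ofReal_eq_zero]
    exact (map_ne_zero v₁).2 hdet
  have hSB : ∀ k i, IsSB ((![fun x => (v₁ M.det : ℂ)⁻¹ * ψ k 0 x, ψ k 1] :
      Fin 2 → (Fin 3 → F) → ℂ) i) := by
    intro k i
    fin_cases i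
    · exact (hψ k 0).smul _
    · exact hψ k 1
  refine ⟨K, fun k => ![fun x => (v₁ M.det : ℂ)⁻¹ * ψ k 0 x, ψ k 1], hSB, ?_⟩
  intro y hy
  have hw : ∀ k, CR v₁ D h b (R0 b) (tens ![fun x => (v₁ M.det : ℂ)⁻¹ * ψ k 0 x, ψ k 1]) y =
      wedge (theta v₁ D h (b 0) (fun x => (v₁ M.det : ℂ)⁻¹ * ψ k 0 x))
        (theta v₁ D h (b 1) (ψ k 1)) y :=
    fun k => (sum3 F v₁ D h b _ hG hbv (hSB k) y hy).2
  have hw' : (∑ k, wedge (theta v₁ D h (b 0) ((![fun x => (v₁ M.det : ℂ)⁻¹ * ψ k 0 x,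
      ψ k 1] : Fin 2 → (Fin 3 → F) → ℂ) 0)) (theta v₁ D h (b 1)
      ((![fun x => (v₁ M.det : ℂ)⁻¹ * ψ k 0 x, ψ k 1] : Fin 2 → (Fin 3 → F) → ℂ) 1)) y) =
      ∑ k, CR v₁ D h b (R0 b) (tens ![fun x => (v₁ M.det : ℂ)⁻¹ * ψ k 0 x, ψ k 1]) y :=
    Finset.sum_congr rfl fun k _ => (hw k).symm
  rw [hw']
  have hsm : ∀ k ∈ (Finset.univ : Finset (Fin K)), Summable (fun ξ : Fin 2 → Fin 3 → F =>
      tens (![fun x => (v₁ M.det : ℂ)⁻¹ * ψ k 0 x, ψ k 1]) ξ *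
        gauss2 v₁ D h b (R0 b) ξ y * Del (ev v₁ h) (fun i => ev v₁ (ξ i)) y) := by
    intro k _
    obtain ⟨N', hN'⟩ := SB2.tens (hSB k)
    exact (sum2 F v₁ D h b (R0 b) N' _ hG hbv (posDef_R0 _ hbn) rfl hN').1 y hy
  unfold CR
  rw [← Summable.tsum_finsetSum hsm, ← (chE M⁻¹ M hgg hgg').tsum_eq]
  refine tsum_congr fun η => ?_
  change φ (ch M⁻¹ η) * gauss2 v₁ D h a (Rn b M) (ch M⁻¹ η) y *
    Del (ev v₁ h) (fun i => ev v₁ (ch M⁻¹ η i)) y = _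
  have hη : ch M (ch M⁻¹ η) = η := ch_ch M M⁻¹ hgg' η
  have h4 : Del (ev v₁ h) (fun i => ev v₁ (ch M⁻¹ η i)) y =
      (v₁ M.det : ℂ)⁻¹ * Del (ev v₁ h) (fun i => ev v₁ (η i)) y := by
    have h5 := Del_gen v₁ (ev v₁ h) M (ch M⁻¹ η) y
    rw [hη] at h5
    rw [h5, ← mul_assoc, inv_mul_cancel₀ hd, one_mul]
  rw [gauss2_gen v₁ D h a b M hM, hη, h4]
  have h5 : φ (ch M⁻¹ η) = ∑ k, ψ k 0 (η 0) * ψ k 1 (η 1) := hsum η
  rw [h5, Finset.sum_mul, Finset.sum_mul]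
  refine Finset.sum_congr rfl fun k _ => ?_
  change _ = (v₁ M.det : ℂ)⁻¹ * ψ k 0 (η 0) * ψ k 1 (η 1) * _ * _
  ring

end

end Pool.Agent.CMH
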