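import Pool.Agent.Lib.CMH.WigDefs
import Pool.Agent.Lib.CMH.TH7d

/-! # TANK CMH, row W0: a dual pair of bases exists (helper45). -/

set_option autoImplicit false

open NumberField

namespace Pool.Agent.CMH.Wig

noncomputable section

theorem w0 : W0 := by
  intro F _ _ _
  classical
  refine ⟨Pool.CMH.KF F, inferInstance, inferInstance, ⟨?_⟩⟩
  refine
    { om := Pool.CMH.om
      od := Pool.CMH.os
      int := ?_
      inj := ?_
      dual := ?_
      dual' := ?_
      dual'' := ?_ }
  · intro x
    constructor
    · intro hx
      let z : 𝓞 F := ⟨x, hx⟩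
      refine ⟨fun s => (NumberField.RingOfIntegers.basis F).repr z s, ?_⟩
      have h1 := (NumberField.RingOfIntegers.basis F).sum_repr z
      have h2 := congrArg (fun t : 𝓞 F => (t : F)) h1
      have h3 : (z : F) = x := rfl
      rw [← h3, ← h2]
      simp only [Pool.CMH.om, NumberField.integralBasis_apply]
      simp [zsmul_eq_mul]
    · rintro ⟨n, rfl⟩
      refine IsIntegral.sum _ fun s _ => ?_
      have h1 : IsIntegral ℤ (Pool.CMH.om (F := F) s) := by
        rw [Pool.CMH.om, NumberField.integralBasis_apply]
        exact (NumberField.RingOfIntegers.basis F s).2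
      exact (isIntegral_algebraMap (R := ℤ) (x := n s)).mul h1
  · intro n hn
    have h1 : ∑ s, (n s : ℚ) • NumberField.integralBasis F s = 0 := by
      rw [← hn]
      refine Finset.sum_congr rfl fun s _ => ?_
      rw [Algebra.smul_def]
      simp [Pool.CMH.om]
    have h2 := (Fintype.linearIndependent_iff.mp (NumberField.integralBasis F).linearIndependent)
      (fun s => (n s : ℚ)) h1
    funext s
    exact_mod_cast h2 s
  · intro s t
    exact Pool.CMH.sum_places s t
  · intro v
    have := Pool.CMH.sum_ix v v
    rw [if_pos rfl] at this
    exact this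
  · intro v w hvw
    have := Pool.CMH.sum_ix v w
    rw [if_neg hvw] at this
    exact this

end

end Pool.Agent.CMH.Wig
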