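import Mathlib

/-!
# TANK CMH, WIG route, row W2: the transformation law of the kernel at `v₁`

`H k x z = ∑ k_j x_j conj z_j`; for a negative vector `p` the kernel
`KG al lam p x z` depends on the classes of `x`, `z` modulo `p`; its antisymmetrisation `DK`
over two rows is multiplied by `|(A p)₂|⁶` under a unitary `A`.
-/

set_option autoImplicit false

namespace Pool.Agent.CMH.W2

open scoped ComplexConjugate Matrix
open Complex

noncomputable section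

/-- the hermitian form -/
def H (k : Fin 3 → ℝ) (x z : Fin 3 → ℂ) : ℂ := ∑ j, (k j : ℂ) * x j * conj (z j)

/-- the orthogonal projection along `p` -/
def prj (k : Fin 3 → ℝ) (p x : Fin 3 → ℂ) : Fin 3 → ℂ := x - (H k x p / H k p p) • p

/-- the basis vector `e_j`, `j < 2`, of `ℂ³` -/
def ej (j : Fin 2) : Fin 3 → ℂ := Pi.single j.castSucc 1

/-- the kernel of one row, evaluated on two tangent vectors `x`, `z` -/
def KG (k : Fin 3 → ℝ) (al : ℝ) (lam p x z : Fin 3 → ℂ) : ℂ :=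
  (1 / (-H k p p)) *
    cexp (-((Real.pi : ℂ) * al / 2) *
      (H k lam lam + 2 * (H k lam p * conj (H k lam p)) / (-H k p p))) *
    (H k (prj k p x) (prj k p z) / (4 * (Real.pi : ℂ) * al)
      - H k (prj k p x) (prj k p lam) * H k (prj k p lam) (prj k p z) / 4)

/-- the antisymmetrisation over two rows, on tangent vectors -/
def DG (k : Fin 3 → ℝ) (al₀ al₁ : ℝ) (lam₀ lam₁ p x₀ x₁ z₀ z₁ : Fin 3 → ℂ) : ℂ :=
  KG k al₀ lam₀ p x₀ z₀ * KG k al₁ lam₁ p x₁ z₁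
    - KG k al₀ lam₀ p x₁ z₀ * KG k al₁ lam₁ p x₀ z₁
    - KG k al₀ lam₀ p x₀ z₁ * KG k al₁ lam₁ p x₁ z₀
    + KG k al₀ lam₀ p x₁ z₁ * KG k al₁ lam₁ p x₀ z₀

/-- the antisymmetrisation over two rows, in the coordinates `y₀`, `y₁` -/
def DK (k : Fin 3 → ℝ) (al₀ al₁ : ℝ) (lam₀ lam₁ p : Fin 3 → ℂ) : ℂ :=
  DG k al₀ al₁ lam₀ lam₁ p (ej 0) (ej 1) (ej 0) (ej 1)

/-! ### sesquilinearity -/

theorem H_add_left (k : Fin 3 → ℝ) (x x' z : Fin 3 → ℂ) : H k (x + x') z = H k x z + H k x' z := by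
  simp only [H, Pi.add_apply, ← Finset.sum_add_distrib]
  exact Finset.sum_congr rfl fun j _ => by ring

theorem H_smul_left (k : Fin 3 → ℝ) (c : ℂ) (x z : Fin 3 → ℂ) : H k (c • x) z = c * H k x z := by
  simp only [H, Pi.smul_apply, smul_eq_mul, Finset.mul_sum]
  exact Finset.sum_congr rfl fun j _ => by ring

theorem H_conj (k : Fin 3 → ℝ) (x z : Fin 3 → ℂ) : conj (H k x z) = H k z x := by
  simp only [H, map_sum, map_mul, Complex.conj_conj, Complex.conj_ofReal]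
  exact Finset.sum_congr rfl fun j _ => by ring

theorem H_add_right (k : Fin 3 → ℝ) (x z z' : Fin 3 → ℂ) :
    H k x (z + z') = H k x z + H k x z' := by
  rw [← H_conj, H_add_left, map_add, H_conj, H_conj]

theorem H_smul_right (k : Fin 3 → ℝ) (c : ℂ) (x z : Fin 3 → ℂ) :
    H k x (c • z) = conj c * H k x z := by
  rw [← H_conj, H_smul_left, map_mul, H_conj]

theorem prj_add (k : Fin 3 → ℝ) (p x x' : Fin 3 → ℂ) :
    prj k p (x + x') = prj k p x + prj k p x' := by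
  simp only [prj, H_add_left, add_div, add_smul]
  abel

theorem prj_smul (k : Fin 3 → ℝ) (p : Fin 3 → ℂ) (c : ℂ) (x : Fin 3 → ℂ) :
    prj k p (c • x) = c • prj k p x := by
  simp only [prj, H_smul_left, smul_sub, smul_smul, mul_div_assoc]

theorem prj_self (k : Fin 3 → ℝ) {p : Fin 3 → ℂ} (hp : H k p p ≠ 0) : prj k p p = 0 := by
  simp only [prj, div_self hp, one_smul, sub_self]

theorem prj_scale (k : Fin 3 → ℝ) {p : Fin 3 → ℂ} (c : ℂ) (hc : c ≠ 0) (x : Fin 3 → ℂ) :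
    prj k (c • p) x = prj k p x := by
  simp only [prj, H_smul_left, H_smul_right, smul_smul]
  have hc' : conj c ≠ 0 := by simpa using hc
  by_cases hp : H k p p = 0
  · simp [hp]
  · congr 2
    field_simp

theorem KG_add_left (k : Fin 3 → ℝ) (al : ℝ) (lam p x x' z : Fin 3 → ℂ) :
    KG k al lam p (x + x') z = KG k al lam p x z + KG k al lam p x' z := by
  simp only [KG, prj_add, H_add_left]
  ring

theorem KG_smul_left (k : Fin 3 → ℝ) (al : ℝ) (lam p : Fin 3 → ℂ) (c : ℂ) (x z : Fin 3 → ℂ) :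
    KG k al lam p (c • x) z = c * KG k al lam p x z := by
  simp only [KG, prj_smul, H_smul_left]
  ring

theorem KG_add_right (k : Fin 3 → ℝ) (al : ℝ) (lam p x z z' : Fin 3 → ℂ) :
    KG k al lam p x (z + z') = KG k al lam p x z + KG k al lam p x z' := by
  simp only [KG, prj_add, H_add_right]
  ring

theorem KG_smul_right (k : Fin 3 → ℝ) (al : ℝ) (lam p : Fin 3 → ℂ) (c : ℂ) (x z : Fin 3 → ℂ) :
    KG k al lam p x (c • z) = conj c * KG k al lam p x z := by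
  simp only [KG, prj_smul, H_smul_right]
  ring

theorem H_zero_left (k : Fin 3 → ℝ) (z : Fin 3 → ℂ) : H k 0 z = 0 := by simp [H]
theorem H_zero_right (k : Fin 3 → ℝ) (z : Fin 3 → ℂ) : H k z 0 = 0 := by simp [H]

theorem KG_self_left (k : Fin 3 → ℝ) (al : ℝ) (lam z : Fin 3 → ℂ) {p : Fin 3 → ℂ}
    (hp : H k p p ≠ 0) : KG k al lam p p z = 0 := by
  simp only [KG, prj_self k hp, H_zero_left]
  ring

theorem KG_self_right (k : Fin 3 → ℝ) (al : ℝ) (lam x : Fin 3 → ℂ) {p : Fin 3 → ℂ}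
    (hp : H k p p ≠ 0) : KG k al lam p x p = 0 := by
  simp only [KG, prj_self k hp, H_zero_right]
  ring

/-- every vector is a combination of `e₀`, `e₁`, `p` if `p₂ = 1` -/
theorem decomp {p : Fin 3 → ℂ} (hp2 : p 2 = 1) (x : Fin 3 → ℂ) :
    x = ((x 0 - x 2 * p 0) • ej 0 + (x 1 - x 2 * p 1) • ej 1) + x 2 • p := by
  funext j
  fin_cases j
  · simp [ej]
  · simp [ej]
  · simp [ej, hp2]

theorem KG_decomp (k : Fin 3 → ℝ) (al : ℝ) (lam : Fin 3 → ℂ) {p : Fin 3 → ℂ} (hp2 : p 2 = 1)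
    (hp : H k p p ≠ 0) (x z : Fin 3 → ℂ) :
    KG k al lam p x z =
      (x 0 - x 2 * p 0) * conj (z 0 - z 2 * p 0) * KG k al lam p (ej 0) (ej 0) +
      (x 0 - x 2 * p 0) * conj (z 1 - z 2 * p 1) * KG k al lam p (ej 0) (ej 1) +
      (x 1 - x 2 * p 1) * conj (z 0 - z 2 * p 0) * KG k al lam p (ej 1) (ej 0) +
      (x 1 - x 2 * p 1) * conj (z 1 - z 2 * p 1) * KG k al lam p (ej 1) (ej 1) := by
  conv_lhs => rw [decomp hp2 x, decomp hp2 z]
  simp only [KG_add_left, KG_smul_left, KG_add_right, KG_smul_right, KG_self_left k al lam _ hp,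
    KG_self_right k al lam _ hp]
  ring

theorem DG_decomp (k : Fin 3 → ℝ) (al₀ al₁ : ℝ) (lam₀ lam₁ : Fin 3 → ℂ) {p : Fin 3 → ℂ}
    (hp2 : p 2 = 1) (hp : H k p p ≠ 0) (x₀ x₁ z₀ z₁ : Fin 3 → ℂ) :
    DG k al₀ al₁ lam₀ lam₁ p x₀ x₁ z₀ z₁ =
      ((x₀ 0 - x₀ 2 * p 0) * (x₁ 1 - x₁ 2 * p 1) - (x₀ 1 - x₀ 2 * p 1) * (x₁ 0 - x₁ 2 * p 0)) *
      conj ((z₀ 0 - z₀ 2 * p 0) * (z₁ 1 - z₁ 2 * p 1) -
        (z₀ 1 - z₀ 2 * p 1) * (z₁ 0 - z₁ 2 * p 0)) *
      DK k al₀ al₁ lam₀ lam₁ p := by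
  simp only [DK, DG]
  simp only [KG_decomp k al₀ lam₀ hp2 hp x₀, KG_decomp k al₀ lam₀ hp2 hp x₁,
    KG_decomp k al₁ lam₁ hp2 hp x₀, KG_decomp k al₁ lam₁ hp2 hp x₁]
  simp only [map_sub, map_mul]
  ring

/-! ### unitary matrices -/

/-- `A` preserves the hermitian form -/
def IsU (k : Fin 3 → ℝ) (A : Matrix (Fin 3) (Fin 3) ℂ) : Prop :=
  Aᴴ * Matrix.diagonal (fun j => (k j : ℂ)) * A = Matrix.diagonal (fun j => (k j : ℂ))

theorem H_eq (k : Fin 3 → ℝ) (x z : Fin 3 → ℂ) :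
    H k x z = star z ⬝ᵥ (Matrix.diagonal (fun j => (k j : ℂ)) *ᵥ x) := by
  simp only [H, dotProduct, Matrix.mulVec_diagonal, Pi.star_apply, RCLike.star_def]
  exact Finset.sum_congr rfl fun j _ => by ring

theorem H_unit {k : Fin 3 → ℝ} {A : Matrix (Fin 3) (Fin 3) ℂ} (hA : IsU k A) (x z : Fin 3 → ℂ) :
    H k (A *ᵥ x) (A *ᵥ z) = H k x z := by
  rw [H_eq, H_eq, Matrix.star_mulVec, ← Matrix.dotProduct_mulVec, Matrix.mulVec_mulVec,
    Matrix.mulVec_mulVec, hA]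

theorem det_unit {k : Fin 3 → ℝ} (hk : ∀ j, k j ≠ 0) {A : Matrix (Fin 3) (Fin 3) ℂ}
    (hA : IsU k A) : conj A.det * A.det = 1 := by
  have h := congrArg Matrix.det hA
  rw [Matrix.det_mul, Matrix.det_mul, Matrix.det_conjTranspose] at h
  have hd : (Matrix.diagonal (fun j => (k j : ℂ))).det ≠ 0 := by
    rw [Matrix.det_diagonal]
    exact Finset.prod_ne_zero_iff.mpr fun j _ => by exact_mod_cast hk j
  have h2 : (conj A.det * A.det) * (Matrix.diagonal (fun j => (k j : ℂ))).det =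
      1 * (Matrix.diagonal (fun j => (k j : ℂ))).det := by
    rw [one_mul]
    calc (conj A.det * A.det) * (Matrix.diagonal (fun j => (k j : ℂ))).det
        = star A.det * (Matrix.diagonal (fun j => (k j : ℂ))).det * A.det := by
          rw [RCLike.star_def]; ring
      _ = _ := h
  exact mul_right_cancel₀ hd h2

theorem norm_det_unit {k : Fin 3 → ℝ} (hk : ∀ j, k j ≠ 0) {A : Matrix (Fin 3) (Fin 3) ℂ}
    (hA : IsU k A) : ‖A.det‖ = 1 := by
  have h := det_unit hk hA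
  have h1 : ‖A.det‖ ^ 2 = 1 := by
    have := congrArg norm h
    rw [norm_mul, RCLike.norm_conj, norm_one] at this
    nlinarith [this]
  have h2 : 0 ≤ ‖A.det‖ := norm_nonneg _
  nlinarith [sq_nonneg (‖A.det‖ - 1)]

theorem prj_unit {k : Fin 3 → ℝ} {A : Matrix (Fin 3) (Fin 3) ℂ} (hA : IsU k A)
    (p x : Fin 3 → ℂ) : prj k (A *ᵥ p) (A *ᵥ x) = A *ᵥ prj k p x := by
  simp only [prj, H_unit hA, Matrix.mulVec_sub, Matrix.mulVec_smul]

theorem KG_unit {k : Fin 3 → ℝ} {A : Matrix (Fin 3) (Fin 3) ℂ} (hA : IsU k A) (al : ℝ)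
    (lam p x z : Fin 3 → ℂ) (c : ℂ) (hc : c ≠ 0) :
    KG k al (A *ᵥ lam) (c⁻¹ • (A *ᵥ p)) (A *ᵥ x) (A *ᵥ z) =
      (c * conj c) * KG k al lam p x z := by
  have hc' : conj c ≠ 0 := by simpa using hc
  have hc1 : c⁻¹ ≠ 0 := inv_ne_zero hc
  have h1 : H k (c⁻¹ • (A *ᵥ p)) (c⁻¹ • (A *ᵥ p)) = H k p p / (c * conj c) := by
    rw [H_smul_left, H_smul_right, H_unit hA, map_inv₀]
    field_simp
  have h2 : H k (A *ᵥ lam) (c⁻¹ • (A *ᵥ p)) = H k lam p / conj c := by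
    rw [H_smul_right, H_unit hA, map_inv₀]
    field_simp
  simp only [KG, prj_scale k c⁻¹ hc1, prj_unit hA, H_unit hA, h1, h2, map_div₀,
    Complex.conj_conj]
  by_cases hp : H k p p = 0
  · simp [hp]
  have e1 : (1 : ℂ) / (-(H k p p / (c * conj c))) = (c * conj c) * (1 / (-H k p p)) := by
    field_simp
  have e2 : 2 * (H k lam p / conj c * (conj (H k lam p) / c)) / (-(H k p p / (c * conj c))) =
      2 * (H k lam p * conj (H k lam p)) / (-H k p p) := by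
    field_simp
  rw [e1, e2]
  ring

/-- **W2**: the antisymmetrised kernel is multiplied by `|(A p)₂|⁶`. -/
theorem ker_det {k : Fin 3 → ℝ} (hk : ∀ j, k j ≠ 0) {A : Matrix (Fin 3) (Fin 3) ℂ} (hA : IsU k A)
    (al₀ al₁ : ℝ) (lam₀ lam₁ : Fin 3 → ℂ) {p : Fin 3 → ℂ} (hp2 : p 2 = 1) (hp : H k p p ≠ 0)
    (hc : (A *ᵥ p) 2 ≠ 0) :
    DK k al₀ al₁ (A *ᵥ lam₀) (A *ᵥ lam₁) (((A *ᵥ p) 2)⁻¹ • (A *ᵥ p)) =
      ((‖(A *ᵥ p) 2‖ ^ 6 : ℝ) : ℂ) * DK k al₀ al₁ lam₀ lam₁ p := by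
  set c : ℂ := (A *ᵥ p) 2 with hcdef
  set p' : Fin 3 → ℂ := c⁻¹ • (A *ᵥ p) with hp'
  have hc' : conj c ≠ 0 := by simpa using hc
  have hp'2 : p' 2 = 1 := by simp [hp', ← hcdef, hc]
  have hp'n : H k p' p' ≠ 0 := by
    rw [hp', H_smul_left, H_smul_right, H_unit hA, map_inv₀]
    exact mul_ne_zero (inv_ne_zero hc) (mul_ne_zero (inv_ne_zero hc') hp)
  -- the two evaluations of the form on the images of `e₀`, `e₁`
  have e1 : DG k al₀ al₁ (A *ᵥ lam₀) (A *ᵥ lam₁) p' (A *ᵥ ej 0) (A *ᵥ ej 1) (A *ᵥ ej 0)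
      (A *ᵥ ej 1) = (c * conj c) ^ 2 * DK k al₀ al₁ lam₀ lam₁ p := by
    simp only [DK, DG, hp', KG_unit hA _ _ _ _ _ c hc]
    ring
  have e2 := DG_decomp k al₀ al₁ (A *ᵥ lam₀) (A *ᵥ lam₁) hp'2 hp'n (A *ᵥ ej 0) (A *ᵥ ej 1)
    (A *ᵥ ej 0) (A *ᵥ ej 1)
  have hcol : ∀ (j : Fin 2) (i : Fin 3), (A *ᵥ ej j) i = A i j.castSucc := by
    intro j i
    simp [ej, Matrix.mulVec_single]
  have hdet : ((A *ᵥ ej 0) 0 - (A *ᵥ ej 0) 2 * p' 0) * ((A *ᵥ ej 1) 1 - (A *ᵥ ej 1) 2 * p' 1) -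
      ((A *ᵥ ej 0) 1 - (A *ᵥ ej 0) 2 * p' 1) * ((A *ᵥ ej 1) 0 - (A *ᵥ ej 1) 2 * p' 0) =
      c⁻¹ * A.det := by
    have hv : ∀ i, (A *ᵥ p) i = A i 0 * p 0 + A i 1 * p 1 + A i 2 := by
      intro i
      simp only [Matrix.mulVec, dotProduct, Fin.sum_univ_three, hp2, mul_one]
    have hpi : ∀ i, p' i = c⁻¹ * (A i 0 * p 0 + A i 1 * p 1 + A i 2) := by
      intro i
      rw [hp', Pi.smul_apply, hv, smul_eq_mul]
    have hc2 : c = A 2 0 * p 0 + A 2 1 * p 1 + A 2 2 := by rw [hcdef, hv]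
    simp only [hcol, hpi, Matrix.det_fin_three]
    have h00 : (0 : Fin 2).castSucc = (0 : Fin 3) := rfl
    have h11 : (1 : Fin 2).castSucc = (1 : Fin 3) := rfl
    rw [h00, h11]
    field_simp
    rw [hc2]
    ring
  rw [hdet, e1] at e2
  have hdd := det_unit hk hA
  have hcc : c * conj c = ((‖c‖ ^ 2 : ℝ) : ℂ) := by
    rw [Complex.mul_conj, Complex.normSq_eq_norm_sq]
  have e3 : (c * conj c) ^ 3 * DK k al₀ al₁ lam₀ lam₁ p =
      DK k al₀ al₁ (A *ᵥ lam₀) (A *ᵥ lam₁) p' := by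
    have : (c * conj c) * ((c * conj c) ^ 2 * DK k al₀ al₁ lam₀ lam₁ p) =
        (c * conj c) * (c⁻¹ * A.det * conj (c⁻¹ * A.det) *
          DK k al₀ al₁ (A *ᵥ lam₀) (A *ᵥ lam₁) p') := by rw [e2]
    rw [map_mul, map_inv₀] at this
    have h4 : (c * conj c) * (c⁻¹ * A.det * ((conj c)⁻¹ * conj A.det) *
          DK k al₀ al₁ (A *ᵥ lam₀) (A *ᵥ lam₁) p') =
        (conj A.det * A.det) * DK k al₀ al₁ (A *ᵥ lam₀) (A *ᵥ lam₁) p' := by
      field_simp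
    rw [h4, hdd, one_mul] at this
    rw [← this]; ring
  rw [← e3, hcc]
  push_cast
  ring

end

end Pool.Agent.CMH.W2
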