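import Mathlib
import Pool.Agent.Lib.CMH.PoiGauss

/-!
TANK CMH, row WIG, part (W3): the transform of a product of two Gaussians with two majorants of the
same quadratic form.  helper86.
-/

set_option autoImplicit false

open MeasureTheory ComplexConjugate
open scoped MatrixOrder

namespace Pool.Agent.CMH.W3

open Pool.CMH.Poi

noncomputable section

variable {ι : Type*} [Fintype ι] [DecidableEq ι]

/-- real matrices as complex matrices -/
abbrev cm (M : Matrix ι ι ℝ) : Matrix ι ι ℂ := M.map (fun r : ℝ => (r : ℂ))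

/-- bilinear form of a real matrix on complex vectors -/
def bil (M : Matrix ι ι ℝ) (z w : ι → ℂ) : ℂ := ∑ i, ∑ k, (M i k : ℂ) * z i * w k

omit [DecidableEq ι] in
lemma bil_eq (M : Matrix ι ι ℝ) (z w : ι → ℂ) : bil M z w = z ⬝ᵥ (cm M).mulVec w := by
  unfold bil dotProduct Matrix.mulVec dotProduct
  refine Finset.sum_congr rfl fun i _ => ?_
  rw [Finset.mul_sum]
  refine Finset.sum_congr rfl fun k _ => ?_
  change (M i k : ℂ) * z i * w k = z i * ((M i k : ℂ) * w k)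
  ring

omit [DecidableEq ι] in
lemma bil_add_left (M : Matrix ι ι ℝ) (z z' w : ι → ℂ) :
    bil M (z + z') w = bil M z w + bil M z' w := by
  rw [bil_eq, bil_eq, bil_eq, add_dotProduct]

omit [DecidableEq ι] in
lemma bil_add_right (M : Matrix ι ι ℝ) (z w w' : ι → ℂ) :
    bil M z (w + w') = bil M z w + bil M z w' := by
  rw [bil_eq, bil_eq, bil_eq, Matrix.mulVec_add, dotProduct_add]

omit [DecidableEq ι] in
lemma bil_smul_left (M : Matrix ι ι ℝ) (c : ℂ) (z w : ι → ℂ) :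
    bil M (c • z) w = c * bil M z w := by
  rw [bil_eq, bil_eq, smul_dotProduct, smul_eq_mul]

omit [DecidableEq ι] in
lemma bil_smul_right (M : Matrix ι ι ℝ) (c : ℂ) (z w : ι → ℂ) :
    bil M z (c • w) = c * bil M z w := by
  rw [bil_eq, bil_eq, Matrix.mulVec_smul, dotProduct_smul, smul_eq_mul]

omit [DecidableEq ι] in
lemma bil_add_mat (M N : Matrix ι ι ℝ) (z w : ι → ℂ) :
    bil (M + N) z w = bil M z w + bil N z w := by
  unfold bil
  rw [← Finset.sum_add_distrib]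
  refine Finset.sum_congr rfl fun i _ => ?_
  rw [← Finset.sum_add_distrib]
  refine Finset.sum_congr rfl fun k _ => ?_
  rw [Matrix.add_apply]
  push_cast
  ring

omit [DecidableEq ι] in
lemma bil_smul_mat (c : ℝ) (M : Matrix ι ι ℝ) (z w : ι → ℂ) :
    bil (c • M) z w = c * bil M z w := by
  unfold bil
  rw [Finset.mul_sum]
  refine Finset.sum_congr rfl fun i _ => ?_
  rw [Finset.mul_sum]
  refine Finset.sum_congr rfl fun k _ => ?_
  rw [Matrix.smul_apply, smul_eq_mul]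
  push_cast
  ring

omit [DecidableEq ι] in
lemma bil_symm (M : Matrix ι ι ℝ) (z w : ι → ℂ) : bil M z w = bil M.transpose w z := by
  unfold bil
  rw [Finset.sum_comm]
  refine Finset.sum_congr rfl fun i _ => Finset.sum_congr rfl fun k _ => ?_
  rw [Matrix.transpose_apply]
  ring

omit [DecidableEq ι] in
lemma mulVec_dot (A : Matrix ι ι ℂ) (v w : ι → ℂ) :
    (A.mulVec v) ⬝ᵥ w = v ⬝ᵥ (A.transpose.mulVec w) := by
  rw [Matrix.dotProduct_mulVec, Matrix.vecMul_transpose]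

omit [DecidableEq ι] in
/-- moving matrices. -/
lemma bil_mul (A M B : Matrix ι ι ℝ) (z w : ι → ℂ) :
    bil M ((cm A).mulVec z) ((cm B).mulVec w) = bil (A.transpose * M * B) z w := by
  rw [bil_eq, bil_eq, mulVec_dot, Matrix.mulVec_mulVec, Matrix.mulVec_mulVec]
  congr 2
  have h1 : cm (A.transpose * M * B) = cm A.transpose * cm M * cm B := by
    change Matrix.map (A.transpose * M * B) Complex.ofRealHom =
      Matrix.map A.transpose Complex.ofRealHom * Matrix.map M Complex.ofRealHom *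
        Matrix.map B Complex.ofRealHom
    rw [Matrix.map_mul, Matrix.map_mul]
  rw [h1]
  have h2 : (cm A).transpose = cm A.transpose := by
    unfold cm
    rw [Matrix.transpose_map]
  rw [h2, Matrix.mul_assoc]

/-- **Gaussian integral for a positive definite form with a complex linear term.** -/
theorem integral_quad (M : Matrix ι ι ℝ) (hM : M.PosDef) (z : ι → ℂ) :
    ∫ x : ι → ℝ, Complex.exp (-Real.pi * bil M (fun i => (x i : ℂ)) (fun i => (x i : ℂ)) +
      2 * Real.pi * Complex.I * ∑ i, z i * (x i : ℂ)) =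
      ((1 / √(M.det) : ℝ) : ℂ) * Complex.exp (-Real.pi * bil M⁻¹ z z) := by
  obtain ⟨B, hB⟩ := CStarAlgebra.nonneg_iff_eq_star_mul_self.mp hM.posSemidef.nonneg
  rw [Matrix.star_eq_conjTranspose, Matrix.conjTranspose_eq_transpose_of_trivial] at hB
  have hdetM := hM.det_pos
  have hdet : M.det = B.det ^ 2 := by
    rw [hB, Matrix.det_mul, Matrix.det_transpose]; ring
  have hB0 : B.det ≠ 0 := by
    intro h
    rw [hdet, h] at hdetM
    norm_num at hdetM
  have hu : IsUnit B.det := isUnit_iff_ne_zero.2 hB0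
  have h1 := integral_gau B hB0 z
  have e1 : ∀ x : ι → ℝ, gau B z x = Complex.exp (-Real.pi * bil M (fun i => (x i : ℂ))
      (fun i => (x i : ℂ)) + 2 * Real.pi * Complex.I * ∑ i, z i * (x i : ℂ)) := by
    intro x
    unfold gau
    congr 3
    have e2 : bil M (fun i => (x i : ℂ)) (fun i => (x i : ℂ)) =
        bil (1 : Matrix ι ι ℝ) ((cm B).mulVec fun i => (x i : ℂ))
          ((cm B).mulVec fun i => (x i : ℂ)) := by
      rw [bil_mul, Matrix.mul_one, ← hB]
    rw [e2, bil_eq]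
    have e3 : cm (1 : Matrix ι ι ℝ) = 1 := by
      unfold cm
      exact Matrix.map_one _ (by simp) (by simp)
    rw [e3, Matrix.one_mulVec]
    unfold Pool.CMH.Poi.sq dotProduct
    push_cast
    refine Finset.sum_congr rfl fun i _ => ?_
    have e4 : ((B.mulVec x i : ℝ) : ℂ) = (cm B).mulVec (fun i => (x i : ℂ)) i := by
      unfold Matrix.mulVec dotProduct
      push_cast
      rfl
    rw [e4]
    ring
  simp only [e1] at h1
  rw [h1]
  congr 1
  · congr 1
    rw [hdet, Real.sqrt_sq_eq_abs, one_div]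
  · congr 1
    have e5 : bil M⁻¹ z z = bil (1 : Matrix ι ι ℝ) ((cm B⁻¹.transpose).mulVec z)
        ((cm B⁻¹.transpose).mulVec z) := by
      rw [bil_mul, Matrix.mul_one, Matrix.transpose_transpose]
      congr 1
      rw [hB, Matrix.mul_inv_rev, Matrix.transpose_nonsing_inv]
    rw [e5, bil_eq]
    have e3 : cm (1 : Matrix ι ι ℝ) = 1 := by
      unfold cm
      exact Matrix.map_one _ (by simp) (by simp)
    rw [e3, Matrix.one_mulVec]
    unfold dotProduct
    congr 1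
    refine Finset.sum_congr rfl fun i _ => ?_
    rw [pow_two]

/-! ## The algebra of two majorants -/

section Alg

variable {Q R R' : Matrix ι ι ℝ}

lemma alg1 (h1 : R * Q⁻¹ * R = Q) (h2 : R' * Q⁻¹ * R' = Q) :
    (R + R') * Q⁻¹ * (R - R') = -((R - R') * Q⁻¹ * (R + R')) := by
  have e1 : (R + R') * Q⁻¹ * (R - R') = R * Q⁻¹ * R - R * Q⁻¹ * R' + R' * Q⁻¹ * R -
      R' * Q⁻¹ * R' := by noncomm_ring
  have e2 : (R - R') * Q⁻¹ * (R + R') = R * Q⁻¹ * R + R * Q⁻¹ * R' - R' * Q⁻¹ * R -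
      R' * Q⁻¹ * R' := by noncomm_ring
  rw [e1, e2, h1, h2]
  abel

lemma alg3 (h1 : R * Q⁻¹ * R = Q) (h2 : R' * Q⁻¹ * R' = Q) :
    (R - R') * Q⁻¹ * (R - R') = (4 : ℝ) • Q - (R + R') * Q⁻¹ * (R + R') := by
  have e1 : (R - R') * Q⁻¹ * (R - R') = R * Q⁻¹ * R - R * Q⁻¹ * R' - R' * Q⁻¹ * R +
      R' * Q⁻¹ * R' := by noncomm_ring
  have e2 : (R + R') * Q⁻¹ * (R + R') = R * Q⁻¹ * R + R * Q⁻¹ * R' + R' * Q⁻¹ * R +
      R' * Q⁻¹ * R' := by noncomm_ring
  rw [e1, e2, h1, h2]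
  module

lemma alg2 (hQ : IsUnit Q.det) (hP : IsUnit (R + R').det) (h1 : R * Q⁻¹ * R = Q)
    (h2 : R' * Q⁻¹ * R' = Q) :
    (R - R') * (R + R')⁻¹ * Q = -(Q * (R + R')⁻¹ * (R - R')) := by
  have h3 := congrArg (fun X => Q * (R + R')⁻¹ * X * ((R + R')⁻¹ * Q)) (alg1 h1 h2)
  have e1 : Q * (R + R')⁻¹ * ((R + R') * Q⁻¹ * (R - R')) * ((R + R')⁻¹ * Q) =
      (R - R') * (R + R')⁻¹ * Q := by
    have : Q * (R + R')⁻¹ * ((R + R') * Q⁻¹ * (R - R')) * ((R + R')⁻¹ * Q) =
        Q * ((R + R')⁻¹ * (R + R')) * Q⁻¹ * (R - R') * ((R + R')⁻¹ * Q) := by noncomm_ring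
    rw [this, Matrix.nonsing_inv_mul _ hP, Matrix.mul_one, Matrix.mul_nonsing_inv _ hQ,
      Matrix.one_mul, Matrix.mul_assoc]
  have e2 : Q * (R + R')⁻¹ * (-((R - R') * Q⁻¹ * (R + R'))) * ((R + R')⁻¹ * Q) =
      -(Q * (R + R')⁻¹ * (R - R')) := by
    have : Q * (R + R')⁻¹ * (-((R - R') * Q⁻¹ * (R + R'))) * ((R + R')⁻¹ * Q) =
        -(Q * (R + R')⁻¹ * (R - R') * Q⁻¹ * ((R + R') * (R + R')⁻¹) * Q) := by noncomm_ring
    rw [this, Matrix.mul_nonsing_inv _ hP, Matrix.mul_one, Matrix.mul_assoc _ Q⁻¹ Q,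
      Matrix.nonsing_inv_mul _ hQ, Matrix.mul_one]
  beta_reduce at h3
  rw [e1, e2] at h3
  exact h3

lemma alg4 (hQ : IsUnit Q.det) (hP : IsUnit (R + R').det) (h1 : R * Q⁻¹ * R = Q)
    (h2 : R' * Q⁻¹ * R' = Q) :
    (R - R') * (R + R')⁻¹ * (R - R') = (R + R') - (4 : ℝ) • (Q * (R + R')⁻¹ * Q) := by
  have e1 : (R - R') * (R + R')⁻¹ * (R - R') =
      ((R - R') * (R + R')⁻¹ * Q) * Q⁻¹ * (R - R') := by
    rw [Matrix.mul_assoc _ Q Q⁻¹, Matrix.mul_nonsing_inv _ hQ, Matrix.mul_one]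
  have e2 : -(Q * (R + R')⁻¹ * (R - R')) * Q⁻¹ * (R - R') =
      -(Q * (R + R')⁻¹ * ((R - R') * Q⁻¹ * (R - R'))) := by noncomm_ring
  rw [e1, alg2 hQ hP h1 h2, e2, alg3 h1 h2]
  have e3 : Q * (R + R')⁻¹ * ((4 : ℝ) • Q - (R + R') * Q⁻¹ * (R + R')) =
      (4 : ℝ) • (Q * (R + R')⁻¹ * Q) - Q * ((R + R')⁻¹ * (R + R')) * Q⁻¹ * (R + R') := by
    rw [Matrix.mul_sub, Matrix.mul_smul]
    noncomm_ring
  rw [e3, Matrix.nonsing_inv_mul _ hP, Matrix.mul_one, Matrix.mul_nonsing_inv _ hQ,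
    Matrix.one_mul]
  abel

end Alg

/-- The matrix of the transform. -/
def KM (Q R R' : Matrix ι ι ℝ) : Matrix ι ι ℝ :=
  Q * (R + R')⁻¹ * Q + (-(1 / 2) : ℝ) • (Q * (R + R')⁻¹ * (R - R'))

omit [Fintype ι] [DecidableEq ι] in
lemma symm_of_posDef {R : Matrix ι ι ℝ} (hR : R.PosDef) : R.transpose = R := by
  have := hR.isHermitian
  rwa [Matrix.IsHermitian, Matrix.conjTranspose_eq_transpose_of_trivial] at this

/-- the integrand of the transform of one column -/
def colF (R R' : Matrix ι ι ℝ) (c : ℝ) (s r m : ι → ℝ) : ℂ :=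
  Complex.exp (-Real.pi * c *
        (bil R (fun i => (m i : ℂ) + s i / 2) (fun i => (m i : ℂ) + s i / 2) +
          bil R' (fun i => (m i : ℂ) - s i / 2) (fun i => (m i : ℂ) - s i / 2))) *
        Complex.exp (-2 * Real.pi * Complex.I * ∑ i, (r i : ℂ) * (m i : ℂ))

/-- the vector of the linear term -/
def zz (R R' : Matrix ι ι ℝ) (c : ℝ) (s r : ι → ℝ) : ι → ℂ :=
  (-1 : ℂ) • (fun i => (r i : ℂ)) + (Complex.I * c / 2) • (cm (R - R')).mulVec (fun i => (s i : ℂ))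

/-- **The transform, general form.** -/
theorem col_gen (R R' : Matrix ι ι ℝ) (hR : R.PosDef) (hR' : R'.PosDef)
    (c : ℝ) (hc : 0 < c) (s r : ι → ℝ) :
    ∫ m : ι → ℝ, colF R R' c s r m =
      ((1 / √((c • (R + R')).det) : ℝ) : ℂ) * Complex.exp (-Real.pi * c / 4 *
        bil (R + R') (fun i => (s i : ℂ)) (fun i => (s i : ℂ)) -
        Real.pi * bil (c • (R + R'))⁻¹ (zz R R' c s r) (zz R R' c s r)) := by
  set P : Matrix ι ι ℝ := R + R' with hP
  set Δ : Matrix ι ι ℝ := R - R' with hΔ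
  have hPpos : P.PosDef := hR.add hR'
  have hcP : (c • P).PosDef := hPpos.smul hc
  have hRt : R.transpose = R := symm_of_posDef hR
  have hR't : R'.transpose = R' := symm_of_posDef hR'
  have hΔt : Δ.transpose = Δ := by rw [hΔ, Matrix.transpose_sub, hRt, hR't]
  set sc : ι → ℂ := fun i => (s i : ℂ) with hsc
  set rc : ι → ℂ := fun i => (r i : ℂ) with hrc
  set z : ι → ℂ := zz R R' c s r with hz
  have hz' : z = (-1 : ℂ) • rc + (Complex.I * c / 2) • (cm Δ).mulVec sc := rfl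
  have e1 : ∀ m : ι → ℝ, colF R R' c s r m =
      Complex.exp (-Real.pi * c / 4 * bil P sc sc) *
      Complex.exp (-Real.pi * bil (c • P) (fun i => (m i : ℂ)) (fun i => (m i : ℂ)) +
        2 * Real.pi * Complex.I * ∑ i, z i * (m i : ℂ)) := by
    intro m
    set mc : ι → ℂ := fun i => (m i : ℂ) with hmc
    have f1 : (fun i => (m i : ℂ) + s i / 2) = mc + (1 / 2 : ℂ) • sc := by
      funext i
      simp only [hmc, hsc, Pi.add_apply, Pi.smul_apply, smul_eq_mul]
      ring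
    have f2 : (fun i => (m i : ℂ) - s i / 2) = mc + (-(1 / 2) : ℂ) • sc := by
      funext i
      simp only [hmc, hsc, Pi.add_apply, Pi.smul_apply, smul_eq_mul]
      ring
    have g1 : bil R sc mc = bil R mc sc := by rw [bil_symm, hRt]
    have g2 : bil R' sc mc = bil R' mc sc := by rw [bil_symm, hR't]
    have g3 : bil P mc mc = bil R mc mc + bil R' mc mc := by rw [hP, bil_add_mat]
    have g4 : bil P sc sc = bil R sc sc + bil R' sc sc := by rw [hP, bil_add_mat]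
    have g5 : bil Δ sc mc = bil R mc sc - bil R' mc sc := by
      have : Δ = R + (-1 : ℝ) • R' := by rw [hΔ]; module
      rw [this, bil_add_mat, bil_smul_mat, g1, g2]
      push_cast; ring
    have g6 : ∑ i, z i * (m i : ℂ) = -(∑ i, (r i : ℂ) * (m i : ℂ)) +
        Complex.I * c / 2 * bil Δ sc mc := by
      have : ∑ i, z i * (m i : ℂ) = z ⬝ᵥ mc := rfl
      rw [this, hz', add_dotProduct, smul_dotProduct, smul_dotProduct, mulVec_dot,
        bil_eq, smul_eq_mul, smul_eq_mul]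
      have t2 : (cm Δ).transpose = cm Δ := by
        unfold cm
        rw [← Matrix.transpose_map, hΔt]
      have t3 : rc ⬝ᵥ mc = ∑ i, (r i : ℂ) * (m i : ℂ) := rfl
      rw [t2, t3]
      ring
    unfold colF
    rw [f1, f2, ← Complex.exp_add, ← Complex.exp_add]
    congr 1
    simp only [bil_add_left, bil_add_right, bil_smul_left, bil_smul_right, bil_smul_mat, g6]
    rw [g1, g2, g3, g4, g5]
    linear_combination (-Real.pi * c * (bil R mc sc - bil R' mc sc)) * Complex.I_sq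
  refine (integral_congr_ae (.of_forall e1)).trans ?_
  rw [integral_const_mul, integral_quad (c • P) hcP z, mul_left_comm, ← Complex.exp_add]
  congr 2
  ring

lemma inv_smul_mat (P : Matrix ι ι ℝ) (hPu : IsUnit P.det) (c : ℝ) (hc : c ≠ 0) :
    (c • P)⁻¹ = c⁻¹ • P⁻¹ := by
  refine Matrix.inv_eq_left_inv ?_
  rw [Matrix.smul_mul, Matrix.mul_smul, smul_smul, inv_mul_cancel₀ hc, one_smul,
    Matrix.nonsing_inv_mul _ hPu]

/-- **The transform for two majorants of the same form.** -/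
theorem col_transform (Q R R' : Matrix ι ι ℝ) (hQt : Q.transpose = Q) (hQ : IsUnit Q.det)
    (hR : R.PosDef) (hR' : R'.PosDef) (h1 : R * Q⁻¹ * R = Q) (h2 : R' * Q⁻¹ * R' = Q)
    (c : ℝ) (hc : 0 < c) (s t : ι → ℝ) (r : ι → ℝ)
    (hr : ∀ i, (r i : ℂ) = c * (cm Q).mulVec (fun i => (t i : ℂ)) i) :
    ∫ m : ι → ℝ, colF R R' c s r m =
      ((1 / √((c • (R + R')).det) : ℝ) : ℂ) * Complex.exp (-Real.pi * c *
        bil (KM Q R R') (fun i => (s i : ℂ) + Complex.I * t i)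
          (fun i => conj ((s i : ℂ) + Complex.I * t i))) := by
  rw [col_gen R R' hR hR' c hc s r]
  congr 2
  set P : Matrix ι ι ℝ := R + R' with hP
  set Δ : Matrix ι ι ℝ := R - R' with hΔ
  have hPpos : P.PosDef := hR.add hR'
  have hPu : IsUnit P.det := isUnit_iff_ne_zero.2 hPpos.det_pos.ne'
  have hRt : R.transpose = R := symm_of_posDef hR
  have hR't : R'.transpose = R' := symm_of_posDef hR'
  have hPt : P.transpose = P := by rw [hP, Matrix.transpose_add, hRt, hR't]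
  have hΔt : Δ.transpose = Δ := by rw [hΔ, Matrix.transpose_sub, hRt, hR't]
  have hPit : P⁻¹.transpose = P⁻¹ := by rw [Matrix.transpose_nonsing_inv, hPt]
  set sc : ι → ℂ := fun i => (s i : ℂ) with hsc
  set rc : ι → ℂ := fun i => (t i : ℂ) with hrc
  have hz : zz R R' c s r = (-(c : ℂ)) • (cm Q).mulVec rc +
      (Complex.I * c / 2) • (cm Δ).mulVec sc := by
    unfold zz
    congr 1
    funext i
    rw [Pi.smul_apply, Pi.smul_apply, smul_eq_mul, smul_eq_mul, hr i]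
    ring
  -- the dual exponent
  have hinv := inv_smul_mat P hPu c hc.ne'
  set S : Matrix ι ι ℝ := Q * P⁻¹ * Q with hS
  set T : Matrix ι ι ℝ := Q * P⁻¹ * Δ with hT
  have hSt : S.transpose = S := by
    rw [hS, Matrix.transpose_mul, Matrix.transpose_mul, hQt, hPit, Matrix.mul_assoc]
  have hTt : T.transpose = (-1 : ℝ) • T := by
    have := alg2 hQ hPu h1 h2
    rw [hT, Matrix.transpose_mul, Matrix.transpose_mul, hQt, hPit, hΔt, ← Matrix.mul_assoc, this]
    module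
  have k1 : bil P⁻¹ ((cm Q).mulVec rc) ((cm Q).mulVec rc) = bil S rc rc := by
    rw [bil_mul, hQt]
  have k2 : bil P⁻¹ ((cm Q).mulVec rc) ((cm Δ).mulVec sc) = bil T rc sc := by
    rw [bil_mul, hQt]
  have k3 : bil P⁻¹ ((cm Δ).mulVec sc) ((cm Q).mulVec rc) = bil T rc sc := by
    rw [bil_symm, hPit, k2]
  have k4 : bil P⁻¹ ((cm Δ).mulVec sc) ((cm Δ).mulVec sc) = bil P sc sc - 4 * bil S sc sc := by
    rw [bil_mul, hΔt, alg4 hQ hPu h1 h2]
    have : R + R' - (4 : ℝ) • (Q * (R + R')⁻¹ * Q) = P + (-4 : ℝ) • S := by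
      rw [hS, hP]; module
    rw [this, bil_add_mat, bil_smul_mat]
    push_cast; ring
  have k5 : bil S sc rc = bil S rc sc := by rw [bil_symm, hSt]
  have k6 : ∀ x y : ι → ℂ, bil T x y = -bil T y x := fun x y => by
    rw [bil_symm, hTt, bil_smul_mat]
    push_cast; ring
  have k7 : bil T sc sc = 0 := by
    have := k6 sc sc
    linear_combination this / 2
  have k8 : bil T rc rc = 0 := by
    have := k6 rc rc
    linear_combination this / 2
  have f3 : (fun i => (s i : ℂ) + Complex.I * t i) = sc + Complex.I • rc := by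
    funext i
    simp only [hsc, hrc, Pi.add_apply, Pi.smul_apply, smul_eq_mul]
  have f4 : (fun i => conj ((s i : ℂ) + Complex.I * t i)) = sc + (-Complex.I) • rc := by
    funext i
    simp only [hsc, hrc, Pi.add_apply, Pi.smul_apply, smul_eq_mul, map_add, map_mul,
      Complex.conj_ofReal, Complex.conj_I]
  have hc0 : (c : ℂ) ≠ 0 := by exact_mod_cast hc.ne'
  have hK : KM Q R R' = S + (-(1 / 2) : ℝ) • T := rfl
  rw [f3, f4, hinv, hK, hz]
  simp only [bil_add_left, bil_add_right, bil_smul_left, bil_smul_right, bil_smul_mat,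
    bil_add_mat, k1, k2, k3, k4, k5, k7, k8]
  rw [k6 sc rc]
  push_cast
  field_simp
  linear_combination (-4 * bil P sc sc + 16 * bil S sc sc - 16 * bil S rc rc) * Complex.I_sq

/-! ## Bounds -/

/-- a positive definite form is bounded below -/
lemma posDef_lower (M : Matrix ι ι ℝ) (hM : M.PosDef) :
    ∃ κ : ℝ, 0 < κ ∧ ∀ x : ι → ℝ, κ * ∑ i, x i ^ 2 ≤ ∑ i, ∑ j, M i j * x i * x j := by
  obtain ⟨B, hB⟩ := CStarAlgebra.nonneg_iff_eq_star_mul_self.mp hM.posSemidef.nonneg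
  rw [Matrix.star_eq_conjTranspose, Matrix.conjTranspose_eq_transpose_of_trivial] at hB
  have hdetM := hM.det_pos
  have hdet : M.det = B.det ^ 2 := by
    rw [hB, Matrix.det_mul, Matrix.det_transpose]; ring
  have hB0 : B.det ≠ 0 := by
    intro h
    rw [hdet, h] at hdetM
    norm_num at hdetM
  obtain ⟨κ, hκ, h⟩ := exists_lower B hB0
  refine ⟨κ, hκ, fun x => ?_⟩
  have h1 := h x
  refine h1.trans (le_of_eq ?_)
  have e1 : Pool.CMH.Poi.sq (B.mulVec x) = (B.mulVec x) ⬝ᵥ (B.mulVec x) := by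
    unfold Pool.CMH.Poi.sq dotProduct
    exact Finset.sum_congr rfl fun i _ => by rw [pow_two]
  have e2 : (B.mulVec x) ⬝ᵥ (B.mulVec x) = x ⬝ᵥ M.mulVec x := by
    rw [hB, ← Matrix.mulVec_mulVec, Matrix.dotProduct_mulVec x, Matrix.vecMul_transpose]
  rw [e1, e2]
  unfold dotProduct Matrix.mulVec dotProduct
  refine Finset.sum_congr rfl fun i _ => ?_
  rw [Finset.mul_sum]
  exact Finset.sum_congr rfl fun j _ => by ring

omit [DecidableEq ι] in
lemma bil_real (M : Matrix ι ι ℝ) (x y : ι → ℝ) :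
    bil M (fun i => (x i : ℂ)) (fun i => (y i : ℂ)) = ((∑ i, ∑ j, M i j * x i * y j : ℝ) : ℂ) := by
  unfold bil
  push_cast
  rfl

/-- **The Gaussian bound of the transform.** -/
theorem col_bound (R R' : Matrix ι ι ℝ) (hR : R.PosDef) (hR' : R'.PosDef)
    (c : ℝ) (hc : 0 < c) : ∃ C κ : ℝ, 0 < C ∧ 0 < κ ∧ ∀ s r : ι → ℝ,
    ‖∫ m : ι → ℝ, colF R R' c s r m‖ ≤ C * Real.exp (-κ * (∑ i, s i ^ 2 + ∑ i, r i ^ 2)) := by
  have hPpos : (R + R').PosDef := hR.add hR'
  have hcP : (c • (R + R')).PosDef := hPpos.smul hc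
  have hPu : IsUnit (R + R').det := isUnit_iff_ne_zero.2 hPpos.det_pos.ne'
  obtain ⟨κ₁, hκ₁, l1⟩ := posDef_lower R hR
  obtain ⟨κ₂, hκ₂, l2⟩ := posDef_lower R' hR'
  obtain ⟨κ₃, hκ₃, l3⟩ := posDef_lower _ hcP.inv
  have hdet := hcP.det_pos
  refine ⟨1 / √((c • (R + R')).det), min (Real.pi * c * min κ₁ κ₂ / 2) (Real.pi * κ₃),
    by positivity, by positivity, fun s r => ?_⟩
  rw [col_gen R R' hR hR' c hc s r, norm_mul, Complex.norm_real, Real.norm_eq_abs,
    abs_of_nonneg (by positivity), Complex.norm_exp]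
  refine mul_le_mul_of_nonneg_left (Real.exp_le_exp.mpr ?_) (by positivity)
  set P : Matrix ι ι ℝ := R + R' with hP
  set Δ : Matrix ι ι ℝ := R - R' with hΔ
  have hRt : R.transpose = R := symm_of_posDef hR
  have hR't : R'.transpose = R' := symm_of_posDef hR'
  have hPt : P.transpose = P := by rw [hP, Matrix.transpose_add, hRt, hR't]
  have hPit : P⁻¹.transpose = P⁻¹ := by rw [Matrix.transpose_nonsing_inv, hPt]
  have hΔt : Δ.transpose = Δ := by rw [hΔ, Matrix.transpose_sub, hRt, hR't]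
  set w : ι → ℝ := fun i => c / 2 * Δ.mulVec s i with hw
  have hzz : zz R R' c s r = (-1 : ℂ) • (fun i => (r i : ℂ)) + Complex.I • (fun i => (w i : ℂ)) := by
    unfold zz
    congr 1
    funext i
    rw [Pi.smul_apply, Pi.smul_apply, smul_eq_mul, smul_eq_mul, hw]
    have : (cm (R - R')).mulVec (fun i => (s i : ℂ)) i = ((Δ.mulVec s i : ℝ) : ℂ) := by
      unfold Matrix.mulVec dotProduct
      push_cast
      rfl
    rw [this]
    push_cast
    ring
  -- real quadratic forms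
  set q : Matrix ι ι ℝ → (ι → ℝ) → (ι → ℝ) → ℝ := fun M x y => ∑ i, ∑ j, M i j * x i * y j with hq
  have hbr : ∀ (M : Matrix ι ι ℝ) (x y : ι → ℝ), bil M (fun i => (x i : ℂ)) (fun i => (y i : ℂ)) =
      ((q M x y : ℝ) : ℂ) := fun M x y => bil_real M x y
  have hre : (-Real.pi * c / 4 * bil P (fun i => (s i : ℂ)) (fun i => (s i : ℂ)) -
      Real.pi * bil (c • P)⁻¹ (zz R R' c s r) (zz R R' c s r) : ℂ).re =
      -(Real.pi * c / 4 * q P s s - Real.pi * q (c • P)⁻¹ w w) - Real.pi * q (c • P)⁻¹ r r := by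
    rw [hzz]
    simp only [bil_add_left, bil_add_right, bil_smul_left, bil_smul_right, hbr]
    refine (congrArg Complex.re (?_ : _ =
        ((-(Real.pi * c / 4 * q P s s - Real.pi * q (c • P)⁻¹ w w) -
          Real.pi * q (c • P)⁻¹ r r : ℝ) : ℂ) +
        ((Real.pi * (q (c • P)⁻¹ r w + q (c • P)⁻¹ w r) : ℝ) : ℂ) * Complex.I)).trans ?_
    · push_cast
      linear_combination (-(Real.pi : ℂ) * (q (c • P)⁻¹ w w : ℂ)) * Complex.I_sq
    · simp
  rw [hre]
  -- the lower bound for the form in `s`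
  have hq' : ∀ (M : Matrix ι ι ℝ) (x y : ι → ℝ), q M x y = x ⬝ᵥ M.mulVec y := by
    intro M x y
    rw [hq]
    unfold dotProduct Matrix.mulVec dotProduct
    refine Finset.sum_congr rfl fun i _ => ?_
    rw [Finset.mul_sum]
    exact Finset.sum_congr rfl fun j _ => by ring
  set b : ι → ℝ := Δ.mulVec s with hb
  set m₀ : ι → ℝ := (-(1 / 2) : ℝ) • P⁻¹.mulVec b with hm₀
  have hw' : w = (c / 2) • b := by
    funext i
    rw [hw, Pi.smul_apply, smul_eq_mul]
  have k1 : q (c • P)⁻¹ w w = c / 4 * (b ⬝ᵥ P⁻¹.mulVec b) := by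
    rw [hq', inv_smul_mat P hPu c hc.ne', hw', Matrix.smul_mulVec, Matrix.mulVec_smul,
      smul_dotProduct, dotProduct_smul, dotProduct_smul, smul_eq_mul, smul_eq_mul, smul_eq_mul]
    field_simp
    ring
  have hPP : ∀ x : ι → ℝ, P.mulVec (P⁻¹.mulVec x) = x := fun x => by
    rw [Matrix.mulVec_mulVec, Matrix.mul_nonsing_inv _ hPu, Matrix.one_mulVec]
  have k2 : q P m₀ m₀ = 1 / 4 * (b ⬝ᵥ P⁻¹.mulVec b) := by
    rw [hq', hm₀, Matrix.mulVec_smul, smul_dotProduct, dotProduct_smul, hPP, smul_eq_mul,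
      smul_eq_mul, dotProduct_comm]
    ring
  have k3 : m₀ ⬝ᵥ b = -(1 / 2) * (b ⬝ᵥ P⁻¹.mulVec b) := by
    rw [hm₀, smul_dotProduct, smul_eq_mul, dotProduct_comm]
  have k4 : ∀ M : Matrix ι ι ℝ, M.transpose = M → ∀ x y : ι → ℝ, q M x y = q M y x := by
    intro M hM x y
    rw [hq', hq', Matrix.dotProduct_mulVec, ← Matrix.mulVec_transpose, hM, dotProduct_comm]
  have k5 : ∀ (M : Matrix ι ι ℝ) (x y z : ι → ℝ) (d : ℝ), q M (x + d • y) z =
      q M x z + d * q M y z := by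
    intro M x y z d
    rw [hq', hq', hq', add_dotProduct, smul_dotProduct, smul_eq_mul]
  have k6 : ∀ (M : Matrix ι ι ℝ) (x y z : ι → ℝ) (d : ℝ), q M z (x + d • y) =
      q M z x + d * q M z y := by
    intro M x y z d
    rw [hq', hq', hq', Matrix.mulVec_add, Matrix.mulVec_smul, dotProduct_add, dotProduct_smul,
      smul_eq_mul]
  have k7 : ∀ (x y : ι → ℝ), q P x y = q R x y + q R' x y := by
    intro x y
    rw [hq', hq', hq', hP, Matrix.add_mulVec, dotProduct_add]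
  have k8 : q R m₀ s - q R' m₀ s = m₀ ⬝ᵥ b := by
    rw [hq', hq', hb, hΔ, Matrix.sub_mulVec, dotProduct_sub]
  have key : q R (m₀ + (1 / 2 : ℝ) • s) (m₀ + (1 / 2 : ℝ) • s) +
      q R' (m₀ + (-(1 / 2) : ℝ) • s) (m₀ + (-(1 / 2) : ℝ) • s) =
      1 / 4 * q P s s - 1 / 4 * (b ⬝ᵥ P⁻¹.mulVec b) := by
    simp only [k5, k6]
    rw [k4 R hRt s m₀, k4 R' hR't s m₀]
    have e1 := k7 m₀ m₀
    have e2 := k7 s s
    linear_combination -1 * e1 - 1 / 4 * e2 + k2 + k8 + k3
  have l1' := l1 (m₀ + (1 / 2 : ℝ) • s)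
  have l2' := l2 (m₀ + (-(1 / 2) : ℝ) • s)
  have l3' := l3 r
  set κ : ℝ := min κ₁ κ₂ with hκ
  have hκ0 : 0 < κ := by rw [hκ]; positivity
  have n1 : ∑ i, (m₀ + (1 / 2 : ℝ) • s) i ^ 2 + ∑ i, (m₀ + (-(1 / 2) : ℝ) • s) i ^ 2 ≥
      1 / 2 * ∑ i, s i ^ 2 := by
    rw [← Finset.sum_add_distrib, Finset.mul_sum]
    refine Finset.sum_le_sum fun i _ => ?_
    simp only [Pi.add_apply, Pi.smul_apply, smul_eq_mul]
    nlinarith [sq_nonneg (m₀ i)]
  have n2 : κ * ∑ i, (m₀ + (1 / 2 : ℝ) • s) i ^ 2 ≤ q R (m₀ + (1 / 2 : ℝ) • s)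
      (m₀ + (1 / 2 : ℝ) • s) := le_trans (mul_le_mul_of_nonneg_right (min_le_left _ _)
        (Finset.sum_nonneg fun i _ => by positivity)) l1'
  have n3 : κ * ∑ i, (m₀ + (-(1 / 2) : ℝ) • s) i ^ 2 ≤ q R' (m₀ + (-(1 / 2) : ℝ) • s)
      (m₀ + (-(1 / 2) : ℝ) • s) := le_trans (mul_le_mul_of_nonneg_right (min_le_right _ _)
        (Finset.sum_nonneg fun i _ => by positivity)) l2'
  have n4 : κ / 2 * ∑ i, s i ^ 2 ≤ 1 / 4 * q P s s - 1 / 4 * (b ⬝ᵥ P⁻¹.mulVec b) := by
    rw [← key]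
    have := mul_le_mul_of_nonneg_left n1 hκ0.le
    rw [mul_add] at this
    linarith
  have hs0 : 0 ≤ ∑ i, s i ^ 2 := Finset.sum_nonneg fun i _ => by positivity
  have hr0 : 0 ≤ ∑ i, r i ^ 2 := Finset.sum_nonneg fun i _ => by positivity
  have hpi := Real.pi_pos
  have n5 : Real.pi * c * κ / 2 * ∑ i, s i ^ 2 ≤
      Real.pi * c / 4 * q P s s - Real.pi * q (c • P)⁻¹ w w := by
    rw [k1]
    have := mul_le_mul_of_nonneg_left n4 (mul_pos hpi hc).le
    calc _ = Real.pi * c * (κ / 2 * ∑ i, s i ^ 2) := by ring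
      _ ≤ _ := this
      _ = _ := by ring
  have n6 : Real.pi * κ₃ * ∑ i, r i ^ 2 ≤ Real.pi * q (c • P)⁻¹ r r := by
    have := mul_le_mul_of_nonneg_left l3' hpi.le
    calc _ = Real.pi * (κ₃ * ∑ i, r i ^ 2) := by ring
      _ ≤ _ := this
  have n7 := mul_le_mul_of_nonneg_right (min_le_left (Real.pi * c * κ / 2) (Real.pi * κ₃)) hs0
  have n8 := mul_le_mul_of_nonneg_right (min_le_right (Real.pi * c * κ / 2) (Real.pi * κ₃)) hr0
  have e9 : -min (Real.pi * c * κ / 2) (Real.pi * κ₃) * (∑ i, s i ^ 2 + ∑ i, r i ^ 2) =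
      -(min (Real.pi * c * κ / 2) (Real.pi * κ₃) * ∑ i, s i ^ 2) -
        min (Real.pi * c * κ / 2) (Real.pi * κ₃) * ∑ i, r i ^ 2 := by ring
  rw [e9]
  linarith

end

end Pool.Agent.CMH.W3
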