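import Mathlib
import Pool.Agent.Lib.CMH.Defs
import Pool.Agent.Lib.CMH.Rows

/-!
# Row WIG: Wigner transforms. Definitions (helper16)

`σ`, `r` are `2 × 3` matrices (rows in `F³` or `R³`), `λ = σ + √(-D) τ`, `r i l = a i * h l * τ i l`.
-/

set_option autoImplicit false

open scoped ComplexConjugate Matrix
open Complex MeasureTheory

namespace Pool.Agent.CMH.Wig

noncomputable section

/-- `2 × 3` matrices as functions -/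
abbrev M23 (R : Type) := Fin 2 → Fin 3 → R

/-! ## One place -/

/-- the Gaussian at the places `v ≠ v₁`; `k = h_v`, `δ = √D_v` -/
def G (k : Fin 3 → ℝ) (δ : ℝ) (R : Matrix (Fin 2) (Fin 2) ℝ) (x : M23 ℝ) : ℂ :=
  exp (-(Real.pi : ℂ) * ((1 / δ : ℝ) : ℂ) * ((∑ i, ∑ j, R i j * ∑ l, k l * x i l * x j l : ℝ) : ℂ))

/-- the function at `v₁` -/
def G1 (k : Fin 3 → ℝ) (δ : ℝ) (a : Fin 2 → ℝ) (y : Fin 2 → ℂ) (x : M23 ℝ) : ℂ :=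
  exp (-(Real.pi : ℂ) * ((1 / δ : ℝ) : ℂ) *
    ∑ i, (a i : ℂ) * (((∑ l, k l * x i l * x i l : ℝ) : ℂ) + 2 * s k (x i) y ^ 2)) * Del k x y

/-- the Wigner transform -/
def wig (f g : M23 ℝ → ℂ) (σ r : M23 ℝ) : ℂ :=
  ∫ m : M23 ℝ, f (fun i l => m i l + σ i l / 2) * conj (g (fun i l => m i l - σ i l / 2)) *
    exp (-2 * Real.pi * I * ((∑ i, ∑ l, r i l * m i l : ℝ) : ℂ))

/-- Gaussian bound, one place -/
def GB1 (f : M23 ℝ → ℂ) : Prop :=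
  Continuous f ∧ ∃ C c : ℝ, 0 < C ∧ 0 < c ∧ ∀ x, ‖f x‖ ≤ C * Real.exp (-c * ∑ i, ∑ l, x i l ^ 2)

/-- Gaussian bound for a function of `(σ, r)`, one place -/
def GB2 (W : M23 ℝ → M23 ℝ → ℂ) : Prop :=
  ∃ C c : ℝ, 0 < C ∧ 0 < c ∧ ∀ σ r, ‖W σ r‖ ≤
    C * Real.exp (-c * ((∑ i, ∑ l, σ i l ^ 2) + ∑ i, ∑ l, r i l ^ 2))

/-- `X + √(-d) Y` is unitary for `diag(k)` -/
def RU {R : Type} [CommRing R] (k : Fin 3 → R) (d : R) (X Y : Matrix (Fin 3) (Fin 3) R) : Prop :=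
  Xᵀ * Matrix.diagonal k * X + d • (Yᵀ * Matrix.diagonal k * Y) = Matrix.diagonal k ∧
    Xᵀ * Matrix.diagonal k * Y = Yᵀ * Matrix.diagonal k * X

/-- the `σ`-part of `(X + √(-d) Y)(σ + √(-d) τ)` (on rows) -/
def aS {R : Type} [CommRing R] (d : R) (X Y : Matrix (Fin 3) (Fin 3) R) (σ τ : M23 R) : M23 R :=
  fun i l => (X *ᵥ σ i) l - d * (Y *ᵥ τ i) l

/-- the `τ`-part -/
def aT {R : Type} [CommRing R] (X Y : Matrix (Fin 3) (Fin 3) R) (σ τ : M23 R) : M23 R :=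
  fun i l => (X *ᵥ τ i) l + (Y *ᵥ σ i) l

/-- `r i l = a i * k l * τ i l` -/
def dua {R : Type} [CommRing R] (a : Fin 2 → R) (k : Fin 3 → R) (τ : M23 R) : M23 R :=
  fun i l => a i * k l * τ i l

/-! ## All places -/

variable {F : Type} [Field F] [NumberField F]

/-- real coordinates at all places -/
abbrev RV (F : Type) [Field F] := (F →+* ℝ) → M23 ℝ

/-- the embedding -/
def evm (ξ : M23 F) : RV F := fun v i l => v (ξ i l)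

/-- squared length -/
def nsq (x : RV F) : ℝ := ∑ v, ∑ i, ∑ l, x v i l ^ 2

/-- Gaussian bound -/
def GB (f : RV F → ℂ) : Prop :=
  Continuous f ∧ ∃ C c : ℝ, 0 < C ∧ 0 < c ∧ ∀ x, ‖f x‖ ≤ C * Real.exp (-c * nsq x)

/-- the Fourier transform on `R^(2×3×d)` -/
def ftR (f : RV F → ℂ) (r : RV F) : ℂ :=
  ∫ x : RV F, f x * exp (-2 * Real.pi * I * ((∑ v, ∑ i, ∑ l, r v i l * x v i l : ℝ) : ℂ))

/-- the Wigner transform on `R^(2×3×d)` -/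
def wigR (f g : RV F → ℂ) (σ r : RV F) : ℂ :=
  ∫ m : RV F, f (fun v i l => m v i l + σ v i l / 2) *
    conj (g (fun v i l => m v i l - σ v i l / 2)) *
    exp (-2 * Real.pi * I * ((∑ v, ∑ i, ∑ l, r v i l * m v i l : ℝ) : ℂ))

/-- Gaussian bound for a function of `(σ, r)` -/
def GBW (W : RV F → RV F → ℂ) : Prop :=
  ∃ C c : ℝ, 0 < C ∧ 0 < c ∧ ∀ σ r, ‖W σ r‖ ≤ C * Real.exp (-c * (nsq σ + nsq r))

/-- a `Z`-basis of `O_F` and its dual basis for the trace -/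
structure DualPair (F : Type) [Field F] [NumberField F] (κ : Type) [Fintype κ] [DecidableEq κ]
    where
  om : κ → F
  od : κ → F
  int : ∀ x : F, IsIntegral ℤ x ↔ ∃ n : κ → ℤ, x = ∑ s, (n s : F) * om s
  inj : ∀ n : κ → ℤ, ∑ s, (n s : F) * om s = 0 → n = 0
  dual : ∀ s t, ∑ v : F →+* ℝ, v (om s) * v (od t) = if s = t then 1 else 0
  dual' : ∀ v : F →+* ℝ, ∑ s, v (om s) * v (od s) = 1
  dual'' : ∀ v w : F →+* ℝ, v ≠ w → ∑ s, v (om s) * w (od s) = 0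

variable {κ : Type} [Fintype κ] [DecidableEq κ]

/-- the element with coordinates `n` -/
def DualPair.vec (dp : DualPair F κ) (n : Fin 2 × Fin 3 × κ → ℤ) : M23 F :=
  fun i l => ∑ s, (n (i, l, s) : F) * dp.om s

/-- the element with dual coordinates `n` -/
def DualPair.dvec (dp : DualPair F κ) (n : Fin 2 × Fin 3 × κ → ℤ) : M23 F :=
  fun i l => ∑ s, (n (i, l, s) : F) * dp.od s

/-- all places together -/
def Gt (v₁ : F →+* ℝ) (D : F) (h : Fin 3 → F) (a : Fin 2 → F) (R : Maj F) (y : Fin 2 → ℂ)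
    (x : RV F) : ℂ :=
  open Classical in
  ∏ v, if v = v₁ then G1 (ev v h) (√(v D)) (fun i => v (a i)) y (x v)
    else G (ev v h) (√(v D)) (R v) (x v)

/-! ## The rows of WIG -/

/-- W0: a dual pair exists -/
def W0 : Prop :=
  ∀ (F : Type) [Field F] [NumberField F] [NumberField.IsTotallyReal F],
    ∃ (κ : Type) (_ : Fintype κ) (_ : DecidableEq κ), Nonempty (DualPair F κ)

/-- WA1 (86) -/
def WA1 : Prop := ∀ (k : Fin 3 → ℝ) (δ : ℝ) (R : Matrix (Fin 2) (Fin 2) ℝ), (∀ l, 0 < k l) →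
  0 < δ → R.PosDef → GB1 (G k δ R)

/-- WA2 (86) -/
def WA2 : Prop := ∀ (k : Fin 3 → ℝ) (δ : ℝ) (R R' : Matrix (Fin 2) (Fin 2) ℝ), (∀ l, 0 < k l) →
  0 < δ → R.PosDef → R'.PosDef → GB2 (wig (G k δ R) (G k δ R'))

/-- WA3 (86): invariance at `v ≠ v₁` -/
def WA3 : Prop := ∀ (k : Fin 3 → ℝ) (δ : ℝ) (a : Fin 2 → ℝ) (R R' : Matrix (Fin 2) (Fin 2) ℝ)
  (X Y : Matrix (Fin 3) (Fin 3) ℝ), (∀ l, 0 < k l) → 0 < δ → (∀ i, a i ≠ 0) → R.PosDef →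
  R'.PosDef → R * Matrix.diagonal (fun i => (a i)⁻¹) * R = Matrix.diagonal a →
  R' * Matrix.diagonal (fun i => (a i)⁻¹) * R' = Matrix.diagonal a → RU k (δ ^ 2) X Y →
  ∀ σ τ : M23 ℝ, wig (G k δ R) (G k δ R') (aS (δ ^ 2) X Y σ τ) (dua a k (aT X Y σ τ)) =
    wig (G k δ R) (G k δ R') σ (dua a k τ)

/-- WB1 (14) -/
def WB1 : Prop := ∀ (k : Fin 3 → ℝ) (δ : ℝ) (a : Fin 2 → ℝ) (y : Fin 2 → ℂ), 0 < k 0 → 0 < k 1 →
  k 2 < 0 → 0 < δ → (∀ i, 0 < a i) → y ∈ ball k → GB1 (G1 k δ a y)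

/-- WB2 (14) -/
def WB2 : Prop := ∀ (k : Fin 3 → ℝ) (δ : ℝ) (a : Fin 2 → ℝ) (y : Fin 2 → ℂ), 0 < k 0 → 0 < k 1 →
  k 2 < 0 → 0 < δ → (∀ i, 0 < a i) → y ∈ ball k → GB2 (wig (G1 k δ a y) (G1 k δ a y))

/-- the hermitian form at `v₁` -/
def hh (k : Fin 3 → ℝ) (x z : Fin 3 → ℂ) : ℂ := ∑ l, (k l : ℂ) * x l * conj (z l)

/-- the projection to the orthogonal complement of `p` -/
def prj (k : Fin 3 → ℝ) (p x : Fin 3 → ℂ) : Fin 3 → ℂ := fun l => x l - hh k x p / hh k p p * p l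

/-- one row: the exponential factor, `α = a / δ`, `N = - h(p, p)` -/
def KE (k : Fin 3 → ℝ) (α : ℝ) (p lam : Fin 3 → ℂ) : ℂ :=
  exp (-((Real.pi * α / 2 : ℝ) : ℂ) *
    (hh k lam lam - 2 * hh k lam p * conj (hh k lam p) / hh k p p))

/-- one row: the polynomial factor -/
def KT (k : Fin 3 → ℝ) (α : ℝ) (p lam : Fin 3 → ℂ) (u u' : Fin 3 → ℂ) : ℂ :=
  -(1 / hh k p p) * (hh k (prj k p u) (prj k p u') / ((4 * Real.pi * α : ℝ) : ℂ) -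
    hh k (prj k p u) (prj k p lam) * hh k (prj k p lam) (prj k p u') / 4)

/-- one row of the integral at `v₁` -/
def K1 (k : Fin 3 → ℝ) (α : ℝ) (y : Fin 2 → ℂ) (j l : Fin 2) (s' r : Fin 3 → ℝ) : ℂ :=
  ∫ m : Fin 3 → ℝ,
    exp (-(Real.pi : ℂ) * (α : ℂ) * (((∑ i, k i * (m i + s' i / 2) ^ 2 : ℝ) : ℂ) +
      2 * s k (fun i => m i + s' i / 2) y ^ 2)) * ds k (fun i => m i + s' i / 2) j y *
    conj (exp (-(Real.pi : ℂ) * (α : ℂ) * (((∑ i, k i * (m i - s' i / 2) ^ 2 : ℝ) : ℂ) +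
      2 * s k (fun i => m i - s' i / 2) y ^ 2)) * ds k (fun i => m i - s' i / 2) l y) *
    exp (-2 * Real.pi * I * ((∑ i, r i * m i : ℝ) : ℂ))

/-- the vector `e_j`, `j < 2` -/
def ej (j : Fin 2) : Fin 3 → ℂ := Pi.single j.castSucc 1

/-- WB3 (14): the explicit kernel of one row; `λ = s' + i x`, `r = α k x`
(checked numerically) -/
def WB3 : Prop := ∀ (k : Fin 3 → ℝ) (α : ℝ) (y : Fin 2 → ℂ) (j l : Fin 2) (s' x : Fin 3 → ℝ),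
  0 < k 0 → 0 < k 1 → k 2 < 0 → 0 < α → y ∈ ball k →
  K1 k α y j l s' (fun i => α * k i * x i) =
    ((1 / ((2 * α) * √(2 * α) * √(-(k 0 * k 1 * k 2))) : ℝ) : ℂ) *
      KE k α (hat y) (fun i => (s' i : ℂ) + I * (x i : ℂ)) *
      KT k α (hat y) (fun i => (s' i : ℂ) + I * (x i : ℂ)) (ej j) (ej l)

/-- WB6 (14): the transformation of the kernel, all in closed form -/
def WB6 : Prop := ∀ (k : Fin 3 → ℝ) (α : Fin 2 → ℝ) (A : Matrix (Fin 3) (Fin 3) ℂ) (y : Fin 2 → ℂ),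
  0 < k 0 → 0 < k 1 → k 2 < 0 → (∀ i, 0 < α i) → y ∈ ball k →
  Aᴴ * Matrix.diagonal (fun l => (k l : ℂ)) * A = Matrix.diagonal (fun l => (k l : ℂ)) →
  ∀ p : Fin 3 → ℂ, p = A *ᵥ hat y → p 2 ≠ 0 → ∀ y' : Fin 2 → ℂ, y' = (fun j => p j.castSucc / p 2) →
  ∀ lam : Fin 2 → Fin 3 → ℂ,
  ∑ e : Fin 2, ∑ e' : Fin 2, (-1 : ℂ) ^ (e.val + e'.val) *
    ((KE k (α 0) (hat y') (A *ᵥ lam 0) * KT k (α 0) (hat y') (A *ᵥ lam 0) (ej e) (ej e')) *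
     (KE k (α 1) (hat y') (A *ᵥ lam 1) *
      KT k (α 1) (hat y') (A *ᵥ lam 1) (ej (1 - e)) (ej (1 - e')))) =
  ((‖p 2‖ ^ 6 : ℝ) : ℂ) * ∑ e : Fin 2, ∑ e' : Fin 2, (-1 : ℂ) ^ (e.val + e'.val) *
    ((KE k (α 0) (hat y) (lam 0) * KT k (α 0) (hat y) (lam 0) (ej e) (ej e')) *
     (KE k (α 1) (hat y) (lam 1) * KT k (α 1) (hat y) (lam 1) (ej (1 - e)) (ej (1 - e'))))

/-- WB4: the product structure at `v₁` -/
def WB4 : Prop := ∀ (k : Fin 3 → ℝ) (δ : ℝ) (a : Fin 2 → ℝ) (y : Fin 2 → ℂ), 0 < k 0 → 0 < k 1 →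
  k 2 < 0 → 0 < δ → (∀ i, 0 < a i) → y ∈ ball k → ∀ σ r : M23 ℝ,
  wig (G1 k δ a y) (G1 k δ a y) σ r =
    K1 k (a 0 / δ) y 0 0 (σ 0) (r 0) * K1 k (a 1 / δ) y 1 1 (σ 1) (r 1)
    - K1 k (a 0 / δ) y 0 1 (σ 0) (r 0) * K1 k (a 1 / δ) y 1 0 (σ 1) (r 1)
    - K1 k (a 0 / δ) y 1 0 (σ 0) (r 0) * K1 k (a 1 / δ) y 0 1 (σ 1) (r 1)
    + K1 k (a 0 / δ) y 1 1 (σ 0) (r 0) * K1 k (a 1 / δ) y 0 0 (σ 1) (r 1)

/-- WB5 (16): invariance at `v₁` -/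
def WB5 : Prop := ∀ (k : Fin 3 → ℝ) (δ : ℝ) (a : Fin 2 → ℝ) (X Y : Matrix (Fin 3) (Fin 3) ℝ)
  (y : Fin 2 → ℂ), 0 < k 0 → 0 < k 1 → k 2 < 0 → 0 < δ → (∀ i, 0 < a i) → RU k (δ ^ 2) X Y →
  y ∈ ball k → ∀ p : Fin 3 → ℂ,
  p = (fun i j => ((X i j : ℝ) : ℂ) + I * (δ : ℂ) * ((Y i j : ℝ) : ℂ) : Matrix (Fin 3) (Fin 3) ℂ) *ᵥ
    hat y → p 2 ≠ 0 → ∀ y' : Fin 2 → ℂ, y' = (fun j => p j.castSucc / p 2) → y' ∈ ball k →
  ∀ σ τ : M23 ℝ, wig (G1 k δ a y') (G1 k δ a y') (aS (δ ^ 2) X Y σ τ) (dua a k (aT X Y σ τ)) =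
    ((‖p 2‖ ^ 6 : ℝ) : ℂ) * wig (G1 k δ a y) (G1 k δ a y) σ (dua a k τ)

/-- WC (45): Poisson summation over the lattice `x₀ + N O_F^(2×3)` -/
def WC : Prop :=
  ∀ (F : Type) [Field F] [NumberField F] [NumberField.IsTotallyReal F] (κ : Type) [Fintype κ]
    [DecidableEq κ] (dp : DualPair F κ) (N : ℕ), 0 < N → ∃ c : ℂ,
    ∀ f : RV F → ℂ, GB f → (∃ C c : ℝ, 0 < C ∧ 0 < c ∧ ∀ r, ‖ftR f r‖ ≤ C * Real.exp (-c * nsq r)) →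
    ∀ n₀ : Fin 2 × Fin 3 × κ → ℤ,
    HasSum (fun m : Fin 2 × Fin 3 × κ → ℤ =>
      c * exp (2 * Real.pi * I * ((∑ t, (m t : ℝ) * (n₀ t : ℝ) / (N : ℝ) ^ 2 : ℝ) : ℂ)) *
        ftR f (fun v i l => evm (dp.dvec m) v i l / N))
      (∑' n : Fin 2 × Fin 3 × κ → ℤ,
        f (fun v i l => evm (dp.vec (fun t => n₀ t + (N : ℤ) ^ 2 * n t)) v i l / N))

/-- WD (62): unfolding of the double sum -/
def WD : Prop :=
  ∀ (F : Type) [Field F] [NumberField F] [NumberField.IsTotallyReal F] (N : ℕ) (φ : M23 F → ℂ),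
    SB2 N φ → ∃ (M : ℕ) (Φ : M23 F → M23 F → ℂ), 0 < M ∧
    (∀ σ r, Φ σ r ≠ 0 → ∀ i l, IsIntegral ℤ ((M : F) * σ i l) ∧ IsIntegral ℤ ((M : F) * r i l)) ∧
    (∀ σ r σ' r' : M23 F, (∀ i l, IsIntegral ℤ (σ' i l) ∧ IsIntegral ℤ (r' i l)) →
      Φ (fun i l => σ i l + M * σ' i l) (fun i l => r i l + M * r' i l) = Φ σ r) ∧
    ∀ f g : RV F → ℂ, GB f → GB g → GBW (wigR f g) →
      HasSum (fun z : M23 F × M23 F => Φ z.1 z.2 * wigR f g (evm z.1) (evm z.2))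
        ((∑' ξ, φ ξ * f (evm ξ)) * conj (∑' η, φ η * g (evm η)))

end

end Pool.Agent.CMH.Wig
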