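import Mathlib
import Pool.Agent.Lib.CMH.WigDefs
import Pool.Agent.Lib.CMH.W3

/-!
TANK CMH, row WIG, part WA: the Gaussians at the places `v ≠ v₁`: Gaussian bounds of the function and
of its Wigner transform, and the invariance of the Wigner transform.  helper86.
-/

set_option autoImplicit false

open scoped ComplexConjugate Matrix
open Complex MeasureTheory

namespace Pool.Agent.CMH.Wig

open Pool.Agent.CMH.W3

noncomputable section

/-! ## WA1 -/

lemma wa_exists_pos_le {k : Fin 3 → ℝ} (hk : ∀ l, 0 < k l) : ∃ k₀ : ℝ, 0 < k₀ ∧ ∀ l, k₀ ≤ k l := by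
  refine ⟨min (k 0) (min (k 1) (k 2)), lt_min (hk 0) (lt_min (hk 1) (hk 2)), fun l => ?_⟩
  fin_cases l
  · exact min_le_left _ _
  · exact (min_le_right _ _).trans (min_le_left _ _)
  · exact (min_le_right _ _).trans (min_le_right _ _)

lemma wa_quad_swap (k : Fin 3 → ℝ) (R : Matrix (Fin 2) (Fin 2) ℝ) (x : M23 ℝ) :
    ∑ i, ∑ j, R i j * ∑ l, k l * x i l * x j l =
      ∑ l, k l * ∑ i, ∑ j, R i j * x i l * x j l := by
  simp only [Fin.sum_univ_two, Fin.sum_univ_three]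
  ring

theorem wa1 : WA1 := by
  intro k δ R hk hδ hR
  refine ⟨?_, ?_⟩
  · unfold G
    fun_prop
  obtain ⟨κ, hκ, hl⟩ := posDef_lower R hR
  obtain ⟨k₀, hk₀, hkl⟩ := wa_exists_pos_le hk
  refine ⟨1, Real.pi * (1 / δ) * (k₀ * κ), one_pos, by positivity, fun x => ?_⟩
  unfold G
  have e1 : -(Real.pi : ℂ) * ((1 / δ : ℝ) : ℂ) *
      ((∑ i, ∑ j, R i j * ∑ l, k l * x i l * x j l : ℝ) : ℂ) =
      ((-(Real.pi * (1 / δ)) * ∑ i, ∑ j, R i j * ∑ l, k l * x i l * x j l : ℝ) : ℂ) := by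
    push_cast
    ring
  rw [e1, Complex.norm_exp, Complex.ofReal_re, one_mul]
  refine Real.exp_le_exp.mpr ?_
  rw [wa_quad_swap]
  have h2 : (k₀ * κ) * ∑ i, ∑ l, x i l ^ 2 ≤ ∑ l, k l * ∑ i, ∑ j, R i j * x i l * x j l := by
    rw [Finset.sum_comm, Finset.mul_sum]
    refine Finset.sum_le_sum fun l _ => ?_
    have h3 := hl (fun i => x i l)
    have h4 : 0 ≤ ∑ i, x i l ^ 2 := Finset.sum_nonneg fun i _ => sq_nonneg _
    calc k₀ * κ * ∑ i, x i l ^ 2 = k₀ * (κ * ∑ i, x i l ^ 2) := by ring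
      _ ≤ k l * (κ * ∑ i, x i l ^ 2) :=
        mul_le_mul_of_nonneg_right (hkl l) (by positivity)
      _ ≤ _ := mul_le_mul_of_nonneg_left h3 (hk l).le
  have h5 : 0 < Real.pi * (1 / δ) := by positivity
  have := mul_le_mul_of_nonneg_left h2 h5.le
  linarith

/-! ## The integral over all columns -/

/-- interchange of rows and columns -/
def waSwapE : M23 ℝ ≃L[ℝ] (Fin 3 → Fin 2 → ℝ) where
  toFun x := fun l i => x i l
  invFun y := fun i l => y l i
  map_add' _ _ := rfl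
  map_smul' _ _ := rfl
  left_inv _ := rfl
  right_inv _ := rfl
  continuous_toFun := by fun_prop
  continuous_invFun := by fun_prop

lemma wa_integral_swap : ∃ C : ℝ, 0 ≤ C ∧ ∀ f : (Fin 3 → Fin 2 → ℝ) → ℂ,
    ∫ x : M23 ℝ, f (fun l i => x i l) = (C : ℂ) * ∫ y : Fin 3 → Fin 2 → ℝ, f y := by
  have h1 : (Measure.map waSwapE (volume : Measure (M23 ℝ))).IsAddHaarMeasure :=
    waSwapE.isAddHaarMeasure_map _
  have hv : (volume : Measure (Fin 3 → Fin 2 → ℝ)).IsAddHaarMeasure :=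
    Measure.pi.isAddHaarMeasure _
  have h2 := Measure.isAddLeftInvariant_eq_smul (Measure.map waSwapE (volume : Measure (M23 ℝ)))
    (volume : Measure (Fin 3 → Fin 2 → ℝ))
  set c := Measure.addHaarScalarFactor (Measure.map waSwapE (volume : Measure (M23 ℝ)))
    (volume : Measure (Fin 3 → Fin 2 → ℝ)) with hc
  refine ⟨(c : ℝ), c.2, fun f => ?_⟩
  have h3 := integral_map_equiv (μ := (volume : Measure (M23 ℝ)))
    waSwapE.toHomeomorph.toMeasurableEquiv f
  have h4 : Measure.map waSwapE.toHomeomorph.toMeasurableEquiv (volume : Measure (M23 ℝ)) =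
      Measure.map waSwapE (volume : Measure (M23 ℝ)) := rfl
  rw [h4, h2] at h3
  have h5 : ∫ x : M23 ℝ, f (fun l i => x i l) =
      ∫ x : M23 ℝ, f (waSwapE.toHomeomorph.toMeasurableEquiv x) := rfl
  rw [h5, ← h3, integral_smul_nnreal_measure]
  rfl

/-- the integrand of the Wigner transform is a product over the columns -/
lemma wa_wig_integrand (k : Fin 3 → ℝ) (δ : ℝ) (R R' : Matrix (Fin 2) (Fin 2) ℝ) (σ r m : M23 ℝ) :
    G k δ R (fun i l => m i l + σ i l / 2) * conj (G k δ R' (fun i l => m i l - σ i l / 2)) *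
      exp (-2 * Real.pi * I * ((∑ i, ∑ l, r i l * m i l : ℝ) : ℂ)) =
    ∏ l, colF R R' (k l / δ) (fun i => σ i l) (fun i => r i l) (fun i => m i l) := by
  have e1 : conj (G k δ R' (fun i l => m i l - σ i l / 2)) =
      G k δ R' (fun i l => m i l - σ i l / 2) := by
    unfold G
    rw [← Complex.exp_conj]
    congr 1
    simp only [map_mul, map_neg, Complex.conj_ofReal]
  rw [e1]
  unfold G colF
  simp only [← Complex.exp_add, ← Complex.exp_sum]
  congr 1
  rw [wa_quad_swap, wa_quad_swap]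
  unfold bil
  simp only [Fin.sum_univ_two, Fin.sum_univ_three]
  push_cast
  ring

theorem wa_wig_eq : ∃ C : ℝ, 0 ≤ C ∧ ∀ (k : Fin 3 → ℝ) (δ : ℝ) (R R' : Matrix (Fin 2) (Fin 2) ℝ)
    (σ r : M23 ℝ), wig (G k δ R) (G k δ R') σ r =
      (C : ℂ) * ∏ l, ∫ m : Fin 2 → ℝ, colF R R' (k l / δ) (fun i => σ i l) (fun i => r i l) m := by
  obtain ⟨C, hC, h⟩ := wa_integral_swap
  refine ⟨C, hC, fun k δ R R' σ r => ?_⟩
  unfold wig
  rw [integral_congr_ae (.of_forall (wa_wig_integrand k δ R R' σ r))]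
  have h1 := h (fun y => ∏ l, colF R R' (k l / δ) (fun i => σ i l) (fun i => r i l) (y l))
  rw [h1]
  congr 1
  exact integral_fintype_prod_volume_eq_prod (E := fun _ : Fin 3 => Fin 2 → ℝ)
    (fun l => colF R R' (k l / δ) (fun i => σ i l) (fun i => r i l))

/-! ## WA2 -/

theorem wa2 : WA2 := by
  intro k δ R R' hk hδ hR hR'
  obtain ⟨C, hC, h⟩ := wa_wig_eq
  choose c κ hc hκ hb using fun l => col_bound R R' hR hR' (k l / δ) (div_pos (hk l) hδ)
  obtain ⟨κ₀, hκ₀, hκl⟩ := wa_exists_pos_le hκ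
  refine ⟨(C + 1) * ∏ l, c l, κ₀, mul_pos (by linarith) (Finset.prod_pos fun l _ => hc l), hκ₀,
    fun σ r => ?_⟩
  rw [h, norm_mul, Complex.norm_real, Real.norm_eq_abs, abs_of_nonneg hC, norm_prod, mul_assoc]
  have e1 : ∏ l, ‖∫ m : Fin 2 → ℝ, colF R R' (k l / δ) (fun i => σ i l) (fun i => r i l) m‖ ≤
      (∏ l, c l) * Real.exp (-κ₀ * ((∑ i, ∑ l, σ i l ^ 2) + ∑ i, ∑ l, r i l ^ 2)) := by
    have e2 : Real.exp (-κ₀ * ((∑ i, ∑ l, σ i l ^ 2) + ∑ i, ∑ l, r i l ^ 2)) =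
        ∏ l, Real.exp (-κ₀ * (∑ i, σ i l ^ 2 + ∑ i, r i l ^ 2)) := by
      rw [← Real.exp_sum]
      congr 1
      rw [Finset.sum_comm, Finset.sum_comm (f := fun i l => r i l ^ 2), ← Finset.sum_add_distrib,
        Finset.mul_sum]
    rw [e2, ← Finset.prod_mul_distrib]
    refine Finset.prod_le_prod (fun l _ => norm_nonneg _) fun l _ => ?_
    refine (hb l _ _).trans (mul_le_mul_of_nonneg_left (Real.exp_le_exp.mpr ?_) (hc l).le)
    have h0 : 0 ≤ ∑ i, σ i l ^ 2 + ∑ i, r i l ^ 2 :=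
      add_nonneg (Finset.sum_nonneg fun i _ => sq_nonneg _) (Finset.sum_nonneg fun i _ => sq_nonneg _)
    have := mul_le_mul_of_nonneg_right (hκl l) h0
    linarith
  exact mul_le_mul (by linarith) e1 (Finset.prod_nonneg fun l _ => norm_nonneg _) (by linarith)

/-! ## WA3 -/

/-- the hermitian form is invariant under the unitary group -/
lemma wa_hh_unitary (k : Fin 3 → ℝ) (U : Matrix (Fin 3) (Fin 3) ℂ)
    (hU : Uᴴ * Matrix.diagonal (fun l => (k l : ℂ)) * U = Matrix.diagonal (fun l => (k l : ℂ)))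
    (x z : Fin 3 → ℂ) :
    ∑ l, (k l : ℂ) * (U *ᵥ x) l * conj ((U *ᵥ z) l) = ∑ l, (k l : ℂ) * x l * conj (z l) := by
  have h : ∀ x z : Fin 3 → ℂ, ∑ l, (k l : ℂ) * x l * conj (z l) =
      star z ⬝ᵥ (Matrix.diagonal (fun l => (k l : ℂ)) *ᵥ x) := by
    intro x z
    unfold dotProduct
    refine Finset.sum_congr rfl fun l _ => ?_
    rw [Matrix.mulVec_diagonal, Pi.star_apply]
    change _ = conj (z l) * _
    ring
  rw [h, h, Matrix.star_mulVec, ← Matrix.dotProduct_mulVec, Matrix.mulVec_mulVec,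
    Matrix.mulVec_mulVec, hU]

lemma wa_unitary_of_RU (k : Fin 3 → ℝ) (δ : ℝ) (X Y : Matrix (Fin 3) (Fin 3) ℝ)
    (h : RU k (δ ^ 2) X Y) (U : Matrix (Fin 3) (Fin 3) ℂ)
    (hU : U = fun i j => ((X i j : ℝ) : ℂ) + I * (δ : ℂ) * ((Y i j : ℝ) : ℂ)) :
    Uᴴ * Matrix.diagonal (fun l => (k l : ℂ)) * U = Matrix.diagonal (fun l => (k l : ℂ)) := by
  obtain ⟨h1, h2⟩ := h
  ext i j
  have e1 := congrFun (congrFun h1 i) j
  have e2 := congrFun (congrFun h2 i) j
  rw [Matrix.mul_apply] at e2 ⊢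
  simp only [Matrix.add_apply, Matrix.smul_apply, smul_eq_mul] at e1
  rw [Matrix.mul_apply, Matrix.mul_apply] at e1
  rw [Matrix.mul_apply] at e2
  simp only [Matrix.mul_diagonal, Matrix.transpose_apply] at e1 e2
  simp only [Matrix.mul_diagonal, Matrix.conjTranspose_apply]
  have e1' : (∑ x, (X x i : ℂ) * k x * X x j) + (δ : ℂ) ^ 2 * ∑ x, (Y x i : ℂ) * k x * Y x j =
      ((Matrix.diagonal k i j : ℝ) : ℂ) := by
    rw [← e1]; push_cast; rfl
  have e2' : ∑ x, (X x i : ℂ) * k x * Y x j = ∑ x, (Y x i : ℂ) * k x * X x j := by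
    exact_mod_cast e2
  have e3 : Matrix.diagonal (fun l => (k l : ℂ)) i j = ((Matrix.diagonal k i j : ℝ) : ℂ) := by
    by_cases hij : i = j
    · subst hij; rw [Matrix.diagonal_apply_eq, Matrix.diagonal_apply_eq]
    · rw [Matrix.diagonal_apply_ne _ hij, Matrix.diagonal_apply_ne _ hij]; simp
  rw [e3, ← e1', hU]
  have e4 : ∀ x : Fin 3, star ((X x i : ℂ) + I * (δ : ℂ) * (Y x i : ℂ)) * (k x : ℂ) *
      ((X x j : ℂ) + I * (δ : ℂ) * (Y x j : ℂ)) = (X x i : ℂ) * k x * X x j +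
        (δ : ℂ) ^ 2 * ((Y x i : ℂ) * k x * Y x j) +
        I * δ * ((X x i : ℂ) * k x * Y x j) - I * δ * ((Y x i : ℂ) * k x * X x j) := by
    intro x
    have : star ((X x i : ℂ) + I * (δ : ℂ) * (Y x i : ℂ)) =
        (X x i : ℂ) - I * (δ : ℂ) * (Y x i : ℂ) := by
      change conj _ = _
      simp only [map_add, map_mul, Complex.conj_ofReal, Complex.conj_I]
      ring
    rw [this]
    linear_combination (-(δ : ℂ) ^ 2 * ((Y x i : ℂ) * k x * Y x j)) * Complex.I_sq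
  simp only [e4]
  rw [Finset.sum_sub_distrib, Finset.sum_add_distrib, Finset.sum_add_distrib, ← Finset.mul_sum,
    ← Finset.mul_sum, ← Finset.mul_sum, e2']
  ring

theorem wa3 : WA3 := by
  intro k δ a R R' X Y hk hδ ha hR hR' h1 h2 hRU σ τ
  obtain ⟨C, hC, h⟩ := wa_wig_eq
  have hQinv : (Matrix.diagonal a)⁻¹ = Matrix.diagonal (fun i => (a i)⁻¹) := by
    refine Matrix.inv_eq_left_inv ?_
    rw [Matrix.diagonal_mul_diagonal]
    have : (fun i => (a i)⁻¹ * a i) = fun _ => (1 : ℝ) := by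
      funext i
      exact inv_mul_cancel₀ (ha i)
    rw [this]
    exact Matrix.diagonal_one
  have hQt : (Matrix.diagonal a).transpose = Matrix.diagonal a := Matrix.diagonal_transpose a
  have hQu : IsUnit (Matrix.diagonal a).det := by
    rw [Matrix.det_diagonal]
    exact isUnit_iff_ne_zero.2 (Finset.prod_ne_zero_iff.2 fun i _ => ha i)
  have h1' : R * (Matrix.diagonal a)⁻¹ * R = Matrix.diagonal a := by rw [hQinv]; exact h1
  have h2' : R' * (Matrix.diagonal a)⁻¹ * R' = Matrix.diagonal a := by rw [hQinv]; exact h2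
  have hδ0 : (δ : ℂ) ≠ 0 := by exact_mod_cast hδ.ne'
  have key : ∀ s t : M23 ℝ, wig (G k δ R) (G k δ R') s (dua a k t) =
      (C : ℂ) * ((∏ l, ((1 / √(((k l / δ) • (R + R')).det) : ℝ) : ℂ)) *
        exp (-(Real.pi : ℂ) / δ * ∑ i, ∑ j, (KM (Matrix.diagonal a) R R' i j : ℂ) *
          ∑ l, (k l : ℂ) * ((s i l : ℂ) + I * δ * t i l) *
            conj ((s j l : ℂ) + I * δ * t j l))) := by
    intro s t
    rw [h]
    congr 1
    have e1 : ∀ l : Fin 3, ∫ m : Fin 2 → ℝ, colF R R' (k l / δ) (fun i => s i l)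
        (fun i => dua a k t i l) m = ((1 / √(((k l / δ) • (R + R')).det) : ℝ) : ℂ) *
        exp (-Real.pi * ((k l / δ : ℝ) : ℂ) * bil (KM (Matrix.diagonal a) R R')
          (fun i => (s i l : ℂ) + I * (δ * t i l : ℝ))
          (fun i => conj ((s i l : ℂ) + I * (δ * t i l : ℝ)))) := by
      intro l
      refine col_transform (Matrix.diagonal a) R R' hQt hQu hR hR' h1' h2' (k l / δ)
        (div_pos (hk l) hδ) (fun i => s i l) (fun i => δ * t i l) _ fun i => ?_
      have e2 : cm (Matrix.diagonal a) = Matrix.diagonal (fun i => (a i : ℂ)) := by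
        unfold cm
        rw [Matrix.diagonal_map (by simp)]
      rw [e2, Matrix.mulVec_diagonal]
      unfold dua
      push_cast
      field_simp
    rw [Finset.prod_congr rfl fun l _ => e1 l, Finset.prod_mul_distrib, ← Complex.exp_sum]
    congr 2
    unfold bil
    simp only [Fin.sum_univ_two, Fin.sum_univ_three, map_add, map_mul, Complex.conj_ofReal,
      Complex.conj_I]
    push_cast
    field_simp
    ring
  rw [key, key]
  congr 3
  refine congrArg (fun z => -(Real.pi : ℂ) / δ * z) ?_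
  refine Finset.sum_congr rfl fun i _ => Finset.sum_congr rfl fun j _ => ?_
  congr 1
  set U : Matrix (Fin 3) (Fin 3) ℂ := fun i j => ((X i j : ℝ) : ℂ) + I * (δ : ℂ) * ((Y i j : ℝ) : ℂ)
    with hU
  have hUU := wa_unitary_of_RU k δ X Y hRU U hU
  have e5 : ∀ (i : Fin 2) (l : Fin 3), ((aS (δ ^ 2) X Y σ τ i l : ℝ) : ℂ) +
      I * δ * ((aT X Y σ τ i l : ℝ) : ℂ) =
      (U *ᵥ fun l => (σ i l : ℂ) + I * δ * τ i l) l := by
    intro i l
    unfold aS aT Matrix.mulVec dotProduct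
    rw [hU]
    simp only [Fin.sum_univ_three]
    push_cast
    linear_combination (-(δ : ℂ) ^ 2 * (Y l 0 * τ i 0 + Y l 1 * τ i 1 + Y l 2 * τ i 2)) *
      Complex.I_sq
  simp only [e5]
  exact wa_hh_unitary k U hUU _ _

end

end Pool.Agent.CMH.Wig
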