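import Pool.Agent.Lib.CMH.Est
import Pool.Agent.Lib.CMH.WigDefs

/-!
# TANK CMH, WIG route, row WB1: the Gaussian bound of the function at `v₁`
-/

set_option autoImplicit false

open scoped ComplexConjugate Matrix
open Complex

namespace Pool.Agent.CMH.WB1

noncomputable section

/-- `u exp(-c u) ≤ (2/c) exp(-c u / 2)` -/
theorem absorb {c u : ℝ} (hc : 0 < c) : u * Real.exp (-c * u) ≤ 2 / c * Real.exp (-(c / 2) * u) := by
  have h1 : c / 2 * u ≤ Real.exp (c / 2 * u) := by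
    have := Real.add_one_le_exp (c / 2 * u)
    linarith
  have h2 : Real.exp (-c * u) = Real.exp (-(c / 2) * u) * Real.exp (-(c / 2) * u) := by
    rw [← Real.exp_add]
    congr 1
    ring
  have h3 : Real.exp (c / 2 * u) * Real.exp (-(c / 2) * u) = 1 := by
    rw [← Real.exp_add]
    have : c / 2 * u + -(c / 2) * u = 0 := by ring
    rw [this, Real.exp_zero]
  have hp : 0 < Real.exp (-(c / 2) * u) := Real.exp_pos _
  have h4 : u ≤ 2 / c * Real.exp (c / 2 * u) := by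
    have : u = 2 / c * (c / 2 * u) := by field_simp
    calc u = 2 / c * (c / 2 * u) := this
      _ ≤ 2 / c * Real.exp (c / 2 * u) := mul_le_mul_of_nonneg_left h1 (by positivity)
  rw [h2]
  calc u * (Real.exp (-(c / 2) * u) * Real.exp (-(c / 2) * u))
      ≤ 2 / c * Real.exp (c / 2 * u) * (Real.exp (-(c / 2) * u) * Real.exp (-(c / 2) * u)) :=
        mul_le_mul_of_nonneg_right h4 (by positivity)
    _ = 2 / c * Real.exp (-(c / 2) * u) * (Real.exp (c / 2 * u) * Real.exp (-(c / 2) * u)) := by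
        ring
    _ = 2 / c * Real.exp (-(c / 2) * u) := by rw [h3, mul_one]

theorem G1_cont (k : Fin 3 → ℝ) (δ : ℝ) (a : Fin 2 → ℝ) (y : Fin 2 → ℂ) :
    Continuous (Wig.G1 k δ a y) := by
  unfold Wig.G1 Del ds s pr
  fun_prop

/-- row WB1 -/
theorem wb1 : Wig.WB1 := by
  intro k δ a y hk0 hk1 hk2 hδ ha hy
  refine ⟨G1_cont k δ a y, ?_⟩
  have hC : IsCompact ({y} : Set (Fin 2 → ℂ)) := isCompact_singleton
  have hCb : ({y} : Set (Fin 2 → ℂ)) ⊆ ball k := Set.singleton_subset_iff.mpr hy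
  obtain ⟨c, hc, hlow⟩ := EstA.lower hk0 hk1 hk2 hC hCb
  obtain ⟨c', hc', hup⟩ := EstA.upper hk0 hk1 hC hCb
  obtain ⟨m, hm, hma⟩ : ∃ m : ℝ, 0 < m ∧ ∀ i, m ≤ a i := by
    refine ⟨min (a 0) (a 1), lt_min (ha 0) (ha 1), fun i => ?_⟩
    fin_cases i
    · exact min_le_left _ _
    · exact min_le_right _ _
  set κ : ℝ := Real.pi * (1 / δ) * (m * c) with hκ
  have hκ0 : 0 < κ := by positivity
  refine ⟨2 * c' ^ 2 * (2 / κ), κ / 2, by positivity, by positivity, fun x => ?_⟩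
  set u : ℝ := ∑ i, ∑ l, x i l ^ 2 with hu
  have hu0 : ∀ i : Fin 2, 0 ≤ ∑ l, x i l ^ 2 := fun i =>
    Finset.sum_nonneg fun l _ => sq_nonneg _
  -- the exponential
  have hexp : ‖cexp (-(Real.pi : ℂ) * ((1 / δ : ℝ) : ℂ) *
      ∑ i, (a i : ℂ) * (((∑ l, k l * x i l * x i l : ℝ) : ℂ) + 2 * s k (x i) y ^ 2))‖ ≤
      Real.exp (-κ * u) := by
    rw [Complex.norm_exp]
    refine Real.exp_le_exp.mpr ?_
    have h1 : (-(Real.pi : ℂ) * ((1 / δ : ℝ) : ℂ) *
        ∑ i, (a i : ℂ) * (((∑ l, k l * x i l * x i l : ℝ) : ℂ) + 2 * s k (x i) y ^ 2)).re =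
        -(Real.pi * (1 / δ)) *
          ∑ i, a i * (((∑ l, k l * x i l * x i l : ℝ) : ℂ) + 2 * s k (x i) y ^ 2).re := by
      have e : (-(Real.pi : ℂ) * ((1 / δ : ℝ) : ℂ)) = ((-(Real.pi * (1 / δ)) : ℝ) : ℂ) := by
        push_cast; ring
      rw [e, Complex.re_ofReal_mul, Complex.re_sum]
      simp only [Complex.re_ofReal_mul]
    rw [h1]
    have h2 : m * c * u ≤
        ∑ i, a i * (((∑ l, k l * x i l * x i l : ℝ) : ℂ) + 2 * s k (x i) y ^ 2).re := by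
      rw [hu, Finset.mul_sum]
      refine Finset.sum_le_sum fun i _ => ?_
      have h3 := hlow y (Set.mem_singleton y) (x i)
      calc m * c * ∑ l, x i l ^ 2 = m * (c * ∑ l, x i l ^ 2) := by ring
        _ ≤ a i * (c * ∑ l, x i l ^ 2) :=
            mul_le_mul_of_nonneg_right (hma i) (mul_nonneg hc.le (hu0 i))
        _ ≤ _ := mul_le_mul_of_nonneg_left h3 (ha i).le
    have h5 : 0 < Real.pi * (1 / δ) := by positivity
    rw [hκ]
    nlinarith [mul_le_mul_of_nonneg_left h2 h5.le]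
  -- the polynomial
  have hd : ∀ (i : Fin 2) (j : Fin 2), ‖ds k (x i) j y‖ ≤ c' * √(∑ l, x i l ^ 2) :=
    fun i j => hup y (Set.mem_singleton y) (x i) j
  have hpol : ‖Del k x y‖ ≤ 2 * c' ^ 2 * u := by
    have hs0 := Real.sqrt_nonneg (∑ l, x 0 l ^ 2)
    have hs1 := Real.sqrt_nonneg (∑ l, x 1 l ^ 2)
    have hq0 := Real.sq_sqrt (hu0 0)
    have hq1 := Real.sq_sqrt (hu0 1)
    have hsum : u = (∑ l, x 0 l ^ 2) + ∑ l, x 1 l ^ 2 := by rw [hu, Fin.sum_univ_two]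
    have hprod : ∀ j j' : Fin 2, ‖ds k (x 0) j y * ds k (x 1) j' y‖ ≤ c' ^ 2 * u := by
      intro j j'
      rw [norm_mul]
      calc ‖ds k (x 0) j y‖ * ‖ds k (x 1) j' y‖
          ≤ (c' * √(∑ l, x 0 l ^ 2)) * (c' * √(∑ l, x 1 l ^ 2)) :=
            mul_le_mul (hd 0 j) (hd 1 j') (norm_nonneg _) (by positivity)
        _ = c' ^ 2 * (√(∑ l, x 0 l ^ 2) * √(∑ l, x 1 l ^ 2)) := by ring
        _ ≤ c' ^ 2 * u := by
            refine mul_le_mul_of_nonneg_left ?_ (by positivity)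
            rw [hsum]
            nlinarith [sq_nonneg (√(∑ l, x 0 l ^ 2) - √(∑ l, x 1 l ^ 2)), hu0 0, hu0 1]
    calc ‖Del k x y‖ ≤ ‖ds k (x 0) 0 y * ds k (x 1) 1 y‖ + ‖ds k (x 0) 1 y * ds k (x 1) 0 y‖ :=
          norm_sub_le _ _
      _ ≤ c' ^ 2 * u + c' ^ 2 * u := add_le_add (hprod 0 1) (hprod 1 0)
      _ = 2 * c' ^ 2 * u := by ring
  calc ‖Wig.G1 k δ a y x‖ ≤ Real.exp (-κ * u) * (2 * c' ^ 2 * u) := by
        rw [Wig.G1, norm_mul]
        exact mul_le_mul hexp hpol (norm_nonneg _) (Real.exp_pos _).le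
    _ = 2 * c' ^ 2 * (u * Real.exp (-κ * u)) := by ring
    _ ≤ 2 * c' ^ 2 * (2 / κ * Real.exp (-(κ / 2) * u)) :=
        mul_le_mul_of_nonneg_left (absorb hκ0) (by positivity)
    _ = 2 * c' ^ 2 * (2 / κ) * Real.exp (-(κ / 2) * u) := by ring

end

end Pool.Agent.CMH.WB1
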