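import Pool.Agent.Lib.CMH.W2
import Pool.Agent.Lib.CMH.WigDefs

/-!
# TANK CMH, WIG route, row WB6
-/

set_option autoImplicit false

open scoped ComplexConjugate Matrix
open Complex

namespace Pool.Agent.CMH.W2

noncomputable section

theorem hh_eq (k : Fin 3 → ℝ) (x z : Fin 3 → ℂ) : Wig.hh k x z = H k x z := rfl

theorem prj_eq (k : Fin 3 → ℝ) (p x : Fin 3 → ℂ) : Wig.prj k p x = prj k p x := rfl

theorem KE_mul_KT (k : Fin 3 → ℝ) (α : ℝ) (p lam u u' : Fin 3 → ℂ) :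
    Wig.KE k α p lam * Wig.KT k α p lam u u' = KG k α lam p u u' := by
  simp only [Wig.KE, Wig.KT, KG, hh_eq, prj_eq]
  have e1 : -((Real.pi * α / 2 : ℝ) : ℂ) *
      (H k lam lam - 2 * H k lam p * conj (H k lam p) / H k p p) =
      -((Real.pi : ℂ) * α / 2) * (H k lam lam + 2 * (H k lam p * conj (H k lam p)) / (-H k p p)) := by
    rw [div_neg]
    push_cast
    ring
  have e2 : ((4 * Real.pi * α : ℝ) : ℂ) = 4 * (Real.pi : ℂ) * α := by push_cast; ring
  rw [e1, e2, div_neg]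
  ring

/-- `h(yh, yh) < 0` on the ball -/
theorem H_hat_ball {k : Fin 3 → ℝ} {y : Fin 2 → ℂ} (hy : y ∈ ball k) :
    H k (hat y) (hat y) ≠ 0 := by
  have h1 : H k (hat y) (hat y) = ((k 0 * ‖y 0‖ ^ 2 + k 1 * ‖y 1‖ ^ 2 + k 2 : ℝ) : ℂ) := by
    simp only [H, hat, Fin.sum_univ_three, Matrix.cons_val_zero, Matrix.cons_val_one,
      Matrix.cons_val]
    rw [mul_assoc, mul_assoc, Complex.mul_conj, Complex.mul_conj, Complex.normSq_eq_norm_sq,
      Complex.normSq_eq_norm_sq]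
    simp
  have h2 : k 0 * ‖y 0‖ ^ 2 + k 1 * ‖y 1‖ ^ 2 + k 2 < 0 := hy
  rw [h1]
  exact_mod_cast h2.ne

/-- row WB6 -/
theorem wb6 : Wig.WB6 := by
  intro k α A y hk0 hk1 hk2 hα hy hA p hp hp2 y' hy' lam
  have hk : ∀ j, k j ≠ 0 := by
    intro j
    fin_cases j
    · exact hk0.ne'
    · exact hk1.ne'
    · exact hk2.ne
  have hhat2 : hat y 2 = 1 := rfl
  have hhat' : hat y' = (p 2)⁻¹ • p := by
    funext j
    fin_cases j
    · simp [hat, hy', div_eq_inv_mul]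
    · simp [hat, hy', div_eq_inv_mul]
    · simp [hat, hp2]
  have key := ker_det hk hA (α 0) (α 1) (lam 0) (lam 1) hhat2 (H_hat_ball hy)
    (by rw [← hp]; exact hp2)
  rw [← hp, ← hhat'] at key
  have hej : ∀ j, Wig.ej j = ej j := fun j => rfl
  have e10 : (1 : Fin 2) - 0 = 1 := rfl
  have e11 : (1 : Fin 2) - 1 = 0 := rfl
  simp only [KE_mul_KT, hej, Fin.sum_univ_two, e10, e11]
  simp only [DK, DG] at key
  have v0 : ((0 : Fin 2) : ℕ) = 0 := rfl
  have v1 : ((1 : Fin 2) : ℕ) = 1 := rfl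
  simp only [v0, v1]
  linear_combination key

end

end Pool.Agent.CMH.W2
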