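import Pool.Agent.Lib.CMH.WB1
import Pool.Agent.Lib.CMH.WB6

/-!
# TANK CMH, WIG route, row WB2: the Gaussian bound of the Wigner transform at `v₁`
-/

set_option autoImplicit false

open scoped ComplexConjugate Matrix
open Complex

namespace Pool.Agent.CMH.WB2

open Pool.Agent.CMH.W2 (H H_conj H_smul_left H_add_left)

noncomputable section

/-- sum of the absolute values -/
def n1 (x : Fin 3 → ℂ) : ℝ := ∑ l, ‖x l‖

/-- sum of the squares -/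
def n2 (x : Fin 3 → ℂ) : ℝ := ∑ l, ‖x l‖ ^ 2

theorem n1_nonneg (x : Fin 3 → ℂ) : 0 ≤ n1 x := Finset.sum_nonneg fun _ _ => norm_nonneg _
theorem n2_nonneg (x : Fin 3 → ℂ) : 0 ≤ n2 x := Finset.sum_nonneg fun _ _ => sq_nonneg _

theorem n1_sq (x : Fin 3 → ℂ) : n1 x ^ 2 ≤ 3 * n2 x := by
  simp only [n1, n2, Fin.sum_univ_three]
  nlinarith [sq_nonneg (‖x 0‖ - ‖x 1‖), sq_nonneg (‖x 0‖ - ‖x 2‖), sq_nonneg (‖x 1‖ - ‖x 2‖)]

theorem norm_H_le (k : Fin 3 → ℝ) (x z : Fin 3 → ℂ) :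
    ‖H k x z‖ ≤ (∑ l, |k l|) * (n1 x * n1 z) := by
  have h1 : ‖H k x z‖ ≤ ∑ l, |k l| * (‖x l‖ * ‖z l‖) := by
    refine (norm_sum_le _ _).trans (Finset.sum_le_sum fun l _ => ?_)
    rw [norm_mul, norm_mul, Complex.norm_real, RCLike.norm_conj, Real.norm_eq_abs, mul_assoc]
  refine h1.trans ?_
  rw [Finset.sum_mul]
  refine Finset.sum_le_sum fun l _ => mul_le_mul_of_nonneg_left ?_ (abs_nonneg _)
  have hx : ‖x l‖ ≤ n1 x := Finset.single_le_sum (f := fun l => ‖x l‖)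
    (fun _ _ => norm_nonneg _) (Finset.mem_univ l)
  have hz : ‖z l‖ ≤ n1 z := Finset.single_le_sum (f := fun l => ‖z l‖)
    (fun _ _ => norm_nonneg _) (Finset.mem_univ l)
  exact mul_le_mul hx hz (norm_nonneg _) (n1_nonneg _)

theorem n1_prj_le (k : Fin 3 → ℝ) (p x : Fin 3 → ℂ) :
    n1 (W2.prj k p x) ≤ (1 + (∑ l, |k l|) * n1 p ^ 2 / ‖H k p p‖) * n1 x := by
  have h1 : n1 (W2.prj k p x) ≤ n1 x + ‖H k x p / H k p p‖ * n1 p := by
    simp only [n1, W2.prj, Pi.sub_apply, Pi.smul_apply, smul_eq_mul, Finset.mul_sum]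
    rw [← Finset.sum_add_distrib]
    refine Finset.sum_le_sum fun l _ => ?_
    refine (norm_sub_le _ _).trans ?_
    rw [norm_mul]
  have h2 : ‖H k x p / H k p p‖ ≤ (∑ l, |k l|) * (n1 x * n1 p) / ‖H k p p‖ := by
    rw [norm_div]
    exact div_le_div_of_nonneg_right (norm_H_le k x p) (norm_nonneg _)
  calc n1 (W2.prj k p x) ≤ n1 x + ‖H k x p / H k p p‖ * n1 p := h1
    _ ≤ n1 x + (∑ l, |k l|) * (n1 x * n1 p) / ‖H k p p‖ * n1 p :=
        add_le_add le_rfl (mul_le_mul_of_nonneg_right h2 (n1_nonneg _))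
    _ = _ := by ring

/-- two-term Cauchy-Schwarz with weights -/
theorem cs2 {k0 k1 : ℝ} (h0 : 0 < k0) (h1 : 0 < k1) (u0 u1 y0 y1 : ℂ) :
    ‖(k0 : ℂ) * u0 * conj y0 + (k1 : ℂ) * u1 * conj y1‖ ^ 2 ≤
      (k0 * ‖u0‖ ^ 2 + k1 * ‖u1‖ ^ 2) * (k0 * ‖y0‖ ^ 2 + k1 * ‖y1‖ ^ 2) := by
  have e1 : ‖(k0 : ℂ) * u0 * conj y0 + (k1 : ℂ) * u1 * conj y1‖ ≤
      k0 * (‖u0‖ * ‖y0‖) + k1 * (‖u1‖ * ‖y1‖) := by
    refine (norm_add_le _ _).trans (le_of_eq ?_)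
    rw [norm_mul, norm_mul, norm_mul, norm_mul, RCLike.norm_conj, RCLike.norm_conj,
      Complex.norm_real, Complex.norm_real, Real.norm_eq_abs, Real.norm_eq_abs, abs_of_pos h0,
      abs_of_pos h1]
    ring
  have e2 : 0 ≤ ‖(k0 : ℂ) * u0 * conj y0 + (k1 : ℂ) * u1 * conj y1‖ := norm_nonneg _
  have e3 : ‖(k0 : ℂ) * u0 * conj y0 + (k1 : ℂ) * u1 * conj y1‖ ^ 2 ≤
      (k0 * (‖u0‖ * ‖y0‖) + k1 * (‖u1‖ * ‖y1‖)) ^ 2 := pow_le_pow_left₀ e2 e1 2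
  refine e3.trans ?_
  nlinarith [mul_nonneg (mul_nonneg h0.le h1.le) (sq_nonneg (‖u0‖ * ‖y1‖ - ‖u1‖ * ‖y0‖))]

/-- the positive definite hermitian form attached to a point of the ball -/
theorem lower {k : Fin 3 → ℝ} (h0 : 0 < k 0) (h1 : 0 < k 1) (h2 : k 2 < 0) {y : Fin 2 → ℂ}
    (hy : y ∈ ball k) : ∃ c : ℝ, 0 < c ∧ ∀ lam : Fin 3 → ℂ,
      c * n2 lam ≤ (H k lam lam - 2 * H k lam (hat y) * conj (H k lam (hat y)) /
        H k (hat y) (hat y)).re := by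
  set p : Fin 3 → ℂ := hat y with hp
  set N : ℝ := -(k 0 * ‖y 0‖ ^ 2 + k 1 * ‖y 1‖ ^ 2 + k 2) with hN
  have hyb : k 0 * ‖y 0‖ ^ 2 + k 1 * ‖y 1‖ ^ 2 + k 2 < 0 := hy
  have hN0 : 0 < N := by rw [hN]; linarith
  set κ : ℝ := -k 2 with hκ
  have hκ0 : 0 < κ := by rw [hκ]; linarith
  have hpp : H k p p = ((-N : ℝ) : ℂ) := by
    rw [hp, hN]
    simp only [H, hat, Fin.sum_univ_three, Matrix.cons_val_zero, Matrix.cons_val_one,
      Matrix.cons_val]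
    rw [mul_assoc, mul_assoc, Complex.mul_conj, Complex.mul_conj, Complex.normSq_eq_norm_sq,
      Complex.normSq_eq_norm_sq]
    push_cast
    simp
  have hpp0 : H k p p ≠ 0 := by
    rw [hpp]
    exact_mod_cast (by linarith : (-N) < 0).ne
  set S : ℝ := 1 / k 0 + 1 / k 1 + 1 / κ with hS
  set T : ℝ := ‖y 0‖ ^ 2 + ‖y 1‖ ^ 2 + 1 with hT
  have hS0 : 0 < S := by positivity
  have hT0 : 0 < T := by positivity
  set M : ℝ := 2 * S * κ / N + 2 * T / N with hM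
  have hM0 : 0 < M := by positivity
  refine ⟨1 / M, by positivity, fun lam => ?_⟩
  set q : ℂ := H k lam p / H k p p with hq
  set u : Fin 3 → ℂ := lam - q • p with hu
  have hlp : H k lam p = q * ((-N : ℝ) : ℂ) := by
    rw [hq, ← hpp, div_mul_cancel₀ _ hpp0]
  have hup : H k u p = 0 := by
    have : u = lam + (-q) • p := by rw [hu, neg_smul]; rfl
    rw [this, H_add_left, H_smul_left, hlp, hpp]
    ring
  have hlam : lam = u + q • p := by rw [hu]; abel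
  -- the value of the form
  have hval : (H k lam lam - 2 * H k lam p * conj (H k lam p) / H k p p) =
      H k u u + ((‖q‖ ^ 2 * N : ℝ) : ℂ) := by
    have e1 : H k lam lam = H k u u + (q * conj q) * H k p p := by
      have hpu : H k p u = 0 := by rw [← H_conj, hup, map_zero]
      conv_lhs => rw [hlam]
      rw [H_add_left, H_smul_left, W2.H_add_right, W2.H_add_right, W2.H_smul_right,
        W2.H_smul_right, hup, hpu]
      ring
    have e2 : (q * conj q : ℂ) = ((‖q‖ ^ 2 : ℝ) : ℂ) := by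
      rw [Complex.mul_conj, Complex.normSq_eq_norm_sq]
    rw [e1, hlp, hpp, map_mul, Complex.conj_ofReal]
    have hNc : ((-N : ℝ) : ℂ) ≠ 0 := by rw [← hpp]; exact hpp0
    have e3 : 2 * (q * ((-N : ℝ) : ℂ)) * (conj q * ((-N : ℝ) : ℂ)) / ((-N : ℝ) : ℂ) =
        2 * (q * conj q) * ((-N : ℝ) : ℂ) := by
      field_simp
    rw [e3, e2]
    push_cast
    ring
  rw [hval]
  -- lower bound for `H u u`
  set P : ℝ := k 0 * ‖u 0‖ ^ 2 + k 1 * ‖u 1‖ ^ 2 with hP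
  have hP0 : 0 ≤ P := by positivity
  have huu : H k u u = ((P - κ * ‖u 2‖ ^ 2 : ℝ) : ℂ) := by
    simp only [H, Fin.sum_univ_three]
    rw [mul_assoc, mul_assoc, mul_assoc, Complex.mul_conj, Complex.mul_conj, Complex.mul_conj,
      Complex.normSq_eq_norm_sq, Complex.normSq_eq_norm_sq, Complex.normSq_eq_norm_sq, hP, hκ]
    push_cast
    ring
  have hu2 : (κ : ℂ) * u 2 = (k 0 : ℂ) * u 0 * conj (y 0) + (k 1 : ℂ) * u 1 * conj (y 1) := by
    have h := hup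
    rw [hp] at h
    simp only [H, hat, Fin.sum_univ_three, Matrix.cons_val_zero, Matrix.cons_val_one,
      Matrix.cons_val, map_one, mul_one] at h
    have h' : (κ : ℂ) = -(k 2 : ℂ) := by rw [hκ]; push_cast; ring
    rw [h']
    linear_combination -h
  have hu2n : κ ^ 2 * ‖u 2‖ ^ 2 ≤ P * (κ - N) := by
    have e := cs2 h0 h1 (u 0) (u 1) (y 0) (y 1)
    rw [← hu2, norm_mul, Complex.norm_real, Real.norm_eq_abs, abs_of_pos hκ0] at e
    have e2 : k 0 * ‖y 0‖ ^ 2 + k 1 * ‖y 1‖ ^ 2 = κ - N := by rw [hκ, hN]; ring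
    rw [e2] at e
    calc κ ^ 2 * ‖u 2‖ ^ 2 = (κ * ‖u 2‖) ^ 2 := by ring
      _ ≤ _ := e
  have hu2' : κ * ‖u 2‖ ^ 2 ≤ P - P * N / κ := by
    have e : κ * (κ * ‖u 2‖ ^ 2) ≤ κ * (P - P * N / κ) := by
      have e3 : κ * (P - P * N / κ) = P * (κ - N) := by field_simp
      rw [e3]; nlinarith [hu2n]
    exact le_of_mul_le_mul_left e hκ0
  have hlow : P * N / κ ≤ P - κ * ‖u 2‖ ^ 2 := by linarith
  -- upper bound for `n2 lam`
  have hb0 : ‖u 0‖ ^ 2 ≤ P * (1 / k 0) := by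
    rw [mul_one_div, le_div_iff₀ h0, hP]
    nlinarith [mul_nonneg h1.le (sq_nonneg ‖u 1‖)]
  have hb1 : ‖u 1‖ ^ 2 ≤ P * (1 / k 1) := by
    rw [mul_one_div, le_div_iff₀ h1, hP]
    nlinarith [mul_nonneg h0.le (sq_nonneg ‖u 0‖)]
  have hb2 : ‖u 2‖ ^ 2 ≤ P * (1 / κ) := by
    rw [mul_one_div, le_div_iff₀ hκ0]
    have : 0 ≤ P * N / κ := by positivity
    nlinarith
  have hpl : ∀ l : Fin 3, ‖lam l‖ ^ 2 ≤ 2 * ‖u l‖ ^ 2 + 2 * (‖q‖ ^ 2 * ‖p l‖ ^ 2) := by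
    intro l
    have e : lam l = u l + q * p l := by
      conv_lhs => rw [hlam]
      rfl
    have e2 : ‖lam l‖ ≤ ‖u l‖ + ‖q‖ * ‖p l‖ := by
      rw [e]
      exact (norm_add_le _ _).trans (by rw [norm_mul])
    have e3 : ‖lam l‖ ^ 2 ≤ (‖u l‖ + ‖q‖ * ‖p l‖) ^ 2 := pow_le_pow_left₀ (norm_nonneg _) e2 2
    nlinarith [sq_nonneg (‖u l‖ - ‖q‖ * ‖p l‖)]
  have hT' : ‖p 0‖ ^ 2 + ‖p 1‖ ^ 2 + ‖p 2‖ ^ 2 = T := by
    rw [hp, hT]
    simp [hat]
  have hn : n2 lam ≤ 2 * (P * S) + 2 * (‖q‖ ^ 2 * T) := by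
    have e : n2 lam = ‖lam 0‖ ^ 2 + ‖lam 1‖ ^ 2 + ‖lam 2‖ ^ 2 := by
      simp only [n2, Fin.sum_univ_three]
    have a0 := hpl 0
    have a1 := hpl 1
    have a2 := hpl 2
    have e5 : ‖q‖ ^ 2 * (‖p 0‖ ^ 2 + ‖p 1‖ ^ 2 + ‖p 2‖ ^ 2) =
        ‖q‖ ^ 2 * ‖p 0‖ ^ 2 + ‖q‖ ^ 2 * ‖p 1‖ ^ 2 + ‖q‖ ^ 2 * ‖p 2‖ ^ 2 := by ring
    have e6 : P * (1 / k 0 + 1 / k 1 + 1 / κ) = P * (1 / k 0) + P * (1 / k 1) + P * (1 / κ) := by
      ring
    rw [e, ← hT', hS, e5, e6]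
    linarith
  have hre : (H k u u + ((‖q‖ ^ 2 * N : ℝ) : ℂ)).re = (P - κ * ‖u 2‖ ^ 2) + ‖q‖ ^ 2 * N := by
    rw [huu, ← Complex.ofReal_add, Complex.ofReal_re]
  rw [hre]
  have hfin : n2 lam ≤ M * ((P - κ * ‖u 2‖ ^ 2) + ‖q‖ ^ 2 * N) := by
    have a1 : 2 * (P * S) ≤ 2 * S * κ / N * (P - κ * ‖u 2‖ ^ 2) := by
      have : 2 * (P * S) = 2 * S * κ / N * (P * N / κ) := by field_simp
      rw [this]
      exact mul_le_mul_of_nonneg_left hlow (by positivity)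
    have a2 : 2 * (‖q‖ ^ 2 * T) = 2 * T / N * (‖q‖ ^ 2 * N) := by field_simp
    have a3 : 0 ≤ P - κ * ‖u 2‖ ^ 2 := le_trans (by positivity) hlow
    have a4 : 0 ≤ ‖q‖ ^ 2 * N := by positivity
    have a5 : 0 ≤ 2 * T / N * (P - κ * ‖u 2‖ ^ 2) := by positivity
    have a6 : 0 ≤ 2 * S * κ / N * (‖q‖ ^ 2 * N) := by positivity
    calc n2 lam ≤ 2 * (P * S) + 2 * (‖q‖ ^ 2 * T) := hn
      _ ≤ 2 * S * κ / N * (P - κ * ‖u 2‖ ^ 2) + 2 * T / N * (‖q‖ ^ 2 * N) := by rw [← a2]; linarith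
      _ ≤ M * ((P - κ * ‖u 2‖ ^ 2) + ‖q‖ ^ 2 * N) := by rw [hM]; nlinarith
  rw [one_div, inv_mul_le_iff₀ hM0]
  exact hfin

/-- the bound of the closed form -/
theorem row_bound {k : Fin 3 → ℝ} (h0 : 0 < k 0) (h1 : 0 < k 1) (h2 : k 2 < 0) {α : ℝ}
    (hα : 0 < α) {y : Fin 2 → ℂ} (hy : y ∈ ball k) (u u' : Fin 3 → ℂ) :
    ∃ C c : ℝ, 0 < C ∧ 0 < c ∧ ∀ lam : Fin 3 → ℂ,
      ‖Wig.KE k α (hat y) lam * Wig.KT k α (hat y) lam u u'‖ ≤ C * Real.exp (-c * n2 lam) := by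
  obtain ⟨c, hc, hlow⟩ := lower h0 h1 h2 hy
  set p : Fin 3 → ℂ := hat y with hp
  set κ : ℝ := Real.pi * α / 2 * c with hκ
  have hκ0 : 0 < κ := by positivity
  set c2 : ℝ := 1 + (∑ l, |k l|) * n1 p ^ 2 / ‖H k p p‖ with hc2
  have hks : 0 ≤ ∑ l, |k l| := Finset.sum_nonneg fun _ _ => abs_nonneg _
  have hc20 : 0 ≤ c2 := by positivity
  set A : ℝ := ‖(1 : ℂ) / H k p p‖ * (‖H k (W2.prj k p u) (W2.prj k p u')‖ /
    ‖((4 * Real.pi * α : ℝ) : ℂ)‖) with hA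
  set B : ℝ := ‖(1 : ℂ) / H k p p‖ * (((∑ l, |k l|) * (n1 (W2.prj k p u) * c2)) *
    ((∑ l, |k l|) * (c2 * n1 (W2.prj k p u'))) * 3) with hB
  have hA0 : 0 ≤ A := by positivity
  have hB0 : 0 ≤ B := by
    have := n1_nonneg (W2.prj k p u)
    have := n1_nonneg (W2.prj k p u')
    positivity
  refine ⟨A + B * (2 / κ) + 1, κ / 2, by positivity, by positivity, fun lam => ?_⟩
  have hKE : ‖Wig.KE k α p lam‖ ≤ Real.exp (-κ * n2 lam) := by
    rw [Wig.KE, Complex.norm_exp]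
    refine Real.exp_le_exp.mpr ?_
    have e : (-((Real.pi * α / 2 : ℝ) : ℂ) *
        (Wig.hh k lam lam - 2 * Wig.hh k lam p * conj (Wig.hh k lam p) / Wig.hh k p p)).re =
        -(Real.pi * α / 2) *
        (H k lam lam - 2 * H k lam p * conj (H k lam p) / H k p p).re := by
      rw [← Complex.ofReal_neg, Complex.re_ofReal_mul]
      rfl
    rw [e, hκ]
    have h5 : 0 < Real.pi * α / 2 := by positivity
    nlinarith [mul_le_mul_of_nonneg_left (hlow lam) h5.le]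
  have hKT : ‖Wig.KT k α p lam u u'‖ ≤ A + B * n2 lam := by
    have e1 : ‖H k (W2.prj k p u) (W2.prj k p lam)‖ ≤
        (∑ l, |k l|) * (n1 (W2.prj k p u) * c2) * n1 lam := by
      refine (norm_H_le k _ _).trans ?_
      rw [mul_assoc, mul_assoc]
      exact mul_le_mul_of_nonneg_left (mul_le_mul_of_nonneg_left (n1_prj_le k p lam)
        (n1_nonneg _)) hks
    have e2 : ‖H k (W2.prj k p lam) (W2.prj k p u')‖ ≤
        (∑ l, |k l|) * (c2 * n1 (W2.prj k p u')) * n1 lam := by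
      refine (norm_H_le k _ _).trans ?_
      have := mul_le_mul_of_nonneg_right (n1_prj_le k p lam) (n1_nonneg (W2.prj k p u'))
      calc (∑ l, |k l|) * (n1 (W2.prj k p lam) * n1 (W2.prj k p u'))
          ≤ (∑ l, |k l|) * (c2 * n1 lam * n1 (W2.prj k p u')) :=
            mul_le_mul_of_nonneg_left this hks
        _ = _ := by ring
    have e3 := n1_sq lam
    have e4 : 0 ≤ n1 lam := n1_nonneg _
    have g1 : 0 ≤ (∑ l, |k l|) * (n1 (W2.prj k p u) * c2) := by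
      have := n1_nonneg (W2.prj k p u); positivity
    have g2 : 0 ≤ (∑ l, |k l|) * (c2 * n1 (W2.prj k p u')) := by
      have := n1_nonneg (W2.prj k p u'); positivity
    have e5 : ‖H k (W2.prj k p u) (W2.prj k p lam) * H k (W2.prj k p lam) (W2.prj k p u')‖ ≤
        ((∑ l, |k l|) * (n1 (W2.prj k p u) * c2)) *
        ((∑ l, |k l|) * (c2 * n1 (W2.prj k p u'))) * 3 * n2 lam := by
      rw [norm_mul]
      calc ‖H k (W2.prj k p u) (W2.prj k p lam)‖ * ‖H k (W2.prj k p lam) (W2.prj k p u')‖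
          ≤ ((∑ l, |k l|) * (n1 (W2.prj k p u) * c2) * n1 lam) *
            ((∑ l, |k l|) * (c2 * n1 (W2.prj k p u')) * n1 lam) :=
            mul_le_mul e1 e2 (norm_nonneg _) (by positivity)
        _ = ((∑ l, |k l|) * (n1 (W2.prj k p u) * c2)) *
            ((∑ l, |k l|) * (c2 * n1 (W2.prj k p u'))) * n1 lam ^ 2 := by ring
        _ ≤ ((∑ l, |k l|) * (n1 (W2.prj k p u) * c2)) *
            ((∑ l, |k l|) * (c2 * n1 (W2.prj k p u'))) * (3 * n2 lam) :=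
            mul_le_mul_of_nonneg_left e3 (mul_nonneg g1 g2)
        _ = _ := by ring
    have e6 : ‖Wig.KT k α p lam u u'‖ ≤ ‖(1 : ℂ) / H k p p‖ *
        (‖H k (W2.prj k p u) (W2.prj k p u') / ((4 * Real.pi * α : ℝ) : ℂ)‖ +
        ‖H k (W2.prj k p u) (W2.prj k p lam) * H k (W2.prj k p lam) (W2.prj k p u') / 4‖) := by
      have : Wig.KT k α p lam u u' = -(1 / H k p p) *
        (H k (W2.prj k p u) (W2.prj k p u') / ((4 * Real.pi * α : ℝ) : ℂ) -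
        H k (W2.prj k p u) (W2.prj k p lam) * H k (W2.prj k p lam) (W2.prj k p u') / 4) := rfl
      rw [this, norm_mul, norm_neg]
      exact mul_le_mul_of_nonneg_left (norm_sub_le _ _) (norm_nonneg _)
    refine e6.trans ?_
    rw [mul_add, norm_div (H k (W2.prj k p u) (W2.prj k p u'))]
    have e7 : ‖H k (W2.prj k p u) (W2.prj k p lam) * H k (W2.prj k p lam) (W2.prj k p u') / 4‖ ≤
        ((∑ l, |k l|) * (n1 (W2.prj k p u) * c2)) *
        ((∑ l, |k l|) * (c2 * n1 (W2.prj k p u'))) * 3 * n2 lam := by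
      rw [norm_div]
      have h4 : ‖(4 : ℂ)‖ = 4 := by norm_num
      rw [h4]
      refine (div_le_self (norm_nonneg _) (by norm_num)).trans e5
    have e8 := mul_le_mul_of_nonneg_left e7 (norm_nonneg ((1 : ℂ) / H k p p))
    calc _ ≤ A + ‖(1 : ℂ) / H k p p‖ * (((∑ l, |k l|) * (n1 (W2.prj k p u) * c2)) *
        ((∑ l, |k l|) * (c2 * n1 (W2.prj k p u'))) * 3 * n2 lam) := add_le_add le_rfl e8
      _ = A + B * n2 lam := by rw [hB]; ring
  have hn2 := n2_nonneg lam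
  have hab := WB1.absorb (u := n2 lam) hκ0
  have hmono : Real.exp (-κ * n2 lam) ≤ Real.exp (-(κ / 2) * n2 lam) := by
    refine Real.exp_le_exp.mpr ?_
    nlinarith
  have hpos : 0 < Real.exp (-(κ / 2) * n2 lam) := Real.exp_pos _
  calc ‖Wig.KE k α p lam * Wig.KT k α p lam u u'‖
      ≤ Real.exp (-κ * n2 lam) * (A + B * n2 lam) := by
        rw [norm_mul]
        exact mul_le_mul hKE hKT (norm_nonneg _) (Real.exp_pos _).le
    _ = A * Real.exp (-κ * n2 lam) + B * (n2 lam * Real.exp (-κ * n2 lam)) := by ring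
    _ ≤ A * Real.exp (-(κ / 2) * n2 lam) + B * (2 / κ * Real.exp (-(κ / 2) * n2 lam)) :=
        add_le_add (mul_le_mul_of_nonneg_left hmono hA0) (mul_le_mul_of_nonneg_left hab hB0)
    _ ≤ (A + B * (2 / κ) + 1) * Real.exp (-(κ / 2) * n2 lam) := by nlinarith

/-- the bound of `K1` -/
theorem K1_bound (h3 : Wig.WB3) {k : Fin 3 → ℝ} (h0 : 0 < k 0) (h1 : 0 < k 1) (h2 : k 2 < 0)
    {α : ℝ} (hα : 0 < α) {y : Fin 2 → ℂ} (hy : y ∈ ball k) (j l : Fin 2) :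
    ∃ C c : ℝ, 0 < C ∧ 0 < c ∧ ∀ s' r : Fin 3 → ℝ,
      ‖Wig.K1 k α y j l s' r‖ ≤ C * Real.exp (-c * ((∑ i, s' i ^ 2) + ∑ i, r i ^ 2)) := by
  obtain ⟨C, c, hC, hc, hb⟩ := row_bound h0 h1 h2 hα hy (Wig.ej j) (Wig.ej l)
  have hk : ∀ i, k i ≠ 0 := by
    intro i
    fin_cases i
    · exact h0.ne'
    · exact h1.ne'
    · exact h2.ne
  set Q : ℝ := 1 + α ^ 2 * ∑ i, k i ^ 2 with hQ
  have hks : 0 ≤ ∑ i, k i ^ 2 := Finset.sum_nonneg fun _ _ => sq_nonneg _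
  have hQ0 : 0 < Q := by positivity
  have hQ1 : 1 ≤ Q := by rw [hQ]; nlinarith [mul_nonneg (sq_nonneg α) hks]
  set K0 : ℝ := 1 / ((2 * α) * √(2 * α) * √(-(k 0 * k 1 * k 2))) with hK0
  have hK0n : 0 ≤ K0 := by positivity
  refine ⟨(K0 + 1) * C, c / Q, by positivity, by positivity, fun s' r => ?_⟩
  set x : Fin 3 → ℝ := fun i => r i / (α * k i) with hx
  have hr : r = fun i => α * k i * x i := by
    funext i
    have := hk i
    simp only [hx]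
    field_simp
  have key := h3 k α y j l s' x h0 h1 h2 hα hy
  rw [← hr] at key
  rw [key]
  have hlam : n2 (fun i => (s' i : ℂ) + I * (x i : ℂ)) = (∑ i, s' i ^ 2) + ∑ i, x i ^ 2 := by
    simp only [n2]
    rw [← Finset.sum_add_distrib]
    refine Finset.sum_congr rfl fun i _ => ?_
    rw [← Complex.normSq_eq_norm_sq, Complex.normSq_apply]
    simp
    ring
  have hb' := hb (fun i => (s' i : ℂ) + I * (x i : ℂ))
  rw [hlam] at hb'
  have hrx : (∑ i, s' i ^ 2) + ∑ i, r i ^ 2 ≤ Q * ((∑ i, s' i ^ 2) + ∑ i, x i ^ 2) := by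
    have e1 : ∑ i, r i ^ 2 ≤ (α ^ 2 * ∑ i, k i ^ 2) * ∑ i, x i ^ 2 := by
      rw [Finset.mul_sum]
      refine Finset.sum_le_sum fun i _ => ?_
      have e2 : r i ^ 2 = (α ^ 2 * k i ^ 2) * x i ^ 2 := by
        have := congrFun hr i
        rw [this]; ring
      rw [e2]
      refine mul_le_mul_of_nonneg_right (mul_le_mul_of_nonneg_left ?_ (sq_nonneg _)) (sq_nonneg _)
      exact Finset.single_le_sum (f := fun i => k i ^ 2) (fun _ _ => sq_nonneg _)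
        (Finset.mem_univ i)
    have e3 : 0 ≤ ∑ i, s' i ^ 2 := Finset.sum_nonneg fun _ _ => sq_nonneg _
    have e4 : 0 ≤ ∑ i, x i ^ 2 := Finset.sum_nonneg fun _ _ => sq_nonneg _
    rw [hQ]
    nlinarith [mul_nonneg (mul_nonneg (sq_nonneg α) hks) e3]
  have hexp : Real.exp (-c * ((∑ i, s' i ^ 2) + ∑ i, x i ^ 2)) ≤
      Real.exp (-(c / Q) * ((∑ i, s' i ^ 2) + ∑ i, r i ^ 2)) := by
    refine Real.exp_le_exp.mpr ?_
    have : c / Q * ((∑ i, s' i ^ 2) + ∑ i, r i ^ 2) ≤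
        c / Q * (Q * ((∑ i, s' i ^ 2) + ∑ i, x i ^ 2)) :=
      mul_le_mul_of_nonneg_left hrx (by positivity)
    have e : c / Q * (Q * ((∑ i, s' i ^ 2) + ∑ i, x i ^ 2)) =
        c * ((∑ i, s' i ^ 2) + ∑ i, x i ^ 2) := by field_simp
    rw [e] at this
    linarith
  rw [mul_assoc, norm_mul, Complex.norm_real, Real.norm_eq_abs, abs_of_nonneg hK0n]
  have hpos := Real.exp_pos (-(c / Q) * ((∑ i, s' i ^ 2) + ∑ i, r i ^ 2))
  calc K0 * ‖Wig.KE k α (hat y) (fun i => (s' i : ℂ) + I * (x i : ℂ)) *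
        Wig.KT k α (hat y) (fun i => (s' i : ℂ) + I * (x i : ℂ)) (Wig.ej j) (Wig.ej l)‖
      ≤ K0 * (C * Real.exp (-c * ((∑ i, s' i ^ 2) + ∑ i, x i ^ 2))) :=
        mul_le_mul_of_nonneg_left hb' hK0n
    _ ≤ K0 * (C * Real.exp (-(c / Q) * ((∑ i, s' i ^ 2) + ∑ i, r i ^ 2))) :=
        mul_le_mul_of_nonneg_left (mul_le_mul_of_nonneg_left hexp hC.le) hK0n
    _ ≤ (K0 + 1) * C * Real.exp (-(c / Q) * ((∑ i, s' i ^ 2) + ∑ i, r i ^ 2)) := by
        nlinarith [mul_pos hC hpos]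

/-- row WB2 -/
theorem wb2 (h3 : Wig.WB3) (h4 : Wig.WB4) : Wig.WB2 := by
  intro k δ a y h0 h1 h2 hδ ha hy
  have hb : ∀ (i j l : Fin 2), ∃ C c : ℝ, 0 < C ∧ 0 < c ∧ ∀ s' r : Fin 3 → ℝ,
      ‖Wig.K1 k (a i / δ) y j l s' r‖ ≤
        C * Real.exp (-c * ((∑ i, s' i ^ 2) + ∑ i, r i ^ 2)) :=
    fun i j l => K1_bound h3 h0 h1 h2 (div_pos (ha i) hδ) hy j l
  choose C c hC hc hb using hb
  -- common constants
  obtain ⟨K, hK0, hK⟩ : ∃ K : ℝ, 0 < K ∧ ∀ i j l, C i j l ≤ K := by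
    refine ⟨∑ i, ∑ j, ∑ l, C i j l, ?_, fun i j l => ?_⟩
    · exact Finset.sum_pos (fun i _ => Finset.sum_pos (fun j _ => Finset.sum_pos
        (fun l _ => hC i j l) ⟨0, Finset.mem_univ _⟩) ⟨0, Finset.mem_univ _⟩)
        ⟨0, Finset.mem_univ _⟩
    · refine le_trans ?_ (Finset.single_le_sum (f := fun i => ∑ j, ∑ l, C i j l)
        (fun i _ => Finset.sum_nonneg fun j _ => Finset.sum_nonneg fun l _ => (hC i j l).le)
        (Finset.mem_univ i))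
      refine le_trans ?_ (Finset.single_le_sum (f := fun j => ∑ l, C i j l)
        (fun j _ => Finset.sum_nonneg fun l _ => (hC i j l).le) (Finset.mem_univ j))
      exact Finset.single_le_sum (f := fun l => C i j l) (fun l _ => (hC i j l).le)
        (Finset.mem_univ l)
  obtain ⟨d, hd0, hd⟩ : ∃ d : ℝ, 0 < d ∧ ∀ i j l, d ≤ c i j l := by
    have hne : (Finset.univ : Finset (Fin 2 × Fin 2 × Fin 2)).Nonempty := ⟨(0, 0, 0), by simp⟩
    obtain ⟨z, -, hz⟩ := Finset.exists_min_image Finset.univ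
      (fun z : Fin 2 × Fin 2 × Fin 2 => c z.1 z.2.1 z.2.2) hne
    exact ⟨c z.1 z.2.1 z.2.2, hc _ _ _, fun i j l => hz (i, j, l) (Finset.mem_univ _)⟩
  have hb' : ∀ (i j l : Fin 2) (s' r : Fin 3 → ℝ), ‖Wig.K1 k (a i / δ) y j l s' r‖ ≤
      K * Real.exp (-d * ((∑ i, s' i ^ 2) + ∑ i, r i ^ 2)) := by
    intro i j l s' r
    refine (hb i j l s' r).trans ?_
    have hS : 0 ≤ (∑ i, s' i ^ 2) + ∑ i, r i ^ 2 :=
      add_nonneg (Finset.sum_nonneg fun _ _ => sq_nonneg _)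
        (Finset.sum_nonneg fun _ _ => sq_nonneg _)
    refine mul_le_mul (hK i j l) (Real.exp_le_exp.mpr ?_) (Real.exp_pos _).le hK0.le
    nlinarith [mul_le_mul_of_nonneg_right (hd i j l) hS]
  refine ⟨4 * K ^ 2, d, by positivity, hd0, fun σ r => ?_⟩
  rw [h4 k δ a y h0 h1 h2 hδ ha hy σ r]
  have hprod : ∀ j l j' l' : Fin 2, ‖Wig.K1 k (a 0 / δ) y j l (σ 0) (r 0) *
      Wig.K1 k (a 1 / δ) y j' l' (σ 1) (r 1)‖ ≤
      K ^ 2 * Real.exp (-d * ((∑ i, ∑ l, σ i l ^ 2) + ∑ i, ∑ l, r i l ^ 2)) := by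
    intro j l j' l'
    rw [norm_mul]
    refine (mul_le_mul (hb' 0 j l (σ 0) (r 0)) (hb' 1 j' l' (σ 1) (r 1)) (norm_nonneg _)
      (by positivity)).trans (le_of_eq ?_)
    rw [Fin.sum_univ_two, Fin.sum_univ_two]
    rw [show K * Real.exp (-d * ((∑ i, σ 0 i ^ 2) + ∑ i, r 0 i ^ 2)) *
      (K * Real.exp (-d * ((∑ i, σ 1 i ^ 2) + ∑ i, r 1 i ^ 2))) =
      K ^ 2 * (Real.exp (-d * ((∑ i, σ 0 i ^ 2) + ∑ i, r 0 i ^ 2)) *
      Real.exp (-d * ((∑ i, σ 1 i ^ 2) + ∑ i, r 1 i ^ 2))) by ring, ← Real.exp_add]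
    congr 2
    ring
  have t1 := hprod 0 0 1 1
  have t2 := hprod 0 1 1 0
  have t3 := hprod 1 0 0 1
  have t4 := hprod 1 1 0 0
  set E := Real.exp (-d * ((∑ i, ∑ l, σ i l ^ 2) + ∑ i, ∑ l, r i l ^ 2))
  refine (norm_add_le _ _).trans ?_
  refine (add_le_add ((norm_sub_le _ _).trans (add_le_add (norm_sub_le _ _) le_rfl)) le_rfl).trans ?_
  linarith

end

end Pool.Agent.CMH.WB2
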