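import Pool.Agent.Lib.CMH.WigDefs
import Pool.Agent.Lib.CMH.Est

/-!
Tank CMH (MP_938ce2_ag), helper5: row WB4 of WIG, product structure at `v₁`.
-/

set_option autoImplicit false

open scoped ComplexConjugate Matrix
open Complex MeasureTheory

namespace Pool.Agent.CMH.Wig

noncomputable section

/-- one row of the function at `v₁` -/
def Wb4.g (k : Fin 3 → ℝ) (α : ℝ) (y : Fin 2 → ℂ) (j : Fin 2) (x : Fin 3 → ℝ) : ℂ :=
  exp (-(Real.pi : ℂ) * (α : ℂ) * (((∑ i, k i * x i ^ 2 : ℝ) : ℂ) + 2 * s k x y ^ 2)) * ds k x j y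

/-- the integrand of one row -/
def Wb4.T (k : Fin 3 → ℝ) (α : ℝ) (y : Fin 2 → ℂ) (j l : Fin 2) (s' r : Fin 3 → ℝ)
    (m : Fin 3 → ℝ) : ℂ :=
  Wb4.g k α y j (fun i => m i + s' i / 2) * conj (Wb4.g k α y l (fun i => m i - s' i / 2)) *
    exp (-2 * Real.pi * I * ((∑ i, r i * m i : ℝ) : ℂ))

theorem Wb4.K1_eq (k : Fin 3 → ℝ) (α : ℝ) (y : Fin 2 → ℂ) (j l : Fin 2) (s' r : Fin 3 → ℝ) :
    K1 k α y j l s' r = ∫ m : Fin 3 → ℝ, Wb4.T k α y j l s' r m := rfl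

theorem Wb4.s_cont (k : Fin 3 → ℝ) (y : Fin 2 → ℂ) : Continuous (fun x : Fin 3 → ℝ => s k x y) := by
  unfold s pr
  fun_prop

theorem Wb4.ds_cont (k : Fin 3 → ℝ) (y : Fin 2 → ℂ) (j : Fin 2) :
    Continuous (fun x : Fin 3 → ℝ => ds k x j y) := by
  unfold ds pr
  fun_prop

theorem Wb4.g_cont (k : Fin 3 → ℝ) (α : ℝ) (y : Fin 2 → ℂ) (j : Fin 2) :
    Continuous (Wb4.g k α y j) := by
  unfold Wb4.g
  have h1 := Wb4.s_cont k y
  have h2 := Wb4.ds_cont k y j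
  fun_prop

theorem Wb4.T_cont (k : Fin 3 → ℝ) (α : ℝ) (y : Fin 2 → ℂ) (j l : Fin 2) (s' r : Fin 3 → ℝ) :
    Continuous (Wb4.T k α y j l s' r) := by
  unfold Wb4.T
  have h1 : Continuous fun m : Fin 3 → ℝ => Wb4.g k α y j (fun i => m i + s' i / 2) :=
    (Wb4.g_cont k α y j).comp (by fun_prop)
  have h2 : Continuous fun m : Fin 3 → ℝ => Wb4.g k α y l (fun i => m i - s' i / 2) :=
    (Wb4.g_cont k α y l).comp (by fun_prop)
  have h3 : Continuous fun m : Fin 3 → ℝ => conj (Wb4.g k α y l (fun i => m i - s' i / 2)) :=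
    Complex.continuous_conj.comp h2
  have h4 : Continuous fun m : Fin 3 → ℝ =>
      exp (-2 * Real.pi * I * ((∑ i, r i * m i : ℝ) : ℂ)) := by fun_prop
  exact (h1.mul h3).mul h4

theorem Wb4.g_le (k : Fin 3 → ℝ) (α : ℝ) (hα : 0 < α) (y : Fin 2 → ℂ) (j : Fin 2) (c c' : ℝ)
    (hE : ∀ x : Fin 3 → ℝ, c * ∑ j, x j ^ 2 ≤
      (((∑ j, k j * x j * x j : ℝ) : ℂ) + 2 * s k x y ^ 2).re)
    (hE' : ∀ (x : Fin 3 → ℝ) (j : Fin 2), ‖ds k x j y‖ ≤ c' * √(∑ j, x j ^ 2))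
    (x : Fin 3 → ℝ) :
    ‖Wb4.g k α y j x‖ ≤ Real.exp (-(Real.pi * α * c * ∑ j, x j ^ 2)) * (c' * √(∑ j, x j ^ 2)) := by
  rw [Wb4.g, norm_mul]
  apply mul_le_mul _ (hE' x j) (norm_nonneg _) (Real.exp_pos _).le
  rw [Complex.norm_exp, Real.exp_le_exp]
  have h1 : (-(Real.pi : ℂ) * (α : ℂ) * (((∑ i, k i * x i ^ 2 : ℝ) : ℂ) + 2 * s k x y ^ 2)).re =
      -(Real.pi * α * (((∑ j, k j * x j * x j : ℝ) : ℂ) + 2 * s k x y ^ 2).re) := by
    have h2 : -(Real.pi : ℂ) * (α : ℂ) = ((-(Real.pi * α) : ℝ) : ℂ) := by push_cast; ring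
    have h3 : (∑ i, k i * x i ^ 2 : ℝ) = ∑ j, k j * x j * x j :=
      Finset.sum_congr rfl (fun i _ => by ring)
    rw [h2, Complex.re_ofReal_mul, h3]
    ring
  rw [h1, neg_le_neg_iff]
  calc Real.pi * α * c * ∑ j, x j ^ 2 = (Real.pi * α) * (c * ∑ j, x j ^ 2) := by ring
    _ ≤ _ := mul_le_mul_of_nonneg_left (hE x) (by have := Real.pi_pos; positivity)

theorem Wb4.T_int (k : Fin 3 → ℝ) (h0 : 0 < k 0) (h1 : 0 < k 1) (h2 : k 2 < 0) (α : ℝ)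
    (hα : 0 < α) (y : Fin 2 → ℂ) (hy : y ∈ ball k) (j l : Fin 2) (s' r : Fin 3 → ℝ) :
    Integrable (Wb4.T k α y j l s' r) := by
  obtain ⟨_, _, _, _, hest⟩ := est k h0 h1 h2
  obtain ⟨c, hc, c', hc', hE0, hE0'⟩ := hest {y} isCompact_singleton
    (Set.singleton_subset_iff.mpr hy)
  have hE := hE0 y rfl
  have hE' := hE0' y rfl
  set β : ℝ := Real.pi * α * c with hβ
  have hβ0 : 0 < β := by have := Real.pi_pos; positivity
  set S : ℝ := ∑ i, s' i ^ 2 with hS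
  have hS0 : 0 ≤ S := Finset.sum_nonneg (fun _ _ => sq_nonneg _)
  have hgi : Integrable (fun m : Fin 3 → ℝ => (c' ^ 2 * (1 / β + S)) *
      ∏ i, Real.exp (-β * m i ^ 2)) := by
    apply Integrable.const_mul
    exact Integrable.fintype_prod (fun _ => integrable_exp_neg_mul_sq hβ0)
  refine hgi.mono' (Wb4.T_cont k α y j l s' r).aestronglyMeasurable (ae_of_all _ ?_)
  intro m
  have hexp : ‖exp (-2 * Real.pi * I * ((∑ i, r i * m i : ℝ) : ℂ))‖ = 1 := by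
    have : (-2 * Real.pi * I * ((∑ i, r i * m i : ℝ) : ℂ)) =
        ((-2 * Real.pi * (∑ i, r i * m i) : ℝ) : ℂ) * I := by push_cast; ring
    rw [this, Complex.norm_exp_ofReal_mul_I]
  rw [Wb4.T, norm_mul, norm_mul, hexp, mul_one, Complex.norm_conj]
  have ha := Wb4.g_le k α hα y j c c' hE hE' (fun i => m i + s' i / 2)
  have hb := Wb4.g_le k α hα y l c c' hE hE' (fun i => m i - s' i / 2)
  set P : ℝ := ∑ i, (m i + s' i / 2) ^ 2 with hP
  set Q : ℝ := ∑ i, (m i - s' i / 2) ^ 2 with hQ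
  set M : ℝ := ∑ i, m i ^ 2 with hM
  have hP0 : 0 ≤ P := Finset.sum_nonneg (fun _ _ => sq_nonneg _)
  have hQ0 : 0 ≤ Q := Finset.sum_nonneg (fun _ _ => sq_nonneg _)
  have hM0 : 0 ≤ M := Finset.sum_nonneg (fun _ _ => sq_nonneg _)
  have hPQ : P + Q = 2 * M + S / 2 := by
    rw [hP, hQ, hM, hS]
    simp only [Fin.sum_univ_three]
    ring
  have hprod : ∏ i, Real.exp (-β * m i ^ 2) = Real.exp (-(β * M)) := by
    rw [← Real.exp_sum, hM, Finset.mul_sum, ← Finset.sum_neg_distrib]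
    congr 1
    exact Finset.sum_congr rfl (fun i _ => by ring)
  rw [hprod]
  have hsq : √P * √Q ≤ M + S := by
    have h3 := Real.sq_sqrt hP0
    have h4 := Real.sq_sqrt hQ0
    nlinarith [sq_nonneg (√P - √Q)]
  have hMe : M * Real.exp (-(β * M)) ≤ 1 / β := by
    have h5 := Real.add_one_le_exp (β * M)
    have h6 : Real.exp (β * M) * Real.exp (-(β * M)) = 1 := by rw [← Real.exp_add]; simp
    have h7 : 0 < Real.exp (-(β * M)) := Real.exp_pos _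
    rw [le_div_iff₀ hβ0]
    have h8 : β * M ≤ Real.exp (β * M) := by linarith
    have h9 := mul_le_mul_of_nonneg_right h8 h7.le
    rw [h6] at h9
    linarith
  calc ‖Wb4.g k α y j (fun i => m i + s' i / 2)‖ * ‖Wb4.g k α y l (fun i => m i - s' i / 2)‖
      ≤ (Real.exp (-(β * P)) * (c' * √P)) * (Real.exp (-(β * Q)) * (c' * √Q)) :=
        mul_le_mul ha hb (norm_nonneg _) ((norm_nonneg _).trans ha)
    _ = c' ^ 2 * (√P * √Q) * Real.exp (-(β * P) + -(β * Q)) := by rw [Real.exp_add]; ring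
    _ ≤ c' ^ 2 * (M + S) * Real.exp (-(β * M) + -(β * M)) := by
        apply mul_le_mul (mul_le_mul_of_nonneg_left hsq (sq_nonneg _)) _ (Real.exp_pos _).le
        · positivity
        · rw [Real.exp_le_exp]
          nlinarith
    _ = c' ^ 2 * (M * Real.exp (-(β * M)) + S * Real.exp (-(β * M))) * Real.exp (-(β * M)) := by
        rw [Real.exp_add]; ring
    _ ≤ c' ^ 2 * (1 / β + S) * Real.exp (-(β * M)) := by
        apply mul_le_mul_of_nonneg_right _ (Real.exp_pos _).le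
        apply mul_le_mul_of_nonneg_left _ (sq_nonneg _)
        have h10 : Real.exp (-(β * M)) ≤ 1 := Real.exp_le_one_iff.mpr (by
          have := mul_nonneg hβ0.le hM0
          linarith)
        have h11 : S * Real.exp (-(β * M)) ≤ S := mul_le_of_le_one_right hS0 h10
        linarith

theorem Wb4.G1_eq (k : Fin 3 → ℝ) (δ : ℝ) (a : Fin 2 → ℝ) (y : Fin 2 → ℂ) (x : M23 ℝ) :
    G1 k δ a y x = Wb4.g k (a 0 / δ) y 0 (x 0) * Wb4.g k (a 1 / δ) y 1 (x 1) -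
      Wb4.g k (a 0 / δ) y 1 (x 0) * Wb4.g k (a 1 / δ) y 0 (x 1) := by
  have h1 : exp (-(Real.pi : ℂ) * ((1 / δ : ℝ) : ℂ) *
      ∑ i, (a i : ℂ) * (((∑ l, k l * x i l * x i l : ℝ) : ℂ) + 2 * s k (x i) y ^ 2)) =
      exp (-(Real.pi : ℂ) * ((a 0 / δ : ℝ) : ℂ) *
        (((∑ i, k i * (x 0) i ^ 2 : ℝ) : ℂ) + 2 * s k (x 0) y ^ 2)) *
      exp (-(Real.pi : ℂ) * ((a 1 / δ : ℝ) : ℂ) *
        (((∑ i, k i * (x 1) i ^ 2 : ℝ) : ℂ) + 2 * s k (x 1) y ^ 2)) := by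
    rw [← Complex.exp_add]
    congr 1
    have h2 : ∀ i, (∑ l, k l * x i l * x i l : ℝ) = ∑ l, k l * (x i) l ^ 2 := fun i =>
      Finset.sum_congr rfl (fun l _ => by ring)
    rw [Fin.sum_univ_two, h2, h2]
    push_cast
    ring
  rw [G1, h1, Del, Wb4.g, Wb4.g, Wb4.g, Wb4.g]
  ring

/-- row WB4 -/
theorem wb4 : WB4 := by
  intro k δ a y h0 h1 h2 hδ ha hy σ r
  set α : Fin 2 → ℝ := fun i => a i / δ with hα
  have hα0 : ∀ i, 0 < α i := fun i => div_pos (ha i) hδ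
  -- product of two row integrals
  have hI : ∀ (p q p' q' : Fin 2),
      Integrable (fun m : M23 ℝ => Wb4.T k (α 0) y p q (σ 0) (r 0) (m 0) *
        Wb4.T k (α 1) y p' q' (σ 1) (r 1) (m 1)) := by
    intro p q p' q'
    let f : Fin 2 → (Fin 3 → ℝ) → ℂ := ![Wb4.T k (α 0) y p q (σ 0) (r 0),
      Wb4.T k (α 1) y p' q' (σ 1) (r 1)]
    have hf : ∀ i, Integrable (f i) := by
      intro i
      fin_cases i
      · exact Wb4.T_int k h0 h1 h2 (α 0) (hα0 0) y hy p q (σ 0) (r 0)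
      · exact Wb4.T_int k h0 h1 h2 (α 1) (hα0 1) y hy p' q' (σ 1) (r 1)
    have h3 := Integrable.fintype_prod (f := f) hf
    refine h3.congr (ae_of_all _ ?_)
    intro m
    simp [Fin.prod_univ_two, f]
  have hP : ∀ (p q p' q' : Fin 2),
      ∫ m : M23 ℝ, Wb4.T k (α 0) y p q (σ 0) (r 0) (m 0) *
        Wb4.T k (α 1) y p' q' (σ 1) (r 1) (m 1) =
      K1 k (a 0 / δ) y p q (σ 0) (r 0) * K1 k (a 1 / δ) y p' q' (σ 1) (r 1) := by
    intro p q p' q'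
    let f : Fin 2 → (Fin 3 → ℝ) → ℂ := ![Wb4.T k (α 0) y p q (σ 0) (r 0),
      Wb4.T k (α 1) y p' q' (σ 1) (r 1)]
    have h3 := integral_fintype_prod_volume_eq_prod (𝕜 := ℂ) (ι := Fin 2)
      (E := fun _ => Fin 3 → ℝ) f
    rw [Fin.prod_univ_two] at h3
    rw [Wb4.K1_eq, Wb4.K1_eq]
    have h4 : (∫ m : M23 ℝ, Wb4.T k (α 0) y p q (σ 0) (r 0) (m 0) *
        Wb4.T k (α 1) y p' q' (σ 1) (r 1) (m 1)) = ∫ m : M23 ℝ, ∏ i, f i (m i) := by
      congr 1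
      funext m
      simp [Fin.prod_univ_two, f]
    rw [h4]
    exact h3
  have hpt : ∀ m : M23 ℝ, G1 k δ a y (fun i l => m i l + σ i l / 2) *
      conj (G1 k δ a y (fun i l => m i l - σ i l / 2)) *
      exp (-2 * Real.pi * I * ((∑ i, ∑ l, r i l * m i l : ℝ) : ℂ)) =
      Wb4.T k (α 0) y 0 0 (σ 0) (r 0) (m 0) * Wb4.T k (α 1) y 1 1 (σ 1) (r 1) (m 1)
      - Wb4.T k (α 0) y 0 1 (σ 0) (r 0) (m 0) * Wb4.T k (α 1) y 1 0 (σ 1) (r 1) (m 1)
      - Wb4.T k (α 0) y 1 0 (σ 0) (r 0) (m 0) * Wb4.T k (α 1) y 0 1 (σ 1) (r 1) (m 1)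
      + Wb4.T k (α 0) y 1 1 (σ 0) (r 0) (m 0) * Wb4.T k (α 1) y 0 0 (σ 1) (r 1) (m 1) := by
    intro m
    have he : exp (-2 * Real.pi * I * ((∑ i, ∑ l, r i l * m i l : ℝ) : ℂ)) =
        exp (-2 * Real.pi * I * ((∑ l, r 0 l * m 0 l : ℝ) : ℂ)) *
        exp (-2 * Real.pi * I * ((∑ l, r 1 l * m 1 l : ℝ) : ℂ)) := by
      rw [← Complex.exp_add]
      congr 1
      rw [Fin.sum_univ_two]
      push_cast
      ring
    rw [Wb4.G1_eq, Wb4.G1_eq, he]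
    simp only [map_sub, map_mul, Wb4.T, hα]
    ring
  rw [wig]
  simp only [hpt]
  rw [integral_add, integral_sub, integral_sub, hP, hP, hP, hP]
  · exact hI _ _ _ _
  · exact hI _ _ _ _
  · exact (hI _ _ _ _).sub (hI _ _ _ _)
  · exact hI _ _ _ _
  · exact ((hI _ _ _ _).sub (hI _ _ _ _)).sub (hI _ _ _ _)
  · exact hI _ _ _ _

end

end Pool.Agent.CMH.Wig
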