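import Pool.Agent.Lib.CMH.WB6

/-!
# TANK CMH, WIG route, row WB5 (helper63): invariance at `v₁`, from WB3, WB4 and WB6
-/

set_option autoImplicit false

open scoped ComplexConjugate Matrix
open Complex

namespace Pool.Agent.CMH.Wig

noncomputable section

/-- the complex matrix `X + i δ Y` -/
def cXY (δ : ℝ) (X Y : Matrix (Fin 3) (Fin 3) ℝ) : Matrix (Fin 3) (Fin 3) ℂ :=
  fun i j => ((X i j : ℝ) : ℂ) + I * (δ : ℂ) * ((Y i j : ℝ) : ℂ)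

/-- the complex vector `σ + i δ τ` -/
def cst (δ : ℝ) (σ τ : Fin 3 → ℝ) : Fin 3 → ℂ := fun l => (σ l : ℂ) + I * ((δ * τ l : ℝ) : ℂ)

theorem cXY_unitary {k : Fin 3 → ℝ} {δ : ℝ} {X Y : Matrix (Fin 3) (Fin 3) ℝ}
    (h : RU k (δ ^ 2) X Y) :
    (cXY δ X Y)ᴴ * Matrix.diagonal (fun l => (k l : ℂ)) * cXY δ X Y =
      Matrix.diagonal (fun l => (k l : ℂ)) := by
  obtain ⟨h1, h2⟩ := h
  ext i j
  have e1 := congrFun (congrFun h1 i) j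
  have e2 := congrFun (congrFun h2 i) j
  simp only [Matrix.mul_apply, Matrix.add_apply, Matrix.smul_apply, Matrix.transpose_apply,
    Matrix.diagonal_apply, Fin.sum_univ_three, smul_eq_mul, mul_ite, mul_zero, add_zero, zero_add,
    Fin.isValue, reduceIte, Fin.reduceEq] at e1 e2
  have e1' := congrArg (fun r : ℝ => (r : ℂ)) e1
  have e2' := congrArg (fun r : ℝ => (r : ℂ)) e2
  simp only [Matrix.mul_apply, Matrix.conjTranspose_apply, cXY, Matrix.diagonal_apply,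
    Fin.sum_univ_three, mul_ite, mul_zero, add_zero, zero_add, Fin.isValue, reduceIte,
    Fin.reduceEq, star_add, star_mul', RCLike.star_def, conj_ofReal, conj_I] at e1' e2' ⊢
  have e3 : ((if i = j then k i else 0 : ℝ) : ℂ) = if i = j then (k i : ℂ) else 0 := by
    split_ifs <;> simp
  rw [e3] at e1'
  rw [← e1']
  push_cast at e2' ⊢
  have hI : (I : ℂ) ^ 2 = -1 := Complex.I_sq
  linear_combination (I * (δ : ℂ)) * e2' - ((δ : ℂ) ^ 2 * ((Y 0 i : ℂ) * (k 0 : ℂ) * (Y 0 j : ℂ) +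
    (Y 1 i : ℂ) * (k 1 : ℂ) * (Y 1 j : ℂ) + (Y 2 i : ℂ) * (k 2 : ℂ) * (Y 2 j : ℂ))) * hI

theorem cXY_mulVec (δ : ℝ) (X Y : Matrix (Fin 3) (Fin 3) ℝ) (σ τ : M23 ℝ) (i : Fin 2) :
    cXY δ X Y *ᵥ cst δ (σ i) (τ i) =
      cst δ (aS (δ ^ 2) X Y σ τ i) (aT X Y σ τ i) := by
  funext l
  simp only [cXY, cst, aS, aT, Matrix.mulVec, dotProduct, Fin.sum_univ_three]
  push_cast
  have hI : (I : ℂ) * I = -1 := Complex.I_mul_I
  linear_combination ((δ : ℂ) ^ 2 * (((Y l 0 : ℝ) : ℂ) * (τ i 0 : ℂ) + ((Y l 1 : ℝ) : ℂ) * (τ i 1 : ℂ)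
    + ((Y l 2 : ℝ) : ℂ) * (τ i 2 : ℂ))) * hI

/-- the closed form of the kernel at `v₁` -/
theorem wig_closed (h3 : WB3) (h4 : WB4) {k : Fin 3 → ℝ} {δ : ℝ} {a : Fin 2 → ℝ} {y : Fin 2 → ℂ}
    (k0 : 0 < k 0) (k1 : 0 < k 1) (k2 : k 2 < 0) (hδ : 0 < δ) (ha : ∀ i, 0 < a i)
    (hy : y ∈ ball k) (σ τ : M23 ℝ) :
    wig (G1 k δ a y) (G1 k δ a y) σ (dua a k τ) =
      ((1 / ((2 * (a 0 / δ)) * √(2 * (a 0 / δ)) * √(-(k 0 * k 1 * k 2))) : ℝ) : ℂ) *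
      ((1 / ((2 * (a 1 / δ)) * √(2 * (a 1 / δ)) * √(-(k 0 * k 1 * k 2))) : ℝ) : ℂ) *
      ∑ e : Fin 2, ∑ e' : Fin 2, (-1 : ℂ) ^ (e.val + e'.val) *
        ((KE k (a 0 / δ) (hat y) (cst δ (σ 0) (τ 0)) *
          KT k (a 0 / δ) (hat y) (cst δ (σ 0) (τ 0)) (ej e) (ej e')) *
         (KE k (a 1 / δ) (hat y) (cst δ (σ 1) (τ 1)) *
          KT k (a 1 / δ) (hat y) (cst δ (σ 1) (τ 1)) (ej (1 - e)) (ej (1 - e')))) := by
  rw [h4 k δ a y k0 k1 k2 hδ ha hy σ (dua a k τ)]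
  have hK : ∀ (i : Fin 2) (j l : Fin 2), K1 k (a i / δ) y j l (σ i) (dua a k τ i) =
      ((1 / ((2 * (a i / δ)) * √(2 * (a i / δ)) * √(-(k 0 * k 1 * k 2))) : ℝ) : ℂ) *
      KE k (a i / δ) (hat y) (cst δ (σ i) (τ i)) *
      KT k (a i / δ) (hat y) (cst δ (σ i) (τ i)) (ej j) (ej l) := by
    intro i j l
    have h5 := h3 k (a i / δ) y j l (σ i) (fun l => δ * τ i l) k0 k1 k2 (div_pos (ha i) hδ) hy
    have e1 : (fun l => a i / δ * k l * (δ * τ i l)) = dua a k τ i := by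
      funext l
      rw [dua]
      field_simp
    rw [e1] at h5
    exact h5
  rw [hK 0 0 0, hK 0 0 1, hK 0 1 0, hK 0 1 1, hK 1 0 0, hK 1 0 1, hK 1 1 0, hK 1 1 1]
  simp only [Fin.sum_univ_two, Fin.isValue, Fin.val_zero, Fin.val_one, sub_zero, sub_self,
    pow_zero, pow_one, one_mul, pow_add]
  ring

/-- **WB5** -/
theorem wb5_of (h3 : WB3) (h4 : WB4) : WB5 := by
  intro k δ a X Y y k0 k1 k2 hδ ha hU hy p hp hp2 y' hy' hyb σ τ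
  rw [wig_closed h3 h4 k0 k1 k2 hδ ha hyb, wig_closed h3 h4 k0 k1 k2 hδ ha hy]
  have h6 := W2.wb6 k (fun i => a i / δ) (cXY δ X Y) y k0 k1 k2 (fun i => div_pos (ha i) hδ) hy
    (cXY_unitary hU) p hp hp2 y' hy' (fun i => cst δ (σ i) (τ i))
  simp only [cXY_mulVec] at h6
  rw [h6]
  ring

end

end Pool.Agent.CMH.Wig
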