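import Pool.Agent.Lib.CMH.WigDefs
import Pool.Agent.Lib.CMH.PoiGauss

/-! # TANK CMH, row WC: Poisson summation over `x₀ + N O_F^(2×3)` (helper45). -/

set_option autoImplicit false
set_option linter.unusedSectionVars false

open scoped ComplexConjugate Matrix
open Complex MeasureTheory Pool.CMH.Poi

namespace Pool.Agent.CMH.Wig

noncomputable section

namespace WCx

variable {F : Type} [Field F] [NumberField F] {κ : Type} [Fintype κ] [DecidableEq κ]

abbrev IX (κ : Type) : Type := Fin 2 × Fin 3 × κ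

/-- `u ↦ N Σ u_s ω_s` -/
def L (dp : DualPair F κ) (N : ℝ) (u : IX κ → ℝ) : RV F :=
  fun v i l => N * ∑ s, u (i, l, s) * v (dp.om s)

/-- the inverse -/
def L' (dp : DualPair F κ) (N : ℝ) (x : RV F) : IX κ → ℝ :=
  fun p => N⁻¹ * ∑ v : F →+* ℝ, x v p.1 p.2.1 * v (dp.od p.2.2)

theorem L'_L (dp : DualPair F κ) {N : ℝ} (hN : N ≠ 0) (u : IX κ → ℝ) : L' dp N (L dp N u) = u := by
  funext ⟨i, l, s⟩
  unfold L' L
  have h1 : ∑ v : F →+* ℝ, (N * ∑ s', u (i, l, s') * v (dp.om s')) * v (dp.od s) =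
      N * u (i, l, s) := by
    have h2 : ∀ v : F →+* ℝ, (N * ∑ s', u (i, l, s') * v (dp.om s')) * v (dp.od s) =
        ∑ s', N * u (i, l, s') * (v (dp.om s') * v (dp.od s)) := by
      intro v
      rw [mul_assoc, Finset.sum_mul, Finset.mul_sum]
      exact Finset.sum_congr rfl fun s' _ => by ring
    simp_rw [h2]
    rw [Finset.sum_comm]
    simp_rw [← Finset.mul_sum, dp.dual, mul_ite, mul_one, mul_zero, Finset.sum_ite_eq']
    simp
  rw [h1]
  field_simp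

theorem L_L' (dp : DualPair F κ) {N : ℝ} (hN : N ≠ 0) (x : RV F) : L dp N (L' dp N x) = x := by
  funext v i l
  unfold L' L
  have h2 : ∀ s, (N⁻¹ * ∑ w : F →+* ℝ, x w i l * w (dp.od s)) * v (dp.om s) =
      N⁻¹ * ∑ w : F →+* ℝ, x w i l * (v (dp.om s) * w (dp.od s)) := by
    intro s
    rw [mul_assoc, Finset.sum_mul]
    congr 1
    exact Finset.sum_congr rfl fun w _ => by ring
  dsimp only
  simp_rw [h2, ← Finset.mul_sum]
  rw [Finset.sum_comm]
  simp_rw [← Finset.mul_sum]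
  rw [Finset.sum_eq_single v]
  · rw [dp.dual' v]; field_simp
  · intro w _ hw
    rw [dp.dual'' v w (Ne.symm hw), mul_zero]
  · intro h; exact absurd (Finset.mem_univ _) h

/-- the linear equivalence -/
def eL (dp : DualPair F κ) {N : ℝ} (hN : N ≠ 0) : (IX κ → ℝ) ≃ₗ[ℝ] RV F where
  toFun := L dp N
  invFun := L' dp N
  left_inv := L'_L dp hN
  right_inv := L_L' dp hN
  map_add' x y := by
    funext v i l
    unfold L
    simp only [Pi.add_apply, ← mul_add, ← Finset.sum_add_distrib]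
    congr 1
    exact Finset.sum_congr rfl fun s _ => by ring
  map_smul' c x := by
    funext v i l
    unfold L
    simp only [Pi.smul_apply, smul_eq_mul, RingHom.id_apply, Finset.mul_sum]
    exact Finset.sum_congr rfl fun s _ => by ring

theorem haar3 : (volume : Measure (Fin 3 → ℝ)).IsAddHaarMeasure := inferInstance

theorem haar23 : (volume : Measure (Fin 2 → Fin 3 → ℝ)).IsAddHaarMeasure := by
  have : ∀ _ : Fin 2, (volume : Measure (Fin 3 → ℝ)).IsAddHaarMeasure := fun _ => haar3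
  exact Measure.pi.isAddHaarMeasure (ι := Fin 2) (α := fun _ => Fin 3 → ℝ)
    (fun _ => (volume : Measure (Fin 3 → ℝ)))

theorem haarRV (F : Type) [Field F] [NumberField F] :
    (volume : Measure (RV F)).IsAddHaarMeasure :=
  @Measure.pi.isAddHaarMeasure (F →+* ℝ) (fun _ => Fin 2 → Fin 3 → ℝ) _ _
    (fun _ => (volume : Measure (Fin 2 → Fin 3 → ℝ))) _ _ _ (fun _ => haar23) _

/-- change of variables -/
theorem exists_const (dp : DualPair F κ) {N : ℝ} (hN : N ≠ 0) :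
    ∃ c : ℝ, ∀ g : RV F → ℂ, ∫ u : IX κ → ℝ, g (L dp N u) = (c : ℂ) * ∫ x : RV F, g x := by
  let e : (IX κ → ℝ) ≃L[ℝ] RV F := (eL dp hN).toContinuousLinearEquiv
  let μ : Measure (RV F) := Measure.map e volume
  have := haarRV F
  have : μ.IsAddHaarMeasure := ContinuousLinearEquiv.isAddHaarMeasure_map e volume
  obtain ⟨c, h1⟩ : ∃ c : NNReal, μ = c • (volume : Measure (RV F)) :=
    ⟨_, Measure.isAddLeftInvariant_eq_smul μ volume⟩
  refine ⟨(c : ℝ), fun g => ?_⟩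
  have h2 : ∫ u : IX κ → ℝ, g (e u) = ∫ x, g x ∂μ :=
    (e.toHomeomorph.measurableEmbedding.integral_map g).symm
  have h3 : ∫ u : IX κ → ℝ, g (L dp N u) = ∫ u : IX κ → ℝ, g (e u) := rfl
  rw [h3, h2, h1, integral_smul_nnreal_measure]
  rfl

/-- the value of the dual vector -/
theorem sum_dvec (dp : DualPair F κ) (m : IX κ → ℤ) (v : F →+* ℝ) (i : Fin 2) (l : Fin 3) :
    evm (dp.dvec m) v i l = ∑ s, (m (i, l, s) : ℝ) * v (dp.od s) := by
  unfold evm DualPair.dvec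
  rw [map_sum]
  exact Finset.sum_congr rfl fun s _ => by rw [map_mul, map_intCast]

theorem sum_vec (dp : DualPair F κ) (m : IX κ → ℤ) (v : F →+* ℝ) (i : Fin 2) (l : Fin 3) :
    evm (dp.vec m) v i l = ∑ s, (m (i, l, s) : ℝ) * v (dp.om s) := by
  unfold evm DualPair.vec
  rw [map_sum]
  exact Finset.sum_congr rfl fun s _ => by rw [map_mul, map_intCast]

/-- duality of the pairings -/
theorem pairing (dp : DualPair F κ) (N : ℝ) (m : IX κ → ℤ) (x : RV F) :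
    ∑ p, (m p : ℝ) * L' dp N x p = ∑ v, ∑ i, ∑ l, (evm (dp.dvec m) v i l / N) * x v i l := by
  have h1 : ∀ v : F →+* ℝ, ∑ i, ∑ l, (evm (dp.dvec m) v i l / N) * x v i l =
      ∑ p : IX κ, (m p : ℝ) * (N⁻¹ * (x v p.1 p.2.1 * v (dp.od p.2.2))) := by
    intro v
    rw [Fintype.sum_prod_type]
    refine Finset.sum_congr rfl fun i _ => ?_
    rw [Fintype.sum_prod_type]
    refine Finset.sum_congr rfl fun l _ => ?_
    rw [sum_dvec, div_eq_mul_inv, Finset.sum_mul, Finset.sum_mul]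
    exact Finset.sum_congr rfl fun s _ => by ring
  simp_rw [h1]
  rw [Finset.sum_comm]
  refine Finset.sum_congr rfl fun p _ => ?_
  unfold L'
  rw [Finset.mul_sum, Finset.mul_sum]

/-- Cauchy-Schwarz for the coordinates -/
theorem sq_L'_le (dp : DualPair F κ) (N : ℝ) (x : RV F) :
    Pool.CMH.Poi.sq (L' dp N x) ≤ (N⁻¹ ^ 2 * ∑ s, ∑ v : F →+* ℝ, v (dp.od s) ^ 2) * nsq x := by
  unfold Pool.CMH.Poi.sq L' nsq
  have h1 : ∀ p : IX κ, (N⁻¹ * ∑ v : F →+* ℝ, x v p.1 p.2.1 * v (dp.od p.2.2)) ^ 2 ≤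
      N⁻¹ ^ 2 * ((∑ v : F →+* ℝ, x v p.1 p.2.1 ^ 2) * ∑ v : F →+* ℝ, v (dp.od p.2.2) ^ 2) := by
    intro p
    rw [mul_pow]
    refine mul_le_mul_of_nonneg_left ?_ (sq_nonneg _)
    exact Finset.sum_mul_sq_le_sq_mul_sq _ _ _
  refine (Finset.sum_le_sum fun p _ => h1 p).trans (le_of_eq ?_)
  rw [Fintype.sum_prod_type]
  simp_rw [Fintype.sum_prod_type]
  have h2 : ∀ (i : Fin 2) (l : Fin 3), ∑ s, N⁻¹ ^ 2 * ((∑ v : F →+* ℝ, x v i l ^ 2) *
      ∑ v : F →+* ℝ, v (dp.od s) ^ 2) =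
      (N⁻¹ ^ 2 * ∑ s, ∑ v : F →+* ℝ, v (dp.od s) ^ 2) * ∑ v : F →+* ℝ, x v i l ^ 2 := by
    intro i l
    rw [← Finset.mul_sum, ← Finset.mul_sum]
    ring
  simp_rw [h2, ← Finset.mul_sum]
  congr 1
  calc ∑ i, ∑ l, ∑ v : F →+* ℝ, x v i l ^ 2 = ∑ i, ∑ v : F →+* ℝ, ∑ l, x v i l ^ 2 :=
        Finset.sum_congr rfl fun i _ => Finset.sum_comm
    _ = ∑ v : F →+* ℝ, ∑ i, ∑ l, x v i l ^ 2 := Finset.sum_comm

/-- the integral vector is bounded by its dual vector -/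
theorem sq_int_le (dp : DualPair F κ) (m : IX κ → ℤ) :
    ∑ p, (m p : ℝ) ^ 2 ≤ (∑ s, ∑ v : F →+* ℝ, v (dp.om s) ^ 2) * nsq (evm (dp.dvec m)) := by
  have h0 : ∀ p : IX κ, (m p : ℝ) = ∑ v : F →+* ℝ, evm (dp.dvec m) v p.1 p.2.1 * v (dp.om p.2.2) := by
    rintro ⟨i, l, s⟩
    dsimp only
    simp_rw [sum_dvec, Finset.sum_mul]
    rw [Finset.sum_comm]
    have h1 : ∀ s', ∑ v : F →+* ℝ, (m (i, l, s') : ℝ) * v (dp.od s') * v (dp.om s) =
        (m (i, l, s') : ℝ) * if s = s' then 1 else 0 := by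
      intro s'
      rw [← dp.dual s s', Finset.mul_sum]
      exact Finset.sum_congr rfl fun v _ => by ring
    simp_rw [h1]
    simp
  have h1 : ∀ p : IX κ, (m p : ℝ) ^ 2 ≤ (∑ v : F →+* ℝ, evm (dp.dvec m) v p.1 p.2.1 ^ 2) *
      ∑ v : F →+* ℝ, v (dp.om p.2.2) ^ 2 := by
    intro p
    rw [h0 p]
    exact Finset.sum_mul_sq_le_sq_mul_sq _ _ _
  refine (Finset.sum_le_sum fun p _ => h1 p).trans (le_of_eq ?_)
  rw [Fintype.sum_prod_type]
  simp_rw [Fintype.sum_prod_type]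
  unfold nsq
  have h2 : ∀ (i : Fin 2) (l : Fin 3), ∑ s, ((∑ v : F →+* ℝ, evm (dp.dvec m) v i l ^ 2) *
      ∑ v : F →+* ℝ, v (dp.om s) ^ 2) =
      (∑ s, ∑ v : F →+* ℝ, v (dp.om s) ^ 2) * ∑ v : F →+* ℝ, evm (dp.dvec m) v i l ^ 2 := by
    intro i l
    rw [← Finset.mul_sum]
    ring
  simp_rw [h2, ← Finset.mul_sum]
  congr 1
  calc ∑ i, ∑ l, ∑ v : F →+* ℝ, evm (dp.dvec m) v i l ^ 2
      = ∑ i, ∑ v : F →+* ℝ, ∑ l, evm (dp.dvec m) v i l ^ 2 :=
        Finset.sum_congr rfl fun i _ => Finset.sum_comm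
    _ = ∑ v : F →+* ℝ, ∑ i, ∑ l, evm (dp.dvec m) v i l ^ 2 := Finset.sum_comm

theorem nsq_nonneg (x : RV F) : 0 ≤ nsq x :=
  Finset.sum_nonneg fun _ _ => Finset.sum_nonneg fun _ _ => Finset.sum_nonneg fun _ _ => sq_nonneg _

theorem nsq_div (x : RV F) (N : ℝ) : nsq (fun v i l => x v i l / N) = N⁻¹ ^ 2 * nsq x := by
  unfold nsq
  simp_rw [Finset.mul_sum]
  refine Finset.sum_congr rfl fun v _ => Finset.sum_congr rfl fun i _ =>
    Finset.sum_congr rfl fun l _ => ?_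
  rw [div_eq_mul_inv]; ring

end WCx

open WCx in
theorem wc : WC := by
  intro F _ _ _ κ _ _ dp N hN
  have hNr : (N : ℝ) ≠ 0 := by exact_mod_cast hN.ne'
  obtain ⟨c₀, hc₀⟩ := exists_const dp hNr
  refine ⟨(c₀ : ℂ), ?_⟩
  rintro f ⟨hfc, Cf, cf, hCf, hcf, hf⟩ ⟨Cr, cr, hCr, hcr, hr⟩ n₀
  set g : (IX κ → ℝ) → ℂ := fun u => f (L dp N u) with hg
  have hgc : Continuous g := hfc.comp (LinearMap.continuous_of_finiteDimensional (eL dp hNr).toLinearMap)
  -- Gaussian bound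
  set K : ℝ := (N : ℝ)⁻¹ ^ 2 * ∑ s, ∑ v : F →+* ℝ, v (dp.od s) ^ 2 with hK
  have hK0 : 0 ≤ K := mul_nonneg (sq_nonneg _)
    (Finset.sum_nonneg fun _ _ => Finset.sum_nonneg fun _ _ => sq_nonneg _)
  have hlus : LUS g := by
    refine lus_of_bound hCf (δ := cf / (K + 1)) (by positivity) fun u => ?_
    refine (hf _).trans (mul_le_mul_of_nonneg_left (Real.exp_le_exp.mpr ?_) hCf.le)
    have h1 := sq_L'_le dp N (L dp N u)
    rw [L'_L dp hNr] at h1
    have h2 : Pool.CMH.Poi.sq u ≤ (K + 1) * nsq (L dp N u) :=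
      h1.trans (mul_le_mul_of_nonneg_right (by linarith) (nsq_nonneg _))
    have h3 : cf / (K + 1) * Pool.CMH.Poi.sq u ≤ cf * nsq (L dp N u) := by
      rw [div_mul_eq_mul_div, div_le_iff₀ (by positivity)]
      calc cf * Pool.CMH.Poi.sq u ≤ cf * ((K + 1) * nsq (L dp N u)) :=
            mul_le_mul_of_nonneg_left h2 hcf.le
        _ = cf * nsq (L dp N u) * (K + 1) := by ring
    linarith
  -- the transform
  have hft : ∀ m : IX κ → ℤ, ft g m =
      (c₀ : ℂ) * ftR f (fun v i l => evm (dp.dvec m) v i l / N) := by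
    intro m
    unfold ft ftR
    rw [← hc₀]
    refine integral_congr_ae (.of_forall fun u => ?_)
    change ch (-m) u * f (L dp N u) = f (L dp N u) * _
    rw [mul_comm]
    congr 1
    rw [ch_eq]
    congr 1
    have h1 := pairing dp N m (L dp N u)
    rw [L'_L dp hNr] at h1
    rw [← h1]
    push_cast
    simp only [Pi.neg_apply, Int.cast_neg, neg_mul, Finset.sum_neg_distrib, mul_neg]
  -- summability
  set K' : ℝ := ∑ s, ∑ v : F →+* ℝ, v (dp.om s) ^ 2 with hK'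
  have hK'0 : 0 ≤ K' := Finset.sum_nonneg fun _ _ => Finset.sum_nonneg fun _ _ => sq_nonneg _
  have hsum : Summable (ft g) := by
    refine Summable.of_norm_bounded
      (g := fun m : IX κ → ℤ => ‖(c₀ : ℂ)‖ * (Cr * Real.exp (-(cr * (N : ℝ)⁻¹ ^ 2 / (K' + 1)) *
        ∑ i, ((m i : ℝ)) ^ 2))) ?_ fun m => ?_
    · refine ((summable_gauss ?_).mul_left Cr).mul_left _
      positivity
    · rw [hft, norm_mul]
      refine mul_le_mul_of_nonneg_left ?_ (norm_nonneg _)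
      refine (hr _).trans (mul_le_mul_of_nonneg_left (Real.exp_le_exp.mpr ?_) hCr.le)
      rw [nsq_div]
      have h1 := sq_int_le dp m
      have h2 : ∑ p, (m p : ℝ) ^ 2 ≤ (K' + 1) * nsq (evm (dp.dvec m)) :=
        h1.trans (mul_le_mul_of_nonneg_right (by linarith) (nsq_nonneg _))
      have h3 : cr * (N : ℝ)⁻¹ ^ 2 / (K' + 1) * ∑ p, (m p : ℝ) ^ 2 ≤
          cr * ((N : ℝ)⁻¹ ^ 2 * nsq (evm (dp.dvec m))) := by
        rw [div_mul_eq_mul_div, div_le_iff₀ (by positivity)]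
        calc cr * (N : ℝ)⁻¹ ^ 2 * ∑ p, (m p : ℝ) ^ 2
            ≤ cr * (N : ℝ)⁻¹ ^ 2 * ((K' + 1) * nsq (evm (dp.dvec m))) :=
              mul_le_mul_of_nonneg_left h2 (by positivity)
          _ = cr * ((N : ℝ)⁻¹ ^ 2 * nsq (evm (dp.dvec m))) * (K' + 1) := by ring
      linarith
  have key := poisson hgc hlus hsum (fun t => (n₀ t : ℝ) / (N : ℝ) ^ 2)
  have e1 : (fun m : IX κ → ℤ => ft g m * ch m (fun t => (n₀ t : ℝ) / (N : ℝ) ^ 2)) =
      fun m : IX κ → ℤ =>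
      (c₀ : ℂ) * exp (2 * Real.pi * I * ((∑ t, (m t : ℝ) * (n₀ t : ℝ) / (N : ℝ) ^ 2 : ℝ) : ℂ)) *
        ftR f (fun v i l => evm (dp.dvec m) v i l / N) := by
    funext m
    rw [hft, ch_eq]
    have h1 : (∑ i, (m i : ℂ) * (((n₀ i : ℝ) / (N : ℝ) ^ 2 : ℝ) : ℂ)) =
        ((∑ t, (m t : ℝ) * (n₀ t : ℝ) / (N : ℝ) ^ 2 : ℝ) : ℂ) := by
      push_cast
      exact Finset.sum_congr rfl fun t _ => by ring
    rw [h1]; ring
  have e2 : (∑' n : IX κ → ℤ, g ((fun t => (n₀ t : ℝ) / (N : ℝ) ^ 2) + iv n)) =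
      ∑' n : IX κ → ℤ, f (fun v i l => evm (dp.vec (fun t => n₀ t + (N : ℤ) ^ 2 * n t)) v i l / N) := by
    refine tsum_congr fun n => ?_
    rw [hg]
    dsimp only
    congr 1
    funext v i l
    rw [sum_vec]
    unfold L
    rw [Finset.mul_sum, Finset.sum_div]
    refine Finset.sum_congr rfl fun s _ => ?_
    simp only [Pi.add_apply, iv]
    push_cast
    field_simp
  rw [e1, e2] at key
  exact key

end

end Pool.Agent.CMH.Wig
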