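import Mathlib
import Pool.Agent.Lib.CMH.WigDefs

/-!
# Row WIG: from one place to all places. Statements (helper16)
-/

set_option autoImplicit false

open scoped ComplexConjugate Matrix
open Complex MeasureTheory

namespace Pool.Agent.CMH.Wig

noncomputable section

/-- WE1a: the term of the theta series is `Gt` at the embedded vector -/
def WE1a : Prop :=
  ∀ (F : Type) [Field F] [NumberField F] (v₁ : F →+* ℝ) (D : F) (h : Fin 3 → F) (a : Fin 2 → F)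
    (R : Maj F), Good v₁ D h → (∀ i, 0 < v₁ (a i)) → R v₁ = R0 a v₁ →
    ∀ (ξ : Fin 2 → Fin 3 → F) (y : Fin 2 → ℂ),
      gauss2 v₁ D h a R ξ y * Del (ev v₁ h) (fun i => ev v₁ (ξ i)) y = Gt v₁ D h a R y (evm ξ)

/-- the product of the one-place Wigner transforms -/
def WP {F : Type} [Field F] [NumberField F] (v₁ : F →+* ℝ) (D : F) (h : Fin 3 → F) (a : Fin 2 → F)
    (R R' : Maj F) (y : Fin 2 → ℂ) (σ r : RV F) : ℂ :=
  open Classical in
  ∏ v, if v = v₁ then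
      wig (G1 (ev v h) (√(v D)) (fun i => v (a i)) y) (G1 (ev v h) (√(v D)) (fun i => v (a i)) y)
        (σ v) (r v)
    else wig (G (ev v h) (√(v D)) (R v)) (G (ev v h) (√(v D)) (R' v)) (σ v) (r v)

/-- WE1b: the Wigner transform of a product (`integral_fintype_prod_volume_eq_prod`) -/
def WE1b : Prop :=
  ∀ (F : Type) [Field F] [NumberField F] (v₁ : F →+* ℝ) (D : F) (h : Fin 3 → F) (a : Fin 2 → F)
    (R R' : Maj F) (y : Fin 2 → ℂ) (σ r : RV F),
      wigR (Gt v₁ D h a R y) (Gt v₁ D h a R' y) σ r = WP v₁ D h a R R' y σ r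

/-- WE1c: Gaussian bound of `Gt` -/
def WE1c : Prop := WA1 → WB1 →
  ∀ (F : Type) [Field F] [NumberField F] (v₁ : F →+* ℝ) (D : F) (h : Fin 3 → F) (a : Fin 2 → F)
    (R : Maj F), Good v₁ D h → (∀ i, 0 < v₁ (a i)) → (∀ v, (R v).PosDef) →
    ∀ y ∈ ball (ev v₁ h), GB (Gt v₁ D h a R y)

/-- WE1d: Gaussian bound of the Wigner transform of `Gt` -/
def WE1d : Prop := WA2 → WB2 → WE1b →
  ∀ (F : Type) [Field F] [NumberField F] (v₁ : F →+* ℝ) (D : F) (h : Fin 3 → F) (a : Fin 2 → F)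
    (R R' : Maj F), Good v₁ D h → (∀ i, 0 < v₁ (a i)) → (∀ v, (R v).PosDef) →
    (∀ v, (R' v).PosDef) → ∀ y ∈ ball (ev v₁ h),
      GBW (wigR (Gt v₁ D h a R y) (Gt v₁ D h a R' y))

/-- WE1e: invariance of the product of the one-place Wigner transforms under one element
`X + √(-D) Y` of the unitary group of `h` over `F`. -/
def WE1e : Prop := WA3 → WB5 →
  ∀ (F : Type) [Field F] [NumberField F] (v₁ : F →+* ℝ) (D : F) (h : Fin 3 → F) (a : Fin 2 → F)
    (R R' : Maj F) (X Y : Matrix (Fin 3) (Fin 3) F), Good v₁ D h → (∀ i, a i ≠ 0) →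
    (∀ i, 0 < v₁ (a i)) → (∀ v, IsMaj a v (R v)) → (∀ v, IsMaj a v (R' v)) →
    RU h D X Y → ∀ y ∈ ball (ev v₁ h), gy v₁ D (X, Y) y 2 ≠ 0 →
    act v₁ D (X, Y) y ∈ ball (ev v₁ h) → ∀ σ τ : M23 F,
    WP v₁ D h a R R' (act v₁ D (X, Y) y) (evm (aS D X Y σ τ)) (evm (dua a h (aT X Y σ τ))) =
      ((‖gy v₁ D (X, Y) y 2‖ ^ 6 : ℝ) : ℂ) * WP v₁ D h a R R' y (evm σ) (evm (dua a h τ))

end

end Pool.Agent.CMH.Wig
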