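import Mathlib
import Pool.Agent.Lib.CMH.WE1Defs

/-!
# Row WIG: from one place to all places, WE1a and WE1b
-/

set_option autoImplicit false

open scoped ComplexConjugate Matrix
open Complex MeasureTheory

namespace Pool.Agent.CMH.Wig

theorem we1a : WE1a := by
  classical
  intro F _ _ v₁ D h a R hG ha hR ξ y
  have e : ∀ v : F →+* ℝ, (if v = v₁ then
      G1 (ev v h) (√(v D)) (fun i => v (a i)) y (evm ξ v)
      else G (ev v h) (√(v D)) (R v) (evm ξ v)) =
      exp (-(Real.pi : ℂ) * (((1 / √(v D) : ℝ) : ℂ) *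
        (((∑ i, ∑ j, R v i j * form h v (ξ i) (ξ j) : ℝ) : ℂ) +
          if v = v₁ then 2 * ∑ i, (v (a i) : ℂ) * s (ev v h) (ev v (ξ i)) y ^ 2 else 0))) *
        (if v = v₁ then Del (ev v₁ h) (fun i => ev v₁ (ξ i)) y else 1) := by
    intro v
    by_cases hv : v = v₁
    · subst hv
      rw [if_pos rfl, if_pos rfl, if_pos rfl, G1]
      have h1 : evm ξ v = fun i => ev v (ξ i) := rfl
      rw [h1]
      congr 2
      rw [mul_assoc]
      congr 2
      rw [hR]
      simp only [R0, Fin.sum_univ_two, Matrix.diagonal_apply_eq, form, ev,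
        abs_of_pos (ha 0), abs_of_pos (ha 1)]
      rw [Matrix.diagonal_apply_ne _ (by decide : (0 : Fin 2) ≠ 1),
        Matrix.diagonal_apply_ne _ (by decide : (1 : Fin 2) ≠ 0)]
      push_cast
      ring
    · rw [if_neg hv, if_neg hv, if_neg hv, G, mul_one, add_zero, mul_assoc]
      rfl
  rw [Gt, gauss2, Finset.mul_sum, Complex.exp_sum]
  rw [Finset.prod_congr rfl fun v _ => e v, Finset.prod_mul_distrib]
  congr 1
  rw [Finset.prod_ite_eq' Finset.univ v₁, if_pos (Finset.mem_univ _)]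

theorem we1b : WE1b := by
  classical
  intro F _ _ v₁ D h a R R' y σ r
  let f : (v : F →+* ℝ) → M23 ℝ → ℂ := fun v m => if v = v₁ then
        G1 (ev v h) (√(v D)) (fun i => v (a i)) y (fun i l => m i l + σ v i l / 2) *
        conj (G1 (ev v h) (√(v D)) (fun i => v (a i)) y (fun i l => m i l - σ v i l / 2)) *
        exp (-2 * Real.pi * I * ((∑ i, ∑ l, r v i l * m i l : ℝ) : ℂ))
      else G (ev v h) (√(v D)) (R v) (fun i l => m i l + σ v i l / 2) *
        conj (G (ev v h) (√(v D)) (R' v) (fun i l => m i l - σ v i l / 2)) *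
        exp (-2 * Real.pi * I * ((∑ i, ∑ l, r v i l * m i l : ℝ) : ℂ))
  have e : ∀ m : RV F, Gt v₁ D h a R y (fun v i l => m v i l + σ v i l / 2) *
      conj (Gt v₁ D h a R' y (fun v i l => m v i l - σ v i l / 2)) *
      exp (-2 * Real.pi * I * ((∑ v, ∑ i, ∑ l, r v i l * m v i l : ℝ) : ℂ)) =
      ∏ v : F →+* ℝ, f v (m v) := by
    intro m
    rw [Gt, Gt, map_prod, Complex.ofReal_sum, Finset.mul_sum, Complex.exp_sum,
      ← Finset.prod_mul_distrib, ← Finset.prod_mul_distrib]
    refine Finset.prod_congr rfl fun v _ => ?_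
    by_cases hv : v = v₁
    · simp only [f, if_pos hv]
    · simp only [f, if_neg hv]
  have h2 : ∫ m : RV F, ∏ v : F →+* ℝ, f v (m v) = ∏ v : F →+* ℝ, ∫ m : M23 ℝ, f v m :=
    integral_fintype_prod_volume_eq_prod f
  rw [wigR, WP, integral_congr_ae (Filter.Eventually.of_forall e), h2]
  refine Finset.prod_congr rfl fun v _ => ?_
  by_cases hv : v = v₁
  · simp only [f, if_pos hv]
    rfl
  · simp only [f, if_neg hv]
    rfl

end Pool.Agent.CMH.Wig
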