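import Mathlib
import Pool.Agent.Lib.CMH.WE1Defs

/-!
# Row WE1e: invariance of the product of the one-place Wigner transforms (helper18)
-/

set_option autoImplicit false

open scoped ComplexConjugate Matrix
open Complex MeasureTheory

namespace Pool.Agent.CMH.Wig

noncomputable section

/-- a matrix at a real place -/
def mv {F : Type} [Field F] (v : F →+* ℝ) (X : Matrix (Fin 3) (Fin 3) F) :
    Matrix (Fin 3) (Fin 3) ℝ := X.map v

theorem RU_map {F : Type} [Field F] (v : F →+* ℝ) (D : F) (h : Fin 3 → F)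
    (X Y : Matrix (Fin 3) (Fin 3) F) (H : RU h D X Y) : RU (ev v h) (v D) (mv v X) (mv v Y) := by
  obtain ⟨h1, h2⟩ := H
  have hd : Matrix.diagonal (ev v h) = (Matrix.diagonal h).map v := by
    rw [Matrix.diagonal_map (map_zero v)]
    rfl
  refine ⟨?_, ?_⟩
  · have := congrArg (fun M : Matrix (Fin 3) (Fin 3) F => M.map v) h1
    rw [Matrix.map_add v (map_add v), Matrix.map_smul' v _ _ (map_mul v)] at this
    simp only [Matrix.map_mul, Matrix.transpose_map] at this
    rw [hd]
    exact this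
  · have := congrArg (fun M : Matrix (Fin 3) (Fin 3) F => M.map v) h2
    simp only [Matrix.map_mul, Matrix.transpose_map] at this
    rw [hd]
    exact this

theorem aS_map {F : Type} [Field F] (v : F →+* ℝ) (D : F)
    (X Y : Matrix (Fin 3) (Fin 3) F) (σ τ : M23 F) :
    evm (aS D X Y σ τ) v = aS (v D) (mv v X) (mv v Y) (evm σ v) (evm τ v) := by
  funext i l
  simp only [evm, aS, mv, Matrix.mulVec, dotProduct, Matrix.map_apply, map_sub, map_mul, map_sum]

theorem aT_map {F : Type} [Field F] (v : F →+* ℝ)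
    (X Y : Matrix (Fin 3) (Fin 3) F) (σ τ : M23 F) :
    evm (aT X Y σ τ) v = aT (mv v X) (mv v Y) (evm σ v) (evm τ v) := by
  funext i l
  simp only [evm, aT, mv, Matrix.mulVec, dotProduct, Matrix.map_apply, map_add, map_mul, map_sum]

theorem dua_map {F : Type} [Field F] (v : F →+* ℝ) (a : Fin 2 → F) (h : Fin 3 → F) (τ : M23 F) :
    evm (dua a h τ) v = dua (fun i => v (a i)) (ev v h) (evm τ v) := by
  funext i l
  simp only [evm, dua, ev, map_mul]

theorem we1e : WE1e := by
  classical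
  intro wa3 wb5 F _ _ v₁ D h a R R' X Y G0 ha ha1 hR hR' HU y hy hp hy' σ τ
  have hsq : ∀ v : F →+* ℝ, √(v D) ^ 2 = v D := fun v => Real.sq_sqrt (G0.D0 v).le
  have hfac : ∀ v : F →+* ℝ,
      (if v = v₁ then
        wig (G1 (ev v h) (√(v D)) (fun i => v (a i)) (act v₁ D (X, Y) y))
          (G1 (ev v h) (√(v D)) (fun i => v (a i)) (act v₁ D (X, Y) y))
          (evm (aS D X Y σ τ) v) (evm (dua a h (aT X Y σ τ)) v)
      else wig (G (ev v h) (√(v D)) (R v)) (G (ev v h) (√(v D)) (R' v))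
          (evm (aS D X Y σ τ) v) (evm (dua a h (aT X Y σ τ)) v)) =
      (if v = v₁ then ((‖gy v₁ D (X, Y) y 2‖ ^ 6 : ℝ) : ℂ) else 1) *
      (if v = v₁ then
        wig (G1 (ev v h) (√(v D)) (fun i => v (a i)) y)
          (G1 (ev v h) (√(v D)) (fun i => v (a i)) y)
          (evm σ v) (evm (dua a h τ) v)
      else wig (G (ev v h) (√(v D)) (R v)) (G (ev v h) (√(v D)) (R' v))
          (evm σ v) (evm (dua a h τ) v)) := by
    intro v
    have hRU : RU (ev v h) (√(v D) ^ 2) (mv v X) (mv v Y) := by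
      rw [hsq]
      exact RU_map v D h X Y HU
    rw [aS_map, dua_map, aT_map, dua_map, ← hsq v]
    by_cases hv : v = v₁
    · subst hv
      rw [if_pos rfl, if_pos rfl, if_pos rfl]
      have hp' : gy v D (X, Y) y = (fun i j => ((mv v X i j : ℝ) : ℂ) +
          I * ((√(v D) : ℝ) : ℂ) * ((mv v Y i j : ℝ) : ℂ) : Matrix (Fin 3) (Fin 3) ℂ) *ᵥ
          hat y := rfl
      have := wb5 (ev v h) (√(v D)) (fun i => v (a i)) (mv v X) (mv v Y) y (G0.h0 v) (G0.h1 v)
        G0.h3 (Real.sqrt_pos.2 (G0.D0 v)) ha1 hRU hy (gy v D (X, Y) y) hp' hp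
        (act v D (X, Y) y) rfl hy' (evm σ v) (evm τ v)
      rw [Real.sqrt_sq (Real.sqrt_nonneg _)]
      exact this
    · rw [if_neg hv, if_neg hv, if_neg hv, one_mul]
      have hk : ∀ l, 0 < ev v h l := by
        intro l
        fin_cases l
        · exact G0.h0 v
        · exact G0.h1 v
        · exact G0.h2 v hv
      have hane : ∀ i, v (a i) ≠ 0 := fun i => (map_ne_zero v).2 (ha i)
      have := wa3 (ev v h) (√(v D)) (fun i => v (a i)) (R v) (R' v) (mv v X) (mv v Y) hk
        (Real.sqrt_pos.2 (G0.D0 v)) hane (hR v).1 (hR' v).1 (hR v).2 (hR' v).2 hRU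
        (evm σ v) (evm τ v)
      rw [Real.sqrt_sq (Real.sqrt_nonneg _)]
      exact this
  unfold WP
  rw [Finset.prod_congr rfl (fun v _ => hfac v), Finset.prod_mul_distrib]
  congr 1
  rw [Finset.prod_ite_eq' Finset.univ v₁]
  simp

end

end Pool.Agent.CMH.Wig
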