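import Mathlib
import Pool.Agent.Lib.CMH.PoiGauss

/-!
Second moments of complex Gaussians in several variables (helper16).
-/

set_option autoImplicit false

open MeasureTheory Set Filter Topology

namespace Pool.CMH.Mom

open Pool.CMH.Poi hiding sq sq_nonneg

variable {ι : Type*} [Fintype ι] [DecidableEq ι]

/-- the standard Gaussian with complex linear term -/
noncomputable def g0 (d : ι → ℂ) (z : ι → ℝ) : ℂ :=
  Complex.exp (-Real.pi * ∑ i, (z i : ℂ) ^ 2 + 2 * Real.pi * Complex.I * ∑ i, d i * (z i : ℂ))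

theorem g0_eq (d : ι → ℂ) (z : ι → ℝ) : g0 d z = gau (1 : Matrix ι ι ℝ) d z := by
  unfold g0 gau Poi.sq
  rw [Matrix.one_mulVec]
  push_cast
  rfl

theorem g0_bound (d : ι → ℂ) :
    ∃ δ > 0, ∃ C > 0, ∀ z : ι → ℝ, ‖g0 d z‖ ≤ C * Real.exp (-δ * Poi.sq z) := by
  obtain ⟨δ, hδ, C, hC, h⟩ := gau_bound (1 : Matrix ι ι ℝ) (by simp) d
  exact ⟨δ, hδ, C, hC, fun z => by rw [g0_eq]; exact h z⟩

theorem g0_continuous (d : ι → ℂ) : Continuous (g0 d) := by
  have : g0 d = gau (1 : Matrix ι ι ℝ) d := funext (g0_eq d)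
  rw [this]
  exact gau_continuous _ _

/-- a continuous function with a bound `C (1 + |z|²)² exp(-δ |z|²)` is integrable -/
theorem integrable_of_bound {f : (ι → ℝ) → ℂ} (hf : Continuous f) {C δ : ℝ} (hC : 0 < C)
    (hδ : 0 < δ) (h : ∀ z, ‖f z‖ ≤ C * ((1 + Poi.sq z) ^ 2 * Real.exp (-δ * Poi.sq z))) :
    Integrable f := by
  -- (1 + t)² e^{-δt} ≤ C' e^{-δt/2}
  obtain ⟨C', hC', h'⟩ : ∃ C' > 0, ∀ t : ℝ, 0 ≤ t →
      (1 + t) ^ 2 * Real.exp (-δ * t) ≤ C' * Real.exp (-(δ / 2) * t) := by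
    refine ⟨(1 + 4 / δ) ^ 2, by positivity, fun t ht => ?_⟩
    have h1 : (1 + t) ≤ (1 + 4 / δ) * Real.exp (δ / 4 * t) := by
      have h2 : δ / 4 * t + 1 ≤ Real.exp (δ / 4 * t) := Real.add_one_le_exp _
      have h3 : 0 ≤ 4 / δ := by positivity
      have h4 : (4 / δ) * (δ / 4 * t + 1) = t + 4 / δ := by field_simp
      have h5 : (4 / δ) * (δ / 4 * t + 1) ≤ (4 / δ) * Real.exp (δ / 4 * t) :=
        mul_le_mul_of_nonneg_left h2 h3
      have h6 : 1 ≤ Real.exp (δ / 4 * t) := Real.one_le_exp (by positivity)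
      nlinarith
    have h7 : (1 + t) ^ 2 ≤ ((1 + 4 / δ) * Real.exp (δ / 4 * t)) ^ 2 :=
      pow_le_pow_left₀ (by linarith) h1 2
    calc (1 + t) ^ 2 * Real.exp (-δ * t)
        ≤ ((1 + 4 / δ) * Real.exp (δ / 4 * t)) ^ 2 * Real.exp (-δ * t) :=
          mul_le_mul_of_nonneg_right h7 (Real.exp_pos _).le
      _ = (1 + 4 / δ) ^ 2 * Real.exp (-(δ / 2) * t) := by
          rw [mul_pow, mul_assoc, ← Real.exp_nat_mul, ← Real.exp_add]
          congr 2
          push_cast
          ring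
  have hb : ∀ z, ‖f z‖ ≤ (C * C') * Real.exp (-(δ / 2) * Poi.sq z) := fun z => by
    have := h' (Poi.sq z) (Poi.sq_nonneg z)
    calc ‖f z‖ ≤ C * ((1 + Poi.sq z) ^ 2 * Real.exp (-δ * Poi.sq z)) := h z
      _ ≤ C * (C' * Real.exp (-(δ / 2) * Poi.sq z)) := mul_le_mul_of_nonneg_left this hC.le
      _ = _ := by ring
  exact lus_integrable hf (lus_of_bound (by positivity) (by positivity) hb)

omit [DecidableEq ι] in
theorem abs_le_sq (z : ι → ℝ) (i : ι) : |z i| ≤ 1 + Poi.sq z := by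
  have h1 : z i ^ 2 ≤ Poi.sq z := by
    unfold Poi.sq
    exact Finset.single_le_sum (f := fun i => z i ^ 2) (fun j _ => _root_.sq_nonneg _)
      (Finset.mem_univ i)
  rw [abs_le]
  constructor <;> nlinarith [_root_.sq_nonneg (z i - 1), _root_.sq_nonneg (z i + 1)]

theorem int0 (d : ι → ℂ) : Integrable (g0 d) := by
  obtain ⟨δ, hδ, C, hC, h⟩ := g0_bound d
  refine integrable_of_bound (g0_continuous d) hC hδ fun z => (h z).trans ?_
  have h1 := Poi.sq_nonneg z
  have h2 : Real.exp (-δ * Poi.sq z) ≤ (1 + Poi.sq z) ^ 2 * Real.exp (-δ * Poi.sq z) :=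
    le_mul_of_one_le_left (Real.exp_pos _).le (by nlinarith)
  exact mul_le_mul_of_nonneg_left h2 hC.le

theorem int1 (d : ι → ℂ) (i : ι) : Integrable fun z : ι → ℝ => (z i : ℂ) * g0 d z := by
  obtain ⟨δ, hδ, C, hC, h⟩ := g0_bound d
  refine integrable_of_bound ((Complex.continuous_ofReal.comp (continuous_apply i)).mul
    (g0_continuous d)) hC hδ fun z => ?_
  rw [norm_mul, Complex.norm_real, Real.norm_eq_abs]
  have h1 := Poi.sq_nonneg z
  have h2 := abs_le_sq z i
  have h3 : |z i| ≤ (1 + Poi.sq z) ^ 2 := by nlinarith [abs_nonneg (z i)]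
  calc |z i| * ‖g0 d z‖ ≤ (1 + Poi.sq z) ^ 2 * (C * Real.exp (-δ * Poi.sq z)) :=
        mul_le_mul h3 (h z) (norm_nonneg _) (by positivity)
    _ = _ := by ring

theorem int2 (d : ι → ℂ) (i j : ι) :
    Integrable fun z : ι → ℝ => (z i : ℂ) * (z j : ℂ) * g0 d z := by
  obtain ⟨δ, hδ, C, hC, h⟩ := g0_bound d
  refine integrable_of_bound (((Complex.continuous_ofReal.comp (continuous_apply i)).mul
    (Complex.continuous_ofReal.comp (continuous_apply j))).mul (g0_continuous d)) hC hδ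
    fun z => ?_
  rw [norm_mul, norm_mul, Complex.norm_real, Complex.norm_real, Real.norm_eq_abs,
    Real.norm_eq_abs]
  have h1 := Poi.sq_nonneg z
  have h3 : |z i| * |z j| ≤ (1 + Poi.sq z) ^ 2 := by
    rw [_root_.sq]
    exact mul_le_mul (abs_le_sq z i) (abs_le_sq z j) (abs_nonneg _) (by linarith)
  calc |z i| * |z j| * ‖g0 d z‖ ≤ (1 + Poi.sq z) ^ 2 * (C * Real.exp (-δ * Poi.sq z)) :=
        mul_le_mul h3 (h z) (norm_nonneg _) (by positivity)
    _ = _ := by ring

/-- the derivative in the direction `e_i` -/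
theorem g0_deriv (d : ι → ℂ) (i : ι) (z : ι → ℝ) :
    HasLineDerivAt ℝ (g0 d) ((-2 * Real.pi * (z i : ℂ) + 2 * Real.pi * Complex.I * d i) * g0 d z)
      z (Pi.single i 1) := by
  unfold HasLineDerivAt
  -- g0 d (z + t e_i) = exp (polynomial in t)
  have h1 : ∀ t : ℝ, g0 d (z + t • Pi.single i 1) =
      Complex.exp ((-Real.pi * ∑ j, (z j : ℂ) ^ 2 + 2 * Real.pi * Complex.I * ∑ j, d j * (z j : ℂ)) +
        (t : ℂ) * (-2 * Real.pi * (z i : ℂ) + 2 * Real.pi * Complex.I * d i) -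
        Real.pi * (t : ℂ) ^ 2) := by
    intro t
    unfold g0
    congr 1
    have h2 : ∀ j, (((z + t • Pi.single i 1 : ι → ℝ) j : ℝ) : ℂ) =
        (z j : ℂ) + (t : ℂ) * (if j = i then 1 else 0) := by
      intro j
      simp only [Pi.add_apply, Pi.smul_apply, smul_eq_mul]
      by_cases hj : j = i
      · subst hj; simp
      · simp [Pi.single_eq_of_ne hj, hj]
    simp_rw [h2]
    have h3 : ∑ j, ((z j : ℂ) + (t : ℂ) * (if j = i then 1 else 0)) ^ 2 =
        ∑ j, (z j : ℂ) ^ 2 + 2 * t * z i + t ^ 2 := by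
      have : ∀ j, ((z j : ℂ) + (t : ℂ) * (if j = i then 1 else 0)) ^ 2 =
          (z j : ℂ) ^ 2 + (if j = i then 2 * (t : ℂ) * z j + t ^ 2 else 0) := by
        intro j
        split_ifs <;> ring
      simp_rw [this]
      rw [Finset.sum_add_distrib, Finset.sum_ite_eq' Finset.univ i]
      simp
      ring
    have h4 : ∑ j, d j * ((z j : ℂ) + (t : ℂ) * (if j = i then 1 else 0)) =
        ∑ j, d j * (z j : ℂ) + t * d i := by
      have : ∀ j, d j * ((z j : ℂ) + (t : ℂ) * (if j = i then 1 else 0)) =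
          d j * (z j : ℂ) + (if j = i then t * d j else 0) := by
        intro j
        split_ifs <;> ring
      simp_rw [this]
      rw [Finset.sum_add_distrib, Finset.sum_ite_eq' Finset.univ i]
      simp
    rw [h3, h4]
    ring
  have h2 : (fun t : ℝ => g0 d (z + t • Pi.single i 1)) = fun t : ℝ =>
      Complex.exp ((-Real.pi * ∑ j, (z j : ℂ) ^ 2 + 2 * Real.pi * Complex.I * ∑ j, d j * (z j : ℂ)) +
        (t : ℂ) * (-2 * Real.pi * (z i : ℂ) + 2 * Real.pi * Complex.I * d i) -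
        Real.pi * (t : ℂ) ^ 2) := funext h1
  have h3 : (0 : ℝ) = 0 := rfl
  rw [h2]
  have hofr : HasDerivAt (fun t : ℝ => (t : ℂ)) 1 0 := Complex.ofRealCLM.hasDerivAt
  have h4 : HasDerivAt (fun t : ℝ =>
      ((-Real.pi * ∑ j, (z j : ℂ) ^ 2 + 2 * Real.pi * Complex.I * ∑ j, d j * (z j : ℂ)) +
        (t : ℂ) * (-2 * Real.pi * (z i : ℂ) + 2 * Real.pi * Complex.I * d i) -
        Real.pi * (t : ℂ) ^ 2)) (-2 * Real.pi * (z i : ℂ) + 2 * Real.pi * Complex.I * d i) 0 := by
    have h5 := ((hofr.mul_const (-2 * Real.pi * (z i : ℂ) + 2 * Real.pi * Complex.I * d i)).const_add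
      (-Real.pi * ∑ j, (z j : ℂ) ^ 2 + 2 * Real.pi * Complex.I * ∑ j, d j * (z j : ℂ))).sub
      ((hofr.pow 2).const_mul (Real.pi : ℂ))
    refine h5.congr_deriv ?_
    simp
  refine h4.cexp.congr_deriv ?_
  have h7 : Complex.exp ((-Real.pi * ∑ j, (z j : ℂ) ^ 2 +
      2 * Real.pi * Complex.I * ∑ j, d j * (z j : ℂ)) +
        ((0 : ℝ) : ℂ) * (-2 * Real.pi * (z i : ℂ) + 2 * Real.pi * Complex.I * d i) -
        Real.pi * ((0 : ℝ) : ℂ) ^ 2) = g0 d z := by
    unfold g0
    simp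
  rw [h7]
  ring

/-- integration by parts -/
theorem by_parts (d : ι → ℂ) (i : ι) (f f' : (ι → ℝ) → ℂ)
    (hf : ∀ z, HasLineDerivAt ℝ f (f' z) z (Pi.single i 1))
    (h1 : Integrable fun z => f' z * g0 d z)
    (h2 : Integrable fun z => f z * ((-2 * Real.pi * (z i : ℂ) + 2 * Real.pi * Complex.I * d i) *
      g0 d z))
    (h3 : Integrable fun z => f z * g0 d z) :
    ∫ z, f z * ((-2 * Real.pi * (z i : ℂ) + 2 * Real.pi * Complex.I * d i) * g0 d z) =
      -∫ z, f' z * g0 d z :=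
  integral_bilinear_hasLineDerivAt_right_eq_neg_left_of_integrable
    (B := ContinuousLinearMap.mul ℝ ℂ) h1 h2 h3 (fun z _ => hf z) (fun z _ => g0_deriv d i z)

/-- first moments -/
theorem mom1 (d : ι → ℂ) (i : ι) :
    ∫ z : ι → ℝ, (z i : ℂ) * g0 d z = Complex.I * d i * ∫ z : ι → ℝ, g0 d z := by
  have h := by_parts d i (fun _ => 1) (fun _ => 0)
    (fun z => by unfold HasLineDerivAt; exact hasDerivAt_const _ _) (by simp)
    (by
      simp only [one_mul, add_mul]
      refine Integrable.add ?_ ((int0 d).const_mul _)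
      simp only [mul_assoc]
      exact ((int1 d i).const_mul _).const_mul _) (by simpa using int0 d)
  simp only [one_mul, zero_mul, integral_zero, neg_zero, add_mul] at h
  rw [integral_add (by
    simp only [mul_assoc]
    exact ((int1 d i).const_mul _).const_mul _) ((int0 d).const_mul _), integral_const_mul] at h
  have h2 : ∫ z : ι → ℝ, -2 * Real.pi * (z i : ℂ) * g0 d z =
      -2 * Real.pi * ∫ z : ι → ℝ, (z i : ℂ) * g0 d z := by
    rw [← integral_const_mul]
    exact integral_congr_ae (.of_forall fun z => by ring)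
  rw [h2] at h
  have hpi : (Real.pi : ℂ) ≠ 0 := Complex.ofReal_ne_zero.2 Real.pi_ne_zero
  have h3 : (2 * Real.pi : ℂ) * (∫ z : ι → ℝ, (z i : ℂ) * g0 d z) =
      (2 * Real.pi : ℂ) * (Complex.I * d i * ∫ z : ι → ℝ, g0 d z) := by
    linear_combination -h
  exact mul_left_cancel₀ (mul_ne_zero two_ne_zero hpi) h3

/-- second moments -/
theorem mom2 (d : ι → ℂ) (i j : ι) :
    ∫ z : ι → ℝ, (z i : ℂ) * (z j : ℂ) * g0 d z =
      ((Complex.I * d i) * (Complex.I * d j) + (if i = j then 1 else 0) / (2 * Real.pi)) *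
        ∫ z : ι → ℝ, g0 d z := by
  have hd : ∀ z : ι → ℝ, HasLineDerivAt ℝ (fun z : ι → ℝ => (z j : ℂ))
      (if i = j then 1 else 0) z (Pi.single i 1) := by
    intro z
    unfold HasLineDerivAt
    have h1 : (fun t : ℝ => (((z + t • Pi.single i 1 : ι → ℝ) j : ℝ) : ℂ)) =
        fun t : ℝ => (z j : ℂ) + (t : ℂ) * (if i = j then 1 else 0) := by
      funext t
      simp only [Pi.add_apply, Pi.smul_apply, smul_eq_mul]
      by_cases hj : i = j
      · subst hj; simp
      · simp [Pi.single_eq_of_ne (Ne.symm hj), hj]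
    rw [h1]
    have hofr : HasDerivAt (fun t : ℝ => (t : ℂ)) 1 0 := Complex.ofRealCLM.hasDerivAt
    have h5 := (hofr.mul_const (if i = j then (1 : ℂ) else 0)).const_add (z j : ℂ)
    convert h5 using 1
    simp
  have h := by_parts d i (fun z => (z j : ℂ)) (fun _ => if i = j then 1 else 0) hd
    ((int0 d).const_mul _)
    (by
      have e : (fun z : ι → ℝ => (z j : ℂ) *
          ((-2 * Real.pi * (z i : ℂ) + 2 * Real.pi * Complex.I * d i) * g0 d z)) =
          fun z : ι → ℝ => (-2 * Real.pi) * ((z i : ℂ) * (z j : ℂ) * g0 d z) +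
            (2 * Real.pi * Complex.I * d i) * ((z j : ℂ) * g0 d z) := by
        funext z
        ring
      rw [e]
      exact ((int2 d i j).const_mul _).add ((int1 d j).const_mul _)) (int1 d j)
  have e : (fun z : ι → ℝ => (z j : ℂ) *
      ((-2 * Real.pi * (z i : ℂ) + 2 * Real.pi * Complex.I * d i) * g0 d z)) =
      fun z : ι → ℝ => (-2 * Real.pi) * ((z i : ℂ) * (z j : ℂ) * g0 d z) +
        (2 * Real.pi * Complex.I * d i) * ((z j : ℂ) * g0 d z) := by
    funext z
    ring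
  rw [e, integral_add ((int2 d i j).const_mul _) ((int1 d j).const_mul _), integral_const_mul,
    integral_const_mul, integral_const_mul, mom1] at h
  have hpi : (Real.pi : ℂ) ≠ 0 := Complex.ofReal_ne_zero.2 Real.pi_ne_zero
  have h3 : (2 * Real.pi : ℂ) * (∫ z : ι → ℝ, (z i : ℂ) * (z j : ℂ) * g0 d z) =
      (2 * Real.pi : ℂ) * (((Complex.I * d i) * (Complex.I * d j) +
        (if i = j then 1 else 0) / (2 * Real.pi)) * ∫ z : ι → ℝ, g0 d z) := by
    field_simp
    linear_combination -h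
  exact mul_left_cancel₀ (mul_ne_zero two_ne_zero hpi) h3

end Pool.CMH.Mom
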