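import Mathlib
import Pool.Agent.Lib.CMH.WigMom

/-!
Gaussian integrals with two linear factors (helper16).
-/

set_option autoImplicit false

open MeasureTheory Set Filter Topology

namespace Pool.CMH.Mom

open Pool.CMH.Poi hiding sq sq_nonneg

variable {ι : Type*} [Fintype ι] [DecidableEq ι]

theorem integral_g0 (d : ι → ℂ) :
    ∫ z : ι → ℝ, g0 d z = Complex.exp (-Real.pi * ∑ i, d i ^ 2) := by
  have h1 : (fun z : ι → ℝ => g0 d z) = gau (1 : Matrix ι ι ℝ) d := funext (g0_eq d)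
  rw [h1, integral_gau (1 : Matrix ι ι ℝ) (by simp)]
  have h2 : ((1 : Matrix ι ι ℝ)⁻¹.transpose.map (fun r : ℝ => (r : ℂ))).mulVec d = d := by
    rw [inv_one, Matrix.transpose_one, Matrix.map_one _ (by simp) (by simp), Matrix.one_mulVec]
  rw [h2]
  simp

/-- two linear factors, standard Gaussian -/
theorem gm0 (d u u' : ι → ℂ) (b b' : ℂ) :
    ∫ z : ι → ℝ, (∑ i, u i * (z i : ℂ) + b) * (∑ i, u' i * (z i : ℂ) + b') * g0 d z =
      ((Complex.I * ∑ i, u i * d i + b) * (Complex.I * ∑ i, u' i * d i + b') +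
        (∑ i, u i * u' i) / (2 * Real.pi)) * Complex.exp (-Real.pi * ∑ i, d i ^ 2) := by
  have e : (fun z : ι → ℝ => (∑ i, u i * (z i : ℂ) + b) * (∑ i, u' i * (z i : ℂ) + b') *
      g0 d z) = fun z : ι → ℝ => (∑ i, ∑ j, (u i * u' j) * ((z i : ℂ) * (z j : ℂ) * g0 d z)) +
        ((∑ i, (b' * u i) * ((z i : ℂ) * g0 d z)) + ((∑ i, (b * u' i) * ((z i : ℂ) * g0 d z)) +
          (b * b') * g0 d z)) := by
    funext z
    have h1 : (∑ i, ∑ j, (u i * u' j) * ((z i : ℂ) * (z j : ℂ) * g0 d z)) =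
        (∑ i, u i * (z i : ℂ)) * (∑ j, u' j * (z j : ℂ)) * g0 d z := by
      rw [Finset.sum_mul_sum, Finset.sum_mul]
      refine Finset.sum_congr rfl fun i _ => ?_
      rw [Finset.sum_mul]
      refine Finset.sum_congr rfl fun j _ => ?_
      ring
    have h2 : (∑ i, (b' * u i) * ((z i : ℂ) * g0 d z)) = b' * (∑ i, u i * (z i : ℂ)) * g0 d z := by
      rw [Finset.mul_sum, Finset.sum_mul]
      refine Finset.sum_congr rfl fun i _ => ?_
      ring
    have h3 : (∑ i, (b * u' i) * ((z i : ℂ) * g0 d z)) = b * (∑ i, u' i * (z i : ℂ)) * g0 d z := by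
      rw [Finset.mul_sum, Finset.sum_mul]
      refine Finset.sum_congr rfl fun i _ => ?_
      ring
    rw [h1, h2, h3]
    ring
  have i1 : Integrable fun z : ι → ℝ => ∑ i, ∑ j, (u i * u' j) * ((z i : ℂ) * (z j : ℂ) * g0 d z) :=
    integrable_finsetSum _ fun i _ => integrable_finsetSum _ fun j _ => (int2 d i j).const_mul _
  have i2 : Integrable fun z : ι → ℝ => ∑ i, (b' * u i) * ((z i : ℂ) * g0 d z) :=
    integrable_finsetSum _ fun i _ => (int1 d i).const_mul _
  have i3 : Integrable fun z : ι → ℝ => ∑ i, (b * u' i) * ((z i : ℂ) * g0 d z) :=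
    integrable_finsetSum _ fun i _ => (int1 d i).const_mul _
  have i4 : Integrable fun z : ι → ℝ => (b * b') * g0 d z := (int0 d).const_mul _
  have i34 : Integrable fun z : ι → ℝ => (∑ i, (b * u' i) * ((z i : ℂ) * g0 d z)) +
      (b * b') * g0 d z := i3.add i4
  have i234 : Integrable fun z : ι → ℝ => (∑ i, (b' * u i) * ((z i : ℂ) * g0 d z)) +
      ((∑ i, (b * u' i) * ((z i : ℂ) * g0 d z)) + (b * b') * g0 d z) := i2.add i34
  rw [e, integral_add i1 i234, integral_add i2 i34, integral_add i3 i4,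
    integral_finsetSum _ fun i _ => integrable_finsetSum _ fun j _ => (int2 d i j).const_mul _,
    integral_finsetSum _ fun i _ => (int1 d i).const_mul _,
    integral_finsetSum _ fun i _ => (int1 d i).const_mul _, integral_const_mul]
  simp_rw [integral_finsetSum Finset.univ fun j _ => (int2 d _ j).const_mul _,
    integral_const_mul, mom1, mom2, integral_g0]
  set E := Complex.exp (-Real.pi * ∑ i, d i ^ 2)
  have h1 : ∑ i, ∑ j, u i * u' j * ((Complex.I * d i * (Complex.I * d j) +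
      (if i = j then 1 else 0) / (2 * Real.pi)) * E) =
      ((Complex.I * ∑ i, u i * d i) * (Complex.I * ∑ i, u' i * d i) +
        (∑ i, u i * u' i) / (2 * Real.pi)) * E := by
    have h2 : ∀ i j, u i * u' j * ((Complex.I * d i * (Complex.I * d j) +
        (if i = j then 1 else 0) / (2 * Real.pi)) * E) =
        (Complex.I * (u i * d i)) * (Complex.I * (u' j * d j)) * E +
          (if i = j then u i * u' j / (2 * Real.pi) * E else 0) := by
      intro i j
      split_ifs <;> ring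
    simp_rw [h2, Finset.sum_add_distrib, Finset.sum_ite_eq, Finset.mem_univ, if_true]
    rw [add_mul, Finset.mul_sum, Finset.mul_sum, Finset.sum_mul_sum, Finset.sum_mul,
      Finset.sum_div, Finset.sum_mul]
    congr 1
    refine Finset.sum_congr rfl fun i _ => ?_
    rw [Finset.sum_mul]
  have h3 : ∑ i, b' * u i * (Complex.I * d i * E) = b' * (Complex.I * ∑ i, u i * d i) * E := by
    rw [Finset.mul_sum, Finset.mul_sum, Finset.sum_mul]
    refine Finset.sum_congr rfl fun i _ => ?_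
    ring
  have h4 : ∑ i, b * u' i * (Complex.I * d i * E) = b * (Complex.I * ∑ i, u' i * d i) * E := by
    rw [Finset.mul_sum, Finset.mul_sum, Finset.sum_mul]
    refine Finset.sum_congr rfl fun i _ => ?_
    ring
  rw [h1, h3, h4]
  ring

/-- the transformed vector -/
noncomputable def Bc (A : Matrix ι ι ℝ) (c : ι → ℂ) : ι → ℂ :=
  (A⁻¹.transpose.map (fun r : ℝ => (r : ℂ))).mulVec c

theorem Bc_dot (A : Matrix ι ι ℝ) (hA : A.det ≠ 0) (c : ι → ℂ) (x : ι → ℝ) :
    ∑ i, Bc A c i * ((A.mulVec x i : ℝ) : ℂ) = ∑ i, c i * (x i : ℂ) := by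
  have hu : IsUnit A.det := isUnit_iff_ne_zero.2 hA
  have h1 : (fun i => ((A.mulVec x i : ℝ) : ℂ)) =
      (A.map (fun r : ℝ => (r : ℂ))).mulVec (fun i => (x i : ℂ)) := by
    funext i
    simp [Matrix.mulVec, dotProduct]
  have h2 : ∑ i, Bc A c i * ((A.mulVec x i : ℝ) : ℂ) =
      dotProduct (Bc A c) (fun i => ((A.mulVec x i : ℝ) : ℂ)) := rfl
  rw [h2, h1]
  have h3 : Bc A c = Matrix.vecMul c (A⁻¹.map (fun r : ℝ => (r : ℂ))) := by
    unfold Bc
    rw [Matrix.transpose_map, Matrix.mulVec_transpose]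
  have h4 : A⁻¹.map (fun r : ℝ => (r : ℂ)) * A.map (fun r : ℝ => (r : ℂ)) = 1 := by
    have h5 : (A⁻¹ * A).map (Complex.ofRealHom) =
        A⁻¹.map (Complex.ofRealHom) * A.map (Complex.ofRealHom) := Matrix.map_mul
    have h6 : A⁻¹.map (fun r : ℝ => (r : ℂ)) * A.map (fun r : ℝ => (r : ℂ)) =
      (A⁻¹ * A).map (Complex.ofRealHom) := h5.symm
    rw [h6, Matrix.nonsing_inv_mul A hu, Matrix.map_one _ (by simp) (by simp)]
  rw [Matrix.dotProduct_mulVec, h3, Matrix.vecMul_vecMul, h4, Matrix.vecMul_one]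
  rfl

theorem Bc_Bc (A : Matrix ι ι ℝ) (u c : ι → ℂ) :
    ∑ i, Bc A u i * Bc A c i =
      ∑ i, ∑ j, (((A⁻¹ * A⁻¹.transpose) i j : ℝ) : ℂ) * u i * c j := by
  have h1 : ∀ (u : ι → ℂ) (i : ι), Bc A u i = ∑ j, ((A⁻¹ j i : ℝ) : ℂ) * u j := fun u i => rfl
  simp_rw [h1, Matrix.mul_apply, Matrix.transpose_apply, Finset.sum_mul_sum]
  rw [Finset.sum_comm]
  refine Finset.sum_congr rfl fun i _ => ?_
  rw [Finset.sum_comm]
  refine Finset.sum_congr rfl fun j _ => ?_
  push_cast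
  rw [Finset.sum_mul, Finset.sum_mul]
  refine Finset.sum_congr rfl fun l _ => ?_
  ring

/-- two linear factors, general Gaussian `exp(-π |A x|²)` -/
theorem gmA (A : Matrix ι ι ℝ) (hA : A.det ≠ 0) (c u u' : ι → ℂ) (b b' : ℂ) :
    ∫ x : ι → ℝ, (∑ i, u i * (x i : ℂ) + b) * (∑ i, u' i * (x i : ℂ) + b') *
      Complex.exp (-Real.pi * ((Poi.sq (A.mulVec x) : ℝ) : ℂ) +
        2 * Real.pi * Complex.I * ∑ i, c i * (x i : ℂ)) =
      ((|A.det|⁻¹ : ℝ) : ℂ) *
        (((Complex.I * ∑ i, Bc A u i * Bc A c i + b) *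
          (Complex.I * ∑ i, Bc A u' i * Bc A c i + b') +
        (∑ i, Bc A u i * Bc A u' i) / (2 * Real.pi)) *
          Complex.exp (-Real.pi * ∑ i, Bc A c i * Bc A c i)) := by
  have h1 := integral_mulVec A hA (fun z : ι → ℝ => (∑ i, Bc A u i * (z i : ℂ) + b) *
    (∑ i, Bc A u' i * (z i : ℂ) + b') * g0 (Bc A c) z)
  simp only [Bc_dot A hA] at h1
  rw [gm0] at h1
  have h2 : ∀ x : ι → ℝ, g0 (Bc A c) (A.mulVec x) =
      Complex.exp (-Real.pi * ((Poi.sq (A.mulVec x) : ℝ) : ℂ) +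
        2 * Real.pi * Complex.I * ∑ i, c i * (x i : ℂ)) := by
    intro x
    unfold g0 Poi.sq
    rw [Bc_dot A hA]
    push_cast
    rfl
  simp_rw [h2] at h1
  rw [h1]
  simp_rw [pow_two]

open scoped MatrixOrder ComplexOrder in
theorem exists_root (P : Matrix ι ι ℝ) (hP : P.PosDef) :
    ∃ A : Matrix ι ι ℝ, A.transpose * A = P ∧ A.det ≠ 0 := by
  obtain ⟨A, hA⟩ := CStarAlgebra.nonneg_iff_eq_star_mul_self.mp hP.posSemidef.nonneg
  have h1 : A.transpose * A = P := by
    rw [hA, Matrix.star_eq_conjTranspose, Matrix.conjTranspose_eq_transpose_of_trivial]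
  refine ⟨A, h1, fun h0 => ?_⟩
  have h2 := hP.det_pos
  rw [← h1, Matrix.det_mul, h0, mul_zero] at h2
  exact lt_irrefl _ h2

/-- GM: two linear factors, Gaussian `exp(-π xᵀ P x)`, `P Q = 1` -/
theorem gm (P Q : Matrix ι ι ℝ) (hP : P.PosDef) (hPQ : P * Q = 1) (u u' c : ι → ℂ) (b b' : ℂ) :
    ∫ x : ι → ℝ, (∑ i, u i * (x i : ℂ) + b) * (∑ i, u' i * (x i : ℂ) + b') *
      Complex.exp (-Real.pi * ∑ i, ∑ j, (P i j : ℂ) * (x i : ℂ) * (x j : ℂ) +
        2 * Real.pi * Complex.I * ∑ i, c i * (x i : ℂ)) =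
      (((√P.det)⁻¹ : ℝ) : ℂ) * Complex.exp (-Real.pi * ∑ i, ∑ j, (Q i j : ℂ) * c i * c j) *
        ((Complex.I * ∑ i, ∑ j, (Q i j : ℂ) * u i * c j + b) *
          (Complex.I * ∑ i, ∑ j, (Q i j : ℂ) * u' i * c j + b') +
        (∑ i, ∑ j, (Q i j : ℂ) * u i * u' j) / (2 * Real.pi)) := by
  obtain ⟨A, hA, hdet⟩ := exists_root P hP
  have hu : IsUnit A.det := isUnit_iff_ne_zero.2 hdet
  have hQ : A⁻¹ * A⁻¹.transpose = Q := by
    have h1 : P * (A⁻¹ * A⁻¹.transpose) = 1 := by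
      rw [← hA, Matrix.mul_assoc, ← Matrix.mul_assoc A, Matrix.mul_nonsing_inv A hu,
        Matrix.one_mul, ← Matrix.transpose_mul, Matrix.nonsing_inv_mul A hu, Matrix.transpose_one]
    have h2 : Q * P = 1 := mul_eq_one_comm.1 hPQ
    calc A⁻¹ * A⁻¹.transpose = (Q * P) * (A⁻¹ * A⁻¹.transpose) := by rw [h2, Matrix.one_mul]
      _ = Q * (P * (A⁻¹ * A⁻¹.transpose)) := Matrix.mul_assoc _ _ _
      _ = Q := by rw [h1, Matrix.mul_one]
  have hd : √P.det = |A.det| := by
    rw [← hA, Matrix.det_mul, Matrix.det_transpose, Real.sqrt_mul_self_eq_abs]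
  have hq : ∀ x : ι → ℝ, ((Poi.sq (A.mulVec x) : ℝ) : ℂ) =
      ∑ i, ∑ j, (P i j : ℂ) * (x i : ℂ) * (x j : ℂ) := by
    intro x
    have h1 : Poi.sq (A.mulVec x) = ∑ i, ∑ j, P i j * x i * x j := by
      have h2 : Poi.sq (A.mulVec x) = dotProduct (A.mulVec x) (A.mulVec x) := by
        unfold Poi.sq dotProduct
        exact Finset.sum_congr rfl fun i _ => pow_two _
      rw [h2, Matrix.dotProduct_mulVec, ← Matrix.mulVec_transpose, Matrix.mulVec_mulVec, hA]
      unfold dotProduct Matrix.mulVec dotProduct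
      refine Finset.sum_congr rfl fun i _ => ?_
      rw [Finset.sum_mul]
      have hs : ∀ j, P i j = P j i := fun j => by
        have := hP.isHermitian.apply i j
        simpa using this.symm
      refine Finset.sum_congr rfl fun j _ => ?_
      ring
    rw [h1]
    push_cast
    rfl
  have h := gmA A hdet c u u' b b'
  simp_rw [Bc_Bc, hQ, hq] at h
  rw [h, hd]
  ring

end Pool.CMH.Mom
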