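import Mathlib
import Pool.Agent.Lib.CMH.WigDefs

/-!
The one-place definitions and rows of WIG are in `Pool.Agent.Lib.CMH.WigDefs`; this file only
forwards to it.
-/
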